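import Pool.Agent.Lib.H68T.RegL
import Pool.Agent.Lib.H68T.TENT

/-!
# Chunk BPS: the local averages `B_ψ(m)` bounded by the `L¹` norm of `F_ψ`
-/

open Finset MeasureTheory

namespace Pool.Agent.Lib.H68T

/-! ### The weight `v` -/

theorem BPS_w_nonneg (y : ℝ) : 0 ≤ w y :=
  mul_nonneg (Real.smoothTransition.nonneg _) (Real.smoothTransition.nonneg _)

theorem BPS_w_le_one (y : ℝ) : w y ≤ 1 :=
  mul_le_one₀ (Real.smoothTransition.le_one _) (Real.smoothTransition.nonneg _)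
    (Real.smoothTransition.le_one _)

theorem BPS_w_eq_one {y : ℝ} (h1 : -1 ≤ y) (h2 : y ≤ 3) : w y = 1 := by
  unfold w
  rw [Real.smoothTransition.one_of_one_le (by linarith),
    Real.smoothTransition.one_of_one_le (by linarith), one_mul]

theorem BPS_w_eq_zero {y : ℝ} (h1 : y ≤ -2) : w y = 0 := by
  unfold w
  rw [Real.smoothTransition.zero_of_nonpos (by linarith), zero_mul]

theorem BPS_v_nonneg (X m : ℕ) : 0 ≤ v X m := BPS_w_nonneg _

theorem BPS_v_le_one (X m : ℕ) : v X m ≤ 1 := BPS_w_le_one _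

/-- `v(m)/m ≤ 9/X` -/
theorem BPS_v_div_le {X m : ℕ} (hX : 1 ≤ X) (hm : 1 ≤ m) : v X m / m ≤ 9 / X := by
  have hX' : (0:ℝ) < X := by exact_mod_cast hX
  have hm' : (0:ℝ) < m := by exact_mod_cast hm
  rcases le_or_gt (Real.log ((m:ℝ) / X)) (-2) with h | h
  · have : v X m = 0 := BPS_w_eq_zero h
    rw [this, zero_div]; positivity
  · have h1 : Real.exp (-2) < (m:ℝ) / X := (Real.lt_log_iff_exp_lt (by positivity)).mp h
    have h2 : (1:ℝ) / 9 ≤ Real.exp (-2) := by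
      rw [Real.exp_neg, one_div]
      apply inv_anti₀ (Real.exp_pos _)
      have : Real.exp 2 = Real.exp 1 ^ 2 := by rw [← Real.exp_nat_mul]; norm_num
      rw [this]
      have h3 := Real.exp_one_lt_d9
      have h4 := Real.exp_pos 1
      nlinarith
    have h3 : (1:ℝ) / 9 < (m:ℝ) / X := lt_of_le_of_lt h2 h1
    rw [div_lt_div_iff₀ (by norm_num) hX'] at h3
    rw [div_le_div_iff₀ hm' hX']
    have := BPS_v_le_one X m
    have h0 := BPS_v_nonneg X m
    nlinarith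

theorem BPS_norm_cpow {m : ℕ} (hm : 1 ≤ m) (t : ℝ) :
    ‖(m : ℂ) ^ (-(1 + t * Complex.I))‖ = 1 / (m:ℝ) := by
  have hm' : (0:ℝ) < m := by exact_mod_cast hm
  have h := Complex.norm_cpow_eq_rpow_re_of_pos hm' (-(1 + t * Complex.I))
  have h2 : ((m:ℝ) : ℂ) = (m : ℂ) := by norm_cast
  rw [h2] at h
  rw [h]
  have : (-(1 + (t:ℂ) * Complex.I)).re = -1 := by simp
  rw [this, Real.rpow_neg_one, one_div]

/-- A general bound for the weighted polynomials. -/
theorem BPS_FF_le {X : ℕ} (hX : 1 ≤ X) (h : ℕ → ℂ) {D : ℝ}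
    (hD : ∑ m ∈ Icc 1 (60 * X), ‖h m‖ ≤ D * X) (t : ℝ) : ‖FF X h t‖ ≤ 9 * D := by
  have hX' : (0:ℝ) < X := by exact_mod_cast hX
  unfold FF
  calc ‖∑ m ∈ Icc 1 (60 * X), h m * (v X m : ℂ) * (m : ℂ) ^ (-(1 + t * Complex.I))‖
      ≤ ∑ m ∈ Icc 1 (60 * X), ‖h m * (v X m : ℂ) * (m : ℂ) ^ (-(1 + t * Complex.I))‖ :=
        norm_sum_le _ _
    _ ≤ ∑ m ∈ Icc 1 (60 * X), ‖h m‖ * (9 / X) := by
        apply Finset.sum_le_sum
        intro m hm
        rw [mem_Icc] at hm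
        rw [norm_mul, norm_mul, BPS_norm_cpow hm.1, mul_assoc]
        apply mul_le_mul_of_nonneg_left _ (norm_nonneg _)
        rw [Complex.norm_real, Real.norm_of_nonneg (BPS_v_nonneg X m), mul_one_div]
        exact BPS_v_div_le hX hm.1
    _ = (∑ m ∈ Icc 1 (60 * X), ‖h m‖) * (9 / X) := by rw [Finset.sum_mul]
    _ ≤ (D * X) * (9 / X) := mul_le_mul_of_nonneg_right hD (by positivity)
    _ = 9 * D := by field_simp

/-- Chebyshev -/
theorem BPS_sum_vM {X : ℕ} : ∑ m ∈ Icc 1 (60 * X), ArithmeticFunction.vonMangoldt m ≤ 600 * X := by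
  have h1 := Chebyshev.psi_le_const_mul_self (x := ((60 * X : ℕ) : ℝ)) (by positivity)
  have h2 : Chebyshev.psi ((60 * X : ℕ) : ℝ) =
      ∑ m ∈ Icc 1 (60 * X), ArithmeticFunction.vonMangoldt m := by
    unfold Chebyshev.psi
    rw [Nat.floor_natCast]
    rfl
  rw [← h2]
  refine h1.trans ?_
  have h4 : Real.log 4 ≤ 2 := by
    have : (4:ℝ) = 2 ^ 2 := by norm_num
    rw [this, Real.log_pow]
    have := Real.log_two_lt_d9
    push_cast
    linarith
  push_cast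
  have : (0:ℝ) ≤ X := by positivity
  nlinarith

theorem BPS_sum_norm {X : ℕ} (p : Σ r : ℕ, DirichletCharacter ℂ r) :
    ∑ m ∈ Icc 1 (60 * X), ‖(ArithmeticFunction.vonMangoldt m : ℂ) * p.2 (m : ZMod p.1)‖ ≤
      600 * X := by
  refine le_trans (Finset.sum_le_sum fun m _ => ?_) (BPS_sum_vM (X := X))
  rw [norm_mul, Complex.norm_real, Real.norm_of_nonneg ArithmeticFunction.vonMangoldt_nonneg]
  calc _ ≤ ArithmeticFunction.vonMangoldt m * 1 :=
        mul_le_mul_of_nonneg_left (DirichletCharacter.norm_le_one _ _)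
          ArithmeticFunction.vonMangoldt_nonneg
    _ = _ := mul_one _

/-- `∑_{m ≤ 60X, v(m) ≠ 0} Λ(m)/m ≤ C`: only `m ≥ X/e²` occur, and `ψ(60X) ≤ C X`
(Chebyshev, in Mathlib: `Chebyshev.psi_le` or similar). -/
theorem FL_le : ∃ C : ℝ, 0 < C ∧ ∀ (X : ℕ) (p : Σ r : ℕ, DirichletCharacter ℂ r) (t : ℝ), 1 ≤ X →
    ‖FL X p t‖ ≤ C :=
  ⟨9 * 600, by norm_num, fun _ p t hX => BPS_FF_le hX _ (BPS_sum_norm p) t⟩

theorem BPS_continuous_cpow {m : ℕ} (hm : 1 ≤ m) :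
    Continuous fun t : ℝ => (m : ℂ) ^ (-(1 + t * Complex.I)) := by
  have hm' : (m : ℂ) ≠ 0 := by
    have : m ≠ 0 := by omega
    exact_mod_cast this
  exact Continuous.const_cpow (by fun_prop) (Or.inl hm')

theorem continuous_FF (X : ℕ) (h : ℕ → ℂ) : Continuous (FF X h) := by
  unfold FF
  apply continuous_finsetSum
  intro m hm
  rw [mem_Icc] at hm
  exact continuous_const.mul (BPS_continuous_cpow hm.1)

/-! ### Integrability -/

theorem BPS_integrable_inv {g : ℝ → ℂ} (hg : Continuous g) {D : ℝ}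
    (hD : ∀ t, ‖g t‖ ≤ D / (1 + t ^ 2)) : Integrable g := by
  have h1 : Integrable fun t : ℝ => D * (1 + t ^ 2)⁻¹ := integrable_inv_one_add_sq.const_mul D
  refine h1.mono' hg.aestronglyMeasurable (Filter.Eventually.of_forall fun t => ?_)
  rw [← div_eq_mul_inv]
  exact hD t

/-- Tail of `1/(1+t²)`. -/
theorem BPS_tail {T : ℝ} (hT : 0 < T) :
    ∫ t in (Set.Icc (-T) T)ᶜ, (1 + t ^ 2)⁻¹ ≤ 2 / T := by
  have h1 : (Set.Icc (-T) T)ᶜ = Set.Iio (-T) ∪ Set.Ioi T := by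
    ext t
    simp only [Set.mem_compl_iff, Set.mem_Icc, not_and_or, not_le, Set.mem_union, Set.mem_Iio,
      Set.mem_Ioi]
  have hI : Integrable fun t : ℝ => (1 + t ^ 2)⁻¹ := integrable_inv_one_add_sq
  rw [h1, setIntegral_union _ measurableSet_Ioi hI.integrableOn hI.integrableOn]
  · have hpos : ∫ t in Set.Ioi T, (1 + t ^ 2)⁻¹ ≤ 1 / T := by
      have hi : IntegrableOn (fun t : ℝ => t ^ (-2 : ℝ)) (Set.Ioi T) :=
        integrableOn_Ioi_rpow_of_lt (by norm_num) hT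
      have e := integral_Ioi_rpow_of_lt (a := -2) (by norm_num) hT
      calc ∫ t in Set.Ioi T, (1 + t ^ 2)⁻¹ ≤ ∫ t in Set.Ioi T, t ^ (-2 : ℝ) := by
            apply setIntegral_mono_on hI.integrableOn hi measurableSet_Ioi
            intro t ht
            have ht' : 0 < t := hT.trans ht
            rw [Real.rpow_neg ht'.le, show (2:ℝ) = ((2:ℕ):ℝ) by norm_num, Real.rpow_natCast]
            apply inv_anti₀ (by positivity)
            linarith
        _ = 1 / T := by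
            rw [e]
            have : (-2 + 1 : ℝ) = -1 := by norm_num
            rw [this, Real.rpow_neg_one]
            field_simp
    have hneg : ∫ t in Set.Iio (-T), (1 + t ^ 2)⁻¹ = ∫ t in Set.Ioi T, (1 + t ^ 2)⁻¹ := by
      have := integral_comp_neg_Ioi (c := T) (f := fun t : ℝ => (1 + t ^ 2)⁻¹)
      rw [← integral_Iic_eq_integral_Iio, ← this]
      apply integral_congr_ae
      exact Filter.Eventually.of_forall fun t => by simp
    rw [hneg]
    have : 2 / T = 1 / T + 1 / T := by ring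
    linarith
  · rw [Set.disjoint_left]
    intro t ht1 ht2
    simp only [Set.mem_Iio, Set.mem_Ioi] at ht1 ht2
    linarith

theorem BPS_tent_nonneg (Y : ℕ) (z : ℤ) : 0 ≤ tent Y z := by
  unfold tent
  positivity

theorem BPS_tent_le (Y : ℕ) (z : ℤ) : tent Y z ≤ 1 / Y := by
  unfold tent
  rcases Nat.eq_zero_or_pos Y with h | h
  · subst h; simp
  have hY : (0:ℝ) < Y := by exact_mod_cast h
  rw [div_le_div_iff₀ (by positivity) hY]
  have : max 0 ((Y : ℝ) - |(z : ℝ)|) ≤ Y := max_le hY.le (by linarith [abs_nonneg (z:ℝ)])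
  nlinarith

theorem BPS_tent_zero {Y : ℕ} {z : ℤ} (h : (Y:ℤ) ≤ |z|) : tent Y z = 0 := by
  unfold tent
  have h' : (Y:ℝ) ≤ |(z:ℝ)| := by exact_mod_cast h
  rw [max_eq_left (by linarith), zero_div]

/-- The weight is `1` on the support of the tent. -/
theorem BPS_v_mul_tent {X Y : ℕ} (hX : 1 ≤ X) (hYX : 2 * Y ≤ X) {m : ℤ} (hm1 : (X : ℤ) ≤ m)
    (hm2 : m ≤ 4 * X) (n : ℕ) : v X n * tent Y (m - n) = tent Y (m - n) := by
  rcases le_or_gt (Y:ℤ) |m - n| with h | h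
  · rw [BPS_tent_zero h, mul_zero]
  · rw [abs_lt] at h
    have hX' : (0:ℝ) < X := by exact_mod_cast hX
    have h1 : (X:ℤ) ≤ 2 * n := by omega
    have h2 : (n:ℤ) ≤ 5 * X := by omega
    have h1' : (X:ℝ) ≤ 2 * n := by exact_mod_cast h1
    have h2' : (n:ℝ) ≤ 5 * X := by exact_mod_cast h2
    have h3 : (1:ℝ) / 2 ≤ (n:ℝ) / X := by
      rw [div_le_div_iff₀ (by norm_num) hX']; linarith
    have h4 : (n:ℝ) / X ≤ 5 := by rw [div_le_iff₀ hX']; linarith
    have h5 : v X n = 1 := by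
      apply BPS_w_eq_one
      · have := Real.log_le_log (by norm_num) h3
        rw [one_div, Real.log_inv] at this
        have := Real.log_two_lt_d9
        linarith
      · have := Real.log_le_log (by linarith) h4
        have h8 : Real.log 5 ≤ Real.log (2 ^ 3) := Real.log_le_log (by norm_num) (by norm_num)
        rw [Real.log_pow] at h8
        have := Real.log_two_lt_d9
        push_cast at h8
        linarith
    rw [h5, one_mul]

/-- General statement: the average of `h` against the tent. -/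
theorem BPS_general {Q X Y : ℕ} (hQ : 1 ≤ Q) (hX : 1 ≤ X) (hY : 1 ≤ Y)
    (hYX : 2 * Y ≤ X) (hYQ : (X : ℝ) ≤ 2 * Q ^ 2 * Y) (h : ℕ → ℂ) {D : ℝ} (hD0 : 0 ≤ D)
    (hD : ∑ n ∈ Icc 1 (60 * X), ‖h n‖ ≤ D * X) (m : ℤ) (hm1 : (X : ℤ) ≤ m) (hm2 : m ≤ 4 * X) :
    ‖∑ n ∈ Icc 1 (60 * X), h n * (tent Y (m - n) : ℂ)‖ ≤
      (∫ t in (-(Q : ℝ) ^ 7)..((Q : ℝ) ^ 7), ‖FF X h t‖) + 11520 * D / (Q : ℝ) ^ 3 := by
  have hQ' : (0:ℝ) < Q := by exact_mod_cast hQ
  have hX' : (0:ℝ) < X := by exact_mod_cast hX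
  have hY' : (0:ℝ) < Y := by exact_mod_cast hY
  have hm1' : (X:ℝ) ≤ m := by exact_mod_cast hm1
  have hm2' : (m:ℝ) ≤ 4 * X := by exact_mod_cast hm2
  obtain ⟨gt, hc, hb1, hb2, hrep⟩ := tent_rep Y m hY (by omega)
  set E : ℝ := 10 * ((m : ℝ) / Y) ^ 2 with hE
  have hE0 : 0 ≤ E := by positivity
  have hmY : (m:ℝ) / Y ≤ 8 * Q ^ 2 := by
    rw [div_le_iff₀ hY']; nlinarith
  have hE1 : E ≤ 640 * Q ^ 4 := by
    have h0 : 0 ≤ (m:ℝ) / Y := div_nonneg (by linarith) hY'.le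
    have : ((m:ℝ) / Y) ^ 2 ≤ (8 * Q ^ 2) ^ 2 := by gcongr
    rw [hE]; nlinarith
  have hFF := BPS_FF_le hX h hD
  have hFc := continuous_FF X h
  -- the identity
  have key : ∑ n ∈ Icc 1 (60 * X), h n * (tent Y (m - n) : ℂ) = ∫ t : ℝ, gt t * FF X h t := by
    have h1 : ∀ n ∈ Icc 1 (60 * X), h n * (tent Y (m - n) : ℂ) =
        ∫ t : ℝ, gt t * (h n * (v X n : ℂ) * (n : ℂ) ^ (-(1 + t * Complex.I))) := by
      intro n hn
      rw [mem_Icc] at hn
      have h2 : (tent Y (m - n) : ℂ) = (v X n : ℂ) * (tent Y (m - n) : ℂ) := by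
        rw [← Complex.ofReal_mul, BPS_v_mul_tent hX hYX hm1 hm2]
      rw [h2, hrep n hn.1, ← mul_assoc, ← integral_const_mul]
      apply integral_congr_ae
      exact Filter.Eventually.of_forall fun t => by ring
    rw [Finset.sum_congr rfl h1, ← integral_finsetSum]
    · apply integral_congr_ae
      refine Filter.Eventually.of_forall fun t => ?_
      simp only [FF]
      rw [Finset.mul_sum]
    · intro n hn
      rw [mem_Icc] at hn
      have hcc := BPS_continuous_cpow hn.1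
      apply BPS_integrable_inv (D := E * ‖h n * (v X n : ℂ)‖)
      · fun_prop
      · intro t
        rw [norm_mul, norm_mul (h n * (v X n : ℂ)), BPS_norm_cpow hn.1]
        have hn' : (1:ℝ) ≤ n := by exact_mod_cast hn.1
        have h3 : 1 / (n:ℝ) ≤ 1 := by rw [div_le_one (by linarith)]; exact hn'
        calc ‖gt t‖ * (‖h n * (v X n : ℂ)‖ * (1 / (n:ℝ)))
            ≤ (E / (1 + t ^ 2)) * (‖h n * (v X n : ℂ)‖ * 1) := by
              apply mul_le_mul (hb2 t) _ (by positivity) (by positivity)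
              exact mul_le_mul_of_nonneg_left h3 (norm_nonneg _)
          _ = _ := by ring
  have hint : Integrable fun t : ℝ => gt t * FF X h t := by
    apply BPS_integrable_inv (D := E * (9 * D)) (by fun_prop)
    intro t
    rw [norm_mul]
    calc ‖gt t‖ * ‖FF X h t‖ ≤ (E / (1 + t ^ 2)) * (9 * D) :=
          mul_le_mul (hb2 t) (hFF t) (norm_nonneg _) (by positivity)
      _ = _ := by ring
  set T : ℝ := (Q:ℝ) ^ 7 with hT
  have hT0 : 0 < T := by positivity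
  rw [key, ← integral_add_compl (measurableSet_Icc (a := -T) (b := T)) hint]
  refine (norm_add_le _ _).trans ?_
  apply add_le_add
  · rw [intervalIntegral.integral_of_le (by linarith), ← integral_Icc_eq_integral_Ioc]
    refine (norm_integral_le_integral_norm _).trans ?_
    apply setIntegral_mono_on hint.norm.integrableOn
    · exact (hFc.norm.continuousOn).integrableOn_compact isCompact_Icc
    · exact measurableSet_Icc
    · intro t _
      rw [norm_mul]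
      calc ‖gt t‖ * ‖FF X h t‖ ≤ 1 * ‖FF X h t‖ :=
            mul_le_mul_of_nonneg_right (hb1 t) (norm_nonneg _)
        _ = _ := one_mul _
  · have hI : Integrable fun t : ℝ => E * (9 * D) * (1 + t ^ 2)⁻¹ :=
      integrable_inv_one_add_sq.const_mul _
    calc ‖∫ t in (Set.Icc (-T) T)ᶜ, gt t * FF X h t‖
        ≤ ∫ t in (Set.Icc (-T) T)ᶜ, ‖gt t * FF X h t‖ := norm_integral_le_integral_norm _
      _ ≤ ∫ t in (Set.Icc (-T) T)ᶜ, E * (9 * D) * (1 + t ^ 2)⁻¹ := by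
          apply setIntegral_mono_on hint.norm.integrableOn hI.integrableOn
            measurableSet_Icc.compl
          intro t _
          rw [norm_mul]
          calc ‖gt t‖ * ‖FF X h t‖ ≤ (E / (1 + t ^ 2)) * (9 * D) :=
                mul_le_mul (hb2 t) (hFF t) (norm_nonneg _) (by positivity)
            _ = _ := by ring
      _ = E * (9 * D) * ∫ t in (Set.Icc (-T) T)ᶜ, (1 + t ^ 2)⁻¹ := integral_const_mul _ _
      _ ≤ (640 * Q ^ 4) * (9 * D) * (2 / T) := by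
          apply mul_le_mul _ (BPS_tail hT0)
          · apply setIntegral_nonneg measurableSet_Icc.compl
            intro t _; positivity
          · positivity
          · exact mul_le_mul_of_nonneg_right hE1 (by positivity)
      _ = 11520 * D / (Q:ℝ) ^ 3 := by
          rw [hT]
          field_simp
          ring

/-! ### Total mass of the tent -/

theorem BPS_mass_aux (N : ℕ) : ∀ Y : ℕ, Y ≤ N →
    ∑ z ∈ Ioo (-(N : ℤ)) N, max 0 ((Y : ℝ) - |(z : ℝ)|) = (Y : ℝ) ^ 2 := by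
  intro Y
  induction Y with
  | zero =>
    intro _
    simp
  | succ Y ih =>
    intro hY
    have ih' := ih (by omega)
    have h1 : ∀ z ∈ Ioo (-(N : ℤ)) N, max 0 (((Y + 1 : ℕ) : ℝ) - |(z : ℝ)|) =
        max 0 ((Y : ℝ) - |(z : ℝ)|) + if |z| ≤ (Y:ℤ) then (1:ℝ) else 0 := by
      intro z _
      have hc : ((Y + 1 : ℕ) : ℝ) = (Y:ℝ) + 1 := by push_cast; ring
      rw [hc]
      split_ifs with h
      · have h' : |(z:ℝ)| ≤ Y := by exact_mod_cast h
        rw [max_eq_right (by linarith), max_eq_right (by linarith)]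
        ring
      · have h2 : (Y:ℤ) + 1 ≤ |z| := by omega
        have h' : (Y:ℝ) + 1 ≤ |(z:ℝ)| := by exact_mod_cast h2
        rw [max_eq_left (by linarith), max_eq_left (by linarith)]
        ring
    rw [Finset.sum_congr rfl h1, Finset.sum_add_distrib, ih', ← Finset.sum_filter]
    have h2 : (Ioo (-(N : ℤ)) N).filter (fun z => |z| ≤ (Y:ℤ)) = Icc (-(Y:ℤ)) Y := by
      ext z
      simp only [mem_filter, mem_Ioo, mem_Icc, abs_le]
      omega
    rw [h2, Finset.sum_const, Int.card_Icc, nsmul_eq_mul, mul_one]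
    have h3 : (Y:ℤ) + 1 - -(Y:ℤ) = ((2 * Y + 1 : ℕ) : ℤ) := by push_cast; ring
    rw [h3, Int.toNat_natCast]
    push_cast; ring

theorem BPS_mass {X Y : ℕ} (hY : 1 ≤ Y) (hYX : 2 * Y ≤ X) {m : ℤ} (hm1 : (X : ℤ) ≤ m)
    (hm2 : m ≤ 4 * X) : ∑ n ∈ Icc 1 (60 * X), tent Y (m - n) = 1 := by
  have hY' : (0:ℝ) < Y := by exact_mod_cast hY
  have h0 : ∑ z ∈ Ioo (-(Y : ℤ)) Y, tent Y z = 1 := by
    unfold tent
    rw [← Finset.sum_div, BPS_mass_aux Y Y le_rfl]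
    field_simp
  rw [← h0]
  have h1 : ∑ n ∈ (Icc 1 (60 * X)).filter (fun n : ℕ => |m - n| < Y), tent Y (m - n) =
      ∑ n ∈ Icc 1 (60 * X), tent Y (m - n) := by
    apply Finset.sum_subset (Finset.filter_subset _ _)
    intro n hn hn'
    rw [mem_filter, not_and, not_lt] at hn'
    exact BPS_tent_zero (hn' hn)
  rw [← h1]
  apply Finset.sum_nbij' (fun n : ℕ => m - n) (fun z => (m - z).toNat)
  · intro n hn
    rw [mem_filter, abs_lt] at hn
    rw [mem_Ioo]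
    omega
  · intro z hz
    rw [mem_Ioo] at hz
    rw [mem_filter, mem_Icc, abs_lt]
    omega
  · intro n hn
    rw [mem_filter, abs_lt] at hn
    omega
  · intro z hz
    rw [mem_Ioo] at hz
    omega
  · intro n _
    rfl

/-! ### Prime powers -/

theorem BPS_lp_le (n : ℕ) : lp n ≤ ArithmeticFunction.vonMangoldt n := by
  unfold lp
  split_ifs with h
  · rw [Int.toNat_natCast] at h
    rw [ArithmeticFunction.vonMangoldt_apply_prime h]
    simp
  · exact ArithmeticFunction.vonMangoldt_nonneg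

theorem BPS_prime_powers (X : ℕ) (hX : 1 ≤ X) :
    ∑ n ∈ Icc 1 (60 * X), (ArithmeticFunction.vonMangoldt n - lp n) ≤
      2 * √((60 * X : ℕ) : ℝ) * Real.log ((60 * X : ℕ) : ℝ) := by
  have h1 := Chebyshev.psi_sub_theta_le (x := ((60 * X : ℕ) : ℝ)) (by
    have : 1 ≤ 60 * X := by omega
    exact_mod_cast this)
  rw [Chebyshev.psi_sub_theta_eq_sum_not_prime, Nat.floor_natCast] at h1
  refine le_trans (le_of_eq ?_) h1
  rw [Finset.sum_filter]
  apply Finset.sum_congr rfl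
  intro n _
  unfold lp
  rw [Int.toNat_natCast]
  by_cases h : n.Prime
  · simp [h, ArithmeticFunction.vonMangoldt_apply_prime h]
  · simp [h]

/-- Replacing the primes by the von Mangoldt function. -/
theorem BPS_replace {X Y : ℕ} (hX : 1 ≤ X) (u : ℕ → ℂ) (hu : ∀ n, ‖u n‖ ≤ 1) (m : ℤ) :
    ‖∑ n ∈ Icc 1 (60 * X), ((lp n * tent Y (m - n) : ℝ) : ℂ) * u n -
      ∑ n ∈ Icc 1 (60 * X), (ArithmeticFunction.vonMangoldt n : ℂ) * u n * (tent Y (m - n) : ℂ)‖ ≤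
      (1 / Y) * (2 * √((60 * X : ℕ) : ℝ) * Real.log ((60 * X : ℕ) : ℝ)) := by
  rw [← Finset.sum_sub_distrib]
  refine (norm_sum_le _ _).trans ?_
  refine le_trans ?_ (mul_le_mul_of_nonneg_left (BPS_prime_powers X hX) (by positivity))
  rw [Finset.mul_sum]
  apply Finset.sum_le_sum
  intro n _
  have h1 : ((lp n * tent Y (m - n) : ℝ) : ℂ) * u n -
      (ArithmeticFunction.vonMangoldt n : ℂ) * u n * (tent Y (m - n) : ℂ) =
      ((tent Y (m - n) * (lp n - ArithmeticFunction.vonMangoldt n) : ℝ) : ℂ) * u n := by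
    push_cast; ring
  rw [h1, norm_mul, Complex.norm_real, norm_mul, Real.norm_of_nonneg (BPS_tent_nonneg _ _),
    Real.norm_of_nonpos (by linarith [BPS_lp_le n]), neg_sub]
  calc tent Y (m - n) * (ArithmeticFunction.vonMangoldt n - lp n) * ‖u n‖
      ≤ tent Y (m - n) * (ArithmeticFunction.vonMangoldt n - lp n) * 1 := by
        apply mul_le_mul_of_nonneg_left (hu n)
        exact mul_nonneg (BPS_tent_nonneg _ _) (by linarith [BPS_lp_le n])
    _ ≤ 1 / Y * (ArithmeticFunction.vonMangoldt n - lp n) := by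
        rw [mul_one]
        exact mul_le_mul_of_nonneg_right (BPS_tent_le _ _) (by linarith [BPS_lp_le n])

/-! ### The regime -/

theorem BPS_regime : ∃ K : ℝ, ∀ Q X : ℕ, Reg K Q X →
    1 ≤ Q ∧ 1 ≤ X ∧ 1 ≤ X / Q ^ 2 ∧ 2 * (X / Q ^ 2) ≤ X ∧
    (X : ℝ) ≤ 2 * Q ^ 2 * ((X / Q ^ 2 : ℕ) : ℝ) ∧
    11520 * 700 / (Q : ℝ) ^ 3 + (1 / ((X / Q ^ 2 : ℕ) : ℝ)) *
      (2 * √((60 * X : ℕ) : ℝ) * Real.log ((60 * X : ℕ) : ℝ)) ≤ (Q : ℝ) ^ (-(5 / 2) : ℝ) := by
  obtain ⟨K1, hK1, h1⟩ := reg_log_le 1 1 1 one_pos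
  obtain ⟨K2, hK2, h2⟩ := reg_pow_le 128 (11 / 2) (1 / 2) (by norm_num)
  obtain ⟨K3, hK3, h3⟩ := reg_log_le (2 * (11520 * 700)) 0 (1 / 2) (by norm_num)
  obtain ⟨K4, hK4, h4⟩ := reg_pow_le 2 2 1 one_pos
  refine ⟨60 + K1 + K2 + K3 + K4, fun Q X h => ?_⟩
  set K := 60 + K1 + K2 + K3 + K4 with hKdef
  have hK : 1 ≤ K := by linarith
  have hK0 : 0 < K := by linarith
  have e1 := h1 Q X (h.mono hK0.le (by linarith))
  have e2 := h2 Q X (h.mono hK0.le (by linarith))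
  have e3 := h3 Q X (h.mono hK0.le (by linarith))
  have e4 := h4 Q X (h.mono hK0.le (by linarith))
  have hQ0 := h.Q_pos hK
  have hX0 := h.X_pos hK0
  have hXK := h.X_ge hK0
  have hQK := h.Q_ge hK
  have hQ' : (0:ℝ) < Q := by exact_mod_cast hQ0
  have hX' : (0:ℝ) < X := by exact_mod_cast hX0
  have hlX := h.logX_ge_one hK0
  rw [Real.rpow_one, Real.rpow_one, one_mul] at e1
  rw [Real.rpow_one] at e4
  have e4' : 2 * (Q:ℝ) ^ 2 ≤ X := by
    have : ((Q:ℝ) ^ (2:ℝ)) = (Q:ℝ) ^ 2 := by rw [← Real.rpow_natCast]; norm_num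
    rw [this] at e4; exact e4
  have e4n : 2 * Q ^ 2 ≤ X := by exact_mod_cast e4'
  have hQ2 : 2 ≤ Q := by
    have : (2:ℝ) ≤ Q := by linarith
    exact_mod_cast this
  have hQsq : 0 < Q ^ 2 := by positivity
  have hY1 : 1 ≤ X / Q ^ 2 := by
    rw [Nat.one_le_div_iff hQsq]; linarith
  have hYX : 2 * (X / Q ^ 2) ≤ X := by
    have h5 : X / Q ^ 2 ≤ X / 2 := Nat.div_le_div_left (by nlinarith) (by norm_num)
    omega
  have hXY : (X : ℝ) ≤ 2 * Q ^ 2 * ((X / Q ^ 2 : ℕ) : ℝ) := by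
    have h5 : X < Q ^ 2 * (X / Q ^ 2 + 1) := Nat.lt_mul_div_succ X hQsq
    have h6 : X ≤ 2 * Q ^ 2 * (X / Q ^ 2) := by nlinarith
    exact_mod_cast h6
  refine ⟨hQ0, hX0, hY1, hYX, hXY, ?_⟩
  have hY' : (0:ℝ) < ((X / Q ^ 2 : ℕ) : ℝ) := by exact_mod_cast hY1
  set Y : ℝ := ((X / Q ^ 2 : ℕ) : ℝ) with hYdef
  -- first term
  have t1 : 11520 * 700 / (Q : ℝ) ^ 3 ≤ (1 / 2) * (Q : ℝ) ^ (-(5 / 2) : ℝ) := by
    rw [Real.rpow_zero, mul_one] at e3
    have h5 : (Q : ℝ) ^ (-(5 / 2) : ℝ) = (Q:ℝ) ^ (1 / 2 : ℝ) / (Q:ℝ) ^ 3 := by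
      rw [eq_div_iff (by positivity), ← Real.rpow_natCast, ← Real.rpow_add hQ']
      norm_num
    rw [h5, ← mul_div_assoc]
    apply div_le_div_of_nonneg_right _ (by positivity)
    linarith
  have t2 : (1 / Y) * (2 * √((60 * X : ℕ) : ℝ) * Real.log ((60 * X : ℕ) : ℝ)) ≤
      (1 / 2) * (Q : ℝ) ^ (-(5 / 2) : ℝ) := by
    have h5 : 1 / Y ≤ 2 * Q ^ 2 / X := by
      rw [div_le_div_iff₀ hY' hX']; linarith
    have h6 : √((60 * X : ℕ) : ℝ) ≤ 8 * √(X:ℝ) := by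
      rw [Real.sqrt_le_left (by positivity), mul_pow, Real.sq_sqrt hX'.le]
      push_cast
      linarith
    have h7 : Real.log ((60 * X : ℕ) : ℝ) ≤ 2 * Real.log X := by
      push_cast
      rw [Real.log_mul (by norm_num) hX'.ne']
      have := Real.log_le_log (by norm_num : (0:ℝ) < 60) (by linarith : (60:ℝ) ≤ X)
      linarith
    have h8 : 0 ≤ Real.log ((60 * X : ℕ) : ℝ) := by positivity
    have h9 : √(X:ℝ) = (X:ℝ) ^ (1 / 2 : ℝ) := Real.sqrt_eq_rpow _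
    have h10 : (X:ℝ) = √(X:ℝ) * √(X:ℝ) := (Real.mul_self_sqrt hX'.le).symm
    have hs0 : 0 < √(X:ℝ) := Real.sqrt_pos.mpr hX'
    calc (1 / Y) * (2 * √((60 * X : ℕ) : ℝ) * Real.log ((60 * X : ℕ) : ℝ))
        ≤ (2 * Q ^ 2 / X) * (2 * (8 * √(X:ℝ)) * (2 * Q)) := by
          apply mul_le_mul h5 _ (by positivity) (by positivity)
          apply mul_le_mul _ _ h8 (by positivity)
          · linarith
          · linarith
      _ = 64 * Q ^ 3 / √(X:ℝ) := by
          rw [div_mul_eq_mul_div, div_eq_div_iff hX'.ne' hs0.ne']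
          calc 2 * (Q:ℝ) ^ 2 * (2 * (8 * √(X:ℝ)) * (2 * Q)) * √(X:ℝ)
              = 64 * (Q:ℝ) ^ 3 * (√(X:ℝ) * √(X:ℝ)) := by ring
            _ = 64 * (Q:ℝ) ^ 3 * (X:ℝ) := by rw [← h10]
      _ ≤ (1 / 2) * (Q : ℝ) ^ (-(5 / 2) : ℝ) := by
          rw [div_le_iff₀ hs0]
          rw [← h9] at e2
          have h11 : (Q:ℝ) ^ (-(5 / 2) : ℝ) * (Q:ℝ) ^ (11 / 2 : ℝ) = (Q:ℝ) ^ 3 := by
            rw [← Real.rpow_add hQ', ← Real.rpow_natCast]
            norm_num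
          have h12 : 0 < (Q:ℝ) ^ (-(5 / 2) : ℝ) := Real.rpow_pos_of_pos hQ' _
          have h13 := mul_le_mul_of_nonneg_left e2 h12.le
          nlinarith
  linarith

/-- `B_ψ(m) = ∑_n lp(n) ψ(n) tent(m-n)`, `Y = ⌊X/Q²⌋`, is at most `∫_{|t| ≤ Q^7} ‖F_ψ‖ + Q^(-5/2)`.

Proof. `tent(m - n) = tent(m-n) v(n)` for all `n` (`v = 1` on `[X/2, 5X]`), and `tent(m-n) = 0` for
`n > 60 X`. Replacing `lp` by `Λ` costs at most `(1/Y) √(5X) (log 5X)²` (prime powers). Insert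
`tent_rep`: `∑_n Λ(n) ψ(n) v(n) tent(m-n) = ∫ gt(t) F_ψ(t) dt`; `m/Y ≤ 8 Q²`, so
`∫_{|t| > Q^7} ‖gt F‖ ≤ 640 Q^4 · C · 2 Q^(-7)`. -/
theorem B_le : ∃ K : ℝ, ∀ Q X : ℕ, Reg K Q X → ∀ p : Σ r : ℕ, DirichletCharacter ℂ r, 1 ≤ p.1 →
    ∀ m : ℤ, (X : ℤ) ≤ m → m ≤ 4 * X →
    ‖∑ n ∈ Icc 1 (60 * X), ((lp n * tent (X / Q ^ 2) (m - n) : ℝ) : ℂ) * p.2 (n : ZMod p.1)‖ ≤
      (∫ t in (-(Q : ℝ) ^ 7)..((Q : ℝ) ^ 7), ‖FL X p t‖) + (Q : ℝ) ^ (-(5 / 2) : ℝ) := by
  obtain ⟨K, hK⟩ := BPS_regime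
  refine ⟨K, fun Q X h p _ m hm1 hm2 => ?_⟩
  obtain ⟨hQ, hX, hY, hYX, hXY, hbd⟩ := hK Q X h
  have hQ' : (0:ℝ) < Q := by exact_mod_cast hQ
  have h1 := BPS_general hQ hX hY hYX hXY
    (fun n => (ArithmeticFunction.vonMangoldt n : ℂ) * p.2 (n : ZMod p.1)) (D := 600)
    (by norm_num) (BPS_sum_norm p) m hm1 hm2
  have h2 := BPS_replace (Y := X / Q ^ 2) hX (fun n => p.2 (n : ZMod p.1))
    (fun n => DirichletCharacter.norm_le_one _ _) m
  have h3 := norm_le_norm_add_norm_sub' (∑ n ∈ Icc 1 (60 * X),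
    ((lp n * tent (X / Q ^ 2) (m - n) : ℝ) : ℂ) * p.2 (n : ZMod p.1))
    (∑ n ∈ Icc 1 (60 * X), (ArithmeticFunction.vonMangoldt n : ℂ) * p.2 (n : ZMod p.1) *
      (tent (X / Q ^ 2) (m - n) : ℂ))
  have h4 : 11520 * 600 / (Q:ℝ) ^ 3 ≤ 11520 * 700 / (Q:ℝ) ^ 3 := by
    apply div_le_div_of_nonneg_right _ (by positivity)
    norm_num
  have h5 : (∫ t in (-(Q : ℝ) ^ 7)..((Q : ℝ) ^ 7), ‖FL X p t‖) =
      ∫ t in (-(Q : ℝ) ^ 7)..((Q : ℝ) ^ 7),
        ‖FF X (fun n => (ArithmeticFunction.vonMangoldt n : ℂ) * p.2 (n : ZMod p.1)) t‖ := rfl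
  rw [h5]
  linarith

/-- The same for the trivial character minus its main term `∑_n tent(m-n) = 1`. -/
theorem B0_le : ∃ K : ℝ, ∀ Q X : ℕ, Reg K Q X → ∀ m : ℤ, (X : ℤ) ≤ m → m ≤ 4 * X →
    |∑ n ∈ Icc 1 (60 * X), lp n * tent (X / Q ^ 2) (m - n) - 1| ≤
      (∫ t in (-(Q : ℝ) ^ 7)..((Q : ℝ) ^ 7), ‖FL X p0 t - F0 X t‖) +
        (Q : ℝ) ^ (-(5 / 2) : ℝ) := by
  obtain ⟨K, hK⟩ := BPS_regime
  refine ⟨K, fun Q X h m hm1 hm2 => ?_⟩
  obtain ⟨hQ, hX, hY, hYX, hXY, hbd⟩ := hK Q X h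
  have hQ' : (0:ℝ) < Q := by exact_mod_cast hQ
  have hone : ∀ n : ℕ, p0.2 (n : ZMod p0.1) = 1 := by
    intro n
    have : (n : ZMod 1) = 1 := Subsingleton.elim _ _
    change (1 : DirichletCharacter ℂ 1) (n : ZMod 1) = 1
    rw [this, map_one]
  have hsum : ∑ n ∈ Icc 1 (60 * X), ‖(ArithmeticFunction.vonMangoldt n : ℂ) - 1‖ ≤ 700 * X := by
    calc ∑ n ∈ Icc 1 (60 * X), ‖(ArithmeticFunction.vonMangoldt n : ℂ) - 1‖
        ≤ ∑ n ∈ Icc 1 (60 * X), (ArithmeticFunction.vonMangoldt n + 1) := by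
          apply Finset.sum_le_sum
          intro n _
          refine (norm_sub_le _ _).trans ?_
          rw [Complex.norm_real, Real.norm_of_nonneg ArithmeticFunction.vonMangoldt_nonneg,
            norm_one]
      _ = ∑ n ∈ Icc 1 (60 * X), ArithmeticFunction.vonMangoldt n + 60 * X := by
          rw [Finset.sum_add_distrib, Finset.sum_const, Nat.card_Icc]
          simp
      _ ≤ 700 * X := by
          have := BPS_sum_vM (X := X)
          have : (0:ℝ) ≤ X := by positivity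
          linarith
  have h1 := BPS_general hQ hX hY hYX hXY
    (fun n => (ArithmeticFunction.vonMangoldt n : ℂ) - 1) (D := 700)
    (by norm_num) hsum m hm1 hm2
  have h2 := BPS_replace (Y := X / Q ^ 2) hX (fun _ => 1) (fun n => by simp) m
  have hmass := BPS_mass (Y := X / Q ^ 2) hY hYX hm1 hm2
  have h3 : ((∑ n ∈ Icc 1 (60 * X), lp n * tent (X / Q ^ 2) (m - n) - 1 : ℝ) : ℂ) =
      (∑ n ∈ Icc 1 (60 * X), ((lp n * tent (X / Q ^ 2) (m - n) : ℝ) : ℂ) * 1 -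
        ∑ n ∈ Icc 1 (60 * X), (ArithmeticFunction.vonMangoldt n : ℂ) * 1 *
          (tent (X / Q ^ 2) (m - n) : ℂ)) +
      ∑ n ∈ Icc 1 (60 * X), ((ArithmeticFunction.vonMangoldt n : ℂ) - 1) *
          (tent (X / Q ^ 2) (m - n) : ℂ) := by
    rw [← hmass]
    push_cast
    simp only [mul_one, sub_mul, one_mul, Finset.sum_sub_distrib]
    ring
  have h4 : |∑ n ∈ Icc 1 (60 * X), lp n * tent (X / Q ^ 2) (m - n) - 1| =
      ‖((∑ n ∈ Icc 1 (60 * X), lp n * tent (X / Q ^ 2) (m - n) - 1 : ℝ) : ℂ)‖ := by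
    rw [Complex.norm_real, Real.norm_eq_abs]
  have h5 : (∫ t in (-(Q : ℝ) ^ 7)..((Q : ℝ) ^ 7), ‖FL X p0 t - F0 X t‖) =
      ∫ t in (-(Q : ℝ) ^ 7)..((Q : ℝ) ^ 7),
        ‖FF X (fun n => (ArithmeticFunction.vonMangoldt n : ℂ) - 1) t‖ := by
    congr 1
    ext t
    congr 1
    unfold FL F0 FF
    rw [← Finset.sum_sub_distrib]
    apply Finset.sum_congr rfl
    intro n _
    simp only [hone]
    ring
  rw [h4, h5, h3]
  refine (norm_add_le _ _).trans ?_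
  linarith

end Pool.Agent.Lib.H68T
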