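import Pool.Agent.Lib.H68T.CQ

/-!
# Chunk CG1: correlations of the model `G` along a class
-/

open Finset

namespace Pool.Agent.Lib.H68T

/-! ### Counting -/

theorem cg1_count_mod (M L v : ℕ) (hL : 0 < L) :
    |((((range M).filter (fun c => c ≡ v [MOD L])).card : ℕ) : ℝ) - (M : ℝ) / L| ≤ 1 := by
  rw [← Nat.count_eq_card_filter_range, Nat.count_modEq_card _ hL]
  have hL' : (0 : ℝ) < L := by exact_mod_cast hL
  have h1 : (M : ℝ) / L = ((M / L : ℕ) : ℝ) + ((M % L : ℕ) : ℝ) / L := by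
    have : (M : ℝ) = ((L * (M / L) + M % L : ℕ) : ℝ) := by rw [Nat.div_add_mod]
    rw [this]
    push_cast
    field_simp
  have h2 : ((M % L : ℕ) : ℝ) / L < 1 := by
    rw [div_lt_one hL']
    exact_mod_cast Nat.mod_lt _ hL
  have h3 : 0 ≤ ((M % L : ℕ) : ℝ) / L := by positivity
  rw [h1, Nat.cast_add, abs_le]
  split_ifs <;> constructor <;> push_cast <;> linarith

theorem cg1_count (d₁ d₂ W b s s' M : ℕ) (hd₁ : 0 < d₁) (hd₂ : 0 < d₂)
    (h₁ : Nat.Coprime d₁ W) (h₂ : Nat.Coprime d₂ W) :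
    |((((range M).filter (fun c : ℕ => (d₁ : ℤ) ∣ (b : ℤ) + W * (s + c : ℕ) ∧
      (d₂ : ℤ) ∣ (b : ℤ) + W * (s' + c : ℕ))).card : ℕ) : ℝ) -
      (if ((Nat.gcd d₁ d₂ : ℕ) : ℤ) ∣ (s : ℤ) - s' then
        (M : ℝ) * (Nat.gcd d₁ d₂ : ℝ) / ((d₁ : ℝ) * d₂) else 0)| ≤ 1 := by
  have hc₁ : IsCoprime (d₁ : ℤ) (W : ℤ) := Nat.isCoprime_iff_coprime.mpr h₁
  have hc₂ : IsCoprime (d₂ : ℤ) (W : ℤ) := Nat.isCoprime_iff_coprime.mpr h₂
  by_cases hex : ∃ c₀ : ℕ, (d₁ : ℤ) ∣ (b : ℤ) + W * (s + c₀ : ℕ) ∧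
      (d₂ : ℤ) ∣ (b : ℤ) + W * (s' + c₀ : ℕ)
  · obtain ⟨c₀, e₁, e₂⟩ := hex
    have hg : ((Nat.gcd d₁ d₂ : ℕ) : ℤ) ∣ (s : ℤ) - s' := by
      have hg1 : ((Nat.gcd d₁ d₂ : ℕ) : ℤ) ∣ (d₁ : ℤ) :=
        Int.natCast_dvd_natCast.mpr (Nat.gcd_dvd_left _ _)
      have hg2 : ((Nat.gcd d₁ d₂ : ℕ) : ℤ) ∣ (d₂ : ℤ) :=
        Int.natCast_dvd_natCast.mpr (Nat.gcd_dvd_right _ _)
      have h3 : ((Nat.gcd d₁ d₂ : ℕ) : ℤ) ∣ (W : ℤ) * ((s : ℤ) - s') := by
        have := dvd_sub (hg1.trans e₁) (hg2.trans e₂)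
        have h4 : (b : ℤ) + W * (s + c₀ : ℕ) - ((b : ℤ) + W * (s' + c₀ : ℕ)) =
            (W : ℤ) * ((s : ℤ) - s') := by push_cast; ring
        rwa [h4] at this
      exact (IsCoprime.of_isCoprime_of_dvd_left hc₁ hg1).dvd_of_dvd_mul_left h3
    rw [if_pos hg]
    have hset : (range M).filter (fun c : ℕ => (d₁ : ℤ) ∣ (b : ℤ) + W * (s + c : ℕ) ∧
        (d₂ : ℤ) ∣ (b : ℤ) + W * (s' + c : ℕ)) =
        (range M).filter (fun c => c ≡ c₀ [MOD (Nat.lcm d₁ d₂)]) := by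
      apply filter_congr
      intro c _
      have key : ∀ (d t : ℕ), IsCoprime (d : ℤ) (W : ℤ) → (d : ℤ) ∣ (b : ℤ) + W * (t + c₀ : ℕ) →
          ((d : ℤ) ∣ (b : ℤ) + W * (t + c : ℕ) ↔ (d : ℤ) ∣ (c : ℤ) - c₀) := by
        intro d t hc hd
        have h5 : (b : ℤ) + W * (t + c : ℕ) = ((b : ℤ) + W * (t + c₀ : ℕ)) +
            (W : ℤ) * ((c : ℤ) - c₀) := by push_cast; ring
        rw [h5, dvd_add_right hd]
        exact ⟨fun h => hc.dvd_of_dvd_mul_left h, fun h => dvd_mul_of_dvd_right h _⟩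
      rw [key d₁ s hc₁ e₁, key d₂ s' hc₂ e₂, Nat.ModEq.comm, ← Int.natCast_modEq_iff,
        Int.modEq_iff_dvd]
      rw [Int.natCast_dvd, Int.natCast_dvd, Int.natCast_dvd, Nat.lcm_dvd_iff]
    rw [hset]
    have hl : 0 < Nat.lcm d₁ d₂ := Nat.lcm_pos hd₁ hd₂
    have h6 := cg1_count_mod M (Nat.lcm d₁ d₂) c₀ hl
    have h7 : (M : ℝ) * (Nat.gcd d₁ d₂ : ℝ) / ((d₁ : ℝ) * d₂) = (M : ℝ) / (Nat.lcm d₁ d₂ : ℕ) := by
      have h8 : ((d₁ : ℝ) * d₂) = (Nat.gcd d₁ d₂ : ℝ) * (Nat.lcm d₁ d₂ : ℕ) := by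
        exact_mod_cast (Nat.gcd_mul_lcm d₁ d₂).symm
      have h9 : (0 : ℝ) < (Nat.gcd d₁ d₂ : ℝ) := by
        exact_mod_cast Nat.gcd_pos_of_pos_left _ hd₁
      have h10 : (0 : ℝ) < (Nat.lcm d₁ d₂ : ℕ) := by exact_mod_cast hl
      rw [h8]
      field_simp
    rw [h7]
    exact h6
  · have hg : ¬ ((Nat.gcd d₁ d₂ : ℕ) : ℤ) ∣ (s : ℤ) - s' := by
      rintro ⟨t, ht⟩
      apply hex
      have hcc : IsCoprime ((d₁ : ℤ) * d₂) (W : ℤ) := hc₁.mul_left hc₂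
      obtain ⟨x, u, hu⟩ := hcc
      -- x * (d₁ d₂) + u * W = 1
      have hbz := Nat.gcd_eq_gcd_ab d₁ d₂
      set y₁ := Nat.gcdA d₁ d₂
      set y₂ := Nat.gcdB d₁ d₂
      set c : ℤ := -(b * u) - s + d₁ * y₁ * t with hc
      have hpos : (0 : ℤ) < (d₁ : ℤ) * d₂ := by positivity
      refine ⟨(c % ((d₁ : ℤ) * d₂)).toNat, ?_, ?_⟩
      · have hcn : ((c % ((d₁ : ℤ) * d₂)).toNat : ℤ) = c - ((d₁ : ℤ) * d₂) * (c / ((d₁ : ℤ) * d₂)) := by
          rw [Int.toNat_of_nonneg (Int.emod_nonneg _ hpos.ne')]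
          exact Int.emod_def _ _
        have : (b : ℤ) + W * (s + (c % ((d₁ : ℤ) * d₂)).toNat : ℕ) =
            d₁ * (b * x * d₂ + W * y₁ * t - W * d₂ * (c / ((d₁ : ℤ) * d₂))) := by
          rw [Nat.cast_add, hcn]
          have : (b : ℤ) = b * (x * (d₁ * d₂) + u * W) := by rw [hu]; ring
          linear_combination this + W * hc
        rw [this]
        exact dvd_mul_right _ _
      · have hcn : ((c % ((d₁ : ℤ) * d₂)).toNat : ℤ) = c - ((d₁ : ℤ) * d₂) * (c / ((d₁ : ℤ) * d₂)) := by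
          rw [Int.toNat_of_nonneg (Int.emod_nonneg _ hpos.ne')]
          exact Int.emod_def _ _
        have : (b : ℤ) + W * (s' + (c % ((d₁ : ℤ) * d₂)).toNat : ℕ) =
            d₂ * (b * x * d₁ - W * y₂ * t - W * d₁ * (c / ((d₁ : ℤ) * d₂))) := by
          rw [Nat.cast_add, hcn]
          have h0 : (b : ℤ) = b * (x * (d₁ * d₂) + u * W) := by rw [hu]; ring
          linear_combination h0 + W * hc - W * ht - W * t * hbz
        rw [this]
        exact dvd_mul_right _ _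
    rw [if_neg hg]
    have hempty : (range M).filter (fun c : ℕ => (d₁ : ℤ) ∣ (b : ℤ) + W * (s + c : ℕ) ∧
        (d₂ : ℤ) ∣ (b : ℤ) + W * (s' + c : ℕ)) = ∅ := by
      rw [filter_eq_empty_iff]
      intro c _ h
      exact hex ⟨c, h⟩
    rw [hempty]
    simp

/-! ### Möbius inversion -/

theorem cg1_moebius (f g : ℕ → ℝ) (h : ∀ n > 0, ∑ i ∈ n.divisors, f i = g n) (n : ℕ) (hn : 0 < n) :
    ∑ d ∈ n.divisors, (ArithmeticFunction.moebius (n / d) : ℝ) * g d = f n := by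
  have h1 := (ArithmeticFunction.sum_eq_iff_sum_mul_moebius_eq.mp h) n hn
  rw [Nat.sum_divisorsAntidiagonal' (fun i j => (ArithmeticFunction.moebius i : ℝ) * g j)] at h1
  exact h1

theorem cg1_indicator (e n : ℕ) (hn : 0 < n) :
    ∑ d ∈ n.divisors, (ArithmeticFunction.moebius (n / d) : ℝ) * (if e ∣ d then 1 else 0) =
      if n = e then 1 else 0 := by
  apply cg1_moebius (fun i => if i = e then 1 else 0) (fun d => if e ∣ d then 1 else 0) _ n hn
  intro m hm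
  rw [sum_ite_eq' m.divisors e (fun _ => (1 : ℝ))]
  simp [Nat.mem_divisors, hm.ne']

theorem cg1_cq_sum (n : ℕ) (hn : 0 < n) (D : ℤ) :
    ∑ e ∈ n.divisors, cq e D = if (n : ℤ) ∣ D then (n : ℝ) else 0 := by
  revert n
  rw [ArithmeticFunction.sum_eq_iff_sum_mul_moebius_eq
    (f := fun e => cq e D) (g := fun n : ℕ => if (n : ℤ) ∣ D then (n : ℝ) else 0)]
  intro n hn
  rw [Nat.sum_divisorsAntidiagonal' (fun i j : ℕ => (ArithmeticFunction.moebius i : ℝ) *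
    (if (j : ℤ) ∣ D then (j : ℝ) else 0))]
  unfold cq
  rw [sum_filter]
  apply sum_congr rfl
  intro d _
  split_ifs <;> ring

theorem cg1_pair_sum (r₁ r₂ : ℕ) (h₁ : 0 < r₁) (h₂ : 0 < r₂) (D : ℤ) :
    ∑ d₁ ∈ r₁.divisors, ∑ d₂ ∈ r₂.divisors, (ArithmeticFunction.moebius (r₁ / d₁) : ℝ) *
      (ArithmeticFunction.moebius (r₂ / d₂) : ℝ) *
      (if ((Nat.gcd d₁ d₂ : ℕ) : ℤ) ∣ D then (Nat.gcd d₁ d₂ : ℝ) else 0) =
    if r₁ = r₂ then cq r₁ D else 0 := by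
  have hexp : ∀ d₁ ∈ r₁.divisors, ∀ d₂ ∈ r₂.divisors,
      (if ((Nat.gcd d₁ d₂ : ℕ) : ℤ) ∣ D then (Nat.gcd d₁ d₂ : ℝ) else 0) =
      ∑ e ∈ r₁.divisors, cq e D * (if e ∣ d₁ then 1 else 0) * (if e ∣ d₂ then 1 else 0) := by
    intro d₁ hd₁ d₂ hd₂
    have hd₁' : 0 < d₁ := Nat.pos_of_mem_divisors hd₁
    rw [← cg1_cq_sum (Nat.gcd d₁ d₂) (Nat.gcd_pos_of_pos_left _ hd₁') D]
    have hsub : (Nat.gcd d₁ d₂).divisors = r₁.divisors.filter (fun e => e ∣ d₁ ∧ e ∣ d₂) := by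
      ext e
      simp only [Nat.mem_divisors, mem_filter, Nat.dvd_gcd_iff]
      constructor
      · rintro ⟨⟨a, b⟩, -⟩
        exact ⟨⟨a.trans (Nat.dvd_of_mem_divisors hd₁), h₁.ne'⟩, a, b⟩
      · rintro ⟨-, a, b⟩
        exact ⟨⟨a, b⟩, (Nat.gcd_pos_of_pos_left _ hd₁').ne'⟩
    rw [hsub, sum_filter]
    apply sum_congr rfl
    intro e _
    by_cases a : e ∣ d₁ <;> by_cases b : e ∣ d₂ <;> simp [a, b]
  calc ∑ d₁ ∈ r₁.divisors, ∑ d₂ ∈ r₂.divisors, (ArithmeticFunction.moebius (r₁ / d₁) : ℝ) *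
      (ArithmeticFunction.moebius (r₂ / d₂) : ℝ) *
      (if ((Nat.gcd d₁ d₂ : ℕ) : ℤ) ∣ D then (Nat.gcd d₁ d₂ : ℝ) else 0)
      = ∑ d₁ ∈ r₁.divisors, ∑ d₂ ∈ r₂.divisors, ∑ e ∈ r₁.divisors,
        (ArithmeticFunction.moebius (r₁ / d₁) : ℝ) *
        (ArithmeticFunction.moebius (r₂ / d₂) : ℝ) *
        (cq e D * (if e ∣ d₁ then 1 else 0) * (if e ∣ d₂ then 1 else 0)) := by
        apply sum_congr rfl
        intro d₁ hd₁
        apply sum_congr rfl
        intro d₂ hd₂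
        rw [hexp d₁ hd₁ d₂ hd₂, mul_sum]
    _ = ∑ e ∈ r₁.divisors, cq e D *
        ((∑ d₁ ∈ r₁.divisors, (ArithmeticFunction.moebius (r₁ / d₁) : ℝ) * (if e ∣ d₁ then 1 else 0)) *
        (∑ d₂ ∈ r₂.divisors, (ArithmeticFunction.moebius (r₂ / d₂) : ℝ) *
          (if e ∣ d₂ then 1 else 0))) := by
        rw [sum_congr rfl (fun d₁ _ => sum_comm), sum_comm]
        apply sum_congr rfl
        intro e _
        rw [sum_mul_sum, mul_sum]
        apply sum_congr rfl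
        intro d₁ _
        rw [mul_sum]
        apply sum_congr rfl
        intro d₂ _
        ring
    _ = ∑ e ∈ r₁.divisors, cq e D * ((if r₁ = e then 1 else 0) * (if r₂ = e then 1 else 0)) := by
        apply sum_congr rfl
        intro e _
        rw [cg1_indicator e r₁ h₁, cg1_indicator e r₂ h₂]
    _ = if r₁ = r₂ then cq r₁ D else 0 := by
        rw [sum_eq_single r₁]
        · by_cases h : r₁ = r₂
          · simp [h]
          · simp [h, Ne.symm h]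
        · intro e _ he
          simp [Ne.symm he]
        · intro h
          exact absurd (Nat.mem_divisors_self r₁ h₁.ne') h

/-! ### Correlations of Ramanujan sums along a class -/

theorem cg1_abs_moebius_le (n : ℕ) : |(ArithmeticFunction.moebius n : ℝ)| ≤ 1 := by
  exact_mod_cast ArithmeticFunction.abs_moebius_le_one (n := n)

theorem cg1_corr (r₁ r₂ W b s s' M : ℕ) (h₁ : 0 < r₁) (h₂ : 0 < r₂)
    (c₁ : Nat.Coprime r₁ W) (c₂ : Nat.Coprime r₂ W) :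
    |∑ c ∈ range M, cq r₁ ((b : ℤ) + W * (s + c : ℕ)) * cq r₂ ((b : ℤ) + W * (s' + c : ℕ)) -
      M * (if r₁ = r₂ then cq r₁ ((s : ℤ) - s') else 0)| ≤
      (∑ d ∈ r₁.divisors, (d : ℝ)) * ∑ d ∈ r₂.divisors, (d : ℝ) := by
  have hA : ∑ c ∈ range M, cq r₁ ((b : ℤ) + W * (s + c : ℕ)) * cq r₂ ((b : ℤ) + W * (s' + c : ℕ)) =
      ∑ d₁ ∈ r₁.divisors, ∑ d₂ ∈ r₂.divisors, (ArithmeticFunction.moebius (r₁ / d₁) : ℝ) *
      (ArithmeticFunction.moebius (r₂ / d₂) : ℝ) * ((d₁ : ℝ) * d₂) *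
      ((((range M).filter (fun c : ℕ => (d₁ : ℤ) ∣ (b : ℤ) + W * (s + c : ℕ) ∧
      (d₂ : ℤ) ∣ (b : ℤ) + W * (s' + c : ℕ))).card : ℕ) : ℝ) := by
    have h3 : ∀ c ∈ range M, cq r₁ ((b : ℤ) + W * (s + c : ℕ)) * cq r₂ ((b : ℤ) + W * (s' + c : ℕ)) =
        ∑ d₁ ∈ r₁.divisors, ∑ d₂ ∈ r₂.divisors, (ArithmeticFunction.moebius (r₁ / d₁) : ℝ) *
        (ArithmeticFunction.moebius (r₂ / d₂) : ℝ) * ((d₁ : ℝ) * d₂) *
        (if (d₁ : ℤ) ∣ (b : ℤ) + W * (s + c : ℕ) ∧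
          (d₂ : ℤ) ∣ (b : ℤ) + W * (s' + c : ℕ) then 1 else 0) := by
      intro c _
      unfold cq
      rw [sum_filter, sum_filter, sum_mul_sum]
      apply sum_congr rfl
      intro d₁ _
      apply sum_congr rfl
      intro d₂ _
      by_cases a : (d₁ : ℤ) ∣ (b : ℤ) + W * (s + c : ℕ) <;>
        by_cases a' : (d₂ : ℤ) ∣ (b : ℤ) + W * (s' + c : ℕ)
      · rw [if_pos a, if_pos a', if_pos ⟨a, a'⟩]; ring
      · rw [if_neg a', mul_zero, if_neg (fun h : _ ∧ _ => a' h.2), mul_zero]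
      · rw [if_neg a, zero_mul, if_neg (fun h : _ ∧ _ => a h.1), mul_zero]
      · rw [if_neg a, zero_mul, if_neg (fun h : _ ∧ _ => a h.1), mul_zero]
    rw [sum_congr rfl h3, sum_comm]
    apply sum_congr rfl
    intro d₁ _
    rw [sum_comm]
    apply sum_congr rfl
    intro d₂ _
    rw [← mul_sum, card_filter]
    push_cast
    rfl
  have hB : (M : ℝ) * (if r₁ = r₂ then cq r₁ ((s : ℤ) - s') else 0) =
      ∑ d₁ ∈ r₁.divisors, ∑ d₂ ∈ r₂.divisors, (ArithmeticFunction.moebius (r₁ / d₁) : ℝ) *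
      (ArithmeticFunction.moebius (r₂ / d₂) : ℝ) * ((d₁ : ℝ) * d₂) *
      (if ((Nat.gcd d₁ d₂ : ℕ) : ℤ) ∣ (s : ℤ) - s' then
        (M : ℝ) * (Nat.gcd d₁ d₂ : ℝ) / ((d₁ : ℝ) * d₂) else 0) := by
    rw [← cg1_pair_sum r₁ r₂ h₁ h₂, mul_sum]
    apply sum_congr rfl
    intro d₁ hd₁
    rw [mul_sum]
    apply sum_congr rfl
    intro d₂ hd₂
    have e₁ : (0 : ℝ) < d₁ := by exact_mod_cast Nat.pos_of_mem_divisors hd₁
    have e₂ : (0 : ℝ) < d₂ := by exact_mod_cast Nat.pos_of_mem_divisors hd₂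
    split_ifs
    · field_simp
    · ring
  rw [hA, hB, ← sum_sub_distrib, sum_mul_sum]
  refine (abs_sum_le_sum_abs _ _).trans (sum_le_sum fun d₁ hd₁ => ?_)
  rw [← sum_sub_distrib]
  refine (abs_sum_le_sum_abs _ _).trans (sum_le_sum fun d₂ hd₂ => ?_)
  rw [← mul_sub, abs_mul, abs_mul, abs_mul]
  have e₁ : 0 < d₁ := Nat.pos_of_mem_divisors hd₁
  have e₂ : 0 < d₂ := Nat.pos_of_mem_divisors hd₂
  have i₁ : Nat.Coprime d₁ W := Nat.Coprime.coprime_dvd_left (Nat.dvd_of_mem_divisors hd₁) c₁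
  have i₂ : Nat.Coprime d₂ W := Nat.Coprime.coprime_dvd_left (Nat.dvd_of_mem_divisors hd₂) c₂
  have h5 := cg1_count d₁ d₂ W b s s' M e₁ e₂ i₁ i₂
  have h6 : |(d₁ : ℝ) * d₂| = (d₁ : ℝ) * d₂ := abs_of_nonneg (by positivity)
  rw [h6]
  have h7 := cg1_abs_moebius_le (r₁ / d₁)
  have h8 := cg1_abs_moebius_le (r₂ / d₂)
  have h9 : |(ArithmeticFunction.moebius (r₁ / d₁) : ℝ)| *
      |(ArithmeticFunction.moebius (r₂ / d₂) : ℝ)| ≤ 1 :=
    mul_le_one₀ h7 (abs_nonneg _) h8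
  calc _ ≤ 1 * ((d₁ : ℝ) * d₂) * 1 := by
        apply mul_le_mul _ h5 (abs_nonneg _) (by positivity)
        exact mul_le_mul_of_nonneg_right h9 (by positivity)
    _ = (d₁ : ℝ) * d₂ := by ring

/-! ### The model on integers coprime to `W` -/

theorem cg1_gcd_mul {r w W : ℕ} (hr : Nat.Coprime r W) (hw : w ∣ W) : Nat.gcd (r * w) W = w := by
  rw [Nat.Coprime.gcd_mul_left_cancel w hr]
  exact Nat.gcd_eq_left hw

theorem cg1_coprime_div {q W : ℕ} (hq : Squarefree q) : Nat.Coprime (q / Nat.gcd q W) W := by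
  have hgq : Nat.gcd q W ∣ q := Nat.gcd_dvd_left _ _
  set g := Nat.gcd q W with hg
  have h1 : Nat.gcd (q / g) W ∣ g := by
    rw [hg]
    apply Nat.dvd_gcd
    · exact (Nat.gcd_dvd_left _ _).trans (Nat.div_dvd_of_dvd hgq)
    · exact Nat.gcd_dvd_right _ _
  have h2 : Nat.gcd (q / g) W * Nat.gcd (q / g) W ∣ q := by
    have := Nat.mul_dvd_mul (Nat.gcd_dvd_left (q / g) W) h1
    rwa [Nat.div_mul_cancel hgq] at this
  exact Nat.isUnit_iff.mp (hq _ h2)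

theorem cg1_reindex (Q W : ℕ) (hW : 0 < W) (f : ℕ → ℕ → ℝ) :
    ∑ r ∈ (Icc 1 Q).filter (fun r => Nat.Coprime r W),
      ∑ w ∈ W.divisors.filter (fun w => r * w ≤ Q),
        (if Squarefree (r * w) then f r w else 0) =
    ∑ q ∈ Icc 1 Q, if Squarefree q then f (q / Nat.gcd q W) (Nat.gcd q W) else 0 := by
  rw [sum_sigma', ← sum_filter, ← sum_filter]
  apply sum_nbij' (fun x : (Σ _ : ℕ, ℕ) => x.1 * x.2)
    (fun q => (⟨q / Nat.gcd q W, Nat.gcd q W⟩ : Σ _ : ℕ, ℕ))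
  · rintro ⟨r, w⟩ hx
    simp only [mem_filter, mem_sigma, mem_Icc, Nat.mem_divisors] at hx ⊢
    obtain ⟨⟨⟨⟨h1, -⟩, -⟩, ⟨h4, -⟩, h5⟩, h6⟩ := hx
    exact ⟨⟨Nat.mul_pos h1 (Nat.pos_of_dvd_of_pos h4 hW), h5⟩, h6⟩
  · intro q hq
    simp only [mem_filter, mem_sigma, mem_Icc, Nat.mem_divisors] at hq ⊢
    obtain ⟨⟨h1, h2⟩, h3⟩ := hq
    have hgq : Nat.gcd q W ∣ q := Nat.gcd_dvd_left _ _
    have hgpos : 0 < Nat.gcd q W := Nat.gcd_pos_of_pos_left _ h1
    rw [Nat.div_mul_cancel hgq]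
    exact ⟨⟨⟨⟨Nat.div_pos (Nat.le_of_dvd h1 hgq) hgpos, (Nat.div_le_self _ _).trans h2⟩,
      cg1_coprime_div h3⟩, ⟨Nat.gcd_dvd_right _ _, hW.ne'⟩, h2⟩, h3⟩
  · rintro ⟨r, w⟩ hx
    simp only [mem_filter, mem_sigma, mem_Icc, Nat.mem_divisors] at hx
    obtain ⟨⟨⟨-, h3⟩, ⟨h4, -⟩, -⟩, -⟩ := hx
    simp only
    rw [cg1_gcd_mul h3 h4, Nat.mul_div_cancel _ (Nat.pos_of_dvd_of_pos h4 hW)]
  · intro q _
    exact Nat.div_mul_cancel (Nat.gcd_dvd_left _ _)
  · rintro ⟨r, w⟩ hx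
    simp only [mem_filter, mem_sigma, mem_Icc, Nat.mem_divisors] at hx
    obtain ⟨⟨⟨-, h3⟩, ⟨h4, -⟩, -⟩, -⟩ := hx
    simp only
    rw [cg1_gcd_mul h3 h4, Nat.mul_div_cancel _ (Nat.pos_of_dvd_of_pos h4 hW)]

/-- `c_{rw}(m) = μ(w) c_r(m)` for `w ∣ W`, `(r, W) = (m, W) = 1`. -/
theorem cg1_cq_mul {r w W : ℕ} (hW : 0 < W) (hr : Nat.Coprime r W) (hw : w ∣ W) (m : ℤ)
    (hm : IsCoprime m (W : ℤ)) :
    cq (r * w) m = (ArithmeticFunction.moebius w : ℝ) * cq r m := by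
  rcases Nat.eq_zero_or_pos r with h0 | h0
  · subst h0
    simp [cq]
  have hw0 : 0 < w := Nat.pos_of_dvd_of_pos hw hW
  have hcop : ∀ d : ℕ, (d : ℤ) ∣ m → Nat.Coprime d w := by
    intro d hd
    have h1 : IsCoprime (d : ℤ) (w : ℤ) :=
      (hm.of_isCoprime_of_dvd_left hd).of_isCoprime_of_dvd_right (Int.natCast_dvd_natCast.mpr hw)
    exact Nat.isCoprime_iff_coprime.mp h1
  have hset : (r * w).divisors.filter (fun d : ℕ => (d : ℤ) ∣ m) =
      r.divisors.filter (fun d : ℕ => (d : ℤ) ∣ m) := by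
    ext d
    simp only [mem_filter, Nat.mem_divisors]
    constructor
    · rintro ⟨⟨h1, -⟩, h2⟩
      exact ⟨⟨(hcop d h2).dvd_of_dvd_mul_right h1, h0.ne'⟩, h2⟩
    · rintro ⟨⟨h1, -⟩, h2⟩
      exact ⟨⟨h1.mul_right w, (Nat.mul_pos h0 hw0).ne'⟩, h2⟩
  unfold cq
  rw [hset, mul_sum]
  apply sum_congr rfl
  intro d hd
  simp only [mem_filter, Nat.mem_divisors] at hd
  obtain ⟨⟨h1, -⟩, h2⟩ := hd
  have h3 : r * w / d = (r / d) * w := Nat.div_mul_right_comm h1 w |>.symm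
  have h4 : Nat.Coprime (r / d) w :=
    Nat.Coprime.coprime_dvd_left (Nat.div_dvd_of_dvd h1) (Nat.Coprime.coprime_dvd_right hw hr)
  rw [h3, ArithmeticFunction.isMultiplicative_moebius.map_mul_of_coprime h4]
  push_cast
  ring

/-- The weights of the expansion along a class. -/
noncomputable def cg1T (Q W r : ℕ) : ℝ :=
  ∑ w ∈ W.divisors.filter (fun w => r * w ≤ Q),
    (ArithmeticFunction.moebius w : ℝ) ^ 2 / (Nat.totient w : ℝ)

theorem cg1_G_eq (Q W : ℕ) (hW : 0 < W) (m : ℤ) (hm : IsCoprime m (W : ℤ)) :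
    G Q m = ∑ r ∈ (Icc 1 Q).filter (fun r => Nat.Coprime r W),
      (ArithmeticFunction.moebius r : ℝ) / (Nat.totient r : ℝ) * cg1T Q W r * cq r m := by
  have h1 : G Q m = ∑ q ∈ Icc 1 Q, if Squarefree q then
      (fun r w => (ArithmeticFunction.moebius (r * w) : ℝ) / (Nat.totient (r * w) : ℝ) *
        cq (r * w) m) (q / Nat.gcd q W) (Nat.gcd q W) else 0 := by
    unfold G
    apply sum_congr rfl
    intro q _
    simp only
    rw [Nat.div_mul_cancel (Nat.gcd_dvd_left _ _)]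
    split_ifs with h
    · rfl
    · rw [ArithmeticFunction.moebius_eq_zero_of_not_squarefree h]
      simp
  rw [h1]
  refine (cg1_reindex Q W hW (fun r w => (ArithmeticFunction.moebius (r * w) : ℝ) /
    (Nat.totient (r * w) : ℝ) * cq (r * w) m)).symm.trans ?_
  apply sum_congr rfl
  intro r hr
  rw [mem_filter] at hr
  unfold cg1T
  rw [mul_sum, sum_mul]
  apply sum_congr rfl
  intro w hw
  rw [mem_filter, Nat.mem_divisors] at hw
  have hrw : Nat.Coprime r w := Nat.Coprime.coprime_dvd_right hw.1.1 hr.2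
  rw [cg1_cq_mul hW hr.2 hw.1.1 m hm,
    ArithmeticFunction.isMultiplicative_moebius.map_mul_of_coprime hrw, Nat.totient_mul hrw]
  split_ifs with h
  · push_cast
    rw [div_mul_eq_mul_div, div_mul_div_comm, div_mul_eq_mul_div]
    congr 1
    ring
  · have h2 : (ArithmeticFunction.moebius r : ℝ) * (ArithmeticFunction.moebius w : ℝ) = 0 := by
      have := ArithmeticFunction.moebius_eq_zero_of_not_squarefree h
      rw [ArithmeticFunction.isMultiplicative_moebius.map_mul_of_coprime hrw] at this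
      exact_mod_cast this
    have h3 : (ArithmeticFunction.moebius r : ℝ) / (Nat.totient r : ℝ) *
        ((ArithmeticFunction.moebius w : ℝ) ^ 2 / (Nat.totient w : ℝ)) * cq r m =
        ((ArithmeticFunction.moebius r : ℝ) * (ArithmeticFunction.moebius w : ℝ)) *
          ((ArithmeticFunction.moebius w : ℝ) / (Nat.totient w : ℝ) / (Nat.totient r : ℝ) *
            cq r m) := by
      ring
    rw [h3, h2, zero_mul]

/-! ### Bounds -/

theorem cg1_totient_squarefree {q : ℕ} (hq : Squarefree q) :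
    Nat.totient q = ∏ p ∈ q.primeFactors, (p - 1) := by
  have h1 := Nat.totient_mul_prod_primeFactors q
  rw [Nat.prod_primeFactors_of_squarefree hq, mul_comm] at h1
  exact Nat.eq_of_mul_eq_mul_left (Nat.pos_of_ne_zero hq.ne_zero) h1

theorem cg1_totient_squarefree_real {q : ℕ} (hq : Squarefree q) :
    (Nat.totient q : ℝ) = ∏ p ∈ q.primeFactors, ((p : ℝ) - 1) := by
  rw [cg1_totient_squarefree hq]
  push_cast
  apply prod_congr rfl
  intro p hp
  rw [Nat.cast_sub (Nat.prime_of_mem_primeFactors hp).one_lt.le]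
  simp

theorem cg1_sigma_le {q : ℕ} (hq : Squarefree q) :
    ∑ d ∈ q.divisors, (d : ℝ) ≤ 3 / 2 * (q : ℝ) * (Nat.totient q : ℝ) := by
  have h1 : ∑ d ∈ q.divisors, (d : ℝ) = ∏ p ∈ q.primeFactors, (1 + (p : ℝ)) := by
    have := ArithmeticFunction.isMultiplicative_id.prodPrimeFactors_one_add_of_squarefree hq
    simp only [ArithmeticFunction.id_apply] at this
    have h := congrArg (fun n : ℕ => (n : ℝ)) this.symm
    push_cast at h
    exact h
  have h2 : (q : ℝ) = ∏ p ∈ q.primeFactors, (p : ℝ) := by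
    have h := congrArg (fun n : ℕ => (n : ℝ)) (Nat.prod_primeFactors_of_squarefree hq).symm
    push_cast at h
    exact h
  have h3 : ∏ p ∈ q.primeFactors, (if p = 2 then (3 / 2 : ℝ) else 1) ≤ 3 / 2 := by
    rw [prod_ite_eq' q.primeFactors 2 (fun _ => (3 / 2 : ℝ))]
    split_ifs <;> norm_num
  calc ∑ d ∈ q.divisors, (d : ℝ) = ∏ p ∈ q.primeFactors, (1 + (p : ℝ)) := h1
    _ ≤ ∏ p ∈ q.primeFactors, ((if p = 2 then (3 / 2 : ℝ) else 1) * (p : ℝ) * ((p : ℝ) - 1)) := by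
        apply prod_le_prod
        · intro p _
          positivity
        · intro p hp
          have hp' := Nat.prime_of_mem_primeFactors hp
          split_ifs with h
          · subst h
            norm_num
          · have h4 : 3 ≤ p := by
              have := hp'.two_le
              omega
            have h5 : (3 : ℝ) ≤ p := by exact_mod_cast h4
            nlinarith
    _ = (∏ p ∈ q.primeFactors, (if p = 2 then (3 / 2 : ℝ) else 1)) * (q : ℝ) *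
        (Nat.totient q : ℝ) := by
        rw [prod_mul_distrib, prod_mul_distrib, ← h2, ← cg1_totient_squarefree_real hq]
    _ ≤ 3 / 2 * (q : ℝ) * (Nat.totient q : ℝ) := by
        apply mul_le_mul_of_nonneg_right _ (by positivity)
        exact mul_le_mul_of_nonneg_right h3 (by positivity)

theorem cg1_sum_sigma (Q : ℕ) :
    ∑ q ∈ Icc 1 Q, (if Squarefree q then (∑ d ∈ q.divisors, (d : ℝ)) / (Nat.totient q : ℝ)
      else 0) ≤ (Q : ℝ) ^ 2 := by
  induction Q with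
  | zero => simp
  | succ n ih =>
    rw [sum_Icc_succ_top (by omega)]
    rcases Nat.eq_zero_or_pos n with h0 | h0
    · subst h0
      simp
    have hn : (1 : ℝ) ≤ n := by exact_mod_cast h0
    have h1 : (if Squarefree (n + 1) then (∑ d ∈ (n + 1).divisors, (d : ℝ)) /
        (Nat.totient (n + 1) : ℝ) else 0) ≤ 2 * n + 1 := by
      split_ifs with h
      · have h2 := cg1_sigma_le h
        have h3 : (0 : ℝ) < (Nat.totient (n + 1) : ℝ) := by
          exact_mod_cast Nat.totient_pos.mpr (Nat.succ_pos n)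
        rw [div_le_iff₀ h3]
        refine h2.trans ?_
        apply mul_le_mul_of_nonneg_right _ h3.le
        push_cast
        linarith
      · linarith
    push_cast
    nlinarith

theorem cg1T_nonneg (Q W r : ℕ) : 0 ≤ cg1T Q W r := by
  unfold cg1T
  exact sum_nonneg fun w _ => by positivity

theorem cg1_err (Q W : ℕ) (hW : 0 < W) :
    ∑ r ∈ (Icc 1 Q).filter (fun r => Nat.Coprime r W),
      |(ArithmeticFunction.moebius r : ℝ) / (Nat.totient r : ℝ) * cg1T Q W r| *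
        ∑ d ∈ r.divisors, (d : ℝ) ≤ (Q : ℝ) ^ 2 := by
  refine le_trans ?_ (cg1_sum_sigma Q)
  have h1 := cg1_reindex Q W hW (fun r w => (∑ d ∈ (r * w).divisors, (d : ℝ)) /
    (Nat.totient (r * w) : ℝ))
  have h2 : ∑ q ∈ Icc 1 Q, (if Squarefree q then (∑ d ∈ q.divisors, (d : ℝ)) /
      (Nat.totient q : ℝ) else 0) = ∑ q ∈ Icc 1 Q, if Squarefree q then
      (fun r w : ℕ => (∑ d ∈ (r * w).divisors, (d : ℝ)) /
    (Nat.totient (r * w) : ℝ)) (q / Nat.gcd q W) (Nat.gcd q W) else 0 := by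
    apply sum_congr rfl
    intro q _
    simp only
    rw [Nat.div_mul_cancel (Nat.gcd_dvd_left _ _)]
  rw [h2]
  refine le_trans ?_ h1.le
  apply sum_le_sum
  intro r hr
  rw [mem_filter, mem_Icc] at hr
  obtain ⟨⟨hr1, -⟩, hr3⟩ := hr
  rw [abs_mul, abs_of_nonneg (cg1T_nonneg Q W r), mul_right_comm]
  unfold cg1T
  rw [mul_sum]
  apply sum_le_sum
  intro w hw
  rw [mem_filter, Nat.mem_divisors] at hw
  have hw0 : 0 < w := Nat.pos_of_dvd_of_pos hw.1.1 hW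
  have hrw : Nat.Coprime r w := Nat.Coprime.coprime_dvd_right hw.1.1 hr3
  have hφr : (0 : ℝ) < (Nat.totient r : ℝ) := by exact_mod_cast Nat.totient_pos.mpr hr1
  have hφw : (0 : ℝ) < (Nat.totient w : ℝ) := by exact_mod_cast Nat.totient_pos.mpr hw0
  split_ifs with h
  · rw [Nat.totient_mul hrw, abs_div, abs_of_pos hφr]
    push_cast
    have h3 := cg1_abs_moebius_le r
    have h4 : (ArithmeticFunction.moebius w : ℝ) ^ 2 ≤ 1 := by
      rw [← sq_abs]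
      exact pow_le_one₀ (abs_nonneg _) (cg1_abs_moebius_le w)
    have h5 : ∑ d ∈ r.divisors, (d : ℝ) ≤ ∑ d ∈ (r * w).divisors, (d : ℝ) := by
      apply sum_le_sum_of_subset_of_nonneg
      · exact Nat.divisors_subset_of_dvd (Nat.mul_pos hr1 hw0).ne' (Dvd.intro w rfl)
      · intro i _ _
        positivity
    calc |(ArithmeticFunction.moebius r : ℝ)| / (Nat.totient r : ℝ) *
          (∑ d ∈ r.divisors, (d : ℝ)) *
          ((ArithmeticFunction.moebius w : ℝ) ^ 2 / (Nat.totient w : ℝ))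
        ≤ 1 / (Nat.totient r : ℝ) * (∑ d ∈ (r * w).divisors, (d : ℝ)) *
          (1 / (Nat.totient w : ℝ)) := by gcongr
      _ = _ := by field_simp
  · have h6 : (ArithmeticFunction.moebius r : ℝ) * (ArithmeticFunction.moebius w : ℝ) = 0 := by
      have := ArithmeticFunction.moebius_eq_zero_of_not_squarefree h
      rw [ArithmeticFunction.isMultiplicative_moebius.map_mul_of_coprime hrw] at this
      exact_mod_cast this
    rcases mul_eq_zero.mp h6 with h7 | h7 <;> rw [h7] <;> simp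

theorem cg1_T_full (W : ℕ) (hW : 0 < W) :
    ∑ w ∈ W.divisors, (ArithmeticFunction.moebius w : ℝ) ^ 2 / (Nat.totient w : ℝ) =
      (W : ℝ) / (Nat.totient W : ℝ) := by
  set W' := ∏ p ∈ W.primeFactors, p with hW'
  have hW'W : W' ∣ W := Nat.prod_primeFactors_dvd W
  have hpf : ∀ p ∈ W.primeFactors, p.Prime := fun p hp => Nat.prime_of_mem_primeFactors hp
  have hpf' : W'.primeFactors = W.primeFactors := Nat.primeFactors_prod hpf
  have hsq : Squarefree W' := by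
    refine Finset.squarefree_prod_of_pairwise_isCoprime (fun p hp q hq hpq => ?_)
      (fun p hp => (hpf p hp).prime.squarefree)
    simp only [Function.onFun, ← Nat.coprime_iff_isRelPrime]
    exact (Nat.coprime_primes (hpf p hp) (hpf q hq)).mpr hpq
  have hset : W.divisors.filter (fun w => Squarefree w) = W'.divisors := by
    ext w
    simp only [mem_filter, Nat.mem_divisors]
    constructor
    · rintro ⟨⟨h1, -⟩, h2⟩
      refine ⟨?_, hsq.ne_zero⟩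
      rw [← Nat.prod_primeFactors_of_squarefree h2]
      exact Finset.prod_dvd_prod_of_subset _ _ _ (Nat.primeFactors_mono h1 hW.ne')
    · rintro ⟨h1, -⟩
      exact ⟨⟨h1.trans hW'W, hW.ne'⟩, hsq.squarefree_of_dvd h1⟩
  have h1 : ∑ w ∈ W.divisors, (ArithmeticFunction.moebius w : ℝ) ^ 2 / (Nat.totient w : ℝ) =
      ∑ w ∈ W'.divisors, 1 / (Nat.totient w : ℝ) := by
    rw [← hset, sum_filter]
    apply sum_congr rfl
    intro w _
    split_ifs with h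
    · have : (ArithmeticFunction.moebius w : ℝ) ^ 2 = 1 := by
        exact_mod_cast ArithmeticFunction.moebius_sq_eq_one_of_squarefree h
      rw [this]
    · rw [ArithmeticFunction.moebius_eq_zero_of_not_squarefree h]
      simp
  have h2 : ∑ w ∈ W'.divisors, 1 / (Nat.totient w : ℝ) =
      ∏ p ∈ W.primeFactors, (1 + 1 / ((p : ℝ) - 1)) := by
    let f : ArithmeticFunction ℝ := ⟨fun n => 1 / (Nat.totient n : ℝ), by simp⟩
    have hf : f.IsMultiplicative := by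
      refine ⟨by simp [f], fun {m n} hmn => ?_⟩
      simp only [f, ArithmeticFunction.coe_mk]
      rw [Nat.totient_mul hmn]
      push_cast
      rw [one_div_mul_one_div]
    have h3 := hf.prodPrimeFactors_one_add_of_squarefree hsq
    rw [hpf'] at h3
    rw [show ∑ w ∈ W'.divisors, 1 / (Nat.totient w : ℝ) = ∑ w ∈ W'.divisors, f w from rfl, ← h3]
    apply prod_congr rfl
    intro p hp
    have hp' := hpf p hp
    simp only [f, ArithmeticFunction.coe_mk]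
    rw [Nat.totient_prime hp', Nat.cast_sub hp'.one_lt.le]
    simp
  rw [h1, h2]
  have hφ : (0 : ℝ) < (Nat.totient W : ℝ) := by exact_mod_cast Nat.totient_pos.mpr hW
  rw [eq_div_iff hφ.ne']
  have h4 := congrArg (fun n : ℕ => (n : ℝ)) (Nat.totient_mul_prod_primeFactors W)
  push_cast at h4
  have h5 : ((∏ p ∈ W.primeFactors, ((p - 1 : ℕ) : ℝ))) =
      ∏ p ∈ W.primeFactors, ((p : ℝ) - 1) := by
    apply prod_congr rfl
    intro p hp
    rw [Nat.cast_sub (hpf p hp).one_lt.le]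
    simp
  rw [h5] at h4
  have h6 : (∏ p ∈ W.primeFactors, (1 + 1 / ((p : ℝ) - 1))) * ∏ p ∈ W.primeFactors, ((p : ℝ) - 1) =
      ∏ p ∈ W.primeFactors, (p : ℝ) := by
    rw [← prod_mul_distrib]
    apply prod_congr rfl
    intro p hp
    have : (1 : ℝ) < p := by exact_mod_cast (hpf p hp).one_lt
    have : (p : ℝ) - 1 ≠ 0 := by linarith
    field_simp
    ring
  have h7 : (0 : ℝ) < ∏ p ∈ W.primeFactors, ((p : ℝ) - 1) := by
    apply prod_pos
    intro p hp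
    have : (1 : ℝ) < p := by exact_mod_cast (hpf p hp).one_lt
    linarith
  have h8 : ((∏ p ∈ W.primeFactors, (1 + 1 / ((p : ℝ) - 1))) * (Nat.totient W : ℝ)) *
      ∏ p ∈ W.primeFactors, ((p : ℝ) - 1) = (W : ℝ) * ∏ p ∈ W.primeFactors, ((p : ℝ) - 1) := by
    rw [← h4, ← h6]
    ring
  exact mul_right_cancel₀ h7.ne' h8

theorem cg1T_le (Q W r : ℕ) (hW : 0 < W) : cg1T Q W r ≤ (W : ℝ) / (Nat.totient W : ℝ) := by
  rw [← cg1_T_full W hW]
  unfold cg1T
  apply sum_le_sum_of_subset_of_nonneg (filter_subset _ _)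
  intro w _ _
  positivity

/-- The local factors of the diagonal. -/
noncomputable def cg1h (D : ℤ) (p : ℕ) : ℝ :=
  if (p : ℤ) ∣ D then 1 / ((p : ℝ) - 1) else 1 / ((p : ℝ) - 1) ^ 2

theorem cg1_abs_cq {r : ℕ} (hr : Squarefree r) (D : ℤ) :
    |cq r D| / (Nat.totient r : ℝ) ^ 2 ≤ ∏ p ∈ r.primeFactors, cg1h D p := by
  have hr0 : 0 < r := Nat.pos_of_ne_zero hr.ne_zero
  rw [cq_squarefree r hr D, abs_mul]
  set g := Nat.gcd r D.natAbs with hg
  have hgr : g ∣ r := Nat.gcd_dvd_left _ _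
  have hgs : Squarefree g := hr.squarefree_of_dvd hgr
  have h1 := cg1_abs_moebius_le (r / g)
  have h2 : |(Nat.totient g : ℝ)| = (Nat.totient g : ℝ) := abs_of_nonneg (by positivity)
  rw [h2]
  have h3 : (Nat.totient g : ℝ) =
      ∏ p ∈ r.primeFactors, (if (p : ℤ) ∣ D then ((p : ℝ) - 1) else 1) := by
    rw [cg1_totient_squarefree_real hgs, ← prod_filter]
    apply prod_congr _ (fun _ _ => rfl)
    ext p
    simp only [Nat.mem_primeFactors, mem_filter]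
    constructor
    · rintro ⟨a, b, -⟩
      exact ⟨⟨a, b.trans hgr, hr0.ne'⟩,
        Int.natCast_dvd.mpr (b.trans (Nat.gcd_dvd_right _ _))⟩
    · rintro ⟨⟨a, b, -⟩, c⟩
      exact ⟨a, Nat.dvd_gcd b (Int.natCast_dvd.mp c), hgs.ne_zero⟩
  have h4 : (0 : ℝ) < (Nat.totient r : ℝ) ^ 2 := by
    have : (0 : ℝ) < (Nat.totient r : ℝ) := by exact_mod_cast Nat.totient_pos.mpr hr0
    positivity
  rw [div_le_iff₀ h4]
  calc |(ArithmeticFunction.moebius (r / g) : ℝ)| * (Nat.totient g : ℝ)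
      ≤ 1 * (Nat.totient g : ℝ) := mul_le_mul_of_nonneg_right h1 (by positivity)
    _ = ∏ p ∈ r.primeFactors, (if (p : ℤ) ∣ D then ((p : ℝ) - 1) else 1) := by rw [one_mul, h3]
    _ = ∏ p ∈ r.primeFactors, (cg1h D p * ((p : ℝ) - 1) ^ 2) := by
        apply prod_congr rfl
        intro p hp
        have : (1 : ℝ) < p := by exact_mod_cast (Nat.prime_of_mem_primeFactors hp).one_lt
        have h5 : (p : ℝ) - 1 ≠ 0 := by linarith
        unfold cg1h
        split_ifs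
        · field_simp
        · field_simp
    _ = (∏ p ∈ r.primeFactors, cg1h D p) * (Nat.totient r : ℝ) ^ 2 := by
        rw [prod_mul_distrib, prod_pow, ← cg1_totient_squarefree_real hr]

theorem cg1h_nonneg (D : ℤ) {p : ℕ} (hp : p.Prime) : 0 ≤ cg1h D p := by
  have : (1 : ℝ) < p := by exact_mod_cast hp.one_lt
  have h5 : 0 < (p : ℝ) - 1 := by linarith
  unfold cg1h
  split_ifs <;> positivity

theorem cg1_diag (Q W : ℕ) (D : ℤ) :
    ∑ r ∈ (Icc 1 Q).filter (fun r => Nat.Coprime r W),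
      ((ArithmeticFunction.moebius r : ℝ) / (Nat.totient r : ℝ)) ^ 2 * |cq r D| ≤
      G0 Q W * gp Q W D := by
  set PR := (Icc 1 Q).filter (fun p => p.Prime ∧ ¬ p ∣ W) with hPR
  set R := ((Icc 1 Q).filter (fun r => Nat.Coprime r W)).filter (fun r => Squarefree r) with hR
  have h1 : ∑ r ∈ (Icc 1 Q).filter (fun r => Nat.Coprime r W),
      ((ArithmeticFunction.moebius r : ℝ) / (Nat.totient r : ℝ)) ^ 2 * |cq r D| ≤
      ∑ r ∈ R, ∏ p ∈ r.primeFactors, cg1h D p := by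
    rw [hR, sum_filter (fun r => Squarefree r)]
    apply sum_le_sum
    intro r _
    split_ifs with h
    · refine le_trans (le_of_eq ?_) (cg1_abs_cq h D)
      have : (ArithmeticFunction.moebius r : ℝ) ^ 2 = 1 := by
        exact_mod_cast ArithmeticFunction.moebius_sq_eq_one_of_squarefree h
      rw [div_pow, this]
      ring
    · rw [ArithmeticFunction.moebius_eq_zero_of_not_squarefree h]
      simp
  have hinj : Set.InjOn (fun r : ℕ => r.primeFactors) (R : Set ℕ) := by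
    intro a ha c hc hac
    rw [hR, coe_filter] at ha hc
    have ha' : Squarefree a := ha.2
    have hc' : Squarefree c := hc.2
    rw [← Nat.prod_primeFactors_of_squarefree ha', ← Nat.prod_primeFactors_of_squarefree hc']
    simp only at hac
    rw [hac]
  have h2 : ∑ r ∈ R, ∏ p ∈ r.primeFactors, cg1h D p =
      ∑ t ∈ R.image (fun r : ℕ => r.primeFactors), ∏ p ∈ t, cg1h D p := by
    rw [sum_image hinj]
  have hsub : R.image (fun r : ℕ => r.primeFactors) ⊆ PR.powerset := by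
    intro t ht
    rw [mem_image] at ht
    obtain ⟨r, hr, rfl⟩ := ht
    rw [hR, mem_filter, mem_filter, mem_Icc] at hr
    rw [mem_powerset]
    intro p hp
    rw [Nat.mem_primeFactors] at hp
    rw [hPR, mem_filter, mem_Icc]
    refine ⟨⟨hp.1.one_lt.le, (Nat.le_of_dvd hr.1.1.1 hp.2.1).trans hr.1.1.2⟩, hp.1, fun hpW => ?_⟩
    have := Nat.dvd_gcd hp.2.1 hpW
    rw [hr.1.2] at this
    exact hp.1.one_lt.ne' (Nat.dvd_one.mp this)
  have hPRp : ∀ p ∈ PR, p.Prime := by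
    intro p hp
    rw [hPR, mem_filter] at hp
    exact hp.2.1
  have h3 : ∑ t ∈ R.image (fun r : ℕ => r.primeFactors), ∏ p ∈ t, cg1h D p ≤
      ∑ t ∈ PR.powerset, ∏ p ∈ t, cg1h D p := by
    apply sum_le_sum_of_subset_of_nonneg hsub
    intro t ht _
    rw [mem_powerset] at ht
    exact prod_nonneg fun p hp => cg1h_nonneg D (hPRp p (ht hp))
  have h4 : ∑ t ∈ PR.powerset, ∏ p ∈ t, cg1h D p = ∏ p ∈ PR, (1 + cg1h D p) := by
    rw [prod_one_add]
  have h5 : gp Q W D = ∏ p ∈ PR, (if (p : ℤ) ∣ D then 1 + 1 / ((p : ℝ) - 1) else 1) := by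
    unfold gp
    rw [← prod_filter, hPR, filter_filter]
    apply prod_congr _ (fun _ _ => rfl)
    ext p
    simp only [mem_filter, and_assoc]
  have h6 : G0 Q W * gp Q W D = ∏ p ∈ PR, ((1 + 1 / ((p : ℝ) - 1) ^ 2) *
      (if (p : ℤ) ∣ D then 1 + 1 / ((p : ℝ) - 1) else 1)) := by
    rw [prod_mul_distrib, h5]
    rfl
  calc _ ≤ ∑ r ∈ R, ∏ p ∈ r.primeFactors, cg1h D p := h1
    _ ≤ ∏ p ∈ PR, (1 + cg1h D p) := by rw [h2, ← h4]; exact h3
    _ ≤ G0 Q W * gp Q W D := by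
        rw [h6]
        apply prod_le_prod
        · intro p hp
          have := cg1h_nonneg D (hPRp p hp)
          linarith
        · intro p hp
          have h7 : (1 : ℝ) < p := by exact_mod_cast (hPRp p hp).one_lt
          have h8 : 0 < (p : ℝ) - 1 := by linarith
          have h9 : 0 < 1 / ((p : ℝ) - 1) := by positivity
          have h10 : 0 < 1 / ((p : ℝ) - 1) ^ 2 := by positivity
          unfold cg1h
          split_ifs
          · nlinarith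
          · linarith

theorem cg1_class_coprime {W b : ℕ} (hb : Nat.Coprime b W) (t : ℕ) :
    IsCoprime ((b : ℤ) + W * (t : ℕ)) (W : ℤ) := by
  have h : IsCoprime (b : ℤ) (W : ℤ) := Nat.isCoprime_iff_coprime.mpr hb
  exact IsCoprime.add_mul_left_left h _

/-- **Pair correlation of the model.** With `m = b + W (s + c)`, `m' = b + W (s' + c)`.

Proof. Expand `G(m) = ∑_{q ≤ Q} μ(q)/φ(q) ∑_{(a,q)=1} e(a m/q)` (`cq_eq_sum`). The sum over `c` of
`e(W c (a₁/q₁ + a₂/q₂))` is `M` if `W (a₁/q₁ + a₂/q₂) ∈ ℤ`; otherwise it is at most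
`1/(2‖W(a₁/q₁ + a₂/q₂)‖) ≤ q₁ q₂/2`. The off-diagonal terms contribute at most
`∑_{q₁,q₂} q₁ q₂/2 ≤ Q^4`.
Diagonal: `q₁, q₂` squarefree; write `q_i = q_i' w_i`, `w_i = (q_i, W)`, `(q_i', W) = 1`, and
`a_i/q_i = α_i/q_i' + β_i/w_i`. The condition says `α₁/q₁' + α₂/q₂' ∈ ℤ`, i.e. `q₁' = q₂' = q'` and
`α₂ ≡ -α₁`. Since `m ≡ m' ≡ b` mod `W`, the sums over `β_i` give `c_{w_i}(b) = μ(w_i)`
(`(b, W) = 1`), and `μ(q_i) = μ(q') μ(w_i)`. The sum over `α₁` is `c_{q'}(m - m')`, where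
`m - m' = W (s - s')` and `c_{q'}(W d) = c_{q'}(d)`. So the diagonal is
`M ∑_{q' ≤ Q, (q',W)=1} μ²(q')/φ(q')² c_{q'}(s - s') T(q')²`,
`T(q') = ∑_{w ∣ W, w ≤ Q/q'} μ²(w)/φ(w) ≤ W/φ(W)`. Bound `|c_{q'}(d)| ≤ φ((q',d))` and use
`∑_{q' ≤ Q, (q',W)=1} μ²(q') φ((q',d))/φ(q')² ≤ ∏_{p ≤ Q, p ∤ W, p ∣ d} (1 + 1/(p-1))
∏_{p ≤ Q, p ∤ W, p ∤ d} (1 + 1/(p-1)²) ≤ G0 * gp`. -/
theorem G_pair (Q M W b s s' : ℕ) (hW : 0 < W) (hb : Nat.Coprime b W) (hs : s ≠ s') :
    ∑ c ∈ range M, G Q ((b : ℤ) + W * (s + c : ℕ)) * G Q ((b : ℤ) + W * (s' + c : ℕ)) ≤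
      M * (((W : ℝ) / Nat.totient W) ^ 2 * (G0 Q W * gp Q W ((s : ℤ) - s'))) + (Q : ℝ) ^ 4 := by
  set R := (Icc 1 Q).filter (fun r => Nat.Coprime r W) with hR
  set a : ℕ → ℝ := fun r =>
    (ArithmeticFunction.moebius r : ℝ) / (Nat.totient r : ℝ) * cg1T Q W r with ha
  have hGe : ∀ t : ℕ, G Q ((b : ℤ) + W * (t : ℕ)) =
      ∑ r ∈ R, a r * cq r ((b : ℤ) + W * (t : ℕ)) := fun t =>
    cg1_G_eq Q W hW _ (cg1_class_coprime hb t)
  have h1 : ∑ c ∈ range M, G Q ((b : ℤ) + W * (s + c : ℕ)) * G Q ((b : ℤ) + W * (s' + c : ℕ)) =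
      ∑ r₁ ∈ R, ∑ r₂ ∈ R, a r₁ * a r₂ * ∑ c ∈ range M,
        cq r₁ ((b : ℤ) + W * (s + c : ℕ)) * cq r₂ ((b : ℤ) + W * (s' + c : ℕ)) := by
    have h2 : ∀ c ∈ range M, G Q ((b : ℤ) + W * (s + c : ℕ)) *
        G Q ((b : ℤ) + W * (s' + c : ℕ)) = ∑ r₁ ∈ R, ∑ r₂ ∈ R, a r₁ * a r₂ *
        (cq r₁ ((b : ℤ) + W * (s + c : ℕ)) * cq r₂ ((b : ℤ) + W * (s' + c : ℕ))) := by
      intro c _
      rw [hGe, hGe, sum_mul_sum]
      apply sum_congr rfl
      intro r₁ _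
      apply sum_congr rfl
      intro r₂ _
      ring
    rw [sum_congr rfl h2, sum_comm]
    apply sum_congr rfl
    intro r₁ _
    rw [sum_comm]
    apply sum_congr rfl
    intro r₂ _
    rw [mul_sum]
  have hRm : ∀ r ∈ R, 0 < r ∧ Nat.Coprime r W := by
    intro r hr
    rw [hR, mem_filter, mem_Icc] at hr
    exact ⟨hr.1.1, hr.2⟩
  have h3 : ∀ r₁ ∈ R, ∀ r₂ ∈ R, a r₁ * a r₂ * ∑ c ∈ range M,
        cq r₁ ((b : ℤ) + W * (s + c : ℕ)) * cq r₂ ((b : ℤ) + W * (s' + c : ℕ)) ≤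
      a r₁ * a r₂ * (M * (if r₁ = r₂ then cq r₁ ((s : ℤ) - s') else 0)) +
      (|a r₁| * ∑ d ∈ r₁.divisors, (d : ℝ)) * (|a r₂| * ∑ d ∈ r₂.divisors, (d : ℝ)) := by
    intro r₁ hr₁ r₂ hr₂
    have h4 := cg1_corr r₁ r₂ W b s s' M (hRm r₁ hr₁).1 (hRm r₂ hr₂).1 (hRm r₁ hr₁).2 (hRm r₂ hr₂).2
    have h5 : a r₁ * a r₂ * (∑ c ∈ range M,
        cq r₁ ((b : ℤ) + W * (s + c : ℕ)) * cq r₂ ((b : ℤ) + W * (s' + c : ℕ)) -
        M * (if r₁ = r₂ then cq r₁ ((s : ℤ) - s') else 0)) ≤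
        |a r₁ * a r₂| * ((∑ d ∈ r₁.divisors, (d : ℝ)) * ∑ d ∈ r₂.divisors, (d : ℝ)) := by
      refine (le_abs_self _).trans ?_
      rw [abs_mul]
      exact mul_le_mul_of_nonneg_left h4 (abs_nonneg _)
    rw [abs_mul] at h5
    linarith
  rw [h1]
  refine (sum_le_sum fun r₁ hr₁ => sum_le_sum fun r₂ hr₂ => h3 r₁ hr₁ r₂ hr₂).trans ?_
  simp_rw [sum_add_distrib]
  rw [← sum_mul_sum]
  have h6 := cg1_err Q W hW
  have h7 : (∑ r ∈ R, |a r| * ∑ d ∈ r.divisors, (d : ℝ)) *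
      (∑ r ∈ R, |a r| * ∑ d ∈ r.divisors, (d : ℝ)) ≤ (Q : ℝ) ^ 4 := by
    have h8 : 0 ≤ ∑ r ∈ R, |a r| * ∑ d ∈ r.divisors, (d : ℝ) := by positivity
    calc _ ≤ (Q : ℝ) ^ 2 * (Q : ℝ) ^ 2 := mul_le_mul h6 h6 h8 (by positivity)
      _ = (Q : ℝ) ^ 4 := by ring
  have h9 : ∑ r₁ ∈ R, ∑ r₂ ∈ R, a r₁ * a r₂ *
      (M * (if r₁ = r₂ then cq r₁ ((s : ℤ) - s') else 0)) =
      ∑ r ∈ R, a r * a r * (M * cq r ((s : ℤ) - s')) := by
    apply sum_congr rfl
    intro r₁ hr₁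
    rw [sum_eq_single r₁]
    · rw [if_pos rfl]
    · intro r₂ _ hne
      rw [if_neg (Ne.symm hne)]
      ring
    · intro h
      exact absurd hr₁ h
  have h10 : ∑ r ∈ R, a r * a r * (M * cq r ((s : ℤ) - s')) ≤
      M * (((W : ℝ) / Nat.totient W) ^ 2 * (G0 Q W * gp Q W ((s : ℤ) - s'))) := by
    calc ∑ r ∈ R, a r * a r * (M * cq r ((s : ℤ) - s'))
        ≤ ∑ r ∈ R, M * (((W : ℝ) / Nat.totient W) ^ 2 *
          (((ArithmeticFunction.moebius r : ℝ) / (Nat.totient r : ℝ)) ^ 2 *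
            |cq r ((s : ℤ) - s')|)) := by
          apply sum_le_sum
          intro r _
          have h11 : a r * a r = (cg1T Q W r) ^ 2 *
              ((ArithmeticFunction.moebius r : ℝ) / (Nat.totient r : ℝ)) ^ 2 := by
            rw [ha]
            ring
          have h12 : (cg1T Q W r) ^ 2 ≤ ((W : ℝ) / Nat.totient W) ^ 2 :=
            pow_le_pow_left₀ (cg1T_nonneg Q W r) (cg1T_le Q W r hW) 2
          rw [h11]
          calc (cg1T Q W r) ^ 2 * ((ArithmeticFunction.moebius r : ℝ) /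
                (Nat.totient r : ℝ)) ^ 2 * (M * cq r ((s : ℤ) - s'))
              ≤ (cg1T Q W r) ^ 2 * ((ArithmeticFunction.moebius r : ℝ) /
                (Nat.totient r : ℝ)) ^ 2 * (M * |cq r ((s : ℤ) - s')|) := by
                gcongr
                exact le_abs_self _
            _ ≤ ((W : ℝ) / Nat.totient W) ^ 2 * ((ArithmeticFunction.moebius r : ℝ) /
                (Nat.totient r : ℝ)) ^ 2 * (M * |cq r ((s : ℤ) - s')|) := by
                gcongr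
            _ = _ := by ring
      _ = M * (((W : ℝ) / Nat.totient W) ^ 2 * ∑ r ∈ R,
          (((ArithmeticFunction.moebius r : ℝ) / (Nat.totient r : ℝ)) ^ 2 *
            |cq r ((s : ℤ) - s')|)) := by
          rw [mul_sum, mul_sum]
      _ ≤ _ := by
          have := cg1_diag Q W ((s : ℤ) - s')
          gcongr
  rw [h9]
  linarith

end Pool.Agent.Lib.H68T
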