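import Pool.Agent.Lib.H68T.CQ
import Pool.Agent.Lib.H68T.CG1

/-!
# Chunk CG2: mean of the model `G` along a class, and the second moment of `dQ`
-/

open Finset

namespace Pool.Agent.Lib.H68T

theorem cg2_cq_one (m : ℤ) : cq 1 m = 1 := by
  unfold cq
  rw [Nat.divisors_one, filter_singleton, if_pos (by simp)]
  simp

/-- Mean of the model in a class `b` mod `W`, `(b, W) = 1`, `W ≤ Q`. Expand as in `G_pair`; the
terms with `W a/q ∈ ℤ` are those with `q ∣ W` (as `(a,q) = 1`), they give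
`M ∑_{q ∣ W} μ(q) c_q(b)/φ(q) = M ∑_{q ∣ W} μ²(q)/φ(q) = M W/φ(W)`; the others are at most
`q/2` for each `a`, in total at most `Q²`. -/
theorem G_mean (Q M W b s : ℕ) (hW : 0 < W) (hWQ : W ≤ Q) (hb : Nat.Coprime b W) :
    M * ((W : ℝ) / Nat.totient W) - (Q : ℝ) ^ 2 ≤
      ∑ c ∈ range M, G Q ((b : ℤ) + W * (s + c : ℕ)) := by
  set R := (Icc 1 Q).filter (fun r => Nat.Coprime r W) with hR
  set a : ℕ → ℝ := fun r =>
    (ArithmeticFunction.moebius r : ℝ) / (Nat.totient r : ℝ) * cg1T Q W r with ha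
  have hGe : ∀ t : ℕ, G Q ((b : ℤ) + W * (t : ℕ)) =
      ∑ r ∈ R, a r * cq r ((b : ℤ) + W * (t : ℕ)) := fun t =>
    cg1_G_eq Q W hW _ (cg1_class_coprime hb t)
  have h1 : ∑ c ∈ range M, G Q ((b : ℤ) + W * (s + c : ℕ)) =
      ∑ r ∈ R, a r * ∑ c ∈ range M, cq r ((b : ℤ) + W * (s + c : ℕ)) := by
    rw [sum_congr rfl (fun c _ => hGe (s + c)), sum_comm]
    apply sum_congr rfl
    intro r _
    rw [mul_sum]
  have h1R : 1 ∈ R := by
    rw [hR, mem_filter, mem_Icc]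
    exact ⟨⟨le_refl _, by omega⟩, Nat.coprime_one_left W⟩
  have h2 : ∀ r ∈ R, a r * (M * (if r = 1 then 1 else 0)) -
      |a r| * ∑ d ∈ r.divisors, (d : ℝ) ≤
      a r * ∑ c ∈ range M, cq r ((b : ℤ) + W * (s + c : ℕ)) := by
    intro r hr
    have hr' := hr
    rw [hR, mem_filter, mem_Icc] at hr'
    have h3 := cg1_corr r 1 W b s s M hr'.1.1 one_pos hr'.2 (Nat.coprime_one_left W)
    simp only [cg2_cq_one, mul_one, Nat.divisors_one, sum_singleton, Nat.cast_one] at h3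
    have h4 : (if r = 1 then cq r ((s : ℤ) - s) else 0) = if r = 1 then (1 : ℝ) else 0 := by
      split_ifs with h
      · rw [h, cg2_cq_one]
      · rfl
    rw [h4] at h3
    have h5 : -(|a r| * ∑ d ∈ r.divisors, (d : ℝ)) ≤
        a r * (∑ c ∈ range M, cq r ((b : ℤ) + W * (s + c : ℕ)) -
          M * (if r = 1 then 1 else 0)) := by
      refine le_trans ?_ (neg_abs_le _)
      rw [abs_mul (a r)]
      exact neg_le_neg (mul_le_mul_of_nonneg_left h3 (abs_nonneg _))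
    linarith
  have h6 : ∑ r ∈ R, a r * (M * (if r = 1 then (1 : ℝ) else 0)) =
      M * ((W : ℝ) / Nat.totient W) := by
    rw [sum_eq_single 1]
    · have h7 : a 1 = (W : ℝ) / Nat.totient W := by
        rw [ha]
        simp only [ArithmeticFunction.moebius_apply_one, Nat.totient_one, Int.cast_one,
          Nat.cast_one, div_one, one_mul]
        rw [← cg1_T_full W hW]
        unfold cg1T
        congr 1
        rw [filter_eq_self]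
        intro w hw
        rw [one_mul]
        exact (Nat.divisor_le hw).trans hWQ
      rw [h7, if_pos rfl]
      ring
    · intro r _ hne
      rw [if_neg hne]
      ring
    · intro h
      exact absurd h1R h
  have h8 := cg1_err Q W hW
  rw [h1]
  refine le_trans ?_ (sum_le_sum h2)
  rw [sum_sub_distrib, h6]
  have h9 : ∑ r ∈ R, |a r| * ∑ d ∈ r.divisors, (d : ℝ) ≤ (Q : ℝ) ^ 2 := h8
  linarith

theorem cg2_sum_inv (Q : ℕ) : ∑ e ∈ Icc 1 Q, 1 / (e : ℝ) ≤ 1 + Real.log Q := by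
  have h := harmonic_le_one_add_log Q
  rw [harmonic_eq_sum_Icc] at h
  push_cast at h
  simpa [one_div] using h

theorem cg2_sum_multiples (Q g : ℕ) (hg : 0 < g) :
    ∑ e ∈ Icc 1 Q, (if g ∣ e then 1 / (e : ℝ) else 0) ≤ 1 / (g : ℝ) * (1 + Real.log Q) := by
  rw [← sum_filter]
  have hsub : (Icc 1 Q).filter (fun e => g ∣ e) ⊆ (Icc 1 Q).image (fun k => g * k) := by
    intro e he
    rw [mem_filter, mem_Icc] at he
    obtain ⟨⟨h1, h2⟩, k, hk⟩ := he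
    rw [mem_image]
    refine ⟨k, ?_, hk.symm⟩
    rw [mem_Icc]
    subst hk
    refine ⟨Nat.pos_of_mul_pos_left h1 |> fun h => ?_, ?_⟩
    · rcases Nat.eq_zero_or_pos k with h0 | h0
      · subst h0
        omega
      · exact h0
    · exact (Nat.le_mul_of_pos_left k hg).trans h2
  have hinj : Set.InjOn (fun k : ℕ => g * k) (Icc 1 Q : Finset ℕ) := by
    intro x _ y _ hxy
    exact Nat.eq_of_mul_eq_mul_left hg hxy
  calc ∑ e ∈ (Icc 1 Q).filter (fun e => g ∣ e), 1 / (e : ℝ)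
      ≤ ∑ e ∈ (Icc 1 Q).image (fun k => g * k), 1 / (e : ℝ) := by
        apply sum_le_sum_of_subset_of_nonneg hsub
        intro i _ _
        positivity
    _ = ∑ k ∈ Icc 1 Q, 1 / ((g * k : ℕ) : ℝ) := sum_image hinj
    _ = 1 / (g : ℝ) * ∑ k ∈ Icc 1 Q, 1 / (k : ℝ) := by
        rw [mul_sum]
        apply sum_congr rfl
        intro k _
        push_cast
        rw [one_div_mul_one_div]
    _ ≤ _ := mul_le_mul_of_nonneg_left (cg2_sum_inv Q) (by positivity)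

theorem cg2_gcd_sum (Q : ℕ) :
    ∑ e₁ ∈ Icc 1 Q, ∑ e₂ ∈ Icc 1 Q, ((Nat.gcd e₁ e₂ : ℝ) / ((e₁ : ℝ) * e₂)) ≤
      (1 + Real.log Q) ^ 3 := by
  have hlog : 0 ≤ Real.log Q := by positivity
  have h1 : ∀ e₁ ∈ Icc 1 Q, ∀ e₂ ∈ Icc 1 Q, ((Nat.gcd e₁ e₂ : ℝ) / ((e₁ : ℝ) * e₂)) =
      ∑ g ∈ Icc 1 Q, (Nat.totient g : ℝ) * ((if g ∣ e₁ then 1 / (e₁ : ℝ) else 0) *
        (if g ∣ e₂ then 1 / (e₂ : ℝ) else 0)) := by
    intro e₁ he₁ e₂ he₂
    rw [mem_Icc] at he₁ he₂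
    have h2 : ((Nat.gcd e₁ e₂ : ℕ) : ℝ) = ∑ g ∈ (Nat.gcd e₁ e₂).divisors, (Nat.totient g : ℝ) := by
      have := congrArg (fun n : ℕ => (n : ℝ)) (Nat.sum_totient (Nat.gcd e₁ e₂)).symm
      push_cast at this
      exact_mod_cast this
    have h3 : (Nat.gcd e₁ e₂).divisors = (Icc 1 Q).filter (fun g => g ∣ e₁ ∧ g ∣ e₂) := by
      ext g
      simp only [Nat.mem_divisors, mem_filter, mem_Icc, Nat.dvd_gcd_iff]
      constructor
      · rintro ⟨⟨a, b⟩, -⟩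
        exact ⟨⟨Nat.pos_of_dvd_of_pos a he₁.1, (Nat.le_of_dvd he₁.1 a).trans he₁.2⟩, a, b⟩
      · rintro ⟨-, a, b⟩
        exact ⟨⟨a, b⟩, (Nat.gcd_pos_of_pos_left _ he₁.1).ne'⟩
    rw [h2, h3, sum_filter, sum_div]
    apply sum_congr rfl
    intro g _
    have hp₁ : (0 : ℝ) < e₁ := by exact_mod_cast he₁.1
    have hp₂ : (0 : ℝ) < e₂ := by exact_mod_cast he₂.1
    by_cases a : g ∣ e₁ <;> by_cases b : g ∣ e₂ <;> simp [a, b]
    field_simp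
  have h4 : ∑ e₁ ∈ Icc 1 Q, ∑ e₂ ∈ Icc 1 Q, ((Nat.gcd e₁ e₂ : ℝ) / ((e₁ : ℝ) * e₂)) =
      ∑ g ∈ Icc 1 Q, (Nat.totient g : ℝ) *
        ((∑ e ∈ Icc 1 Q, if g ∣ e then 1 / (e : ℝ) else 0) *
        (∑ e ∈ Icc 1 Q, if g ∣ e then 1 / (e : ℝ) else 0)) := by
    rw [sum_congr rfl (fun e₁ he₁ => sum_congr rfl (fun e₂ he₂ => h1 e₁ he₁ e₂ he₂))]
    rw [sum_congr rfl (fun e₁ _ => sum_comm), sum_comm]
    apply sum_congr rfl
    intro g _
    rw [sum_mul_sum, mul_sum]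
    apply sum_congr rfl
    intro e₁ _
    rw [mul_sum]
  rw [h4]
  calc _ ≤ ∑ g ∈ Icc 1 Q, 1 / (g : ℝ) * (1 + Real.log Q) ^ 2 := by
        apply sum_le_sum
        intro g hg
        rw [mem_Icc] at hg
        have hg0 : (0 : ℝ) < g := by exact_mod_cast hg.1
        have h5 := cg2_sum_multiples Q g hg.1
        have h6 : 0 ≤ ∑ e ∈ Icc 1 Q, (if g ∣ e then 1 / (e : ℝ) else 0) := by
          apply sum_nonneg
          intro e _
          positivity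
        have h7 : (Nat.totient g : ℝ) ≤ g := by exact_mod_cast Nat.totient_le g
        calc _ ≤ (g : ℝ) * ((1 / (g : ℝ) * (1 + Real.log Q)) * (1 / (g : ℝ) * (1 + Real.log Q))) := by
              gcongr
          _ = _ := by field_simp
    _ = (∑ g ∈ Icc 1 Q, 1 / (g : ℝ)) * (1 + Real.log Q) ^ 2 := by rw [sum_mul]
    _ ≤ (1 + Real.log Q) * (1 + Real.log Q) ^ 2 := by
        apply mul_le_mul_of_nonneg_right (cg2_sum_inv Q) (by positivity)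
    _ = _ := by ring

/-- Second moment of `dQ` along a class: only divisors coprime to `W` occur, and for
`D = lcm(e₁, e₂)` coprime to `W` at most `M/D + 1` of the `c < M` have `D ∣ b + W (s + c)`;
`∑_{e₁, e₂ ≤ Q} 1/lcm(e₁,e₂) = ∑ gcd/(e₁ e₂) ≤ ∑_{g ≤ Q} φ(g)/g² (1 + log Q)² ≤ (1 + log Q)³`. -/
theorem dQ_moment (Q M W b s : ℕ) (hW : 0 < W) (hb : Nat.Coprime b W) :
    ∑ c ∈ range M, (dQ Q ((b : ℤ) + W * (s + c : ℕ))) ^ 2 ≤
      M * (1 + Real.log Q) ^ 3 + (Q : ℝ) ^ 2 := by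
  have hlog : 0 ≤ Real.log Q := by positivity
  have h1 : ∀ c ∈ range M, (dQ Q ((b : ℤ) + W * (s + c : ℕ))) ^ 2 =
      ∑ e₁ ∈ Icc 1 Q, ∑ e₂ ∈ Icc 1 Q, if (e₁ : ℤ) ∣ (b : ℤ) + W * (s + c : ℕ) ∧
        (e₂ : ℤ) ∣ (b : ℤ) + W * (s + c : ℕ) then (1 : ℝ) else 0 := by
    intro c _
    unfold dQ
    rw [card_filter, sq]
    push_cast
    rw [sum_mul_sum]
    apply sum_congr rfl
    intro e₁ _
    apply sum_congr rfl
    intro e₂ _
    rw [ite_and]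
    split_ifs <;> simp
  rw [sum_congr rfl h1, sum_comm]
  have h2 : ∀ e₁ ∈ Icc 1 Q, ∑ c ∈ range M, ∑ e₂ ∈ Icc 1 Q,
      (if (e₁ : ℤ) ∣ (b : ℤ) + W * (s + c : ℕ) ∧
        (e₂ : ℤ) ∣ (b : ℤ) + W * (s + c : ℕ) then (1 : ℝ) else 0) ≤
      ∑ e₂ ∈ Icc 1 Q, ((M : ℝ) * ((Nat.gcd e₁ e₂ : ℝ) / ((e₁ : ℝ) * e₂)) + 1) := by
    intro e₁ he₁
    rw [sum_comm]
    apply sum_le_sum
    intro e₂ he₂
    rw [mem_Icc] at he₁ he₂
    have hp₁ : (0 : ℝ) < e₁ := by exact_mod_cast he₁.1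
    have hp₂ : (0 : ℝ) < e₂ := by exact_mod_cast he₂.1
    have hnn : 0 ≤ (M : ℝ) * ((Nat.gcd e₁ e₂ : ℝ) / ((e₁ : ℝ) * e₂)) + 1 := by positivity
    have hcast : ∑ c ∈ range M, (if (e₁ : ℤ) ∣ (b : ℤ) + W * (s + c : ℕ) ∧
        (e₂ : ℤ) ∣ (b : ℤ) + W * (s + c : ℕ) then (1 : ℝ) else 0) =
        ((((range M).filter (fun c : ℕ => (e₁ : ℤ) ∣ (b : ℤ) + W * (s + c : ℕ) ∧
        (e₂ : ℤ) ∣ (b : ℤ) + W * (s + c : ℕ))).card : ℕ) : ℝ) := by
      rw [card_filter]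
      push_cast
      rfl
    rw [hcast]
    by_cases hcop : Nat.Coprime e₁ W ∧ Nat.Coprime e₂ W
    · have h3 := cg1_count e₁ e₂ W b s s M he₁.1 he₂.1 hcop.1 hcop.2
      rw [if_pos (by simp)] at h3
      have h4 := (abs_le.mp h3).2
      have h5 : (M : ℝ) * ((Nat.gcd e₁ e₂ : ℝ) / ((e₁ : ℝ) * e₂)) =
          (M : ℝ) * (Nat.gcd e₁ e₂ : ℝ) / ((e₁ : ℝ) * e₂) := by ring
      rw [h5]
      linarith
    · have hempty : (range M).filter (fun c : ℕ => (e₁ : ℤ) ∣ (b : ℤ) + W * (s + c : ℕ) ∧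
          (e₂ : ℤ) ∣ (b : ℤ) + W * (s + c : ℕ)) = ∅ := by
        rw [filter_eq_empty_iff]
        intro c _ hc
        apply hcop
        have hcc := cg1_class_coprime hb (s + c)
        exact ⟨Nat.isCoprime_iff_coprime.mp (hcc.of_isCoprime_of_dvd_left hc.1),
          Nat.isCoprime_iff_coprime.mp (hcc.of_isCoprime_of_dvd_left hc.2)⟩
      rw [hempty]
      simpa using hnn
  refine le_trans (b := ∑ e₁ ∈ Icc 1 Q, ∑ e₂ ∈ Icc 1 Q,
    ((M : ℝ) * ((Nat.gcd e₁ e₂ : ℝ) / ((e₁ : ℝ) * e₂)) + 1)) ?_ ?_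
  · exact sum_le_sum h2
  simp_rw [sum_add_distrib, ← mul_sum]
  have h6 : ∑ _e₁ ∈ Icc 1 Q, ∑ _e₂ ∈ Icc 1 Q, (1 : ℝ) = (Q : ℝ) ^ 2 := by
    simp [sq]
  rw [h6]
  have h7 : ∑ e₁ ∈ Icc 1 Q, ∑ e₂ ∈ Icc 1 Q, ((Nat.gcd e₁ e₂ : ℝ) / ((e₁ : ℝ) * e₂)) ≤
      (1 + Real.log Q) ^ 3 := cg2_gcd_sum Q
  have h8 : (M : ℝ) * ∑ e₁ ∈ Icc 1 Q, ∑ e₂ ∈ Icc 1 Q, ((Nat.gcd e₁ e₂ : ℝ) / ((e₁ : ℝ) * e₂)) ≤
      M * (1 + Real.log Q) ^ 3 := mul_le_mul_of_nonneg_left h7 (by positivity)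
  linarith

theorem one_le_dQ (Q : ℕ) (hQ : 1 ≤ Q) (m : ℤ) : 1 ≤ dQ Q m := by
  unfold dQ
  have h : 1 ≤ ((Icc 1 Q).filter (fun d : ℕ => (d : ℤ) ∣ m)).card := by
    rw [Nat.one_le_iff_ne_zero, card_ne_zero]
    exact ⟨1, by simp [hQ]⟩
  exact_mod_cast h

end Pool.Agent.Lib.H68T
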