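import Pool.Agent.Lib.H68T.LONG1

/-!
# Chunk LONG2; part of LONG: long smooth sums
-/

open Finset

namespace Pool.Agent.Lib.H68T

theorem LONG2_smooth : Differentiable ℝ Real.smoothTransition ∧
    Differentiable ℝ (deriv Real.smoothTransition) ∧
    Continuous (deriv (deriv Real.smoothTransition)) := by
  have h2 : ContDiff ℝ (1 + 1) Real.smoothTransition := by exact_mod_cast LONG_sT_diff
  have hc1 : ContDiff ℝ 1 (deriv Real.smoothTransition) := (contDiff_succ_iff_deriv.mp h2).2.2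
  exact ⟨LONG_sT_diff.differentiable (by norm_num), hc1.differentiable (by norm_num),
    hc1.continuous_deriv le_rfl⟩

/-- derivative of `smoothTransition` -/
noncomputable def LONG2_s1 (x : ℝ) : ℝ := deriv Real.smoothTransition x

/-- second derivative of `smoothTransition` -/
noncomputable def LONG2_s2 (x : ℝ) : ℝ := deriv (deriv Real.smoothTransition) x

theorem LONG2_h0 (x : ℝ) : HasDerivAt Real.smoothTransition (LONG2_s1 x) x :=
  (LONG2_smooth.1 x).hasDerivAt

theorem LONG2_h1 (x : ℝ) : HasDerivAt LONG2_s1 (LONG2_s2 x) x :=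
  (LONG2_smooth.2.1 x).hasDerivAt

theorem LONG2_c0 : Continuous Real.smoothTransition := LONG2_smooth.1.continuous
theorem LONG2_c1 : Continuous LONG2_s1 := LONG2_smooth.2.1.continuous
theorem LONG2_c2 : Continuous LONG2_s2 := LONG2_smooth.2.2

theorem LONG2_comp {f f' : ℝ → ℝ} (hf : ∀ x, HasDerivAt f (f' x) x) {g : ℝ → ℝ} {g' y : ℝ}
    (hg : HasDerivAt g g' y) : HasDerivAt (fun y => f (g y)) (f' (g y) * g') y :=
  (hf (g y)).comp y hg

/-- `V = w (· + c)` and its derivatives -/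
noncomputable def LONG2_V1 (c y : ℝ) : ℝ :=
  LONG2_s1 (y + c + 2) * Real.smoothTransition (4 - (y + c)) -
    Real.smoothTransition (y + c + 2) * LONG2_s1 (4 - (y + c))

noncomputable def LONG2_V2 (c y : ℝ) : ℝ :=
  LONG2_s2 (y + c + 2) * Real.smoothTransition (4 - (y + c)) -
    2 * (LONG2_s1 (y + c + 2) * LONG2_s1 (4 - (y + c))) +
    Real.smoothTransition (y + c + 2) * LONG2_s2 (4 - (y + c))

theorem LONG2_in1 (c y : ℝ) : HasDerivAt (fun y : ℝ => y + c + 2) 1 y := by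
  simpa using ((hasDerivAt_id' y).add_const c).add_const 2

theorem LONG2_in2 (c y : ℝ) : HasDerivAt (fun y : ℝ => 4 - (y + c)) (-1) y := by
  simpa using ((hasDerivAt_id' y).add_const c).const_sub 4

theorem LONG2_hV (c y : ℝ) : HasDerivAt (fun y => w (y + c)) (LONG2_V1 c y) y := by
  unfold w LONG2_V1
  have h1 : HasDerivAt (fun y : ℝ => Real.smoothTransition (y + c + 2))
      (LONG2_s1 (y + c + 2) * 1) y := LONG2_comp LONG2_h0 (LONG2_in1 c y)
  have h2 : HasDerivAt (fun y : ℝ => Real.smoothTransition (4 - (y + c)))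
      (LONG2_s1 (4 - (y + c)) * (-1)) y := LONG2_comp LONG2_h0 (LONG2_in2 c y)
  refine HasDerivAt.congr_deriv (h1.mul h2) ?_
  ring

theorem LONG2_hV1 (c y : ℝ) : HasDerivAt (LONG2_V1 c) (LONG2_V2 c y) y := by
  unfold LONG2_V1 LONG2_V2
  have h1 : HasDerivAt (fun y : ℝ => Real.smoothTransition (y + c + 2))
      (LONG2_s1 (y + c + 2) * 1) y := LONG2_comp LONG2_h0 (LONG2_in1 c y)
  have h2 : HasDerivAt (fun y : ℝ => Real.smoothTransition (4 - (y + c)))
      (LONG2_s1 (4 - (y + c)) * (-1)) y := LONG2_comp LONG2_h0 (LONG2_in2 c y)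
  have h3 : HasDerivAt (fun y : ℝ => LONG2_s1 (y + c + 2))
      (LONG2_s2 (y + c + 2) * 1) y := LONG2_comp LONG2_h1 (LONG2_in1 c y)
  have h4 : HasDerivAt (fun y : ℝ => LONG2_s1 (4 - (y + c)))
      (LONG2_s2 (4 - (y + c)) * (-1)) y := LONG2_comp LONG2_h1 (LONG2_in2 c y)
  refine HasDerivAt.congr_deriv ((h3.mul h2).sub (h1.mul h4)) ?_
  ring

/-- `P = y^j`, `j = 0, 1`, its derivative is the constant `j` -/
theorem LONG2_hP (j : ℕ) (hj : j ∈ range 2) (y : ℝ) : HasDerivAt (fun y : ℝ => y ^ j) (j : ℝ) y := by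
  have hj' : j = 0 ∨ j = 1 := by rw [mem_range] at hj; omega
  rcases hj' with rfl | rfl
  · simpa using hasDerivAt_const y (1:ℝ)
  · simpa using hasDerivAt_id' y

theorem LONG2_hS (α y : ℝ) : HasDerivAt (fun y => Real.smoothTransition (y - α))
    (LONG2_s1 (y - α)) y := by
  have := LONG2_comp LONG2_h0 ((hasDerivAt_id' y).sub_const α)
  simpa using this

theorem LONG2_hS1 (α y : ℝ) : HasDerivAt (fun y => LONG2_s1 (y - α)) (LONG2_s2 (y - α)) y := by
  have := LONG2_comp LONG2_h1 ((hasDerivAt_id' y).sub_const α)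
  simpa using this

/-- first derivative of the amplitude -/
noncomputable def LONG2_O1 (α c : ℝ) (j : ℕ) (y : ℝ) : ℝ :=
  (LONG2_s1 (y - α) * y ^ j + Real.smoothTransition (y - α) * j) * w (y + c) +
    Real.smoothTransition (y - α) * y ^ j * LONG2_V1 c y

/-- second derivative of the amplitude -/
noncomputable def LONG2_O2 (α c : ℝ) (j : ℕ) (y : ℝ) : ℝ :=
  LONG2_s2 (y - α) * y ^ j * w (y + c) + Real.smoothTransition (y - α) * y ^ j * LONG2_V2 c y +
    2 * (LONG2_s1 (y - α) * j * w (y + c)) + 2 * (LONG2_s1 (y - α) * y ^ j * LONG2_V1 c y) +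
    2 * (Real.smoothTransition (y - α) * j * LONG2_V1 c y)

theorem LONG2_hO (α c : ℝ) (j : ℕ) (hj : j ∈ range 2) (y : ℝ) :
    HasDerivAt (LONG_Om α c j) (LONG2_O1 α c j y) y := by
  unfold LONG_Om LONG2_O1
  exact ((LONG2_hS α y).mul (LONG2_hP j hj y)).mul (LONG2_hV c y)

theorem LONG2_hO1 (α c : ℝ) (j : ℕ) (hj : j ∈ range 2) (y : ℝ) :
    HasDerivAt (LONG2_O1 α c j) (LONG2_O2 α c j y) y := by
  unfold LONG2_O1 LONG2_O2
  have h := ((((LONG2_hS1 α y).mul (LONG2_hP j hj y)).add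
    ((LONG2_hS α y).mul_const (j:ℝ))).mul (LONG2_hV c y)).add
    (((LONG2_hS α y).mul (LONG2_hP j hj y)).mul (LONG2_hV1 c y))
  refine HasDerivAt.congr_deriv h ?_
  simp only [Pi.mul_apply, Pi.add_apply]
  ring

theorem LONG2_cw : Continuous w := by
  unfold w
  exact (LONG2_c0.comp (by fun_prop)).mul (LONG2_c0.comp (by fun_prop))

theorem LONG2_cO2 (α c : ℝ) (j : ℕ) : Continuous (LONG2_O2 α c j) := by
  unfold LONG2_O2 LONG2_V1 LONG2_V2
  have := LONG2_cw
  have := LONG2_c0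
  have := LONG2_c1
  have := LONG2_c2
  fun_prop

theorem LONG2_cO (α c : ℝ) (j : ℕ) : Continuous (LONG_Om α c j) := by
  unfold LONG_Om
  have := LONG2_cw
  have := LONG2_c0
  fun_prop

/-- indicator of `[A, A+1]` -/
noncomputable def LONG2_I (A y : ℝ) : ℝ := Set.indicator (Set.Icc A (A + 1)) (fun _ => (1:ℝ)) y

theorem LONG2_I_nonneg (A y : ℝ) : 0 ≤ LONG2_I A y := Set.indicator_nonneg (fun _ _ => zero_le_one) _

theorem LONG2_I_le (A y : ℝ) : LONG2_I A y ≤ 1 := by
  unfold LONG2_I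
  by_cases h : y ∈ Set.Icc A (A + 1)
  · rw [Set.indicator_of_mem h]
  · rw [Set.indicator_of_notMem h]; norm_num

theorem LONG2_I_int (A : ℝ) : MeasureTheory.Integrable (LONG2_I A) := by
  unfold LONG2_I
  rw [show (fun y => Set.indicator (Set.Icc A (A + 1)) (fun _ => (1:ℝ)) y) =
    Set.indicator (Set.Icc A (A + 1)) (fun _ => (1:ℝ)) from rfl,
    MeasureTheory.integrable_indicator_iff measurableSet_Icc]
  exact MeasureTheory.integrableOn_const (by simp)

theorem LONG2_I_integral (A : ℝ) : ∫ y, LONG2_I A y = 1 := by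
  unfold LONG2_I
  rw [MeasureTheory.integral_indicator measurableSet_Icc]
  simp

theorem LONG2_I_interval (A L : ℝ) (hL : 0 ≤ L) : ∫ y in (0:ℝ)..L, LONG2_I A y ≤ 1 := by
  rw [intervalIntegral.integral_of_le hL, ← LONG2_I_integral A]
  exact MeasureTheory.setIntegral_le_integral (LONG2_I_int A)
    (Filter.Eventually.of_forall (fun y => LONG2_I_nonneg A y))

theorem LONG2_abs5 (a b c d e : ℝ) : |a + b + c + d + e| ≤ |a| + |b| + |c| + |d| + |e| := by
  refine (abs_add_le _ _).trans ?_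
  have h2 := abs_add_le (a + b + c) d
  have h3 := abs_add_three a b c
  linarith

theorem LONG2_alg (B I1 J y r1 r2 r3 r4 r5 : ℝ) (hB : 1 ≤ B) (i1 : 0 ≤ I1) (hJ : 0 ≤ J)
    (hy : 0 ≤ y) (h1 : r1 ≤ (B * I1) * (1 + y) * 1) (h2 : r2 ≤ 1 * (1 + y) * (3 * B ^ 2 * J))
    (h3 : r3 ≤ 2 * ((B * I1) * 1 * 1)) (h4 : r4 ≤ 2 * ((B * I1) * (1 + y) * (B * 2)))
    (h5 : r5 ≤ 2 * (1 * 1 * (B * J))) :
    r1 + r2 + r3 + r4 + r5 ≤ 7 * B ^ 2 * (1 + y) * (I1 + J) := by
  have hBB : B ≤ B ^ 2 := by nlinarith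
  have hy1 : 0 ≤ 1 + y := by linarith
  have k1 : B * I1 ≤ B ^ 2 * I1 := mul_le_mul_of_nonneg_right hBB i1
  have k2 : B * J ≤ B ^ 2 * J := mul_le_mul_of_nonneg_right hBB hJ
  have k0 : 0 ≤ B ^ 2 * I1 := by positivity
  have k0' : 0 ≤ B ^ 2 * J := by positivity
  have k3 : B ^ 2 * I1 ≤ B ^ 2 * I1 * (1 + y) := by nlinarith
  have k4 : B ^ 2 * J ≤ B ^ 2 * J * (1 + y) := by nlinarith
  have k5 : B * I1 * (1 + y) ≤ B ^ 2 * I1 * (1 + y) := mul_le_mul_of_nonneg_right k1 hy1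
  have k6 : 0 ≤ B ^ 2 * J * (1 + y) := by positivity
  have e : 7 * B ^ 2 * (1 + y) * (I1 + J) = 7 * (B ^ 2 * I1 * (1 + y)) +
    7 * (B ^ 2 * J * (1 + y)) := by ring
  rw [e]
  have e2 : 1 * (1 + y) * (3 * B ^ 2 * J) = 3 * (B ^ 2 * J * (1 + y)) := by ring
  have e4 : 2 * ((B * I1) * (1 + y) * (B * 2)) = 4 * (B ^ 2 * I1 * (1 + y)) := by ring
  rw [e2] at h2
  rw [e4] at h4
  linarith

theorem LONG2_bound {B : ℝ} (hB1 : 1 ≤ B) (hs1 : ∀ x, |LONG2_s1 x| ≤ B) (hs2 : ∀ x, |LONG2_s2 x| ≤ B)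
    (hz1 : ∀ x, x ∉ Set.Icc (0:ℝ) 1 → LONG2_s1 x = 0)
    (hz2 : ∀ x, x ∉ Set.Icc (0:ℝ) 1 → LONG2_s2 x = 0)
    (α c : ℝ) (j : ℕ) (hj : j ∈ range 2) (y : ℝ) (hy : 0 ≤ y) :
    |LONG2_O2 α c j y| ≤ 7 * B ^ 2 * (1 + y) *
      (LONG2_I α y + LONG2_I (-c - 2) y + LONG2_I (3 - c) y) := by
  have hj' : j = 0 ∨ j = 1 := by rw [mem_range] at hj; omega
  have hB0 : 0 ≤ B := by linarith
  set I1 := LONG2_I α y with hI1
  set I2 := LONG2_I (-c - 2) y with hI2
  set I3 := LONG2_I (3 - c) y with hI3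
  have i1 := LONG2_I_nonneg α y
  have i2 := LONG2_I_nonneg (-c - 2) y
  have i3 := LONG2_I_nonneg (3 - c) y
  have j1 := LONG2_I_le α y
  have j2 := LONG2_I_le (-c - 2) y
  have j3 := LONG2_I_le (3 - c) y
  rw [← hI1] at i1 j1
  rw [← hI2] at i2 j2
  rw [← hI3] at i3 j3
  have gen : ∀ (f : ℝ → ℝ) (hb : ∀ x, |f x| ≤ B) (hz : ∀ x, x ∉ Set.Icc (0:ℝ) 1 → f x = 0),
      |f (y - α)| ≤ B * I1 ∧ |f (y + c + 2)| ≤ B * I2 ∧ |f (4 - (y + c))| ≤ B * I3 := by
    intro f hb hz
    refine ⟨?_, ?_, ?_⟩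
    · rw [hI1]; unfold LONG2_I
      by_cases h : y ∈ Set.Icc α (α + 1)
      · rw [Set.indicator_of_mem h, mul_one]; exact hb _
      · rw [Set.indicator_of_notMem h, mul_zero, hz, abs_zero]
        intro h'
        apply h
        rw [Set.mem_Icc] at h' ⊢
        constructor <;> linarith [h'.1, h'.2]
    · rw [hI2]; unfold LONG2_I
      by_cases h : y ∈ Set.Icc (-c - 2) (-c - 2 + 1)
      · rw [Set.indicator_of_mem h, mul_one]; exact hb _
      · rw [Set.indicator_of_notMem h, mul_zero, hz, abs_zero]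
        intro h'
        apply h
        rw [Set.mem_Icc] at h' ⊢
        constructor <;> linarith [h'.1, h'.2]
    · rw [hI3]; unfold LONG2_I
      by_cases h : y ∈ Set.Icc (3 - c) (3 - c + 1)
      · rw [Set.indicator_of_mem h, mul_one]; exact hb _
      · rw [Set.indicator_of_notMem h, mul_zero, hz, abs_zero]
        intro h'
        apply h
        rw [Set.mem_Icc] at h' ⊢
        constructor <;> linarith [h'.1, h'.2]
  obtain ⟨a1, a2, a3⟩ := gen LONG2_s1 hs1 hz1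
  obtain ⟨b1, b2, b3⟩ := gen LONG2_s2 hs2 hz2
  have t1 : |Real.smoothTransition (y - α)| ≤ 1 := by
    rw [abs_of_nonneg (Real.smoothTransition.nonneg _)]; exact Real.smoothTransition.le_one _
  have t2 : |Real.smoothTransition (y + c + 2)| ≤ 1 := by
    rw [abs_of_nonneg (Real.smoothTransition.nonneg _)]; exact Real.smoothTransition.le_one _
  have t3 : |Real.smoothTransition (4 - (y + c))| ≤ 1 := by
    rw [abs_of_nonneg (Real.smoothTransition.nonneg _)]; exact Real.smoothTransition.le_one _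
  have tw : |w (y + c)| ≤ 1 := by
    rw [abs_of_nonneg (LONG_w_nonneg _)]; exact LONG_w_le_one _
  have V1 : |LONG2_V1 c y| ≤ B * (I2 + I3) := by
    unfold LONG2_V1
    refine (abs_sub _ _).trans ?_
    rw [abs_mul, abs_mul]
    calc _ ≤ (B * I2) * 1 + 1 * (B * I3) := by gcongr
      _ = _ := by ring
  have V1' : |LONG2_V1 c y| ≤ B * 2 := V1.trans (by nlinarith)
  have V2 : |LONG2_V2 c y| ≤ 3 * B ^ 2 * (I2 + I3) := by
    unfold LONG2_V2
    refine (abs_add_le _ _).trans ?_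
    have h1 := abs_sub (LONG2_s2 (y + c + 2) * Real.smoothTransition (4 - (y + c)))
      (2 * (LONG2_s1 (y + c + 2) * LONG2_s1 (4 - (y + c))))
    rw [abs_mul, abs_mul, abs_mul, abs_two] at h1
    rw [abs_mul (Real.smoothTransition (y + c + 2))]
    have h2 : |LONG2_s2 (y + c + 2)| * |Real.smoothTransition (4 - (y + c))| ≤ (B * I2) * 1 := by
      gcongr
    have h3 : |LONG2_s1 (y + c + 2)| * |LONG2_s1 (4 - (y + c))| ≤ (B * I2) * B := by
      gcongr
      exact hs1 _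
    have h4 : |Real.smoothTransition (y + c + 2)| * |LONG2_s2 (4 - (y + c))| ≤ 1 * (B * I3) := by
      gcongr
    nlinarith [mul_nonneg hB0 i2, mul_nonneg hB0 i3, mul_nonneg (mul_nonneg hB0 i2) (by linarith : 0 ≤ B - 1),
      mul_nonneg (mul_nonneg hB0 i3) (by linarith : 0 ≤ B - 1), mul_nonneg (mul_nonneg hB0 hB0) i3]
  have P0 : |y ^ j| ≤ 1 + y := by
    rcases hj' with rfl | rfl
    · simp; linarith
    · rw [pow_one, abs_of_nonneg hy]; linarith
  have P1 : |(j : ℝ)| ≤ 1 := by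
    rcases hj' with rfl | rfl <;> simp
  unfold LONG2_O2
  have hy1 : 0 ≤ 1 + y := by linarith
  have r1 : |LONG2_s2 (y - α) * y ^ j * w (y + c)| ≤ (B * I1) * (1 + y) * 1 := by
    rw [abs_mul, abs_mul]; gcongr
  have r2 : |Real.smoothTransition (y - α) * y ^ j * LONG2_V2 c y| ≤
      1 * (1 + y) * (3 * B ^ 2 * (I2 + I3)) := by
    rw [abs_mul, abs_mul]; gcongr
  have r3 : |2 * (LONG2_s1 (y - α) * j * w (y + c))| ≤ 2 * ((B * I1) * 1 * 1) := by
    rw [abs_mul, abs_mul, abs_mul, abs_two]; gcongr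
  have r4 : |2 * (LONG2_s1 (y - α) * y ^ j * LONG2_V1 c y)| ≤ 2 * ((B * I1) * (1 + y) * (B * 2)) := by
    rw [abs_mul, abs_mul, abs_mul, abs_two]; gcongr
  have r5 : |2 * (Real.smoothTransition (y - α) * j * LONG2_V1 c y)| ≤
      2 * (1 * 1 * (B * (I2 + I3))) := by
    rw [abs_mul, abs_mul, abs_mul, abs_two]; gcongr
  refine (LONG2_abs5 _ _ _ _ _).trans ?_
  rw [add_assoc (I1)]
  exact LONG2_alg B I1 (I2 + I3) y _ _ _ _ _ hB1 i1 (by linarith) hy r1 r2 r3 r4 r5

/-- The oscillating integral. -/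
theorem LONG2_osc {B : ℝ} (hB1 : 1 ≤ B) (hs1 : ∀ x, |LONG2_s1 x| ≤ B) (hs2 : ∀ x, |LONG2_s2 x| ≤ B)
    (hz1 : ∀ x, x ∉ Set.Icc (0:ℝ) 1 → LONG2_s1 x = 0)
    (hz2 : ∀ x, x ∉ Set.Icc (0:ℝ) 1 → LONG2_s2 x = 0)
    (α c : ℝ) (j : ℕ) (hj : j ∈ range 2) (L t : ℝ) (hα : 0 < α) (hL : 0 ≤ L) (hLc : 4 < L + c)
    (ht : 1 ≤ |t|) :
    ‖∫ y in (0:ℝ)..L, (LONG_Om α c j y : ℂ) * Complex.exp (-(t * Complex.I) * y)‖ ≤
      21 * B ^ 2 * (1 + L) / t ^ 2 := by
  have ht0 : (t : ℂ) ≠ 0 := by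
    intro h
    rw [Complex.ofReal_eq_zero] at h
    rw [h] at ht
    simp at ht
    linarith
  set E : ℝ → ℂ := fun y => Complex.exp (-(t * Complex.I) * y) with hE
  have hEd : ∀ y : ℝ, HasDerivAt E (-(t * Complex.I) * E y) y := by
    intro y
    have h1 : HasDerivAt (fun z : ℂ => Complex.exp (-(t * Complex.I) * z))
        (Complex.exp (-(t * Complex.I) * y) * (-(t * Complex.I))) (y : ℂ) := by
      have := ((hasDerivAt_id (y : ℂ)).const_mul (-(t * Complex.I))).cexp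
      simpa using this
    have := h1.comp_ofReal
    rw [hE]
    convert this using 1
    ring
  have hEn : ∀ y : ℝ, ‖E y‖ = 1 := by
    intro y
    rw [hE]
    simp only
    rw [Complex.norm_exp]
    simp
  set F : ℝ → ℂ := fun y => (Complex.I / t) * ((LONG_Om α c j y : ℂ) * E y) +
    (1 / (t:ℂ) ^ 2) * ((LONG2_O1 α c j y : ℂ) * E y) with hF
  have hFd : ∀ y : ℝ, HasDerivAt F ((LONG_Om α c j y : ℂ) * E y +
      (1 / (t:ℂ) ^ 2) * ((LONG2_O2 α c j y : ℂ) * E y)) y := by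
    intro y
    have h1 : HasDerivAt (fun y : ℝ => (LONG_Om α c j y : ℂ)) (LONG2_O1 α c j y : ℂ) y :=
      (LONG2_hO α c j hj y).ofReal_comp
    have h2 : HasDerivAt (fun y : ℝ => (LONG2_O1 α c j y : ℂ)) (LONG2_O2 α c j y : ℂ) y :=
      (LONG2_hO1 α c j hj y).ofReal_comp
    have h3 := ((h1.mul (hEd y)).const_mul (Complex.I / t)).add
      ((h2.mul (hEd y)).const_mul (1 / (t:ℂ) ^ 2))
    refine HasDerivAt.congr_deriv h3 ?_
    field_simp
    ring_nf
    rw [Complex.I_sq]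
    ring
  have hEc : Continuous E := by rw [hE]; fun_prop
  have hO2c := LONG2_cO2 α c j
  have hOc := LONG2_cO α c j
  have hc1 : Continuous (fun y : ℝ => (LONG_Om α c j y : ℂ) * E y) :=
    (Complex.continuous_ofReal.comp hOc).mul hEc
  have hc2 : Continuous (fun y : ℝ => (1 / (t:ℂ) ^ 2) * ((LONG2_O2 α c j y : ℂ) * E y)) :=
    continuous_const.mul ((Complex.continuous_ofReal.comp hO2c).mul hEc)
  have hFTC := intervalIntegral.integral_eq_sub_of_hasDerivAt (f := F) (a := 0) (b := L)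
    (fun y _ => hFd y) ((hc1.add hc2).intervalIntegrable _ _)
  rw [intervalIntegral.integral_add (hc1.intervalIntegrable _ _) (hc2.intervalIntegrable _ _)]
    at hFTC
  have hF0 : F 0 = 0 := by
    rw [hF]
    have z1 : Real.smoothTransition (0 - α) = 0 := Real.smoothTransition.zero_of_nonpos (by linarith)
    have z2 : LONG2_s1 (0 - α) = 0 := hz1 _ (by rw [Set.mem_Icc]; intro h; linarith [h.1])
    simp only [LONG_Om, LONG2_O1, z1, z2]
    simp
  have hFL : F L = 0 := by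
    rw [hF]
    have z0 : w (L + c) = 0 := LONG_w_zero hLc.le
    have z1 : Real.smoothTransition (4 - (L + c)) = 0 :=
      Real.smoothTransition.zero_of_nonpos (by linarith)
    have z2 : LONG2_s1 (4 - (L + c)) = 0 := hz1 _ (by rw [Set.mem_Icc]; intro h; linarith [h.1])
    simp only [LONG_Om, LONG2_O1, LONG2_V1, z0, z1, z2]
    simp
  rw [hF0, hFL, sub_zero] at hFTC
  have hmain : ∫ y in (0:ℝ)..L, (LONG_Om α c j y : ℂ) * E y =
      -(∫ y in (0:ℝ)..L, (1 / (t:ℂ) ^ 2) * ((LONG2_O2 α c j y : ℂ) * E y)) := by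
    linear_combination hFTC
  rw [hmain, norm_neg, intervalIntegral.integral_const_mul, norm_mul]
  have hn1 : ‖1 / (t:ℂ) ^ 2‖ = 1 / t ^ 2 := by
    rw [norm_div, norm_one, norm_pow, Complex.norm_real, Real.norm_eq_abs, sq_abs]
  rw [hn1]
  have hI : ‖∫ y in (0:ℝ)..L, (LONG2_O2 α c j y : ℂ) * E y‖ ≤ 21 * B ^ 2 * (1 + L) := by
    refine (intervalIntegral.norm_integral_le_integral_norm hL).trans ?_
    have hle : ∫ y in (0:ℝ)..L, ‖(LONG2_O2 α c j y : ℂ) * E y‖ ≤
        ∫ y in (0:ℝ)..L, 7 * B ^ 2 * (1 + L) *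
          (LONG2_I α y + LONG2_I (-c - 2) y + LONG2_I (3 - c) y) := by
      apply intervalIntegral.integral_mono_on hL
      · exact (((Complex.continuous_ofReal.comp hO2c).mul hEc).norm).intervalIntegrable _ _
      · apply IntervalIntegrable.const_mul
        exact (((LONG2_I_int α).intervalIntegrable).add
          ((LONG2_I_int (-c - 2)).intervalIntegrable)).add ((LONG2_I_int (3 - c)).intervalIntegrable)
      · intro y hy
        rw [norm_mul, hEn, mul_one, Complex.norm_real, Real.norm_eq_abs]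
        refine (LONG2_bound hB1 hs1 hs2 hz1 hz2 α c j hj y hy.1).trans ?_
        have i1 := LONG2_I_nonneg α y
        have i2 := LONG2_I_nonneg (-c - 2) y
        have i3 := LONG2_I_nonneg (3 - c) y
        have := hy.2
        gcongr
    refine hle.trans ?_
    rw [intervalIntegral.integral_const_mul, intervalIntegral.integral_add,
      intervalIntegral.integral_add]
    · have q1 := LONG2_I_interval α L hL
      have q2 := LONG2_I_interval (-c - 2) L hL
      have q3 := LONG2_I_interval (3 - c) L hL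
      have : 0 ≤ 7 * B ^ 2 * (1 + L) := by positivity
      nlinarith
    · exact (LONG2_I_int α).intervalIntegrable
    · exact (LONG2_I_int (-c - 2)).intervalIntegrable
    · exact ((LONG2_I_int α).intervalIntegrable).add ((LONG2_I_int (-c - 2)).intervalIntegrable)
    · exact (LONG2_I_int (3 - c)).intervalIntegrable
  calc 1 / t ^ 2 * _ ≤ 1 / t ^ 2 * (21 * B ^ 2 * (1 + L)) := by gcongr
    _ = _ := by ring

/-- Substitution `u = e^y`. -/
theorem LONG2_subst (α c : ℝ) (j : ℕ) (t : ℝ) (N : ℝ) (hN : 1 ≤ N) :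
    ∫ u in (1:ℝ)..N, LONG_W α c j t u =
      ∫ y in (0:ℝ)..Real.log N, (LONG_Om α c j y : ℂ) * Complex.exp (-(t * Complex.I) * y) := by
  have hN0 : 0 < N := by linarith
  have h := intervalIntegral.integral_deriv_smul_comp' (f := Real.exp) (f' := Real.exp)
    (g := LONG_W α c j t) (a := 0) (b := Real.log N) (fun x _ => Real.hasDerivAt_exp x)
    Real.continuous_exp.continuousOn ?_
  · rw [Real.exp_zero, Real.exp_log hN0] at h
    rw [← h]
    apply intervalIntegral.integral_congr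
    intro y _
    simp only [Function.comp_apply, LONG_W, Real.log_exp, Complex.real_smul]
    rw [Complex.cpow_def_of_ne_zero (by exact_mod_cast (Real.exp_pos y).ne'),
      ← Complex.ofReal_log (Real.exp_pos y).le, Real.log_exp, Complex.ofReal_exp,
      mul_left_comm, ← Complex.exp_add]
    congr 2
    ring
  · intro u hu
    obtain ⟨y, -, rfl⟩ := hu
    have hpos := Real.exp_pos y
    apply ContinuousAt.continuousWithinAt
    unfold LONG_W
    apply ContinuousAt.mul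
    · apply Complex.continuous_ofReal.continuousAt.comp
      exact ContinuousAt.comp (f := Real.log) (g := LONG_Om α c j) (LONG2_cO α c j).continuousAt
        (Real.continuousAt_log hpos.ne')
    · have h1 : ContinuousAt (fun z : ℂ => z ^ (-(1 + t * Complex.I))) ((Real.exp y : ℝ) : ℂ) :=
        continuousAt_cpow_const (Or.inl (by rw [Complex.ofReal_re]; exact hpos))
      exact ContinuousAt.comp (f := fun x : ℝ => (x : ℂ)) h1 Complex.continuous_ofReal.continuousAt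

theorem LONG2_W_cont (α c : ℝ) (j : ℕ) (t : ℝ) (a b : ℝ) (ha : 0 < a) :
    ContinuousOn (LONG_W α c j t) (Set.Icc a b) := by
  intro u hu
  have hpos : 0 < u := lt_of_lt_of_le ha hu.1
  apply ContinuousAt.continuousWithinAt
  unfold LONG_W
  apply ContinuousAt.mul
  · apply Complex.continuous_ofReal.continuousAt.comp
    exact ContinuousAt.comp (f := Real.log) (g := LONG_Om α c j) (LONG2_cO α c j).continuousAt
      (Real.continuousAt_log hpos.ne')
  · have h1 : ContinuousAt (fun z : ℂ => z ^ (-(1 + t * Complex.I))) ((u : ℝ) : ℂ) :=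
      continuousAt_cpow_const (Or.inl (by simpa using hpos))
    exact ContinuousAt.comp (f := fun x : ℝ => (x : ℂ)) h1 Complex.continuous_ofReal.continuousAt

theorem LONG2_W_ii (α c : ℝ) (j : ℕ) (t : ℝ) (a b : ℝ) (ha : 0 < a) (hab : a ≤ b) :
    IntervalIntegrable (LONG_W α c j t) MeasureTheory.volume a b :=
  ContinuousOn.intervalIntegrable_of_Icc hab (LONG2_W_cont α c j t a b ha)

/-- Trivial character: the sum is `∫ W(u) du + O(∫ |W'|)`, the error is `≤ Q^(-11)` as above, and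
`∫ W(u) du = ∫ Ω(y) e^(-ity) dy` with `Ω(y) = (1-ρ(e^y)) y^j w(y + log(a/X))` smooth of compact
support, so it is at most `t^(-2) ∫ |Ω''| ≤ C log X/t²`: `Ω''` is bounded by `C (1 + log(60X))` and
supported on two unit intervals plus one (where one of the two cutoffs varies), as `y^j` is affine. -/
theorem long_triv : ∃ C K : ℝ, 0 < C ∧ ∀ Q X : ℕ, Reg K Q X → ∀ j ∈ range 2,
    ∀ a : ℕ, 1 ≤ a → ∀ t : ℝ, 1 ≤ |t| → |t| ≤ (Q : ℝ) ^ 7 →
    ‖Long Q X p0 j a t‖ ≤ C * Real.log X / t ^ 2 + (Q : ℝ) ^ (-11 : ℝ) := by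
  obtain ⟨B, hB1, hB, hB2, hz1, hz2⟩ := LONG_sT
  obtain ⟨K, hK1, hK⟩ := reg_log_le (2 * (3 * B + 3) * 7) 1 1 one_pos
  refine ⟨21 * B ^ 2 * 7, K + 1, by positivity, fun Q X hreg' j hj a ha t ht1 ht => ?_⟩
  have hreg : Reg K Q X := hreg'.mono (by linarith) (by linarith)
  have hK0 : 0 < K := by linarith
  have hQ := hreg.Q_pos hK1
  have hX := hreg.X_pos hK0
  have hlX := hreg.logX_ge_one hK0
  have hQ0 : (0:ℝ) < Q := by exact_mod_cast hQ
  have hQ1 : (1:ℝ) ≤ Q := by exact_mod_cast hQ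
  have hX0 : (0:ℝ) < X := by exact_mod_cast hX
  have ha1 : (1:ℝ) ≤ a := by exact_mod_cast ha
  set α := Real.log ((Q : ℝ) ^ 20) with hα
  set c := Real.log ((a : ℝ) / X) with hc
  have hN : (0:ℝ) < ((60 * X : ℕ) : ℝ) := by positivity
  have hX1' : (1:ℝ) ≤ X := by exact_mod_cast hX
  have hN1 : (1:ℝ) ≤ ((60 * X : ℕ) : ℝ) := by push_cast; linarith
  have hlog60 : (4:ℝ) < Real.log 60 := by
    rw [Real.lt_log_iff_exp_lt (by norm_num)]
    have : Real.exp 4 = (Real.exp 1) ^ 4 := by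
      rw [← Real.exp_nat_mul]; norm_num
    rw [this]
    have h1 := Real.exp_one_lt_d9
    calc (Real.exp 1) ^ 4 ≤ (2.7182818286:ℝ) ^ 4 :=
          pow_le_pow_left₀ (Real.exp_pos 1).le h1.le 4
      _ < 60 := by norm_num
  have hα0 : 0 < α := by
    rw [hα]
    apply Real.log_pos
    have h2 : (1:ℝ) < Q := by
      have := hreg'.Q_ge (by linarith)
      linarith
    exact one_lt_pow₀ h2 (by norm_num)
  have e1 : Long Q X p0 j a t = ∑ n ∈ Icc 1 (60 * X), LONG_W α c j t n := by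
    unfold Long
    apply sum_congr rfl
    intro n hn
    rw [mem_Icc] at hn
    rw [← LONG_term Q X hQ hX j a ha t n hn.1]
    have : p0.2 (n : ZMod p0.1) = 1 := by
      show (1 : DirichletCharacter ℂ 1) (n : ZMod 1) = 1
      apply MulChar.one_apply
      exact isUnit_of_subsingleton _
    rw [this]
    ring
  rw [e1]
  have hLc : 4 < Real.log ((60 * X : ℕ) : ℝ) + c := by
    rw [hc, ← Real.log_mul hN.ne' (by positivity)]
    refine lt_of_lt_of_le hlog60 (Real.log_le_log (by norm_num) ?_)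
    push_cast
    rw [mul_assoc, ← mul_div_assoc, mul_comm (X:ℝ) (a:ℝ), mul_div_assoc, div_self hX0.ne', mul_one]
    nlinarith
  have hlN : 0 ≤ Real.log ((60 * X : ℕ) : ℝ) := Real.log_natCast_nonneg _
  have hosc := LONG2_osc hB1 hB hB2 hz1 hz2 α c j hj _ t hα0 hlN hLc ht1
  rw [← LONG2_subst α c j t _ hN1] at hosc
  set D := (3 * B + 2 + |t|) * (1 + Real.log ((60 * X : ℕ) : ℝ)) with hD
  have hD0 : 0 ≤ D := by
    have := abs_nonneg t
    positivity
  -- comparison of the sum with the integral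
  have hW1 : LONG_W α c j t ((1 : ℕ) : ℝ) = 0 := by
    apply LONG_W_zero_left
    simp
    exact hα0.le
  have hint : ∀ N : ℕ, 1 ≤ N → ∫ u in (1:ℝ)..(N:ℝ), LONG_W α c j t u =
      ∑ n ∈ Ico 1 N, ∫ u in (n:ℝ)..((n + 1 : ℕ) : ℝ), LONG_W α c j t u := by
    intro N hN
    induction N, hN using Nat.le_induction with
    | base => simp
    | succ N hN ih =>
      rw [sum_Ico_succ_top hN, ← ih, intervalIntegral.integral_add_adjacent_intervals]
      · exact LONG2_W_ii α c j t 1 N one_pos (by exact_mod_cast hN)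
      · exact LONG2_W_ii α c j t N _ (by exact_mod_cast hN) (by push_cast; linarith)
  have hsum : ∀ N : ℕ, 1 ≤ N → ∑ n ∈ Icc 1 N, LONG_W α c j t (n:ℝ) =
      ∑ n ∈ Ico 1 N, LONG_W α c j t ((n + 1 : ℕ) : ℝ) := by
    intro N hN
    induction N, hN using Nat.le_induction with
    | base => simpa using hW1
    | succ N hN ih =>
      rw [sum_Ico_succ_top hN, ← ih, sum_Icc_succ_top (by omega)]
  have hX60 : 1 ≤ 60 * X := by omega
  have hdiff : ‖∑ n ∈ Icc 1 (60 * X), LONG_W α c j t (n:ℝ) -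
      ∫ u in (1:ℝ)..((60 * X : ℕ) : ℝ), LONG_W α c j t u‖ ≤ D * (2 / (Q:ℝ) ^ 20) := by
    rw [hint _ hX60, hsum _ hX60, ← sum_sub_distrib]
    have hz : ∑ n ∈ Ico 1 (60 * X), (LONG_W α c j t ((n + 1 : ℕ) : ℝ) -
        ∫ u in (n:ℝ)..((n + 1 : ℕ) : ℝ), LONG_W α c j t u) =
        ∑ n ∈ Ico (Q ^ 20) (60 * X), (LONG_W α c j t ((n + 1 : ℕ) : ℝ) -
        ∫ u in (n:ℝ)..((n + 1 : ℕ) : ℝ), LONG_W α c j t u) := by
      symm
      apply sum_subset
      · intro n hn
        rw [mem_Ico] at hn ⊢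
        exact ⟨le_trans (Nat.one_le_pow _ _ hQ) hn.1, hn.2⟩
      · intro n hn hn'
        rw [mem_Ico] at hn
        rw [mem_Ico, not_and] at hn'
        have hlt : n < Q ^ 20 := by
          by_contra h
          exact hn' (not_lt.mp h) hn.2
        have hlt' : ((n + 1 : ℕ) : ℝ) ≤ (Q:ℝ) ^ 20 := by exact_mod_cast hlt
        have z2 : LONG_W α c j t ((n + 1 : ℕ) : ℝ) = 0 := by
          apply LONG_W_zero_left
          rw [hα]
          apply Real.log_le_log (by positivity) hlt'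
        rw [z2, zero_sub, neg_eq_zero]
        rw [intervalIntegral.integral_congr (g := fun _ => (0:ℂ))]
        · simp
        · intro u hu
          rw [Set.uIcc_of_le (by push_cast; linarith)] at hu
          have hn1 : (1:ℝ) ≤ n := by exact_mod_cast hn.1
          apply LONG_W_zero_left
          rw [hα]
          exact Real.log_le_log (by linarith [hu.1]) (hu.2.trans hlt')
    rw [hz]
    have hterm : ∀ n ∈ Ico (Q ^ 20) (60 * X), ‖LONG_W α c j t ((n + 1 : ℕ) : ℝ) -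
        ∫ u in (n:ℝ)..((n + 1 : ℕ) : ℝ), LONG_W α c j t u‖ ≤ D * (1 / (n : ℝ) ^ 2) := by
      intro n hn
      rw [mem_Ico] at hn
      have hn1 : 1 ≤ n := le_trans (Nat.one_le_pow _ _ hQ) hn.1
      have hn1' : (1:ℝ) ≤ n := by exact_mod_cast hn1
      have hle : (n:ℝ) ≤ ((n + 1 : ℕ) : ℝ) := by push_cast; linarith
      have h5 : (((n + 1 : ℕ) : ℝ) - n) = 1 := by push_cast; ring
      have hconst : LONG_W α c j t ((n + 1 : ℕ) : ℝ) =
          ∫ u in (n:ℝ)..((n + 1 : ℕ) : ℝ), LONG_W α c j t ((n + 1 : ℕ) : ℝ) := by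
        rw [intervalIntegral.integral_const, h5, one_smul]
      rw [hconst, ← intervalIntegral.integral_sub (by simp)
        (LONG2_W_ii α c j t n _ (by linarith) hle)]
      have h4 : Real.log ((n + 1 : ℕ) : ℝ) ≤ Real.log ((60 * X : ℕ) : ℝ) := by
        apply Real.log_le_log (by positivity)
        exact_mod_cast hn.2
      have := intervalIntegral.norm_integral_le_of_norm_le_const (a := (n:ℝ))
        (b := ((n + 1 : ℕ) : ℝ)) (C := D * (1 / (n : ℝ) ^ 2))
        (f := fun u => LONG_W α c j t ((n + 1 : ℕ) : ℝ) - LONG_W α c j t u) ?_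
      · rw [h5, abs_one, mul_one] at this
        exact this
      · intro u hu
        rw [Set.uIoc_of_le hle] at hu
        have hu1 : 1 ≤ u := by linarith [hu.1]
        refine (LONG_W_diff hB1 hB α c j hj t u ((n + 1 : ℕ) : ℝ) hu1 hu.2).trans ?_
        have h7 : (((n + 1 : ℕ) : ℝ) - u) / u ^ 2 ≤ 1 / (n:ℝ) ^ 2 := by
          apply div_le_div₀ zero_le_one
          · have := hu.1; push_cast; linarith
          · positivity
          · exact pow_le_pow_left₀ (by linarith) hu.1.le 2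
        have h8 : 0 ≤ (((n + 1 : ℕ) : ℝ) - u) / u ^ 2 := by
          apply div_nonneg _ (by positivity)
          linarith [hu.2]
        rw [hD]
        have := abs_nonneg t
        have hB0 : 0 ≤ 3 * B + 2 + |t| := by linarith
        apply mul_le_mul _ h7 h8
        · exact mul_nonneg hB0 (by linarith)
        · exact mul_le_mul_of_nonneg_left (by linarith) hB0
    refine (norm_sum_le _ _).trans ((sum_le_sum hterm).trans ?_)
    rw [← mul_sum]
    have hs := LONG_sum_inv_sq (Q ^ 20) (60 * X) (Nat.one_le_pow _ _ hQ)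
    push_cast at hs
    exact mul_le_mul_of_nonneg_left hs hD0
  have hQ7 : (1:ℝ) ≤ (Q:ℝ) ^ 7 := one_le_pow₀ hQ1
  have hl60 : Real.log ((60 * X : ℕ) : ℝ) ≤ 6 * Real.log X := by
    push_cast
    rw [Real.log_mul (by norm_num) hX0.ne']
    have : Real.log 60 ≤ 5 := by
      rw [Real.log_le_iff_le_exp (by norm_num)]
      have : Real.exp 5 = (Real.exp 1) ^ 5 := by
        rw [← Real.exp_nat_mul]; norm_num
      rw [this]
      have h1 := Real.exp_one_gt_d9
      calc (60:ℝ) ≤ (2.7182818283:ℝ) ^ 5 := by norm_num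
        _ ≤ _ := pow_le_pow_left₀ (by norm_num) h1.le 5
    nlinarith
  have hDle : D ≤ (3 * B + 3) * (Q:ℝ) ^ 7 * (7 * Real.log X) := by
    rw [hD]
    have h1 : 3 * B + 2 + |t| ≤ (3 * B + 3) * (Q:ℝ) ^ 7 := by nlinarith
    have h2 : 1 + Real.log ((60 * X : ℕ) : ℝ) ≤ 7 * Real.log X := by linarith
    exact mul_le_mul h1 h2 (by linarith) (by positivity)
  have hKQ := hK Q X hreg
  rw [Real.rpow_one, Real.rpow_one] at hKQ
  have hfin : (Q : ℝ) ^ (-11 : ℝ) = 1 / (Q:ℝ) ^ 11 := by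
    rw [Real.rpow_neg hQ0.le, one_div]
    norm_num
  have hA : D * (2 / (Q:ℝ) ^ 20) ≤ (Q : ℝ) ^ (-11 : ℝ) := by
    rw [hfin]
    calc D * (2 / (Q:ℝ) ^ 20)
        ≤ ((3 * B + 3) * (Q:ℝ) ^ 7 * (7 * Real.log X)) * (2 / (Q:ℝ) ^ 20) := by
          gcongr
      _ = (2 * (3 * B + 3) * 7 * Real.log X) * ((Q:ℝ) ^ 7 / (Q:ℝ) ^ 20) := by ring
      _ ≤ Q * ((Q:ℝ) ^ 7 / (Q:ℝ) ^ 20) := by
          apply mul_le_mul_of_nonneg_right hKQ (by positivity)
      _ = 1 / (Q:ℝ) ^ 12 := by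
          field_simp
      _ ≤ 1 / (Q:ℝ) ^ 11 := by
          apply one_div_le_one_div_of_le (by positivity)
          exact pow_le_pow_right₀ hQ1 (by norm_num)
  have hC : 21 * B ^ 2 * (1 + Real.log ((60 * X : ℕ) : ℝ)) / t ^ 2 ≤
      21 * B ^ 2 * 7 * Real.log X / t ^ 2 := by
    apply div_le_div_of_nonneg_right _ (by positivity)
    have : 0 ≤ 21 * B ^ 2 := by positivity
    nlinarith
  calc ‖∑ n ∈ Icc 1 (60 * X), LONG_W α c j t (n:ℝ)‖
      ≤ ‖∫ u in (1:ℝ)..((60 * X : ℕ) : ℝ), LONG_W α c j t u‖ +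
        ‖∑ n ∈ Icc 1 (60 * X), LONG_W α c j t (n:ℝ) -
          ∫ u in (1:ℝ)..((60 * X : ℕ) : ℝ), LONG_W α c j t u‖ := norm_le_insert' _ _
    _ ≤ _ := add_le_add (hosc.trans hC) (hdiff.trans hA)

end Pool.Agent.Lib.H68T
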