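import Mathlib

/-!
# Chunk T341: positivity
-/

open Finset ArithmeticFunction

namespace Pool.Agent.Lib.H68T

theorem T341_summable (h : ℕ → ℂ) (hh : ∀ n, ‖h n‖ ≤ 1) (s : ℂ) (hs : 1 < s.re) :
    LSeriesSummable (fun n => (vonMangoldt n : ℂ) * h n) s := by
  have h1 := (LSeriesSummable_vonMangoldt hs).norm
  refine Summable.of_norm_bounded h1 (fun n => ?_)
  rcases eq_or_ne n 0 with rfl | hn
  · simp
  · rw [LSeries.term_of_ne_zero hn, LSeries.term_of_ne_zero hn, norm_div, norm_div, norm_mul]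
    have : ‖((vonMangoldt n : ℝ) : ℂ)‖ * ‖h n‖ ≤ ‖((vonMangoldt n : ℝ) : ℂ)‖ * 1 :=
      mul_le_mul_of_nonneg_left (hh n) (norm_nonneg _)
    rw [mul_one] at this
    exact div_le_div_of_nonneg_right this (norm_nonneg _)

theorem T341_hasSum (h : ℕ → ℂ) (hh : ∀ n, ‖h n‖ ≤ 1) (σ u : ℝ) (hσ : 1 < σ) :
    HasSum (fun n : ℕ => ((vonMangoldt n : ℝ) * (n : ℝ) ^ (-σ)) *
      (h n * (n : ℂ) ^ (-(u * Complex.I))).re)
      (LSeries (fun n => (vonMangoldt n : ℂ) * h n) (σ + u * Complex.I)).re := by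
  have hs : 1 < ((σ : ℂ) + u * Complex.I).re := by simpa using hσ
  have h1 : HasSum (LSeries.term (fun n => (vonMangoldt n : ℂ) * h n) (σ + u * Complex.I))
      (LSeries (fun n => (vonMangoldt n : ℂ) * h n) (σ + u * Complex.I)) :=
    (T341_summable h hh _ hs).hasSum
  have h2 := Complex.hasSum_re h1
  convert h2 using 1
  funext n
  rcases eq_or_ne n 0 with rfl | hn
  · simp
  · rw [LSeries.term_of_ne_zero hn]
    have hn0 : (n : ℂ) ≠ 0 := by exact_mod_cast hn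
    have e1 : (vonMangoldt n : ℂ) * h n / (n : ℂ) ^ ((σ : ℂ) + u * Complex.I) =
        (((vonMangoldt n : ℝ) * (n : ℝ) ^ (-σ) : ℝ) : ℂ) * (h n * (n : ℂ) ^ (-(u * Complex.I))) := by
      rw [Complex.cpow_add _ _ hn0, Complex.cpow_neg]
      push_cast
      rw [Complex.ofReal_cpow (Nat.cast_nonneg n)]
      push_cast
      rw [Complex.cpow_neg]
      have a1 : (n : ℂ) ^ (σ : ℂ) ≠ 0 := by
        rw [Complex.cpow_ne_zero_iff]; left; exact hn0
      have a2 : (n : ℂ) ^ ((u : ℂ) * Complex.I) ≠ 0 := by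
        rw [Complex.cpow_ne_zero_iff]; left; exact hn0
      field_simp
    rw [e1, Complex.re_ofReal_mul]

theorem T341_weight_nonneg (σ : ℝ) (n : ℕ) : 0 ≤ (vonMangoldt n : ℝ) * (n : ℝ) ^ (-σ) :=
  mul_nonneg vonMangoldt_nonneg (Real.rpow_nonneg (Nat.cast_nonneg n) _)

theorem T341_alg (z : ℂ) (hz : ‖z‖ ≤ 1) : 0 ≤ 3 + 4 * z.re + (z ^ 2).re := by
  have h1 : z.re ^ 2 + z.im ^ 2 ≤ 1 := by
    have := Complex.sq_norm z
    rw [Complex.normSq_apply] at this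
    have h3 : ‖z‖ ^ 2 ≤ 1 := by
      have := norm_nonneg z
      nlinarith
    nlinarith
  have h2 : (z ^ 2).re = z.re ^ 2 - z.im ^ 2 := by
    rw [pow_two, Complex.mul_re]; ring
  rw [h2]
  nlinarith [sq_nonneg (z.re + 1)]

theorem T341_norm_cpow (n : ℕ) (u : ℝ) : ‖(n : ℂ) ^ (-((u : ℂ) * Complex.I))‖ ≤ 1 := by
  rcases eq_or_ne n 0 with rfl | hn
  · rcases eq_or_ne u 0 with rfl | hu
    · simp
    · rw [Nat.cast_zero, Complex.zero_cpow]
      · simp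
      · intro h
        rw [neg_eq_zero, mul_eq_zero] at h
        rcases h with h | h
        · exact hu (by exact_mod_cast h)
        · exact Complex.I_ne_zero h
  · have hpos : 0 < n := Nat.pos_of_ne_zero hn
    rw [Complex.norm_natCast_cpow_of_pos hpos]
    simp

theorem T341_main (h₁ h₂ : ℕ → ℂ) (hh₁ : ∀ n, ‖h₁ n‖ ≤ 1) (hh₂ : ∀ n, h₂ n = h₁ n ^ 2)
    (σ t : ℝ) (hσ : 1 < σ) :
    0 ≤ 3 * (LSeries (fun n => (vonMangoldt n : ℂ)) σ).re +
      4 * (LSeries (fun n => (vonMangoldt n : ℂ) * h₁ n) (σ + t * Complex.I)).re +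
      (LSeries (fun n => (vonMangoldt n : ℂ) * h₂ n) (σ + 2 * t * Complex.I)).re := by
  have A0 := T341_hasSum (fun _ => 1) (fun n => by simp) σ 0 hσ
  have A1 := T341_hasSum h₁ hh₁ σ t hσ
  have A2 := T341_hasSum h₂ (fun n => by
    rw [hh₂, norm_pow]
    exact pow_le_one₀ (norm_nonneg _) (hh₁ n)) σ (2 * t) hσ
  have e0 : (fun n : ℕ => (vonMangoldt n : ℂ) * (fun _ : ℕ => (1 : ℂ)) n) =
      (fun n => (vonMangoldt n : ℂ)) := by
    funext n; simp
  simp only [Complex.ofReal_zero, zero_mul, add_zero, mul_one, one_mul] at A0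
  push_cast at A2
  have A := ((A0.mul_left 3).add (A1.mul_left 4)).add A2
  refine A.nonneg (fun n => ?_)
  rcases eq_or_ne n 0 with rfl | hn
  · simp
  have hn0 : (n : ℂ) ≠ 0 := by exact_mod_cast hn
  set z : ℂ := h₁ n * (n : ℂ) ^ (-((t : ℂ) * Complex.I)) with hz
  have hz1 : ‖z‖ ≤ 1 := by
    rw [hz, norm_mul]
    exact mul_le_one₀ (hh₁ n) (norm_nonneg _) (T341_norm_cpow n t)
  have hz2 : h₂ n * (n : ℂ) ^ (-(2 * (t : ℂ) * Complex.I)) = z ^ 2 := by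
    rw [hz, mul_pow, hh₂, ← Complex.cpow_nat_mul]
    congr 2
    push_cast
    ring
  have h3 := T341_alg z hz1
  have h4 := mul_nonneg (T341_weight_nonneg σ n) h3
  have e5 : ((n : ℂ) ^ (-(0 : ℂ))).re = 1 := by simp
  simp only [hz2, e5]
  nlinarith [h4]

/-- `3 + 4 cos θ + cos 2θ ≥ 0` summed against `Λ(n) n^(-σ)`; for `(n, N) > 1` the terms are
`3 Λ(n) n^(-σ) ≥ 0`. -/
theorem three_four_one (N : ℕ) [NeZero N] (χ : DirichletCharacter ℂ N) (σ t : ℝ) (hσ : 1 < σ) :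
    0 ≤ 3 * (LSeries (fun n => (vonMangoldt n : ℂ)) σ).re +
      4 * (LSeries (fun n => (vonMangoldt n : ℂ) * χ (n : ZMod N)) (σ + t * Complex.I)).re +
      (LSeries (fun n => (vonMangoldt n : ℂ) * (χ ^ 2) (n : ZMod N))
        (σ + 2 * t * Complex.I)).re := by
  exact T341_main (fun n => χ (n : ZMod N)) (fun n => (χ ^ 2) (n : ZMod N))
    (fun n => DirichletCharacter.norm_le_one χ _)
    (fun n => MulChar.pow_apply' χ two_ne_zero _) σ t hσ

/-- The same for `ζ`. -/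
theorem three_four_one_zeta (σ t : ℝ) (hσ : 1 < σ) :
    0 ≤ 3 * (LSeries (fun n => (vonMangoldt n : ℂ)) σ).re +
      4 * (LSeries (fun n => (vonMangoldt n : ℂ)) (σ + t * Complex.I)).re +
      (LSeries (fun n => (vonMangoldt n : ℂ)) (σ + 2 * t * Complex.I)).re := by
  have h := T341_main (fun _ => 1) (fun _ => 1) (fun n => by simp) (fun n => by simp) σ t hσ
  simpa using h

theorem T341_real_value (N : ℕ) (ψ : DirichletCharacter ℂ N) (hψ : ψ ^ 2 = 1) (n : ℕ) :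
    ∃ x : ℝ, -1 ≤ x ∧ x ≤ 1 ∧ ψ (n : ZMod N) = (x : ℂ) := by
  by_cases hu : IsUnit (n : ZMod N)
  · have h1 : (ψ ^ 2) (n : ZMod N) = 1 := by
      rw [hψ]; exact MulChar.one_apply hu
    rw [MulChar.pow_apply' ψ two_ne_zero] at h1
    have h2 : ψ (n : ZMod N) = 1 ∨ ψ (n : ZMod N) = -1 := sq_eq_one_iff.mp h1
    rcases h2 with h | h
    · exact ⟨1, by norm_num, le_refl _, by rw [h]; simp⟩
    · exact ⟨-1, le_refl _, by norm_num, by rw [h]; simp⟩
  · exact ⟨0, by norm_num, by norm_num, by rw [MulChar.map_nonunit ψ hu]; simp⟩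

/-- `1 + ψ(n) ≥ 0` for real `ψ`. -/
theorem one_add_real (N : ℕ) [NeZero N] (ψ : DirichletCharacter ℂ N) (hψ : ψ ^ 2 = 1) (σ : ℝ)
    (hσ : 1 < σ) :
    0 ≤ (LSeries (fun n => (vonMangoldt n : ℂ)) σ).re +
      (LSeries (fun n => (vonMangoldt n : ℂ) * ψ (n : ZMod N)) σ).re := by
  have A0 := T341_hasSum (fun _ => 1) (fun n => by simp) σ 0 hσ
  have A1 := T341_hasSum (fun n => ψ (n : ZMod N)) (fun n => DirichletCharacter.norm_le_one ψ _)
    σ 0 hσ
  simp only [Complex.ofReal_zero, zero_mul, add_zero, mul_one, one_mul] at A0 A1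
  refine (A0.add A1).nonneg (fun n => ?_)
  obtain ⟨x, hx, -, hx2⟩ := T341_real_value N ψ hψ n
  have e5 : (n : ℂ) ^ (-(0 : ℂ)) = 1 := by simp
  have h4 := mul_nonneg (T341_weight_nonneg σ n) (by linarith : 0 ≤ 1 + x)
  simp only [e5, hx2, mul_one, Complex.ofReal_re, Complex.one_re]
  nlinarith [h4]

/-- `(1 + ψ₁(n)) (1 + ψ₂(n)) ≥ 0` for real characters; the product character has level `r₁ r₂`. -/
theorem product_real (r₁ r₂ : ℕ) [NeZero r₁] [NeZero r₂] (ψ₁ : DirichletCharacter ℂ r₁)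
    (ψ₂ : DirichletCharacter ℂ r₂) (h₁ : ψ₁ ^ 2 = 1) (h₂ : ψ₂ ^ 2 = 1) (σ : ℝ) (hσ : 1 < σ) :
    0 ≤ (LSeries (fun n => (vonMangoldt n : ℂ)) σ).re +
      (LSeries (fun n => (vonMangoldt n : ℂ) * ψ₁ (n : ZMod r₁)) σ).re +
      (LSeries (fun n => (vonMangoldt n : ℂ) * ψ₂ (n : ZMod r₂)) σ).re +
      (LSeries (fun n => (vonMangoldt n : ℂ) *
        (DirichletCharacter.changeLevel (Dvd.intro r₂ rfl) ψ₁ *
          DirichletCharacter.changeLevel (Dvd.intro_left r₁ rfl) ψ₂ :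
            DirichletCharacter ℂ (r₁ * r₂)) (n : ZMod (r₁ * r₂))) σ).re := by
  set ψ₃ : DirichletCharacter ℂ (r₁ * r₂) :=
    DirichletCharacter.changeLevel (Dvd.intro r₂ rfl) ψ₁ *
          DirichletCharacter.changeLevel (Dvd.intro_left r₁ rfl) ψ₂ with hψ₃
  have key : ∀ n : ℕ, ψ₃ (n : ZMod (r₁ * r₂)) = ψ₁ (n : ZMod r₁) * ψ₂ (n : ZMod r₂) := by
    intro n
    rw [hψ₃, MulChar.mul_apply]
    by_cases hu : IsUnit (n : ZMod (r₁ * r₂))
    · have e1 := DirichletCharacter.changeLevel_eq_cast_of_dvd ψ₁ (Dvd.intro r₂ rfl) hu.unit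
      have e2 := DirichletCharacter.changeLevel_eq_cast_of_dvd ψ₂ (Dvd.intro_left r₁ rfl) hu.unit
      rw [IsUnit.unit_spec] at e1 e2
      rw [e1, e2]
      simp [ZMod.cast_natCast]
    · rw [MulChar.map_nonunit _ hu, zero_mul]
      rw [ZMod.isUnit_iff_coprime, Nat.coprime_mul_iff_right] at hu
      rcases not_and_or.mp hu with h | h
      · rw [MulChar.map_nonunit ψ₁ (fun h' => h ((ZMod.isUnit_iff_coprime _ _).mp h')), zero_mul]
      · rw [MulChar.map_nonunit ψ₂ (fun h' => h ((ZMod.isUnit_iff_coprime _ _).mp h')), mul_zero]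
  have A0 := T341_hasSum (fun _ => 1) (fun n => by simp) σ 0 hσ
  have A1 := T341_hasSum (fun n => ψ₁ (n : ZMod r₁))
    (fun n => DirichletCharacter.norm_le_one ψ₁ _) σ 0 hσ
  have A2 := T341_hasSum (fun n => ψ₂ (n : ZMod r₂))
    (fun n => DirichletCharacter.norm_le_one ψ₂ _) σ 0 hσ
  have A3 := T341_hasSum (fun n => ψ₃ (n : ZMod (r₁ * r₂)))
    (fun n => DirichletCharacter.norm_le_one ψ₃ _) σ 0 hσ
  simp only [Complex.ofReal_zero, zero_mul, add_zero, mul_one, one_mul] at A0 A1 A2 A3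
  refine (((A0.add A1).add A2).add A3).nonneg (fun n => ?_)
  obtain ⟨x, hx, -, hx2⟩ := T341_real_value r₁ ψ₁ h₁ n
  obtain ⟨y, hy, -, hy2⟩ := T341_real_value r₂ ψ₂ h₂ n
  have e5 : (n : ℂ) ^ (-(0 : ℂ)) = 1 := by simp
  have e6 : ψ₃ (n : ZMod (r₁ * r₂)) = ((x * y : ℝ) : ℂ) := by
    rw [key, hx2, hy2]; push_cast; ring
  have h4 := mul_nonneg (T341_weight_nonneg σ n)
    (mul_nonneg (by linarith : 0 ≤ 1 + x) (by linarith : 0 ≤ 1 + y))
  simp only [e5, e6, hx2, hy2, mul_one, Complex.ofReal_re, Complex.one_re]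
  nlinarith [h4]

end Pool.Agent.Lib.H68T
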