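import Pool.Agent.Lib.H68T.LAB
import Pool.Agent.Lib.H68T.T341
import Pool.Agent.Lib.H68T.RegL

/-!
# Chunk ZF1; part of ZF1, ZF2, ZF3: zero-free regions
(`L := log Q`; all `log N, log(|t|+3), log(1/(σ-1))` in `re_char` are `O(L)` for `N ≤ Q^2`,
`|t| ≤ 2 Q^12 + 2`, `σ = 1 + a/L`.)
-/

open Finset ArithmeticFunction

namespace Pool.Agent.Lib.H68T

/-- Bracket estimate: everything in `re_char` and `re_zeta` is `O(log Q)`. -/
theorem ZF1_bracket (a : ℝ) (ha : 0 < a) : ∃ K : ℝ, ∀ Q : ℕ, K ≤ Q →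
    1 ≤ Real.log Q ∧ 8 * a ≤ Real.log Q ∧
    (∀ N : ℕ, 1 ≤ N → N ≤ Q → ∀ t : ℝ, |t| ≤ 2 * ((Q : ℝ) ^ 12 + 1) →
      Real.log N + Real.log (|t| + 3) +
        Real.log (1 / (1 + a / Real.log Q - 1)) + 1 ≤ 17 * Real.log Q) := by
  refine ⟨Real.exp (1 + 8 * a + |Real.log a|) + 3, fun Q hQ => ?_⟩
  have h0 : 0 < Real.exp (1 + 8 * a + |Real.log a|) := Real.exp_pos _
  have hQ3 : (3 : ℝ) ≤ Q := by linarith
  have hQ0 : (0 : ℝ) < Q := by linarith
  have hL : 1 + 8 * a + |Real.log a| ≤ Real.log Q := by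
    rw [Real.le_log_iff_exp_le hQ0]; linarith
  have habs := abs_nonneg (Real.log a)
  have hL1 : 1 ≤ Real.log Q := by linarith
  have hL0 : 0 < Real.log Q := by linarith
  refine ⟨hL1, by linarith, fun N hN1 hNQ t ht => ?_⟩
  have h1 : Real.log N ≤ Real.log Q :=
    Real.log_le_log (by exact_mod_cast hN1) (by exact_mod_cast hNQ)
  have h2 : Real.log (|t| + 3) ≤ 13 * Real.log Q := by
    have e1 : |t| + 3 ≤ (Q : ℝ) ^ 13 := by
      have e2 : (1 : ℝ) ≤ (Q : ℝ) ^ 12 := one_le_pow₀ (by linarith)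
      have e3 : (Q : ℝ) ^ 13 = (Q : ℝ) ^ 12 * Q := by ring
      rw [e3]
      have e4 : (Q : ℝ) ^ 12 * 3 ≤ (Q : ℝ) ^ 12 * Q :=
        mul_le_mul_of_nonneg_left hQ3 (by positivity)
      have e5 : (5 : ℝ) ≤ (Q : ℝ) ^ 12 := by
        have : (3 : ℝ) ^ 12 ≤ (Q : ℝ) ^ 12 := pow_le_pow_left₀ (by norm_num) hQ3 12
        norm_num at this
        linarith
      linarith
    have e6 := Real.log_le_log (by positivity : 0 < |t| + 3) e1
    rw [Real.log_pow] at e6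
    push_cast at e6
    linarith
  have h3 : Real.log (1 / (1 + a / Real.log Q - 1)) ≤ 2 * Real.log Q := by
    have e1 : 1 / (1 + a / Real.log Q - 1) = Real.log Q / a := by
      rw [add_sub_cancel_left, one_div, inv_div]
    rw [e1, Real.log_div hL0.ne' ha.ne']
    have e2 : Real.log (Real.log Q) ≤ Real.log Q := by
      have := Real.log_le_sub_one_of_pos hL0
      linarith
    have e3 : -Real.log a ≤ |Real.log a| := neg_le_abs _
    linarith
  linarith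

/-- **ZF1**, complex characters. `ρ = β + iγ` a zero, suppose `β ≥ 1 - c₁/L`, `σ = 1 + a/L`.
`three_four_one` at `t = γ`, `vonMangoldt_le`, `re_char` for `ψ` with `S = {ρ}` and for
`ψ² ≠ 1` with `S = ∅`: `0 ≤ 3 L/a + C' L - 4 L/(a + c₁)`, i.e. `4/(a + c₁) ≤ 3/a + C'`, false for
`a = 1/(2C')`, `c₁ = a/8` (`3/a + C' = 3.5/a`). -/
theorem zero_free_complex : ∃ c₁ K : ℝ, 0 < c₁ ∧ ∀ Q : ℕ, K ≤ Q → ∀ (r : ℕ) [NeZero r]
    (ψ : DirichletCharacter ℂ r), r ≤ Q → ψ ^ 2 ≠ 1 → ∀ ρ : ℂ, ψ.LFunction ρ = 0 →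
    |ρ.im| ≤ (Q : ℝ) ^ 12 + 1 → ρ.re < 1 - c₁ / Real.log Q := by
  obtain ⟨Cv, hCv, hv⟩ := vonMangoldt_le
  obtain ⟨Cc, hCc, hc⟩ := re_char
  set C' : ℝ := 3 * Cv + 85 * Cc with hC'
  have hC'0 : 0 < C' := by positivity
  set a : ℝ := 1 / (2 * C') with ha
  have ha0 : 0 < a := by positivity
  have haC : a * C' = 1 / 2 := by rw [ha]; field_simp
  obtain ⟨K, hK⟩ := ZF1_bracket a ha0
  refine ⟨a / 8, K, by positivity, fun Q hQ r _ ψ hr hψ ρ hρ him => ?_⟩
  obtain ⟨hL1, hL8, hbr⟩ := hK Q hQ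
  set L : ℝ := Real.log Q with hLdef
  have hL0 : 0 < L := by linarith
  by_contra hcon
  push Not at hcon
  have hψ1 : ψ ≠ 1 := by
    rintro rfl
    exact hψ (one_pow 2)
  have hβ1 : ρ.re < 1 := by
    by_contra h
    push Not at h
    exact DirichletCharacter.LFunction_ne_zero_of_one_le_re ψ (Or.inl hψ1) h hρ
  set σ : ℝ := 1 + a / L with hσ
  have haL : 0 < a / L := by positivity
  have haL8 : a / L ≤ 1 / 8 := by
    rw [div_le_iff₀ hL0]; linarith
  have hσ1 : 1 < σ := by linarith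
  have hσ2 : σ ≤ 5 / 4 := by linarith
  have hc8 : a / 8 / L = a / L / 8 := by ring
  rw [hc8] at hcon
  have hr1 : 1 ≤ r := Nat.one_le_iff_ne_zero.mpr (NeZero.ne r)
  have e0 : (σ : ℂ) + ρ.im * Complex.I - ρ = ((σ - ρ.re : ℝ) : ℂ) := by
    apply Complex.ext <;> simp
  -- the three terms
  have T0 := hv σ hσ1 (by linarith)
  have T1 := hc r ψ hψ1 σ ρ.im hσ1 hσ2 {ρ} (by
    intro ρ' hρ'
    rw [Finset.mem_singleton] at hρ'
    subst hρ'
    refine ⟨hρ, ?_⟩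
    rw [norm_sub_rev, e0, Complex.norm_real, Real.norm_eq_abs, abs_of_pos (by linarith)]
    linarith)
  rw [Finset.sum_singleton, e0] at T1
  have e1 : (1 / ((σ - ρ.re : ℝ) : ℂ)).re = 1 / (σ - ρ.re) := by
    rw [← Complex.ofReal_one, ← Complex.ofReal_div, Complex.ofReal_re]
  rw [e1] at T1
  have T2 := hc r (ψ ^ 2) hψ σ (2 * ρ.im) hσ1 hσ2 ∅ (by simp)
  rw [Finset.sum_empty] at T2
  have T3 := three_four_one r ψ σ ρ.im hσ1
  have B1 := hbr r hr1 hr ρ.im (by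
    have := abs_nonneg ρ.im
    linarith)
  have B2 := hbr r hr1 hr (2 * ρ.im) (by
    rw [abs_mul, abs_of_pos (by norm_num : (0 : ℝ) < 2)]
    linarith)
  have B1' := mul_le_mul_of_nonneg_left B1 hCc.le
  have B2' := mul_le_mul_of_nonneg_left B2 hCc.le
  push_cast at T2
  have e2 : 1 / (σ - 1) = L / a := by
    rw [hσ, add_sub_cancel_left, one_div, inv_div]
  rw [e2] at T0
  have e3 : L / (9 * a / 8) ≤ 1 / (σ - ρ.re) := by
    rw [div_le_div_iff₀ (by positivity) (by linarith)]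
    have : L * (a / L) = a := by field_simp
    have h5 : L * (σ - ρ.re) ≤ L * (9 * (a / L) / 8) :=
      mul_le_mul_of_nonneg_left (by linarith) hL0.le
    have h6 : L * (9 * (a / L) / 8) = 9 * a / 8 := by
      rw [show L * (9 * (a / L) / 8) = 9 * (L * (a / L)) / 8 by ring, this]
    linarith
  have e4 : L / (9 * a / 8) = (8 / 9) * (L / a) := by
    field_simp
  rw [e4] at e3
  have e5 : C' * L = (L / a) / 2 := by
    have : C' = 1 / (2 * a) := by
      rw [eq_div_iff (by positivity)]; linarith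
    rw [this]; field_simp
  have hLa : 0 < L / a := by positivity
  have hCvL : Cv ≤ Cv * L := le_mul_of_one_le_right hCv.le hL1
  have : 0 ≤ 3 * (L / a) + C' * L - 4 * (8 / 9 * (L / a)) := by
    rw [hC']
    linarith
  rw [e5] at this
  linarith

end Pool.Agent.Lib.H68T
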