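import Pool.Agent.Lib.H68T.LAB
import Pool.Agent.Lib.H68T.T341
import Pool.Agent.Lib.H68T.RegL
import Pool.Agent.Lib.H68T.ZF1

/-!
# Chunk ZF2; part of ZF1, ZF2, ZF3: zero-free regions
(`L := log Q`; all `log N, log(|t|+3), log(1/(σ-1))` in `re_char` are `O(L)` for `N ≤ Q^2`,
`|t| ≤ 2 Q^12 + 2`, `σ = 1 + a/L`.)
-/

open Finset ArithmeticFunction ComplexConjugate

namespace Pool.Agent.Lib.H68T

/-- Conjugation symmetry of the L-function of a real character. -/
theorem ZF2_conj (r : ℕ) [NeZero r] (ψ : DirichletCharacter ℂ r) (hψ1 : ψ ≠ 1) (hψ : ψ ^ 2 = 1)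
    (s : ℂ) : ψ.LFunction (conj s) = conj (ψ.LFunction s) := by
  have hdiff := DirichletCharacter.differentiable_LFunction hψ1
  have hg_an : AnalyticOnNhd ℂ (fun z ↦ conj (ψ.LFunction (conj z))) Set.univ :=
    DifferentiableOn.analyticOnNhd
      (fun z _ ↦ (differentiableAt_conj_conj_iff.mpr (hdiff _)).differentiableWithinAt)
      isOpen_univ
  have hf_an : AnalyticOnNhd ℂ (fun z ↦ ψ.LFunction z) Set.univ :=
    DifferentiableOn.analyticOnNhd (fun z _ ↦ (hdiff z).differentiableWithinAt) isOpen_univ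
  have hreal : ∀ n : ℕ, conj (ψ (n : ZMod r)) = ψ (n : ZMod r) := by
    intro n
    obtain ⟨x, -, -, hx⟩ := T341_real_value r ψ hψ n
    rw [hx, Complex.conj_ofReal]
  have hgz (z : ℂ) (hz : 1 < z.re) : conj (ψ.LFunction (conj z)) = ψ.LFunction z := by
    rw [ψ.LFunction_eq_LSeries (by rwa [Complex.conj_re] : 1 < (conj z).re),
      ψ.LFunction_eq_LSeries hz, LSeries, LSeries, Complex.conj_tsum]
    refine tsum_congr fun n => ?_
    rcases eq_or_ne n 0 with rfl | hn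
    · simp
    · rw [LSeries.term_of_ne_zero hn, LSeries.term_of_ne_zero hn, map_div₀, hreal,
        ← Complex.conj_cpow _ _ (by rw [Complex.natCast_arg]; positivity), Complex.conj_natCast]
  have heq := hg_an.eq_of_eventuallyEq hf_an (z₀ := 2)
    (Filter.eventuallyEq_of_mem
      ((isOpen_lt continuous_const Complex.continuous_re).mem_nhds (by norm_num :
        (1 : ℝ) < (2 : ℂ).re)) hgz)
  have h := congrFun heq s
  rw [← h, Complex.conj_conj]

/-- **ZF2**, real characters, non-real zeros.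
Case `|γ| ≥ a/L`, `σ = 1 + a/L`: `ψ² = 1` is principal, `principal_sub`, `re_zeta` at `2γ`:
`Re 1/(σ - 1 + 2iγ) ≤ (a/L)/((a/L)² + 4γ²) ≤ L/(5a)`; so `4/(a + c₁) ≤ 3/a + 1/(5a) + C'`, false for
`a` small (`C' ≤ 0.3/a`), `c₁ = a/8`.
Case `0 < |γ| < a/L`: `ρ` and `conj ρ` are distinct zeros (`ψ` is real); at `σ = 1 + 2a/L`, `t = 0`,
`re_char` with `S = {ρ, conj ρ}` and `one_add_real`:
`2(σ-β)/((σ-β)² + γ²) ≤ 1/(σ-1) + C' L`; the left side is at least
`2 (2a + c₁)/((2a+c₁)² + a²) L ≥ 0.7 L/a`, the right side at most `(1/(2a) + C') L`. -/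
theorem zero_free_real : ∃ c₁ K : ℝ, 0 < c₁ ∧ ∀ Q : ℕ, K ≤ Q → ∀ (r : ℕ) [NeZero r]
    (ψ : DirichletCharacter ℂ r), r ≤ Q → ψ ≠ 1 → ψ ^ 2 = 1 → ∀ ρ : ℂ, ψ.LFunction ρ = 0 →
    ρ.im ≠ 0 → |ρ.im| ≤ (Q : ℝ) ^ 12 + 1 → ρ.re < 1 - c₁ / Real.log Q := by
  obtain ⟨Cv, hCv, hv⟩ := vonMangoldt_le
  obtain ⟨Cc, hCc, hc⟩ := re_char
  obtain ⟨Cz, hCz, hz⟩ := re_zeta
  set C' : ℝ := 3 * Cv + 68 * Cc + 17 * Cz + 1 with hC'
  have hC'0 : 0 < C' := by positivity
  set a : ℝ := 1 / (5 * C') with ha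
  have ha0 : 0 < a := by positivity
  have haC : a * C' = 1 / 5 := by rw [ha]; field_simp
  obtain ⟨K₁, hK₁⟩ := ZF1_bracket a ha0
  obtain ⟨K₂, hK₂⟩ := ZF1_bracket (2 * a) (by positivity)
  refine ⟨a / 8, max K₁ K₂, by positivity, fun Q hQ r _ ψ hr hψ1 hψ ρ hρ hγ him => ?_⟩
  obtain ⟨hL1, hL8, hbr⟩ := hK₁ Q ((le_max_left _ _).trans hQ)
  obtain ⟨-, hL16, hbr2⟩ := hK₂ Q ((le_max_right _ _).trans hQ)
  set L : ℝ := Real.log Q with hLdef
  have hL0 : 0 < L := by linarith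
  by_contra hcon
  push Not at hcon
  have hβ1 : ρ.re < 1 := by
    by_contra h
    push Not at h
    exact DirichletCharacter.LFunction_ne_zero_of_one_le_re ψ (Or.inl hψ1) h hρ
  have haL : 0 < a / L := by positivity
  have haL16 : a / L ≤ 1 / 16 := by
    rw [div_le_iff₀ hL0]; linarith
  have hc8 : a / 8 / L = a / L / 8 := by ring
  rw [hc8] at hcon
  have hr1 : 1 ≤ r := Nat.one_le_iff_ne_zero.mpr (NeZero.ne r)
  have hLaL : L * (a / L) = a := by field_simp
  have e5 : C' * L = (L / a) / 5 := by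
    have : C' = 1 / (5 * a) := by
      rw [eq_div_iff (by positivity)]; linarith
    rw [this]; field_simp
  have hLa : 0 < L / a := by positivity
  have hCvL : Cv ≤ Cv * L := le_mul_of_one_le_right hCv.le hL1
  have hinv : (L / a) * (a / L) = 1 := by field_simp
  rcases le_or_gt (a / L) |ρ.im| with hcase | hcase
  · -- large imaginary part
    set σ : ℝ := 1 + a / L with hσ
    have hσ1 : 1 < σ := by linarith
    have hσ2 : σ ≤ 5 / 4 := by linarith
    have e0 : (σ : ℂ) + ρ.im * Complex.I - ρ = ((σ - ρ.re : ℝ) : ℂ) := by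
      apply Complex.ext <;> simp
    have T0 := hv σ hσ1 (by linarith)
    have T1 := hc r ψ hψ1 σ ρ.im hσ1 hσ2 {ρ} (by
      intro ρ' hρ'
      rw [Finset.mem_singleton] at hρ'
      subst hρ'
      refine ⟨hρ, ?_⟩
      rw [norm_sub_rev, e0, Complex.norm_real, Real.norm_eq_abs, abs_of_pos (by linarith)]
      linarith)
    rw [Finset.sum_singleton, e0] at T1
    have e1 : (1 / ((σ - ρ.re : ℝ) : ℂ)).re = 1 / (σ - ρ.re) := by
      rw [← Complex.ofReal_one, ← Complex.ofReal_div, Complex.ofReal_re]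
    rw [e1] at T1
    have T2 := hz σ (2 * ρ.im) hσ1 hσ2 ∅ (by simp)
    rw [Finset.sum_empty] at T2
    have T3 := three_four_one r ψ σ ρ.im hσ1
    rw [hψ] at T3
    have hs2 : 1 < ((σ : ℂ) + 2 * ρ.im * Complex.I).re := by
      have : ((σ : ℂ) + 2 * ρ.im * Complex.I).re = σ := by simp
      rw [this]; exact hσ1
    have T4 := principal_sub r ((σ : ℂ) + 2 * ρ.im * Complex.I) hs2
    have T4' := (Complex.abs_re_le_norm _).trans T4
    rw [Complex.sub_re, abs_le] at T4'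
    have B1 := hbr r hr1 hr ρ.im (by
      have := abs_nonneg ρ.im
      linarith)
    have B2 := hbr r hr1 hr (2 * ρ.im) (by
      rw [abs_mul, abs_of_pos (by norm_num : (0 : ℝ) < 2)]
      linarith)
    have hlogr : Real.log r ≤ L := Real.log_le_log (by exact_mod_cast hr1) (by exact_mod_cast hr)
    have hlogr0 : 0 ≤ Real.log r := Real.log_nonneg (by exact_mod_cast hr1)
    have B1' := mul_le_mul_of_nonneg_left B1 hCc.le
    have B2' : Cz * (Real.log (|2 * ρ.im| + 3) + Real.log (1 / (σ - 1)) + 1) ≤ Cz * (17 * L) :=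
      mul_le_mul_of_nonneg_left (by linarith) hCz.le
    push_cast at T2
    have e2 : 1 / (σ - 1) = L / a := by
      rw [hσ, add_sub_cancel_left, one_div, inv_div]
    rw [e2] at T0
    -- Re 1/(σ-1+2iγ)
    have e6 : (1 / ((σ : ℂ) + 2 * ρ.im * Complex.I - 1)).re ≤ (L / a) / 5 := by
      have e7 : ((σ : ℂ) + 2 * ρ.im * Complex.I - 1) = ⟨a / L, 2 * ρ.im⟩ := by
        apply Complex.ext <;> simp [hσ]
      rw [e7, one_div, Complex.inv_re, Complex.normSq_mk]
      have h7 : (a / L) ^ 2 ≤ ρ.im ^ 2 := by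
        rw [← sq_abs ρ.im]
        exact pow_le_pow_left₀ haL.le hcase 2
      rw [div_le_iff₀ (by nlinarith)]
      have h8 : L / a / 5 * (5 * (a / L) ^ 2) = a / L := by
        field_simp
      have h9 : L / a / 5 * (5 * (a / L) ^ 2) ≤
          L / a / 5 * (a / L * (a / L) + 2 * ρ.im * (2 * ρ.im)) :=
        mul_le_mul_of_nonneg_left (by nlinarith) (by positivity)
      show a / L ≤ _
      linarith
    have e3 : L / (9 * a / 8) ≤ 1 / (σ - ρ.re) := by
      rw [div_le_div_iff₀ (by positivity) (by linarith)]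
      have h5 : L * (σ - ρ.re) ≤ L * (9 * (a / L) / 8) :=
        mul_le_mul_of_nonneg_left (by linarith) hL0.le
      have h6 : L * (9 * (a / L) / 8) = 9 * a / 8 := by
        rw [show L * (9 * (a / L) / 8) = 9 * (L * (a / L)) / 8 by ring, hLaL]
      linarith
    have e4 : L / (9 * a / 8) = (8 / 9) * (L / a) := by
      field_simp
    rw [e4] at e3
    have : 0 ≤ 3 * (L / a) + C' * L + (L / a) / 5 - 4 * (8 / 9 * (L / a)) := by
      rw [hC']
      linarith [T4'.2]
    rw [e5] at this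
    linarith
  · -- small imaginary part
    set σ : ℝ := 1 + 2 * a / L with hσ
    have h2aL : 2 * a / L = 2 * (a / L) := by ring
    have hσ1 : 1 < σ := by rw [hσ, h2aL]; linarith
    have hσ2 : σ ≤ 5 / 4 := by rw [hσ, h2aL]; linarith
    have hγ0 : 0 < |ρ.im| := abs_pos.mpr hγ
    have T0 := hv σ hσ1 (by linarith)
    have hne : ρ ≠ conj ρ := by
      intro h
      have := congrArg Complex.im h
      rw [Complex.conj_im] at this
      exact hγ (by linarith)
    have hρ' : ψ.LFunction (conj ρ) = 0 := by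
      rw [ZF2_conj r ψ hψ1 hψ, hρ, _root_.map_zero]
    have hnorm : ∀ z : ℂ, z.re = ρ.re → |z.im| = |ρ.im| →
        ‖z - ((σ : ℂ) + ((0 : ℝ) : ℂ) * Complex.I)‖ ≤ 1 / 4 := by
      intro z hz1 hz2
      refine (Complex.norm_le_abs_re_add_abs_im _).trans ?_
      have h1 : (z - ((σ : ℂ) + ((0 : ℝ) : ℂ) * Complex.I)).re = ρ.re - σ := by simp [hz1]
      have h2 : (z - ((σ : ℂ) + ((0 : ℝ) : ℂ) * Complex.I)).im = z.im := by simp
      rw [h1, h2, hz2, abs_sub_comm, abs_of_pos (by linarith)]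
      have : σ = 1 + 2 * (a / L) := by rw [hσ, h2aL]
      linarith
    have T1 := hc r ψ hψ1 σ 0 hσ1 hσ2 {ρ, conj ρ} (by
      intro z hz
      rw [Finset.mem_insert, Finset.mem_singleton] at hz
      rcases hz with rfl | rfl
      · exact ⟨hρ, hnorm _ rfl rfl⟩
      · exact ⟨hρ', hnorm _ (Complex.conj_re _) (by rw [Complex.conj_im, abs_neg])⟩)
    rw [Finset.sum_pair hne] at T1
    have e7 : (1 / ((σ : ℂ) + ((0 : ℝ) : ℂ) * Complex.I - ρ)).re =
        (σ - ρ.re) / ((σ - ρ.re) ^ 2 + ρ.im ^ 2) := by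
      have e8 : ((σ : ℂ) + ((0 : ℝ) : ℂ) * Complex.I - ρ) = ⟨σ - ρ.re, -ρ.im⟩ := by
        apply Complex.ext <;> simp
      rw [e8, one_div, Complex.inv_re, Complex.normSq_mk]
      congr 1
      ring
    have e8 : (1 / ((σ : ℂ) + ((0 : ℝ) : ℂ) * Complex.I - conj ρ)).re =
        (σ - ρ.re) / ((σ - ρ.re) ^ 2 + ρ.im ^ 2) := by
      have e8 : ((σ : ℂ) + ((0 : ℝ) : ℂ) * Complex.I - conj ρ) = ⟨σ - ρ.re, ρ.im⟩ := by
        apply Complex.ext <;> simp
      rw [e8, one_div, Complex.inv_re, Complex.normSq_mk]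
      congr 1
      ring
    rw [e7, e8] at T1
    have T3 := one_add_real r ψ hψ σ hσ1
    have B1 := hbr2 r hr1 hr 0 (by rw [abs_zero]; positivity)
    have B1' := mul_le_mul_of_nonneg_left B1 hCc.le
    have e2 : 1 / (σ - 1) = (L / a) / 2 := by
      rw [hσ, add_sub_cancel_left, one_div, inv_div, div_div, mul_comm a 2]
    rw [e2] at T0
    have e9 : (3 / 8) * (L / a) ≤ (σ - ρ.re) / ((σ - ρ.re) ^ 2 + ρ.im ^ 2) := by
      set x : ℝ := a / L with hx
      have hLax : L / a = 1 / x := by rw [hx, one_div_div]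
      set u : ℝ := σ - ρ.re with hu
      have hu1 : 2 * x ≤ u := by rw [hu, hσ, h2aL]; linarith
      have hu2 : u ≤ 17 / 8 * x := by rw [hu, hσ, h2aL]; linarith
      have hg : ρ.im ^ 2 ≤ x ^ 2 := by
        rw [← sq_abs ρ.im]
        exact pow_le_pow_left₀ hγ0.le hcase.le 2
      have hu0 : 0 < u := by linarith
      rw [hLax, le_div_iff₀ (by positivity)]
      have h10 : 3 / 8 * (u ^ 2 + ρ.im ^ 2) ≤ u * x := by nlinarith
      calc 3 / 8 * (1 / x) * (u ^ 2 + ρ.im ^ 2) = (3 / 8 * (u ^ 2 + ρ.im ^ 2)) / x := by ring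
        _ ≤ (u * x) / x := div_le_div_of_nonneg_right h10 haL.le
        _ = u := by field_simp
    have hCv3 : 0 ≤ Cv * L := by positivity
    have hCc3 : 0 ≤ Cc * L := by positivity
    have hCz3 : 0 ≤ Cz * L := by positivity
    have T3' : (LSeries (fun n => (vonMangoldt n : ℂ) * ψ (n : ZMod r))
        ((σ : ℂ) + ((0 : ℝ) : ℂ) * Complex.I)).re =
        (LSeries (fun n => (vonMangoldt n : ℂ) * ψ (n : ZMod r)) σ).re := by
      congr 2
      simp
    rw [T3'] at T1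
    have : 0 ≤ (L / a) / 2 + C' * L - 2 * (3 / 8 * (L / a)) := by
      rw [hC']
      linarith
    rw [e5] at this
    linarith

end Pool.Agent.Lib.H68T
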