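import Pool.Agent.Lib.H68T.LAB
import Pool.Agent.Lib.H68T.T341
import Pool.Agent.Lib.H68T.RegL

/-!
# Chunk ZF3; part of ZF1, ZF2, ZF3: zero-free regions
(`L := log Q`; all `log N, log(|t|+3), log(1/(σ-1))` in `re_char` are `O(L)` for `N ≤ Q^2`,
`|t| ≤ 2 Q^12 + 2`, `σ = 1 + a/L`.)
-/

open Finset

namespace Pool.Agent.Lib.H68T

theorem zf3_near (s : ℂ) (hs : 1 ≤ s.re) : ∀ᶠ z in nhds s, riemannZeta z ≠ 0 := by
  by_cases h1 : s = 1
  · subst h1
    have h2 := riemannZeta_residue_one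
    have h3 : ∀ᶠ z in nhdsWithin (1 : ℂ) {1}ᶜ, (z - 1) * riemannZeta z ≠ 0 :=
      h2.eventually_ne one_ne_zero
    rw [eventually_nhdsWithin_iff] at h3
    filter_upwards [h3] with z hz
    by_cases hz1 : z = 1
    · rw [hz1]; exact riemannZeta_one_ne_zero
    · exact right_ne_zero_of_mul (hz hz1)
  · have h2 : ContinuousAt riemannZeta s := (differentiableAt_riemannZeta h1).continuousAt
    exact h2.eventually_ne (riemannZeta_ne_zero_of_one_le_re hs)

theorem zf3_low : ∃ δ : ℝ, 0 < δ ∧ ∀ ρ : ℂ, riemannZeta ρ = 0 → |ρ.im| ≤ 1 →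
    ρ.re < 1 - δ := by
  have hK : IsCompact ((fun y : ℝ => (1 + y * Complex.I : ℂ)) '' Set.Icc (-1) 1) :=
    isCompact_Icc.image (by fun_prop)
  obtain ⟨δ, hδ, hsub⟩ := hK.exists_thickening_subset_open
    (isOpen_interior (s := {z : ℂ | riemannZeta z ≠ 0})) (by
      rintro s ⟨y, -, rfl⟩
      rw [mem_interior_iff_mem_nhds]
      exact zf3_near _ (by simp))
  refine ⟨δ / 2, by positivity, fun ρ hρ him => ?_⟩
  by_contra hcon
  push Not at hcon
  have hre : ρ.re < 1 := by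
    by_contra h
    push Not at h
    exact riemannZeta_ne_zero_of_one_le_re h hρ
  have hmem : ρ ∈ Metric.thickening δ
      ((fun y : ℝ => (1 + y * Complex.I : ℂ)) '' Set.Icc (-1) 1) := by
    rw [Metric.mem_thickening_iff]
    refine ⟨1 + ρ.im * Complex.I, ⟨ρ.im, abs_le.1 him, rfl⟩, ?_⟩
    rw [Complex.dist_eq]
    have : ρ - (1 + ρ.im * Complex.I) = ((ρ.re - 1 : ℝ) : ℂ) := by
      apply Complex.ext <;> simp
    rw [this, Complex.norm_real, Real.norm_eq_abs, abs_of_nonpos (by linarith)]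
    linarith
  exact interior_subset (hsub hmem) hρ

/-- **ZF3**, zeta. For `|γ| ≥ a/L` as in ZF2 (with `three_four_one_zeta`, and
`Re 1/(σ-1+iγ) ≤ (a/L)/((a/L)² + γ²) ≤ L/(2a)`; choose the threshold `|γ| ≥ 1` instead, where this
is `O(1)`); for `|γ| ≤ 1` use that `(s-1) ζ(s)` (value `1` at `1`) has no zero on the compact set
`Re s = 1, |Im s| ≤ 1`, hence none in `Re s ≥ 1 - δ`, `|Im s| ≤ 1` for some `δ > 0`. -/
theorem zero_free_zeta : ∃ c₁ K : ℝ, 0 < c₁ ∧ ∀ Q : ℕ, K ≤ Q → ∀ ρ : ℂ, riemannZeta ρ = 0 →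
    |ρ.im| ≤ (Q : ℝ) ^ 12 + 1 → ρ.re < 1 - c₁ / Real.log Q := by
  obtain ⟨C₁, hC₁, hvM⟩ := vonMangoldt_le
  obtain ⟨C₂, hC₂, hre⟩ := re_zeta
  obtain ⟨δ, hδ, hlow⟩ := zf3_low
  set C' : ℝ := 3 * C₁ + 5 + 75 * C₂ with hC'
  have hC'5 : 5 < C' := by rw [hC']; nlinarith
  set a : ℝ := 1 / (2 * C') with ha
  have ha0 : 0 < a := by positivity
  have ha10 : a ≤ 1 / 10 := by
    rw [ha]
    exact one_div_le_one_div_of_le (by norm_num) (by linarith)
  set c₁ : ℝ := a / 8 with hc₁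
  have hc₁0 : 0 < c₁ := by positivity
  refine ⟨c₁, Real.exp (10 + 2 * |Real.log a| + c₁ / δ), hc₁0, ?_⟩
  intro Q hQ ρ hρ him
  have hQ0 : (0 : ℝ) < Q := lt_of_lt_of_le (Real.exp_pos _) hQ
  set L : ℝ := Real.log Q with hL
  have hLb : 10 + 2 * |Real.log a| + c₁ / δ ≤ L := (Real.le_log_iff_exp_le hQ0).2 hQ
  have hcδ : 0 ≤ c₁ / δ := by positivity
  have hlog0 : 0 ≤ |Real.log a| := abs_nonneg _
  have hL10 : 10 ≤ L := by linarith
  have hL0 : 0 < L := by linarith
  have hQ3 : (3 : ℝ) ≤ Q := by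
    have h1 : L ≤ Q := (Real.log_le_sub_one_of_pos hQ0).trans (by linarith)
    linarith
  by_contra hcon
  push Not at hcon
  have hre1 : ρ.re < 1 := by
    by_contra h
    push Not at h
    exact riemannZeta_ne_zero_of_one_le_re h hρ
  rcases le_or_gt |ρ.im| 1 with hγ | hγ
  · have h1 := hlow ρ hρ hγ
    have h2 : c₁ / L ≤ δ := by
      rw [div_le_iff₀ hL0]
      have : c₁ / δ ≤ L := by linarith
      rw [div_le_iff₀ hδ] at this
      linarith
    linarith
  · set γ : ℝ := ρ.im with hγdef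
    set σ : ℝ := 1 + a / L with hσ
    have haL : a / L ≤ 1 / 100 := by
      rw [div_le_iff₀ hL0]
      linarith
    have haL0 : 0 < a / L := by positivity
    have hσ1 : 1 < σ := by linarith
    have hσ2 : σ ≤ 5 / 4 := by linarith
    have hcL : c₁ / L ≤ 1 / 100 := by
      rw [div_le_iff₀ hL0]
      have : c₁ ≤ a := by rw [hc₁]; linarith
      linarith
    have hσβ : σ - ρ.re ≤ (a + c₁) / L := by
      rw [hσ, add_div]
      linarith
    have hσβ0 : 0 < σ - ρ.re := by linarith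
    have h341 := three_four_one_zeta σ γ hσ1
    have e1 := hvM σ hσ1 (by linarith)
    have e2 := hre σ γ hσ1 hσ2 {ρ} (by
      intro ρ' hρ'
      rw [Finset.mem_singleton] at hρ'
      subst hρ'
      refine ⟨hρ, ?_⟩
      have : ρ' - (σ + γ * Complex.I) = ((ρ'.re - σ : ℝ) : ℂ) := by
        apply Complex.ext <;> simp [hγdef]
      rw [this, Complex.norm_real, Real.norm_eq_abs, abs_of_nonpos (by linarith)]
      rw [add_div] at hσβ
      linarith)
    have e3 := hre σ (2 * γ) hσ1 hσ2 ∅ (by simp)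
    rw [Finset.sum_singleton] at e2
    rw [Finset.sum_empty, sub_zero] at e3
    have f1 : (1 / ((σ : ℂ) + γ * Complex.I - ρ)).re = 1 / (σ - ρ.re) := by
      have : (σ : ℂ) + γ * Complex.I - ρ = ((σ - ρ.re : ℝ) : ℂ) := by
        apply Complex.ext <;> simp [hγdef]
      rw [this, ← Complex.ofReal_one, ← Complex.ofReal_div, Complex.ofReal_re]
    have f2 : ∀ t : ℝ, 1 ≤ |t| → (1 / ((σ : ℂ) + t * Complex.I - 1)).re ≤ 1 := by
      intro t ht
      refine (Complex.re_le_norm _).trans ?_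
      rw [norm_div, norm_one]
      have h1 : |t| ≤ ‖(σ : ℂ) + t * Complex.I - 1‖ := by
        have h2 := Complex.abs_im_le_norm ((σ : ℂ) + t * Complex.I - 1)
        simpa using h2
      rw [div_le_one (by linarith)]
      linarith
    have hLa : Real.log (1 / (σ - 1)) ≤ L := by
      have h1 : 1 / (σ - 1) = L / a := by
        have h0 : σ - 1 = a / L := by rw [hσ]; ring
        rw [h0, one_div, inv_div]
      rw [h1, Real.log_div hL0.ne' ha0.ne']
      have h2 : Real.log L ≤ L / 2 := by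
        have h3 := Real.log_le_sub_one_of_pos (show 0 < L / 2 by positivity)
        rw [Real.log_div hL0.ne' (by norm_num)] at h3
        have h4 := Real.log_two_lt_d9
        linarith
      have h5 : -Real.log a ≤ |Real.log a| := neg_le_abs _
      linarith
    have hpow : 2 * ((Q : ℝ) ^ 12 + 1) + 3 ≤ (Q : ℝ) ^ 13 := by
      have h1 : (Q : ℝ) ^ 13 = (Q : ℝ) ^ 12 * Q := by ring
      have h2 : (3 : ℝ) ^ 12 ≤ (Q : ℝ) ^ 12 := pow_le_pow_left₀ (by norm_num) hQ3 12
      rw [h1]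
      nlinarith
    have hlt : ∀ t : ℝ, |t| ≤ 2 * ((Q : ℝ) ^ 12 + 1) → Real.log (|t| + 3) ≤ 13 * L := by
      intro t ht
      have h0 : 0 ≤ |t| := abs_nonneg _
      have h1 : Real.log (|t| + 3) ≤ Real.log ((Q : ℝ) ^ 13) :=
        Real.log_le_log (by linarith) (by linarith)
      rw [Real.log_pow] at h1
      push_cast at h1
      exact h1
    have hQ12 : (0 : ℝ) ≤ (Q : ℝ) ^ 12 := by positivity
    have g2 := hlt γ (by linarith)
    have g3 := hlt (2 * γ) (by rw [abs_mul, abs_two]; linarith)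
    have k2 := f2 γ hγ.le
    have k3 := f2 (2 * γ) (by rw [abs_mul, abs_two]; linarith)
    rw [f1] at e2
    have m2 : C₂ * (Real.log (|γ| + 3) + Real.log (1 / (σ - 1)) + 1) ≤ C₂ * (15 * L) :=
      mul_le_mul_of_nonneg_left (by linarith) hC₂.le
    have m3 : C₂ * (Real.log (|2 * γ| + 3) + Real.log (1 / (σ - 1)) + 1) ≤ C₂ * (15 * L) :=
      mul_le_mul_of_nonneg_left (by linarith) hC₂.le
    have e1' : 1 / (σ - 1) = L / a := by
      have h0 : σ - 1 = a / L := by rw [hσ]; ring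
      rw [h0, one_div, inv_div]
    rw [e1'] at e1
    have e4 : (LSeries (fun n => (ArithmeticFunction.vonMangoldt n : ℂ))
        (σ + 2 * γ * Complex.I)).re ≤ 1 + C₂ * (15 * L) := by
      have h1 : ((σ : ℂ) + 2 * γ * Complex.I) = σ + ((2 * γ : ℝ) : ℂ) * Complex.I := by
        push_cast; ring
      rw [h1]
      linarith
    have n1 : L / (a + c₁) ≤ 1 / (σ - ρ.re) := by
      rw [div_le_div_iff₀ (by positivity) hσβ0]
      rw [le_div_iff₀ hL0] at hσβ
      linarith
    have n2 : 4 * (L / (a + c₁)) ≤ 3 * (L / a) + C' * L := by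
      have : C' * L = 3 * C₁ * L + 5 * L + 75 * C₂ * L := by rw [hC']; ring
      have h1 : 3 * C₁ ≤ 3 * C₁ * L := by nlinarith
      have h2 : (5 : ℝ) ≤ 5 * L := by linarith
      rw [this]
      linarith
    have n3 : L / (a + c₁) = (8 / 9) * (L / a) := by
      rw [hc₁]
      field_simp
      ring
    have n4 : C' * L = (1 / 2) * (L / a) := by
      rw [ha]
      field_simp
    rw [n3, n4] at n2
    have n5 : 0 < L / a := by positivity
    linarith

end Pool.Agent.Lib.H68T
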