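import Pool.Agent.Lib.H68T.INVS
import Pool.Agent.Lib.H68T.ZF

/-!
# Chunk INV1; part of INV: bounds for the inverses of L-functions
-/

open Finset Metric

namespace Pool.Agent.Lib.H68T

theorem INV1_re_sum (Z : Multiset ℂ) (s : ℂ) (h : ∀ ρ ∈ Z, ρ.re ≤ s.re) :
    0 ≤ ((Z.map (fun ρ => 1 / (s - ρ))).sum).re := by
  have h1 : ((Z.map (fun ρ => 1 / (s - ρ))).sum).re = (Z.map (fun ρ => (1 / (s - ρ)).re)).sum := by
    have := map_multiset_sum Complex.reAddGroupHom (Z.map (fun ρ => 1 / (s - ρ)))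
    rw [Multiset.map_map] at this
    exact this
  rw [h1]
  refine Multiset.sum_nonneg ?_
  intro x hx
  rw [Multiset.mem_map] at hx
  obtain ⟨ρ, hρ, rfl⟩ := hx
  rw [one_div, Complex.inv_re]
  refine div_nonneg ?_ (Complex.normSq_nonneg _)
  rw [Complex.sub_re]
  linarith [h ρ hρ]

/-- **Local bound** (Titchmarsh 3.9, Lemma γ). Under the hypotheses of `landau`, if all zeros in the
disc of radius `R/2` have real part at most `Re s₀ - 2 r'` (`0 < 2 r' ≤ R/4`), and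
`‖f'/f(s₀)‖ ≤ (M+1)/R`, then `‖f'/f‖ ≤ A (M+1)/R` on the disc of radius `r'` and
`‖f(s₀)‖ ≤ exp (A (M+1) r'/R) ‖f(s)‖` there.

Proof. For `s` in the open disc of radius `2r'`: `Re s > Re s₀ - 2 r' ≥ Re ρ`, so
`Re 1/(s-ρ) > 0` for all zeros and `landau` gives `Re(-f'/f(s)) ≤ A(M+1)/R`;
`Complex.borelCaratheodory` on this disc for `-f'/f`. Then integrate `f'/f` along the segment
(`log|f|` has derivative `Re f'/f`). -/
theorem local_bound : ∃ A : ℝ, 0 < A ∧ ∀ (f : ℂ → ℂ) (s₀ : ℂ) (R M r' : ℝ), 0 < R → 0 ≤ M →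
    0 < r' → 2 * r' ≤ R / 4 → AnalyticOnNhd ℂ f (closedBall s₀ R) → f s₀ ≠ 0 →
    (∀ s ∈ closedBall s₀ R, ‖f s‖ ≤ Real.exp M * ‖f s₀‖) →
    (∀ ρ, ‖ρ - s₀‖ ≤ R / 2 → f ρ = 0 → ρ.re ≤ s₀.re - 2 * r') →
    ‖deriv f s₀ / f s₀‖ ≤ (M + 1) / R →
    ∀ s ∈ closedBall s₀ r', f s ≠ 0 ∧ ‖deriv f s / f s‖ ≤ A * (M + 1) / R ∧
      ‖f s₀‖ ≤ Real.exp (A * (M + 1) * r' / R) * ‖f s‖ := by
  obtain ⟨A₀, hA₀, hlan⟩ := landau
  refine ⟨2 * A₀ + 3, by positivity, ?_⟩
  intro f s₀ R M r' hR hM hr' hr'R han hf0 hbd hz hlog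
  obtain ⟨Z, hZ1, hZ2, hZ3⟩ := hlan f s₀ R M hR hM han hf0 hbd
  have hre_gt : ∀ s : ℂ, ‖s - s₀‖ < 2 * r' → s₀.re - 2 * r' < s.re := by
    intro s hs
    have h1 := Complex.abs_re_le_norm (s - s₀)
    rw [Complex.sub_re] at h1
    have h2 := neg_abs_le (s.re - s₀.re)
    linarith
  have hne : ∀ s : ℂ, ‖s - s₀‖ < 2 * r' → f s ≠ 0 := by
    intro s hs h0
    have h1 := hz s (by linarith) h0
    linarith [hre_gt s hs]
  have hM1 : 0 < A₀ * (M + 1) / R := by positivity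
  have hre : ∀ s : ℂ, ‖s - s₀‖ < 2 * r' → (-(deriv f s / f s)).re ≤ A₀ * (M + 1) / R := by
    intro s hs
    have h1 := hZ3 s (by rw [mem_closedBall, dist_eq_norm]; linarith) (hne s hs)
    have h2 := INV1_re_sum Z s (by
      intro ρ hρ
      have := hz ρ (hZ1 ρ hρ).1 (hZ1 ρ hρ).2
      linarith [hre_gt s hs])
    have h3 := (Complex.abs_re_le_norm (deriv f s / f s - (Z.map (fun ρ => 1 / (s - ρ))).sum)).trans h1
    rw [Complex.sub_re] at h3
    have h4 := neg_abs_le ((deriv f s / f s).re - ((Z.map (fun ρ => 1 / (s - ρ))).sum).re)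
    rw [Complex.neg_re]
    linarith
  -- Borel-Caratheodory on the disc of radius `2 r'`
  have hbc : ∀ s : ℂ, ‖s - s₀‖ ≤ r' → ‖deriv f s / f s‖ ≤ (2 * A₀ + 3) * (M + 1) / R := by
    intro s hs
    set g : ℂ → ℂ := fun w => -(deriv f (s₀ + w) / f (s₀ + w)) with hg
    have hsub : ∀ w ∈ ball (0 : ℂ) (2 * r'), ‖(s₀ + w) - s₀‖ < 2 * r' := by
      intro w hw
      rw [add_sub_cancel_left]
      rwa [mem_ball_zero_iff] at hw
    have hin : ∀ w ∈ ball (0 : ℂ) (2 * r'), s₀ + w ∈ closedBall s₀ R := by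
      intro w hw
      rw [mem_closedBall, dist_eq_norm]
      linarith [hsub w hw]
    have hdiff : DifferentiableOn ℂ g (ball 0 (2 * r')) := by
      intro w hw
      have h1 : DifferentiableAt ℂ f (s₀ + w) := (han _ (hin w hw)).differentiableAt
      have h2 : DifferentiableAt ℂ (deriv f) (s₀ + w) := (han _ (hin w hw)).deriv.differentiableAt
      have h3 : DifferentiableAt ℂ (fun w : ℂ => s₀ + w) w := by fun_prop
      have h4 : DifferentiableAt ℂ (fun w : ℂ => f (s₀ + w)) w := h1.comp w h3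
      have h5 : DifferentiableAt ℂ (fun w : ℂ => deriv f (s₀ + w)) w := h2.comp w h3
      exact ((h5.div h4 (hne _ (hsub w hw))).neg).differentiableWithinAt
    have hmap : Set.MapsTo g (ball 0 (2 * r')) {z | z.re ≤ A₀ * (M + 1) / R} := by
      intro w hw
      exact hre _ (hsub w hw)
    have hw : s - s₀ ∈ ball (0 : ℂ) (2 * r') := by
      rw [mem_ball_zero_iff]
      linarith
    have h6 := Complex.borelCaratheodory hM1 hdiff hmap (by positivity) hw
    have h7 : g (s - s₀) = -(deriv f s / f s) := by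
      simp only [hg, add_sub_cancel]
    have h8 : ‖g 0‖ ≤ (M + 1) / R := by
      simp only [hg, add_zero, norm_neg]
      exact hlog
    rw [h7, norm_neg] at h6
    have h9 : 0 ≤ ‖s - s₀‖ := norm_nonneg _
    have h10 : 0 < 2 * r' - ‖s - s₀‖ := by linarith
    have h11 : 2 * (A₀ * (M + 1) / R) * ‖s - s₀‖ / (2 * r' - ‖s - s₀‖) ≤
        2 * (A₀ * (M + 1) / R) := by
      rw [div_le_iff₀ h10]
      exact mul_le_mul_of_nonneg_left (by linarith) (by positivity)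
    have h12 : ‖g 0‖ * (2 * r' + ‖s - s₀‖) / (2 * r' - ‖s - s₀‖) ≤ 3 * ((M + 1) / R) := by
      rw [div_le_iff₀ h10]
      have h13 : 2 * r' + ‖s - s₀‖ ≤ 3 * (2 * r' - ‖s - s₀‖) := by linarith
      have h14 : 0 ≤ (M + 1) / R := by positivity
      calc ‖g 0‖ * (2 * r' + ‖s - s₀‖) ≤ (M + 1) / R * (3 * (2 * r' - ‖s - s₀‖)) :=
            mul_le_mul h8 h13 (by positivity) h14
        _ = _ := by ring
    calc ‖deriv f s / f s‖ ≤ _ := h6
      _ ≤ 2 * (A₀ * (M + 1) / R) + 3 * ((M + 1) / R) := add_le_add h11 h12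
      _ = _ := by ring
  intro s hs
  rw [mem_closedBall, dist_eq_norm] at hs
  refine ⟨hne s (by linarith), hbc s hs, ?_⟩
  -- Gronwall for `1/f` along the segment
  set B : ℝ := (2 * A₀ + 3) * (M + 1) / R * r' with hB
  have hB0 : 0 ≤ (2 * A₀ + 3) * (M + 1) / R := by positivity
  have hseg : ∀ t ∈ Set.Icc (0 : ℝ) 1, ‖(s₀ + (t : ℂ) * (s - s₀)) - s₀‖ ≤ r' := by
    intro t ht
    rw [add_sub_cancel_left, norm_mul, Complex.norm_real, Real.norm_of_nonneg ht.1]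
    calc t * ‖s - s₀‖ ≤ 1 * r' := mul_le_mul ht.2 hs (norm_nonneg _) zero_le_one
      _ = r' := one_mul _
  set G : ℝ → ℂ := fun t => (f (s₀ + (t : ℂ) * (s - s₀)))⁻¹ with hG
  set G' : ℝ → ℂ := fun t => -(deriv f (s₀ + (t : ℂ) * (s - s₀)) * (s - s₀)) /
    (f (s₀ + (t : ℂ) * (s - s₀))) ^ 2 with hG'
  have hderiv : ∀ t ∈ Set.Icc (0 : ℝ) 1, HasDerivAt G (G' t) t := by
    intro t ht
    have h1 := hseg t ht
    have h2 : HasDerivAt (fun t : ℝ => s₀ + (t : ℂ) * (s - s₀)) (s - s₀) t := by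
      have := ((Complex.ofRealCLM.hasDerivAt (x := t)).mul_const (s - s₀)).const_add s₀
      simpa using this
    have h3 : HasDerivAt f (deriv f (s₀ + (t : ℂ) * (s - s₀))) (s₀ + (t : ℂ) * (s - s₀)) :=
      (han _ (by rw [mem_closedBall, dist_eq_norm]; linarith)).differentiableAt.hasDerivAt
    have h4 : HasDerivAt (fun t : ℝ => f (s₀ + (t : ℂ) * (s - s₀)))
        (deriv f (s₀ + (t : ℂ) * (s - s₀)) * (s - s₀)) t := h3.comp t h2
    exact h4.inv (hne _ (by linarith))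
  have hgr := norm_le_gronwallBound_of_norm_deriv_right_le (f := G) (f' := G') (δ := ‖G 0‖)
    (K := B) (ε := 0) (a := 0) (b := 1)
    (fun t ht => (hderiv t ht).continuousAt.continuousWithinAt)
    (fun t ht => (hderiv t ⟨ht.1, ht.2.le⟩).hasDerivWithinAt) le_rfl (by
      intro t ht
      have h1 := hseg t ⟨ht.1, ht.2.le⟩
      have h2 := hbc _ h1
      have h3 : f (s₀ + (t : ℂ) * (s - s₀)) ≠ 0 := hne _ (by linarith)
      have h4 : G' t = -(deriv f (s₀ + (t : ℂ) * (s - s₀)) / f (s₀ + (t : ℂ) * (s - s₀))) *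
          (s - s₀) * G t := by
        simp only [hG, hG']
        field_simp
      rw [h4, norm_mul, norm_mul, norm_neg, add_zero]
      exact mul_le_mul_of_nonneg_right (mul_le_mul h2 hs (norm_nonneg _) hB0) (norm_nonneg _))
    1 (Set.right_mem_Icc.2 zero_le_one)
  rw [sub_zero, gronwallBound_ε0, mul_one] at hgr
  simp only [hG, Complex.ofReal_one, one_mul, Complex.ofReal_zero, zero_mul, add_zero,
    add_sub_cancel, norm_inv] at hgr
  have h5 : 0 < ‖f s‖ := norm_pos_iff.2 (hne s (by linarith))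
  have h6 : 0 < ‖f s₀‖ := norm_pos_iff.2 hf0
  have h7 : (2 * A₀ + 3) * (M + 1) * r' / R = B := by rw [hB]; ring
  rw [h7]
  rw [inv_le_iff_one_le_mul₀ h5] at hgr
  have h8 := mul_le_mul_of_nonneg_left hgr h6.le
  rw [mul_one] at h8
  calc ‖f s₀‖ ≤ ‖f s₀‖ * (‖f s₀‖⁻¹ * Real.exp B * ‖f s‖) := h8
    _ = Real.exp B * ‖f s‖ := by field_simp

end Pool.Agent.Lib.H68T
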