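import Pool.Agent.Lib.H68T.INV

/-!
# Chunk INVZ: the same for zeta
-/

open Finset Metric

namespace Pool.Agent.Lib.H68T

/-- `ζ` is not zero and not small to the right of `1`. -/
theorem INVZ_lower (s : ℂ) (hs : 1 < s.re) : (s.re - 1) / s.re ≤ ‖riemannZeta s‖ := by
  have e1 := lab2_lower 1 1 s hs
  have e2 : LSeries (fun n => (1 : DirichletCharacter ℂ 1) (n : ZMod 1)) s = riemannZeta s := by
    rw [← DirichletCharacter.LFunction_eq_LSeries (1 : DirichletCharacter ℂ 1) hs,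
      DirichletCharacter.LFunction_modOne_eq]
  rwa [e2] at e1

theorem INVZ_vM : ∃ C : ℝ, 0 < C ∧ ∀ s : ℂ, 1 < s.re → s.re ≤ 2 →
    ‖deriv gl2_Z s / gl2_Z s‖ ≤ 2 / (s.re - 1) + C := by
  obtain ⟨C, hC, h⟩ := vonMangoldt_le
  refine ⟨C, hC, fun s hs hs2 => ?_⟩
  have h1 := lab1_Z s hs
  rw [logDeriv_apply] at h1
  have h2 : deriv gl2_Z s / gl2_Z s = 1 / (s - 1) -
      LSeries (fun n => (ArithmeticFunction.vonMangoldt n : ℂ)) s := by
    rw [h1]
    ring
  rw [h2]
  have h3 := norm_LSeries_vM_le 1 1 s hs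
  have h4 : (fun n : ℕ => (ArithmeticFunction.vonMangoldt n : ℂ) *
      (1 : DirichletCharacter ℂ 1) (n : ZMod 1)) =
      fun n : ℕ => (ArithmeticFunction.vonMangoldt n : ℂ) := by
    funext n
    have : (1 : DirichletCharacter ℂ 1) (n : ZMod 1) = 1 := by
      rw [Subsingleton.elim (n : ZMod 1) 1, map_one]
    rw [this, mul_one]
  rw [h4] at h3
  have h5 := h s.re hs hs2
  have h6 : ‖1 / (s - 1)‖ ≤ 1 / (s.re - 1) := by
    rw [norm_div, norm_one]
    have h7 : s.re - 1 ≤ ‖s - 1‖ := by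
      have := Complex.re_le_norm (s - 1)
      simpa using this
    exact one_div_le_one_div_of_le (by linarith) h7
  calc ‖1 / (s - 1) - LSeries (fun n => (ArithmeticFunction.vonMangoldt n : ℂ)) s‖
      ≤ ‖1 / (s - 1)‖ + ‖LSeries (fun n => (ArithmeticFunction.vonMangoldt n : ℂ)) s‖ :=
        norm_sub_le _ _
    _ ≤ 1 / (s.re - 1) + (1 / (s.re - 1) + C) := add_le_add h6 (h3.trans h5)
    _ = 2 / (s.re - 1) + C := by ring

/-- the growth of `(s-1) ζ(s)` near `s₀` compared with its value at `s₀` -/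
theorem INVZ_growth (σ t : ℝ) (h1 : 1 < σ) (h2 : σ ≤ 5 / 4) :
    0 < ‖gl2_Z (σ + t * Complex.I)‖ ∧ ∀ s ∈ closedBall (σ + t * Complex.I : ℂ) (1 / 2),
      ‖gl2_Z s‖ ≤ Real.exp (4 + 2 * Real.log (|t| + 3) + 2 * Real.log (1 / (σ - 1))) *
        ‖gl2_Z (σ + t * Complex.I)‖ := by
  set s₀ : ℂ := σ + t * Complex.I with hs₀
  have hre : s₀.re = σ := by simp [hs₀]
  have him : s₀.im = t := by simp [hs₀]
  have hs1 : 1 < s₀.re := by rw [hre]; exact h1
  have hne1 : s₀ ≠ 1 := by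
    intro h
    rw [h] at hs1
    simp at hs1
  have hσ0 : 0 < σ := by linarith
  have hσ1 : 0 < σ - 1 := by linarith
  have hlow : (σ - 1) * ((σ - 1) / σ) ≤ ‖gl2_Z s₀‖ := by
    have e1 := INVZ_lower s₀ hs1
    rw [hre] at e1
    rw [gl2_Z_eq s₀ hne1, norm_mul]
    refine mul_le_mul ?_ e1 (by positivity) (norm_nonneg _)
    have e3 := Complex.abs_re_le_norm (s₀ - 1)
    rw [Complex.sub_re, hre, Complex.one_re, abs_of_pos hσ1] at e3
    exact e3
  have hf0 : 0 < ‖gl2_Z s₀‖ := lt_of_lt_of_le (by positivity) hlow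
  refine ⟨hf0, fun s hs => ?_⟩
  have ht : 0 ≤ |t| := abs_nonneg t
  set T : ℝ := 16 * ((|t| + 3) * (|t| + 3)) * (σ * (1 / (σ - 1)) * (1 / (σ - 1))) with hT
  have hTpos : 0 < T := by positivity
  have hexp : T ≤ Real.exp (4 + 2 * Real.log (|t| + 3) + 2 * Real.log (1 / (σ - 1))) := by
    rw [← Real.log_le_iff_le_exp hTpos]
    have hlogT : Real.log T = Real.log 16 + (Real.log (|t| + 3) + Real.log (|t| + 3)) +
        (Real.log σ + Real.log (1 / (σ - 1)) + Real.log (1 / (σ - 1))) := by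
      rw [hT, Real.log_mul (by positivity) (by positivity), Real.log_mul (by positivity)
        (by positivity), Real.log_mul (by positivity) (by positivity),
        Real.log_mul (by positivity) (by positivity), Real.log_mul (by positivity) (by positivity)]
    have l1 : Real.log 16 ≤ 3 := by
      have e1 : (16 : ℝ) = 2 ^ 4 := by norm_num
      rw [e1, Real.log_pow]
      have := Real.log_two_lt_d9
      push_cast
      linarith
    have l2 : Real.log σ ≤ 1 := by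
      have := Real.log_le_sub_one_of_pos hσ0
      linarith
    rw [hlogT]
    linarith
  rw [mem_closedBall, dist_eq_norm] at hs
  have e1 : |s.re - σ| ≤ 1 / 2 := by
    have := Complex.abs_re_le_norm (s - s₀)
    rw [Complex.sub_re, hre] at this
    linarith
  have e1' := abs_le.1 e1
  have e2 : |s.im - t| ≤ 1 / 2 := by
    have := Complex.abs_im_le_norm (s - s₀)
    rw [Complex.sub_im, him] at this
    linarith
  refine (gl2_Z_bound s (by linarith [e1'.1]) (by linarith [e1'.2])).trans ?_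
  have e3 : |s.im| ≤ |t| + 1 / 2 := by
    have := abs_sub_abs_le_abs_sub s.im t
    linarith
  have e4 : 4 * (|s.im| + 3) ^ 2 ≤ 16 * ((|t| + 3) * (|t| + 3)) := by
    have e5 : |s.im| + 3 ≤ 2 * (|t| + 3) := by linarith
    have e6 : 0 ≤ |s.im| + 3 := by positivity
    nlinarith
  refine e4.trans ?_
  have e5 : 1 ≤ (σ * (1 / (σ - 1)) * (1 / (σ - 1))) * ‖gl2_Z s₀‖ := by
    have e6 : (σ * (1 / (σ - 1)) * (1 / (σ - 1))) * ((σ - 1) * ((σ - 1) / σ)) = 1 := by
      field_simp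
    exact e6.symm.le.trans (mul_le_mul_of_nonneg_left hlow (by positivity))
  calc 16 * ((|t| + 3) * (|t| + 3)) = 16 * ((|t| + 3) * (|t| + 3)) * 1 := (mul_one _).symm
    _ ≤ 16 * ((|t| + 3) * (|t| + 3)) * ((σ * (1 / (σ - 1)) * (1 / (σ - 1))) * ‖gl2_Z s₀‖) :=
        mul_le_mul_of_nonneg_left e5 (by positivity)
    _ = T * ‖gl2_Z s₀‖ := by rw [hT]; ring
    _ ≤ _ := mul_le_mul_of_nonneg_right hexp hf0.le

/-- Everything for `(s-1) ζ(s)` in the rectangle. -/
theorem INVZ_core : ∃ c C K : ℝ, 0 < c ∧ 0 < C ∧ ∀ Q : ℕ, K ≤ Q → ∀ s ∈ Rg c Q,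
    gl2_Z s ≠ 0 ∧ ‖deriv gl2_Z s / gl2_Z s‖ ≤ C * Real.log Q ∧
      ‖(s - 1) / gl2_Z s‖ ≤ C * Real.log Q := by
  obtain ⟨c₁, K₁, hc₁, hzf⟩ := zero_free_zeta
  obtain ⟨A, hA, hloc⟩ := local_bound
  obtain ⟨Cv, hCv, hvM⟩ := INVZ_vM
  set c₀ : ℝ := min c₁ 1 with hc₀
  have hc₀0 : 0 < c₀ := lt_min hc₁ one_pos
  have hc₀1 : c₀ ≤ 1 := min_le_right _ _
  have hc₀c : c₀ ≤ c₁ := min_le_left _ _
  -- the constants
  set D : ℝ := 30 + 6 / c₀ + Cv with hD
  have hD0 : 0 < D := by positivity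
  have hD30 : 30 ≤ D := by
    have : 0 < 6 / c₀ := by positivity
    rw [hD]
    linarith
  set E : ℝ := Real.exp (A * (D + 1) * 2) with hE
  have hE1 : 0 < E := Real.exp_pos _
  refine ⟨c₀ / 3, D + 2 * A * (D + 1) + 18 * E / c₀, max K₁ (Real.exp 11), by positivity,
    by positivity, ?_⟩
  intro Q hQ s hs
  set L : ℝ := Real.log Q with hL
  have hQe : Real.exp 11 ≤ (Q : ℝ) := (le_max_right _ _).trans hQ
  have hQ1 : K₁ ≤ (Q : ℝ) := (le_max_left _ _).trans hQ
  have hQpos : (0 : ℝ) < Q := lt_of_lt_of_le (Real.exp_pos _) hQe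
  have hL11 : 11 ≤ L := (Real.le_log_iff_exp_le hQpos).2 hQe
  have hQ1' : (1 : ℝ) ≤ Q := (Real.one_le_exp (by norm_num)).trans hQe
  obtain ⟨hs1, hs2, hs3⟩ := hs
  have hs1' : 1 - c₀ / 3 / L ≤ s.re := hs1
  -- zeros
  have hzero : ∀ ρ : ℂ, gl2_Z ρ = 0 → |ρ.im| ≤ (Q : ℝ) ^ 12 + 1 → ρ.re < 1 - c₀ / L := by
    intro ρ hρ hρi
    have h1 := hzf Q hQ1 ρ (lab3_Z_zero ρ hρ) hρi
    have h2 : c₀ / L ≤ c₁ / L := div_le_div_of_nonneg_right hc₀c (by linarith)
    linarith
  have hne : gl2_Z s ≠ 0 := by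
    intro h
    have h1 := hzero s h (by linarith)
    have h2 : c₀ / 3 / L ≤ c₀ / L := by
      apply div_le_div_of_nonneg_right _ (by linarith)
      linarith
    linarith
  have hCfinal0 : 0 ≤ 2 * A * (D + 1) := by positivity
  have hCfinal1 : 0 ≤ 18 * E / c₀ := by positivity
  have hη : 0 < c₀ / 3 / L := by positivity
  have hq : ∀ x : ℝ, x / (c₀ / 3 / L) = 3 * x / c₀ * L := by
    intro x
    rw [div_div_eq_mul_div, div_div_eq_mul_div]
    ring
  refine ⟨hne, ?_⟩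
  by_cases hcase : 1 + c₀ / 3 / L ≤ s.re
  · -- to the right
    have hσ : 1 < s.re := by linarith
    have hne1 : s ≠ 1 := by
      rintro rfl
      simp at hσ
    constructor
    · refine (hvM s hσ hs2).trans ?_
      have h1 : 2 / (s.re - 1) ≤ 2 / (c₀ / 3 / L) :=
        div_le_div_of_nonneg_left (by norm_num) hη (by linarith)
      have h2 : 2 / (c₀ / 3 / L) = 6 / c₀ * L := by
        rw [hq]
        norm_num
      have h3 : Cv ≤ Cv * L := by nlinarith
      have h4 : 0 ≤ 2 * A * (D + 1) * L := by positivity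
      have h5 : 0 ≤ 18 * E / c₀ * L := by positivity
      rw [hD]
      rw [hD] at h4
      nlinarith
    · rw [gl2_Z_eq s hne1]
      have hsub : s - 1 ≠ 0 := sub_ne_zero.2 hne1
      have h0 : (s - 1) / ((s - 1) * riemannZeta s) = (riemannZeta s)⁻¹ := by
        rw [div_mul_eq_div_div, div_self hsub, one_div]
      rw [h0, norm_inv]
      have h1 := INVZ_lower s hσ
      have h2 : 0 < (s.re - 1) / s.re := div_pos (by linarith) (by linarith)
      have h3 : ‖riemannZeta s‖⁻¹ ≤ ((s.re - 1) / s.re)⁻¹ := inv_anti₀ h2 h1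
      refine h3.trans ?_
      rw [inv_div]
      have h4 : s.re / (s.re - 1) ≤ 2 / (c₀ / 3 / L) := by
        apply div_le_div₀ (by norm_num) hs2 hη (by linarith)
      have h5 : 2 / (c₀ / 3 / L) = 6 / c₀ * L := by
        rw [hq]
        norm_num
      rw [h5] at h4
      refine h4.trans ?_
      apply mul_le_mul_of_nonneg_right _ (by linarith)
      rw [hD] at hCfinal0 ⊢
      linarith
  · -- near the line
    push Not at hcase
    set σ₀ : ℝ := 1 + c₀ / 3 / L with hσ₀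
    set t : ℝ := s.im with ht
    set s₀ : ℂ := σ₀ + t * Complex.I with hs₀
    have hre : s₀.re = σ₀ := by simp [hs₀]
    have him : s₀.im = t := by simp [hs₀]
    have hη1 : c₀ / 3 / L ≤ 1 / 33 := by
      rw [div_div, div_le_div_iff₀ (by linarith) (by norm_num)]
      nlinarith
    obtain ⟨hf0, hgrow⟩ := INVZ_growth σ₀ t (by rw [hσ₀]; linarith) (by rw [hσ₀]; linarith)
    set M : ℝ := D * L with hM
    have hlog1 : Real.log (|t| + 3) ≤ 13 * L := by
      have h1 : |t| + 3 ≤ (Q : ℝ) ^ 13 := by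
        have h2 : (3 : ℝ) + 1 ≤ Q := by
          have := Real.add_one_le_exp (11 : ℝ)
          linarith
        have h3 : (1 : ℝ) ≤ (Q : ℝ) ^ 12 := one_le_pow₀ hQ1'
        calc |t| + 3 ≤ (Q : ℝ) ^ 12 + 3 * (Q : ℝ) ^ 12 := by linarith
          _ = 4 * (Q : ℝ) ^ 12 := by ring
          _ ≤ Q * (Q : ℝ) ^ 12 := mul_le_mul_of_nonneg_right (by linarith) (by positivity)
          _ = (Q : ℝ) ^ 13 := by ring
      have h2 := Real.log_le_log (by positivity) h1
      rw [Real.log_pow] at h2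
      push_cast at h2
      exact h2
    have hlog2 : Real.log (1 / (σ₀ - 1)) ≤ 3 / c₀ * L := by
      have h1 : 1 / (σ₀ - 1) = 3 / c₀ * L := by
        rw [hσ₀, add_sub_cancel_left, hq, mul_one]
      rw [h1]
      have h2 : 0 < 3 / c₀ * L := by positivity
      have := Real.log_le_sub_one_of_pos h2
      linarith
    have hMb : 4 + 2 * Real.log (|t| + 3) + 2 * Real.log (1 / (σ₀ - 1)) ≤ M := by
      rw [hM, hD]
      have e1 : 0 ≤ Cv * L := by positivity
      have e2 : (6 : ℝ) / c₀ * L = 2 * (3 / c₀ * L) := by ring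
      nlinarith
    have hM0 : 0 ≤ M := by positivity
    have hder : ‖deriv gl2_Z s₀ / gl2_Z s₀‖ ≤ (M + 1) / (1 / 2) := by
      have h1 := hvM s₀ (by rw [hre, hσ₀]; linarith) (by rw [hre, hσ₀]; linarith)
      refine h1.trans ?_
      have h2 : 2 / (s₀.re - 1) = 6 / c₀ * L := by
        rw [hre, hσ₀, add_sub_cancel_left, hq]
        norm_num
      rw [h2, hM, hD]
      have e1 : Cv ≤ Cv * L := by nlinarith
      have e3 : 0 ≤ 6 / c₀ * L := by positivity
      have e4 : (30 + 6 / c₀ + Cv) * L = 30 * L + 6 / c₀ * L + Cv * L := by ring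
      rw [e4]
      linarith
    set r' : ℝ := 2 * (c₀ / 3 / L) with hr'
    have hsball : s ∈ closedBall s₀ r' := by
      rw [mem_closedBall, dist_eq_norm]
      have h1 : s - s₀ = ((s.re - σ₀ : ℝ) : ℂ) := by
        apply Complex.ext
        · simp [hs₀]
        · simp [hs₀, ht]
      rw [h1, Complex.norm_real, Real.norm_eq_abs, abs_le]
      constructor
      · rw [hr', hσ₀]
        linarith
      · rw [hr']
        linarith
    have hR : (0 : ℝ) < 1 / 2 := by norm_num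
    have hres := hloc gl2_Z s₀ (1 / 2) M r' hR hM0 (by positivity) (by rw [hr']; linarith)
      (fun z _ => gl2_Z_differentiable.analyticAt z) (norm_pos_iff.1 hf0)
      (fun z hz => (hgrow z hz).trans (mul_le_mul_of_nonneg_right (Real.exp_le_exp.2 hMb) hf0.le))
      (by
        intro ρ hρ hρ0
        have h1 : |ρ.im - t| ≤ 1 / 2 / 2 := by
          have := Complex.abs_im_le_norm (ρ - s₀)
          rw [Complex.sub_im, him] at this
          linarith
        have h2 : |ρ.im| ≤ (Q : ℝ) ^ 12 + 1 := by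
          have := abs_sub_abs_le_abs_sub ρ.im t
          linarith
        have h3 := hzero ρ hρ0 h2
        have h4 : c₀ / L = 3 * (c₀ / 3 / L) := by
          field_simp
        rw [hre, hσ₀, hr']
        linarith) hder s hsball
    obtain ⟨-, hd2, hd3⟩ := hres
    have hM1 : M + 1 ≤ (D + 1) * L := by
      rw [hM]
      nlinarith
    constructor
    · refine hd2.trans ?_
      have e1 : A * (M + 1) / (1 / 2) ≤ 2 * A * (D + 1) * L := by
        have : A * (M + 1) ≤ A * ((D + 1) * L) := mul_le_mul_of_nonneg_left hM1 hA.le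
        rw [div_le_iff₀ hR]
        linarith
      refine e1.trans ?_
      apply mul_le_mul_of_nonneg_right _ (by linarith)
      linarith
    · have e1 : A * (M + 1) * r' / (1 / 2) ≤ A * (D + 1) * 2 := by
        have h1 : (M + 1) * r' ≤ (D + 1) := by
          have h2 : (M + 1) * r' ≤ (D + 1) * L * r' :=
            mul_le_mul_of_nonneg_right hM1 (by positivity)
          have h3 : (D + 1) * L * r' = (D + 1) * (2 * c₀ / 3) := by
            rw [hr']
            field_simp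
          rw [h3] at h2
          refine h2.trans ?_
          have h4 : 2 * c₀ / 3 ≤ 1 := by linarith
          nlinarith
        rw [div_le_iff₀ hR]
        have h2 : A * ((M + 1) * r') ≤ A * (D + 1) := mul_le_mul_of_nonneg_left h1 hA.le
        linarith
      have e2 : ‖gl2_Z s₀‖ ≤ E * ‖gl2_Z s‖ :=
        hd3.trans (mul_le_mul_of_nonneg_right (Real.exp_le_exp.2 e1) (norm_nonneg _))
      have hs₀1 : 1 < s₀.re := by
        rw [hre, hσ₀]
        linarith
      have hne1 : s₀ ≠ 1 := by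
        intro h
        rw [h] at hs₀1
        simp at hs₀1
      have e3 : ‖s₀ - 1‖ * ((σ₀ - 1) / σ₀) ≤ ‖gl2_Z s₀‖ := by
        have h1 := INVZ_lower s₀ hs₀1
        rw [hre] at h1
        rw [gl2_Z_eq s₀ hne1, norm_mul]
        exact mul_le_mul_of_nonneg_left h1 (norm_nonneg _)
      have e4 : c₀ / 3 / L ≤ ‖s₀ - 1‖ := by
        have h1 := Complex.re_le_norm (s₀ - 1)
        rw [Complex.sub_re, hre, Complex.one_re, hσ₀] at h1
        linarith
      have e5 : ‖s - 1‖ ≤ 3 * ‖s₀ - 1‖ := by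
        have h1 : ‖s - s₀‖ ≤ r' := by
          rw [← dist_eq_norm]
          exact hsball
        have h2 : ‖s - 1‖ ≤ ‖s - s₀‖ + ‖s₀ - 1‖ := by
          have := norm_add_le (s - s₀) (s₀ - 1)
          rwa [sub_add_sub_cancel] at this
        rw [hr'] at h1
        linarith
      rw [norm_div]
      have hgs : 0 < ‖gl2_Z s‖ := norm_pos_iff.2 hne
      have hs₀n : 0 < ‖s₀ - 1‖ := lt_of_lt_of_le hη e4
      rw [div_le_iff₀ hgs]
      -- `‖s-1‖ ≤ 3 ‖s₀-1‖ ≤ 3 σ₀/(σ₀-1) ‖gl2_Z s₀‖ ≤ 3 σ₀/(σ₀-1) E ‖gl2_Z s‖`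
      have e6 : (σ₀ - 1) / σ₀ = (c₀ / 3 / L) / σ₀ := by
        rw [hσ₀]
        ring
      have hσ₀2 : σ₀ ≤ 2 := by
        rw [hσ₀]
        linarith
      have hσ₀0 : 0 < σ₀ := by
        rw [hσ₀]
        linarith
      have e7 : ‖s₀ - 1‖ ≤ 6 * L / c₀ * ‖gl2_Z s₀‖ := by
        rw [e6] at e3
        have h1 : (c₀ / 3 / L) / 2 ≤ (c₀ / 3 / L) / σ₀ :=
          div_le_div_of_nonneg_left hη.le hσ₀0 hσ₀2
        have h2 : ‖s₀ - 1‖ * ((c₀ / 3 / L) / 2) ≤ ‖gl2_Z s₀‖ :=
          (mul_le_mul_of_nonneg_left h1 hs₀n.le).trans e3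
        have h3 : (c₀ / 3 / L) / 2 = c₀ / (6 * L) := by
          field_simp
          ring
        rw [h3] at h2
        have h4 : ‖s₀ - 1‖ = 6 * L / c₀ * (‖s₀ - 1‖ * (c₀ / (6 * L))) := by
          field_simp
        rw [h4]
        exact mul_le_mul_of_nonneg_left h2 (by positivity)
      calc ‖s - 1‖ ≤ 3 * ‖s₀ - 1‖ := e5
        _ ≤ 3 * (6 * L / c₀ * ‖gl2_Z s₀‖) := by linarith
        _ ≤ 3 * (6 * L / c₀ * (E * ‖gl2_Z s‖)) := by
            have : 6 * L / c₀ * ‖gl2_Z s₀‖ ≤ 6 * L / c₀ * (E * ‖gl2_Z s‖) :=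
              mul_le_mul_of_nonneg_left e2 (by positivity)
            linarith
        _ = 18 * E / c₀ * L * ‖gl2_Z s‖ := by ring
        _ ≤ (D + 2 * A * (D + 1) + 18 * E / c₀) * L * ‖gl2_Z s‖ := by
            apply mul_le_mul_of_nonneg_right _ hgs.le
            apply mul_le_mul_of_nonneg_right _ (by linarith)
            linarith

/-- `f(s) = (s-1) ζ(s)`, `f(1) = 1`, entire; zeros of `f` = zeros of `ζ`. As in `inv_char` with
`zero_free_zeta`: `local_bound` for `f` at `s₀ = 1 + c₁/(3L) + it`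
(`‖f'/f(s₀)‖ ≤ 1/(σ₀-1) + L_Λ(σ₀)`, `‖f(s₀)‖ ≥ (σ₀-1)²/σ₀`). `g = (s-1)/f(s)`; since
`|s - 1| ≤ 4 |s₀ - 1|`, `‖g(s)‖ ≤ 4 ‖s₀-1‖ e^(C'')/‖f(s₀)‖ = 4 e^(C'')/‖ζ(s₀)‖ ≤ C L`. -/
theorem inv_zeta : ∃ c' C K : ℝ, 0 < c' ∧ 0 < C ∧ ∀ Q : ℕ, K ≤ Q → InvStmt c' C Q p0 := by
  obtain ⟨c, C, K, hc, hC, h⟩ := INVZ_core
  refine ⟨c, C, K, hc, hC, fun Q hQ => ⟨fun s => (s - 1) / gl2_Z s, ?_, ?_, ?_⟩⟩
  · intro s hs
    refine AnalyticAt.div (by fun_prop) (gl2_Z_differentiable.analyticAt s) (h Q hQ s hs).1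
  · intro s hs
    have hne1 : s ≠ 1 := by
      rintro rfl
      simp at hs
    have hsub : s - 1 ≠ 0 := sub_ne_zero.2 hne1
    have hz : riemannZeta s ≠ 0 := riemannZeta_ne_zero_of_one_le_re hs.le
    have h1 := DirichletCharacter.LSeries.mul_mu_eq_one (1 : DirichletCharacter ℂ 1) hs
    have e2 : LSeries (fun n => (1 : DirichletCharacter ℂ 1) (n : ZMod 1)) s = riemannZeta s := by
      rw [← DirichletCharacter.LFunction_eq_LSeries (1 : DirichletCharacter ℂ 1) hs,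
        DirichletCharacter.LFunction_modOne_eq]
    rw [e2] at h1
    have e3 : LSeries ((fun n : ℕ => (1 : DirichletCharacter ℂ 1) (n : ZMod 1)) *
        fun n : ℕ => ((ArithmeticFunction.moebius n : ℤ) : ℂ)) s =
        LSeries (fun n => (ArithmeticFunction.moebius n : ℂ) * p0.2 (n : ZMod p0.1)) s := by
      congr 1
      funext n
      rw [Pi.mul_apply, mul_comm]
      rfl
    rw [e3] at h1
    have e4 : (s - 1) / gl2_Z s = (riemannZeta s)⁻¹ := by
      rw [gl2_Z_eq s hne1, div_mul_eq_div_div, div_self hsub, one_div]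
    simp only [e4]
    exact (eq_inv_of_mul_eq_one_right h1).symm
  · intro s hs
    exact (h Q hQ s hs).2.2

/-- `g = -f'/f = -ζ'/ζ - 1/(s-1)`; for `Re s ≥ 1 + c₁/(3L)` it is at most
`L_Λ(Re s) + 1/(Re s - 1)`. -/
theorem zeta_stmt : ∃ c' C K : ℝ, 0 < c' ∧ 0 < C ∧ ∀ Q : ℕ, K ≤ Q → ZetaStmt c' C Q := by
  obtain ⟨c, C, K, hc, hC, h⟩ := INVZ_core
  refine ⟨c, C, K, hc, hC, fun Q hQ => ⟨fun s => -(deriv gl2_Z s / gl2_Z s), ?_, ?_, ?_⟩⟩
  · intro s hs
    have han := gl2_Z_differentiable.analyticAt s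
    exact (AnalyticAt.div han.deriv han (h Q hQ s hs).1).neg
  · intro s hs
    rw [lab1_Z s hs, logDeriv_apply]
    ring
  · intro s hs
    rw [norm_neg]
    exact (h Q hQ s hs).2.1

end Pool.Agent.Lib.H68T
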