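import Pool.Agent.Lib.H68T.INVS
import Pool.Agent.Lib.H68T.INV
import Pool.Agent.Lib.H68T.INVZ

/-!
# Chunk INVA: assembly of the zero-free region part
-/

namespace Pool.Agent.Lib.H68T

theorem INVA_Rg_mono {c c' : ℝ} (hcc : c' ≤ c) (Q : ℕ) : Rg c' Q ⊆ Rg c Q := by
  rintro s ⟨h1, h2, h3⟩
  have hL : 0 ≤ Real.log Q := Real.log_natCast_nonneg Q
  refine ⟨?_, h2, h3⟩
  have := div_le_div_of_nonneg_right hcc hL
  linarith

theorem INVA_mono {c c' C C' : ℝ} (hcc : c' ≤ c) (hCC : C ≤ C') {Q : ℕ}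
    {p : Σ r : ℕ, DirichletCharacter ℂ r} (h : InvStmt c C Q p) : InvStmt c' C' Q p := by
  obtain ⟨g, h1, h2, h3⟩ := h
  have hL : 0 ≤ Real.log Q := Real.log_natCast_nonneg Q
  exact ⟨g, fun s hs => h1 s (INVA_Rg_mono hcc Q hs), h2, fun s hs =>
    (h3 s (INVA_Rg_mono hcc Q hs)).trans (mul_le_mul_of_nonneg_right hCC hL)⟩

/-- `InvStmt` for all primitive characters of conductor at most `Q`: `inv_char` for `p ≠ p0` (then
`p.2 ≠ 1` since a primitive trivial character has conductor `1`), `inv_zeta` for `p0`. -/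
theorem inv_all (c : ℝ) (hc : 0 < c) : ∃ c' C K : ℝ, 0 < c' ∧ 0 < C ∧ ∀ Q : ℕ, K ≤ Q → Good c Q →
    ∀ p ∈ PC Q, InvStmt c' C Q p := by
  obtain ⟨c₁, C₁, K₁, hc₁, hC₁, h₁⟩ := inv_char c hc
  obtain ⟨c₂, C₂, K₂, hc₂, hC₂, h₂⟩ := inv_zeta
  refine ⟨min c₁ c₂, max C₁ C₂, max K₁ K₂, lt_min hc₁ hc₂, lt_max_of_lt_left hC₁, ?_⟩
  intro Q hQ hG p hp
  obtain ⟨r, ψ⟩ := p
  obtain ⟨hr1, hr2, hprim⟩ := mem_PC.mp hp
  have hr1' : 1 ≤ r := hr1
  have hne : NeZero r := ⟨by omega⟩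
  by_cases hψ : ψ = 1
  · have hr : r = 1 := by
      have h3 : ψ.conductor = r := hprim
      rw [hψ, DirichletCharacter.conductor_one] at h3
      exact h3.symm
    subst hr
    have hp0 : (⟨1, ψ⟩ : Σ r : ℕ, DirichletCharacter ℂ r) = p0 := by
      rw [hψ]
      rfl
    rw [hp0]
    exact INVA_mono (min_le_right _ _) (le_max_right _ _) (h₂ Q ((le_max_right _ _).trans hQ))
  · exact INVA_mono (min_le_left _ _) (le_max_left _ _)
      (h₁ Q ((le_max_left _ _).trans hQ) hG r ψ hr2 hprim hψ)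

theorem zeta_all : ∃ c' C K : ℝ, 0 < c' ∧ 0 < C ∧ ∀ Q : ℕ, K ≤ Q → ZetaStmt c' C Q :=
  zeta_stmt

end Pool.Agent.Lib.H68T
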