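import Pool.Agent.Lib.H68T.RegL

/-!
# Chunk MAINI: the main part as an integral of products
-/

open Finset MeasureTheory

namespace Pool.Agent.Lib.H68T

open scoped FourierTransform SchwartzMap ContDiff

/-! ### The bump as a Fourier integral -/

theorem MAINI_w_zero {y : ℝ} (hy : y ≤ -2 ∨ 4 ≤ y) : w y = 0 := by
  unfold w
  rcases hy with h | h
  · rw [Real.smoothTransition.zero_of_nonpos (by linarith), zero_mul]
  · rw [Real.smoothTransition.zero_of_nonpos (x := 4 - y) (by linarith), mul_zero]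

theorem MAINI_w_rep : ∃ (W : ℝ → ℂ) (C : ℝ), 0 < C ∧ Continuous W ∧
    (∀ τ, ‖W τ‖ ≤ C * (1 + τ ^ 2)⁻¹) ∧
    ∀ y : ℝ, (w y : ℂ) = ∫ τ : ℝ, W τ * Complex.exp ((τ * y : ℝ) * Complex.I) := by
  have hc : HasCompactSupport (fun y : ℝ => (w y : ℂ)) := by
    refine HasCompactSupport.of_support_subset_isCompact (isCompact_Icc (a := (-2 : ℝ)) (b := 4)) ?_
    intro y hy
    rw [Function.mem_support] at hy
    by_contra hcon
    apply hy
    rw [Set.mem_Icc, not_and_or, not_le, not_le] at hcon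
    rw [MAINI_w_zero (hcon.imp le_of_lt le_of_lt), Complex.ofReal_zero]
  have hs : ContDiff ℝ ∞ (fun y : ℝ => (w y : ℂ)) := by
    have h1 : ContDiff ℝ ∞ w := by
      unfold w
      refine ContDiff.mul ?_ ?_
      · exact Real.smoothTransition.contDiff.comp (by fun_prop)
      · exact Real.smoothTransition.contDiff.comp (by fun_prop)
    exact Complex.ofRealCLM.contDiff.comp h1
  set f : 𝓢(ℝ, ℂ) := hc.toSchwartzMap hs with hf
  set F : 𝓢(ℝ, ℂ) := 𝓕 f with hF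
  have hfF : f = 𝓕⁻ F := (FourierTransform.fourierInv_fourier_eq f).symm
  obtain ⟨C0, hC0, h0⟩ := F.decay 0 0
  obtain ⟨C2, hC2, h2⟩ := F.decay 2 0
  have hFb : ∀ x : ℝ, (1 + x ^ 2) * ‖F x‖ ≤ C0 + C2 := by
    intro x
    have h3 := h0 x
    have h4 := h2 x
    rw [norm_iteratedFDeriv_zero] at h3 h4
    rw [pow_zero, one_mul] at h3
    rw [Real.norm_eq_abs, sq_abs] at h4
    linarith
  refine ⟨fun τ => (1 / (2 * Real.pi) : ℂ) * F (τ / (2 * Real.pi)), 4 * Real.pi ^ 2 * (C0 + C2),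
    by positivity, ?_, ?_, ?_⟩
  · have : Continuous F := F.continuous
    fun_prop
  · intro τ
    have hpi : 1 ≤ 2 * Real.pi := by
      have := Real.pi_gt_three
      linarith
    set x : ℝ := τ / (2 * Real.pi) with hx
    have hτ : τ = 2 * Real.pi * x := by
      rw [hx]
      field_simp
    have h3 := hFb x
    have h4 : ‖(1 / (2 * Real.pi) : ℂ)‖ ≤ 1 := by
      rw [norm_div, norm_one, norm_mul]
      simp only [Complex.norm_ofNat, Complex.norm_real, Real.norm_of_nonneg Real.pi_pos.le]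
      rw [div_le_one (by linarith)]
      exact hpi
    rw [norm_mul]
    have h5 : (1 + τ ^ 2) ≤ 4 * Real.pi ^ 2 * (1 + x ^ 2) := by
      rw [hτ]
      nlinarith
    have h6 : 0 < 1 + τ ^ 2 := by positivity
    rw [← div_eq_mul_inv, le_div_iff₀ h6]
    have h7 : 0 ≤ ‖F x‖ := norm_nonneg _
    calc ‖(1 / (2 * Real.pi) : ℂ)‖ * ‖F x‖ * (1 + τ ^ 2) ≤ 1 * ‖F x‖ * (1 + τ ^ 2) := by
          gcongr
      _ ≤ ‖F x‖ * (4 * Real.pi ^ 2 * (1 + x ^ 2)) := by
          rw [one_mul]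
          exact mul_le_mul_of_nonneg_left h5 h7
      _ = 4 * Real.pi ^ 2 * ((1 + x ^ 2) * ‖F x‖) := by ring
      _ ≤ 4 * Real.pi ^ 2 * (C0 + C2) := by gcongr
  · intro y
    have h1 : (w y : ℂ) = f y := rfl
    rw [h1, hfF, SchwartzMap.fourierInv_coe, Real.fourierInv_eq']
    have h3 := MeasureTheory.Measure.integral_comp_div
      (fun v : ℝ => Complex.exp ((2 * Real.pi * inner ℝ v y : ℝ) * Complex.I) • F v)
      (2 * Real.pi)
    have hpi : 0 < 2 * Real.pi := by positivity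
    rw [abs_of_pos hpi] at h3
    have h4 : (∫ v : ℝ, Complex.exp ((2 * Real.pi * inner ℝ v y : ℝ) * Complex.I) • F v) =
        (2 * Real.pi)⁻¹ • ∫ x : ℝ, Complex.exp ((2 * Real.pi *
          inner ℝ (x / (2 * Real.pi)) y : ℝ) * Complex.I) • F (x / (2 * Real.pi)) := by
      rw [h3, smul_smul, inv_mul_cancel₀ hpi.ne', one_smul]
    rw [h4, ← integral_smul]
    refine integral_congr_ae (Filter.Eventually.of_forall fun τ => ?_)
    simp only [smul_eq_mul, Complex.real_smul]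
    have h5 : (2 * Real.pi * inner ℝ (τ / (2 * Real.pi)) y : ℝ) = τ * y := by
      rw [real_inner_eq_re_inner]
      simp
      field_simp
    rw [h5]
    push_cast
    ring

/-! ### Dirichlet series of finitely supported twisted functions -/

/-- the twist of a real arithmetic function by a character -/
noncomputable def MAINI_tw {r : ℕ} (ψ : DirichletCharacter ℂ r) (f : ArithmeticFunction ℝ) :
    ArithmeticFunction ℂ :=
  ⟨fun n => (f n : ℂ) * ψ (n : ZMod r), by simp⟩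

theorem MAINI_tw_apply {r : ℕ} (ψ : DirichletCharacter ℂ r) (f : ArithmeticFunction ℝ) (n : ℕ) :
    MAINI_tw ψ f n = (f n : ℂ) * ψ (n : ZMod r) := rfl

theorem MAINI_tw_mul {r : ℕ} (ψ : DirichletCharacter ℂ r) (f g : ArithmeticFunction ℝ) :
    MAINI_tw ψ (f * g) = MAINI_tw ψ f * MAINI_tw ψ g := by
  ext n
  rw [MAINI_tw_apply, ArithmeticFunction.mul_apply, ArithmeticFunction.mul_apply]
  push_cast
  rw [Finset.sum_mul]
  refine Finset.sum_congr rfl fun x hx => ?_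
  rw [MAINI_tw_apply, MAINI_tw_apply]
  have h1 := (Nat.mem_divisorsAntidiagonal.mp hx).1
  rw [← h1]
  push_cast
  rw [map_mul]
  ring

/-- finitely supported -/
def MAINI_FS (f : ArithmeticFunction ℝ) (N : ℕ) : Prop := ∀ n, N < n → f n = 0

theorem MAINI_FS_mul {f g : ArithmeticFunction ℝ} {M N : ℕ} (hf : MAINI_FS f M)
    (hg : MAINI_FS g N) : MAINI_FS (f * g) (M * N) := by
  intro n hn
  rw [ArithmeticFunction.mul_apply]
  refine Finset.sum_eq_zero fun x hx => ?_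
  have h1 := (Nat.mem_divisorsAntidiagonal.mp hx).1
  by_contra hcon
  have h2 : x.1 ≤ M := by
    by_contra h
    push Not at h
    rw [hf _ h, zero_mul] at hcon
    exact hcon rfl
  have h3 : x.2 ≤ N := by
    by_contra h
    push Not at h
    rw [hg _ h, mul_zero] at hcon
    exact hcon rfl
  have := Nat.mul_le_mul h2 h3
  omega

theorem MAINI_term_zero {r : ℕ} (ψ : DirichletCharacter ℂ r) {f : ArithmeticFunction ℝ} {N : ℕ}
    (hf : MAINI_FS f N) (s : ℂ) (n : ℕ) (hn : n ∉ Icc 1 N) :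
    LSeries.term (fun n => MAINI_tw ψ f n) s n = 0 := by
  rcases Nat.eq_zero_or_pos n with h | h
  · rw [h, LSeries.term_zero]
  · have h1 : N < n := by
      by_contra hcon
      exact hn (mem_Icc.mpr ⟨h, by omega⟩)
    rw [LSeries.term_of_ne_zero (by omega), MAINI_tw_apply, hf n h1]
    simp

theorem MAINI_summable {r : ℕ} (ψ : DirichletCharacter ℂ r) {f : ArithmeticFunction ℝ} {N : ℕ}
    (hf : MAINI_FS f N) (s : ℂ) : LSeriesSummable (fun n => MAINI_tw ψ f n) s :=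
  summable_of_ne_finset_zero (s := Icc 1 N) fun n hn => MAINI_term_zero ψ hf s n hn

theorem MAINI_series {r : ℕ} (ψ : DirichletCharacter ℂ r) {f : ArithmeticFunction ℝ} {N : ℕ}
    (hf : MAINI_FS f N) (s : ℂ) : LSeries (fun n => MAINI_tw ψ f n) s =
      ∑ n ∈ Icc 1 N, (f n : ℂ) * ψ (n : ZMod r) * (n : ℂ) ^ (-s) := by
  rw [LSeries, tsum_eq_sum (s := Icc 1 N) fun n hn => MAINI_term_zero ψ hf s n hn]
  refine Finset.sum_congr rfl fun n hn => ?_
  rw [mem_Icc] at hn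
  rw [LSeries.term_of_ne_zero (by omega), MAINI_tw_apply, Complex.cpow_neg, div_eq_mul_inv]

theorem MAINI_series_mul {r : ℕ} (ψ : DirichletCharacter ℂ r) {f g : ArithmeticFunction ℝ}
    {M N : ℕ} (hf : MAINI_FS f M) (hg : MAINI_FS g N) (s : ℂ) :
    LSeries (fun n => MAINI_tw ψ (f * g) n) s =
      LSeries (fun n => MAINI_tw ψ f n) s * LSeries (fun n => MAINI_tw ψ g n) s := by
  rw [MAINI_tw_mul]
  exact ArithmeticFunction.LSeries_mul' (MAINI_summable ψ hf s) (MAINI_summable ψ hg s)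

theorem MAINI_norm_cpow {n : ℕ} (hn : 1 ≤ n) (t : ℝ) :
    ‖(n : ℂ) ^ (-(1 + t * Complex.I))‖ = (n : ℝ)⁻¹ := by
  have h0 : (0 : ℝ) < n := by exact_mod_cast hn
  have h1 : ((n : ℝ) : ℂ) = (n : ℂ) := by simp
  rw [← h1, Complex.norm_cpow_eq_rpow_re_of_pos h0]
  simp [Real.rpow_neg_one]

theorem MAINI_harm (N : ℕ) : ∑ n ∈ Icc 1 N, (n : ℝ)⁻¹ ≤ 1 + Real.log N := by
  have h := harmonic_le_one_add_log N
  rw [harmonic_eq_sum_Icc] at h
  push_cast at h
  exact h

theorem MAINI_series_le {r : ℕ} (ψ : DirichletCharacter ℂ r) {f : ArithmeticFunction ℝ} {N : ℕ}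
    (hf : MAINI_FS f N) {B : ℝ} (hB : ∀ n ∈ Icc 1 N, |f n| ≤ B) (hB0 : 0 ≤ B) (t : ℝ) :
    ‖LSeries (fun n => MAINI_tw ψ f n) (1 + t * Complex.I)‖ ≤ B * (1 + Real.log N) := by
  rw [MAINI_series ψ hf]
  calc ‖∑ n ∈ Icc 1 N, (f n : ℂ) * ψ (n : ZMod r) * (n : ℂ) ^ (-(1 + t * Complex.I))‖
      ≤ ∑ n ∈ Icc 1 N, ‖(f n : ℂ) * ψ (n : ZMod r) * (n : ℂ) ^ (-(1 + t * Complex.I))‖ :=
        norm_sum_le _ _
    _ ≤ ∑ n ∈ Icc 1 N, B * (n : ℝ)⁻¹ := by
        refine Finset.sum_le_sum fun n hn => ?_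
        have hn1 := (mem_Icc.mp hn).1
        rw [norm_mul, norm_mul, MAINI_norm_cpow hn1]
        have h1 : ‖(f n : ℂ)‖ ≤ B := by
          rw [Complex.norm_real, Real.norm_eq_abs]
          exact hB n hn
        have h2 : ‖ψ (n : ZMod r)‖ ≤ 1 := ψ.norm_le_one _
        have h3 : (0 : ℝ) ≤ (n : ℝ)⁻¹ := by positivity
        have h4 : ‖(f n : ℂ)‖ * ‖ψ (n : ZMod r)‖ ≤ B * 1 :=
          mul_le_mul h1 h2 (norm_nonneg _) hB0
        rw [mul_one] at h4
        exact mul_le_mul_of_nonneg_right h4 h3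
    _ = B * ∑ n ∈ Icc 1 N, (n : ℝ)⁻¹ := by rw [Finset.mul_sum]
    _ ≤ B * (1 + Real.log N) := mul_le_mul_of_nonneg_left (MAINI_harm N) hB0

/-! ### The Möbius polynomial -/

theorem continuous_Mu (X : ℕ) (p : Σ r : ℕ, DirichletCharacter ℂ r) : Continuous (Mu X p) := by
  unfold Mu
  refine continuous_finsetSum _ fun a _ => ?_
  refine Continuous.mul continuous_const ?_
  refine Continuous.const_cpow (by fun_prop) (Or.inr fun t h => ?_)
  have h1 := congrArg Complex.re h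
  simp at h1

/-- Trivial bound: `‖M_ψ(t)‖ ≤ 1 + log V ≤ 1 + log (60 X)`. -/
theorem Mu_le (X : ℕ) (p : Σ r : ℕ, DirichletCharacter ℂ r) (t : ℝ) (hX : 1 ≤ X) :
    ‖Mu X p t‖ ≤ 1 + Real.log (60 * X) := by
  have hX' : (1 : ℝ) ≤ X := by exact_mod_cast hX
  have hAA : 1 ≤ AA X := by
    unfold AA
    rw [Nat.one_le_ceil_iff]
    positivity
  have hVV : (VV X : ℝ) ≤ 60 * X := by
    unfold VV
    have h1 : (1 : ℝ) ≤ ((60 * X : ℕ) : ℝ) := by
      push_cast
      linarith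
    refine (Nat.floor_le (by positivity)).trans ?_
    calc ((60 * X : ℕ) : ℝ) ^ ((1 : ℝ) / 3) ≤ ((60 * X : ℕ) : ℝ) ^ (1 : ℝ) :=
          Real.rpow_le_rpow_of_exponent_le h1 (by norm_num)
      _ = 60 * X := by
          rw [Real.rpow_one]
          push_cast
          ring
  unfold Mu
  calc ‖∑ a ∈ Icc (AA X) (VV X), (ArithmeticFunction.moebius a : ℂ) * p.2 (a : ZMod p.1) *
        (a : ℂ) ^ (-(1 + t * Complex.I))‖
      ≤ ∑ a ∈ Icc (AA X) (VV X), (a : ℝ)⁻¹ := by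
        refine (norm_sum_le _ _).trans (Finset.sum_le_sum fun a ha => ?_)
        have ha1 : 1 ≤ a := hAA.trans (mem_Icc.mp ha).1
        rw [norm_mul, norm_mul, MAINI_norm_cpow ha1]
        have h1 : ‖(ArithmeticFunction.moebius a : ℂ)‖ ≤ 1 := by
          have h3 := ArithmeticFunction.abs_moebius_le_one (n := a)
          have h4 : ‖(ArithmeticFunction.moebius a : ℂ)‖ =
              ((|ArithmeticFunction.moebius a| : ℤ) : ℝ) := by
            rw [Complex.norm_intCast, Int.cast_abs]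
          rw [h4]
          exact_mod_cast h3
        have h2 : ‖p.2 (a : ZMod p.1)‖ ≤ 1 := p.2.norm_le_one _
        have h3 : (0 : ℝ) ≤ (a : ℝ)⁻¹ := by positivity
        have h4 : ‖(ArithmeticFunction.moebius a : ℂ)‖ * ‖p.2 (a : ZMod p.1)‖ ≤ 1 * 1 :=
          mul_le_mul h1 h2 (norm_nonneg _) zero_le_one
        rw [mul_one] at h4
        calc _ ≤ 1 * (a : ℝ)⁻¹ := mul_le_mul_of_nonneg_right h4 h3
          _ = _ := one_mul _
    _ ≤ ∑ a ∈ Icc 1 (VV X), (a : ℝ)⁻¹ := by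
        refine Finset.sum_le_sum_of_subset_of_nonneg (Finset.Icc_subset_Icc_left hAA) ?_
        intro a _ _
        positivity
    _ ≤ 1 + Real.log (VV X) := MAINI_harm _
    _ ≤ 1 + Real.log (60 * X) := by
        rcases Nat.eq_zero_or_pos (VV X) with h | h
        · rw [h]
          have : 0 ≤ Real.log (60 * (X : ℝ)) := Real.log_nonneg (by linarith)
          simpa using this
        · have h1 : (0 : ℝ) < VV X := by exact_mod_cast h
          have := Real.log_le_log h1 hVV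
          linarith

/-! ### The three kinds of factors -/

theorem MAINI_af_apply (f : ℕ → ℝ) {n : ℕ} (hn : 1 ≤ n) : af f n = f n := by
  have h : af f n = if n = 0 then 0 else f n := rfl
  rw [h, if_neg (by omega)]

theorem MAINI_series_Mu (X : ℕ) (p : Σ r : ℕ, DirichletCharacter ℂ r) (hX : 1 ≤ X) (t : ℝ) :
    MAINI_FS (af (fun a => if AA X ≤ a ∧ a ≤ VV X then (ArithmeticFunction.moebius a : ℝ) else 0))
      (VV X) ∧
    LSeries (fun n => MAINI_tw p.2 (af (fun a => if AA X ≤ a ∧ a ≤ VV X then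
      (ArithmeticFunction.moebius a : ℝ) else 0)) n) (1 + t * Complex.I) = Mu X p t := by
  have hX' : (1 : ℝ) ≤ X := by exact_mod_cast hX
  have hAA : 1 ≤ AA X := by
    unfold AA
    rw [Nat.one_le_ceil_iff]
    positivity
  have hFS : MAINI_FS (af (fun a => if AA X ≤ a ∧ a ≤ VV X then
      (ArithmeticFunction.moebius a : ℝ) else 0)) (VV X) := by
    intro n hn
    rw [MAINI_af_apply _ (by omega), if_neg (by omega)]
  refine ⟨hFS, ?_⟩
  rw [MAINI_series p.2 hFS]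
  unfold Mu
  symm
  rw [← Finset.sum_subset (Finset.Icc_subset_Icc_left hAA)]
  · refine Finset.sum_congr rfl fun a ha => ?_
    obtain ⟨h1, h2⟩ := mem_Icc.mp ha
    rw [MAINI_af_apply _ (hAA.trans h1), if_pos ⟨h1, h2⟩]
    simp
  · intro a ha hna
    obtain ⟨h1, h2⟩ := mem_Icc.mp ha
    have h3 : ¬ (AA X ≤ a ∧ a ≤ VV X) := fun h => hna (mem_Icc.mpr h)
    rw [MAINI_af_apply _ h1, if_neg h3]
    simp

theorem MAINI_rho_bd (Q n : ℕ) : 0 ≤ rho Q n ∧ rho Q n ≤ 1 := by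
  unfold rho
  have h1 := Real.smoothTransition.le_one (Real.log ((n : ℝ) / (Q : ℝ) ^ 20))
  have h2 := Real.smoothTransition.nonneg (Real.log ((n : ℝ) / (Q : ℝ) ^ 20))
  constructor <;> linarith

theorem MAINI_rho_zero {Q n : ℕ} (hQ : 1 ≤ Q) (hn : 3 * Q ^ 20 < n) : rho Q n = 0 := by
  unfold rho
  have hQ' : (0 : ℝ) < (Q : ℝ) ^ 20 := by positivity
  have hn' : (3 : ℝ) * (Q : ℝ) ^ 20 < n := by exact_mod_cast hn
  have h1 : 1 ≤ Real.log ((n : ℝ) / (Q : ℝ) ^ 20) := by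
    have h2 : (3 : ℝ) ≤ (n : ℝ) / (Q : ℝ) ^ 20 := by
      rw [le_div_iff₀ hQ']
      exact hn'.le
    rw [Real.le_log_iff_exp_le (by linarith)]
    have := Real.exp_one_lt_d9
    linarith
  rw [Real.smoothTransition.one_of_one_le h1, sub_self]

theorem MAINI_FS_rho {Q : ℕ} (hQ : 1 ≤ Q) : MAINI_FS (af (rho Q)) (3 * Q ^ 20) := by
  intro n hn
  rw [MAINI_af_apply _ (by omega), MAINI_rho_zero hQ hn]

theorem MAINI_FS_rholog {Q : ℕ} (hQ : 1 ≤ Q) :
    MAINI_FS (af (fun n => rho Q n * Real.log n)) (3 * Q ^ 20) := by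
  intro n hn
  rw [MAINI_af_apply _ (by omega), MAINI_rho_zero hQ hn, zero_mul]

theorem MAINI_logbound {Q X : ℕ} (h : Reg 100 Q X) :
    1 + Real.log ((3 * Q ^ 20 : ℕ) : ℝ) ≤ Real.log X ∧ 1 ≤ Real.log X := by
  have h1 := h.logX_ge (by norm_num)
  have h2 := h.logQ_le (by norm_num)
  have hQ := h.Q_pos (by norm_num)
  have hQ' : (0 : ℝ) < Q := by exact_mod_cast hQ
  have h3 : (101 : ℝ) ≤ Real.exp 100 := by
    have := Real.add_one_le_exp (100 : ℝ)
    linarith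
  have h4 : Real.log 3 ≤ 2 := by
    have := Real.log_le_sub_one_of_pos (x := (3 : ℝ)) (by norm_num)
    linarith
  have h5 : Real.log ((3 * Q ^ 20 : ℕ) : ℝ) = Real.log 3 + 20 * Real.log Q := by
    push_cast
    rw [Real.log_mul (by norm_num) (by positivity), Real.log_pow]
    push_cast
    ring
  rw [h5]
  constructor <;> linarith

theorem MAINI_hmain_norm {Q X : ℕ} (h : Reg 100 Q X) (p : Σ r : ℕ, DirichletCharacter ℂ r)
    (t : ℝ) : ‖LSeries (fun n => MAINI_tw p.2 (hmain Q X) n) (1 + t * Complex.I)‖ ≤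
      (Real.log X) ^ (4 : ℝ) * ‖Mu X p t‖ ^ 3 := by
  have hX : 1 ≤ X := h.X_pos (by norm_num)
  have hQ : 1 ≤ Q := h.Q_pos (by norm_num)
  obtain ⟨hl1, hl2⟩ := MAINI_logbound h
  obtain ⟨hF1, hM⟩ := MAINI_series_Mu X p hX t
  have hF2 := MAINI_FS_rho hQ
  have hF3 := MAINI_FS_rholog hQ
  set f1 := af (fun a => if AA X ≤ a ∧ a ≤ VV X then (ArithmeticFunction.moebius a : ℝ) else 0)
    with hf1
  set f2 := af (rho Q) with hf2
  set f3 := af (fun n => rho Q n * Real.log n) with hf3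
  have hm : hmain Q X = f1 * f1 * f1 * (f2 * f2) * f3 := by
    unfold hmain
    rw [← hf1, ← hf2, ← hf3]
    ring
  have hF11 := MAINI_FS_mul hF1 hF1
  have hF111 := MAINI_FS_mul hF11 hF1
  have hF22 := MAINI_FS_mul hF2 hF2
  have hF12 := MAINI_FS_mul hF111 hF22
  rw [hm, MAINI_series_mul p.2 hF12 hF3, MAINI_series_mul p.2 hF111 hF22,
    MAINI_series_mul p.2 hF11 hF1, MAINI_series_mul p.2 hF1 hF1, MAINI_series_mul p.2 hF2 hF2, hM]
  have hN : ‖LSeries (fun n => MAINI_tw p.2 f2 n) (1 + t * Complex.I)‖ ≤ Real.log X := by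
    refine (MAINI_series_le p.2 hF2 (B := 1) ?_ zero_le_one t).trans (by linarith)
    intro n hn
    rw [hf2, MAINI_af_apply _ (mem_Icc.mp hn).1, abs_le]
    have := MAINI_rho_bd Q n
    constructor <;> linarith
  have hN' : ‖LSeries (fun n => MAINI_tw p.2 f3 n) (1 + t * Complex.I)‖ ≤
      Real.log X * Real.log X := by
    refine (MAINI_series_le p.2 hF3 (B := Real.log X) ?_ (by linarith) t).trans
      (mul_le_mul_of_nonneg_left hl1 (by linarith))
    intro n hn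
    obtain ⟨hn1, hn2⟩ := mem_Icc.mp hn
    have hn1' : (1 : ℝ) ≤ n := by exact_mod_cast hn1
    have hn2' : (n : ℝ) ≤ ((3 * Q ^ 20 : ℕ) : ℝ) := by exact_mod_cast hn2
    have h5 : 0 ≤ Real.log n := Real.log_nonneg hn1'
    have h6 : Real.log n ≤ Real.log ((3 * Q ^ 20 : ℕ) : ℝ) :=
      Real.log_le_log (by linarith) hn2'
    obtain ⟨h7, h8⟩ := MAINI_rho_bd Q n
    rw [hf3, MAINI_af_apply _ hn1, abs_of_nonneg (mul_nonneg h7 h5)]
    nlinarith
  rw [norm_mul, norm_mul, norm_mul, norm_mul, norm_mul]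
  set N := ‖LSeries (fun n => MAINI_tw p.2 f2 n) (1 + t * Complex.I)‖ with hNdef
  set N' := ‖LSeries (fun n => MAINI_tw p.2 f3 n) (1 + t * Complex.I)‖ with hNdef'
  have h0 : 0 ≤ N := norm_nonneg _
  have h0' : 0 ≤ N' := norm_nonneg _
  have h4 : (Real.log X) ^ (4 : ℝ) = Real.log X * Real.log X * (Real.log X * Real.log X) := by
    have : (Real.log X) ^ (4 : ℝ) = (Real.log X) ^ (4 : ℕ) := by
      rw [← Real.rpow_natCast]
      norm_num
    rw [this]
    ring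
  rw [h4]
  have h5 : N * N ≤ Real.log X * Real.log X := mul_le_mul hN hN h0 (by linarith)
  have h6 : N * N * N' ≤ Real.log X * Real.log X * (Real.log X * Real.log X) :=
    mul_le_mul h5 hN' h0' (by positivity)
  calc ‖Mu X p t‖ * ‖Mu X p t‖ * ‖Mu X p t‖ * (N * N) * N' = (N * N * N') * ‖Mu X p t‖ ^ 3 := by
        ring
    _ ≤ _ := mul_le_mul_of_nonneg_right h6 (by positivity)

/-! ### The integral -/

theorem MAINI_v_zero {X m : ℕ} (hX : 1 ≤ X) (hm : 60 * X < m) : v X m = 0 := by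
  unfold v
  have hX' : (0 : ℝ) < X := by exact_mod_cast hX
  have hm' : (60 : ℝ) * X < m := by exact_mod_cast hm
  apply MAINI_w_zero
  right
  have h2 : (60 : ℝ) ≤ (m : ℝ) / X := by
    rw [le_div_iff₀ hX']
    exact hm'.le
  rw [Real.le_log_iff_exp_le (by linarith)]
  have h3 := Real.exp_one_lt_d9
  have h4 : Real.exp 4 = (Real.exp 1) ^ 4 := by
    rw [← Real.exp_nat_mul]
    norm_num
  rw [h4]
  have h5 : (Real.exp 1) ^ 4 ≤ (2.7182818286 : ℝ) ^ 4 :=
    pow_le_pow_left₀ (Real.exp_pos _).le h3.le 4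
  have h6 : (2.7182818286 : ℝ) ^ 4 ≤ 60 := by norm_num
  linarith

theorem MAINI_integrable_bound {W : ℝ → ℂ} {C : ℝ} (hWc : Continuous W)
    (hWb : ∀ τ, ‖W τ‖ ≤ C * (1 + τ ^ 2)⁻¹) {g : ℝ → ℂ} (hg : Continuous g) {B : ℝ}
    (hgb : ∀ τ, ‖g τ‖ ≤ B) : Integrable fun τ => W τ * g τ := by
  have h1 : Integrable (fun τ : ℝ => B * (C * (1 + τ ^ 2)⁻¹)) :=
    (integrable_inv_one_add_sq.const_mul C).const_mul B
  refine h1.mono' (hWc.mul hg).aestronglyMeasurable (Filter.Eventually.of_forall fun τ => ?_)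
  rw [norm_mul]
  have h2 := hWb τ
  have h3 := hgb τ
  calc ‖W τ‖ * ‖g τ‖ ≤ (C * (1 + τ ^ 2)⁻¹) * B :=
        mul_le_mul h2 h3 (norm_nonneg _) ((norm_nonneg _).trans h2)
    _ = _ := mul_comm _ _

/-- `w` is smooth of compact support, so `w(y) = ∫ ŵ(τ) e^(2πiτy) dτ` with
`|ŵ(τ)| ≤ C/(1+τ²)`. With `v(m) = w(log(m/X))` the variables separate:
`FF X (ψ hmain) t = ∫ ŵ(τ) X^(-2πiτ) M_ψ(t - 2πτ)³ N(t-2πτ)² N'(t-2πτ) dτ`,
`N(t) = ∑ ρ(n) ψ(n) n^(-1-it)`, `N'(t) = ∑ ρ(n) log n ψ(n) n^(-1-it)` (sums over `n ≤ e Q^20`),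
`|N| ≤ 1 + log(e Q^20) ≤ log X`, `|N'| ≤ (log X)²`. (All products `m` of the six variables are
`≤ V³ (e Q^20)³`; `v(m) = 0` unless `m ≤ 60X`, so the sum over `m ≤ 60 X` in `FF` is complete.)
Substitute `τ → τ/(2π)`. -/
theorem main_integral : ∃ C K : ℝ, 0 < C ∧ ∀ Q X : ℕ, Reg K Q X →
    ∀ p : Σ r : ℕ, DirichletCharacter ℂ r, 1 ≤ p.1 → ∀ t : ℝ,
    ‖FF X (fun m => (hmain Q X m : ℂ) * p.2 (m : ZMod p.1)) t‖ ≤
      C * (Real.log X) ^ (4 : ℝ) * ∫ τ : ℝ, (1 + τ ^ 2)⁻¹ * ‖Mu X p (t + τ)‖ ^ 3 := by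
  obtain ⟨W, C, hC, hWc, hWb, hW⟩ := MAINI_w_rep
  refine ⟨C, 100, hC, fun Q X h p _ t => ?_⟩
  have hX : 1 ≤ X := h.X_pos (by norm_num)
  have hX' : (0 : ℝ) < X := by exact_mod_cast hX
  have hQ : 1 ≤ Q := h.Q_pos (by norm_num)
  obtain ⟨hl1, hl2⟩ := MAINI_logbound h
  obtain ⟨hF1, -⟩ := MAINI_series_Mu X p hX t
  have hF2 := MAINI_FS_rho hQ
  have hF3 := MAINI_FS_rholog hQ
  have hFh : ∃ N, 60 * X ≤ N ∧ MAINI_FS (hmain Q X) N := by
    set f1 := af (fun a => if AA X ≤ a ∧ a ≤ VV X then (ArithmeticFunction.moebius a : ℝ) else 0)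
      with hf1
    set f2 := af (rho Q) with hf2
    set f3 := af (fun n => rho Q n * Real.log n) with hf3
    have hm : hmain Q X = f1 * f1 * f1 * (f2 * f2) * f3 := by
      unfold hmain
      rw [← hf1, ← hf2, ← hf3]
      ring
    have hF := MAINI_FS_mul (MAINI_FS_mul (MAINI_FS_mul (MAINI_FS_mul hF1 hF1) hF1)
      (MAINI_FS_mul hF2 hF2)) hF3
    rw [← hm] at hF
    refine ⟨max (60 * X) _, le_max_left _ _, fun n hn => hF n (lt_of_le_of_lt (le_max_right _ _) hn)⟩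
  obtain ⟨N, hN60, hFN⟩ := hFh
  set G : ℝ → ℂ := fun τ => W τ * Complex.exp (-((τ * Real.log X : ℝ) * Complex.I)) with hG
  have hGc : Continuous G := by
    rw [hG]
    fun_prop
  have hGb : ∀ τ, ‖G τ‖ ≤ C * (1 + τ ^ 2)⁻¹ := by
    intro τ
    rw [hG]
    simp only [norm_mul]
    rw [Complex.norm_exp]
    have h1 : (-(((τ * Real.log X : ℝ) : ℂ) * Complex.I)).re = 0 := by
      rw [Complex.neg_re, Complex.re_ofReal_mul, Complex.I_re, mul_zero, neg_zero]
    rw [h1, Real.exp_zero, mul_one]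
    exact hWb τ
  -- one term
  have hterm : ∀ m : ℕ, 1 ≤ m → (v X m : ℂ) * (m : ℂ) ^ (-(1 + t * Complex.I)) =
      ∫ τ : ℝ, G τ * (m : ℂ) ^ (-(1 + ((t - τ : ℝ) : ℂ) * Complex.I)) := by
    intro m hm
    have hm' : (0 : ℝ) < m := by exact_mod_cast hm
    have hmc : (m : ℂ) ≠ 0 := by exact_mod_cast hm'.ne'
    unfold v
    rw [hW, ← integral_mul_const]
    refine integral_congr_ae (Filter.Eventually.of_forall fun τ => ?_)
    simp only [hG]
    rw [Real.log_div hm'.ne' hX'.ne', Complex.cpow_def_of_ne_zero hmc,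
      Complex.cpow_def_of_ne_zero hmc, mul_assoc, mul_assoc, ← Complex.exp_add, ← Complex.exp_add]
    congr 2
    have h1 : Complex.log (m : ℂ) = ((Real.log m : ℝ) : ℂ) := by
      rw [Complex.ofReal_log hm'.le]
      simp
    rw [h1]
    push_cast
    ring
  have hcont : ∀ m : ℕ, Continuous fun τ : ℝ => (m : ℂ) ^ (-(1 + ((t - τ : ℝ) : ℂ) * Complex.I)) := by
    intro m
    refine Continuous.const_cpow (by fun_prop) (Or.inr fun τ h => ?_)
    have h1 := congrArg Complex.re h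
    simp at h1
  have hint : ∀ m : ℕ, 1 ≤ m → Integrable fun τ : ℝ =>
      G τ * (m : ℂ) ^ (-(1 + ((t - τ : ℝ) : ℂ) * Complex.I)) := by
    intro m hm
    refine MAINI_integrable_bound hGc hGb (hcont m) (B := (m : ℝ)⁻¹) fun τ => ?_
    rw [MAINI_norm_cpow hm]
  -- the whole sum
  have hFF : FF X (fun m => (hmain Q X m : ℂ) * p.2 (m : ZMod p.1)) t =
      ∫ τ : ℝ, G τ * LSeries (fun n => MAINI_tw p.2 (hmain Q X) n)
        (1 + ((t - τ : ℝ) : ℂ) * Complex.I) := by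
    unfold FF
    have h1 : ∑ m ∈ Icc 1 (60 * X), (hmain Q X m : ℂ) * p.2 (m : ZMod p.1) * (v X m : ℂ) *
        (m : ℂ) ^ (-(1 + t * Complex.I)) = ∑ m ∈ Icc 1 N, (hmain Q X m : ℂ) *
          p.2 (m : ZMod p.1) * (v X m : ℂ) * (m : ℂ) ^ (-(1 + t * Complex.I)) := by
      refine Finset.sum_subset (Finset.Icc_subset_Icc_right hN60) fun m hm hm' => ?_
      have h2 : 60 * X < m := by
        by_contra hcon
        exact hm' (mem_Icc.mpr ⟨(mem_Icc.mp hm).1, by omega⟩)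
      rw [MAINI_v_zero hX h2]
      simp
    rw [h1]
    have h2 : ∀ m ∈ Icc 1 N, (hmain Q X m : ℂ) * p.2 (m : ZMod p.1) * (v X m : ℂ) *
        (m : ℂ) ^ (-(1 + t * Complex.I)) = ∫ τ : ℝ, (hmain Q X m : ℂ) * p.2 (m : ZMod p.1) *
          (G τ * (m : ℂ) ^ (-(1 + ((t - τ : ℝ) : ℂ) * Complex.I))) := by
      intro m hm
      rw [integral_const_mul, ← hterm m (mem_Icc.mp hm).1]
      ring
    rw [Finset.sum_congr rfl h2, ← integral_finsetSum]
    · refine integral_congr_ae (Filter.Eventually.of_forall fun τ => ?_)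
      simp only
      rw [MAINI_series p.2 hFN, Finset.mul_sum]
      refine Finset.sum_congr rfl fun m _ => ?_
      ring
    · intro m hm
      exact (hint m (mem_Icc.mp hm).1).const_mul _
  rw [hFF]
  have hMub : ∀ τ : ℝ, ‖Mu X p τ‖ ≤ 1 + Real.log (60 * X) := fun τ => Mu_le X p τ hX
  have hbint : Integrable fun τ : ℝ => (1 + τ ^ 2)⁻¹ * ‖Mu X p (t - τ)‖ ^ 3 := by
    have h1 : Integrable (fun τ : ℝ => (1 + Real.log (60 * X)) ^ 3 * (1 + τ ^ 2)⁻¹) :=
      integrable_inv_one_add_sq.const_mul _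
    have hc := continuous_Mu X p
    refine h1.mono' ?_ (Filter.Eventually.of_forall fun τ => ?_)
    · refine Continuous.aestronglyMeasurable ?_
      refine Continuous.mul ?_ (by fun_prop)
      exact Continuous.inv₀ (by fun_prop) (fun τ => by positivity)
    · have h2 : (0 : ℝ) ≤ (1 + τ ^ 2)⁻¹ := by positivity
      rw [Real.norm_of_nonneg (by positivity), mul_comm]
      exact mul_le_mul_of_nonneg_right (pow_le_pow_left₀ (norm_nonneg _) (hMub _) 3) h2
  have hle : ‖∫ τ : ℝ, G τ * LSeries (fun n => MAINI_tw p.2 (hmain Q X) n)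
        (1 + ((t - τ : ℝ) : ℂ) * Complex.I)‖ ≤
      ∫ τ : ℝ, C * (Real.log X) ^ (4 : ℝ) * ((1 + τ ^ 2)⁻¹ * ‖Mu X p (t - τ)‖ ^ 3) := by
    refine norm_integral_le_of_norm_le (hbint.const_mul _) (Filter.Eventually.of_forall fun τ => ?_)
    rw [norm_mul]
    have h1 := MAINI_hmain_norm h p (t - τ)
    calc ‖G τ‖ * ‖LSeries (fun n => MAINI_tw p.2 (hmain Q X) n)
          (1 + ((t - τ : ℝ) : ℂ) * Complex.I)‖
        ≤ (C * (1 + τ ^ 2)⁻¹) * ((Real.log X) ^ (4 : ℝ) * ‖Mu X p (t - τ)‖ ^ 3) :=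
          mul_le_mul (hGb τ) h1 (norm_nonneg _) ((norm_nonneg _).trans (hGb τ))
      _ = _ := by ring
  refine hle.trans (le_of_eq ?_)
  rw [integral_const_mul]
  congr 1
  rw [← integral_neg_eq_self (fun τ : ℝ => (1 + τ ^ 2)⁻¹ * ‖Mu X p (t + τ)‖ ^ 3)]
  refine integral_congr_ae (Filter.Eventually.of_forall fun τ => ?_)
  simp only [neg_sq, ← sub_eq_add_neg]

end Pool.Agent.Lib.H68T
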