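import Pool.Agent.Lib.H68T.RegL
import Pool.Agent.Lib.H68T.MAINI

/-!
# Chunk MV: mean value theorem for the Möbius polynomials (crude large sieve)
-/

open Finset MeasureTheory ComplexConjugate

namespace Pool.Agent.Lib.H68T

/-- the function `y^(-(1+iu))` -/
noncomputable def mvg (u : ℝ) (y : ℝ) : ℂ := (y : ℂ) ^ (-(1 + u * Complex.I))

lemma mv_norm_g (u : ℝ) {y : ℝ} (hy : 0 < y) : ‖mvg u y‖ = 1 / y := by
  unfold mvg
  rw [Complex.norm_cpow_eq_rpow_re_of_pos hy]
  simp [Real.rpow_neg_one]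

lemma mv_hasDeriv (u : ℝ) {y : ℝ} (hy : 0 < y) :
    HasDerivAt (mvg u) (-(1 + u * Complex.I) * (y : ℂ) ^ (-(1 + u * Complex.I) - 1)) y := by
  unfold mvg
  have h := (hasDerivAt_id (y : ℂ)).cpow_const (c := -(1 + u * Complex.I))
    (Or.inl (by simpa using hy))
  have h2 := h.comp_ofReal
  simpa using h2

lemma mv_norm_deriv (u : ℝ) {y : ℝ} (hy : 0 < y) :
    ‖-(1 + u * Complex.I) * (y : ℂ) ^ (-(1 + u * Complex.I) - 1)‖ ≤ (1 + |u|) * (1 / y ^ 2) := by
  rw [norm_mul, Complex.norm_cpow_eq_rpow_re_of_pos hy]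
  have h1 : ‖-(1 + u * Complex.I)‖ ≤ 1 + |u| := by
    rw [norm_neg]
    refine (norm_add_le _ _).trans ?_
    simp
  have h2 : y ^ (-(1 + u * Complex.I) - 1).re = 1 / y ^ 2 := by
    have : (-(1 + u * Complex.I) - 1).re = -2 := by simp; norm_num
    rw [this, Real.rpow_neg hy.le]
    norm_num
  rw [h2]
  exact mul_le_mul_of_nonneg_right h1 (by positivity)

lemma mv_diff (u : ℝ) {a b : ℝ} (ha : 0 < a) (hab : a ≤ b) :
    ‖mvg u b - mvg u a‖ ≤ (1 + |u|) * (1 / a - 1 / b) := by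
  have hpos : ∀ x ∈ Set.Icc a b, 0 < x := fun x hx => ha.trans_le hx.1
  have hd : ∀ x ∈ Set.Icc a b, HasDerivAt (fun y => mvg u y - mvg u a)
      (-(1 + u * Complex.I) * (x : ℂ) ^ (-(1 + u * Complex.I) - 1)) x := fun x hx =>
    (mv_hasDeriv u (hpos x hx)).sub_const _
  have hB : ∀ x ∈ Set.Icc a b, HasDerivAt (fun y : ℝ => (1 + |u|) * (1 / a - 1 / y))
      ((1 + |u|) * (1 / x ^ 2)) x := fun x hx => by
    have h1 : HasDerivAt (fun y : ℝ => y⁻¹) (-(x ^ 2)⁻¹) x := hasDerivAt_inv (hpos x hx).ne'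
    have h2 := ((h1.const_sub (1 / a)).const_mul (1 + |u|))
    simpa [one_div] using h2
  have h := image_norm_le_of_norm_deriv_right_le_deriv_boundary' (a := a) (b := b)
    (f := fun y => mvg u y - mvg u a)
    (f' := fun x => -(1 + u * Complex.I) * (x : ℂ) ^ (-(1 + u * Complex.I) - 1))
    (B := fun y : ℝ => (1 + |u|) * (1 / a - 1 / y)) (B' := fun x => (1 + |u|) * (1 / x ^ 2))
    (fun x hx => (hd x hx).continuousAt.continuousWithinAt)
    (fun x hx => (hd x ⟨hx.1, hx.2.le⟩).hasDerivWithinAt)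
    (by simp)
    (fun x hx => (hB x hx).continuousAt.continuousWithinAt)
    (fun x hx => (hB x ⟨hx.1, hx.2.le⟩).hasDerivWithinAt)
    (fun x hx => mv_norm_deriv u (hpos x ⟨hx.1, hx.2.le⟩))
  exact h ⟨hab, le_refl b⟩

/-- partial sums of the centred periodic function are bounded -/
lemma mv_partial (q : ℕ) (hq : 1 ≤ q) (f : ℕ → ℂ) (hf : ∀ n, f (n + q) = f n)
    (hf1 : ∀ n, ‖f n‖ ≤ 1) (A : ℕ) : ∀ N : ℕ,
    ‖∑ a ∈ range N, (f (A + a) - (∑ a ∈ range q, f a) / q)‖ ≤ 2 * q := by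
  have hq0 : (0 : ℝ) < q := by exact_mod_cast hq
  have hqC : (q : ℂ) ≠ 0 := by exact_mod_cast (by omega : q ≠ 0)
  set fm : ℂ := (∑ a ∈ range q, f a) / q with hfm
  have hfm1 : ‖fm‖ ≤ 1 := by
    rw [hfm, norm_div, Complex.norm_natCast, div_le_one hq0]
    refine (norm_sum_le _ _).trans ?_
    refine (Finset.sum_le_sum (fun a _ => hf1 a)).trans ?_
    simp
  -- a full period starting anywhere has zero centred sum
  have hper : ∀ B : ℕ, ∑ a ∈ range q, f (B + a) = ∑ a ∈ range q, f a := by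
    intro B
    induction B with
    | zero => simp
    | succ B ih =>
      rw [← ih]
      have e1 : ∑ a ∈ range (q + 1), f (B + a) = ∑ a ∈ range q, f (B + a) + f (B + q) :=
        Finset.sum_range_succ _ _
      have e2 : ∑ a ∈ range (q + 1), f (B + a) = ∑ a ∈ range q, f (B + (a + 1)) + f (B + 0) :=
        Finset.sum_range_succ' _ _
      have e3 : f (B + q) = f B := hf B
      have e4 : ∑ a ∈ range q, f (B + 1 + a) = ∑ a ∈ range q, f (B + (a + 1)) := by
        apply Finset.sum_congr rfl; intro a _; congr 1; ring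
      rw [e4]
      rw [e1] at e2
      rw [e3] at e2
      simp only [add_zero] at e2
      exact (add_right_cancel e2).symm
  intro N
  induction N using Nat.strong_induction_on with
  | _ N ih =>
    rcases lt_or_ge N q with h | h
    · refine (norm_sum_le _ _).trans ?_
      have h1 : ∀ a ∈ range N, ‖f (A + a) - fm‖ ≤ 2 := fun a _ =>
        (norm_sub_le _ _).trans (by linarith [hf1 (A + a)])
      refine (Finset.sum_le_sum h1).trans ?_
      rw [Finset.sum_const, card_range, nsmul_eq_mul]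
      have : (N : ℝ) ≤ q := by exact_mod_cast h.le
      linarith
    · obtain ⟨M, rfl⟩ := Nat.exists_eq_add_of_le' h
      have h1 := ih M (by omega)
      rw [Finset.sum_range_add]
      have h2 : ∑ x ∈ range q, (f (A + (M + x)) - fm) = 0 := by
        rw [Finset.sum_sub_distrib]
        have e1 : ∑ x ∈ range q, f (A + (M + x)) = ∑ a ∈ range q, f a := by
          rw [← hper (A + M)]
          apply Finset.sum_congr rfl; intro a _; congr 1; ring
        rw [e1, Finset.sum_const, card_range, nsmul_eq_mul, hfm]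
        field_simp
        ring
      rw [h2, add_zero]
      exact h1

lemma mv_sum (q : ℕ) (f : ℕ → ℂ) (A : ℕ) (hA : 1 ≤ A) (u : ℝ) (D : ℝ) (hD : 0 ≤ D)
    (hE : ∀ N : ℕ, ‖∑ a ∈ range N, f a‖ ≤ D) (n : ℕ) :
    ‖∑ a ∈ range (n + 1), f a * mvg u ((A + a : ℕ) : ℝ)‖ ≤ D * (1 + |u|) / A := by
  have hA0 : (0 : ℝ) < A := by exact_mod_cast hA
  have h1 := Finset.sum_range_by_parts (fun k => mvg u ((A + k : ℕ) : ℝ)) f (n + 1)
  simp only [smul_eq_mul, add_tsub_cancel_right] at h1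
  have h2 : ∑ a ∈ range (n + 1), f a * mvg u ((A + a : ℕ) : ℝ) =
      ∑ a ∈ range (n + 1), mvg u ((A + a : ℕ) : ℝ) * f a :=
    Finset.sum_congr rfl fun a _ => mul_comm _ _
  rw [h2, h1]
  refine (norm_sub_le _ _).trans ?_
  have h3 : ‖mvg u ((A + n : ℕ) : ℝ) * ∑ i ∈ range (n + 1), f i‖ ≤ D * (1 / (A + n : ℕ)) := by
    rw [norm_mul, mv_norm_g u (by exact_mod_cast (by omega : 0 < A + n)), mul_comm]
    exact mul_le_mul_of_nonneg_right (hE _) (by positivity)
  have h4 : ‖∑ i ∈ range n, (mvg u ((A + (i + 1) : ℕ) : ℝ) - mvg u ((A + i : ℕ) : ℝ)) *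
      ∑ j ∈ range (i + 1), f j‖ ≤ D * ((1 + |u|) * (1 / (A : ℝ) - 1 / (A + n : ℕ))) := by
    refine (norm_sum_le _ _).trans ?_
    have h5 : ∀ i ∈ range n, ‖(mvg u ((A + (i + 1) : ℕ) : ℝ) - mvg u ((A + i : ℕ) : ℝ)) *
        ∑ j ∈ range (i + 1), f j‖ ≤
        D * (1 + |u|) * (1 / ((A + i : ℕ) : ℝ) - 1 / ((A + (i + 1) : ℕ) : ℝ)) := by
      intro i _
      rw [norm_mul]
      have := mv_diff u (a := ((A + i : ℕ) : ℝ)) (b := ((A + (i + 1) : ℕ) : ℝ))
        (by exact_mod_cast (by omega : 0 < A + i)) (by exact_mod_cast (by omega : A + i ≤ A + (i + 1)))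
      calc _ ≤ ((1 + |u|) * (1 / ((A + i : ℕ) : ℝ) - 1 / ((A + (i + 1) : ℕ) : ℝ))) * D :=
            mul_le_mul this (hE _) (norm_nonneg _) ((norm_nonneg _).trans this)
        _ = _ := by ring
    refine (Finset.sum_le_sum h5).trans ?_
    rw [← Finset.mul_sum, Finset.sum_range_sub' (fun i => 1 / ((A + i : ℕ) : ℝ))]
    simp only [add_zero]
    rw [mul_assoc]
  refine (add_le_add h3 h4).trans ?_
  have h6 : (0 : ℝ) ≤ 1 / (A + n : ℕ) := by positivity
  have h7 : 0 ≤ |u| := abs_nonneg u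
  have h8 : D * (1 + |u|) / A = D * (1 + |u|) * (1 / A) := by ring
  rw [h8]
  have h9 : 0 ≤ D * |u| * (1 / ((A + n : ℕ) : ℝ)) := by positivity
  nlinarith

lemma mv_int (A n : ℕ) (hA : 1 ≤ A) (u : ℝ) :
    ‖∑ a ∈ range (n + 1), mvg u ((A + a : ℕ) : ℝ) -
      ∫ y in (A : ℝ)..((A + n : ℕ) : ℝ), mvg u y‖ ≤ 2 * (1 + |u|) / A := by
  have hA0 : (0 : ℝ) < A := by exact_mod_cast hA
  have hcont : ContinuousOn (mvg u) (Set.Ioi 0) := fun y hy =>
    (mv_hasDeriv u hy).continuousAt.continuousWithinAt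
  have hint : ∀ a b : ℝ, 0 < a → a ≤ b → IntervalIntegrable (mvg u) volume a b := fun a b ha hab =>
    (hcont.mono (fun x hx => by
      rw [Set.uIcc_of_le hab] at hx
      exact ha.trans_le hx.1)).intervalIntegrable
  have hadj := intervalIntegral.sum_integral_adjacent_intervals (μ := volume) (f := mvg u)
    (a := fun k => ((A + k : ℕ) : ℝ)) (n := n) (fun k _ => hint _ _
      (by exact_mod_cast (by omega : 0 < A + k)) (by exact_mod_cast (by omega : A + k ≤ A + (k + 1))))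
  simp only [add_zero] at hadj
  rw [← hadj, Finset.sum_range_succ', add_sub_right_comm, ← Finset.sum_sub_distrib]
  refine (norm_add_le _ _).trans ?_
  have h1 : ‖mvg u ((A + 0 : ℕ) : ℝ)‖ ≤ 1 / A := by
    rw [add_zero, mv_norm_g u hA0]
  have h2 : ‖∑ k ∈ range n, (mvg u ((A + (k + 1) : ℕ) : ℝ) -
      ∫ y in ((A + k : ℕ) : ℝ)..((A + (k + 1) : ℕ) : ℝ), mvg u y)‖ ≤
      (1 + |u|) * (1 / A - 1 / (A + n : ℕ)) := by
    refine (norm_sum_le _ _).trans ?_
    have h3 : ∀ k ∈ range n, ‖mvg u ((A + (k + 1) : ℕ) : ℝ) -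
      ∫ y in ((A + k : ℕ) : ℝ)..((A + (k + 1) : ℕ) : ℝ), mvg u y‖ ≤
        (1 + |u|) * (1 / ((A + k : ℕ) : ℝ) - 1 / ((A + (k + 1) : ℕ) : ℝ)) := by
      intro k _
      have hk0 : (0 : ℝ) < ((A + k : ℕ) : ℝ) := by exact_mod_cast (by omega : 0 < A + k)
      have hk1 : ((A + k : ℕ) : ℝ) ≤ ((A + (k + 1) : ℕ) : ℝ) := by
        exact_mod_cast (by omega : A + k ≤ A + (k + 1))
      have e1 : mvg u ((A + (k + 1) : ℕ) : ℝ) =
          ∫ y in ((A + k : ℕ) : ℝ)..((A + (k + 1) : ℕ) : ℝ), mvg u ((A + (k + 1) : ℕ) : ℝ) := by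
        rw [intervalIntegral.integral_const]
        push_cast
        simp
      have e2 : mvg u ((A + (k + 1) : ℕ) : ℝ) -
          ∫ y in ((A + k : ℕ) : ℝ)..((A + (k + 1) : ℕ) : ℝ), mvg u y =
          ∫ y in ((A + k : ℕ) : ℝ)..((A + (k + 1) : ℕ) : ℝ),
            (mvg u ((A + (k + 1) : ℕ) : ℝ) - mvg u y) := by
        rw [intervalIntegral.integral_sub intervalIntegrable_const (hint _ _ hk0 hk1), ← e1]
      rw [e2]
      have h5 := intervalIntegral.norm_integral_le_of_norm_le_const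
        (a := ((A + k : ℕ) : ℝ)) (b := ((A + (k + 1) : ℕ) : ℝ))
        (f := fun y => mvg u ((A + (k + 1) : ℕ) : ℝ) - mvg u y)
        (C := (1 + |u|) * (1 / ((A + k : ℕ) : ℝ) - 1 / ((A + (k + 1) : ℕ) : ℝ))) (fun y hy => by
          rw [Set.uIoc_of_le hk1] at hy
          refine (mv_diff u (hk0.trans hy.1) hy.2).trans ?_
          apply mul_le_mul_of_nonneg_left _ (by positivity)
          have := one_div_le_one_div_of_le hk0 hy.1.le
          linarith)
      have h6 : |((A + (k + 1) : ℕ) : ℝ) - ((A + k : ℕ) : ℝ)| = 1 := by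
        push_cast; rw [show (A : ℝ) + (k + 1) - (A + k) = 1 by ring, abs_one]
      rw [h6, mul_one] at h5
      exact h5
    refine (Finset.sum_le_sum h3).trans ?_
    rw [← Finset.mul_sum, Finset.sum_range_sub' (fun i => 1 / ((A + i : ℕ) : ℝ))]
    simp only [add_zero]
    exact le_refl _
  refine (add_le_add h2 h1).trans ?_
  have h6 : (0 : ℝ) ≤ 1 / (A + n : ℕ) := by positivity
  have h7 : 0 ≤ |u| := abs_nonneg u
  have h8 : 2 * (1 + |u|) / A = 2 * (1 + |u|) * (1 / A) := by ring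
  rw [h8]
  have h9 : 0 ≤ (1 + |u|) * (1 / ((A + n : ℕ) : ℝ)) := by positivity
  have h10 : 0 ≤ |u| * (1 / (A : ℝ)) := by positivity
  nlinarith

/-- Sums of a periodic function against `a^(-1+iu)`: for `f` periodic mod `q`, `|f| ≤ 1`, with mean
`fm`, `1 ≤ A ≤ V`: partial summation from `∑_{n ≤ y} f(n) = fm y + O(q)`. -/
theorem periodic_sum (q : ℕ) (hq : 1 ≤ q) (f : ℕ → ℂ) (hf : ∀ n, f (n + q) = f n)
    (hf1 : ∀ n, ‖f n‖ ≤ 1) (A V : ℕ) (hA : 1 ≤ A) (hAV : A ≤ V) (u : ℝ) :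
    ‖∑ a ∈ Icc A V, f a * (a : ℂ) ^ (-(1 + u * Complex.I)) -
      (∑ a ∈ range q, f a) / q * ∫ y in (A : ℝ)..V, (y : ℂ) ^ (-(1 + u * Complex.I))‖ ≤
      10 * q * (1 + |u|) / A := by
  obtain ⟨n, rfl⟩ := Nat.exists_eq_add_of_le hAV
  have hA0 : (0 : ℝ) < A := by exact_mod_cast hA
  have hq1 : (1 : ℝ) ≤ q := by exact_mod_cast hq
  set fm : ℂ := (∑ a ∈ range q, f a) / q with hfm
  have hfm1 : ‖fm‖ ≤ 1 := by
    rw [hfm, norm_div, Complex.norm_natCast, div_le_one (by linarith)]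
    refine (norm_sum_le _ _).trans ?_
    refine (Finset.sum_le_sum (fun a _ => hf1 a)).trans ?_
    simp
  have e1 : ∑ a ∈ Icc A (A + n), f a * (a : ℂ) ^ (-(1 + u * Complex.I)) =
      ∑ a ∈ range (n + 1), f (A + a) * mvg u ((A + a : ℕ) : ℝ) := by
    have : Icc A (A + n) = Ico A (A + n + 1) := by
      ext x; simp only [mem_Icc, mem_Ico]; omega
    rw [this, Finset.sum_Ico_eq_sum_range]
    have h2 : A + n + 1 - A = n + 1 := by omega
    rw [h2]
    apply Finset.sum_congr rfl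
    intro a _
    unfold mvg
    push_cast
    rfl
  have e2 : ∑ a ∈ range (n + 1), f (A + a) * mvg u ((A + a : ℕ) : ℝ) -
      fm * ∫ y in (A : ℝ)..((A + n : ℕ) : ℝ), (y : ℂ) ^ (-(1 + u * Complex.I)) =
      ∑ a ∈ range (n + 1), (f (A + a) - fm) * mvg u ((A + a : ℕ) : ℝ) +
      fm * (∑ a ∈ range (n + 1), mvg u ((A + a : ℕ) : ℝ) -
        ∫ y in (A : ℝ)..((A + n : ℕ) : ℝ), mvg u y) := by
    have : ∑ a ∈ range (n + 1), (f (A + a) - fm) * mvg u ((A + a : ℕ) : ℝ) =
        ∑ a ∈ range (n + 1), f (A + a) * mvg u ((A + a : ℕ) : ℝ) -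
        fm * ∑ a ∈ range (n + 1), mvg u ((A + a : ℕ) : ℝ) := by
      rw [Finset.mul_sum, ← Finset.sum_sub_distrib]
      apply Finset.sum_congr rfl; intro a _; ring
    rw [this]
    unfold mvg
    ring
  rw [e1, e2]
  refine (norm_add_le _ _).trans ?_
  have h1 := mv_sum q (fun a => f (A + a) - fm) A hA u (2 * q) (by positivity)
    (mv_partial q hq f hf hf1 A) n
  have h2 : ‖fm * (∑ a ∈ range (n + 1), mvg u ((A + a : ℕ) : ℝ) -
        ∫ y in (A : ℝ)..((A + n : ℕ) : ℝ), mvg u y)‖ ≤ 2 * (1 + |u|) / A := by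
    rw [norm_mul]
    have := mv_int A n hA u
    calc _ ≤ 1 * (2 * (1 + |u|) / A) := mul_le_mul hfm1 this (norm_nonneg _) zero_le_one
      _ = _ := one_mul _
  refine (add_le_add h1 h2).trans ?_
  rw [← add_div]
  apply div_le_div_of_nonneg_right _ hA0.le
  have h7 : 0 ≤ |u| := abs_nonneg u
  nlinarith [mul_nonneg (by linarith : (0:ℝ) ≤ (q:ℝ) - 1) h7]

/-- **Duality and Schur's test.** -/
lemma mv_dual {κ Ω : Type*} [MeasurableSpace Ω] (ν : Measure Ω) [IsFiniteMeasure ν]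
    (I : Finset κ) (w : κ → ℝ) (hw : ∀ a, 0 ≤ w a) (c : κ → ℂ) (hc : ∀ a, ‖c a‖ ≤ 1)
    (φ : κ → Ω → ℂ) (hφ : ∀ a, Measurable (φ a)) (hφ1 : ∀ a x, ‖φ a x‖ ≤ 1) (B : ℝ)
    (hB0 : 0 ≤ B)
    (hB : ∀ᵐ x ∂ν, ∫ y, ‖∑ a ∈ I, (w a : ℂ) * (conj (φ a x) * φ a y)‖ ∂ν ≤ B) :
    ∫ x, ‖∑ a ∈ I, c a * (w a : ℂ) * φ a x‖ ^ 2 ∂ν ≤ B * ∑ a ∈ I, w a := by
  set W : ℝ := ∑ a ∈ I, w a with hW
  have hW0 : 0 ≤ W := Finset.sum_nonneg fun a _ => hw a
  set M : Ω → ℂ := fun x => ∑ a ∈ I, c a * (w a : ℂ) * φ a x with hM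
  set K : Ω → Ω → ℂ := fun x y => ∑ a ∈ I, (w a : ℂ) * (conj (φ a x) * φ a y) with hK
  have hMm : Measurable M := by
    rw [hM]
    exact Finset.measurable_fun_sum _ fun a _ => (hφ a).const_mul _
  have hconj : Measurable (fun z : ℂ => conj z) := Complex.continuous_conj.measurable
  have hKm : Measurable (Function.uncurry K) := by
    have : Function.uncurry K = fun z : Ω × Ω =>
        ∑ a ∈ I, (w a : ℂ) * (conj (φ a z.1) * φ a z.2) := by
      funext z; rfl
    rw [this]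
    refine Finset.measurable_fun_sum _ fun a _ => ?_
    refine Measurable.const_mul ?_ _
    exact (hconj.comp ((hφ a).comp measurable_fst)).mul ((hφ a).comp measurable_snd)
  have hM1 : ∀ x, ‖M x‖ ≤ W := by
    intro x
    refine (norm_sum_le _ _).trans (Finset.sum_le_sum fun a _ => ?_)
    rw [norm_mul, norm_mul, Complex.norm_real, Real.norm_of_nonneg (hw a)]
    have := mul_le_mul (mul_le_mul_of_nonneg_right (hc a) (hw a)) (hφ1 a x) (norm_nonneg _)
      (by simpa using hw a)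
    simpa using this
  have hK1 : ∀ x y, ‖K x y‖ ≤ W := by
    intro x y
    refine (norm_sum_le _ _).trans (Finset.sum_le_sum fun a _ => ?_)
    rw [norm_mul, norm_mul, Complex.norm_real, Real.norm_of_nonneg (hw a), RCLike.norm_conj]
    have h2 : ‖φ a x‖ * ‖φ a y‖ ≤ 1 * 1 :=
      mul_le_mul (hφ1 a x) (hφ1 a y) (norm_nonneg _) zero_le_one
    have := mul_le_mul_of_nonneg_left h2 (hw a)
    simpa using this
  have hKsymm : ∀ x y, ‖K x y‖ = ‖K y x‖ := by
    intro x y
    have : K x y = conj (K y x) := by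
      simp only [hK, map_sum, map_mul, Complex.conj_conj, Complex.conj_ofReal]
      apply Finset.sum_congr rfl; intro a _; ring
    rw [this, RCLike.norm_conj]
  have hbdd : ∀ {f : Ω → ℂ}, Measurable f → ∀ C : ℝ, (∀ x, ‖f x‖ ≤ C) → Integrable f ν :=
    fun hf C h => Integrable.of_bound hf.aestronglyMeasurable C (ae_of_all _ h)
  set e : κ → ℂ := fun a => ∫ x, conj (φ a x) * M x ∂ν with he
  set S : ℝ := ∫ x, ‖M x‖ ^ 2 ∂ν with hS
  have hS0 : 0 ≤ S := integral_nonneg fun x => by positivity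
  have hprodm : ∀ a, Measurable fun x => conj (φ a x) * M x := fun a =>
    (hconj.comp (hφ a)).mul hMm
  have hprodb : ∀ a x, ‖conj (φ a x) * M x‖ ≤ W := fun a x => by
    rw [norm_mul, RCLike.norm_conj]
    have := mul_le_mul (hφ1 a x) (hM1 x) (norm_nonneg _) zero_le_one
    simpa using this
  -- step 1
  have h1 : (S : ℂ) = ∑ a ∈ I, conj (c a) * (w a : ℂ) * e a := by
    have e1 : (S : ℂ) = ∫ x, ((‖M x‖ ^ 2 : ℝ) : ℂ) ∂ν := by
      rw [hS]; exact integral_ofReal.symm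
    have e2 : ∀ x, ((‖M x‖ ^ 2 : ℝ) : ℂ) =
        ∑ a ∈ I, conj (c a) * (w a : ℂ) * (conj (φ a x) * M x) := by
      intro x
      have : ((‖M x‖ ^ 2 : ℝ) : ℂ) = conj (M x) * M x := by
        rw [Complex.conj_mul']; push_cast; rfl
      rw [this]
      have e3 : conj (M x) = ∑ a ∈ I, conj (c a) * (w a : ℂ) * conj (φ a x) := by
        simp only [hM, map_sum, map_mul, Complex.conj_ofReal]
      rw [e3, Finset.sum_mul]
      apply Finset.sum_congr rfl; intro a _; ring
    rw [e1]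
    simp_rw [e2]
    rw [integral_finsetSum]
    · apply Finset.sum_congr rfl
      intro a _
      rw [integral_const_mul]
    · intro a _
      exact (hbdd (hprodm a) W (hprodb a)).const_mul _
  -- step 2
  have h2 : S ≤ ∑ a ∈ I, w a * ‖e a‖ := by
    have : S = ‖(S : ℂ)‖ := by rw [Complex.norm_real, Real.norm_of_nonneg hS0]
    rw [this, h1]
    refine (norm_sum_le _ _).trans (Finset.sum_le_sum fun a _ => ?_)
    rw [norm_mul, norm_mul, Complex.norm_real, Real.norm_of_nonneg (hw a), RCLike.norm_conj]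
    have := mul_le_mul_of_nonneg_right (mul_le_mul_of_nonneg_right (hc a) (hw a))
      (norm_nonneg (e a))
    simpa using this
  -- step 3
  set D : ℝ := ∑ a ∈ I, w a * ‖e a‖ ^ 2 with hD
  have h3 : S ^ 2 ≤ W * D := by
    have h4 : (∑ a ∈ I, w a * ‖e a‖) ^ 2 ≤ W * D := by
      apply Finset.sum_sq_le_sum_mul_sum_of_sq_le_mul
      · intro a _; exact hw a
      · intro a _; exact mul_nonneg (hw a) (by positivity)
      · intro a _; exact le_of_eq (by ring)
    exact (pow_le_pow_left₀ hS0 h2 2).trans h4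
  -- step 4
  have h4 : (D : ℂ) = ∫ x, M x * ∫ y, conj (M y) * K x y ∂ν ∂ν := by
    have e1 : ∀ x, ∫ y, conj (M y) * K x y ∂ν = ∑ a ∈ I, (w a : ℂ) * conj (φ a x) * conj (e a) := by
      intro x
      have e2 : ∀ y, conj (M y) * K x y =
          ∑ a ∈ I, (w a : ℂ) * conj (φ a x) * (φ a y * conj (M y)) := by
        intro y
        simp only [hK]
        rw [Finset.mul_sum]
        apply Finset.sum_congr rfl; intro a _; ring
      simp_rw [e2]
      rw [integral_finsetSum]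
      · apply Finset.sum_congr rfl
        intro a _
        rw [integral_const_mul]
        congr 1
        rw [he]
        simp only
        rw [← integral_conj]
        apply integral_congr_ae
        filter_upwards with y
        rw [map_mul, Complex.conj_conj]
      · intro a _
        refine Integrable.const_mul ?_ _
        refine hbdd ((hφ a).mul (hconj.comp hMm)) W fun y => ?_
        rw [norm_mul, RCLike.norm_conj]
        have := mul_le_mul (hφ1 a y) (hM1 y) (norm_nonneg _) zero_le_one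
        simpa using this
    simp_rw [e1]
    have e3 : ∀ x, M x * ∑ a ∈ I, (w a : ℂ) * conj (φ a x) * conj (e a) =
        ∑ a ∈ I, (w a : ℂ) * conj (e a) * (conj (φ a x) * M x) := by
      intro x
      rw [Finset.mul_sum]
      apply Finset.sum_congr rfl; intro a _; ring
    simp_rw [e3]
    rw [integral_finsetSum]
    · rw [hD]
      push_cast
      apply Finset.sum_congr rfl
      intro a _
      rw [integral_const_mul]
      have : ((‖e a‖ : ℂ)) ^ 2 = conj (e a) * e a := by rw [Complex.conj_mul']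
      rw [this, he]
      ring
    · intro a _
      exact (hbdd (hprodm a) W (hprodb a)).const_mul _
  have hKint : ∀ x, Integrable (fun y => ‖K x y‖) ν := fun x =>
    (hbdd (hKm.comp (measurable_const.prodMk measurable_id)) W (hK1 x)).norm
  -- the two product functions
  have hF1 : Integrable (Function.uncurry fun x y => ‖M x‖ ^ 2 * ‖K x y‖) (ν.prod ν) := by
    refine Integrable.of_bound (C := W ^ 2 * W) ?_ (ae_of_all _ fun z => ?_)
    · exact (((hMm.comp measurable_fst).norm.pow_const 2).mul hKm.norm).aestronglyMeasurable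
    · rw [Function.uncurry]
      rw [Real.norm_of_nonneg (by positivity)]
      exact mul_le_mul (pow_le_pow_left₀ (norm_nonneg _) (hM1 _) 2) (hK1 _ _) (norm_nonneg _)
        (by positivity)
  have hF2 : Integrable (Function.uncurry fun x y => ‖M y‖ ^ 2 * ‖K x y‖) (ν.prod ν) := by
    refine Integrable.of_bound (C := W ^ 2 * W) ?_ (ae_of_all _ fun z => ?_)
    · exact (((hMm.comp measurable_snd).norm.pow_const 2).mul hKm.norm).aestronglyMeasurable
    · rw [Function.uncurry]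
      rw [Real.norm_of_nonneg (by positivity)]
      exact mul_le_mul (pow_le_pow_left₀ (norm_nonneg _) (hM1 _) 2) (hK1 _ _) (norm_nonneg _)
        (by positivity)
  have hM2int : Integrable (fun x => ‖M x‖ ^ 2) ν := by
    refine Integrable.of_bound (C := W ^ 2) (hMm.norm.pow_const 2).aestronglyMeasurable
      (ae_of_all _ fun x => ?_)
    rw [Real.norm_of_nonneg (by positivity)]
    exact pow_le_pow_left₀ (norm_nonneg _) (hM1 _) 2
  have hA1 : ∫ x, ∫ y, ‖M x‖ ^ 2 * ‖K x y‖ ∂ν ∂ν ≤ B * S := by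
    have e1 : B * S = ∫ x, ‖M x‖ ^ 2 * B ∂ν := by
      rw [integral_mul_const, mul_comm]
    rw [e1]
    apply integral_mono_ae hF1.integral_prod_left (hM2int.mul_const B)
    filter_upwards [hB] with x hx
    change ∫ y, ‖M x‖ ^ 2 * ‖K x y‖ ∂ν ≤ ‖M x‖ ^ 2 * B
    rw [integral_const_mul]
    exact mul_le_mul_of_nonneg_left hx (by positivity)
  have hA2 : ∫ x, ∫ y, ‖M y‖ ^ 2 * ‖K x y‖ ∂ν ∂ν ≤ B * S := by
    rw [integral_integral_swap hF2]
    refine le_trans (le_of_eq ?_) hA1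
    apply integral_congr_ae
    filter_upwards with y
    apply integral_congr_ae
    filter_upwards with x
    rw [hKsymm]
  have h5 : D ≤ B * S := by
    have hD0 : 0 ≤ D := Finset.sum_nonneg fun a _ => mul_nonneg (hw a) (by positivity)
    have : D = ‖(D : ℂ)‖ := by rw [Complex.norm_real, Real.norm_of_nonneg hD0]
    rw [this, h4]
    refine (norm_integral_le_integral_norm _).trans ?_
    have hsum : ∫ x, ∫ y, ((1 / 2 : ℝ) * (‖M x‖ ^ 2 * ‖K x y‖) +
        (1 / 2 : ℝ) * (‖M y‖ ^ 2 * ‖K x y‖)) ∂ν ∂ν ≤ B * S := by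
      have e1 : ∀ᵐ x ∂ν, ∫ y, ((1 / 2 : ℝ) * (‖M x‖ ^ 2 * ‖K x y‖) +
          (1 / 2 : ℝ) * (‖M y‖ ^ 2 * ‖K x y‖)) ∂ν =
          (1 / 2 : ℝ) * ∫ y, ‖M x‖ ^ 2 * ‖K x y‖ ∂ν +
          (1 / 2 : ℝ) * ∫ y, ‖M y‖ ^ 2 * ‖K x y‖ ∂ν := by
        filter_upwards [hF1.prod_right_ae, hF2.prod_right_ae] with x hx1 hx2
        have hx1' : Integrable (fun y => ‖M x‖ ^ 2 * ‖K x y‖) ν := hx1
        have hx2' : Integrable (fun y => ‖M y‖ ^ 2 * ‖K x y‖) ν := hx2
        rw [integral_add (hx1'.const_mul _) (hx2'.const_mul _)]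
        congr 1
        · exact integral_const_mul _ _
        · exact integral_const_mul _ _
      have hL1 : Integrable (fun x => ∫ y, ‖M x‖ ^ 2 * ‖K x y‖ ∂ν) ν := hF1.integral_prod_left
      have hL2 : Integrable (fun x => ∫ y, ‖M y‖ ^ 2 * ‖K x y‖ ∂ν) ν := hF2.integral_prod_left
      have e2 : ∫ x, (1 / 2 : ℝ) * ∫ y, ‖M x‖ ^ 2 * ‖K x y‖ ∂ν ∂ν =
          (1 / 2 : ℝ) * ∫ x, ∫ y, ‖M x‖ ^ 2 * ‖K x y‖ ∂ν ∂ν := integral_const_mul _ _
      have e3 : ∫ x, (1 / 2 : ℝ) * ∫ y, ‖M y‖ ^ 2 * ‖K x y‖ ∂ν ∂ν =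
          (1 / 2 : ℝ) * ∫ x, ∫ y, ‖M y‖ ^ 2 * ‖K x y‖ ∂ν ∂ν := integral_const_mul _ _
      rw [integral_congr_ae e1, integral_add (hL1.const_mul _) (hL2.const_mul _), e2, e3]
      linarith
    refine le_trans ?_ hsum
    apply integral_mono_of_nonneg (ae_of_all _ fun x => norm_nonneg _)
    · have := ((hF1.const_mul (1 / 2 : ℝ)).add (hF2.const_mul (1 / 2 : ℝ))).integral_prod_left
      exact this
    · filter_upwards [hF1.prod_right_ae, hF2.prod_right_ae] with x hx1 hx2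
      rw [norm_mul, ← Real.norm_of_nonneg (norm_nonneg (M x))]
      rw [Real.norm_of_nonneg (norm_nonneg (M x))]
      calc ‖M x‖ * ‖∫ y, conj (M y) * K x y ∂ν‖ ≤ ‖M x‖ * ∫ y, ‖conj (M y) * K x y‖ ∂ν :=
            mul_le_mul_of_nonneg_left (norm_integral_le_integral_norm _) (norm_nonneg _)
        _ = ∫ y, ‖M x‖ * ‖conj (M y) * K x y‖ ∂ν := (integral_const_mul _ _).symm
        _ ≤ _ := by
          apply integral_mono_of_nonneg (ae_of_all _ fun y => by positivity)
          · exact (hx1.const_mul _).add (hx2.const_mul _)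
          · filter_upwards with y
            rw [norm_mul, RCLike.norm_conj]
            have h7 : ‖M x‖ * ‖M y‖ ≤ 1 / 2 * ‖M x‖ ^ 2 + 1 / 2 * ‖M y‖ ^ 2 := by
              nlinarith [sq_nonneg (‖M x‖ - ‖M y‖)]
            calc ‖M x‖ * (‖M y‖ * ‖K x y‖) = (‖M x‖ * ‖M y‖) * ‖K x y‖ := by ring
              _ ≤ (1 / 2 * ‖M x‖ ^ 2 + 1 / 2 * ‖M y‖ ^ 2) * ‖K x y‖ :=
                  mul_le_mul_of_nonneg_right h7 (norm_nonneg _)
              _ = _ := by ring
  -- conclusion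
  have h6 : S ^ 2 ≤ (B * W) * S := by
    calc S ^ 2 ≤ W * D := h3
      _ ≤ W * (B * S) := mul_le_mul_of_nonneg_left h5 hW0
      _ = _ := by ring
  rcases hS0.eq_or_lt with h0 | h0
  · rw [← h0]; exact mul_nonneg hB0 hW0
  · nlinarith

/-- orthogonality of distinct primitive characters -/
lemma mv_orth {r r' : ℕ} (hr : 1 ≤ r) (hr' : 1 ≤ r') (ψ : DirichletCharacter ℂ r)
    (ψ' : DirichletCharacter ℂ r') (h : ψ.IsPrimitive) (h' : ψ'.IsPrimitive)
    (hne : (⟨r, ψ⟩ : Σ r : ℕ, DirichletCharacter ℂ r) ≠ ⟨r', ψ'⟩) :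
    ∑ a ∈ range (r * r'), conj (ψ (a : ZMod r)) * ψ' (a : ZMod r') = 0 := by
  have hN : NeZero (r * r') := ⟨by positivity⟩
  have hr0 : NeZero r := ⟨by omega⟩
  have hr0' : NeZero r' := ⟨by omega⟩
  set χ := DirichletCharacter.changeLevel (Nat.dvd_mul_right r r') ψ with hχ
  set χ' := DirichletCharacter.changeLevel (Nat.dvd_mul_left r' r) ψ' with hχ'
  have hneq : χ⁻¹ * χ' ≠ 1 := by
    intro hc
    have h1 : χ = χ' := by
      have := congrArg (fun z => χ * z) hc
      simp only [mul_one] at this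
      rw [← mul_assoc, mul_inv_cancel, one_mul] at this
      exact this.symm
    have h2 : r = r' := by
      have e1 := DirichletCharacter.conductor_changeLevel (χ := ψ) (Nat.dvd_mul_right r r')
      have e2 := DirichletCharacter.conductor_changeLevel (χ := ψ') (Nat.dvd_mul_left r' r)
      rw [← hχ] at e1
      rw [← hχ'] at e2
      rw [h1, e2] at e1
      rw [(DirichletCharacter.isPrimitive_def _).mp h, (DirichletCharacter.isPrimitive_def _).mp h'] at e1
      exact e1.symm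
    subst h2
    apply hne
    congr 1
    exact DirichletCharacter.changeLevel_injective (Nat.dvd_mul_right r r) h1
  have hsum : ∑ a : ZMod (r * r'), (χ⁻¹ * χ') a = 0 := MulChar.sum_eq_zero_of_ne_one hneq
  rw [← hsum]
  refine Finset.sum_nbij' (fun a => (a : ZMod (r * r'))) (fun a => ZMod.val a) ?_ ?_ ?_ ?_ ?_
  · intro a _; exact Finset.mem_univ _
  · intro a _; exact Finset.mem_range.mpr (ZMod.val_lt a)
  · intro a ha; exact ZMod.val_cast_of_lt (Finset.mem_range.mp ha)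
  · intro a _; exact ZMod.natCast_zmod_val a
  · intro a _
    rw [MulChar.mul_apply, ← MulChar.star_apply' χ]
    by_cases hcop : Nat.Coprime a (r * r')
    · have hi : IsCoprime (a : ℤ) ((r * r' : ℕ) : ℤ) := Nat.isCoprime_iff_coprime.mpr hcop
      have e1 := DirichletCharacter.changeLevel_eq_cast_of_dvd' ψ (Nat.dvd_mul_right r r') hi
      have e2 := DirichletCharacter.changeLevel_eq_cast_of_dvd' ψ' (Nat.dvd_mul_left r' r) hi
      rw [Int.cast_natCast, Int.cast_natCast] at e1 e2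
      rw [hχ, hχ', e1, e2]
      rfl
    · have hnu : ¬ IsUnit ((a : ℕ) : ZMod (r * r')) := by
        rw [ZMod.isUnit_iff_coprime]; exact hcop
      rw [MulChar.map_nonunit χ' hnu, mul_zero]
      rw [Nat.coprime_mul_iff_right, not_and_or] at hcop
      rcases hcop with h3 | h3
      · rw [MulChar.map_nonunit ψ (by rw [ZMod.isUnit_iff_coprime]; exact h3)]; simp
      · rw [MulChar.map_nonunit ψ' (by rw [ZMod.isUnit_iff_coprime]; exact h3)]; simp

lemma mv_intbound (A V : ℕ) (hA : 1 ≤ A) (hAV : A ≤ V) (u : ℝ) :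
    ‖∫ y in (A : ℝ)..V, (y : ℂ) ^ (-(1 + u * Complex.I))‖ ≤ (2 * Real.log V + 4) / (1 + |u|) := by
  have hA0 : (0 : ℝ) < A := by exact_mod_cast hA
  have hA1 : (1 : ℝ) ≤ A := by exact_mod_cast hA
  have hAV' : (A : ℝ) ≤ V := by exact_mod_cast hAV
  have hV0 : (0 : ℝ) < V := hA0.trans_le hAV'
  have hlogV : 0 ≤ Real.log V := Real.log_nonneg (hA1.trans hAV')
  have hu0 : 0 ≤ |u| := abs_nonneg u
  rw [le_div_iff₀ (by positivity)]
  rcases le_or_gt |u| 1 with h | h
  · have h1 : ‖∫ y in (A : ℝ)..V, (y : ℂ) ^ (-(1 + u * Complex.I))‖ ≤ Real.log V := by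
      refine (intervalIntegral.norm_integral_le_integral_norm hAV').trans ?_
      have e1 : ∫ y in (A : ℝ)..V, ‖(y : ℂ) ^ (-(1 + u * Complex.I))‖ = ∫ y in (A : ℝ)..V, 1 / y := by
        apply intervalIntegral.integral_congr
        intro y hy
        rw [Set.uIcc_of_le hAV'] at hy
        exact mv_norm_g u (hA0.trans_le hy.1)
      rw [e1, integral_one_div_of_pos hA0 hV0]
      exact Real.log_le_log (by positivity) (div_le_self hV0.le hA1)
    nlinarith
  · have hu : u ≠ 0 := by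
      intro h0; rw [h0, abs_zero] at h; linarith
    have hr1 : -(1 + u * Complex.I) ≠ -1 := by
      intro h0
      have := congrArg Complex.im h0
      simp at this
      exact hu this
    rw [integral_cpow (Or.inr ⟨hr1, by
      rw [Set.uIcc_of_le hAV']
      intro h0
      exact absurd h0.1 (not_le.mpr hA0)⟩)]
    have e2 : -(1 + u * Complex.I) + 1 = -(u * Complex.I) := by ring
    rw [e2, norm_div]
    have e3 : ‖-((u : ℂ) * Complex.I)‖ = |u| := by simp
    rw [e3]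
    have hn : ∀ x : ℝ, 0 < x → ‖(x : ℂ) ^ (-(u * Complex.I))‖ = 1 := by
      intro x hx
      rw [Complex.norm_cpow_eq_rpow_re_of_pos hx]
      simp
    have h1 : ‖((V : ℝ) : ℂ) ^ (-(u * Complex.I)) - ((A : ℝ) : ℂ) ^ (-(u * Complex.I))‖ ≤ 2 := by
      refine (norm_sub_le _ _).trans ?_
      rw [hn _ hV0, hn _ hA0]
      norm_num
    have h2 : ‖((V : ℝ) : ℂ) ^ (-(u * Complex.I)) - ((A : ℝ) : ℂ) ^ (-(u * Complex.I))‖ / |u| *
        (1 + |u|) ≤ 2 * 2 := by
      rw [div_mul_eq_mul_div, div_le_iff₀ (by linarith)]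
      nlinarith [norm_nonneg (((V : ℝ) : ℂ) ^ (-(u * Complex.I)) -
        ((A : ℝ) : ℂ) ^ (-(u * Complex.I)))]
    linarith

lemma mv_J (T t : ℝ) (h1 : -T ≤ t) (h2 : t ≤ T) :
    ∫ s in (-T)..T, 1 / (1 + |s - t|) ≤ 2 * Real.log (1 + 2 * T) := by
  have hcont : Continuous fun s : ℝ => 1 / (1 + |s - t|) := by
    refine continuous_const.div (by fun_prop) fun s => ?_
    positivity
  have e1 : ∫ s in (-T)..t, 1 / (1 + |s - t|) = Real.log (1 + t + T) := by
    have hd : ∀ s ∈ Set.uIcc (-T) t, HasDerivAt (fun s => -Real.log (1 + t - s))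
        (1 / (1 + |s - t|)) s := by
      intro s hs
      rw [Set.uIcc_of_le h1] at hs
      have hs2 : 0 < 1 + t - s := by linarith [hs.2]
      have h3 : HasDerivAt (fun s : ℝ => 1 + t - s) (-1) s := by
        simpa using (hasDerivAt_id s).const_sub (1 + t)
      have h4 := (h3.log hs2.ne').fun_neg
      have h5 : 1 / (1 + |s - t|) = -(-1 / (1 + t - s)) := by
        rw [abs_of_nonpos (by linarith [hs.2]), show 1 + -(s - t) = 1 + t - s by ring]
        ring
      rw [h5]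
      exact h4
    rw [intervalIntegral.integral_eq_sub_of_hasDerivAt hd (hcont.intervalIntegrable _ _)]
    have : 1 + t - t = 1 := by ring
    rw [this, Real.log_one]
    have : 1 + t - -T = 1 + t + T := by ring
    rw [this]
    ring
  have e2 : ∫ s in t..T, 1 / (1 + |s - t|) = Real.log (1 - t + T) := by
    have hd : ∀ s ∈ Set.uIcc t T, HasDerivAt (fun s => Real.log (1 - t + s))
        (1 / (1 + |s - t|)) s := by
      intro s hs
      rw [Set.uIcc_of_le h2] at hs
      have hs2 : 0 < 1 - t + s := by linarith [hs.1]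
      have h3 : HasDerivAt (fun s : ℝ => 1 - t + s) 1 s := by
        simpa using (hasDerivAt_id s).const_add (1 - t)
      have h4 := (h3.log hs2.ne')
      have h5 : 1 / (1 + |s - t|) = 1 / (1 - t + s) := by
        rw [abs_of_nonneg (by linarith [hs.1]), show 1 + (s - t) = 1 - t + s by ring]
      rw [h5]
      exact h4
    rw [intervalIntegral.integral_eq_sub_of_hasDerivAt hd (hcont.intervalIntegrable _ _)]
    have : 1 - t + t = 1 := by ring
    rw [this, Real.log_one, sub_zero]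
  rw [← intervalIntegral.integral_add_adjacent_intervals (hcont.intervalIntegrable (-T) t)
    (hcont.intervalIntegrable t T), e1, e2]
  have h3 : Real.log (1 + t + T) ≤ Real.log (1 + 2 * T) :=
    Real.log_le_log (by linarith) (by linarith)
  have h4 : Real.log (1 - t + T) ≤ Real.log (1 + 2 * T) :=
    Real.log_le_log (by linarith) (by linarith)
  linarith

lemma mv_sum_inv (A V : ℕ) (hA : 1 ≤ A) : ∑ a ∈ Icc A V, 1 / (a : ℝ) ≤ 1 + Real.log V := by
  have h1 : ∑ a ∈ Icc A V, 1 / (a : ℝ) ≤ ∑ a ∈ Icc 1 V, 1 / (a : ℝ) := by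
    apply Finset.sum_le_sum_of_subset_of_nonneg
    · intro x hx
      rw [Finset.mem_Icc] at hx ⊢
      exact ⟨hA.trans hx.1, hx.2⟩
    · intro i _ _; positivity
  refine h1.trans ?_
  have h2 := harmonic_le_one_add_log V
  rw [harmonic_eq_sum_Icc] at h2
  push_cast at h2
  simpa [one_div] using h2

open scoped Classical in
/-- the kernel -/
lemma mv_kernel (Q A V : ℕ) (hA : 1 ≤ A) (hAV : A ≤ V) (p p' : Σ r : ℕ, DirichletCharacter ℂ r)
    (hp : p ∈ PC Q) (hp' : p' ∈ PC Q) (u : ℝ) :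
    ‖∑ a ∈ Icc A V, conj (p.2 (a : ZMod p.1)) * p'.2 (a : ZMod p'.1) *
      (a : ℂ) ^ (-(1 + u * Complex.I))‖ ≤
      (if p = p' then (2 * Real.log V + 4) / (1 + |u|) else 0) +
        10 * (Q : ℝ) ^ 2 * (1 + |u|) / A := by
  obtain ⟨h1, h2, h3⟩ := mem_PC.mp hp
  obtain ⟨h1', h2', h3'⟩ := mem_PC.mp hp'
  have hA0 : (0 : ℝ) < A := by exact_mod_cast hA
  have hb : ∀ n : ℕ, ‖conj (p.2 (n : ZMod p.1)) * p'.2 (n : ZMod p'.1)‖ ≤ 1 := by
    intro n
    rw [norm_mul, RCLike.norm_conj]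
    have := mul_le_mul (p.2.norm_le_one (n : ZMod p.1)) (p'.2.norm_le_one (n : ZMod p'.1))
      (norm_nonneg _) zero_le_one
    simpa using this
  have hper := periodic_sum (p.1 * p'.1) (Nat.mul_pos h1 h1')
    (fun a => conj (p.2 (a : ZMod p.1)) * p'.2 (a : ZMod p'.1)) (by
      intro n
      push_cast
      simp) hb A V hA hAV u
  set Sm := ∑ a ∈ Icc A V, conj (p.2 (a : ZMod p.1)) * p'.2 (a : ZMod p'.1) *
      (a : ℂ) ^ (-(1 + u * Complex.I)) with hSm
  set J := ∫ y in (A : ℝ)..V, (y : ℂ) ^ (-(1 + u * Complex.I)) with hJ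
  have hQ : ((p.1 * p'.1 : ℕ) : ℝ) ≤ (Q : ℝ) ^ 2 := by
    have : p.1 * p'.1 ≤ Q ^ 2 := by rw [pow_two]; exact Nat.mul_le_mul h2 h2'
    exact_mod_cast this
  have hper2 : ‖Sm - (∑ a ∈ range (p.1 * p'.1), conj (p.2 (a : ZMod p.1)) * p'.2 (a : ZMod p'.1)) /
      ((p.1 * p'.1 : ℕ) : ℂ) * J‖ ≤ 10 * (Q : ℝ) ^ 2 * (1 + |u|) / A := by
    refine hper.trans ?_
    apply div_le_div_of_nonneg_right _ hA0.le
    apply mul_le_mul_of_nonneg_right _ (by positivity)
    linarith
  by_cases hpp : p = p'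
  · rw [if_pos hpp]
    have h5 : ‖(∑ a ∈ range (p.1 * p'.1), conj (p.2 (a : ZMod p.1)) * p'.2 (a : ZMod p'.1)) /
      ((p.1 * p'.1 : ℕ) : ℂ) * J‖ ≤ (2 * Real.log V + 4) / (1 + |u|) := by
      rw [norm_mul, norm_div, Complex.norm_natCast]
      have hpos : (0 : ℝ) < ((p.1 * p'.1 : ℕ) : ℝ) := by exact_mod_cast Nat.mul_pos h1 h1'
      have h6 : ‖∑ a ∈ range (p.1 * p'.1), conj (p.2 (a : ZMod p.1)) * p'.2 (a : ZMod p'.1)‖ /
          ((p.1 * p'.1 : ℕ) : ℝ) ≤ 1 := by
        rw [div_le_one hpos]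
        refine (norm_sum_le _ _).trans ((Finset.sum_le_sum (fun a _ => hb a)).trans ?_)
        simp
      have := mul_le_mul h6 (mv_intbound A V hA hAV u) (norm_nonneg _) zero_le_one
      rw [one_mul] at this
      exact this
    calc ‖Sm‖ = ‖(∑ a ∈ range (p.1 * p'.1), conj (p.2 (a : ZMod p.1)) * p'.2 (a : ZMod p'.1)) /
      ((p.1 * p'.1 : ℕ) : ℂ) * J + (Sm - (∑ a ∈ range (p.1 * p'.1),
        conj (p.2 (a : ZMod p.1)) * p'.2 (a : ZMod p'.1)) / ((p.1 * p'.1 : ℕ) : ℂ) * J)‖ := by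
          congr 1; ring
      _ ≤ _ := (norm_add_le _ _).trans (add_le_add h5 hper2)
  · rw [if_neg hpp, zero_add]
    obtain ⟨r, ψ⟩ := p
    obtain ⟨r', ψ'⟩ := p'
    have := mv_orth h1 h1' ψ ψ' h3 h3' hpp
    simp only at this hper2 ⊢
    rw [this] at hper2
    simpa using hper2

lemma mv_phi_norm (a : ℕ) (t : ℝ) : ‖(a : ℂ) ^ (-(t * Complex.I))‖ ≤ 1 := by
  rcases Nat.eq_zero_or_pos a with h | h
  · subst h
    by_cases ht : t = 0
    · subst ht; simp
    · rw [Nat.cast_zero, Complex.zero_cpow]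
      · simp
      · simpa using ht
  · have h0 : (0 : ℝ) < a := by exact_mod_cast h
    have := Complex.norm_cpow_eq_rpow_re_of_pos h0 (-(t * Complex.I))
    rw [Complex.ofReal_natCast] at this
    rw [this]
    simp

lemma mv_cpow (a : ℕ) (ha : 1 ≤ a) (t s : ℝ) :
    ((1 / (a : ℝ) : ℝ) : ℂ) * (conj ((a : ℂ) ^ (-(t * Complex.I))) * (a : ℂ) ^ (-(s * Complex.I))) =
      (a : ℂ) ^ (-(1 + ((s - t : ℝ) : ℂ) * Complex.I)) := by
  have ha0 : (a : ℂ) ≠ 0 := by exact_mod_cast (by omega : a ≠ 0)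
  have hl : Complex.log (a : ℂ) = ((Real.log a : ℝ) : ℂ) := by
    rw [← Complex.ofReal_natCast, Complex.ofReal_log (by positivity)]
  rw [Complex.cpow_def_of_ne_zero ha0, Complex.cpow_def_of_ne_zero ha0,
    Complex.cpow_def_of_ne_zero ha0, ← Complex.exp_conj, hl]
  have e1 : ((1 / (a : ℝ) : ℝ) : ℂ) = Complex.exp (-((Real.log a : ℝ) : ℂ)) := by
    rw [← Complex.ofReal_neg, ← Complex.ofReal_exp, Real.exp_neg, Real.exp_log (by positivity)]
    simp
  rw [e1, ← Complex.exp_add, ← Complex.exp_add]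
  congr 1
  simp only [map_mul, map_neg, Complex.conj_ofReal, Complex.conj_I]
  push_cast
  ring

/-- large sieve bound for all parameters -/
lemma mv_main (Q X : ℕ) (T : ℝ) (hT : 0 ≤ T) (hA : 1 ≤ AA X) (hAV : AA X ≤ VV X) :
    ∑ p ∈ PC Q, ∫ t in (-T)..T, ‖Mu X p t‖ ^ 2 ≤
      ((2 * Real.log (VV X) + 4) * (2 * Real.log (1 + 2 * T)) +
        (Q : ℝ) ^ 2 * (2 * T) * (10 * (Q : ℝ) ^ 2 * (1 + 2 * T) / AA X)) *
      (1 + Real.log (VV X)) := by
  classical
  let : MeasurableSpace (PC Q) := ⊤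
  have : MeasurableSingletonClass (PC Q) := ⟨fun _ => trivial⟩
  have : IsFiniteMeasure (Measure.count : Measure (PC Q)) := inferInstance
  set ν0 : Measure ℝ := volume.restrict (Set.Ioc (-T) T) with hν0
  set ν : Measure ((PC Q) × ℝ) := (Measure.count : Measure (PC Q)).prod ν0 with hν
  set A := AA X
  set V := VV X
  have hAr : (1 : ℝ) ≤ A := by exact_mod_cast hA
  have hVr : (1 : ℝ) ≤ V := hAr.trans (by exact_mod_cast hAV)
  have hlogV : 0 ≤ Real.log V := Real.log_nonneg hVr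
  set ε : ℝ := 10 * (Q : ℝ) ^ 2 * (1 + 2 * T) / A with hε
  have hε0 : 0 ≤ ε := by positivity
  set φ : ℕ → (PC Q) × ℝ → ℂ := fun a z =>
    z.1.1.2 (a : ZMod z.1.1.1) * (a : ℂ) ^ (-(z.2 * Complex.I)) with hφ
  have hφm : ∀ a, Measurable (φ a) := by
    intro a
    apply measurable_from_prod_countable_right
    intro p
    have hmeas : Measurable (fun y : ℝ => (a : ℂ) ^ (-(y * Complex.I))) := by
      rcases Nat.eq_zero_or_pos a with h | h
      · subst h
        have : (fun y : ℝ => ((0 : ℕ) : ℂ) ^ (-(y * Complex.I))) = fun y : ℝ =>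
            if y = 0 then 1 else 0 := by
          funext y
          by_cases hy : y = 0
          · simp [hy]
          · rw [if_neg hy, Nat.cast_zero, Complex.zero_cpow]
            simpa using hy
        rw [this]
        exact Measurable.ite (measurableSet_eq) measurable_const measurable_const
      · have ha : (a : ℂ) ≠ 0 := by exact_mod_cast (by omega : a ≠ 0)
        apply Continuous.measurable
        exact Continuous.const_cpow (by fun_prop) (Or.inl ha)
    exact hmeas.const_mul (p.1.2 (a : ZMod p.1.1))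
  have hφ1 : ∀ a z, ‖φ a z‖ ≤ 1 := by
    intro a z
    rw [hφ]
    simp only
    rw [norm_mul]
    have := mul_le_mul (z.1.1.2.norm_le_one (a : ZMod z.1.1.1)) (mv_phi_norm a z.2)
      (norm_nonneg _) zero_le_one
    simpa using this
  set c : ℕ → ℂ := fun a => (ArithmeticFunction.moebius a : ℂ) with hc
  have hc1 : ∀ a, ‖c a‖ ≤ 1 := by
    intro a
    rw [hc]
    simp only
    rw [Complex.norm_intCast]
    exact_mod_cast ArithmeticFunction.abs_moebius_le_one
  set w : ℕ → ℝ := fun a => 1 / (a : ℝ) with hw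
  have hw0 : ∀ a, 0 ≤ w a := fun a => by positivity
  have hMu : ∀ z : (PC Q) × ℝ, Mu X z.1.1 z.2 = ∑ a ∈ Icc A V, c a * (w a : ℂ) * φ a z := by
    intro z
    unfold Mu
    apply Finset.sum_congr rfl
    intro a ha
    have ha1 : 1 ≤ a := hA.trans (Finset.mem_Icc.mp ha).1
    have ha0 : (a : ℂ) ≠ 0 := by exact_mod_cast (by omega : a ≠ 0)
    rw [hc, hw, hφ]
    simp only
    have e1 : (a : ℂ) ^ (-(1 + z.2 * Complex.I)) =
        ((1 / (a : ℝ) : ℝ) : ℂ) * (a : ℂ) ^ (-(z.2 * Complex.I)) := by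
      rw [neg_add, Complex.cpow_add _ _ ha0, Complex.cpow_neg_one]
      push_cast
      rw [one_div]
    rw [e1]
    ring
  set B : ℝ := (2 * Real.log V + 4) * (2 * Real.log (1 + 2 * T)) + (Q : ℝ) ^ 2 * (2 * T) * ε with hB
  have hlogT : 0 ≤ Real.log (1 + 2 * T) := Real.log_nonneg (by linarith)
  have hB0 : 0 ≤ B := by
    rw [hB]
    have : 0 ≤ (Q : ℝ) ^ 2 * (2 * T) * ε := by positivity
    have : 0 ≤ (2 * Real.log V + 4) * (2 * Real.log (1 + 2 * T)) := by positivity
    linarith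
  have hae : ∀ᵐ z ∂ν, z.2 ∈ Set.Ioc (-T) T := by
    have h1 : ∀ᵐ t ∂ν0, t ∈ Set.Ioc (-T) T := ae_restrict_mem measurableSet_Ioc
    have h2 := (Measure.quasiMeasurePreserving_snd (μ := (Measure.count : Measure (PC Q)))
      (ν := ν0)).ae h1
    exact h2
  have hker : ∀ᵐ z ∂ν, ∫ z', ‖∑ a ∈ Icc A V, (w a : ℂ) * (conj (φ a z) * φ a z')‖ ∂ν ≤ B := by
    filter_upwards [hae] with z hz
    set g : (PC Q) × ℝ → ℝ := fun z' =>
      (if z.1 = z'.1 then (2 * Real.log V + 4) * (1 / (1 + |z'.2 - z.2|)) else 0) + ε with hg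
    have hgm : Measurable g := by
      apply measurable_from_prod_countable_right
      intro p
      refine Measurable.add_const ?_ ε
      by_cases hp : z.1 = p
      · simp only [hp, if_true]
        apply Continuous.measurable
        refine continuous_const.mul (continuous_const.div (by fun_prop) fun s => ?_)
        positivity
      · simp only [hp, if_false]
        exact measurable_const
    have hgb : ∀ z', ‖g z'‖ ≤ (2 * Real.log V + 4) + ε := by
      intro z'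
      have h1 : 0 ≤ (1 / (1 + |z'.2 - z.2|)) := by positivity
      have h2 : (1 / (1 + |z'.2 - z.2|)) ≤ 1 := by
        rw [div_le_one (by positivity)]
        linarith [abs_nonneg (z'.2 - z.2)]
      rw [hg]
      simp only
      split_ifs
      · rw [Real.norm_of_nonneg (by positivity)]
        have : (2 * Real.log V + 4) * (1 / (1 + |z'.2 - z.2|)) ≤ (2 * Real.log V + 4) * 1 :=
          mul_le_mul_of_nonneg_left h2 (by positivity)
        linarith
      · rw [zero_add, Real.norm_of_nonneg hε0]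
        linarith
    have hgint : Integrable g ν :=
      Integrable.of_bound hgm.aestronglyMeasurable _ (ae_of_all _ hgb)
    have h1 : ∫ z', ‖∑ a ∈ Icc A V, (w a : ℂ) * (conj (φ a z) * φ a z')‖ ∂ν ≤ ∫ z', g z' ∂ν := by
      apply integral_mono_of_nonneg (ae_of_all _ fun _ => norm_nonneg _) hgint
      filter_upwards [hae] with z' hz'
      have e1 : ∑ a ∈ Icc A V, (w a : ℂ) * (conj (φ a z) * φ a z') =
          ∑ a ∈ Icc A V, conj (z.1.1.2 (a : ZMod z.1.1.1)) * z'.1.1.2 (a : ZMod z'.1.1.1) *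
            (a : ℂ) ^ (-(1 + ((z'.2 - z.2 : ℝ) : ℂ) * Complex.I)) := by
        apply Finset.sum_congr rfl
        intro a ha
        have ha1 : 1 ≤ a := hA.trans (Finset.mem_Icc.mp ha).1
        rw [← mv_cpow a ha1 z.2 z'.2, hφ, hw]
        simp only [map_mul]
        ring
      rw [e1]
      refine (mv_kernel Q A V hA hAV z.1.1 z'.1.1 z.1.2 z'.1.2 (z'.2 - z.2)).trans ?_
      have hu : |z'.2 - z.2| ≤ 2 * T := by
        rw [abs_le]
        constructor <;> linarith [hz.1, hz.2, hz'.1, hz'.2]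
      have h3 : 10 * (Q : ℝ) ^ 2 * (1 + |z'.2 - z.2|) / A ≤ ε := by
        rw [hε]
        apply div_le_div_of_nonneg_right _ (by positivity)
        apply mul_le_mul_of_nonneg_left _ (by positivity)
        linarith
      rw [hg]
      simp only
      by_cases hzz : z.1 = z'.1
      · rw [if_pos hzz, if_pos (congrArg Subtype.val hzz)]
        rw [mul_one_div]
        linarith
      · rw [if_neg hzz, if_neg (fun h => hzz (Subtype.ext h))]
        linarith
    refine h1.trans ?_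
    rw [hν, integral_prod _ hgint, integral_count]
    have e2 : ∀ p : (PC Q), ∫ t, g (p, t) ∂ν0 =
        (if z.1 = p then (2 * Real.log V + 4) * ∫ t in (-T)..T, 1 / (1 + |t - z.2|) else 0) +
          2 * T * ε := by
      intro p
      have hTT : -T ≤ T := by linarith
      rw [hν0, ← intervalIntegral.integral_of_le hTT]
      rw [hg]
      simp only
      by_cases hp : z.1 = p
      · simp only [hp, if_true]
        rw [intervalIntegral.integral_add, intervalIntegral.integral_const_mul,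
          intervalIntegral.integral_const, smul_eq_mul]
        · ring
        · apply Continuous.intervalIntegrable
          refine continuous_const.mul (continuous_const.div (by fun_prop) fun s => ?_)
          positivity
        · exact intervalIntegrable_const
      · simp only [hp, if_false, zero_add]
        rw [intervalIntegral.integral_const, smul_eq_mul]
        ring
    simp_rw [e2]
    rw [Finset.sum_add_distrib, Finset.sum_ite_eq, if_pos (Finset.mem_univ _), Finset.sum_const,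
      nsmul_eq_mul]
    have h4 := mv_J T z.2 (by linarith [hz.1]) hz.2
    have h5 : (2 * Real.log V + 4) * ∫ t in (-T)..T, 1 / (1 + |t - z.2|) ≤
        (2 * Real.log V + 4) * (2 * Real.log (1 + 2 * T)) :=
      mul_le_mul_of_nonneg_left h4 (by positivity)
    have h6 : ((Finset.univ : Finset (PC Q)).card : ℝ) ≤ (Q : ℝ) ^ 2 := by
      rw [Finset.card_univ, Fintype.card_coe]
      exact_mod_cast card_PC_le Q
    have h7 : ((Finset.univ : Finset (PC Q)).card : ℝ) * (2 * T * ε) ≤ (Q : ℝ) ^ 2 * (2 * T * ε) :=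
      mul_le_mul_of_nonneg_right h6 (by positivity)
    rw [hB]
    linarith
  have hmain := mv_dual ν (Icc A V) w hw0 c hc1 φ hφm hφ1 B hB0 hker
  have hint : Integrable (fun z : (PC Q) × ℝ => ‖Mu X z.1.1 z.2‖ ^ 2) ν := by
    have hm : Measurable (fun z : (PC Q) × ℝ => ‖Mu X z.1.1 z.2‖ ^ 2) := by
      have : (fun z : (PC Q) × ℝ => ‖Mu X z.1.1 z.2‖ ^ 2) =
          fun z => ‖∑ a ∈ Icc A V, c a * (w a : ℂ) * φ a z‖ ^ 2 := by
        funext z; rw [hMu z]
      rw [this]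
      exact (Finset.measurable_fun_sum _ fun a _ => (hφm a).const_mul _).norm.pow_const 2
    refine Integrable.of_bound (C := (∑ a ∈ Icc A V, w a) ^ 2) hm.aestronglyMeasurable
      (ae_of_all _ fun z => ?_)
    rw [Real.norm_of_nonneg (by positivity), hMu z]
    refine pow_le_pow_left₀ (norm_nonneg _) ?_ 2
    refine (norm_sum_le _ _).trans (Finset.sum_le_sum fun a _ => ?_)
    rw [norm_mul, norm_mul, Complex.norm_real, Real.norm_of_nonneg (hw0 a)]
    have := mul_le_mul (mul_le_mul_of_nonneg_right (hc1 a) (hw0 a)) (hφ1 a z) (norm_nonneg _)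
      (by simpa using hw0 a)
    simpa using this
  have e3 : ∑ p ∈ PC Q, ∫ t in (-T)..T, ‖Mu X p t‖ ^ 2 =
      ∫ z, ‖∑ a ∈ Icc A V, c a * (w a : ℂ) * φ a z‖ ^ 2 ∂ν := by
    have e4 : ∫ z, ‖∑ a ∈ Icc A V, c a * (w a : ℂ) * φ a z‖ ^ 2 ∂ν =
        ∫ z : (PC Q) × ℝ, ‖Mu X z.1.1 z.2‖ ^ 2 ∂ν := by
      apply integral_congr_ae
      filter_upwards with z
      rw [hMu z]
    rw [e4, hν, integral_prod _ hint, integral_count]
    rw [← Finset.sum_coe_sort]
    apply Finset.sum_congr rfl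
    intro p _
    rw [intervalIntegral.integral_of_le (by linarith : -T ≤ T)]
  rw [e3]
  refine hmain.trans ?_
  exact mul_le_mul_of_nonneg_left (mv_sum_inv A V hA) hB0

/-- **Mean value theorem.** `T = Q^11`, `S = ∑_p ∫_{-T}^{T} ‖M_p(t)‖² dt ≤ 100 (log X)^3`.

Proof (duality). `S = ∑_a μ(a)/a conj(E_a)`, `E_a = ∑_p ∫ M_p(t) conj(ψ_p(a)) a^(it) dt`, so
`S² ≤ (∑_a 1/a) (∑_a |E_a|²/a)`, all sums over `a ∈ [AA X, VV X]`; and
`∑_a |E_a|²/a = ∑_{p,p'} ∫∫ M_p(t) conj(M_{p'}(t')) K_{p,p'}(t-t')`,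
`K_{p,p'}(u) = ∑_a conj(ψ_p(a)) ψ_{p'}(a) a^(-1+iu)`. For `p ≠ p'` the function `conj ψ_p ψ_{p'}`
is periodic mod `r r'` with mean `0` (as `ψ_p, ψ_{p'}` are distinct primitive characters, their
lifts to level `r r'` differ), so `|K|` is small by `periodic_sum`; for `p = p'` one has
`|K(u)| ≤ (2 log V + 4) / (1 + |u|)` up to a small error, and Schur's test (`mv_dual`) finishes. -/
theorem mean_value : ∃ K : ℝ, ∀ Q X : ℕ, Reg K Q X →
    ∑ p ∈ PC Q, ∫ t in (-(Q : ℝ) ^ 11)..((Q : ℝ) ^ 11), ‖Mu X p t‖ ^ 2 ≤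
      100 * (Real.log X) ^ (3 : ℝ) := by
  obtain ⟨K1, hK1, h1⟩ := reg_pow_le 60 26 (1 / 4) (by norm_num)
  refine ⟨K1 + 100, fun Q X hR => ?_⟩
  have hR1 : Reg K1 Q X := hR.mono (by linarith) (by linarith)
  have hR2 : Reg 100 Q X := hR.mono (by linarith) (by linarith)
  have hX0 : 0 < X := hR2.X_pos (by norm_num)
  have hXr : (100 : ℝ) ≤ X := hR2.X_ge (by norm_num)
  have hlX : (101 : ℝ) ≤ Real.log X := by
    have := hR2.logX_ge (by norm_num)
    have h2 := Real.add_one_le_exp (100 : ℝ)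
    linarith
  have hQ1 : (100 : ℝ) ≤ Q := hR2.Q_ge (by norm_num)
  have hQ1' : (1 : ℝ) ≤ Q := by linarith
  have hlQ : 100 * Real.log Q ≤ Real.log X := hR2.logQ_le (by norm_num)
  have hlQ1 : 1 ≤ Real.log Q := by
    have := hR2.logQ_ge (by norm_num)
    linarith
  rcases lt_or_ge (VV X) (AA X) with hVA | hAV
  · -- empty sum
    have h3 : ∀ p t, Mu X p t = 0 := by
      intro p t
      unfold Mu
      rw [Finset.Icc_eq_empty (by omega), Finset.sum_empty]
    have : ∑ p ∈ PC Q, ∫ t in (-(Q : ℝ) ^ 11)..((Q : ℝ) ^ 11), ‖Mu X p t‖ ^ 2 = 0 := by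
      apply Finset.sum_eq_zero
      intro p _
      simp [h3]
    rw [this]
    positivity
  have hA : 1 ≤ AA X := by
    unfold AA
    rw [Nat.one_le_ceil_iff]
    positivity
  have hT0 : (0 : ℝ) ≤ (Q : ℝ) ^ 11 := by positivity
  refine (mv_main Q X ((Q : ℝ) ^ 11) hT0 hA hAV).trans ?_
  -- bounds for the parameters
  have hVlog : Real.log (VV X) ≤ Real.log X := by
    have hV1 : (1 : ℝ) ≤ (VV X : ℝ) := by exact_mod_cast hA.trans hAV
    have h2 : (VV X : ℝ) ≤ ((60 * X : ℕ) : ℝ) ^ ((1 : ℝ) / 3) := Nat.floor_le (by positivity)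
    have h3 : Real.log (VV X) ≤ (1 / 3) * Real.log ((60 * X : ℕ) : ℝ) := by
      rw [← Real.log_rpow (by positivity)]
      exact Real.log_le_log (by linarith) h2
    have h4 : Real.log ((60 * X : ℕ) : ℝ) = Real.log 60 + Real.log X := by
      push_cast
      rw [Real.log_mul (by norm_num) (by positivity)]
    have h5 : Real.log 60 ≤ Real.log X := Real.log_le_log (by norm_num) (by linarith)
    have h6 : 0 ≤ Real.log X := by linarith
    linarith
  have hlogT : Real.log (1 + 2 * (Q : ℝ) ^ 11) ≤ Real.log X := by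
    have h2 : 1 + 2 * (Q : ℝ) ^ 11 ≤ (Q : ℝ) ^ 12 := by
      have h3 : (1 : ℝ) ≤ (Q : ℝ) ^ 11 := one_le_pow₀ hQ1'
      have h4 : (Q : ℝ) ^ 12 = (Q : ℝ) ^ 11 * Q := by ring
      rw [h4]
      nlinarith
    have h3 : Real.log (1 + 2 * (Q : ℝ) ^ 11) ≤ 12 * Real.log Q := by
      have := Real.log_le_log (by positivity) h2
      rw [Real.log_pow] at this
      push_cast at this
      exact this
    linarith
  have hsmall : (Q : ℝ) ^ 2 * (2 * (Q : ℝ) ^ 11) *
      (10 * (Q : ℝ) ^ 2 * (1 + 2 * (Q : ℝ) ^ 11) / AA X) ≤ 1 := by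
    have hA' : (X : ℝ) ^ ((1 : ℝ) / 4) ≤ AA X := Nat.le_ceil _
    have hXp : 0 < (X : ℝ) ^ ((1 : ℝ) / 4) := by positivity
    have hAp : (0 : ℝ) < AA X := hXp.trans_le hA'
    have h2 := h1 Q X hR1
    have h3 : (Q : ℝ) ^ (26 : ℝ) = (Q : ℝ) ^ 26 := by
      rw [← Real.rpow_natCast]; norm_num
    rw [h3] at h2
    rw [← mul_div_assoc, div_le_one hAp]
    have h4 : 1 + 2 * (Q : ℝ) ^ 11 ≤ 3 * (Q : ℝ) ^ 11 := by
      have h3 : (1 : ℝ) ≤ (Q : ℝ) ^ 11 := one_le_pow₀ hQ1'
      linarith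
    calc (Q : ℝ) ^ 2 * (2 * (Q : ℝ) ^ 11) * (10 * (Q : ℝ) ^ 2 * (1 + 2 * (Q : ℝ) ^ 11))
        ≤ (Q : ℝ) ^ 2 * (2 * (Q : ℝ) ^ 11) * (10 * (Q : ℝ) ^ 2 * (3 * (Q : ℝ) ^ 11)) := by
          gcongr
      _ = 60 * (Q : ℝ) ^ 26 := by ring
      _ ≤ _ := h2.trans hA'
  set L := Real.log X with hL
  have hV0 : 0 ≤ Real.log (VV X) := Real.log_nonneg (by exact_mod_cast hA.trans hAV)
  have hT1 : 0 ≤ Real.log (1 + 2 * (Q : ℝ) ^ 11) := Real.log_nonneg (by linarith)
  have h8 : (2 * Real.log (VV X) + 4) * (2 * Real.log (1 + 2 * (Q : ℝ) ^ 11)) ≤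
      (2 * L + 4) * (2 * L) := by
    apply mul_le_mul (by linarith) (by linarith) (by linarith) (by linarith)
  have h9 : (2 * Real.log (VV X) + 4) * (2 * Real.log (1 + 2 * (Q : ℝ) ^ 11)) +
      (Q : ℝ) ^ 2 * (2 * (Q : ℝ) ^ 11) *
      (10 * (Q : ℝ) ^ 2 * (1 + 2 * (Q : ℝ) ^ 11) / AA X) ≤ 6 * L ^ 2 := by
    nlinarith
  have h10 : 1 + Real.log (VV X) ≤ 2 * L := by linarith
  calc _ ≤ (6 * L ^ 2) * (2 * L) := mul_le_mul h9 h10 (by linarith) (by positivity)
    _ ≤ 100 * L ^ 3 := by nlinarith [pow_pos (by linarith : 0 < L) 3]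
    _ = 100 * L ^ (3 : ℝ) := by
      rw [← Real.rpow_natCast]; norm_num

end Pool.Agent.Lib.H68T
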