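import Pool.Agent.Lib.H68T.MAINI
import Pool.Agent.Lib.H68T.MV
import Pool.Agent.Lib.H68T.MS

/-!
# Chunk MAIN: the `L¹` norm of the main parts
-/

open Finset MeasureTheory

namespace Pool.Agent.Lib.H68T

theorem main_cont_FF (X : ℕ) (h : ℕ → ℂ) : Continuous (FF X h) := by
  unfold FF
  refine continuous_finsetSum _ fun m hm => ?_
  have hm0 : (m : ℂ) ≠ 0 := by
    have := (mem_Icc.mp hm).1
    exact_mod_cast (show m ≠ 0 by omega)
  refine Continuous.mul continuous_const ?_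
  exact Continuous.const_cpow (by fun_prop) (Or.inl hm0)

theorem main_tail (T : ℝ) (hT : 0 < T) : Real.pi / 2 - Real.arctan T ≤ 1 / T := by
  have h1 : 0 < Real.pi / 2 - Real.arctan T := by linarith [Real.arctan_lt_pi_div_two T]
  have h2 : Real.pi / 2 - Real.arctan T < Real.pi / 2 := by linarith [Real.arctan_pos.2 hT]
  have := Real.lt_tan h1 h2
  rw [Real.tan_pi_div_two_sub, Real.tan_arctan] at this
  simpa using this.le

theorem main_int (M : ℝ → ℝ) (hM : Continuous M) (h0 : ∀ t, 0 ≤ M t) (B S T₁ T₂ T₃ : ℝ)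
    (hB : ∀ t, M t ≤ B) (hS : ∀ t, |t| ≤ T₃ → M t ≤ S) (hT₁ : 0 ≤ T₁) (hT₂ : 0 < T₂)
    (h3 : T₁ + T₂ ≤ T₃) :
    ∫ t in (-T₁)..T₁, ∫ τ : ℝ, (1 + τ ^ 2)⁻¹ * M (t + τ) ^ 3 ≤
      Real.pi * (S * ∫ t in (-T₃)..T₃, M t ^ 2) + 2 / T₂ * (2 * T₁ * B ^ 3) := by
  have hB0 : 0 ≤ B := (h0 0).trans (hB 0)
  have hT₃ : 0 ≤ T₃ := by linarith
  have hS0 : 0 ≤ S := (h0 0).trans (hS 0 (by simpa using hT₃))
  have hint : Integrable (Function.uncurry fun t τ : ℝ => (1 + τ ^ 2)⁻¹ * M (t + τ) ^ 3)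
      ((volume.restrict (Set.Ioc (-T₁) T₁)).prod volume) := by
    have e1 : Integrable (fun z : ℝ × ℝ => (1 : ℝ) * (1 + z.2 ^ 2)⁻¹)
        ((volume.restrict (Set.Ioc (-T₁) T₁)).prod volume) :=
      (integrable_const (1 : ℝ)).mul_prod integrable_inv_one_add_sq
    have e2 := e1.mul_bdd (g := fun z : ℝ × ℝ => M (z.1 + z.2) ^ 3) (c := B ^ 3)
      (by fun_prop) (Filter.Eventually.of_forall fun z => by
        rw [Real.norm_of_nonneg (pow_nonneg (h0 _) 3)]
        exact pow_le_pow_left₀ (h0 _) (hB _) 3)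
    refine e2.congr (Filter.Eventually.of_forall fun z => ?_)
    simp [Function.uncurry]
  rw [intervalIntegral.integral_of_le (by linarith), integral_integral_swap hint]
  set I : ℝ := ∫ t in (-T₃)..T₃, M t ^ 2 with hI
  have hI0 : 0 ≤ I := intervalIntegral.integral_nonneg (by linarith) fun t _ => by positivity
  set U : Set ℝ := Set.Ioi T₂ ∪ Set.Iic (-T₂) with hU
  have hUm : MeasurableSet U := measurableSet_Ioi.union measurableSet_Iic
  have hb : ∀ τ : ℝ, ∫ t in Set.Ioc (-T₁) T₁, (1 + τ ^ 2)⁻¹ * M (t + τ) ^ 3 ≤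
      (1 + τ ^ 2)⁻¹ * (S * I) + U.indicator (fun τ : ℝ => (1 + τ ^ 2)⁻¹) τ * (2 * T₁ * B ^ 3) := by
    intro τ
    have hτ : 0 ≤ (1 + τ ^ 2)⁻¹ := by positivity
    rw [integral_const_mul, ← intervalIntegral.integral_of_le (by linarith)]
    by_cases hτU : τ ∈ U
    · rw [Set.indicator_of_mem hτU]
      have h4 : ∫ t in (-T₁)..T₁, M (t + τ) ^ 3 ≤ ∫ t in (-T₁)..T₁, B ^ 3 := by
        refine intervalIntegral.integral_mono_on (by linarith)
          (Continuous.intervalIntegrable (by fun_prop) _ _)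
          (Continuous.intervalIntegrable (by fun_prop) _ _) fun t _ => ?_
        exact pow_le_pow_left₀ (h0 _) (hB _) 3
      rw [intervalIntegral.integral_const, smul_eq_mul] at h4
      have h5 : 0 ≤ (1 + τ ^ 2)⁻¹ * (S * I) := by positivity
      calc (1 + τ ^ 2)⁻¹ * ∫ t in (-T₁)..T₁, M (t + τ) ^ 3
          ≤ (1 + τ ^ 2)⁻¹ * ((T₁ - -T₁) * B ^ 3) := mul_le_mul_of_nonneg_left h4 hτ
        _ = (1 + τ ^ 2)⁻¹ * (2 * T₁ * B ^ 3) := by ring
        _ ≤ _ := by linarith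
    · rw [Set.indicator_of_notMem hτU, zero_mul, add_zero]
      have hτ2 : |τ| ≤ T₂ := by
        rw [hU, Set.mem_union, not_or] at hτU
        obtain ⟨ha, hb⟩ := hτU
        simp only [Set.mem_Ioi, Set.mem_Iic, not_lt, not_le] at ha hb
        exact abs_le.2 ⟨hb.le, ha⟩
      obtain ⟨hτ3, hτ4⟩ := abs_le.1 hτ2
      refine mul_le_mul_of_nonneg_left ?_ hτ
      have h4 : ∫ t in (-T₁)..T₁, M (t + τ) ^ 3 ≤ ∫ t in (-T₁)..T₁, S * M (t + τ) ^ 2 := by
        refine intervalIntegral.integral_mono_on (by linarith)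
          (Continuous.intervalIntegrable (by fun_prop) _ _)
          (Continuous.intervalIntegrable (by fun_prop) _ _) fun t ht => ?_
        have h6 : M (t + τ) ≤ S := hS _ (abs_le.2 ⟨by linarith [ht.1], by linarith [ht.2]⟩)
        calc M (t + τ) ^ 3 = M (t + τ) * M (t + τ) ^ 2 := by ring
          _ ≤ S * M (t + τ) ^ 2 := mul_le_mul_of_nonneg_right h6 (by positivity)
      refine h4.trans ?_
      rw [intervalIntegral.integral_const_mul]
      refine mul_le_mul_of_nonneg_left ?_ hS0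
      rw [intervalIntegral.integral_comp_add_right (fun t => M t ^ 2) τ]
      rw [hI]
      refine intervalIntegral.integral_mono_interval (by linarith) (by linarith) (by linarith)
        (Filter.Eventually.of_forall fun t => ?_)
        (Continuous.intervalIntegrable (by fun_prop) _ _)
      show 0 ≤ M t ^ 2
      positivity
  have hi1 : Integrable (fun τ : ℝ => (1 + τ ^ 2)⁻¹) := integrable_inv_one_add_sq
  have hi2 : Integrable (U.indicator (fun τ : ℝ => (1 + τ ^ 2)⁻¹)) := hi1.indicator hUm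
  refine (integral_mono hint.integral_prod_right ((hi1.mul_const _).add (hi2.mul_const _))
    hb).trans ?_
  rw [integral_add' (hi1.mul_const _) (hi2.mul_const _), integral_mul_const, integral_mul_const,
    integral_univ_inv_one_add_sq]
  refine add_le_add le_rfl (mul_le_mul_of_nonneg_right ?_ (by positivity))
  rw [integral_indicator hUm, hU, setIntegral_union ?_ measurableSet_Iic hi1.integrableOn
    hi1.integrableOn, integral_Ioi_inv_one_add_sq, integral_Iic_inv_one_add_sq, Real.arctan_neg]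
  · have := main_tail T₂ hT₂
    have e : 2 / T₂ = 1 / T₂ + 1 / T₂ := by ring
    rw [e]
    linarith
  · rw [Set.disjoint_left]
    intro x hx hx'
    simp only [Set.mem_Ioi, Set.mem_Iic] at hx hx'
    linarith

/-- `∑_p ∫_{|t| ≤ Q^7} ‖FF(ψ hmain)‖ ≤ (log X)^(-A)`. From `main_integral`: for `|τ| ≤ Q^10`
(so `|t + τ| ≤ 2 Q^10 ≤ Q^11`) use `‖M‖³ ≤ sup ‖M‖ ‖M‖²`, `Mu_small` and `mean_value`
(Fubini: total at most `C (log X)^4 · π · (log X)^(-A') · 100 (log X)^3`); for `|τ| > Q^10` use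
`‖M‖ ≤ 2 log X`, `∫_{|τ| > Q^10} (1+τ²)^(-1) ≤ 2 Q^(-10)`, `card_PC_le`: at most
`C (log X)^4 Q² · 2Q^7 · 2Q^(-10) (2 log X)^3`. -/
theorem main_L1 (c : ℝ) (hc : 0 < c) (A : ℝ) : ∃ K : ℝ, ∀ Q X : ℕ, Reg K Q X → Good c Q →
    ∑ p ∈ PC Q, ∫ t in (-(Q : ℝ) ^ 7)..((Q : ℝ) ^ 7),
      ‖FF X (fun m => (hmain Q X m : ℂ) * p.2 (m : ZMod p.1)) t‖ ≤ (Real.log X) ^ (-A) := by
  obtain ⟨C, K₁, hC, hK₁⟩ := main_integral
  obtain ⟨K₂, hK₂⟩ := Mu_small c hc (A + 8)
  obtain ⟨K₃, hK₃⟩ := mean_value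
  obtain ⟨K₄, hK₄1, hK₄⟩ := reg_log_le (64 * C) (7 + A) 1 one_pos
  refine ⟨|K₁| + |K₂| + |K₃| + K₄ + 200 * Real.pi * C + 10, ?_⟩
  intro Q X hreg hgood
  have hpi := Real.pi_pos
  have a1 : 0 ≤ |K₁| := abs_nonneg _
  have a2 : 0 ≤ |K₂| := abs_nonneg _
  have a3 : 0 ≤ |K₃| := abs_nonneg _
  have b1 : K₁ ≤ |K₁| := le_abs_self _
  have b2 : K₂ ≤ |K₂| := le_abs_self _
  have b3 : K₃ ≤ |K₃| := le_abs_self _
  have a4 : 0 ≤ 200 * Real.pi * C := by positivity
  have hKpos : 0 ≤ |K₁| + |K₂| + |K₃| + K₄ + 200 * Real.pi * C + 10 := by linarith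
  have r1 : Reg K₁ Q X := hreg.mono hKpos (by linarith)
  have r2 : Reg K₂ Q X := hreg.mono hKpos (by linarith)
  have r3 : Reg K₃ Q X := hreg.mono hKpos (by linarith)
  have r4 : Reg K₄ Q X := hreg.mono hKpos (by linarith)
  have r5 : Reg (200 * Real.pi * C + 10) Q X := hreg.mono hKpos (by linarith)
  set L : ℝ := Real.log X with hL
  have hLe : Real.exp (200 * Real.pi * C + 10) ≤ L := r5.logX_ge (by linarith)
  have hL10 : 200 * Real.pi * C + 10 ≤ L := by
    have := Real.add_one_le_exp (200 * Real.pi * C + 10)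
    linarith
  have hL0 : 0 < L := by linarith
  have hX : 1 ≤ X := r5.X_pos (by linarith)
  have hQ10 : (10 : ℝ) ≤ Q := by
    have := r5.Q_ge (by linarith)
    linarith
  have hQ0 : (0 : ℝ) < Q := by linarith
  have hQ4 : 64 * C * L ^ (7 + A) ≤ Q := by
    have := hK₄ Q X r4
    simpa using this
  set T₁ : ℝ := (Q : ℝ) ^ 7 with hT₁
  set T₂ : ℝ := (Q : ℝ) ^ 10 with hT₂
  set T₃ : ℝ := (Q : ℝ) ^ 11 with hT₃
  have hT₁0 : 0 < T₁ := by positivity
  have hT₂0 : 0 < T₂ := by positivity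
  have h12 : T₁ ≤ T₂ := pow_le_pow_right₀ (by linarith) (by norm_num)
  have h3 : T₁ + T₂ ≤ T₃ := by
    have : T₃ = T₂ * Q := by rw [hT₃, hT₂]; ring
    rw [this]
    nlinarith
  have hlog : 1 + Real.log (60 * X) ≤ 2 * L := by
    have hX0 : (X : ℝ) ≠ 0 := by positivity
    rw [Real.log_mul (by norm_num) hX0, ← hL]
    have : Real.log 60 ≤ 5 := by
      rw [Real.log_le_iff_le_exp (by norm_num)]
      have h1 : (2.7 : ℝ) ≤ Real.exp 1 := by
        have := Real.exp_one_gt_d9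
        linarith
      have h2 : Real.exp 5 = Real.exp 1 ^ 5 := by rw [← Real.exp_nat_mul]; norm_num
      rw [h2]
      have h3 : (2.7 : ℝ) ^ 5 ≤ Real.exp 1 ^ 5 := pow_le_pow_left₀ (by norm_num) h1 5
      have h4 : (60 : ℝ) ≤ 2.7 ^ 5 := by norm_num
      linarith
    linarith
  have key : ∀ p ∈ PC Q, ∫ t in (-T₁)..T₁,
      ‖FF X (fun m => (hmain Q X m : ℂ) * p.2 (m : ZMod p.1)) t‖ ≤
      C * L ^ (4 : ℝ) * (Real.pi * (L ^ (-(A + 8)) * ∫ t in (-T₃)..T₃, ‖Mu X p t‖ ^ 2) +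
        2 / T₂ * (2 * T₁ * (2 * L) ^ 3)) := by
    intro p hp
    have hp1 : 1 ≤ p.1 := (mem_PC.mp hp).1
    have hcont := (continuous_Mu X p).norm
    have hMi := main_int (fun t => ‖Mu X p t‖) hcont (fun t => norm_nonneg _) (2 * L)
      (L ^ (-(A + 8))) T₁ T₂ T₃ (fun t => (Mu_le X p t hX).trans hlog)
      (fun t ht => hK₂ Q X r2 hgood p hp t ht) hT₁0.le hT₂0 h3
    have hi : IntervalIntegrable (fun t => C * L ^ (4 : ℝ) *
        ∫ τ : ℝ, (1 + τ ^ 2)⁻¹ * ‖Mu X p (t + τ)‖ ^ 3) volume (-T₁) T₁ := by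
      refine IntervalIntegrable.const_mul ?_ _
      rw [intervalIntegrable_iff_integrableOn_Ioc_of_le (by linarith)]
      have hint : Integrable (Function.uncurry fun t τ : ℝ => (1 + τ ^ 2)⁻¹ *
          ‖Mu X p (t + τ)‖ ^ 3) ((volume.restrict (Set.Ioc (-T₁) T₁)).prod volume) := by
        have e1 : Integrable (fun z : ℝ × ℝ => (1 : ℝ) * (1 + z.2 ^ 2)⁻¹)
            ((volume.restrict (Set.Ioc (-T₁) T₁)).prod volume) :=
          (integrable_const (1 : ℝ)).mul_prod integrable_inv_one_add_sq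
        have hcM : Continuous (fun z : ℝ × ℝ => ‖Mu X p (z.1 + z.2)‖ ^ 3) :=
          ((continuous_Mu X p).comp (continuous_fst.add continuous_snd)).norm.pow 3
        have e2 := e1.mul_bdd (g := fun z : ℝ × ℝ => ‖Mu X p (z.1 + z.2)‖ ^ 3) (c := (2 * L) ^ 3)
          hcM.aestronglyMeasurable (Filter.Eventually.of_forall fun z => by
            rw [Real.norm_of_nonneg (by positivity)]
            exact pow_le_pow_left₀ (norm_nonneg _) ((Mu_le X p _ hX).trans hlog) 3)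
        refine e2.congr (Filter.Eventually.of_forall fun z => ?_)
        simp [Function.uncurry]
      exact hint.integral_prod_left
    have hstep : ∫ t in (-T₁)..T₁,
        ‖FF X (fun m => (hmain Q X m : ℂ) * p.2 (m : ZMod p.1)) t‖ ≤
        ∫ t in (-T₁)..T₁, C * L ^ (4 : ℝ) *
          ∫ τ : ℝ, (1 + τ ^ 2)⁻¹ * ‖Mu X p (t + τ)‖ ^ 3 := by
      refine intervalIntegral.integral_mono_on (by linarith)
        ((main_cont_FF X _).norm.intervalIntegrable _ _) hi fun t _ => ?_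
      exact hK₁ Q X r1 p hp1 t
    refine hstep.trans ?_
    rw [intervalIntegral.integral_const_mul]
    exact mul_le_mul_of_nonneg_left hMi (by positivity)
  refine (Finset.sum_le_sum key).trans ?_
  rw [← Finset.mul_sum, Finset.sum_add_distrib, ← Finset.mul_sum, ← Finset.mul_sum,
    Finset.sum_const, nsmul_eq_mul]
  have hmv := hK₃ Q X r3
  have hcard : ((PC Q).card : ℝ) ≤ (Q : ℝ) ^ 2 := by exact_mod_cast card_PC_le Q
  have hpart1 : C * L ^ (4 : ℝ) * (Real.pi * (L ^ (-(A + 8)) *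
      ∑ p ∈ PC Q, ∫ t in (-T₃)..T₃, ‖Mu X p t‖ ^ 2)) ≤ L ^ (-A) / 2 := by
    calc C * L ^ (4 : ℝ) * (Real.pi * (L ^ (-(A + 8)) *
          ∑ p ∈ PC Q, ∫ t in (-T₃)..T₃, ‖Mu X p t‖ ^ 2))
        ≤ C * L ^ (4 : ℝ) * (Real.pi * (L ^ (-(A + 8)) * (100 * L ^ (3 : ℝ)))) := by
          gcongr
      _ = 100 * Real.pi * C * L ^ (-A - 1) := by
          have : L ^ (-A - 1) = L ^ (4 : ℝ) * L ^ (-(A + 8)) * L ^ (3 : ℝ) := by
            rw [← Real.rpow_add hL0, ← Real.rpow_add hL0]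
            congr 1
            ring
          rw [this]
          ring
      _ = (100 * Real.pi * C / L) * L ^ (-A) := by
          rw [Real.rpow_sub_one hL0.ne']
          ring
      _ ≤ (1 / 2) * L ^ (-A) := by
          refine mul_le_mul_of_nonneg_right ?_ (by positivity)
          rw [div_le_iff₀ hL0]
          linarith
      _ = L ^ (-A) / 2 := by ring
  have hpart2 : C * L ^ (4 : ℝ) * (((PC Q).card : ℝ) * (2 / T₂ * (2 * T₁ * (2 * L) ^ 3))) ≤
      L ^ (-A) / 2 := by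
    calc C * L ^ (4 : ℝ) * (((PC Q).card : ℝ) * (2 / T₂ * (2 * T₁ * (2 * L) ^ 3)))
        ≤ C * L ^ (4 : ℝ) * ((Q : ℝ) ^ 2 * (2 / T₂ * (2 * T₁ * (2 * L) ^ 3))) := by
          gcongr
      _ = 32 * C * L ^ (7 : ℝ) / Q := by
          have e1 : L ^ (7 : ℝ) = L ^ (4 : ℝ) * L ^ 3 := by
            rw [← Real.rpow_natCast L 3, ← Real.rpow_add hL0]
            norm_num
          rw [e1, hT₁, hT₂]
          field_simp
          ring
      _ = (64 * C * L ^ (7 + A)) / Q * (L ^ (-A) / 2) := by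
          rw [Real.rpow_add hL0, Real.rpow_neg hL0.le]
          have : L ^ A ≠ 0 := (Real.rpow_pos_of_pos hL0 A).ne'
          field_simp
          ring
      _ ≤ 1 * (L ^ (-A) / 2) := by
          refine mul_le_mul_of_nonneg_right ?_ (by positivity)
          rw [div_le_one hQ0]
          exact hQ4
      _ = L ^ (-A) / 2 := one_mul _
  rw [mul_add]
  linarith

end Pool.Agent.Lib.H68T
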