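import Pool.Agent.Lib.H68T.HDEC
import Pool.Agent.Lib.H68T.LONG
import Pool.Agent.Lib.H68T.MAIN
import Pool.Agent.Lib.H68T.PNTE
import Pool.Agent.Lib.H68T.BPS

/-!
# Chunk D2B; part of D2: the `L¹` bounds for `F_ψ`
-/

open Finset MeasureTheory

namespace Pool.Agent.Lib.H68T

/-- the contribution of the long variables at one frequency -/
theorem d2b_long (Q X : ℕ) (α : ℕ → ℕ → ℝ) (B E : ℝ) (hE : 0 ≤ E)
    (hα : ∀ j ∈ range 2, ∑ a ∈ Icc 1 (60 * X), |α j a| / a ≤ B)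
    (p : Σ r : ℕ, DirichletCharacter ℂ r) (t : ℝ)
    (hL : ∀ j ∈ range 2, ∀ a : ℕ, 1 ≤ a → ‖Long Q X p j a t‖ ≤ E) :
    ‖∑ j ∈ range 2, ∑ a ∈ Icc 1 (60 * X), (α j a : ℂ) * p.2 (a : ZMod p.1) *
          (a : ℂ) ^ (-(1 + t * Complex.I)) * Long Q X p j a t‖ ≤ 2 * (B * E) := by
  have h1 : ∀ j ∈ range 2, ‖∑ a ∈ Icc 1 (60 * X), (α j a : ℂ) * p.2 (a : ZMod p.1) *
      (a : ℂ) ^ (-(1 + t * Complex.I)) * Long Q X p j a t‖ ≤ B * E := by
    intro j hj
    refine (norm_sum_le _ _).trans ?_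
    have h2 : ∀ a ∈ Icc 1 (60 * X), ‖(α j a : ℂ) * p.2 (a : ZMod p.1) *
        (a : ℂ) ^ (-(1 + t * Complex.I)) * Long Q X p j a t‖ ≤ |α j a| / a * E := by
      intro a ha
      have ha1 : 1 ≤ a := (mem_Icc.mp ha).1
      have ha0 : (0 : ℝ) < a := by exact_mod_cast ha1
      rw [norm_mul, norm_mul, norm_mul, Complex.norm_real, Real.norm_eq_abs]
      have e1 : ‖(a : ℂ) ^ (-(1 + t * Complex.I))‖ = (a : ℝ)⁻¹ := by
        rw [Complex.norm_natCast_cpow_of_pos (by omega)]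
        simp [Real.rpow_neg_one]
      rw [e1]
      have e2 : ‖p.2 (a : ZMod p.1)‖ ≤ 1 := DirichletCharacter.norm_le_one _ _
      have e3 := hL j hj a ha1
      have e4 : 0 ≤ |α j a| := abs_nonneg _
      calc |α j a| * ‖p.2 (a : ZMod p.1)‖ * (a : ℝ)⁻¹ * ‖Long Q X p j a t‖
          ≤ |α j a| * 1 * (a : ℝ)⁻¹ * E := by gcongr
        _ = |α j a| / a * E := by ring
    refine (Finset.sum_le_sum h2).trans ?_
    rw [← Finset.sum_mul]
    exact mul_le_mul_of_nonneg_right (hα j hj) hE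
  refine (norm_sum_le _ _).trans ?_
  refine (Finset.sum_le_sum h1).trans ?_
  rw [Finset.sum_const, card_range, nsmul_eq_mul]
  norm_num

/-- `v` lives on the long variables -/
theorem d2b_v (Q X n : ℕ) (hX : 1 ≤ X) (hQ : 1 ≤ Q) (hn : 1 ≤ n)
    (h : 20 * Real.log Q + 3 ≤ Real.log X) : (1 - rho Q n) * v X n = v X n := by
  by_cases hv : v X n = 0
  · rw [hv, mul_zero]
  have hX0 : (0 : ℝ) < X := by exact_mod_cast hX
  have hQ0 : (0 : ℝ) < Q := by exact_mod_cast hQ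
  have hn0 : (0 : ℝ) < n := by exact_mod_cast hn
  have h1 : -2 < Real.log ((n : ℝ) / X) := by
    by_contra hc
    push Not at hc
    apply hv
    unfold v w
    rw [Real.smoothTransition.zero_of_nonpos (by linarith), zero_mul]
  rw [Real.log_div hn0.ne' hX0.ne'] at h1
  have h2 : 1 ≤ Real.log ((n : ℝ) / (Q : ℝ) ^ 20) := by
    rw [Real.log_div hn0.ne' (by positivity), Real.log_pow]
    push_cast
    linarith
  have h3 : rho Q n = 0 := by
    unfold rho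
    rw [Real.smoothTransition.one_of_one_le h2, sub_self]
  rw [h3, sub_zero, one_mul]

theorem d2b_F0 (Q X : ℕ) (hX : 1 ≤ X) (hQ : 1 ≤ Q) (h : 20 * Real.log Q + 3 ≤ Real.log X)
    (t : ℝ) : F0 X t = Long Q X p0 0 1 t := by
  unfold F0 FF Long
  refine Finset.sum_congr rfl fun m hm => ?_
  have hm1 : 1 ≤ m := (mem_Icc.mp hm).1
  have e1 : p0.2 (m : ZMod p0.1) = 1 := by
    show (1 : DirichletCharacter ℂ 1) (m : ZMod 1) = 1
    have : (m : ZMod 1) = 1 := Subsingleton.elim _ _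
    rw [this, map_one]
  rw [e1]
  simp only [pow_zero, mul_one, one_mul]
  rw [d2b_v Q X m hX hQ hm1 h]

theorem d2b_kernel (T₀ T : ℝ) (hT₀ : 0 < T₀) (hT : 0 ≤ T) :
    ∫ t in (-T)..T, (1 + (t / T₀) ^ 2)⁻¹ ≤ Real.pi * T₀ := by
  have h := intervalIntegral.integral_comp_div (a := -T) (b := T)
    (fun x : ℝ => (1 + x ^ 2)⁻¹) hT₀.ne'
  rw [h, smul_eq_mul, mul_comm]
  refine mul_le_mul_of_nonneg_right ?_ hT₀.le
  have h2 := integral_inv_one_add_sq (a := -T / T₀) (b := T / T₀)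
  rw [h2]
  have h3 := Real.arctan_lt_pi_div_two (T / T₀)
  have h4 := Real.neg_pi_div_two_lt_arctan (-T / T₀)
  linarith

/-- Trivial character minus main term. Put `T₁ = (log X)^(A + 20)`. For `|t| ≤ T₁`:
`FL_sub_F0_le` with exponent `2(A+20) + A + 10`. For `T₁ ≤ |t| ≤ Q^7`: `‖F0 X t‖` is `Long Q X p0 0 1 t`
(as `1 - ρ = 1` on the support of `v`), so `long_triv` applies to it and to the long parts in
`decomposition`; the integral of `(log X)^8 · C/t²` over `|t| ≥ T₁` is `≤ 2 C (log X)^8/T₁`; the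
main part by `main_L1`. -/
theorem L1_trivial (c : ℝ) (hc : 0 < c) (A : ℝ) : ∃ K : ℝ, ∀ Q X : ℕ, Reg K Q X → Good c Q →
    ∫ t in (-(Q : ℝ) ^ 7)..((Q : ℝ) ^ 7), ‖FL X p0 t - F0 X t‖ ≤ (Real.log X) ^ (-A) := by
  set A₀ : ℝ := |A| with hA₀
  have hA₀0 : 0 ≤ A₀ := abs_nonneg _
  have hAA₀ : A ≤ A₀ := le_abs_self _
  obtain ⟨K₁, hK₁⟩ := decomposition
  obtain ⟨C, K₂, hC, hK₂⟩ := long_triv
  obtain ⟨K₃, hK₃⟩ := main_L1 c hc (A₀ + 1)
  obtain ⟨K₄, hK₄1, hK₄⟩ := reg_log_le 12 (7 + A₀) 4 (by norm_num)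
  obtain ⟨K₅, hK₅⟩ := FL_sub_F0_le (3 * A₀ + 50)
  have hpi := Real.pi_pos
  refine ⟨|K₁| + |K₂| + |K₃| + K₄ + |K₅| + (2 * (4 * Real.pi + 6 * Real.pi * C + 1)) + 30, ?_⟩
  intro Q X hreg hgood
  have a1 : 0 ≤ |K₁| := abs_nonneg _
  have a2 : 0 ≤ |K₂| := abs_nonneg _
  have a3 : 0 ≤ |K₃| := abs_nonneg _
  have a5 : 0 ≤ |K₅| := abs_nonneg _
  have b1 : K₁ ≤ |K₁| := le_abs_self _
  have b2 : K₂ ≤ |K₂| := le_abs_self _
  have b3 : K₃ ≤ |K₃| := le_abs_self _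
  have b5 : K₅ ≤ |K₅| := le_abs_self _
  have a6 : 0 ≤ 2 * (4 * Real.pi + 6 * Real.pi * C + 1) := by positivity
  have hKpos : 0 ≤ |K₁| + |K₂| + |K₃| + K₄ + |K₅| +
    (2 * (4 * Real.pi + 6 * Real.pi * C + 1)) + 30 := by linarith
  have r1 : Reg K₁ Q X := hreg.mono hKpos (by linarith)
  have r2 : Reg K₂ Q X := hreg.mono hKpos (by linarith)
  have r3 : Reg K₃ Q X := hreg.mono hKpos (by linarith)
  have r4 : Reg K₄ Q X := hreg.mono hKpos (by linarith)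
  have r5 : Reg K₅ Q X := hreg.mono hKpos (by linarith)
  have r6 : Reg (2 * (4 * Real.pi + 6 * Real.pi * C + 1) + 30) Q X :=
    hreg.mono hKpos (by linarith)
  have r7 : Reg 30 Q X := hreg.mono hKpos (by linarith)
  set L : ℝ := Real.log X with hL
  have hLbig : 2 * (4 * Real.pi + 6 * Real.pi * C + 1) + 30 ≤ L := by
    have h1 := r6.logX_ge (by linarith)
    have := Real.add_one_le_exp (2 * (4 * Real.pi + 6 * Real.pi * C + 1) + 30)
    linarith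
  have hL0 : 0 < L := by linarith
  have hL1 : 1 ≤ L := by linarith
  have hQ10 : (30 : ℝ) ≤ Q := r7.Q_ge (by norm_num)
  have hQ0 : (0 : ℝ) < Q := by linarith
  have hQ1 : 1 ≤ Q := r7.Q_pos (by norm_num)
  have hX1 : 1 ≤ X := r7.X_pos (by norm_num)
  have hQX : 20 * Real.log Q + 3 ≤ L := by
    have h1 := r7.logQ_le (by norm_num)
    have h2 := r7.logQ_ge (by norm_num)
    linarith
  have hQ4 : 12 * L ^ (7 + A₀) ≤ (Q : ℝ) ^ 4 := by
    have := hK₄ Q X r4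
    rwa [show (4 : ℝ) = ((4 : ℕ) : ℝ) by norm_num, Real.rpow_natCast] at this
  obtain ⟨α, hα, hdec⟩ := hK₁ Q X r1
  set T₁ : ℝ := (Q : ℝ) ^ 7 with hT₁
  have hT₁0 : 0 < T₁ := by positivity
  set T₀ : ℝ := L ^ (A₀ + 20) with hT₀
  have hT₀1 : 1 ≤ T₀ := Real.one_le_rpow hL1 (by linarith)
  have hT₀0 : 0 < T₀ := by linarith
  set D : ℝ := 2 * (1 + T₀) * L ^ (-(3 * A₀ + 50)) + 6 * C * L ^ (8 : ℝ) / T₀ ^ 2 with hD
  have hp0 : p0 ∈ PC Q := p0_mem hQ1
  have hL7 : 1 ≤ L ^ (7 : ℝ) := Real.one_le_rpow hL1 (by norm_num)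
  have hL8 : L ^ (8 : ℝ) = L ^ (7 : ℝ) * L := by
    rw [show (8 : ℝ) = 7 + 1 by norm_num, Real.rpow_add hL0, Real.rpow_one]
  have hcF : Continuous (fun t => ‖FF X (fun m => (hmain Q X m : ℂ) * p0.2 (m : ZMod p0.1)) t‖) :=
    (main_cont_FF X _).norm
  have hcL : Continuous (fun t => ‖FL X p0 t - F0 X t‖) :=
    ((main_cont_FF X _).sub (main_cont_FF X _)).norm
  have hck : Continuous (fun t : ℝ => (1 + (t / T₀) ^ 2)⁻¹) := by
    refine Continuous.inv₀ (by fun_prop) fun t => ?_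
    positivity
  have key : ∀ t ∈ Set.Icc (-T₁) T₁, ‖FL X p0 t - F0 X t‖ ≤
      ‖FF X (fun m => (hmain Q X m : ℂ) * p0.2 (m : ZMod p0.1)) t‖ +
        3 * L ^ (7 : ℝ) * (Q : ℝ) ^ (-11 : ℝ) + D * (1 + (t / T₀) ^ 2)⁻¹ := by
    intro t ht
    have ht' : |t| ≤ T₁ := abs_le.2 ⟨ht.1, ht.2⟩
    have hkt : 0 < 1 + (t / T₀) ^ 2 := by positivity
    have hDpos1 : 0 ≤ 2 * (1 + T₀) * L ^ (-(3 * A₀ + 50)) := by positivity
    have hDpos2 : 0 ≤ 6 * C * L ^ (8 : ℝ) / T₀ ^ 2 := by positivity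
    have hFF0 : 0 ≤ ‖FF X (fun m => (hmain Q X m : ℂ) * p0.2 (m : ZMod p0.1)) t‖ := norm_nonneg _
    have hmid0 : 0 ≤ 3 * L ^ (7 : ℝ) * (Q : ℝ) ^ (-11 : ℝ) := by positivity
    rcases le_or_gt |t| T₀ with hcase | hcase
    · have h1 := hK₅ Q X r5 t
      have hk2 : (1 : ℝ) / 2 ≤ (1 + (t / T₀) ^ 2)⁻¹ := by
        rw [one_div]
        refine inv_anti₀ hkt ?_
        have : (t / T₀) ^ 2 ≤ 1 := by
          rw [← sq_abs, abs_div, abs_of_pos hT₀0]
          have : |t| / T₀ ≤ 1 := by rw [div_le_one hT₀0]; exact hcase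
          exact pow_le_one₀ (by positivity) this
        linarith
      have h2 : (1 + |t|) * L ^ (-(3 * A₀ + 50)) ≤ (1 + T₀) * L ^ (-(3 * A₀ + 50)) := by gcongr
      have h3 : (1 + T₀) * L ^ (-(3 * A₀ + 50)) ≤ D * (1 + (t / T₀) ^ 2)⁻¹ := by
        calc (1 + T₀) * L ^ (-(3 * A₀ + 50))
            = (2 * (1 + T₀) * L ^ (-(3 * A₀ + 50))) * (1 / 2) := by ring
          _ ≤ D * (1 + (t / T₀) ^ 2)⁻¹ := by
              refine mul_le_mul ?_ hk2 (by norm_num) (by rw [hD]; positivity)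
              rw [hD]; linarith
      linarith
    · have ht1 : 1 ≤ |t| := by linarith
      have ht0 : 0 < t ^ 2 := by
        have : t ≠ 0 := by
          intro h0
          rw [h0] at ht1
          norm_num at ht1
        positivity
      set E : ℝ := C * L / t ^ 2 + (Q : ℝ) ^ (-11 : ℝ) with hE
      have hE0 : 0 ≤ E := by positivity
      have h1 : ‖F0 X t‖ ≤ E := by
        rw [d2b_F0 Q X hX1 hQ1 hQX t]
        exact hK₂ Q X r2 0 (by simp) 1 le_rfl t ht1 ht'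
      have h2 := d2b_long Q X α _ E hE0 hα p0 t
        (fun j hj a ha => hK₂ Q X r2 j hj a ha t ht1 ht')
      have h3 : ‖FL X p0 t - F0 X t‖ ≤
          ‖FF X (fun m => (hmain Q X m : ℂ) * p0.2 (m : ZMod p0.1)) t‖ +
            2 * (L ^ (7 : ℝ) * E) + E := by
        refine (norm_sub_le _ _).trans (add_le_add ?_ h1)
        rw [hdec p0 le_rfl t]
        exact (norm_add_le _ _).trans (add_le_add le_rfl h2)
      have h4 : 2 * (L ^ (7 : ℝ) * E) + E ≤ 3 * L ^ (7 : ℝ) * E := by nlinarith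
      have h5 : 3 * L ^ (7 : ℝ) * E = 3 * L ^ (7 : ℝ) * (Q : ℝ) ^ (-11 : ℝ) +
          3 * C * L ^ (8 : ℝ) / t ^ 2 := by
        rw [hE, hL8]
        ring
      have h6 : 3 * C * L ^ (8 : ℝ) / t ^ 2 ≤ D * (1 + (t / T₀) ^ 2)⁻¹ := by
        have h7 : 1 / t ^ 2 ≤ 2 / T₀ ^ 2 * (1 + (t / T₀) ^ 2)⁻¹ := by
          have e : 2 / T₀ ^ 2 * (1 + (t / T₀) ^ 2)⁻¹ = 2 / (T₀ ^ 2 + t ^ 2) := by
            field_simp
          rw [e, div_le_div_iff₀ ht0 (by positivity)]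
          have : T₀ ^ 2 ≤ t ^ 2 := by
            rw [← sq_abs t]
            exact pow_le_pow_left₀ hT₀0.le hcase.le 2
          linarith
        calc 3 * C * L ^ (8 : ℝ) / t ^ 2 = 3 * C * L ^ (8 : ℝ) * (1 / t ^ 2) := by ring
          _ ≤ 3 * C * L ^ (8 : ℝ) * (2 / T₀ ^ 2 * (1 + (t / T₀) ^ 2)⁻¹) :=
              mul_le_mul_of_nonneg_left h7 (by positivity)
          _ = (6 * C * L ^ (8 : ℝ) / T₀ ^ 2) * (1 + (t / T₀) ^ 2)⁻¹ := by ring
          _ ≤ D * (1 + (t / T₀) ^ 2)⁻¹ := by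
              refine mul_le_mul_of_nonneg_right ?_ (by positivity)
              rw [hD]; linarith
      linarith
  have hD0 : 0 ≤ D := by rw [hD]; positivity
  have hstep : ∫ t in (-T₁)..T₁, ‖FL X p0 t - F0 X t‖ ≤
      (∫ t in (-T₁)..T₁, ‖FF X (fun m => (hmain Q X m : ℂ) * p0.2 (m : ZMod p0.1)) t‖) +
        2 * T₁ * (3 * L ^ (7 : ℝ) * (Q : ℝ) ^ (-11 : ℝ)) + D * (Real.pi * T₀) := by
    have h1 : ∫ t in (-T₁)..T₁, ‖FL X p0 t - F0 X t‖ ≤ ∫ t in (-T₁)..T₁,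
        (‖FF X (fun m => (hmain Q X m : ℂ) * p0.2 (m : ZMod p0.1)) t‖ +
        3 * L ^ (7 : ℝ) * (Q : ℝ) ^ (-11 : ℝ) + D * (1 + (t / T₀) ^ 2)⁻¹) :=
      intervalIntegral.integral_mono_on (by linarith) (hcL.intervalIntegrable _ _)
        (((hcF.add continuous_const).add (continuous_const.mul hck)).intervalIntegrable _ _) key
    refine h1.trans ?_
    have hci1 : Continuous (fun t =>
        ‖FF X (fun m => (hmain Q X m : ℂ) * p0.2 (m : ZMod p0.1)) t‖ +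
        3 * L ^ (7 : ℝ) * (Q : ℝ) ^ (-11 : ℝ)) := hcF.add continuous_const
    have hci2 : Continuous (fun t : ℝ => D * (1 + (t / T₀) ^ 2)⁻¹) := continuous_const.mul hck
    have hci3 : Continuous (fun _ : ℝ => 3 * L ^ (7 : ℝ) * (Q : ℝ) ^ (-11 : ℝ)) :=
      continuous_const
    rw [intervalIntegral.integral_add (hci1.intervalIntegrable _ _)
      (hci2.intervalIntegrable _ _),
      intervalIntegral.integral_add (hcF.intervalIntegrable _ _)
      (hci3.intervalIntegrable _ _), intervalIntegral.integral_const, smul_eq_mul,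
      intervalIntegral.integral_const_mul]
    have h2 := mul_le_mul_of_nonneg_left (d2b_kernel T₀ T₁ hT₀0 hT₁0.le) hD0
    have e : (T₁ - -T₁) * (3 * L ^ (7 : ℝ) * (Q : ℝ) ^ (-11 : ℝ)) =
        2 * T₁ * (3 * L ^ (7 : ℝ) * (Q : ℝ) ^ (-11 : ℝ)) := by ring
    rw [e]
    linarith
  have hpart1 : ∫ t in (-T₁)..T₁,
      ‖FF X (fun m => (hmain Q X m : ℂ) * p0.2 (m : ZMod p0.1)) t‖ ≤ L ^ (-A₀ - 1) := by
    have h1 := Finset.single_le_sum (f := fun p : (Σ r : ℕ, DirichletCharacter ℂ r) =>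
      ∫ t in (-T₁)..T₁, ‖FF X (fun m => (hmain Q X m : ℂ) * p.2 (m : ZMod p.1)) t‖)
      (fun p _ => intervalIntegral.integral_nonneg (by linarith) fun t _ => norm_nonneg _) hp0
    refine h1.trans ((hK₃ Q X r3 hgood).trans (le_of_eq ?_))
    congr 1
    ring
  have hpart2 : 2 * T₁ * (3 * L ^ (7 : ℝ) * (Q : ℝ) ^ (-11 : ℝ)) ≤ L ^ (-A₀) / 2 := by
    calc 2 * T₁ * (3 * L ^ (7 : ℝ) * (Q : ℝ) ^ (-11 : ℝ))
        = 6 * L ^ (7 : ℝ) / (Q : ℝ) ^ 4 := by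
          rw [hT₁, Real.rpow_neg hQ0.le]
          have : (Q : ℝ) ^ (11 : ℝ) = (Q : ℝ) ^ 11 := by
            rw [← Real.rpow_natCast]
            norm_num
          rw [this]
          field_simp
          ring
      _ = (12 * L ^ (7 + A₀)) / (Q : ℝ) ^ 4 * (L ^ (-A₀) / 2) := by
          rw [Real.rpow_add hL0, Real.rpow_neg hL0.le]
          have : L ^ A₀ ≠ 0 := (Real.rpow_pos_of_pos hL0 A₀).ne'
          field_simp
          ring
      _ ≤ 1 * (L ^ (-A₀) / 2) := by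
          refine mul_le_mul_of_nonneg_right ?_ (by positivity)
          rw [div_le_one (by positivity)]
          exact hQ4
      _ = L ^ (-A₀) / 2 := one_mul _
  have hpart3 : D * (Real.pi * T₀) ≤ (4 * Real.pi + 6 * Real.pi * C) * L ^ (-A₀ - 1) := by
    have e1 : 2 * (1 + T₀) * L ^ (-(3 * A₀ + 50)) * (Real.pi * T₀) ≤
        4 * Real.pi * L ^ (-A₀ - 1) := by
      calc 2 * (1 + T₀) * L ^ (-(3 * A₀ + 50)) * (Real.pi * T₀)
          ≤ 2 * (T₀ + T₀) * L ^ (-(3 * A₀ + 50)) * (Real.pi * T₀) := by gcongr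
        _ = 4 * Real.pi * (T₀ * T₀ * L ^ (-(3 * A₀ + 50))) := by ring
        _ = 4 * Real.pi * L ^ (-A₀ - 10) := by
            rw [hT₀, ← Real.rpow_add hL0, ← Real.rpow_add hL0]
            congr 2
            ring
        _ ≤ 4 * Real.pi * L ^ (-A₀ - 1) := by
            refine mul_le_mul_of_nonneg_left ?_ (by positivity)
            exact Real.rpow_le_rpow_of_exponent_le hL1 (by linarith)
    have e2 : 6 * C * L ^ (8 : ℝ) / T₀ ^ 2 * (Real.pi * T₀) ≤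
        6 * Real.pi * C * L ^ (-A₀ - 1) := by
      calc 6 * C * L ^ (8 : ℝ) / T₀ ^ 2 * (Real.pi * T₀)
          = 6 * Real.pi * C * (L ^ (8 : ℝ) / T₀) := by
            field_simp
        _ = 6 * Real.pi * C * L ^ (-A₀ - 12) := by
            rw [hT₀, ← Real.rpow_sub hL0]
            congr 2
            ring
        _ ≤ 6 * Real.pi * C * L ^ (-A₀ - 1) := by
            refine mul_le_mul_of_nonneg_left ?_ (by positivity)
            exact Real.rpow_le_rpow_of_exponent_le hL1 (by linarith)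
    rw [hD, add_mul]
    linarith
  have hfin : L ^ (-A₀ - 1) + (4 * Real.pi + 6 * Real.pi * C) * L ^ (-A₀ - 1) ≤
      L ^ (-A₀) / 2 := by
    rw [Real.rpow_sub_one hL0.ne']
    have h1 : 0 < L ^ (-A₀) := Real.rpow_pos_of_pos hL0 _
    have e : L ^ (-A₀) / L + (4 * Real.pi + 6 * Real.pi * C) * (L ^ (-A₀) / L) =
        (2 * (4 * Real.pi + 6 * Real.pi * C + 1)) / L * (L ^ (-A₀) / 2) := by
      field_simp
      ring
    rw [e]
    calc (2 * (4 * Real.pi + 6 * Real.pi * C + 1)) / L * (L ^ (-A₀) / 2)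
        ≤ 1 * (L ^ (-A₀) / 2) := by
          refine mul_le_mul_of_nonneg_right ?_ (by positivity)
          rw [div_le_one hL0]
          linarith
      _ = L ^ (-A₀) / 2 := one_mul _
  have hlast : L ^ (-A₀) ≤ L ^ (-A) :=
    Real.rpow_le_rpow_of_exponent_le hL1 (by linarith)
  linarith

end Pool.Agent.Lib.H68T
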