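import Pool.Agent.Lib.H68T.Defs

/-!
# Chunk GAM1; part of GAM: the coefficients `Γ_r(m)`
-/

open Finset

namespace Pool.Agent.Lib.H68T

/-- `n/φ(n) = ∏_{p ∣ n} p/(p-1)` -/
theorem GAM_ratio (n : ℕ) (hn : n ≠ 0) :
    (n : ℝ) / Nat.totient n = ∏ p ∈ n.primeFactors, ((p : ℝ) / (p - 1)) := by
  have h := Nat.totient_eq_mul_prod_factors n
  have h' : (Nat.totient n : ℝ) = n * ∏ p ∈ n.primeFactors, (1 - (p : ℝ)⁻¹) := by
    have := congrArg (fun x : ℚ => (x : ℝ)) h
    simpa using this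
  have hn' : (n : ℝ) ≠ 0 := by exact_mod_cast hn
  rw [h', ← div_div, div_self hn', one_div, ← Finset.prod_inv_distrib]
  refine Finset.prod_congr rfl (fun p hp => ?_)
  have hp1 := (Nat.prime_of_mem_primeFactors hp).one_lt
  have hp2 : (1 : ℝ) < p := by exact_mod_cast hp1
  have h1 : (p : ℝ) ≠ 0 := by linarith
  have h2 : (p : ℝ) - 1 ≠ 0 := by linarith
  have h3 : 1 - (p : ℝ)⁻¹ = (p - 1) / p := by field_simp
  rw [h3, inv_div]

theorem GAM_ratio_mul (r d : ℕ) (hr : r ≠ 0) (hd : d ≠ 0) :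
    ((r * d : ℕ) : ℝ) / Nat.totient (r * d) = (r : ℝ) / Nat.totient r *
      ∏ p ∈ d.primeFactors.filter (fun p => ¬ p ∣ r), ((p : ℝ) / (p - 1)) := by
  rw [GAM_ratio _ (mul_ne_zero hr hd), GAM_ratio r hr, Nat.primeFactors_mul hr hd]
  have h : r.primeFactors ∪ d.primeFactors =
      r.primeFactors ∪ d.primeFactors.filter (fun p => ¬ p ∣ r) := by
    ext p
    simp only [mem_union, mem_filter, Nat.mem_primeFactors]
    tauto
  rw [h, Finset.prod_union]
  rw [Finset.disjoint_left]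
  intro p hp hp'
  rw [mem_filter] at hp'
  exact hp'.2 (Nat.dvd_of_mem_primeFactors hp)

/-- The normalised ratio `(r d/φ(r d))/(r/φ(r))` for `d` coprime to `m`. -/
noncomputable def GAM_g (r : ℕ) (m : ℤ) : ArithmeticFunction ℝ :=
  ⟨fun d => if d = 0 then 0 else if IsCoprime (d : ℤ) m then
    ∏ p ∈ d.primeFactors.filter (fun p => ¬ p ∣ r), ((p : ℝ) / (p - 1)) else 0, by simp⟩

theorem GAM_g_apply (r : ℕ) (m : ℤ) (d : ℕ) (hd : d ≠ 0) : GAM_g r m d =
    if IsCoprime (d : ℤ) m then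
      ∏ p ∈ d.primeFactors.filter (fun p => ¬ p ∣ r), ((p : ℝ) / (p - 1)) else 0 := by
  change (if d = 0 then 0 else _) = _
  rw [if_neg hd]

theorem GAM_g_mult (r : ℕ) (m : ℤ) : (GAM_g r m).IsMultiplicative := by
  rw [ArithmeticFunction.IsMultiplicative.iff_ne_zero]
  refine ⟨?_, ?_⟩
  · rw [GAM_g_apply _ _ _ one_ne_zero]
    simp [isCoprime_one_left]
  · intro a b ha hb hab
    rw [GAM_g_apply _ _ _ (mul_ne_zero ha hb), GAM_g_apply _ _ _ ha, GAM_g_apply _ _ _ hb]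
    have hc : IsCoprime ((a * b : ℕ) : ℤ) m ↔ IsCoprime (a : ℤ) m ∧ IsCoprime (b : ℤ) m := by
      rw [Nat.cast_mul, IsCoprime.mul_left_iff]
    by_cases h1 : IsCoprime (a : ℤ) m
    · by_cases h2 : IsCoprime (b : ℤ) m
      · rw [if_pos (hc.mpr ⟨h1, h2⟩), if_pos h1, if_pos h2, hab.primeFactors_mul, Finset.filter_union,
          Finset.prod_union]
        exact Finset.disjoint_filter_filter hab.disjoint_primeFactors
      · rw [if_neg (fun h => h2 (hc.mp h).2), if_neg h2, mul_zero]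
    · rw [if_neg (fun h => h1 (hc.mp h).1), if_neg h1, zero_mul]

theorem GAM_g_prime_pow (r : ℕ) (m : ℤ) (p k : ℕ) (hp : p.Prime) :
    GAM_g r m (p ^ (k + 1)) = if (p : ℤ) ∣ m then 0 else if p ∣ r then 1 else (p : ℝ) / (p - 1) := by
  rw [GAM_g_apply _ _ _ (pow_ne_zero _ hp.ne_zero)]
  have h1 : IsCoprime ((p ^ (k + 1) : ℕ) : ℤ) m ↔ ¬ (p : ℤ) ∣ m := by
    rw [Nat.cast_pow, IsCoprime.pow_left_iff (Nat.succ_pos k)]
    exact (Nat.prime_iff_prime_int.mp hp).coprime_iff_not_dvd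
  by_cases h : (p : ℤ) ∣ m
  · rw [if_neg (by rw [h1]; exact fun h' => h' h), if_pos h]
  · rw [if_pos (h1.mpr h), if_neg h, Nat.primeFactors_prime_pow (Nat.succ_ne_zero k) hp]
    by_cases h2 : p ∣ r
    · rw [if_pos h2, Finset.filter_singleton, if_neg (fun h => h h2), Finset.prod_empty]
    · rw [if_neg h2, Finset.filter_singleton, if_pos h2, Finset.prod_singleton]

/-- The convolution of `GAM_g` with the Möbius function. -/
noncomputable def GAM_F (r : ℕ) (m : ℤ) : ArithmeticFunction ℝ :=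
  (ArithmeticFunction.moebius : ArithmeticFunction ℝ) * GAM_g r m

theorem GAM_F_mult (r : ℕ) (m : ℤ) : (GAM_F r m).IsMultiplicative :=
  ArithmeticFunction.isMultiplicative_moebius.intCast.mul (GAM_g_mult r m)

theorem GAM_F_apply (r : ℕ) (m : ℤ) (q : ℕ) : GAM_F r m q =
    ∑ d ∈ q.divisors, (ArithmeticFunction.moebius (q / d) : ℝ) * GAM_g r m d := by
  unfold GAM_F
  rw [ArithmeticFunction.mul_apply]
  exact Nat.sum_divisorsAntidiagonal'
    (fun a b => ((ArithmeticFunction.moebius a : ℤ) : ℝ) * GAM_g r m b)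

theorem GAM_mu_conv (f : ℕ → ℝ) (p k : ℕ) (hp : p.Prime) :
    ∑ d ∈ (p ^ (k + 1)).divisors, (ArithmeticFunction.moebius (p ^ (k + 1) / d) : ℝ) * f d =
      f (p ^ (k + 1)) - f (p ^ k) := by
  rw [Nat.sum_divisors_prime_pow hp, Finset.sum_range_succ, Finset.sum_range_succ,
    Finset.sum_eq_zero]
  · rw [Nat.div_self (pow_pos hp.pos _), pow_succ p k, Nat.mul_div_cancel_left _ (pow_pos hp.pos _)]
    rw [ArithmeticFunction.moebius_apply_one, ArithmeticFunction.moebius_apply_prime hp]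
    push_cast
    ring
  · intro j hj
    rw [mem_range] at hj
    rw [Nat.pow_div (by omega) hp.pos, ArithmeticFunction.moebius_apply_prime_pow hp (by omega),
      if_neg (by omega)]
    simp

theorem GAM_F_prime (r : ℕ) (m : ℤ) (p : ℕ) (hp : p.Prime) : GAM_F r m p =
    if (p : ℤ) ∣ m then -1 else if p ∣ r then 0 else 1 / ((p : ℝ) - 1) := by
  have h := GAM_F_apply r m (p ^ (0 + 1))
  rw [GAM_mu_conv _ _ _ hp, GAM_g_prime_pow _ _ _ _ hp, pow_zero, (GAM_g_mult r m).1, zero_add,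
    pow_one] at h
  rw [h]
  have hp2 : (1 : ℝ) < p := by exact_mod_cast hp.one_lt
  have h2 : (p : ℝ) - 1 ≠ 0 := by linarith
  split_ifs
  · ring
  · ring
  · field_simp
    ring

theorem GAM_F_prime_pow (r : ℕ) (m : ℤ) (p k : ℕ) (hp : p.Prime) :
    GAM_F r m (p ^ (k + 2)) = 0 := by
  rw [GAM_F_apply r m (p ^ (k + 1 + 1)), GAM_mu_conv _ _ _ hp, GAM_g_prime_pow _ _ _ _ hp,
    GAM_g_prime_pow _ _ _ _ hp, sub_self]

/-- For `r` coprime to `m` the inner sum of `Γ_r`. -/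
theorem GAM_inner (r : ℕ) (m : ℤ) (hr : r ≠ 0) (hrm : IsCoprime (r : ℤ) m) (q : ℕ) (hq : q ≠ 0) :
    ∑ d ∈ (r * q).divisors.filter (fun d => r ∣ d ∧ IsCoprime (d : ℤ) m),
      (ArithmeticFunction.moebius (r * q / d) : ℝ) * ((d : ℝ) / (Nat.totient d : ℝ)) =
    (r : ℝ) / Nat.totient r * GAM_F r m q := by
  rw [GAM_F_apply, Finset.mul_sum]
  have himg : (r * q).divisors.filter (fun d => r ∣ d ∧ IsCoprime (d : ℤ) m) =
      (q.divisors.filter (fun d : ℕ => IsCoprime (d : ℤ) m)).image (fun d => r * d) := by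
    ext d
    simp only [mem_filter, Nat.mem_divisors, mem_image]
    constructor
    · rintro ⟨⟨h1, h2⟩, ⟨e, rfl⟩, h4⟩
      refine ⟨e, ⟨⟨(Nat.mul_dvd_mul_iff_left (Nat.pos_of_ne_zero hr)).mp h1, hq⟩, ?_⟩, rfl⟩
      rw [Nat.cast_mul, IsCoprime.mul_left_iff] at h4
      exact h4.2
    · rintro ⟨e, ⟨⟨h1, h2⟩, h3⟩, rfl⟩
      refine ⟨⟨Nat.mul_dvd_mul_left r h1, mul_ne_zero hr hq⟩, Dvd.intro _ rfl, ?_⟩
      rw [Nat.cast_mul, IsCoprime.mul_left_iff]
      exact ⟨hrm, h3⟩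
  rw [himg, Finset.sum_image (fun a _ b _ h => Nat.eq_of_mul_eq_mul_left (Nat.pos_of_ne_zero hr) h),
    Finset.sum_filter]
  refine Finset.sum_congr rfl (fun d hd => ?_)
  have hd0 : d ≠ 0 := (Nat.pos_of_mem_divisors hd).ne'
  rw [GAM_g_apply _ _ _ hd0, Nat.mul_div_mul_left _ _ (Nat.pos_of_ne_zero hr)]
  split_ifs
  · rw [GAM_ratio_mul r d hr hd0]
    ring
  · simp

/-- `h(d) = d` if `d ∣ m` -/
noncomputable def GAM_h (m : ℤ) : ArithmeticFunction ℝ :=
  ⟨fun d => if (d : ℤ) ∣ m then (d : ℝ) else 0, by simp⟩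

theorem GAM_h_apply (m : ℤ) (d : ℕ) : GAM_h m d = if (d : ℤ) ∣ m then (d : ℝ) else 0 := rfl

theorem GAM_h_mult (m : ℤ) : (GAM_h m).IsMultiplicative := by
  refine ⟨by simp [GAM_h_apply], ?_⟩
  intro a b hab
  rw [GAM_h_apply, GAM_h_apply, GAM_h_apply]
  have h : ((a * b : ℕ) : ℤ) ∣ m ↔ (a : ℤ) ∣ m ∧ (b : ℤ) ∣ m := by
    rw [Nat.cast_mul]
    constructor
    · intro h
      exact ⟨(Dvd.intro _ rfl).trans h, (Dvd.intro_left _ rfl).trans h⟩
    · rintro ⟨h1, h2⟩
      exact IsCoprime.mul_dvd (Nat.isCoprime_iff_coprime.mpr hab) h1 h2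
  by_cases h1 : (a : ℤ) ∣ m
  · by_cases h2 : (b : ℤ) ∣ m
    · rw [if_pos (h.mpr ⟨h1, h2⟩), if_pos h1, if_pos h2]
      push_cast
      ring
    · rw [if_neg (fun h' => h2 (h.mp h').2), if_neg h2, mul_zero]
  · rw [if_neg (fun h' => h1 (h.mp h').1), if_neg h1, zero_mul]

/-- `c_q(m)` as an arithmetic function of `q` -/
noncomputable def GAM_c (m : ℤ) : ArithmeticFunction ℝ :=
  (ArithmeticFunction.moebius : ArithmeticFunction ℝ) * GAM_h m

theorem GAM_c_apply (m : ℤ) (q : ℕ) : GAM_c m q = cq q m := by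
  unfold GAM_c cq
  rw [ArithmeticFunction.mul_apply, Finset.sum_filter]
  rw [Nat.sum_divisorsAntidiagonal'
    (fun a b => ((ArithmeticFunction.moebius : ArithmeticFunction ℝ) a) * GAM_h m b)]
  refine Finset.sum_congr rfl (fun d hd => ?_)
  rw [GAM_h_apply]
  split_ifs
  · rw [mul_comm]
    rfl
  · simp

theorem GAM_c_mult (m : ℤ) : (GAM_c m).IsMultiplicative :=
  ArithmeticFunction.isMultiplicative_moebius.intCast.mul (GAM_h_mult m)

/-- The totient as a real arithmetic function. -/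
noncomputable def GAM_phi : ArithmeticFunction ℝ := ⟨fun n => (Nat.totient n : ℝ), by simp⟩

theorem GAM_phi_mult : GAM_phi.IsMultiplicative := by
  refine ⟨by simp [GAM_phi], ?_⟩
  intro a b hab
  change ((Nat.totient (a * b) : ℕ) : ℝ) = (Nat.totient a : ℝ) * (Nat.totient b : ℝ)
  rw [Nat.totient_mul hab]
  push_cast
  ring

theorem GAM_identity (m : ℤ) : GAM_F 1 m =
    (((ArithmeticFunction.moebius : ArithmeticFunction ℤ) : ArithmeticFunction ℝ).pmul
      (GAM_c m)).pdiv GAM_phi := by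
  rw [ArithmeticFunction.IsMultiplicative.eq_iff_eq_on_prime_powers _ (GAM_F_mult 1 m) _
    ((ArithmeticFunction.isMultiplicative_moebius.intCast.pmul (GAM_c_mult m)).pdiv GAM_phi_mult)]
  intro p i hp
  rcases i with _ | _ | k
  · rw [pow_zero, (GAM_F_mult 1 m).1]
    exact ((ArithmeticFunction.isMultiplicative_moebius.intCast.pmul (GAM_c_mult m)).pdiv
      GAM_phi_mult).1.symm
  · rw [zero_add, pow_one, GAM_F_prime _ _ _ hp, ArithmeticFunction.pdiv_apply,
      ArithmeticFunction.pmul_apply, GAM_c_apply]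
    have hc : cq p m = -1 + if (p : ℤ) ∣ m then (p : ℝ) else 0 := by
      unfold cq
      rw [Finset.sum_filter, hp.divisors, Finset.sum_pair hp.one_lt.ne, Nat.div_one,
        Nat.div_self hp.pos, ArithmeticFunction.moebius_apply_one,
        ArithmeticFunction.moebius_apply_prime hp]
      simp
    have hphi : GAM_phi p = (p : ℝ) - 1 := by
      change ((Nat.totient p : ℕ) : ℝ) = _
      rw [Nat.totient_prime hp, Nat.cast_sub hp.one_lt.le, Nat.cast_one]
    have hmu : ((ArithmeticFunction.moebius : ArithmeticFunction ℤ) : ArithmeticFunction ℝ) p = -1 := by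
      rw [ArithmeticFunction.intCoe_apply, ArithmeticFunction.moebius_apply_prime hp]
      simp
    rw [hc, hphi, hmu]
    have hp2 : (1 : ℝ) < p := by exact_mod_cast hp.one_lt
    have h2 : (p : ℝ) - 1 ≠ 0 := by linarith
    have h3 : ¬ p ∣ 1 := fun h => hp.one_lt.ne' (Nat.dvd_one.mp h)
    split_ifs
    · field_simp
      ring
    · field_simp
      ring
  · rw [GAM_F_prime_pow _ _ _ _ hp, ArithmeticFunction.pdiv_apply,
      ArithmeticFunction.pmul_apply, ArithmeticFunction.intCoe_apply,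
      ArithmeticFunction.moebius_apply_prime_pow hp (by omega), if_neg (by omega)]
    simp

/-- `Γ_1 = G`: for every `q`, `∑_{d ∣ q, (d,m)=1} μ(q/d) d/φ(d) = μ(q) c_q(m)/φ(q)`. Both sides are
multiplicative in `q` (Dirichlet convolution of `μ` with `d ↦ [(d,m)=1] d/φ(d)`); at `q = p` both
are `1/(p-1)` if `p ∤ m` and `-1` if `p ∣ m`; at `q = p^j`, `j ≥ 2`, both are `0`
(`ArithmeticFunction.IsMultiplicative.eq_iff_eq_on_prime_powers`, or direct for squarefree `q`). -/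
theorem Gam_one (Q : ℕ) (m : ℤ) : Gam Q 1 m = G Q m := by
  unfold Gam G
  have h1 : (Icc 1 Q).filter (fun q => 1 ∣ q) = Icc 1 Q :=
    Finset.filter_true_of_mem (fun q _ => one_dvd q)
  rw [h1]
  refine Finset.sum_congr rfl (fun q hq => ?_)
  rw [mem_Icc] at hq
  have h := GAM_inner 1 m one_ne_zero (by simpa using isCoprime_one_left) q (by omega)
  rw [one_mul] at h
  rw [h, GAM_identity, ArithmeticFunction.pdiv_apply, ArithmeticFunction.pmul_apply, GAM_c_apply,
    ArithmeticFunction.intCoe_apply]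
  simp only [Nat.cast_one, Nat.totient_one, div_one, one_mul]
  change _ / ((Nat.totient q : ℕ) : ℝ) = _
  ring

end Pool.Agent.Lib.H68T
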