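import Pool.Agent.Lib.H68T.CQ
import Pool.Agent.Lib.H68T.GAM1

/-!
# Chunk GAM2; part of GAM: the coefficients `Γ_r(m)`
-/

open Finset

namespace Pool.Agent.Lib.H68T

/-- `∏_{s ∈ S} s/(s-1) ≤ |S| + 1` for a finite set of integers `≥ 2`. -/
theorem GAM_prod_le (S : Finset ℕ) (hS : ∀ s ∈ S, 2 ≤ s) :
    ∏ s ∈ S, ((s : ℝ) / (s - 1)) ≤ (S.card : ℝ) + 1 := by
  induction S using Finset.induction_on_max with
  | empty => simp
  | insert a s hlt ih =>
    have ha : a ∉ s := fun h => lt_irrefl _ (hlt a h)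
    have ih' := ih (fun x hx => hS x (mem_insert_of_mem hx))
    rw [Finset.prod_insert ha, Finset.card_insert_of_notMem ha]
    have hcard : s.card + 2 ≤ a := by
      have h1 : s ⊆ Ico 2 a := by
        intro x hx
        rw [mem_Ico]
        exact ⟨hS x (mem_insert_of_mem hx), hlt x hx⟩
      have h2 := Finset.card_le_card h1
      rw [Nat.card_Ico] at h2
      have h3 := hS a (mem_insert_self a s)
      omega
    have hc : (s.card : ℝ) + 2 ≤ a := by exact_mod_cast hcard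
    have hs0 : (0 : ℝ) ≤ s.card := Nat.cast_nonneg _
    have ha1 : (0 : ℝ) < (a : ℝ) - 1 := by linarith
    have h4 : (a : ℝ) / (a - 1) ≤ ((s.card : ℝ) + 2) / (s.card + 1) := by
      rw [div_le_div_iff₀ ha1 (by linarith)]
      nlinarith
    calc (a : ℝ) / (a - 1) * ∏ x ∈ s, ((x : ℝ) / (x - 1))
        ≤ ((s.card : ℝ) + 2) / (s.card + 1) * ((s.card : ℝ) + 1) := by
          refine mul_le_mul h4 ih' (Finset.prod_nonneg (fun x hx => ?_)) (by positivity)
          have hx2 : (2 : ℝ) ≤ x := by exact_mod_cast hS x (mem_insert_of_mem hx)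
          exact div_nonneg (by linarith) (by linarith)
      _ = (s.card : ℝ) + 2 := by
          rw [div_mul_cancel₀]
          linarith
      _ = _ := by push_cast; ring

/-- `r/φ(r) ≤ 1 + log r/log 2` -/
theorem GAM_ratio_le (r : ℕ) (hr : r ≠ 0) :
    (r : ℝ) / Nat.totient r ≤ 10 * (1 + Real.log r) := by
  rw [GAM_ratio r hr]
  have h1 := GAM_prod_le r.primeFactors (fun p hp => (Nat.prime_of_mem_primeFactors hp).two_le)
  have h2 : 2 ^ r.primeFactors.card ≤ r := by
    calc 2 ^ r.primeFactors.card ≤ ∏ p ∈ r.primeFactors, p :=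
          Finset.pow_card_le_prod _ _ _ (fun p hp => (Nat.prime_of_mem_primeFactors hp).two_le)
      _ ≤ r := Nat.le_of_dvd (Nat.pos_of_ne_zero hr) (Nat.prod_primeFactors_dvd r)
  have h3 : (r.primeFactors.card : ℝ) * Real.log 2 ≤ Real.log r := by
    rw [← Real.log_pow]
    refine Real.log_le_log (by positivity) ?_
    exact_mod_cast h2
  have h4 := Real.log_two_gt_d9
  have h5 : (0 : ℝ) ≤ r.primeFactors.card := Nat.cast_nonneg _
  nlinarith

/-- absolute value of `F` at squarefree arguments -/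
theorem GAM_F_abs (r : ℕ) (m : ℤ) (q : ℕ) (hq : q ≠ 0) :
    |GAM_F r m q| ≤ if Squarefree q then
      1 / (Nat.totient (q / Nat.gcd q m.natAbs) : ℝ) else 0 := by
  by_cases hsq : Squarefree q
  · rw [if_pos hsq, ← (GAM_F_mult r m).prod_primeFactors hsq, Finset.abs_prod]
    set g := Nat.gcd q m.natAbs with hg
    have hgq : g ∣ q := Nat.gcd_dvd_left _ _
    have hqg : q = g * (q / g) := (Nat.mul_div_cancel' hgq).symm
    have hsq' : Squarefree (q / g) := hsq.squarefree_of_dvd (Nat.div_dvd_of_dvd hgq)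
    have hpf : (q / g).primeFactors = q.primeFactors.filter (fun p : ℕ => ¬ (p : ℤ) ∣ m) := by
      ext p
      rw [mem_filter, Nat.mem_primeFactors, Nat.mem_primeFactors]
      constructor
      · rintro ⟨hp, hpq, -⟩
        refine ⟨⟨hp, hpq.trans (Nat.div_dvd_of_dvd hgq), hq⟩, ?_⟩
        intro hpm
        have h1 : p ∣ g := by
          rw [hg]
          exact Nat.dvd_gcd (hpq.trans (Nat.div_dvd_of_dvd hgq)) (Int.natCast_dvd.mp hpm)
        have h2 : p * p ∣ q := by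
          rw [hqg]
          exact Nat.mul_dvd_mul h1 hpq
        exact hp.one_lt.ne' (Nat.isUnit_iff.mp (hsq p h2))
      · rintro ⟨⟨hp, hpq, -⟩, hpm⟩
        refine ⟨hp, ?_, hsq'.ne_zero⟩
        rw [hqg] at hpq
        rcases hp.dvd_mul.mp hpq with h | h
        · exfalso
          exact hpm (Int.natCast_dvd.mpr (h.trans (Nat.gcd_dvd_right _ _)))
        · exact h
    have hphi : (Nat.totient (q / g) : ℝ) = ∏ p ∈ (q / g).primeFactors, ((p : ℝ) - 1) := by
      have := GAM_phi_mult.prod_primeFactors hsq'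
      change _ = ((Nat.totient (q / g) : ℕ) : ℝ) at this
      rw [← this]
      refine Finset.prod_congr rfl (fun p hp => ?_)
      change ((Nat.totient p : ℕ) : ℝ) = _
      have hp' := Nat.prime_of_mem_primeFactors hp
      rw [Nat.totient_prime hp', Nat.cast_sub hp'.one_lt.le, Nat.cast_one]
    rw [hphi, hpf, one_div, ← Finset.prod_inv_distrib, Finset.prod_filter]
    refine Finset.prod_le_prod (fun p _ => abs_nonneg _) (fun p hp => ?_)
    have hp' := Nat.prime_of_mem_primeFactors hp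
    have hp2 : (2 : ℝ) ≤ p := by exact_mod_cast hp'.two_le
    rw [GAM_F_prime r m p hp']
    by_cases h : (p : ℤ) ∣ m
    · simp [h]
    · rw [if_neg h, if_pos h]
      split_ifs
      · rw [abs_zero]
        exact inv_nonneg.mpr (by linarith)
      · rw [one_div, abs_of_nonneg (inv_nonneg.mpr (by linarith))]
  · rw [if_neg hsq, abs_nonpos_iff, (GAM_F_mult r m).multiplicative_factorization _ hq]
    have hex : ∃ p ∈ q.primeFactors, 2 ≤ q.factorization p := by
      by_contra hcon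
      push Not at hcon
      refine hsq ((Nat.squarefree_iff_factorization_le_one hq).mpr (fun p => ?_))
      by_cases hp : p ∈ q.primeFactors
      · have := hcon p hp
        omega
      · rw [← Nat.support_factorization, Finsupp.notMem_support_iff] at hp
        omega
    obtain ⟨p, hp, h2⟩ := hex
    refine Finset.prod_eq_zero (i := p) (by rwa [Nat.support_factorization]) ?_
    obtain ⟨k, hk⟩ := Nat.exists_eq_add_of_le h2
    change GAM_F r m (p ^ q.factorization p) = 0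
    rw [hk, add_comm 2 k]
    exact GAM_F_prime_pow r m p k (Nat.prime_of_mem_primeFactors hp)

theorem GAM_sum_F (r : ℕ) (m : ℤ) (Q N : ℕ) (hN : N ≤ Q) :
    ∑ q ∈ Icc 1 N, |GAM_F r m q| ≤ dQ Q m * ∑ q ∈ Icc 1 Q, (1 : ℝ) / Nat.totient q := by
  have h1 : ∑ q ∈ Icc 1 N, |GAM_F r m q| ≤
      ∑ q ∈ (Icc 1 N).filter Squarefree, 1 / (Nat.totient (q / Nat.gcd q m.natAbs) : ℝ) := by
    rw [Finset.sum_filter]
    refine Finset.sum_le_sum (fun q hq => ?_)
    rw [mem_Icc] at hq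
    exact GAM_F_abs r m q (by omega)
  refine h1.trans ?_
  have h2 : ∑ q ∈ (Icc 1 N).filter Squarefree, 1 / (Nat.totient (q / Nat.gcd q m.natAbs) : ℝ) =
      ∑ x ∈ ((Icc 1 N).filter Squarefree).image (fun q => (Nat.gcd q m.natAbs, q / Nat.gcd q m.natAbs)),
        1 / (Nat.totient x.2 : ℝ) := by
    rw [Finset.sum_image]
    intro a ha b hb hab
    simp only [Prod.mk.injEq] at hab
    have ha' := Nat.mul_div_cancel' (Nat.gcd_dvd_left a m.natAbs)
    have hb' := Nat.mul_div_cancel' (Nat.gcd_dvd_left b m.natAbs)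
    rw [hab.2, hab.1] at ha'
    exact ha'.symm.trans hb'
  rw [h2]
  have h3 : dQ Q m * ∑ q ∈ Icc 1 Q, (1 : ℝ) / Nat.totient q =
      ∑ x ∈ ((Icc 1 Q).filter (fun d : ℕ => (d : ℤ) ∣ m)) ×ˢ (Icc 1 Q),
        1 / (Nat.totient x.2 : ℝ) := by
    rw [Finset.sum_product]
    unfold dQ
    simp only
    rw [Finset.sum_const, nsmul_eq_mul]
  rw [h3]
  refine Finset.sum_le_sum_of_subset_of_nonneg ?_ (fun _ _ _ => by positivity)
  intro x hx
  rw [mem_image] at hx
  obtain ⟨q, hq, rfl⟩ := hx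
  rw [mem_filter, mem_Icc] at hq
  have hg1 : 0 < Nat.gcd q m.natAbs := Nat.gcd_pos_of_pos_left _ (by omega)
  have hg2 : Nat.gcd q m.natAbs ≤ q := Nat.gcd_le_left _ (by omega)
  have hg3 : 0 < q / Nat.gcd q m.natAbs := Nat.div_pos hg2 hg1
  rw [mem_product, mem_filter, mem_Icc, mem_Icc]
  refine ⟨⟨⟨hg1, by simp only; omega⟩, ?_⟩, hg3, ?_⟩
  · exact Int.natCast_dvd.mpr (Nat.gcd_dvd_right _ _)
  · exact (Nat.div_le_self _ _).trans (by omega)

/-- `|Γ_r(m)| ≤ 100 (1 + log Q)^3 dQ(m)`. If `(r, m) ≠ 1` it is `0`. Otherwise write `q = r q'`,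
`d = r d'`; `d' ↦ [(d',m)=1] (r d'/φ(r d')) / (r/φ(r))` is multiplicative, equal at `p^j` (`j ≥ 1`)
to `1` if `p ∣ r`, `p/(p-1)` if `p ∤ r m`, `0` if `p ∣ m`; so its Dirichlet convolution with `μ` is
`0` at `q'` not squarefree or not coprime to `r`, and at squarefree `q'` coprime to `r` it is
`∏_{p ∣ q', p ∤ m} 1/(p-1) ∏_{p ∣ q', p ∣ m} (-1)`, of absolute value `φ((q',m))/φ(q')`. Hence
`|Γ_r(m)| ≤ (r/φ(r)) ∑_{g ∣ m, g ≤ Q} ∑_{q'' ≤ Q} 1/φ(q'')`, and `r/φ(r) ≤ 10 (1 + log Q)` for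
`r ≤ Q` (e.g. `r/φ(r) = ∏_{p ∣ r} (1 - 1/p)^{-1} ≤ ∏_{j ≤ ω(r)} (1 + 1/j) ≤ ω(r) + 1`, `2^ω(r) ≤ r`). -/
theorem abs_Gam_le (Q r : ℕ) (hr : 1 ≤ r) (hrQ : r ≤ Q) (m : ℤ) :
    |Gam Q r m| ≤ 100 * (1 + Real.log Q) ^ 3 * dQ Q m := by
  have hQ1 : (1 : ℝ) ≤ Q := by exact_mod_cast hr.trans hrQ
  have hL : 0 ≤ Real.log Q := Real.log_nonneg hQ1
  have hd0 : 0 ≤ dQ Q m := by unfold dQ; positivity
  by_cases hrm : IsCoprime (r : ℤ) m
  swap
  · have : Gam Q r m = 0 := by
      unfold Gam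
      refine Finset.sum_eq_zero (fun q _ => ?_)
      rw [Finset.filter_false_of_mem, Finset.sum_empty]
      rintro d _ ⟨⟨e, rfl⟩, h⟩
      rw [Nat.cast_mul, IsCoprime.mul_left_iff] at h
      exact hrm h.1
    rw [this, abs_zero]
    positivity
  have hr0 : r ≠ 0 := by omega
  have himg : (Icc 1 Q).filter (fun q => r ∣ q) = (Icc 1 (Q / r)).image (fun q => r * q) := by
    ext q
    simp only [mem_filter, mem_Icc, mem_image]
    constructor
    · rintro ⟨⟨h1, h2⟩, ⟨e, rfl⟩⟩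
      refine ⟨e, ⟨?_, ?_⟩, rfl⟩
      · rcases Nat.eq_zero_or_pos e with rfl | h
        · simp at h1
        · exact h
      · rw [Nat.le_div_iff_mul_le (by omega), mul_comm]
        exact h2
    · rintro ⟨e, ⟨h1, h2⟩, rfl⟩
      refine ⟨⟨Nat.mul_pos (by omega) (by omega), ?_⟩, Dvd.intro _ rfl⟩
      rw [Nat.le_div_iff_mul_le (by omega), mul_comm] at h2
      exact h2
  have hGam : Gam Q r m = (r : ℝ) / Nat.totient r * ∑ q ∈ Icc 1 (Q / r), GAM_F r m q := by
    unfold Gam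
    rw [himg, Finset.sum_image (fun a _ b _ h => Nat.eq_of_mul_eq_mul_left (by omega) h),
      Finset.mul_sum]
    refine Finset.sum_congr rfl (fun q hq => ?_)
    rw [mem_Icc] at hq
    exact GAM_inner r m hr0 hrm q (by omega)
  have hρ := GAM_ratio_le r hr0
  have hρ0 : 0 ≤ (r : ℝ) / Nat.totient r := by positivity
  have hlogr : Real.log r ≤ Real.log Q :=
    Real.log_le_log (by exact_mod_cast hr) (by exact_mod_cast hrQ)
  rw [hGam, abs_mul, abs_of_nonneg hρ0]
  have h1 : |∑ q ∈ Icc 1 (Q / r), GAM_F r m q| ≤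
      dQ Q m * ∑ q ∈ Icc 1 Q, (1 : ℝ) / Nat.totient q :=
    (Finset.abs_sum_le_sum_abs _ _).trans (GAM_sum_F r m Q (Q / r) (Nat.div_le_self _ _))
  have h2 := sum_inv_totient Q
  calc (r : ℝ) / Nat.totient r * |∑ q ∈ Icc 1 (Q / r), GAM_F r m q|
      ≤ (10 * (1 + Real.log Q)) * (dQ Q m * (10 * (1 + Real.log Q) ^ 2)) := by
        refine mul_le_mul (hρ.trans (by linarith)) (h1.trans ?_) (abs_nonneg _) (by positivity)
        exact mul_le_mul_of_nonneg_left h2 hd0
    _ = _ := by ring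

end Pool.Agent.Lib.H68T
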