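import Pool.Agent.Lib.H68T.KER
import Pool.Agent.Lib.H68T.GAM
import Pool.Agent.Lib.H68T.BPS
import Pool.Agent.Lib.H68T.D2
import Pool.Agent.Lib.H68T.CG2

/-!
# Chunk DA: the projection `lp * kern` is close to the model `G`
-/

open Finset

namespace Pool.Agent.Lib.H68T

/-- change of variables `n = m - z` -/
theorem DA_Lk_eq (Q X Y : ℕ) (m : ℤ) (hm : (X : ℤ) ≤ m) (hm4 : m ≤ 4 * X) (hY : Y < X) :
    Lk Q Y m = ∑ n ∈ Icc 1 (60 * X), (lp n * tent Y (m - n)) *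
      ∑ q ∈ Icc 1 Q, cq q ((n : ℤ) - m) := by
  unfold Lk
  have h1 : ∑ n ∈ Icc 1 (60 * X), (lp n * tent Y (m - n)) *
      ∑ q ∈ Icc 1 Q, cq q ((n : ℤ) - m) =
      ∑ n ∈ (Icc 1 (60 * X)).filter (fun n : ℕ => |m - (n : ℤ)| < Y), (lp n * tent Y (m - n)) *
      ∑ q ∈ Icc 1 Q, cq q ((n : ℤ) - m) := by
    rw [sum_filter]
    refine sum_congr rfl fun n _ => ?_
    split_ifs with h
    · rfl
    · have : tent Y (m - n) = 0 := by
        unfold tent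
        have h2 : (Y : ℝ) ≤ |((m - n : ℤ) : ℝ)| := by
          have : (Y : ℤ) ≤ |m - (n : ℤ)| := not_lt.mp h
          exact_mod_cast this
        rw [max_eq_left (by linarith), zero_div]
      rw [this, mul_zero, zero_mul]
  rw [h1]
  symm
  refine sum_nbij' (fun n : ℕ => m - (n : ℤ)) (fun z : ℤ => (m - z).toNat) ?_ ?_ ?_ ?_ ?_
  · intro n hn
    rw [mem_filter] at hn
    rw [mem_Ioo]
    have := abs_lt.mp hn.2
    constructor <;> linarith [this.1, this.2]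
  · intro z hz
    rw [mem_Ioo] at hz
    rw [mem_filter, mem_Icc]
    have h3 : ((m - z).toNat : ℤ) = m - z := Int.toNat_of_nonneg (by omega)
    refine ⟨⟨by omega, by omega⟩, ?_⟩
    rw [h3, abs_lt]
    constructor <;> omega
  · intro n hn
    simp
  · intro z hz
    rw [mem_Ioo] at hz
    have h3 : ((m - z).toNat : ℤ) = m - z := Int.toNat_of_nonneg (by omega)
    simp only [h3]
    ring
  · intro n hn
    have e1 : m - (m - (n : ℤ)) = n := by ring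
    rw [e1]
    unfold kern
    have e2 : ∑ q ∈ Icc 1 Q, cq q (m - (n : ℤ)) = ∑ q ∈ Icc 1 Q, cq q ((n : ℤ) - m) := by
      refine sum_congr rfl fun q _ => ?_
      rw [← cq_neg q ((n : ℤ) - m)]
      congr 1
      ring
    rw [e2]
    ring

/-- expansion of the projection in characters -/
theorem DA_expand (Q X Y : ℕ) (m : ℤ) (hm : (X : ℤ) ≤ m) (hm4 : m ≤ 4 * X) (hY : Y < X)
    (hQ : Q + Y ≤ X) :
    (Lk Q Y m : ℂ) = ∑ p ∈ PC Q, (Gam Q p.1 m : ℂ) * (starRingEnd ℂ) (p.2 (m : ZMod p.1)) *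
      ∑ n ∈ Icc 1 (60 * X), ((lp n * tent Y (m - n) : ℝ) : ℂ) * p.2 (n : ZMod p.1) := by
  rw [DA_Lk_eq Q X Y m hm hm4 hY]
  rw [Complex.ofReal_sum]
  have h1 : ∀ n ∈ Icc 1 (60 * X), (((lp n * tent Y (m - n)) *
      ∑ q ∈ Icc 1 Q, cq q ((n : ℤ) - m) : ℝ) : ℂ) =
      ∑ p ∈ PC Q, ((lp n * tent Y (m - n) : ℝ) : ℂ) * ((Gam Q p.1 m : ℂ) *
        (p.2 (n : ZMod p.1) * (starRingEnd ℂ) (p.2 (m : ZMod p.1)))) := by
    intro n hn
    rw [← mul_sum]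
    by_cases h0 : lp n * tent Y (m - n) = 0
    · rw [h0]; simp
    · have hl : lp n ≠ 0 := fun h => h0 (by rw [h, zero_mul])
      have ht : tent Y (m - n) ≠ 0 := fun h => h0 (by rw [h, mul_zero])
      have hp : n.Prime := by
        unfold lp at hl
        by_contra hc
        apply hl
        simp [hc]
      have hlt : |m - (n : ℤ)| < Y := by
        by_contra hc
        apply ht
        unfold tent
        have h2 : (Y : ℝ) ≤ |((m - n : ℤ) : ℝ)| := by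
          have : (Y : ℤ) ≤ |m - (n : ℤ)| := not_lt.mp hc
          exact_mod_cast this
        rw [max_eq_left (by linarith), zero_div]
      have hQn : Q < n := by
        have := abs_lt.mp hlt
        omega
      rw [Complex.ofReal_mul, kernel_char Q n hp hQn m]
  rw [sum_congr rfl h1, sum_comm]
  refine sum_congr rfl fun p _ => ?_
  rw [mul_sum]
  refine sum_congr rfl fun n _ => ?_
  ring

open scoped Classical in
/-- the difference of projection and model -/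
theorem DA_diff (Q X Y : ℕ) (m : ℤ) (hm : (X : ℤ) ≤ m) (hm4 : m ≤ 4 * X) (hY : Y < X)
    (hQ : Q + Y ≤ X) (hQ1 : 1 ≤ Q) :
    |Lk Q Y m - G Q m| ≤ |G Q m| * |∑ n ∈ Icc 1 (60 * X), lp n * tent Y (m - n) - 1| +
      ∑ p ∈ (PC Q).filter (fun p => p ≠ p0), |Gam Q p.1 m| *
        ‖∑ n ∈ Icc 1 (60 * X), ((lp n * tent Y (m - n) : ℝ) : ℂ) * p.2 (n : ZMod p.1)‖ := by
  have h0 := DA_expand Q X Y m hm hm4 hY hQ
  have hsplit : (PC Q) = insert p0 ((PC Q).filter (fun p => p ≠ p0)) := by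
    ext p
    simp only [mem_insert, mem_filter]
    constructor
    · intro hp
      by_cases h : p = p0
      · exact Or.inl h
      · exact Or.inr ⟨hp, h⟩
    · rintro (h | h)
      · rw [h]; exact p0_mem hQ1
      · exact h.1
  rw [hsplit, sum_insert (by simp)] at h0
  have e1 : ∀ x : ZMod p0.1, p0.2 x = 1 := by
    intro x
    have : IsUnit x := by
      have : x = 1 := Subsingleton.elim (α := ZMod 1) x 1
      rw [this]; exact isUnit_one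
    exact MulChar.one_apply this
  have e2 : (Gam Q p0.1 m : ℂ) = (G Q m : ℂ) := by
    have : Gam Q p0.1 m = G Q m := Gam_one Q m
    rw [this]
  rw [e2] at h0
  have e3 : ∑ n ∈ Icc 1 (60 * X), ((lp n * tent Y (m - n) : ℝ) : ℂ) * p0.2 (n : ZMod p0.1) =
      ((∑ n ∈ Icc 1 (60 * X), lp n * tent Y (m - n) : ℝ) : ℂ) := by
    rw [Complex.ofReal_sum]
    refine sum_congr rfl fun n _ => ?_
    rw [e1, mul_one]
  rw [e3, e1, map_one, mul_one] at h0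
  have h1 : ((Lk Q Y m - G Q m : ℝ) : ℂ) =
      (G Q m : ℂ) * ((∑ n ∈ Icc 1 (60 * X), lp n * tent Y (m - n) - 1 : ℝ) : ℂ) +
      ∑ p ∈ (PC Q).filter (fun p => p ≠ p0), (Gam Q p.1 m : ℂ) *
        (starRingEnd ℂ) (p.2 (m : ZMod p.1)) *
        ∑ n ∈ Icc 1 (60 * X), ((lp n * tent Y (m - n) : ℝ) : ℂ) * p.2 (n : ZMod p.1) := by
    rw [Complex.ofReal_sub, h0]
    push_cast
    ring
  have h2 : |Lk Q Y m - G Q m| = ‖((Lk Q Y m - G Q m : ℝ) : ℂ)‖ := by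
    rw [Complex.norm_real, Real.norm_eq_abs]
  rw [h2, h1]
  refine (norm_add_le _ _).trans (add_le_add ?_ ?_)
  · rw [norm_mul, Complex.norm_real, Complex.norm_real, Real.norm_eq_abs, Real.norm_eq_abs]
  · refine (norm_sum_le _ _).trans (sum_le_sum fun p hp => ?_)
    rw [norm_mul, norm_mul, Complex.norm_real, Real.norm_eq_abs]
    have hp1 := (mem_PC.mp (mem_filter.mp hp).1).1
    have hne : NeZero p.1 := ⟨by omega⟩
    have h3 : ‖(starRingEnd ℂ) (p.2 (m : ZMod p.1))‖ ≤ 1 := by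
      rw [RCLike.norm_conj]
      exact DirichletCharacter.norm_le_one _ _
    have h4 : |Gam Q p.1 m| * ‖(starRingEnd ℂ) (p.2 (m : ZMod p.1))‖ ≤ |Gam Q p.1 m| * 1 :=
      mul_le_mul_of_nonneg_left h3 (abs_nonneg _)
    rw [mul_one] at h4
    exact mul_le_mul_of_nonneg_right h4 (norm_nonneg _)

open scoped Classical in
/-- **Structure.** `|Lk(m) - G(m)| ≤ (log X)^(-A) dQ(m)` for `X ≤ m ≤ 4X`, `Y = ⌊X/Q²⌋`.

Proof. `Lk(m) = ∑_n lp(n) tent(m-n) ∑_{q ≤ Q} c_q(m-n)`; only primes `n ≥ X/2 > Q` with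
`|m - n| < Y` occur. By `cq_neg` and `kernel_char` this is
`∑_{p ∈ PC Q} Γ_p(m) conj(ψ_p(m)) B_p(m)`, `B_p(m) = ∑_n lp(n) ψ_p(n) tent(m-n)`. The term `p0` is
`G(m) B_{p0}(m)` (`Gam_one`), so
`|Lk(m) - G(m)| ≤ |G(m)| |B_{p0}(m) - 1| + ∑_{p ≠ p0} |Γ_p(m)| |B_p(m)|`; use `abs_G_le`,
`abs_Gam_le`, `B_le`, `B0_le`, `L1_nontrivial`, `L1_trivial`, `card_PC_le`. -/
theorem structured (c : ℝ) (hc : 0 < c) (A : ℝ) : ∃ K : ℝ, ∀ Q X : ℕ, Reg K Q X → Good c Q →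
    ∀ m : ℤ, (X : ℤ) ≤ m → m ≤ 4 * X →
    |Lk Q (X / Q ^ 2) m - G Q m| ≤ (Real.log X) ^ (-A) * dQ Q m := by
  obtain ⟨K1, hK1⟩ := B_le
  obtain ⟨K2, hK2⟩ := B0_le
  obtain ⟨K3, hK3⟩ := L1_nontrivial c hc (A + 4)
  obtain ⟨K4, hK4⟩ := L1_trivial c hc (A + 4)
  obtain ⟨K5, hK5, hK5'⟩ := reg_log_le 400 (A + 3) (1 / 2) (by norm_num)
  refine ⟨|K1| + |K2| + |K3| + |K4| + K5 + 1000, fun Q X hR hG m hm hm4 => ?_⟩
  set K := |K1| + |K2| + |K3| + |K4| + K5 + 1000 with hK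
  have a1 := abs_nonneg K1
  have a2 := abs_nonneg K2
  have a3 := abs_nonneg K3
  have a4 := abs_nonneg K4
  have b1 := le_abs_self K1
  have b2 := le_abs_self K2
  have b3 := le_abs_self K3
  have b4 := le_abs_self K4
  have hK0 : (0 : ℝ) ≤ K := by linarith
  have hK1' : (1 : ℝ) ≤ K := by linarith
  have hKp : (0 : ℝ) < K := by linarith
  have R1 := hR.mono (K' := K1) hK0 (by linarith)
  have R2 := hR.mono (K' := K2) hK0 (by linarith)
  have R3 := hR.mono (K' := K3) hK0 (by linarith)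
  have R4 := hR.mono (K' := K4) hK0 (by linarith)
  have R5 := hR.mono (K' := K5) hK0 (by linarith)
  have hlX : 1000 ≤ Real.log X := by
    have h1 := hR.logX_ge hKp
    have h2 := Real.add_one_le_exp K
    linarith
  have hlX0 : 0 < Real.log X := by linarith
  have hQge : (1000 : ℝ) ≤ Q := by
    have := hR.Q_ge hK1'
    linarith
  have hQ0 : (0 : ℝ) < Q := by linarith
  have hQ1 : 1 ≤ Q := hR.Q_pos hK1'
  have hlogQ : 1000 ≤ Real.log Q := by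
    have := hR.logQ_ge hK1'
    linarith
  have hlQX : 1 + Real.log Q ≤ Real.log X := by
    have h1 := hR.logQ_le hK1'
    nlinarith
  -- `Q ^ 2 ≤ X` etc.
  have hXpos : (0 : ℝ) < X := by exact_mod_cast hR.X_pos hKp
  have hQX : (Q : ℝ) ^ 3 ≤ X := by
    have h1 := hR.logQ_le hK1'
    have h2 : 3 * Real.log Q ≤ Real.log X := by nlinarith
    have h3 : Real.log ((Q : ℝ) ^ 3) ≤ Real.log X := by
      rw [Real.log_pow]; push_cast; linarith
    exact (Real.log_le_log_iff (by positivity) hXpos).mp h3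
  have hQX' : Q ^ 3 ≤ X := by exact_mod_cast hQX
  have hQ1000 : 1000 ≤ Q := by exact_mod_cast hQge
  have hYle : X / Q ^ 2 * 2 ≤ X := by
    have h1 : X / Q ^ 2 * Q ^ 2 ≤ X := Nat.div_mul_le_self _ _
    have h2 : 2 ≤ Q ^ 2 := by nlinarith
    calc X / Q ^ 2 * 2 ≤ X / Q ^ 2 * Q ^ 2 := Nat.mul_le_mul_left _ h2
      _ ≤ X := h1
  have hX0 : 0 < X := hR.X_pos hKp
  have hQ2 : 2 * Q ≤ X := by
    have : 2 * Q ≤ Q ^ 3 := by nlinarith [Nat.mul_le_mul hQ1000 hQ1000]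
    omega
  have hYX : X / Q ^ 2 < X := by omega
  have hQY : Q + X / Q ^ 2 ≤ X := by omega
  have hd := one_le_dQ Q hQ1 m
  have hmain := DA_diff Q X (X / Q ^ 2) m hm hm4 hYX hQY hQ1
  set ℓ := Real.log X with hℓ
  have hG1 : |G Q m| ≤ 100 * ℓ ^ 3 * dQ Q m := by
    refine (abs_G_le Q m).trans ?_
    have h1 : (1 + Real.log Q) ^ 2 ≤ ℓ ^ 2 := by
      apply pow_le_pow_left₀ (by linarith) hlQX
    have h2 : ℓ ^ 2 ≤ ℓ ^ 3 := pow_le_pow_right₀ (by linarith) (by norm_num)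
    have h3 : 10 * (1 + Real.log Q) ^ 2 ≤ 100 * ℓ ^ 3 := by nlinarith [sq_nonneg ℓ]
    exact mul_le_mul_of_nonneg_right h3 (by linarith)
  have hGam : ∀ p ∈ (PC Q).filter (fun p => p ≠ p0), |Gam Q p.1 m| ≤ 100 * ℓ ^ 3 * dQ Q m := by
    intro p hp
    have hp' := mem_PC.mp (mem_filter.mp hp).1
    refine (abs_Gam_le Q p.1 hp'.1 hp'.2.1 m).trans ?_
    have h1 : (1 + Real.log Q) ^ 3 ≤ ℓ ^ 3 := by
      apply pow_le_pow_left₀ (by linarith) hlQX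
    exact mul_le_mul_of_nonneg_right (by linarith) (by linarith)
  have hB0 : |∑ n ∈ Icc 1 (60 * X), lp n * tent (X / Q ^ 2) (m - n) - 1| ≤
      ℓ ^ (-(A + 4)) + (Q : ℝ) ^ (-(5 / 2) : ℝ) :=
    (hK2 Q X R2 m hm hm4).trans (add_le_add (hK4 Q X R4 hG) le_rfl)
  have hBs : ∑ p ∈ (PC Q).filter (fun p => p ≠ p0),
      ‖∑ n ∈ Icc 1 (60 * X), ((lp n * tent (X / Q ^ 2) (m - n) : ℝ) : ℂ) *
        p.2 (n : ZMod p.1)‖ ≤ ℓ ^ (-(A + 4)) + (Q : ℝ) ^ (-(1 / 2) : ℝ) := by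
    calc _ ≤ ∑ p ∈ (PC Q).filter (fun p => p ≠ p0),
          ((∫ t in (-(Q : ℝ) ^ 7)..((Q : ℝ) ^ 7), ‖FL X p t‖) + (Q : ℝ) ^ (-(5 / 2) : ℝ)) :=
          sum_le_sum fun p hp => hK1 Q X R1 p (mem_PC.mp (mem_filter.mp hp).1).1 m hm hm4
      _ = (∑ p ∈ (PC Q).filter (fun p => p ≠ p0),
          ∫ t in (-(Q : ℝ) ^ 7)..((Q : ℝ) ^ 7), ‖FL X p t‖) +
            ((PC Q).filter (fun p => p ≠ p0)).card * (Q : ℝ) ^ (-(5 / 2) : ℝ) := by
          rw [sum_add_distrib, sum_const, nsmul_eq_mul]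
      _ ≤ _ := by
          refine add_le_add (hK3 Q X R3 hG) ?_
          have h1 : (((PC Q).filter (fun p => p ≠ p0)).card : ℝ) ≤ (Q : ℝ) ^ 2 := by
            have := (card_filter_le (PC Q) (fun p => p ≠ p0)).trans (card_PC_le Q)
            exact_mod_cast this
          have h2 : (Q : ℝ) ^ (-(1 / 2) : ℝ) = (Q : ℝ) ^ 2 * (Q : ℝ) ^ (-(5 / 2) : ℝ) := by
            rw [← Real.rpow_natCast, ← Real.rpow_add hQ0]
            norm_num
          rw [h2]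
          exact mul_le_mul_of_nonneg_right h1 (Real.rpow_nonneg hQ0.le _)
  have hB0' : |∑ n ∈ Icc 1 (60 * X), lp n * tent (X / Q ^ 2) (m - n) - 1| ≤
      ℓ ^ (-(A + 4)) + (Q : ℝ) ^ (-(1 / 2) : ℝ) := by
    refine hB0.trans (add_le_add le_rfl ?_)
    exact Real.rpow_le_rpow_of_exponent_le (by linarith) (by norm_num)
  set η := ℓ ^ (-(A + 4)) + (Q : ℝ) ^ (-(1 / 2) : ℝ) with hη
  have hη0 : 0 ≤ η := by positivity
  have hD0 : 0 ≤ 100 * ℓ ^ 3 * dQ Q m := by positivity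
  have h5 : ∑ p ∈ (PC Q).filter (fun p => p ≠ p0), |Gam Q p.1 m| *
        ‖∑ n ∈ Icc 1 (60 * X), ((lp n * tent (X / Q ^ 2) (m - n) : ℝ) : ℂ) *
          p.2 (n : ZMod p.1)‖ ≤ 100 * ℓ ^ 3 * dQ Q m * η := by
    refine (sum_le_sum fun p hp => mul_le_mul_of_nonneg_right (hGam p hp) (norm_nonneg _)).trans ?_
    rw [← mul_sum]
    exact mul_le_mul_of_nonneg_left hBs hD0
  have h6 : |G Q m| * |∑ n ∈ Icc 1 (60 * X), lp n * tent (X / Q ^ 2) (m - n) - 1| ≤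
      100 * ℓ ^ 3 * dQ Q m * η :=
    mul_le_mul hG1 hB0' (abs_nonneg _) hD0
  have h7 : 200 * ℓ ^ 3 * η ≤ ℓ ^ (-A) := by
    have e1 : 200 * ℓ ^ 3 * ℓ ^ (-(A + 4)) ≤ ℓ ^ (-A) / 2 := by
      have : ℓ ^ (3 : ℕ) * ℓ ^ (-(A + 4)) = ℓ ^ (-A) * ℓ ^ (-1 : ℝ) := by
        rw [← Real.rpow_natCast, ← Real.rpow_add hlX0, ← Real.rpow_add hlX0]
        congr 1
        push_cast
        ring
      rw [mul_assoc, this, Real.rpow_neg_one]
      have h8 : 0 ≤ ℓ ^ (-A) := Real.rpow_nonneg hlX0.le _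
      have h9 : ℓ⁻¹ ≤ 1 / 400 := by
        rw [inv_eq_one_div]
        apply one_div_le_one_div_of_le (by norm_num) (by linarith)
      nlinarith
    have e2 : 200 * ℓ ^ 3 * (Q : ℝ) ^ (-(1 / 2) : ℝ) ≤ ℓ ^ (-A) / 2 := by
      have h8 := hK5' Q X R5
      have h9 : (Q : ℝ) ^ (-(1 / 2) : ℝ) * (Q : ℝ) ^ (1 / 2 : ℝ) = 1 := by
        rw [← Real.rpow_add hQ0]; norm_num
      have h10 : ℓ ^ (A + 3) = ℓ ^ A * ℓ ^ 3 := by
        rw [← Real.rpow_natCast, ← Real.rpow_add hlX0]; norm_num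
      have h11 : ℓ ^ (-A) * ℓ ^ A = 1 := by
        rw [← Real.rpow_add hlX0]; norm_num
      have p1 : 0 < ℓ ^ A := Real.rpow_pos_of_pos hlX0 _
      have p2 : 0 < (Q : ℝ) ^ (-(1 / 2) : ℝ) := Real.rpow_pos_of_pos hQ0 _
      have p3 : 0 < ℓ ^ (-A) := Real.rpow_pos_of_pos hlX0 _
      rw [h10] at h8
      have h12 : 400 * (ℓ ^ A * ℓ ^ 3) * (Q : ℝ) ^ (-(1 / 2) : ℝ) ≤ 1 := by
        calc _ ≤ (Q : ℝ) ^ (1 / 2 : ℝ) * (Q : ℝ) ^ (-(1 / 2) : ℝ) :=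
              mul_le_mul_of_nonneg_right h8 p2.le
          _ = 1 := by rw [mul_comm]; exact h9
      calc 200 * ℓ ^ 3 * (Q : ℝ) ^ (-(1 / 2) : ℝ)
          = ℓ ^ (-A) / 2 * (400 * (ℓ ^ A * ℓ ^ 3) * (Q : ℝ) ^ (-(1 / 2) : ℝ)) := by
            have : ℓ ^ (-A) / 2 * (400 * (ℓ ^ A * ℓ ^ 3) * (Q : ℝ) ^ (-(1 / 2) : ℝ)) =
              (ℓ ^ (-A) * ℓ ^ A) * (200 * ℓ ^ 3 * (Q : ℝ) ^ (-(1 / 2) : ℝ)) := by ring
            rw [this, h11, one_mul]
        _ ≤ ℓ ^ (-A) / 2 * 1 := mul_le_mul_of_nonneg_left h12 (by positivity)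
        _ = ℓ ^ (-A) / 2 := mul_one _
    rw [hη, mul_add]
    linarith
  calc |Lk Q (X / Q ^ 2) m - G Q m| ≤ 100 * ℓ ^ 3 * dQ Q m * η + 100 * ℓ ^ 3 * dQ Q m * η :=
        hmain.trans (add_le_add h6 h5)
    _ = (200 * ℓ ^ 3 * η) * dQ Q m := by ring
    _ ≤ ℓ ^ (-A) * dQ Q m := mul_le_mul_of_nonneg_right h7 (by linarith)

end Pool.Agent.Lib.H68T
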