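import Pool.Agent.Lib.H68T.RegL

/-!
# Statements of the zero-free region part (chunks INV, INVZ), used by MS and PNTE
-/

open Finset

namespace Pool.Agent.Lib.H68T

/-- Control of `1/L(s, ψ)` in the rectangle `Rg c' Q`: there is `g`, analytic on the rectangle and
bounded there by `C log Q`, equal to the Dirichlet series of `μ ψ` for `Re s > 1`. -/
def InvStmt (c' C : ℝ) (Q : ℕ) (p : Σ r : ℕ, DirichletCharacter ℂ r) : Prop :=
  ∃ g : ℂ → ℂ, AnalyticOnNhd ℂ g (Rg c' Q) ∧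
    (∀ s : ℂ, 1 < s.re → g s = LSeries (fun n => (ArithmeticFunction.moebius n : ℂ) *
      p.2 (n : ZMod p.1)) s) ∧ ∀ s ∈ Rg c' Q, ‖g s‖ ≤ C * Real.log Q

/-- Control of `-ζ'/ζ(s) - 1/(s-1)` in the rectangle. -/
def ZetaStmt (c' C : ℝ) (Q : ℕ) : Prop :=
  ∃ g : ℂ → ℂ, AnalyticOnNhd ℂ g (Rg c' Q) ∧
    (∀ s : ℂ, 1 < s.re → g s = LSeries (fun n => (ArithmeticFunction.vonMangoldt n : ℂ)) s -
      1 / (s - 1)) ∧ ∀ s ∈ Rg c' Q, ‖g s‖ ≤ C * Real.log Q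

end Pool.Agent.Lib.H68T
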