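import Mathlib

/-!
# Project H68T (MP_f686a1_nt): definitions

See `PROOF.md` in this folder. Everything is stated for three parameters: the level `Q`, the
length `X` (both natural numbers), related by `Reg K Q X`, and a constant `c > 0` with
`Good c Q` (no real zero of a real primitive character of conductor at most `Q` in
`[1 - c / log Q, 1]`).
-/

open Finset

namespace Pool.Agent.Lib.H68T

noncomputable section

/-! ## The problem -/

/-- A finite set of non-negative integers is admissible if for every prime `p` some residue class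
modulo `p` contains none of its elements. -/
def Admissible (A : Finset ℕ) : Prop :=
  ∀ p : ℕ, p.Prime → ∃ r : ZMod p, ∀ a ∈ A, (a : ZMod p) ≠ r

/-- Some positive integer `n ≤ x` makes all `n + a`, `a ∈ A`, prime. -/
def HasPrimeTranslate (x : ℝ) (A : Finset ℕ) : Prop :=
  ∃ n : ℕ, 1 ≤ n ∧ (n : ℝ) ≤ x ∧ ∀ a ∈ A, (n + a).Prime

/-! ## Parameters -/

/-- The regime of the parameters: `(log X)^K ≤ Q` and `Q ≤ X^(1/(K log log X))`, `X` large. -/
def Reg (K : ℝ) (Q X : ℕ) : Prop :=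
  K ≤ Real.log (Real.log X) ∧ K * Real.log (Real.log X) ≤ Real.log Q ∧
    K * (Real.log Q * Real.log (Real.log X)) ≤ Real.log X

/-- `Q` is a good level: no real primitive character `ψ ≠ 1` of conductor at most `Q` has a real
zero in `[1 - c / log Q, 1]`. -/
def Good (c : ℝ) (Q : ℕ) : Prop :=
  ∀ (r : ℕ) [NeZero r] (ψ : DirichletCharacter ℂ r), r ≤ Q → ψ.IsPrimitive → ψ ≠ 1 →
    ψ ^ 2 = 1 → ∀ σ : ℝ, 1 - c / Real.log Q ≤ σ → σ ≤ 1 → ψ.LFunction (σ : ℂ) ≠ 0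

/-! ## Additive side -/

/-- `e x = exp (2 π i x)` -/
def e (x : ℝ) : ℂ := Complex.exp (2 * Real.pi * x * Complex.I)

/-- `lp m = log m` if `m` is a prime, and `0` otherwise. -/
def lp (m : ℤ) : ℝ := if m.toNat.Prime then Real.log m else 0

/-- Ramanujan's sum `c_q(m)`, by its divisor formula. -/
def cq (q : ℕ) (m : ℤ) : ℝ :=
  ∑ d ∈ q.divisors.filter (fun d : ℕ => (d : ℤ) ∣ m),
    (d : ℝ) * (ArithmeticFunction.moebius (q / d) : ℝ)

/-- The truncated Ramanujan expansion of the von Mangoldt function, the structured model. -/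
def G (Q : ℕ) (m : ℤ) : ℝ :=
  ∑ q ∈ Icc 1 Q, (ArithmeticFunction.moebius q : ℝ) / (Nat.totient q : ℝ) * cq q m

/-- The number of divisors of `m` in `[1, Q]`. -/
def dQ (Q : ℕ) (m : ℤ) : ℝ := (((Icc 1 Q).filter (fun d : ℕ => (d : ℤ) ∣ m)).card : ℝ)

/-- The tent of width `Y` and total mass `1` (for `Y ≥ 1`). -/
def tent (Y : ℕ) (z : ℤ) : ℝ := max 0 ((Y : ℝ) - |(z : ℝ)|) / (Y : ℝ) ^ 2

/-- The kernel of the projection: tent times the sum of the Ramanujan sums. -/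
def kern (Q Y : ℕ) (z : ℤ) : ℝ := tent Y z * ∑ q ∈ Icc 1 Q, cq q z

/-- The projection `lp * kern`. -/
def Lk (Q Y : ℕ) (m : ℤ) : ℝ := ∑ z ∈ Ioo (-(Y : ℤ)) Y, kern Q Y z * lp (m - z)

/-! ## Singular series factors -/

/-- `∏_{p ≤ P, p ∤ W} (1 + 1/(p-1)^2)` -/
def G0 (P W : ℕ) : ℝ :=
  ∏ p ∈ (Icc 1 P).filter (fun p => p.Prime ∧ ¬ p ∣ W), (1 + 1 / ((p : ℝ) - 1) ^ 2)

/-- `∏_{p ≤ P, p ∤ W, p ∣ d} (1 + 1/(p-1))` -/
def gp (P W : ℕ) (d : ℤ) : ℝ :=
  ∏ p ∈ (Icc 1 P).filter (fun p => p.Prime ∧ ¬ p ∣ W ∧ (p : ℤ) ∣ d), (1 + 1 / ((p : ℝ) - 1))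

/-- The normalised prime indicator along the class `b` modulo `W`. -/
def fW (W b l : ℕ) : ℝ := (Nat.totient W : ℝ) / (W : ℝ) * lp ((b : ℤ) + W * l)

/-! ## Multiplicative side -/

/-- The primitive characters of conductor between `1` and `Q`. -/
def PCset (Q : ℕ) : Set (Σ r : ℕ, DirichletCharacter ℂ r) :=
  {p | 1 ≤ p.1 ∧ p.1 ≤ Q ∧ p.2.IsPrimitive}

theorem PCset_finite (Q : ℕ) : (PCset Q).Finite := by
  have h : PCset Q ⊆ ⋃ r ∈ Set.Icc 1 Q, Sigma.mk r '' (Set.univ : Set (DirichletCharacter ℂ r)) := by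
    intro p hp
    simp only [Set.mem_iUnion]
    exact ⟨p.1, ⟨hp.1, hp.2.1⟩, p.2, trivial, rfl⟩
  refine Set.Finite.subset (Set.Finite.biUnion (Set.finite_Icc 1 Q) fun r hr => ?_) h
  have : NeZero r := ⟨by have := hr.1; omega⟩
  have : Finite (DirichletCharacter ℂ r) := inferInstance
  exact Set.Finite.image _ Set.finite_univ

/-- The primitive characters of conductor between `1` and `Q`, as a finite set. -/
def PC (Q : ℕ) : Finset (Σ r : ℕ, DirichletCharacter ℂ r) := (PCset_finite Q).toFinset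

/-- The trivial character. -/
def p0 : Σ r : ℕ, DirichletCharacter ℂ r := ⟨1, 1⟩

theorem mem_PC {Q : ℕ} {p : Σ r : ℕ, DirichletCharacter ℂ r} :
    p ∈ PC Q ↔ 1 ≤ p.1 ∧ p.1 ≤ Q ∧ p.2.IsPrimitive := by
  unfold PC
  rw [Set.Finite.mem_toFinset]
  rfl

theorem p0_mem {Q : ℕ} (hQ : 1 ≤ Q) : p0 ∈ PC Q :=
  mem_PC.mpr ⟨le_refl _, hQ, DirichletCharacter.isPrimitive_one_level_one⟩

/-- There are at most `Q^2` primitive characters of conductor at most `Q`. -/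
theorem card_PC_le (Q : ℕ) : (PC Q).card ≤ Q ^ 2 := by
  have key : ∀ r ∈ Icc 1 Q, ((PC Q).filter (fun p => p.1 = r)).card ≤ Q := by
    intro r hr
    rw [mem_Icc] at hr
    have hne : NeZero r := ⟨by omega⟩
    have hfin : Fintype (DirichletCharacter ℂ r) := Fintype.ofFinite _
    have h1 : ((PC Q).filter (fun p => p.1 = r)) ⊆
        (univ : Finset (DirichletCharacter ℂ r)).map (Function.Embedding.sigmaMk r) := by
      intro p hp
      rw [mem_filter] at hp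
      obtain ⟨-, hp⟩ := hp
      obtain ⟨r', ψ⟩ := p
      subst hp
      simp
    refine (card_le_card h1).trans ?_
    rw [card_map, card_univ]
    have h2 := DirichletCharacter.card_eq_totient_of_hasEnoughRootsOfUnity ℂ r
    rw [Nat.card_eq_fintype_card] at h2
    rw [h2]
    exact (Nat.totient_le r).trans hr.2
  have hmaps : Set.MapsTo (fun p : (Σ r : ℕ, DirichletCharacter ℂ r) => p.1) (PC Q : Set _)
      (Icc 1 Q : Set _) := by
    intro p hp
    have := mem_PC.mp hp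
    rw [coe_Icc]
    exact ⟨this.1, this.2.1⟩
  have h := Finset.card_eq_sum_card_fiberwise hmaps
  rw [h]
  refine (Finset.sum_le_sum key).trans ?_
  rw [sum_const, Nat.card_Icc, smul_eq_mul]
  simp [pow_two]

/-- The coefficient of `ψ(n) conj ψ(m)` (`ψ` primitive of conductor `r`) in the expansion of
`∑_{q ≤ Q} c_q(n - m)`, `n` coprime to all `q ≤ Q`. -/
def Gam (Q r : ℕ) (m : ℤ) : ℝ :=
  ∑ q ∈ (Icc 1 Q).filter (fun q => r ∣ q),
    ∑ d ∈ q.divisors.filter (fun d => r ∣ d ∧ IsCoprime (d : ℤ) m),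
      (ArithmeticFunction.moebius (q / d) : ℝ) * ((d : ℝ) / (Nat.totient d : ℝ))

/-- The smooth bump: `1` on `[-1, 3]`, `0` outside `[-2, 4]`. -/
def w (y : ℝ) : ℝ := Real.smoothTransition (y + 2) * Real.smoothTransition (4 - y)

/-- The smooth weight: `1` on `[X/e, e^3 X]`, `0` outside `[X/e^2, e^4 X]`. -/
def v (X : ℕ) (m : ℕ) : ℝ := w (Real.log ((m : ℝ) / X))

/-- The weighted Dirichlet polynomial of `h`. -/
def FF (X : ℕ) (h : ℕ → ℂ) (t : ℝ) : ℂ :=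
  ∑ m ∈ Icc 1 (60 * X), h m * (v X m : ℂ) * (m : ℂ) ^ (-(1 + t * Complex.I))

/-- `F_ψ(t) = ∑ Λ(m) ψ(m) v(m) m^(-1-it)` -/
def FL (X : ℕ) (p : Σ r : ℕ, DirichletCharacter ℂ r) (t : ℝ) : ℂ :=
  FF X (fun m => (ArithmeticFunction.vonMangoldt m : ℂ) * p.2 (m : ZMod p.1)) t

/-- `F_0(t) = ∑ v(m) m^(-1-it)` -/
def F0 (X : ℕ) (t : ℝ) : ℂ := FF X (fun _ => 1) t

/-- Upper end of the Möbius factors. -/
def VV (X : ℕ) : ℕ := ⌊((60 * X : ℕ) : ℝ) ^ ((1 : ℝ) / 3)⌋₊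

/-- Lower end of the Möbius factors. -/
def AA (X : ℕ) : ℕ := ⌈(X : ℝ) ^ ((1 : ℝ) / 4)⌉₊

/-- The Möbius polynomial `M_ψ(t) = ∑_{A ≤ a ≤ V} μ(a) ψ(a) a^(-1-it)`. -/
def Mu (X : ℕ) (p : Σ r : ℕ, DirichletCharacter ℂ r) (t : ℝ) : ℂ :=
  ∑ a ∈ Icc (AA X) (VV X), (ArithmeticFunction.moebius a : ℂ) * p.2 (a : ZMod p.1) *
    (a : ℂ) ^ (-(1 + t * Complex.I))

/-- The cutoff selecting the short smooth variables: `1` for `n ≤ Q^20`, `0` for `n ≥ e Q^20`. -/
def rho (Q : ℕ) (n : ℕ) : ℝ := 1 - Real.smoothTransition (Real.log ((n : ℝ) / (Q : ℝ) ^ 20))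

/-- The long smooth sum `∑_n (1 - ρ(n)) (log n)^j ψ(n) v(a n) n^(-1-it)`. -/
def Long (Q X : ℕ) (p : Σ r : ℕ, DirichletCharacter ℂ r) (j a : ℕ) (t : ℝ) : ℂ :=
  ∑ n ∈ Icc 1 (60 * X), (((1 - rho Q n) * Real.log n ^ j * v X (a * n) : ℝ) : ℂ) *
    p.2 (n : ZMod p.1) * (n : ℂ) ^ (-(1 + t * Complex.I))

/-- An arithmetic function given by a function (value `0` at `0`). -/
def af (f : ℕ → ℝ) : ArithmeticFunction ℝ := ⟨fun n => if n = 0 then 0 else f n, by simp⟩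

/-- The main part of Heath-Brown's identity: three Möbius factors in `[A, V]`, three short smooth
variables. -/
def hmain (Q X : ℕ) : ArithmeticFunction ℝ :=
  (af (fun a => if AA X ≤ a ∧ a ≤ VV X then (ArithmeticFunction.moebius a : ℝ) else 0)) ^ 3 *
    (af (rho Q)) ^ 2 * af (fun n => rho Q n * Real.log n)

/-- The rectangle in which `1/L` is controlled. -/
def Rg (c : ℝ) (Q : ℕ) : Set ℂ :=
  {s | 1 - c / Real.log Q ≤ s.re ∧ s.re ≤ 2 ∧ |s.im| ≤ (Q : ℝ) ^ 12}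

end

end Pool.Agent.Lib.H68T
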