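import Pool.Agent.Lib.H68T.LAB
import Pool.Agent.Lib.H68T.T341
import Pool.Agent.Lib.H68T.RegL

/-!
# Chunk PAGE1; part of PAGE: at most one exceptional character; good levels exist
-/

open Finset

namespace Pool.Agent.Lib.H68T

/-- The product of two different primitive real characters is not principal. -/
theorem PAGE1_ne_one (r₁ r₂ : ℕ) [NeZero r₁] [NeZero r₂] (ψ₁ : DirichletCharacter ℂ r₁)
    (ψ₂ : DirichletCharacter ℂ r₂) (hp₁ : ψ₁.IsPrimitive) (hp₂ : ψ₂.IsPrimitive)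
    (h₂ : ψ₂ ^ 2 = 1)
    (hne : (⟨r₁, ψ₁⟩ : Σ r : ℕ, DirichletCharacter ℂ r) ≠ ⟨r₂, ψ₂⟩) :
    (DirichletCharacter.changeLevel (Dvd.intro r₂ rfl) ψ₁ *
      DirichletCharacter.changeLevel (Dvd.intro_left r₁ rfl) ψ₂ :
        DirichletCharacter ℂ (r₁ * r₂)) ≠ 1 := by
  intro h
  have hN : NeZero (r₁ * r₂) := inferInstance
  set χ₁ : DirichletCharacter ℂ (r₁ * r₂) :=
    DirichletCharacter.changeLevel (Dvd.intro r₂ rfl) ψ₁ with hχ₁
  set χ₂ : DirichletCharacter ℂ (r₁ * r₂) :=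
    DirichletCharacter.changeLevel (Dvd.intro_left r₁ rfl) ψ₂ with hχ₂
  have hsq : χ₂ * χ₂ = 1 := by
    rw [hχ₂, ← map_mul, ← pow_two, h₂, map_one]
  have heq : χ₁ = χ₂ := by
    calc χ₁ = χ₁ * (χ₂ * χ₂) := by rw [hsq, mul_one]
      _ = (χ₁ * χ₂) * χ₂ := by rw [mul_assoc]
      _ = χ₂ := by rw [h, one_mul]
  have hc₁ : χ₁.conductor = r₁ := by
    rw [hχ₁, DirichletCharacter.conductor_changeLevel]
    exact hp₁
  have hc₂ : χ₂.conductor = r₂ := by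
    rw [hχ₂, DirichletCharacter.conductor_changeLevel]
    exact hp₂
  have hr : r₁ = r₂ := by
    rw [← hc₁, heq, hc₂]
  subst hr
  apply hne
  have hinj := DirichletCharacter.changeLevel_injective (R := ℂ)
    (Dvd.intro r₁ rfl : r₁ ∣ r₁ * r₁)
  have : ψ₁ = ψ₂ := hinj heq
  rw [this]

/-- **Page.** Two different real primitive characters of conductor at most `Q` cannot both have a
real zero in `[1 - c₀/log Q, 1]`. `product_real` at `σ = 1 + a/log Q`; the product character is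
non-trivial (distinct primitive characters have distinct lifts to level `r₁ r₂`), of modulus
`≤ Q²`; `re_char` with `S = {β_i}`: `2/(a + c₀) ≤ 1/a + C'`, false for `a = 1/(4C')`, `c₀ = a/4`. -/
theorem page : ∃ c₀ K : ℝ, 0 < c₀ ∧ ∀ Q : ℕ, K ≤ Q → ∀ (r₁ r₂ : ℕ) [NeZero r₁] [NeZero r₂]
    (ψ₁ : DirichletCharacter ℂ r₁) (ψ₂ : DirichletCharacter ℂ r₂), r₁ ≤ Q → r₂ ≤ Q →
    ψ₁.IsPrimitive → ψ₂.IsPrimitive → ψ₁ ≠ 1 → ψ₂ ≠ 1 → ψ₁ ^ 2 = 1 → ψ₂ ^ 2 = 1 →
    (⟨r₁, ψ₁⟩ : Σ r : ℕ, DirichletCharacter ℂ r) ≠ ⟨r₂, ψ₂⟩ →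
    ∀ σ₁ σ₂ : ℝ, 1 - c₀ / Real.log Q ≤ σ₁ → σ₁ ≤ 1 → 1 - c₀ / Real.log Q ≤ σ₂ → σ₂ ≤ 1 →
    ψ₁.LFunction (σ₁ : ℂ) = 0 → ψ₂.LFunction (σ₂ : ℂ) = 0 → False := by
  obtain ⟨C, hC, hre⟩ := re_char
  obtain ⟨Cv, hCv, hvM⟩ := vonMangoldt_le
  set C' : ℝ := 12 * C + Cv + 1 with hC'
  have hC'1 : 1 ≤ C' := by linarith
  have hC'pos : 0 < C' := by linarith
  set a : ℝ := 1 / (4 * C') with ha
  have hapos : 0 < a := by positivity
  have ha4 : a ≤ 1 / 4 := by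
    rw [ha]
    exact div_le_div_of_nonneg_left (by norm_num) (by norm_num) (by linarith)
  refine ⟨a / 4, Real.exp (4 + 2 / a), by positivity, ?_⟩
  intro Q hQ r₁ r₂ _ _ ψ₁ ψ₂ hr₁ hr₂ hp₁ hp₂ hne₁ hne₂ hs₁ hs₂ hne σ₁ σ₂ hσ₁ hσ₁' hσ₂ hσ₂' hz₁ hz₂
  have hQpos : (0 : ℝ) < Q := (Real.exp_pos _).trans_le hQ
  set L : ℝ := Real.log Q with hL
  have hLge : 4 + 2 / a ≤ L := (Real.le_log_iff_exp_le hQpos).2 hQ
  have h2a : 0 < 2 / a := by positivity
  have hL4 : 4 ≤ L := by linarith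
  have hLpos : 0 < L := by linarith
  set x : ℝ := a / L with hx
  have hxpos : 0 < x := by positivity
  have hxle : x ≤ 1 / 16 := by
    rw [hx, div_le_div_iff₀ hLpos (by norm_num)]
    linarith
  have hσ : 1 < 1 + x := by linarith
  -- the logarithms
  have hlog : Real.log (1 / x) ≤ L := by
    have h1 : 1 / x = (1 / a) * L := by
      rw [hx]
      field_simp
    rw [h1, Real.log_mul (by positivity) hLpos.ne']
    have h2 : Real.log (1 / a) ≤ 1 / a := (Real.log_le_sub_one_of_pos (by positivity)).trans (by linarith)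
    have h3 : 2 / a = 2 * (1 / a) := by ring
    have h4 : Real.log L ≤ L / 2 := by
      have h5 : Real.log (L / 2) ≤ L / 2 - 1 := Real.log_le_sub_one_of_pos (by positivity)
      rw [Real.log_div hLpos.ne' (by norm_num)] at h5
      have h6 : Real.log 2 ≤ 1 := (Real.log_le_sub_one_of_pos (by norm_num)).trans (by norm_num)
      linarith
    linarith
  have hlog3 : Real.log (|(0 : ℝ)| + 3) + 1 ≤ L := by
    rw [abs_zero, zero_add]
    have : Real.log 3 ≤ 2 := (Real.log_le_sub_one_of_pos (by norm_num)).trans (by norm_num)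
    linarith
  have hlogr : ∀ r : ℕ, 0 < r → r ≤ Q → Real.log r ≤ L := by
    intro r hr hrQ
    exact Real.log_le_log (by exact_mod_cast hr) (by exact_mod_cast hrQ)
  have hr₁pos : 0 < r₁ := Nat.pos_of_ne_zero (NeZero.ne r₁)
  have hr₂pos : 0 < r₂ := Nat.pos_of_ne_zero (NeZero.ne r₂)
  have hb : a / 4 / L = x / 4 := by rw [hx]; ring
  rw [hb] at hσ₁ hσ₂
  -- one character with a real zero
  have hone : ∀ (r : ℕ) [NeZero r] (ψ : DirichletCharacter ℂ r) (β : ℝ), 0 < r → r ≤ Q → ψ ≠ 1 →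
      1 - x / 4 ≤ β → β ≤ 1 → ψ.LFunction (β : ℂ) = 0 →
      (LSeries (fun n => (ArithmeticFunction.vonMangoldt n : ℂ) * ψ (n : ZMod r))
        ((1 + x : ℝ) : ℂ)).re ≤ 4 * C * L - 1 / (5 / 4 * x) := by
    intro r _ ψ β hr hrQ hψ hβ hβ' hz
    have h1 := hre r ψ hψ (1 + x) 0 hσ (by linarith) {(β : ℂ)} (by
      intro ρ hρ
      rw [Finset.mem_singleton] at hρ
      subst hρ
      refine ⟨hz, ?_⟩
      have : (β : ℂ) - (((1 + x : ℝ) : ℂ) + ((0 : ℝ) : ℂ) * Complex.I) = ((β - (1 + x) : ℝ) : ℂ) := by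
        push_cast
        ring
      rw [this, Complex.norm_real, Real.norm_eq_abs, abs_le]
      constructor <;> linarith)
    rw [Finset.sum_singleton] at h1
    have h2 : ((1 + x : ℝ) : ℂ) + ((0 : ℝ) : ℂ) * Complex.I = ((1 + x : ℝ) : ℂ) := by
      push_cast
      ring
    rw [h2] at h1
    have h3 : (1 / (((1 + x : ℝ) : ℂ) - (β : ℂ))).re = 1 / (1 + x - β) := by
      have : (1 / (((1 + x : ℝ) : ℂ) - (β : ℂ))) = ((1 / (1 + x - β) : ℝ) : ℂ) := by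
        push_cast
        ring
      rw [this, Complex.ofReal_re]
    rw [h3] at h1
    have h4 : 1 / (5 / 4 * x) ≤ 1 / (1 + x - β) :=
      div_le_div_of_nonneg_left (by norm_num) (by linarith) (by linarith)
    have h5 : Real.log r + Real.log (|(0 : ℝ)| + 3) + Real.log (1 / (1 + x - 1)) + 1 ≤ 4 * L := by
      rw [add_sub_cancel_left]
      have e1 := hlogr r hr hrQ
      have e2 : Real.log r + Real.log (|(0 : ℝ)| + 3) + Real.log (1 / x) + 1 =
          Real.log r + (Real.log (|(0 : ℝ)| + 3) + 1) + Real.log (1 / x) := by ring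
      rw [e2]
      calc Real.log r + (Real.log (|(0 : ℝ)| + 3) + 1) + Real.log (1 / x) ≤ L + L + L :=
            add_le_add (add_le_add e1 hlog3) hlog
        _ ≤ 4 * L := by linarith
    have h6 := mul_le_mul_of_nonneg_left h5 hC.le
    linarith
  have e₁ := hone r₁ ψ₁ σ₁ hr₁pos hr₁ hne₁ hσ₁ hσ₁' hz₁
  have e₂ := hone r₂ ψ₂ σ₂ hr₂pos hr₂ hne₂ hσ₂ hσ₂' hz₂
  have e₃ := hre (r₁ * r₂) _ (PAGE1_ne_one r₁ r₂ ψ₁ ψ₂ hp₁ hp₂ hs₂ hne) (1 + x) 0 hσ
    (by linarith) ∅ (by simp)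
  rw [Finset.sum_empty, sub_zero] at e₃
  have h2 : ((1 + x : ℝ) : ℂ) + ((0 : ℝ) : ℂ) * Complex.I = ((1 + x : ℝ) : ℂ) := by
    push_cast
    ring
  rw [h2] at e₃
  have h5 : Real.log ((r₁ * r₂ : ℕ) : ℝ) + Real.log (|(0 : ℝ)| + 3) + Real.log (1 / (1 + x - 1)) + 1 ≤
      4 * L := by
    rw [add_sub_cancel_left, Nat.cast_mul, Real.log_mul (by positivity) (by positivity)]
    have e2 : Real.log r₁ + Real.log r₂ + Real.log (|(0 : ℝ)| + 3) + Real.log (1 / x) + 1 =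
        Real.log r₁ + Real.log r₂ + (Real.log (|(0 : ℝ)| + 3) + 1) + Real.log (1 / x) := by ring
    rw [e2]
    calc Real.log r₁ + Real.log r₂ + (Real.log (|(0 : ℝ)| + 3) + 1) + Real.log (1 / x) ≤
          L + L + L + L :=
          add_le_add (add_le_add (add_le_add (hlogr r₁ hr₁pos hr₁) (hlogr r₂ hr₂pos hr₂)) hlog3) hlog
      _ = 4 * L := by ring
  have h6 := mul_le_mul_of_nonneg_left h5 hC.le
  have e₄ := hvM (1 + x) hσ (by linarith)
  rw [add_sub_cancel_left] at e₄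
  have hpos := product_real r₁ r₂ ψ₁ ψ₂ hs₁ hs₂ (1 + x) hσ
  have hfin : 0 ≤ 1 / x + Cv + 12 * C * L - 2 * (1 / (5 / 4 * x)) := by linarith
  have h7 : 1 / (5 / 4 * x) = 4 / 5 * (1 / x) := by field_simp
  have h8 : 1 / x = 4 * C' * L := by
    rw [hx, ha]
    field_simp
  rw [h7, h8] at hfin
  have h9 : 4 * C' * L + Cv + 12 * C * L - 2 * (4 / 5 * (4 * C' * L)) =
      Cv + 12 * C * L - 12 / 5 * (C' * L) := by ring
  rw [h9] at hfin
  have h10 : C' * L = 12 * C * L + Cv * L + L := by rw [hC']; ring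
  have h11 : Cv ≤ Cv * L := le_mul_of_one_le_right hCv.le (by linarith)
  have h12 : 0 < 12 * C * L := by positivity
  linarith

end Pool.Agent.Lib.H68T
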