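import Pool.Agent.Lib.H68T.LAB
import Pool.Agent.Lib.H68T.T341
import Pool.Agent.Lib.H68T.RegL
import Pool.Agent.Lib.H68T.PAGE1

/-!
# Chunk PAGE2; part of PAGE: at most one exceptional character; good levels exist
-/

open Finset

namespace Pool.Agent.Lib.H68T

/-- the largest real zero in a compact interval -/
theorem PAGE2_max (r : ℕ) [NeZero r] (ψ : DirichletCharacter ℂ r) (hψ : ψ ≠ 1) (u σ : ℝ)
    (h1 : u ≤ σ) (h2 : σ ≤ 1) (hz : ψ.LFunction (σ : ℂ) = 0) :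
    ∃ β : ℝ, u ≤ β ∧ β < 1 ∧ ψ.LFunction (β : ℂ) = 0 ∧
      ∀ x : ℝ, β < x → x ≤ 1 → ψ.LFunction (x : ℂ) ≠ 0 := by
  have hcont : Continuous fun x : ℝ => ψ.LFunction (x : ℂ) :=
    (DirichletCharacter.differentiable_LFunction hψ).continuous.comp Complex.continuous_ofReal
  have hclosed : IsClosed {x : ℝ | ψ.LFunction (x : ℂ) = 0} :=
    isClosed_eq hcont continuous_const
  have hcomp : IsCompact (Set.Icc u 1 ∩ {x : ℝ | ψ.LFunction (x : ℂ) = 0}) :=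
    isCompact_Icc.inter_right hclosed
  obtain ⟨β, hβ, hmax⟩ := hcomp.exists_isGreatest ⟨σ, ⟨h1, h2⟩, hz⟩
  refine ⟨β, hβ.1.1, ?_, hβ.2, ?_⟩
  · rcases hβ.1.2.lt_or_eq with h | h
    · exact h
    · exfalso
      refine DirichletCharacter.LFunction_ne_zero_of_one_le_re ψ (Or.inl hψ) ?_ hβ.2
      rw [h]
      simp
  · intro x hx hx1 h0
    have := hmax ⟨⟨hβ.1.1.trans hx.le, hx1⟩, h0⟩
    linarith

/-- **Good levels are unbounded.** Take `c = c₀/2`, `c₀` from `page`. Given `K`, either `Good c K`,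
or some `ψ₁`, `r₁ ≤ K`, has a real zero in `[1 - c/log K, 1]`; let `β₁` be its largest real zero
(compactness; `β₁ < 1` by `LFunction_ne_zero_of_one_le_re`) and `Q` the least integer with
`log Q > c/(1 - β₁)`; then `log Q ≤ 2c/(1 - β₁)`, `ψ₁` has no zero in `[1 - c/log Q, 1]`, and a zero
of another `ψ₂` there would contradict `page` (as `1 - c₀/log Q ≤ β₁`). -/
theorem good_levels : ∃ c : ℝ, 0 < c ∧ ∀ K : ℕ, ∃ Q : ℕ, K ≤ Q ∧ Good c Q := by
  obtain ⟨c₀, K₀, hc₀, hpage⟩ := page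
  refine ⟨c₀ / 2, by positivity, fun K => ?_⟩
  set N : ℕ := max (max K ⌈K₀⌉₊) 3 with hN
  have hKN : K ≤ N := (le_max_left _ _).trans (le_max_left _ _)
  have hK₀N : K₀ ≤ N := (Nat.le_ceil K₀).trans (by
    exact_mod_cast (le_max_right K ⌈K₀⌉₊).trans (le_max_left _ _))
  have h3N : 3 ≤ N := le_max_right _ _
  by_cases hg : Good (c₀ / 2) N
  · exact ⟨N, hKN, hg⟩
  unfold Good at hg
  push Not at hg
  obtain ⟨r₁, hne, ψ₁, hr₁, hp₁, hψ₁, hs₁, σ, hσ, hσ1, hz⟩ := hg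
  obtain ⟨β, hβ, hβ1, hβz, hmax⟩ := PAGE2_max r₁ ψ₁ hψ₁ _ σ hσ hσ1 hz
  set δ : ℝ := 1 - β with hδ
  have hδpos : 0 < δ := by rw [hδ]; linarith
  have hNpos : (0 : ℝ) < N := by
    have : (3 : ℝ) ≤ N := by exact_mod_cast h3N
    linarith
  have hlogN : 1 ≤ Real.log N := by
    have h1 : Real.exp 1 ≤ N := by
      have h2 : Real.exp 1 ≤ 3 := by linarith [Real.exp_one_lt_d9]
      have h4 : (3 : ℝ) ≤ N := by exact_mod_cast h3N
      linarith
    exact (Real.le_log_iff_exp_le hNpos).2 h1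
  set x : ℝ := c₀ / 2 / δ with hx
  have hxpos : 0 < x := by positivity
  have hxN : Real.log N ≤ x := by
    rw [hx, le_div_iff₀ hδpos]
    have h1 : δ ≤ c₀ / 2 / Real.log N := by rw [hδ]; linarith
    calc Real.log N * δ ≤ Real.log N * (c₀ / 2 / Real.log N) :=
          mul_le_mul_of_nonneg_left h1 (by linarith)
      _ = c₀ / 2 := by field_simp
  set Q : ℕ := ⌊Real.exp x⌋₊ + 1 with hQ
  have hQgt : Real.exp x < Q := by
    rw [hQ]
    push_cast
    exact Nat.lt_floor_add_one _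
  have hQle : (Q : ℝ) ≤ Real.exp x + 1 := by
    rw [hQ]
    push_cast
    linarith [Nat.floor_le (Real.exp_pos x).le]
  have hQpos : (0 : ℝ) < Q := (Real.exp_pos x).trans hQgt
  have hlogQ1 : x < Real.log Q := (Real.lt_log_iff_exp_lt hQpos).2 hQgt
  have hlogQ2 : Real.log Q ≤ 2 * x := by
    have h1 : (Q : ℝ) ≤ 2 * Real.exp x := by
      have : 1 ≤ Real.exp x := Real.one_le_exp hxpos.le
      linarith
    have h2 : Real.log Q ≤ Real.log (2 * Real.exp x) := Real.log_le_log hQpos h1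
    rw [Real.log_mul (by norm_num) (Real.exp_pos x).ne', Real.log_exp] at h2
    have h3 : Real.log 2 ≤ 1 := (Real.log_le_sub_one_of_pos (by norm_num)).trans (by norm_num)
    linarith
  have hNQ : N ≤ Q := by
    have h1 : (N : ℝ) ≤ Q := by
      have h2 : (N : ℝ) ≤ Real.exp x := (Real.log_le_iff_le_exp hNpos).1 hxN
      linarith
    exact_mod_cast h1
  refine ⟨Q, hKN.trans hNQ, ?_⟩
  intro r₂ _ ψ₂ hr₂ hp₂ hψ₂ hs₂ τ hτ hτ1 hτz
  -- `c / log Q < 1 - β ≤ 2 c / log Q`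
  have hlogQpos : 0 < Real.log Q := hxpos.trans hlogQ1
  have hsmall : c₀ / 2 / Real.log Q < δ := by
    rw [div_lt_iff₀ hlogQpos]
    rw [hx, div_lt_iff₀ hδpos] at hlogQ1
    linarith [mul_comm δ (Real.log Q)]
  have hbig : δ ≤ c₀ / Real.log Q := by
    rw [le_div_iff₀ hlogQpos]
    have h1 : 2 * x = c₀ / δ := by rw [hx]; ring
    rw [h1, le_div_iff₀ hδpos] at hlogQ2
    linarith [mul_comm δ (Real.log Q)]
  by_cases heq : (⟨r₁, ψ₁⟩ : Σ r : ℕ, DirichletCharacter ℂ r) = ⟨r₂, ψ₂⟩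
  · obtain ⟨rfl, h⟩ := Sigma.mk.inj_iff.1 heq
    have h' : ψ₁ = ψ₂ := eq_of_heq h
    subst h'
    refine hmax τ (by rw [hδ] at hsmall; linarith) hτ1 ?_
    convert hτz using 2
  · refine hpage Q (hK₀N.trans (by exact_mod_cast hNQ)) r₁ r₂ ψ₁ ψ₂ (hr₁.trans hNQ) hr₂ hp₁ hp₂
      hψ₁ hψ₂ hs₁ hs₂ heq β τ (by rw [hδ] at hbig; linarith) hβ1.le ?_ hτ1 hβz hτz
    have h1 : c₀ / 2 / Real.log Q ≤ c₀ / Real.log Q :=
      div_le_div_of_nonneg_right (by linarith) hlogQpos.le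
    linarith

end Pool.Agent.Lib.H68T
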