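import Pool.Agent.Lib.H68T.HDEC
import Pool.Agent.Lib.H68T.LONG
import Pool.Agent.Lib.H68T.MAIN
import Pool.Agent.Lib.H68T.PNTE
import Pool.Agent.Lib.H68T.BPS

/-!
# Chunk D2A; part of D2: the `L¹` bounds for `F_ψ`
-/

open Finset MeasureTheory

namespace Pool.Agent.Lib.H68T

/-- the contribution of the long variables at one frequency -/
theorem d2a_long (Q X : ℕ) (α : ℕ → ℕ → ℝ) (B E : ℝ) (hE : 0 ≤ E)
    (hα : ∀ j ∈ range 2, ∑ a ∈ Icc 1 (60 * X), |α j a| / a ≤ B)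
    (p : Σ r : ℕ, DirichletCharacter ℂ r) (t : ℝ)
    (hL : ∀ j ∈ range 2, ∀ a : ℕ, 1 ≤ a → ‖Long Q X p j a t‖ ≤ E) :
    ‖∑ j ∈ range 2, ∑ a ∈ Icc 1 (60 * X), (α j a : ℂ) * p.2 (a : ZMod p.1) *
          (a : ℂ) ^ (-(1 + t * Complex.I)) * Long Q X p j a t‖ ≤ 2 * (B * E) := by
  have h1 : ∀ j ∈ range 2, ‖∑ a ∈ Icc 1 (60 * X), (α j a : ℂ) * p.2 (a : ZMod p.1) *
      (a : ℂ) ^ (-(1 + t * Complex.I)) * Long Q X p j a t‖ ≤ B * E := by
    intro j hj
    refine (norm_sum_le _ _).trans ?_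
    have h2 : ∀ a ∈ Icc 1 (60 * X), ‖(α j a : ℂ) * p.2 (a : ZMod p.1) *
        (a : ℂ) ^ (-(1 + t * Complex.I)) * Long Q X p j a t‖ ≤ |α j a| / a * E := by
      intro a ha
      have ha1 : 1 ≤ a := (mem_Icc.mp ha).1
      have ha0 : (0 : ℝ) < a := by exact_mod_cast ha1
      rw [norm_mul, norm_mul, norm_mul, Complex.norm_real, Real.norm_eq_abs]
      have e1 : ‖(a : ℂ) ^ (-(1 + t * Complex.I))‖ = (a : ℝ)⁻¹ := by
        rw [Complex.norm_natCast_cpow_of_pos (by omega)]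
        simp [Real.rpow_neg_one]
      rw [e1]
      have e2 : ‖p.2 (a : ZMod p.1)‖ ≤ 1 := DirichletCharacter.norm_le_one _ _
      have e3 := hL j hj a ha1
      have e4 : 0 ≤ |α j a| := abs_nonneg _
      calc |α j a| * ‖p.2 (a : ZMod p.1)‖ * (a : ℝ)⁻¹ * ‖Long Q X p j a t‖
          ≤ |α j a| * 1 * (a : ℝ)⁻¹ * E := by gcongr
        _ = |α j a| / a * E := by ring
    refine (Finset.sum_le_sum h2).trans ?_
    rw [← Finset.sum_mul]
    exact mul_le_mul_of_nonneg_right (hα j hj) hE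
  refine (norm_sum_le _ _).trans ?_
  refine (Finset.sum_le_sum h1).trans ?_
  rw [Finset.sum_const, card_range, nsmul_eq_mul]
  norm_num

open scoped Classical in
/-- Non-trivial characters: `decomposition`, `main_L1`, `long_small`, `card_PC_le`
(`Q² · 2Q^7 · 2 (log X)^7 Q^(-11)` for the long parts). -/
theorem L1_nontrivial (c : ℝ) (hc : 0 < c) (A : ℝ) : ∃ K : ℝ, ∀ Q X : ℕ, Reg K Q X → Good c Q →
    ∑ p ∈ (PC Q).filter (fun p => p ≠ p0), ∫ t in (-(Q : ℝ) ^ 7)..((Q : ℝ) ^ 7), ‖FL X p t‖ ≤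
      (Real.log X) ^ (-A) := by
  obtain ⟨K₁, hK₁⟩ := decomposition
  obtain ⟨K₂, hK₂⟩ := long_small
  obtain ⟨K₃, hK₃⟩ := main_L1 c hc (A + 1)
  obtain ⟨K₄, hK₄1, hK₄⟩ := reg_log_le 8 (7 + A) 2 two_pos
  refine ⟨|K₁| + |K₂| + |K₃| + K₄ + 10, ?_⟩
  intro Q X hreg hgood
  have a1 : 0 ≤ |K₁| := abs_nonneg _
  have a2 : 0 ≤ |K₂| := abs_nonneg _
  have a3 : 0 ≤ |K₃| := abs_nonneg _
  have b1 : K₁ ≤ |K₁| := le_abs_self _
  have b2 : K₂ ≤ |K₂| := le_abs_self _
  have b3 : K₃ ≤ |K₃| := le_abs_self _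
  have hKpos : 0 ≤ |K₁| + |K₂| + |K₃| + K₄ + 10 := by linarith
  have r1 : Reg K₁ Q X := hreg.mono hKpos (by linarith)
  have r2 : Reg K₂ Q X := hreg.mono hKpos (by linarith)
  have r3 : Reg K₃ Q X := hreg.mono hKpos (by linarith)
  have r4 : Reg K₄ Q X := hreg.mono hKpos (by linarith)
  have r5 : Reg 10 Q X := hreg.mono hKpos (by linarith)
  set L : ℝ := Real.log X with hL
  have hL10 : 10 ≤ L := by
    have h1 := r5.logX_ge (by norm_num)
    have := Real.add_one_le_exp (10 : ℝ)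
    linarith
  have hL0 : 0 < L := by linarith
  have hQ10 : (10 : ℝ) ≤ Q := r5.Q_ge (by norm_num)
  have hQ0 : (0 : ℝ) < Q := by linarith
  have hQ4 : 8 * L ^ (7 + A) ≤ (Q : ℝ) ^ 2 := by
    have := hK₄ Q X r4
    rwa [Real.rpow_two] at this
  obtain ⟨α, hα, hdec⟩ := hK₁ Q X r1
  set T₁ : ℝ := (Q : ℝ) ^ 7 with hT₁
  have hT₁0 : 0 < T₁ := by positivity
  set D : ℝ := 2 * (L ^ (7 : ℝ) * (Q : ℝ) ^ (-11 : ℝ)) with hD
  have hD0 : 0 ≤ D := by positivity
  have key : ∀ p ∈ (PC Q).filter (fun p => p ≠ p0), ∫ t in (-T₁)..T₁, ‖FL X p t‖ ≤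
      (∫ t in (-T₁)..T₁, ‖FF X (fun m => (hmain Q X m : ℂ) * p.2 (m : ZMod p.1)) t‖) +
        2 * T₁ * D := by
    intro p hp
    obtain ⟨hp, hp0⟩ := mem_filter.mp hp
    have hp1 : 1 ≤ p.1 := (mem_PC.mp hp).1
    have hcF : Continuous (fun t => ‖FF X (fun m => (hmain Q X m : ℂ) * p.2 (m : ZMod p.1)) t‖) :=
      (main_cont_FF X _).norm
    have hcL : Continuous (fun t => ‖FL X p t‖) := (main_cont_FF X _).norm
    have h1 : ∫ t in (-T₁)..T₁, ‖FL X p t‖ ≤ ∫ t in (-T₁)..T₁,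
        (‖FF X (fun m => (hmain Q X m : ℂ) * p.2 (m : ZMod p.1)) t‖ + D) := by
      refine intervalIntegral.integral_mono_on (by linarith) (hcL.intervalIntegrable _ _)
        ((hcF.add continuous_const).intervalIntegrable _ _) fun t ht => ?_
      have ht' : |t| ≤ T₁ := abs_le.2 ⟨ht.1, ht.2⟩
      rw [hdec p hp1 t]
      refine (norm_add_le _ _).trans (add_le_add le_rfl ?_)
      exact d2a_long Q X α _ _ (by positivity) hα p t
        (fun j hj a ha => hK₂ Q X r2 p hp hp0 j hj a ha t ht')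
    refine h1.trans ?_
    rw [intervalIntegral.integral_add (hcF.intervalIntegrable _ _)
      (continuous_const.intervalIntegrable _ _), intervalIntegral.integral_const, smul_eq_mul]
    refine le_of_eq ?_
    ring
  refine (Finset.sum_le_sum key).trans ?_
  rw [Finset.sum_add_distrib, Finset.sum_const, nsmul_eq_mul]
  have hcard : (((PC Q).filter (fun p => p ≠ p0)).card : ℝ) ≤ (Q : ℝ) ^ 2 := by
    have h1 := card_PC_le Q
    have h2 := Finset.card_filter_le (PC Q) (fun p => p ≠ p0)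
    exact_mod_cast h2.trans h1
  have hpart1 : ∑ p ∈ (PC Q).filter (fun p => p ≠ p0), ∫ t in (-T₁)..T₁,
      ‖FF X (fun m => (hmain Q X m : ℂ) * p.2 (m : ZMod p.1)) t‖ ≤ L ^ (-A) / 2 := by
    refine (Finset.sum_le_sum_of_subset_of_nonneg (Finset.filter_subset _ _)
      fun p _ _ => intervalIntegral.integral_nonneg (by linarith) fun t _ => norm_nonneg _).trans ?_
    refine (hK₃ Q X r3 hgood).trans ?_
    rw [neg_add, Real.rpow_add hL0, Real.rpow_neg_one]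
    have : 0 ≤ L ^ (-A) := by positivity
    rw [div_eq_mul_inv]
    refine mul_le_mul_of_nonneg_left ?_ this
    exact inv_anti₀ (by norm_num) (by linarith)
  have hpart2 : (((PC Q).filter (fun p => p ≠ p0)).card : ℝ) * (2 * T₁ * D) ≤ L ^ (-A) / 2 := by
    calc (((PC Q).filter (fun p => p ≠ p0)).card : ℝ) * (2 * T₁ * D)
        ≤ (Q : ℝ) ^ 2 * (2 * T₁ * D) := by gcongr
      _ = 4 * L ^ (7 : ℝ) / (Q : ℝ) ^ 2 := by
          rw [hD, hT₁, Real.rpow_neg hQ0.le]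
          have : (Q : ℝ) ^ (11 : ℝ) = (Q : ℝ) ^ 11 := by
            rw [← Real.rpow_natCast]
            norm_num
          rw [this]
          field_simp
          ring
      _ = (8 * L ^ (7 + A)) / (Q : ℝ) ^ 2 * (L ^ (-A) / 2) := by
          rw [Real.rpow_add hL0, Real.rpow_neg hL0.le]
          have : L ^ A ≠ 0 := (Real.rpow_pos_of_pos hL0 A).ne'
          field_simp
          ring
      _ ≤ 1 * (L ^ (-A) / 2) := by
          refine mul_le_mul_of_nonneg_right ?_ (by positivity)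
          rw [div_le_one (by positivity)]
          exact hQ4
      _ = L ^ (-A) / 2 := one_mul _
  linarith

end Pool.Agent.Lib.H68T
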