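import Pool.Agent.Lib.H68T.Defs

/-!
# Chunk HBI: Heath-Brown's identity with three factors
-/

open Finset ArithmeticFunction

namespace Pool.Agent.Lib.H68T

/-- Truncated Möbius function. -/
noncomputable def muV (V : ℕ) : ArithmeticFunction ℝ :=
  af (fun a => if a ≤ V then (moebius a : ℝ) else 0)

/-- Arithmetic function `n ↦ 1` and `n ↦ log n`, real valued. -/
noncomputable def one1 : ArithmeticFunction ℝ := af (fun _ => 1)
noncomputable def logf : ArithmeticFunction ℝ := af (fun n => Real.log n)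

theorem HBI_one1 : one1 = ((zeta : ArithmeticFunction ℕ) : ArithmeticFunction ℝ) := by
  ext n
  simp only [one1, af, coe_mk, natCoe_apply, zeta_apply]
  split_ifs <;> simp

theorem HBI_logf : logf = ArithmeticFunction.log := by
  ext n
  simp only [logf, af, coe_mk, log_apply]
  split_ifs with h
  · simp [h]
  · rfl

theorem HBI_vanish (f g : ArithmeticFunction ℝ) (a b : ℕ) (hf : ∀ n < a, f n = 0)
    (hg : ∀ n < b, g n = 0) : ∀ n < a * b, (f * g) n = 0 := by
  intro n hn
  rw [mul_apply]
  refine Finset.sum_eq_zero fun p hp => ?_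
  rw [Nat.mem_divisorsAntidiagonal] at hp
  by_cases h1 : p.1 < a
  · rw [hf _ h1, zero_mul]
  · by_cases h2 : p.2 < b
    · rw [hg _ h2, mul_zero]
    · exfalso
      have := Nat.mul_le_mul (not_lt.1 h1) (not_lt.1 h2)
      rw [hp.1] at this
      omega

theorem HBI_sub (f g : ArithmeticFunction ℝ) (n : ℕ) : (f - g) n = f n - g n := by
  have h : (f - g + g) n = f n := by rw [sub_add_cancel]
  rw [ArithmeticFunction.add_apply] at h
  linarith

theorem HBI_eps (V n : ℕ) (hn : n < V + 1) : (1 - muV V * one1 : ArithmeticFunction ℝ) n = 0 := by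
  rcases Nat.eq_zero_or_pos n with rfl | hpos
  · simp
  have h1 : (muV V * one1 : ArithmeticFunction ℝ) n =
      ((moebius : ArithmeticFunction ℝ) * (zeta : ArithmeticFunction ℝ)) n := by
    rw [mul_apply, mul_apply]
    refine Finset.sum_congr rfl fun p hp => ?_
    rw [Nat.mem_divisorsAntidiagonal] at hp
    have hp1 : p.1 ≠ 0 := by
      intro h
      rw [h, zero_mul] at hp
      exact hp.2 hp.1.symm
    have hle : p.1 ≤ V := by
      have : p.1 ≤ n := Nat.le_of_dvd hpos ⟨p.2, hp.1.symm⟩
      omega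
    rw [HBI_one1]
    congr 1
    simp only [muV, af, coe_mk, if_neg hp1, if_pos hle, intCoe_apply]
  rw [HBI_sub, h1, coe_moebius_mul_coe_zeta]
  simp

/-- **Heath-Brown's identity** (`J = 3`), for `m < (V+1)^3`. Proof: `ε = 1 - μ_V * 1` (in the ring of
arithmetic functions) vanishes at all `m ≤ V`, hence `ε³` at all `m < (V+1)³`; and
`Λ ε³ = Λ - 3 μ_V * log + 3 μ_V² * 1 * log - μ_V³ * 1² * log` since `Λ * 1 = log`. -/
theorem heath_brown (V m : ℕ) (hm : m < (V + 1) ^ 3) :
    vonMangoldt m = (3 * (muV V * logf) - 3 * (muV V ^ 2 * one1 * logf) +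
      muV V ^ 3 * one1 ^ 2 * logf : ArithmeticFunction ℝ) m := by
  have hlog : logf = vonMangoldt * one1 := by
    rw [HBI_logf, HBI_one1, vonMangoldt_mul_zeta]
  have hid : (3 * (muV V * logf) - 3 * (muV V ^ 2 * one1 * logf) +
      muV V ^ 3 * one1 ^ 2 * logf : ArithmeticFunction ℝ) =
      vonMangoldt - ((1 - muV V * one1) * (1 - muV V * one1) * (1 - muV V * one1)) *
        vonMangoldt := by
    rw [hlog]
    ring
  have he := HBI_eps V
  have h2 := HBI_vanish _ _ _ _ he he
  have h3 := HBI_vanish _ _ _ _ h2 he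
  have h4 := HBI_vanish _ (vonMangoldt : ArithmeticFunction ℝ) _ 1 h3 (by
    intro n hn
    have : n = 0 := by omega
    rw [this, ArithmeticFunction.map_zero])
  have h5 := h4 m (by
    have : (V + 1) * (V + 1) * (V + 1) * 1 = (V + 1) ^ 3 := by ring
    rw [this]
    exact hm)
  rw [hid, HBI_sub, h5, sub_zero]

end Pool.Agent.Lib.H68T
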