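import Pool.Agent.Lib.H68T.RegL
import Pool.Agent.Lib.H68T.HBI

/-!
# Chunk HDEC: splitting off the long smooth variables
-/

open Finset ArithmeticFunction

namespace Pool.Agent.Lib.H68T

lemma hd_af (f : ℕ → ℝ) (n : ℕ) : af f n = if n = 0 then 0 else f n := rfl

lemma hd_af_pos (f : ℕ → ℝ) {n : ℕ} (hn : 1 ≤ n) : af f n = f n := by
  rw [hd_af, if_neg (by omega)]

/-- support in `[1, M]` -/
def hdSupp (f : ArithmeticFunction ℝ) (M : ℝ) : Prop := ∀ m : ℕ, M < m → f m = 0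

lemma hdSupp_mul {f g : ArithmeticFunction ℝ} {M N : ℝ} (hM : 0 ≤ M) (hf : hdSupp f M)
    (hg : hdSupp g N) : hdSupp (f * g) (M * N) := by
  intro m hm
  rw [mul_apply]
  apply Finset.sum_eq_zero
  intro x hx
  have hxm : x.1 * x.2 = m := (Nat.mem_divisorsAntidiagonal.mp hx).1
  by_cases h1 : M < x.1
  · rw [hf _ h1, zero_mul]
  · push Not at h1
    by_cases h2 : N < x.2
    · rw [hg _ h2, mul_zero]
    · push Not at h2
      exfalso
      have h3 : (m : ℝ) = x.1 * x.2 := by rw [← hxm]; push_cast; ring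
      have h4 : (x.1 : ℝ) * x.2 ≤ M * N := by
        have h5 : (0 : ℝ) ≤ x.2 := by positivity
        nlinarith
      linarith

lemma hdSupp_add {f g : ArithmeticFunction ℝ} {M : ℝ} (hf : hdSupp f M)
    (hg : hdSupp g M) : hdSupp (f + g) M := by
  intro m hm
  rw [ArithmeticFunction.add_apply, hf m hm, hg m hm, add_zero]

lemma hdSupp_mono {f : ArithmeticFunction ℝ} {M N : ℝ} (hf : hdSupp f M) (h : M ≤ N) :
    hdSupp f N := fun m hm => hf m (h.trans_lt hm)

/-- sums over divisor pairs -/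
lemma hd_swap {E : Type*} [AddCommMonoid E] (N : ℕ) (h : ℕ → ℕ → E) :
    ∑ m ∈ Icc 1 N, ∑ x ∈ m.divisorsAntidiagonal, h x.1 x.2 =
      ∑ x ∈ ((Icc 1 N) ×ˢ (Icc 1 N)).filter (fun x => x.1 * x.2 ≤ N), h x.1 x.2 := by
  classical
  rw [← Finset.sum_fiberwise_of_maps_to (s := ((Icc 1 N) ×ˢ (Icc 1 N)).filter
    (fun x => x.1 * x.2 ≤ N)) (t := Icc 1 N) (g := fun x => x.1 * x.2)]
  · apply Finset.sum_congr rfl
    intro m hm
    apply Finset.sum_congr _ fun _ _ => rfl
    ext x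
    rw [Finset.mem_filter, Finset.mem_filter, Finset.mem_product, Nat.mem_divisorsAntidiagonal]
    simp only [Finset.mem_Icc] at hm ⊢
    constructor
    · rintro ⟨h1, h2⟩
      have hx1 : 1 ≤ x.1 := by
        rcases Nat.eq_zero_or_pos x.1 with h0 | h0
        · rw [h0, zero_mul] at h1; omega
        · exact h0
      have hx2 : 1 ≤ x.2 := by
        rcases Nat.eq_zero_or_pos x.2 with h0 | h0
        · rw [h0, mul_zero] at h1; omega
        · exact h0
      have h3 : x.1 ≤ m := by rw [← h1]; exact Nat.le_mul_of_pos_right _ hx2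
      have h4 : x.2 ≤ m := by rw [← h1]; exact Nat.le_mul_of_pos_left _ hx1
      exact ⟨⟨⟨⟨hx1, by omega⟩, ⟨hx2, by omega⟩⟩, by omega⟩, h1⟩
    · rintro ⟨⟨_, h1⟩, h2⟩
      exact ⟨h2, by omega⟩
  · intro x hx
    rw [Finset.mem_filter, Finset.mem_product] at hx
    simp only [Finset.mem_Icc] at hx ⊢
    exact ⟨Nat.mul_pos hx.1.1.1 hx.1.2.1, hx.2⟩

/-- the weighted norm -/
noncomputable def hdN (N : ℕ) (f : ArithmeticFunction ℝ) : ℝ := ∑ a ∈ Icc 1 N, |f a| / a

lemma hdN_nonneg (N : ℕ) (f : ArithmeticFunction ℝ) : 0 ≤ hdN N f :=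
  Finset.sum_nonneg fun a _ => by positivity

lemma hdN_add (N : ℕ) (f g : ArithmeticFunction ℝ) : hdN N (f + g) ≤ hdN N f + hdN N g := by
  unfold hdN
  rw [← Finset.sum_add_distrib]
  apply Finset.sum_le_sum
  intro a _
  rw [ArithmeticFunction.add_apply, ← add_div]
  exact div_le_div_of_nonneg_right (abs_add_le _ _) (by positivity)

lemma hdN_neg (N : ℕ) (f : ArithmeticFunction ℝ) : hdN N (-f) = hdN N f := by
  unfold hdN
  apply Finset.sum_congr rfl
  intro a _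
  have : (-f) a = - (f a) := rfl
  rw [this, abs_neg]

lemma hdN_mul (N : ℕ) (f g : ArithmeticFunction ℝ) : hdN N (f * g) ≤ hdN N f * hdN N g := by
  have h1 : hdN N (f * g) ≤ ∑ m ∈ Icc 1 N, ∑ x ∈ m.divisorsAntidiagonal,
      (|f x.1| / x.1) * (|g x.2| / x.2) := by
    unfold hdN
    apply Finset.sum_le_sum
    intro m hm
    rw [Finset.mem_Icc] at hm
    have hm0 : (0 : ℝ) < m := by exact_mod_cast hm.1
    rw [mul_apply, div_le_iff₀ hm0, Finset.sum_mul]
    refine (Finset.abs_sum_le_sum_abs _ _).trans (Finset.sum_le_sum fun x hx => ?_)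
    have hxm : x.1 * x.2 = m := (Nat.mem_divisorsAntidiagonal.mp hx).1
    have h3 : (m : ℝ) = x.1 * x.2 := by rw [← hxm]; push_cast; ring
    rw [h3] at hm0 ⊢
    have hx1 : (x.1 : ℝ) ≠ 0 := fun h => by rw [h, zero_mul] at hm0; exact lt_irrefl _ hm0
    have hx2 : (x.2 : ℝ) ≠ 0 := fun h => by rw [h, mul_zero] at hm0; exact lt_irrefl _ hm0
    rw [abs_mul]
    apply le_of_eq
    field_simp
  refine h1.trans ?_
  rw [hd_swap N (fun a b => (|f a| / (a : ℝ)) * (|g b| / (b : ℝ)))]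
  unfold hdN
  rw [Finset.sum_mul_sum, ← Finset.sum_product']
  apply Finset.sum_le_sum_of_subset_of_nonneg (Finset.filter_subset _ _)
  intro i _ _
  positivity

lemma hdN_le_of {N : ℕ} {f : ArithmeticFunction ℝ} {C : ℝ} (hC : 0 ≤ C)
    (h : ∀ a, 1 ≤ a → a ≤ N → |f a| ≤ C) : hdN N f ≤ C * (1 + Real.log N) := by
  have h1 : hdN N f ≤ ∑ a ∈ Icc 1 N, C * ((a : ℝ))⁻¹ := by
    unfold hdN
    apply Finset.sum_le_sum
    intro a ha
    rw [Finset.mem_Icc] at ha
    rw [div_eq_mul_inv]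
    exact mul_le_mul_of_nonneg_right (h a ha.1 ha.2) (by positivity)
  refine h1.trans ?_
  rw [← Finset.mul_sum]
  apply mul_le_mul_of_nonneg_left _ hC
  have h2 := harmonic_le_one_add_log N
  rw [harmonic_eq_sum_Icc] at h2
  push_cast at h2
  exact h2

/-! ### the pieces -/

lemma hd_rho_nonneg (Q n : ℕ) : 0 ≤ rho Q n := by
  unfold rho
  linarith [Real.smoothTransition.le_one (Real.log ((n : ℝ) / (Q : ℝ) ^ 20))]

lemma hd_rho_le_one (Q n : ℕ) : rho Q n ≤ 1 := by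
  unfold rho
  linarith [Real.smoothTransition.nonneg (Real.log ((n : ℝ) / (Q : ℝ) ^ 20))]

lemma hd_rho_zero {Q n : ℕ} (hQ : 1 ≤ Q) (h : Real.exp 1 * (Q : ℝ) ^ 20 < n) : rho Q n = 0 := by
  unfold rho
  have hQ0 : (0 : ℝ) < (Q : ℝ) ^ 20 := by
    have : (0 : ℝ) < Q := by exact_mod_cast hQ
    positivity
  have h1 : Real.exp 1 ≤ (n : ℝ) / (Q : ℝ) ^ 20 := by
    rw [le_div_iff₀ hQ0]; exact h.le
  have h2 : 1 ≤ Real.log ((n : ℝ) / (Q : ℝ) ^ 20) := by
    rw [Real.le_log_iff_exp_le ((Real.exp_pos 1).trans_le h1)]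
    exact h1
  rw [Real.smoothTransition.one_of_one_le h2, sub_self]

noncomputable def hds (Q : ℕ) : ArithmeticFunction ℝ := af (rho Q)
noncomputable def hdl (Q : ℕ) : ArithmeticFunction ℝ := af (fun n => 1 - rho Q n)
noncomputable def hdsL (Q : ℕ) : ArithmeticFunction ℝ := af (fun n => rho Q n * Real.log n)
noncomputable def hdlL (Q : ℕ) : ArithmeticFunction ℝ := af (fun n => (1 - rho Q n) * Real.log n)
noncomputable def hduh (X : ℕ) : ArithmeticFunction ℝ :=
  af (fun a => if AA X ≤ a ∧ a ≤ VV X then (moebius a : ℝ) else 0)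

lemma hd_one (Q : ℕ) : one1 = hds Q + hdl Q := by
  ext n
  rw [ArithmeticFunction.add_apply]
  unfold one1 hds hdl
  rw [hd_af, hd_af, hd_af]
  split_ifs <;> ring

lemma hd_log (Q : ℕ) : logf = hdsL Q + hdlL Q := by
  ext n
  rw [ArithmeticFunction.add_apply]
  unfold logf hdsL hdlL
  rw [hd_af, hd_af, hd_af]
  split_ifs <;> ring

lemma hd_supp_s {Q : ℕ} (hQ : 1 ≤ Q) : hdSupp (hds Q) (Real.exp 1 * (Q : ℝ) ^ 20) := by
  intro m hm
  unfold hds
  rw [hd_af, hd_rho_zero hQ hm]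
  split_ifs <;> rfl

lemma hd_supp_sL {Q : ℕ} (hQ : 1 ≤ Q) : hdSupp (hdsL Q) (Real.exp 1 * (Q : ℝ) ^ 20) := by
  intro m hm
  unfold hdsL
  rw [hd_af, hd_rho_zero hQ hm, zero_mul]
  split_ifs <;> rfl

lemma hd_supp_u (V : ℕ) : hdSupp (muV V) V := by
  intro m hm
  unfold muV
  rw [hd_af, if_neg (not_le.mpr (by exact_mod_cast hm) : ¬ m ≤ V)]
  split_ifs <;> rfl

lemma hd_supp_uh (X : ℕ) : hdSupp (hduh X) (VV X) := by
  intro m hm
  unfold hduh
  have : ¬ m ≤ VV X := not_le.mpr (by exact_mod_cast hm)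
  rw [hd_af]
  have h2 : ¬ (AA X ≤ m ∧ m ≤ VV X) := fun h => this h.2
  rw [if_neg h2]
  split_ifs <;> rfl

lemma hd_supp_ul (X : ℕ) : hdSupp (muV (VV X) + -hduh X) ((X : ℝ) ^ ((1 : ℝ) / 4)) := by
  intro m hm
  have hm2 : AA X ≤ m := Nat.ceil_le.mpr hm.le
  have e : (muV (VV X) + -hduh X) m = muV (VV X) m + -(hduh X m) := rfl
  rw [e]
  unfold muV hduh
  rw [hd_af, hd_af]
  by_cases h0 : m = 0
  · simp [h0]
  · rw [if_neg h0, if_neg h0]
    by_cases h1 : m ≤ VV X
    · rw [if_pos h1, if_pos ⟨hm2, h1⟩]; ring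
    · rw [if_neg h1, if_neg (fun h => h1 h.2)]; ring

noncomputable def hda1 (X : ℕ) : ArithmeticFunction ℝ :=
  muV (VV X) + muV (VV X) + muV (VV X) +
    -(muV (VV X) * muV (VV X) * one1) + -(muV (VV X) * muV (VV X) * one1) +
    -(muV (VV X) * muV (VV X) * one1) + muV (VV X) * muV (VV X) * muV (VV X) * one1 * one1

noncomputable def hda0 (Q X : ℕ) : ArithmeticFunction ℝ :=
  -(muV (VV X) * muV (VV X) * hdsL Q) + -(muV (VV X) * muV (VV X) * hdsL Q) +
    -(muV (VV X) * muV (VV X) * hdsL Q) +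
    muV (VV X) * muV (VV X) * muV (VV X) * hds Q * hdsL Q +
    muV (VV X) * muV (VV X) * muV (VV X) * one1 * hdsL Q

/-- the ring identity -/
lemma hd_ring (Q X : ℕ) :
    (3 * (muV (VV X) * logf) - 3 * (muV (VV X) ^ 2 * one1 * logf) +
      muV (VV X) ^ 3 * one1 ^ 2 * logf : ArithmeticFunction ℝ) =
    hmain Q X + hda1 X * hdlL Q + hda0 Q X * hdl Q +
      (3 * (muV (VV X) * hdsL Q) + -(3 * (muV (VV X) * muV (VV X) * hds Q * hdsL Q)) +
        (muV (VV X) + -hduh X) * (muV (VV X) * muV (VV X) + muV (VV X) * hduh X +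
          hduh X * hduh X) * (hds Q * hds Q) * hdsL Q) := by
  have h1 : hmain Q X = hduh X ^ 3 * hds Q ^ 2 * hdsL Q := rfl
  rw [h1]
  unfold hda1 hda0
  rw [hd_log Q, hd_one Q]
  ring

lemma hd_supp3 {f : ArithmeticFunction ℝ} {M : ℝ} (hf : hdSupp f M) : hdSupp (3 * f) M := by
  have : (3 : ArithmeticFunction ℝ) * f = f + f + f := by ring
  rw [this]
  exact hdSupp_add (hdSupp_add hf hf) hf

lemma hd_supp_neg {f : ArithmeticFunction ℝ} {M : ℝ} (hf : hdSupp f M) : hdSupp (-f) M := by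
  intro m hm
  have : (-f) m = -(f m) := rfl
  rw [this, hf m hm, neg_zero]

/-- the error terms live on short integers -/
lemma hd_err : ∃ K : ℝ, 1 ≤ K ∧ ∀ Q X : ℕ, Reg K Q X → ∀ m : ℕ, Real.exp (-2) * X < m →
    (3 * (muV (VV X) * hdsL Q) + -(3 * (muV (VV X) * muV (VV X) * hds Q * hdsL Q)) +
        (muV (VV X) + -hduh X) * (muV (VV X) * muV (VV X) + muV (VV X) * hduh X +
          hduh X * hduh X) * (hds Q * hds Q) * hdsL Q) m = 0 := by
  obtain ⟨K, hK, h1⟩ := reg_pow_le (3601 * Real.exp 5) 60 (1 / 12) (by norm_num)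
  refine ⟨K, hK, fun Q X hR m hm => ?_⟩
  have hQ : 1 ≤ Q := hR.Q_pos hK
  have hX : 1 ≤ X := hR.X_pos (by linarith)
  have hQr : (1 : ℝ) ≤ Q := by exact_mod_cast hQ
  have hXr : (1 : ℝ) ≤ X := by exact_mod_cast hX
  set E : ℝ := Real.exp 1 * (Q : ℝ) ^ 20 with hE
  set V : ℝ := (VV X : ℝ) with hV
  have he1 : (1 : ℝ) ≤ Real.exp 1 := Real.one_le_exp (by norm_num)
  have hE1 : 1 ≤ E := by
    have : (1 : ℝ) ≤ (Q : ℝ) ^ 20 := one_le_pow₀ hQr
    rw [hE]; nlinarith
  have hV1 : 1 ≤ V := by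
    have : 1 ≤ VV X := by
      unfold VV
      rw [Nat.one_le_floor_iff]
      apply Real.one_le_rpow _ (by norm_num)
      push_cast; linarith
    rw [hV]; exact_mod_cast this
  have hX4 : 1 ≤ (X : ℝ) ^ ((1 : ℝ) / 4) := Real.one_le_rpow hXr (by norm_num)
  set Z : ℝ := (X : ℝ) ^ ((1 : ℝ) / 4) * (V * V) * (E * E) * E with hZ
  have hVV : 1 ≤ V * V := by nlinarith
  have hEE : 1 ≤ E * E := by nlinarith
  have hZ1 : V * V * E * E ≤ Z := by
    have e : Z = ((X : ℝ) ^ ((1 : ℝ) / 4) * E) * (V * V * E * E) := by rw [hZ]; ring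
    rw [e]
    have h2 : 1 ≤ (X : ℝ) ^ ((1 : ℝ) / 4) * E := by nlinarith
    have h3 : 0 ≤ V * V * E * E := by positivity
    nlinarith
  have hZ2 : V * E ≤ Z := by
    have : V * E ≤ V * V * E * E := by
      have h2 : 1 ≤ V * E := by nlinarith
      have e : V * V * E * E = (V * E) * (V * E) := by ring
      rw [e]
      nlinarith
    linarith
  have hsupp : hdSupp (3 * (muV (VV X) * hdsL Q) +
      -(3 * (muV (VV X) * muV (VV X) * hds Q * hdsL Q)) +
        (muV (VV X) + -hduh X) * (muV (VV X) * muV (VV X) + muV (VV X) * hduh X +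
          hduh X * hduh X) * (hds Q * hds Q) * hdsL Q) Z := by
    refine hdSupp_add (hdSupp_add ?_ ?_) ?_
    · exact hdSupp_mono (hd_supp3 (hdSupp_mul (by linarith) (hd_supp_u _) (hd_supp_sL hQ))) hZ2
    · refine hdSupp_mono (hd_supp_neg (hd_supp3 (hdSupp_mul (by positivity)
        (hdSupp_mul (by positivity) (hdSupp_mul (by linarith) (hd_supp_u _) (hd_supp_u _))
          (hd_supp_s hQ)) (hd_supp_sL hQ)))) hZ1
    · refine hdSupp_mul (by positivity) (hdSupp_mul (by positivity) (hdSupp_mul (by positivity)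
        (hd_supp_ul X) ?_) (hdSupp_mul (by linarith) (hd_supp_s hQ) (hd_supp_s hQ)))
        (hd_supp_sL hQ)
      refine hdSupp_add (hdSupp_add ?_ ?_) ?_
      · exact hdSupp_mul (by linarith) (hd_supp_u _) (hd_supp_u _)
      · exact hdSupp_mul (by linarith) (hd_supp_u _) (hd_supp_uh _)
      · exact hdSupp_mul (by linarith) (hd_supp_uh _) (hd_supp_uh _)
  apply hsupp
  refine lt_of_le_of_lt ?_ hm
  -- Z ≤ exp(-2) X
  have hV2 : V ≤ 60 * (X : ℝ) ^ ((1 : ℝ) / 3) := by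
    have h2 : V ≤ ((60 * X : ℕ) : ℝ) ^ ((1 : ℝ) / 3) := Nat.floor_le (by positivity)
    have h3 : ((60 * X : ℕ) : ℝ) ^ ((1 : ℝ) / 3) = (60 : ℝ) ^ ((1 : ℝ) / 3) *
        (X : ℝ) ^ ((1 : ℝ) / 3) := by
      push_cast
      rw [Real.mul_rpow (by norm_num) (by positivity)]
    have h4 : (60 : ℝ) ^ ((1 : ℝ) / 3) ≤ 60 := by
      calc (60 : ℝ) ^ ((1 : ℝ) / 3) ≤ (60 : ℝ) ^ (1 : ℝ) :=
            Real.rpow_le_rpow_of_exponent_le (by norm_num) (by norm_num)
        _ = 60 := Real.rpow_one _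
    rw [h3] at h2
    exact h2.trans (mul_le_mul_of_nonneg_right h4 (by positivity))
  have h2 := h1 Q X hR
  have h3 : (Q : ℝ) ^ (60 : ℝ) = (Q : ℝ) ^ 60 := by rw [← Real.rpow_natCast]; norm_num
  rw [h3] at h2
  have hVV2 : V * V ≤ 3600 * (X : ℝ) ^ ((2 : ℝ) / 3) := by
    have h4 : V * V ≤ (60 * (X : ℝ) ^ ((1 : ℝ) / 3)) * (60 * (X : ℝ) ^ ((1 : ℝ) / 3)) :=
      mul_le_mul hV2 hV2 (by linarith) (by positivity)
    have h5 : (X : ℝ) ^ ((2 : ℝ) / 3) = (X : ℝ) ^ ((1 : ℝ) / 3) * (X : ℝ) ^ ((1 : ℝ) / 3) := by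
      rw [← Real.rpow_add (by linarith)]; norm_num
    rw [h5]; linarith
  have hE3 : (E * E) * E = Real.exp 3 * (Q : ℝ) ^ 60 := by
    have : Real.exp 3 = Real.exp 1 * Real.exp 1 * Real.exp 1 := by
      rw [← Real.exp_add, ← Real.exp_add]; norm_num
    rw [hE, this]; ring
  have hX11 : (X : ℝ) ^ ((1 : ℝ) / 4) * (X : ℝ) ^ ((2 : ℝ) / 3) * (X : ℝ) ^ ((1 : ℝ) / 12) = X := by
    rw [← Real.rpow_add (by linarith), ← Real.rpow_add (by linarith)]
    norm_num
  have h6 : Z ≤ (X : ℝ) ^ ((1 : ℝ) / 4) * (3600 * (X : ℝ) ^ ((2 : ℝ) / 3)) *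
      (Real.exp 3 * (Q : ℝ) ^ 60) := by
    rw [hZ, mul_assoc _ (E * E) E, hE3]
    apply mul_le_mul_of_nonneg_right _ (by positivity)
    exact mul_le_mul_of_nonneg_left hVV2 (by positivity)
  have h7 : Real.exp 3 = Real.exp (-2) * Real.exp 5 := by
    rw [← Real.exp_add]; norm_num
  calc Z ≤ (X : ℝ) ^ ((1 : ℝ) / 4) * (3600 * (X : ℝ) ^ ((2 : ℝ) / 3)) *
      (Real.exp 3 * (Q : ℝ) ^ 60) := h6
    _ = Real.exp (-2) * ((X : ℝ) ^ ((1 : ℝ) / 4) * (X : ℝ) ^ ((2 : ℝ) / 3) *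
        (3600 * Real.exp 5 * (Q : ℝ) ^ 60)) := by rw [h7]; ring
    _ ≤ Real.exp (-2) * ((X : ℝ) ^ ((1 : ℝ) / 4) * (X : ℝ) ^ ((2 : ℝ) / 3) *
        ((X : ℝ) ^ ((1 : ℝ) / 12))) := by
        apply mul_le_mul_of_nonneg_left _ (Real.exp_pos _).le
        apply mul_le_mul_of_nonneg_left _ (by positivity)
        refine le_trans ?_ h2
        apply mul_le_mul_of_nonneg_right _ (by positivity)
        apply mul_le_mul_of_nonneg_right _ (Real.exp_pos _).le
        norm_num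
    _ = Real.exp (-2) * X := by rw [hX11]

lemma hd_v_low {X m : ℕ} (hX : 1 ≤ X) (hm : 1 ≤ m) (h : (m : ℝ) ≤ Real.exp (-2) * X) :
    v X m = 0 := by
  unfold v w
  have hX0 : (0 : ℝ) < X := by exact_mod_cast hX
  have hm0 : (0 : ℝ) < m := by exact_mod_cast hm
  have h1 : Real.log ((m : ℝ) / X) ≤ -2 := by
    rw [Real.log_le_iff_le_exp (by positivity), div_le_iff₀ hX0]
    exact h
  rw [Real.smoothTransition.zero_of_nonpos (by linarith), zero_mul]

lemma hd_v_high {X m : ℕ} (hX : 1 ≤ X) (h : 60 * X < m) : v X m = 0 := by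
  unfold v w
  have hX0 : (0 : ℝ) < X := by exact_mod_cast hX
  have hm0 : (60 : ℝ) * X ≤ m := by exact_mod_cast h.le
  have h1 : 4 ≤ Real.log ((m : ℝ) / X) := by
    rw [Real.le_log_iff_exp_le (div_pos (by linarith) hX0), le_div_iff₀ hX0]
    have h2 : Real.exp 4 ≤ 60 := by
      have h3 : Real.exp 4 = Real.exp 1 ^ 4 := by rw [← Real.exp_nat_mul]; norm_num
      rw [h3]
      calc Real.exp 1 ^ 4 ≤ 2.7182818286 ^ 4 :=
            pow_le_pow_left₀ (Real.exp_pos 1).le Real.exp_one_lt_d9.le 4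
        _ ≤ 60 := by norm_num
    nlinarith
  rw [Real.smoothTransition.zero_of_nonpos (x := 4 - _) (by linarith), mul_zero]

lemma hd_conv (N : ℕ) (α β : ArithmeticFunction ℝ) (F : ℕ → ℂ) (hF : ∀ m, N < m → F m = 0) :
    ∑ m ∈ Icc 1 N, (((α * β) m : ℝ) : ℂ) * F m =
      ∑ a ∈ Icc 1 N, ∑ n ∈ Icc 1 N, (α a : ℂ) * (β n : ℂ) * F (a * n) := by
  have h1 : ∀ m ∈ Icc 1 N, (((α * β) m : ℝ) : ℂ) * F m =
      ∑ x ∈ m.divisorsAntidiagonal, (α x.1 : ℂ) * (β x.2 : ℂ) * F (x.1 * x.2) := by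
    intro m _
    rw [mul_apply]
    push_cast
    rw [Finset.sum_mul]
    apply Finset.sum_congr rfl
    intro x hx
    rw [(Nat.mem_divisorsAntidiagonal.mp hx).1]
  rw [Finset.sum_congr rfl h1, hd_swap N (fun a b => (α a : ℂ) * (β b : ℂ) * F (a * b)),
    ← Finset.sum_product']
  apply Finset.sum_filter_of_ne
  intro x _ hx
  by_contra hc
  push Not at hc
  exact hx (by rw [hF _ hc, mul_zero])

/-- the two coefficient sequences are small -/
lemma hd_bounds : ∃ K : ℝ, 1 ≤ K ∧ ∀ Q X : ℕ, Reg K Q X →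
    hdN (60 * X) (hda1 X) ≤ (Real.log X) ^ (7 : ℝ) ∧
    hdN (60 * X) (hda0 Q X) ≤ (Real.log X) ^ (7 : ℝ) := by
  refine ⟨1000, by norm_num, fun Q X hR => ?_⟩
  have hX : 1 ≤ X := hR.X_pos (by norm_num)
  have hXr : (1000 : ℝ) ≤ X := hR.X_ge (by norm_num)
  have hlX : (1001 : ℝ) ≤ Real.log X := by
    have := hR.logX_ge (by norm_num)
    have h2 := Real.add_one_le_exp (1000 : ℝ)
    linarith
  set N := 60 * X with hN
  set L := Real.log X with hL
  set H : ℝ := 1 + Real.log N with hH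
  have hlogN : Real.log N = Real.log 60 + L := by
    rw [hN, hL]; push_cast
    rw [Real.log_mul (by norm_num) (by positivity)]
  have hlog60 : Real.log 60 ≤ 60 := (Real.log_le_sub_one_of_pos (by norm_num)).trans (by norm_num)
  have hlog60' : 0 ≤ Real.log 60 := Real.log_nonneg (by norm_num)
  have hH2 : H ≤ 2 * L := by rw [hH, hlogN]; linarith
  have hH1 : 1 ≤ H := by rw [hH, hlogN]; linarith
  have hmu : ∀ a : ℕ, |((moebius a : ℤ) : ℝ)| ≤ 1 := fun a => by
    exact_mod_cast ArithmeticFunction.abs_moebius_le_one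
  set u := muV (VV X) with hu
  have hNu : hdN N u ≤ H := by
    have := hdN_le_of (N := N) (f := u) (C := 1) zero_le_one (fun a ha _ => by
      rw [hu]; unfold muV
      rw [hd_af_pos _ ha]
      split_ifs
      · exact hmu a
      · simp)
    linarith
  have hNo : hdN N one1 ≤ H := by
    have := hdN_le_of (N := N) (f := one1) (C := 1) zero_le_one (fun a ha _ => by
      unfold one1
      rw [hd_af_pos _ ha]
      simp)
    linarith
  have hNs : hdN N (hds Q) ≤ H := by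
    have := hdN_le_of (N := N) (f := hds Q) (C := 1) zero_le_one (fun a ha _ => by
      unfold hds
      rw [hd_af_pos _ ha, abs_of_nonneg (hd_rho_nonneg Q a)]
      exact hd_rho_le_one Q a)
    linarith
  have hNsL : hdN N (hdsL Q) ≤ H * H := by
    have := hdN_le_of (N := N) (f := hdsL Q) (C := H) (by linarith) (fun a ha haN => by
      unfold hdsL
      have ha0 : (1 : ℝ) ≤ a := by exact_mod_cast ha
      have h1 : 0 ≤ Real.log a := Real.log_nonneg ha0
      have h2 : Real.log a ≤ Real.log N := Real.log_le_log (by linarith) (by exact_mod_cast haN)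
      rw [hd_af_pos _ ha, abs_of_nonneg (mul_nonneg (hd_rho_nonneg Q a) h1)]
      have h3 := mul_le_mul_of_nonneg_right (hd_rho_le_one Q a) h1
      rw [one_mul] at h3
      linarith)
    exact this
  have n0 := hdN_nonneg N
  have hH0 : 0 ≤ H := by linarith
  have muluu : hdN N (u * u) ≤ H * H :=
    (hdN_mul N u u).trans (mul_le_mul hNu hNu (n0 _) hH0)
  have muluuu : hdN N (u * u * u) ≤ H * H * H :=
    (hdN_mul N (u * u) u).trans (mul_le_mul muluu hNu (n0 _) (by positivity))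
  have a1 : hdN N (u * u * one1) ≤ H * H * H :=
    (hdN_mul N (u * u) one1).trans (mul_le_mul muluu hNo (n0 _) (by positivity))
  have a2 : hdN N (u * u * u * one1) ≤ H * H * H * H :=
    (hdN_mul N (u * u * u) one1).trans (mul_le_mul muluuu hNo (n0 _) (by positivity))
  have a3 : hdN N (u * u * u * one1 * one1) ≤ H * H * H * H * H :=
    (hdN_mul N _ one1).trans (mul_le_mul a2 hNo (n0 _) (by positivity))
  have b1 : hdN N (u * u * hdsL Q) ≤ H * H * (H * H) :=
    (hdN_mul N (u * u) _).trans (mul_le_mul muluu hNsL (n0 _) (by positivity))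
  have b2 : hdN N (u * u * u * hds Q) ≤ H * H * H * H :=
    (hdN_mul N (u * u * u) _).trans (mul_le_mul muluuu hNs (n0 _) (by positivity))
  have b3 : hdN N (u * u * u * hds Q * hdsL Q) ≤ H * H * H * H * (H * H) :=
    (hdN_mul N _ _).trans (mul_le_mul b2 hNsL (n0 _) (by positivity))
  have b4 : hdN N (u * u * u * one1 * hdsL Q) ≤ H * H * H * H * (H * H) :=
    (hdN_mul N _ _).trans (mul_le_mul a2 hNsL (n0 _) (by positivity))
  have hfin : 7 * H ^ 6 ≤ L ^ (7 : ℝ) := by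
    have e : L ^ (7 : ℝ) = L ^ 7 := by rw [← Real.rpow_natCast]; norm_num
    rw [e]
    have h1 : H ^ 6 ≤ (2 * L) ^ 6 := pow_le_pow_left₀ hH0 hH2 6
    have h2 : (0 : ℝ) ≤ L ^ 6 := by positivity
    have e2 : (2 * L) ^ 6 = 64 * L ^ 6 := by ring
    have e3 : L ^ 7 = L ^ 6 * L := by ring
    rw [e2] at h1
    rw [e3]
    nlinarith
  have p1 : H ≤ H ^ 6 := by
    calc H = H ^ 1 := (pow_one H).symm
      _ ≤ H ^ 6 := pow_le_pow_right₀ hH1 (by norm_num)
  have p3 : H * H * H ≤ H ^ 6 := by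
    calc H * H * H = H ^ 3 := by ring
      _ ≤ H ^ 6 := pow_le_pow_right₀ hH1 (by norm_num)
  have p4 : H * H * (H * H) ≤ H ^ 6 := by
    calc H * H * (H * H) = H ^ 4 := by ring
      _ ≤ H ^ 6 := pow_le_pow_right₀ hH1 (by norm_num)
  have p5 : H * H * H * H * H ≤ H ^ 6 := by
    calc H * H * H * H * H = H ^ 5 := by ring
      _ ≤ H ^ 6 := pow_le_pow_right₀ hH1 (by norm_num)
  have p6 : H * H * H * H * (H * H) ≤ H ^ 6 := le_of_eq (by ring)
  constructor
  · refine le_trans ?_ hfin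
    unfold hda1
    rw [← hu]
    refine (hdN_add N _ _).trans ?_
    have s1 := hdN_add N (u + u + u + -(u * u * one1) + -(u * u * one1)) (-(u * u * one1))
    have s2 := hdN_add N (u + u + u + -(u * u * one1)) (-(u * u * one1))
    have s3 := hdN_add N (u + u + u) (-(u * u * one1))
    have s4 := hdN_add N (u + u) u
    have s5 := hdN_add N u u
    have s6 := hdN_neg N (u * u * one1)
    rw [s6] at s1 s2 s3
    linarith
  · refine le_trans ?_ hfin
    unfold hda0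
    rw [← hu]
    refine (hdN_add N _ _).trans ?_
    have s1 := hdN_add N (-(u * u * hdsL Q) + -(u * u * hdsL Q) + -(u * u * hdsL Q))
      (u * u * u * hds Q * hdsL Q)
    have s2 := hdN_add N (-(u * u * hdsL Q) + -(u * u * hdsL Q)) (-(u * u * hdsL Q))
    have s3 := hdN_add N (-(u * u * hdsL Q)) (-(u * u * hdsL Q))
    have s6 := hdN_neg N (u * u * hdsL Q)
    rw [s6] at s2 s3
    linarith

/-- **Decomposition.** For `Reg K Q X` there are real sequences `α₀, α₁` with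
`∑ |α_j(a)|/a ≤ (log X)^7` such that for every character and every `t`,
`F_ψ = FF(ψ hmain) + ∑_j ∑_a α_j(a) ψ(a) a^(-1-it) Long_j(a)`.

Proof. Write (Dirichlet convolutions, `u = μ 1_{≤V}`, `s = ρ`, `l = 1 - ρ`, `sℓ = ρ log`,
`lℓ = (1-ρ) log`, `1 = s + l`, `log = sℓ + lℓ`; `V = VV X`, `60 X < (V+1)³`). `heath_brown` gives on
`m ≤ 60X`: `Λ = [3u*sℓ - 3u²*s*sℓ + u³*s*s*sℓ] + α₁ * lℓ + α₀ * l` with
`α₁ = 3u - 3u²*1 + u³*1*1`, `α₀ = -3u²*sℓ + u³*s*sℓ + u³*1*sℓ`.
If `v(m) ≠ 0` then `m ≥ X/e²` while `3u*sℓ`, `u²*s*sℓ` live on `m ≤ V² (e Q^20)²  < X/e²`; and in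
`u³*s*s*sℓ` each `a_i ≥ (X/e²)/(V² (e Q^20)³) ≥ X^(1/4)`, so `u` may be replaced by `μ 1_{[A,V]}`,
which gives `hmain`. Twisting by `ψ` is harmless because `ψ` is completely multiplicative.
The bound for `α_j`: all factors are bounded by `1` or `log (60X)` and supported in `[1, 60X]` after
truncation, so `∑_{a ≤ 60X} |α_j(a)|/a ≤ 7 (1 + log(60X))^6 ≤ (log X)^7`.
Note `Long j a` has `v(a n)` and `n ≤ 60X`; for `a > 60X` it vanishes. -/
theorem decomposition : ∃ K : ℝ, ∀ Q X : ℕ, Reg K Q X → ∃ α : ℕ → ℕ → ℝ,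
    (∀ j ∈ range 2, ∑ a ∈ Icc 1 (60 * X), |α j a| / a ≤ (Real.log X) ^ (7 : ℝ)) ∧
    ∀ (p : Σ r : ℕ, DirichletCharacter ℂ r), 1 ≤ p.1 → ∀ t : ℝ,
      FL X p t = FF X (fun m => (hmain Q X m : ℂ) * p.2 (m : ZMod p.1)) t +
        ∑ j ∈ range 2, ∑ a ∈ Icc 1 (60 * X), (α j a : ℂ) * p.2 (a : ZMod p.1) *
          (a : ℂ) ^ (-(1 + t * Complex.I)) * Long Q X p j a t := by
  obtain ⟨K1, hK1, herr⟩ := hd_err
  obtain ⟨K2, hK2, hbd⟩ := hd_bounds
  refine ⟨K1 + K2, fun Q X hR => ?_⟩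
  have hR1 : Reg K1 Q X := hR.mono (by linarith) (by linarith)
  have hR2 : Reg K2 Q X := hR.mono (by linarith) (by linarith)
  have hX : 1 ≤ X := hR1.X_pos (by linarith)
  set N := 60 * X with hN
  refine ⟨fun j a => if j = 0 then hda0 Q X a else hda1 X a, ?_, ?_⟩
  · intro j hj
    rw [Finset.mem_range] at hj
    interval_cases j
    · exact (hbd Q X hR2).2
    · exact (hbd Q X hR2).1
  · intro p hp t
    set F : ℕ → ℂ := fun m => p.2 (m : ZMod p.1) * (v X m : ℂ) * (m : ℂ) ^ (-(1 + t * Complex.I))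
      with hF
    have hFhigh : ∀ m, N < m → F m = 0 := by
      intro m hm
      rw [hF]
      simp only
      rw [hd_v_high hX hm]
      simp
    have hFL : FL X p t = ∑ m ∈ Icc 1 N, (vonMangoldt m : ℂ) * F m := by
      unfold FL FF
      apply Finset.sum_congr rfl
      intro m _
      rw [hF]; ring
    have hFm : FF X (fun m => (hmain Q X m : ℂ) * p.2 (m : ZMod p.1)) t =
        ∑ m ∈ Icc 1 N, (hmain Q X m : ℂ) * F m := by
      unfold FF
      apply Finset.sum_congr rfl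
      intro m _
      rw [hF]; ring
    have hkey : ∀ m ∈ Icc 1 N, (vonMangoldt m : ℂ) * F m = (hmain Q X m : ℂ) * F m +
        ((((hda1 X * hdlL Q) m : ℝ) : ℂ) * F m + (((hda0 Q X * hdl Q) m : ℝ) : ℂ) * F m) := by
      intro m hm
      rw [Finset.mem_Icc] at hm
      rcases le_or_gt (m : ℝ) (Real.exp (-2) * X) with h | h
      · have : F m = 0 := by
          rw [hF]; simp only
          rw [hd_v_low hX hm.1 h]; simp
        rw [this]; simp
      · have e1 := herr Q X hR1 m h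
        have hV : m < (VV X + 1) ^ 3 := by
          have h1 : (m : ℝ) ≤ ((60 * X : ℕ) : ℝ) := by exact_mod_cast hm.2
          have h2 : ((60 * X : ℕ) : ℝ) ^ ((1 : ℝ) / 3) < (VV X : ℝ) + 1 := Nat.lt_floor_add_one _
          have h3 : ((60 * X : ℕ) : ℝ) = (((60 * X : ℕ) : ℝ) ^ ((1 : ℝ) / 3)) ^ 3 := by
            rw [← Real.rpow_natCast, ← Real.rpow_mul (by positivity)]
            norm_num
          have h4 : (((60 * X : ℕ) : ℝ) ^ ((1 : ℝ) / 3)) ^ 3 < ((VV X : ℝ) + 1) ^ 3 :=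
            pow_lt_pow_left₀ h2 (by positivity) (by norm_num)
          have h5 : (m : ℝ) < ((VV X : ℝ) + 1) ^ 3 := by
            rw [← h3] at h4; linarith
          exact_mod_cast h5
        have e2 := heath_brown (VV X) m hV
        rw [hd_ring Q X, ArithmeticFunction.add_apply, e1, add_zero, ArithmeticFunction.add_apply,
          ArithmeticFunction.add_apply] at e2
        rw [e2]
        push_cast
        ring
    rw [hFL, hFm, Finset.sum_congr rfl hkey, Finset.sum_add_distrib, Finset.sum_add_distrib,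
      hd_conv N _ _ F hFhigh, hd_conv N _ _ F hFhigh]
    congr 1
    rw [Finset.sum_range_succ, Finset.sum_range_one, add_comm]
    have hFmul : ∀ a n : ℕ, F (a * n) = p.2 (a : ZMod p.1) * p.2 (n : ZMod p.1) *
        (v X (a * n) : ℂ) * ((a : ℂ) ^ (-(1 + t * Complex.I)) *
        (n : ℂ) ^ (-(1 + t * Complex.I))) := by
      intro a n
      rw [hF]
      simp only
      rw [Nat.cast_mul, map_mul]
      have : ((a * n : ℕ) : ℂ) ^ (-(1 + t * Complex.I)) = (a : ℂ) ^ (-(1 + t * Complex.I)) *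
        (n : ℂ) ^ (-(1 + t * Complex.I)) := by
        push_cast
        exact Complex.natCast_mul_natCast_cpow a n _
      rw [this]
    congr 1
    · apply Finset.sum_congr rfl
      intro a _
      beta_reduce
      simp only [if_true]
      unfold Long
      rw [Finset.mul_sum]
      apply Finset.sum_congr rfl
      intro n hn
      rw [Finset.mem_Icc] at hn
      rw [hFmul]
      unfold hdl
      rw [hd_af_pos _ hn.1]
      push_cast
      ring
    · apply Finset.sum_congr rfl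
      intro a _
      beta_reduce
      simp only [one_ne_zero, if_false]
      unfold Long
      rw [Finset.mul_sum]
      apply Finset.sum_congr rfl
      intro n hn
      rw [Finset.mem_Icc] at hn
      rw [hFmul]
      unfold hdlL
      rw [hd_af_pos _ hn.1]
      push_cast
      ring

end Pool.Agent.Lib.H68T
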