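import Pool.Agent.Lib.H68T.RegL

/-!
# Chunk LONG1; part of LONG: long smooth sums
-/

open Finset

namespace Pool.Agent.Lib.H68T

/-- `smoothTransition` has bounded first and second derivatives, supported in `[0,1]`. -/
theorem LONG_sT : ∃ B : ℝ, 1 ≤ B ∧ (∀ x, |deriv Real.smoothTransition x| ≤ B) ∧
    (∀ x, |deriv (deriv Real.smoothTransition) x| ≤ B) ∧
    (∀ x, x ∉ Set.Icc (0:ℝ) 1 → deriv Real.smoothTransition x = 0) ∧
    (∀ x, x ∉ Set.Icc (0:ℝ) 1 → deriv (deriv Real.smoothTransition) x = 0) := by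
  have hc : ContDiff ℝ ((2 : ℕ∞) : WithTop ℕ∞) Real.smoothTransition := Real.smoothTransition.contDiff
  have hc1 : ContDiff ℝ 1 (deriv Real.smoothTransition) := by
    have h2 : ContDiff ℝ (1 + 1) Real.smoothTransition := by exact_mod_cast hc
    exact (contDiff_succ_iff_deriv.mp h2).2.2
  have hc2 : Continuous (deriv (deriv Real.smoothTransition)) := hc1.continuous_deriv le_rfl
  have z1 : ∀ x, x ∉ Set.Icc (0:ℝ) 1 → deriv Real.smoothTransition x = 0 := by
    intro x hx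
    rw [Set.mem_Icc, not_and_or, not_le, not_le] at hx
    rcases hx with hx | hx
    · have : Real.smoothTransition =ᶠ[nhds x] fun _ => (0:ℝ) := by
        filter_upwards [Iio_mem_nhds hx] with y hy
        exact Real.smoothTransition.zero_of_nonpos (le_of_lt hy)
      rw [this.deriv_eq]; simp
    · have : Real.smoothTransition =ᶠ[nhds x] fun _ => (1:ℝ) := by
        filter_upwards [Ioi_mem_nhds hx] with y hy
        exact Real.smoothTransition.one_of_one_le (le_of_lt hy)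
      rw [this.deriv_eq]; simp
  have z2 : ∀ x, x ∉ Set.Icc (0:ℝ) 1 → deriv (deriv Real.smoothTransition) x = 0 := by
    intro x hx
    have hx' := hx
    rw [Set.mem_Icc, not_and_or, not_le, not_le] at hx
    have hopen : IsOpen (Set.Icc (0:ℝ) 1)ᶜ := isClosed_Icc.isOpen_compl
    have : deriv Real.smoothTransition =ᶠ[nhds x] fun _ => (0:ℝ) := by
      filter_upwards [hopen.mem_nhds hx'] with y hy
      exact z1 y hy
    rw [this.deriv_eq]; simp
  obtain ⟨C1, hC1⟩ := (isCompact_Icc (a := (0:ℝ)) (b := 1)).exists_bound_of_continuousOn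
    hc1.continuous.continuousOn
  obtain ⟨C2, hC2⟩ := (isCompact_Icc (a := (0:ℝ)) (b := 1)).exists_bound_of_continuousOn
    hc2.continuousOn
  refine ⟨max 1 (max C1 C2), le_max_left _ _, ?_, ?_, z1, z2⟩
  · intro x
    by_cases hx : x ∈ Set.Icc (0:ℝ) 1
    · exact (hC1 x hx).trans (le_max_of_le_right (le_max_left _ _))
    · rw [z1 x hx, abs_zero]; positivity
  · intro x
    by_cases hx : x ∈ Set.Icc (0:ℝ) 1
    · exact (hC2 x hx).trans (le_max_of_le_right (le_max_right _ _))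
    · rw [z2 x hx, abs_zero]; positivity

theorem LONG_sT_diff : ContDiff ℝ 2 Real.smoothTransition := by
  have hc : ContDiff ℝ ((2 : ℕ∞) : WithTop ℕ∞) Real.smoothTransition := Real.smoothTransition.contDiff
  exact_mod_cast hc

theorem LONG_sT_lip {B : ℝ} (hB : ∀ x, |deriv Real.smoothTransition x| ≤ B) (x y : ℝ) :
    |Real.smoothTransition y - Real.smoothTransition x| ≤ B * |y - x| := by
  have := Convex.norm_image_sub_le_of_norm_deriv_le (f := Real.smoothTransition) (C := B)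
    (s := Set.univ) (x := x) (y := y)
    (fun x _ => (LONG_sT_diff.differentiable (by norm_num)) x) (fun x _ => hB x) convex_univ
    (Set.mem_univ _) (Set.mem_univ _)
  simpa [Real.norm_eq_abs] using this

theorem LONG_w_nonneg (y : ℝ) : 0 ≤ w y :=
  mul_nonneg (Real.smoothTransition.nonneg _) (Real.smoothTransition.nonneg _)

theorem LONG_w_le_one (y : ℝ) : w y ≤ 1 :=
  mul_le_one₀ (Real.smoothTransition.le_one _) (Real.smoothTransition.nonneg _)
    (Real.smoothTransition.le_one _)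

theorem LONG_w_lip {B : ℝ} (hB : ∀ x, |deriv Real.smoothTransition x| ≤ B) (x y : ℝ) :
    |w y - w x| ≤ 2 * B * |y - x| := by
  unfold w
  have h1 := LONG_sT_lip hB (x + 2) (y + 2)
  have h2 := LONG_sT_lip hB (4 - x) (4 - y)
  have e1 : |y + 2 - (x + 2)| = |y - x| := by ring_nf
  have e2 : |4 - y - (4 - x)| = |y - x| := by rw [← abs_neg]; ring_nf
  rw [e1] at h1
  rw [e2] at h2
  have a1 := Real.smoothTransition.nonneg (x + 2)
  have a2 := Real.smoothTransition.le_one (x + 2)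
  have a3 := Real.smoothTransition.nonneg (4 - y)
  have a4 := Real.smoothTransition.le_one (4 - y)
  have : Real.smoothTransition (y + 2) * Real.smoothTransition (4 - y) -
      Real.smoothTransition (x + 2) * Real.smoothTransition (4 - x) =
      (Real.smoothTransition (y + 2) - Real.smoothTransition (x + 2)) * Real.smoothTransition (4 - y)
      + Real.smoothTransition (x + 2) *
        (Real.smoothTransition (4 - y) - Real.smoothTransition (4 - x)) := by ring
  rw [this]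
  refine (abs_add_le _ _).trans ?_
  rw [abs_mul, abs_mul, abs_of_nonneg a1, abs_of_nonneg a3]
  have b1 : |Real.smoothTransition (y + 2) - Real.smoothTransition (x + 2)| *
      Real.smoothTransition (4 - y) ≤ (B * |y - x|) * 1 :=
    mul_le_mul h1 a4 a3 (le_trans (abs_nonneg _) h1)
  have b2 : Real.smoothTransition (x + 2) *
      |Real.smoothTransition (4 - y) - Real.smoothTransition (4 - x)| ≤ 1 * (B * |y - x|) :=
    mul_le_mul a2 h2 (abs_nonneg _) zero_le_one
  linarith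

theorem LONG_w_zero {y : ℝ} (hy : 4 ≤ y) : w y = 0 := by
  unfold w
  rw [Real.smoothTransition.zero_of_nonpos (x := 4 - y) (by linarith), mul_zero]

/-- The amplitude, in the variable `y = log u`: `α = log (Q^20)`, `c = log (a/X)`. -/
noncomputable def LONG_Om (α c : ℝ) (j : ℕ) (y : ℝ) : ℝ :=
  Real.smoothTransition (y - α) * y ^ j * w (y + c)

theorem LONG_Om_lip {B : ℝ} (hB1 : 1 ≤ B) (hB : ∀ x, |deriv Real.smoothTransition x| ≤ B)
    (α c : ℝ) (j : ℕ) (hj : j ∈ range 2) (x y : ℝ) (hx : 0 ≤ x) (hxy : x ≤ y) :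
    |LONG_Om α c j y - LONG_Om α c j x| ≤ (3 * B + 1) * (1 + y) * (y - x) := by
  have hj' : j = 0 ∨ j = 1 := by rw [mem_range] at hj; omega
  have h1 := LONG_sT_lip hB (x - α) (y - α)
  have h2 := LONG_w_lip hB (x + c) (y + c)
  have e1 : |y - α - (x - α)| = y - x := by
    rw [abs_of_nonneg (by linarith)]; ring
  have e2 : |y + c - (x + c)| = y - x := by
    rw [abs_of_nonneg (by linarith)]; ring
  rw [e1] at h1
  rw [e2] at h2
  have a1 := Real.smoothTransition.nonneg (x - α)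
  have a2 := Real.smoothTransition.le_one (x - α)
  have a3 := LONG_w_nonneg (y + c)
  have a4 := LONG_w_le_one (y + c)
  have p0 : |x ^ j| ≤ 1 + y := by
    rcases hj' with rfl | rfl
    · simp; linarith
    · rw [pow_one, abs_of_nonneg hx]; linarith
  have p1 : |y ^ j| ≤ 1 + y := by
    rcases hj' with rfl | rfl
    · simp; linarith
    · rw [pow_one, abs_of_nonneg (by linarith)]; linarith
  have p2 : |y ^ j - x ^ j| ≤ y - x := by
    rcases hj' with rfl | rfl
    · simp; linarith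
    · rw [pow_one, pow_one, abs_of_nonneg (by linarith)]
  unfold LONG_Om
  have : Real.smoothTransition (y - α) * y ^ j * w (y + c) -
      Real.smoothTransition (x - α) * x ^ j * w (x + c) =
      (Real.smoothTransition (y - α) - Real.smoothTransition (x - α)) * y ^ j * w (y + c) +
      Real.smoothTransition (x - α) * (y ^ j - x ^ j) * w (y + c) +
      Real.smoothTransition (x - α) * x ^ j * (w (y + c) - w (x + c)) := by ring
  rw [this]
  refine (abs_add_three _ _ _).trans ?_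
  rw [abs_mul, abs_mul, abs_mul, abs_mul, abs_mul, abs_mul, abs_of_nonneg a1, abs_of_nonneg a3]
  have hyx : 0 ≤ y - x := by linarith
  have hB0 : 0 ≤ B := by linarith
  have hy0 : 0 ≤ y := hx.trans hxy
  have b1 : |Real.smoothTransition (y - α) - Real.smoothTransition (x - α)| * |y ^ j| * w (y + c)
      ≤ (B * (y - x)) * (1 + y) * 1 := by gcongr
  have b2 : Real.smoothTransition (x - α) * |y ^ j - x ^ j| * w (y + c) ≤ 1 * (y - x) * 1 := by
    gcongr
  have b3 : Real.smoothTransition (x - α) * |x ^ j| * |w (y + c) - w (x + c)| ≤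
      1 * (1 + y) * (2 * B * (y - x)) := by gcongr
  nlinarith [mul_nonneg hyx (by linarith : (0:ℝ) ≤ y)]

theorem LONG_Om_le (α c : ℝ) (j : ℕ) (hj : j ∈ range 2) (x : ℝ) (hx : 0 ≤ x) :
    |LONG_Om α c j x| ≤ 1 + x := by
  have hj' : j = 0 ∨ j = 1 := by rw [mem_range] at hj; omega
  have a1 := Real.smoothTransition.nonneg (x - α)
  have a2 := Real.smoothTransition.le_one (x - α)
  have a3 := LONG_w_nonneg (x + c)
  have a4 := LONG_w_le_one (x + c)
  have p0 : |x ^ j| ≤ 1 + x := by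
    rcases hj' with rfl | rfl
    · simp; linarith
    · rw [pow_one, abs_of_nonneg hx]; linarith
  unfold LONG_Om
  rw [abs_mul, abs_mul, abs_of_nonneg a1, abs_of_nonneg a3]
  calc _ ≤ 1 * (1 + x) * 1 := by gcongr
    _ = 1 + x := by ring

/-- The smooth function of a real variable whose values at the integers are the terms of `Long`. -/
noncomputable def LONG_W (α c : ℝ) (j : ℕ) (t : ℝ) (u : ℝ) : ℂ :=
  (LONG_Om α c j (Real.log u) : ℂ) * (u : ℂ) ^ (-(1 + t * Complex.I))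

theorem LONG_cpow_norm (t u : ℝ) (hu : 0 < u) : ‖(u : ℂ) ^ (-(1 + t * Complex.I))‖ = u⁻¹ := by
  rw [Complex.norm_cpow_eq_rpow_re_of_pos hu]
  simp [Real.rpow_neg_one]

theorem LONG_cpow_diff (t u u' : ℝ) (hu : 0 < u) (huu : u ≤ u') :
    ‖(u' : ℂ) ^ (-(1 + t * Complex.I)) - (u : ℂ) ^ (-(1 + t * Complex.I))‖ ≤
      (1 + |t|) * (u' - u) / u ^ 2 := by
  have hder : ∀ x ∈ Set.Icc u u', HasDerivWithinAt (fun x : ℝ => (x : ℂ) ^ (-(1 + t * Complex.I)))
      ((-(1 + t * Complex.I)) * (x : ℂ) ^ (-(1 + t * Complex.I) - 1)) (Set.Icc u u') x := by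
    intro x hx
    have hx0 : 0 < x := lt_of_lt_of_le hu hx.1
    have h1 : HasDerivAt (fun z : ℂ => z ^ (-(1 + t * Complex.I)))
        ((-(1 + t * Complex.I)) * (x : ℂ) ^ (-(1 + t * Complex.I) - 1)) (x : ℂ) := by
      have := (hasDerivAt_id (x : ℂ)).cpow_const (c := -(1 + t * Complex.I))
        (Or.inl (by simpa using hx0))
      simpa using this
    exact h1.comp_ofReal.hasDerivWithinAt
  have hb : ∀ x ∈ Set.Ico u u', ‖(-(1 + t * Complex.I)) * (x : ℂ) ^ (-(1 + t * Complex.I) - 1)‖ ≤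
      (1 + |t|) / u ^ 2 := by
    intro x hx
    have hx0 : 0 < x := lt_of_lt_of_le hu hx.1
    rw [norm_mul, norm_neg, Complex.norm_cpow_eq_rpow_re_of_pos hx0]
    have e1 : (-(1 + t * Complex.I) - 1 : ℂ).re = ((-2 : ℤ) : ℝ) := by simp; norm_num
    rw [e1, Real.rpow_intCast]
    have e2 : ‖(1 + t * Complex.I : ℂ)‖ ≤ 1 + |t| := by
      refine (norm_add_le _ _).trans ?_
      simp
    have e3 : x ^ (-2 : ℤ) ≤ (u ^ 2)⁻¹ := by
      rw [zpow_neg]
      have : u ^ 2 ≤ x ^ (2:ℤ) := by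
        have := hx.1
        exact_mod_cast pow_le_pow_left₀ hu.le this 2
      exact inv_anti₀ (by positivity) this
    calc _ ≤ (1 + |t|) * (u ^ 2)⁻¹ := by
          apply mul_le_mul e2 e3 (by positivity) (by positivity)
      _ = _ := by rw [div_eq_mul_inv]
  have := norm_image_sub_le_of_norm_deriv_le_segment' hder hb u' (Set.right_mem_Icc.mpr huu)
  calc _ ≤ _ := this
    _ = _ := by ring

theorem LONG_W_diff {B : ℝ} (hB1 : 1 ≤ B) (hB : ∀ x, |deriv Real.smoothTransition x| ≤ B)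
    (α c : ℝ) (j : ℕ) (hj : j ∈ range 2) (t u u' : ℝ) (hu : 1 ≤ u) (huu : u ≤ u') :
    ‖LONG_W α c j t u' - LONG_W α c j t u‖ ≤
      (3 * B + 2 + |t|) * (1 + Real.log u') * ((u' - u) / u ^ 2) := by
  have hu0 : 0 < u := by linarith
  have hu0' : 0 < u' := by linarith
  have hl0 : 0 ≤ Real.log u := Real.log_nonneg hu
  have hll : Real.log u ≤ Real.log u' := Real.log_le_log hu0 huu
  have hd : Real.log u' - Real.log u ≤ (u' - u) / u := by
    rw [← Real.log_div hu0'.ne' hu0.ne']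
    refine (Real.log_le_sub_one_of_pos (by positivity)).trans ?_
    rw [sub_div, div_self hu0.ne']
  have h1 := LONG_Om_lip hB1 hB α c j hj _ _ hl0 hll
  have h2 := LONG_Om_le α c j hj _ hl0
  have h3 := LONG_cpow_norm t u' hu0'
  have h4 := LONG_cpow_diff t u u' hu0 huu
  unfold LONG_W
  have e : (LONG_Om α c j (Real.log u') : ℂ) * (u' : ℂ) ^ (-(1 + t * Complex.I)) -
      (LONG_Om α c j (Real.log u) : ℂ) * (u : ℂ) ^ (-(1 + t * Complex.I)) =
      ((LONG_Om α c j (Real.log u') - LONG_Om α c j (Real.log u) : ℝ) : ℂ) *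
        (u' : ℂ) ^ (-(1 + t * Complex.I)) +
      (LONG_Om α c j (Real.log u) : ℂ) * ((u' : ℂ) ^ (-(1 + t * Complex.I)) -
        (u : ℂ) ^ (-(1 + t * Complex.I))) := by push_cast; ring
  rw [e]
  refine (norm_add_le _ _).trans ?_
  rw [norm_mul, norm_mul, Complex.norm_real, Complex.norm_real, h3, Real.norm_eq_abs,
    Real.norm_eq_abs]
  have hL : 0 ≤ Real.log u' := hl0.trans hll
  have b1 : |LONG_Om α c j (Real.log u') - LONG_Om α c j (Real.log u)| * u'⁻¹ ≤
      ((3 * B + 1) * (1 + Real.log u') * ((u' - u) / u)) * u⁻¹ := by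
    have : (3 * B + 1) * (1 + Real.log u') * (Real.log u' - Real.log u) ≤
      (3 * B + 1) * (1 + Real.log u') * ((u' - u) / u) := by
      apply mul_le_mul_of_nonneg_left hd
      have : 0 ≤ 3 * B + 1 := by linarith
      positivity
    apply mul_le_mul (h1.trans this) (inv_anti₀ hu0 huu) (by positivity)
    exact le_trans (abs_nonneg _) (h1.trans this)
  have b2 : |LONG_Om α c j (Real.log u)| * ‖(u' : ℂ) ^ (-(1 + t * Complex.I)) -
        (u : ℂ) ^ (-(1 + t * Complex.I))‖ ≤ (1 + Real.log u') * ((1 + |t|) * (u' - u) / u ^ 2) := by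
    apply mul_le_mul (h2.trans (by linarith)) h4 (norm_nonneg _) (by linarith)
  calc _ ≤ ((3 * B + 1) * (1 + Real.log u') * ((u' - u) / u)) * u⁻¹ +
        (1 + Real.log u') * ((1 + |t|) * (u' - u) / u ^ 2) := add_le_add b1 b2
    _ = _ := by field_simp; ring

/-- The terms of `Long`. -/
theorem LONG_term (Q X : ℕ) (hQ : 1 ≤ Q) (hX : 1 ≤ X) (j a : ℕ) (ha : 1 ≤ a) (t : ℝ) (n : ℕ)
    (hn : 1 ≤ n) :
    (((1 - rho Q n) * Real.log n ^ j * v X (a * n) : ℝ) : ℂ) * (n : ℂ) ^ (-(1 + t * Complex.I)) =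
      LONG_W (Real.log ((Q : ℝ) ^ 20)) (Real.log ((a : ℝ) / X)) j t n := by
  have hn0 : (0:ℝ) < n := by exact_mod_cast hn
  have hQ0 : (0:ℝ) < Q := by exact_mod_cast hQ
  have hX0 : (0:ℝ) < X := by exact_mod_cast hX
  have ha0 : (0:ℝ) < a := by exact_mod_cast ha
  unfold LONG_W LONG_Om rho v
  have e1 : Real.log ((n : ℝ) / (Q : ℝ) ^ 20) = Real.log n - Real.log ((Q : ℝ) ^ 20) :=
    Real.log_div hn0.ne' (by positivity)
  have e2 : Real.log (((a * n : ℕ) : ℝ) / X) = Real.log n + Real.log ((a : ℝ) / X) := by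
    rw [← Real.log_mul hn0.ne' (by positivity)]
    congr 1
    push_cast
    ring
  rw [e1, e2]
  congr 2
  ring

theorem LONG_W_zero_left (α c : ℝ) (j : ℕ) (t u : ℝ) (h : Real.log u ≤ α) :
    LONG_W α c j t u = 0 := by
  unfold LONG_W LONG_Om
  rw [Real.smoothTransition.zero_of_nonpos (x := Real.log u - α) (by linarith)]
  simp

theorem LONG_W_zero_right (α c : ℝ) (j : ℕ) (t u : ℝ) (h : 4 ≤ Real.log u + c) :
    LONG_W α c j t u = 0 := by
  unfold LONG_W LONG_Om
  rw [LONG_w_zero h]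
  simp

/-- Abel summation. -/
theorem LONG_abel (f g : ℕ → ℂ) (N : ℕ) :
    ∑ n ∈ Icc 1 N, f n * g n = f N * (∑ m ∈ Icc 1 N, g m) -
      ∑ n ∈ range N, (f (n + 1) - f n) * ∑ m ∈ Icc 1 n, g m := by
  induction N with
  | zero => simp
  | succ N ih =>
    rw [sum_Icc_succ_top (by omega), ih, sum_Icc_succ_top (by omega), sum_range_succ]
    ring

theorem LONG_char_sum (r : ℕ) [NeZero r] (ψ : DirichletCharacter ℂ r) (hψ : ψ ≠ 1) (n : ℕ) :
    ‖∑ m ∈ Icc 1 n, ψ (m : ZMod r)‖ ≤ r := by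
  have hr : 0 < r := Nat.pos_of_ne_zero (NeZero.ne r)
  have hper : ∀ a : ℕ, ∑ m ∈ Ioc a (a + r), ψ (m : ZMod r) = 0 := by
    intro a
    have h0 : ∑ x : ZMod r, ψ x = 0 := MulChar.sum_eq_zero_of_ne_one hψ
    rw [← h0]
    refine sum_bij (fun m _ => (m : ZMod r)) (fun _ _ => mem_univ _) ?_ ?_ (fun _ _ => rfl)
    · intro m hm m' hm' h
      rw [mem_Ioc] at hm hm'
      rw [ZMod.natCast_eq_natCast_iff] at h
      wlog hle : m ≤ m' generalizing m m'
      · exact (this m' hm' m hm h.symm (by omega)).symm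
      have h2 := (Nat.modEq_iff_dvd' hle).mp h
      rcases Nat.eq_zero_or_pos (m' - m) with h3 | h3
      · omega
      · have := Nat.le_of_dvd h3 h2
        omega
    · intro x _
      have hx := ZMod.natCast_zmod_val x
      set v0 := x.val with hv0
      have hlt : v0 < r := ZMod.val_lt x
      -- m ≡ v0 mod r in (a, a + r]
      refine ⟨a + 1 + (v0 + (r - (a + 1) % r)) % r, ?_, ?_⟩
      · rw [mem_Ioc]
        have := Nat.mod_lt (v0 + (r - (a + 1) % r)) hr
        omega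
      · rw [← hx, ZMod.natCast_eq_natCast_iff]
        have hle : (a + 1) % r ≤ r := (Nat.mod_lt _ hr).le
        have : (a + 1 + (v0 + (r - (a + 1) % r)) % r) ≡ (a + 1) % r + (v0 + (r - (a + 1) % r)) [MOD r] := by
          apply Nat.ModEq.add
          · exact (Nat.mod_modEq _ _).symm
          · exact Nat.mod_modEq _ _
        refine this.trans ?_
        have e : (a + 1) % r + (v0 + (r - (a + 1) % r)) = v0 + r := by omega
        rw [e]
        exact Nat.add_modEq_right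
  induction n using Nat.strong_induction_on with
  | _ n ih =>
    rcases le_or_gt n r with h | h
    · refine (norm_sum_le _ _).trans ?_
      refine (sum_le_sum (fun m _ => DirichletCharacter.norm_le_one ψ _)).trans ?_
      simp
      exact_mod_cast h
    · have h1 := ih (n - r) (by omega)
      have h2 : ∑ m ∈ Icc 1 n, ψ (m : ZMod r) = ∑ m ∈ Icc 1 (n - r), ψ (m : ZMod r) +
          ∑ m ∈ Ioc (n - r) (n - r + r), ψ (m : ZMod r) := by
        rw [Nat.sub_add_cancel h.le]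
        have : Icc 1 n = Icc 1 (n - r) ∪ Ioc (n - r) n := by
          ext x
          simp only [mem_union, mem_Icc, mem_Ioc]
          omega
        rw [this, sum_union]
        rw [disjoint_left]
        intro x hx hx'
        rw [mem_Icc] at hx
        rw [mem_Ioc] at hx'
        omega
      rw [h2, hper, add_zero]
      exact h1

theorem LONG_sum_inv_sq (N0 N : ℕ) (h0 : 1 ≤ N0) :
    ∑ n ∈ Ico N0 N, 1 / (n : ℝ) ^ 2 ≤ 2 / (N0 : ℝ) := by
  rcases le_or_gt N N0 with h | h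
  · rw [Ico_eq_empty (by omega), sum_empty]; positivity
  have key : ∀ k : ℕ, N0 ≤ k → ∑ n ∈ Ico N0 (k + 1), 1 / (n : ℝ) ^ 2 ≤ 2 / (N0 : ℝ) - 1 / (k : ℝ) := by
    intro k hk
    induction k, hk using Nat.le_induction with
    | base =>
      have : (1:ℝ) ≤ N0 := by exact_mod_cast h0
      rw [Ico_add_one_right_eq_Icc, Icc_self, sum_singleton]
      have e : (2:ℝ) / N0 - 1 / N0 = 1 / N0 := by ring
      rw [e]
      exact one_div_le_one_div_of_le (by linarith) (by nlinarith)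
    | succ k hk ih =>
      rw [sum_Ico_succ_top (by omega)]
      have hk0 : (0:ℝ) < k := by exact_mod_cast (by omega : 0 < k)
      have : 1 / ((k + 1 : ℕ) : ℝ) ^ 2 ≤ 1 / k - 1 / ((k + 1 : ℕ) : ℝ) := by
        push_cast
        rw [div_sub_div _ _ hk0.ne' (by positivity), div_le_div_iff₀ (by positivity) (by positivity)]
        nlinarith
      linarith
  have := key (N - 1) (by omega)
  rw [Nat.sub_add_cancel (by omega)] at this
  have h3 : (0:ℝ) ≤ 1 / ((N - 1 : ℕ) : ℝ) := by positivity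
  linarith


/-- Non-trivial primitive character: `|∑_{n ≤ u} ψ(n)| ≤ r ≤ Q`, partial summation against
`W(u) = (1-ρ(u)) (log u)^j v(au) u^(-1-it)`, supported on `u ≥ Q^20`,
`|W'(u)| ≤ C (1+|t|) log X · u^(-2)`. Total `C Q (1 + Q^7) log X Q^(-20) ≤ Q^(-11)`. -/
theorem long_small : ∃ K : ℝ, ∀ Q X : ℕ, Reg K Q X → ∀ p ∈ PC Q, p ≠ p0 → ∀ j ∈ range 2,
    ∀ a : ℕ, 1 ≤ a → ∀ t : ℝ, |t| ≤ (Q : ℝ) ^ 7 → ‖Long Q X p j a t‖ ≤ (Q : ℝ) ^ (-11 : ℝ) := by
  obtain ⟨B, hB1, hB, -⟩ := LONG_sT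
  obtain ⟨K, hK1, hK⟩ := reg_log_le (2 * (3 * B + 3) * 7) 1 1 one_pos
  refine ⟨K, fun Q X hreg p hp hp0 j hj a ha t ht => ?_⟩
  have hK0 : 0 < K := by linarith
  have hQ := hreg.Q_pos hK1
  have hX := hreg.X_pos hK0
  have hlX := hreg.logX_ge_one hK0
  have hQ0 : (0:ℝ) < Q := by exact_mod_cast hQ
  have hQ1 : (1:ℝ) ≤ Q := by exact_mod_cast hQ
  have hX0 : (0:ℝ) < X := by exact_mod_cast hX
  have ha1 : (1:ℝ) ≤ a := by exact_mod_cast ha
  obtain ⟨r, ψ⟩ := p
  rw [mem_PC] at hp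
  obtain ⟨hr1, hrQ, hprim⟩ := hp
  simp only at hr1 hrQ hprim
  have : NeZero r := ⟨by omega⟩
  have hψ : ψ ≠ 1 := by
    rintro rfl
    apply hp0
    have h1 := (DirichletCharacter.isPrimitive_def _).mp hprim
    rw [DirichletCharacter.conductor_one] at h1
    subst h1
    rfl
  set α := Real.log ((Q : ℝ) ^ 20) with hα
  set c := Real.log ((a : ℝ) / X) with hc
  have hN : (0:ℝ) < ((60 * X : ℕ) : ℝ) := by positivity
  have hlog60 : (4:ℝ) ≤ Real.log 60 := by
    rw [Real.le_log_iff_exp_le (by norm_num)]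
    have : Real.exp 4 = (Real.exp 1) ^ 4 := by
      rw [← Real.exp_nat_mul]; norm_num
    rw [this]
    have h1 := Real.exp_one_lt_d9
    calc (Real.exp 1) ^ 4 ≤ (2.7182818286:ℝ) ^ 4 :=
          pow_le_pow_left₀ (Real.exp_pos 1).le h1.le 4
      _ ≤ 60 := by norm_num
  have e1 : Long Q X ⟨r, ψ⟩ j a t = ∑ n ∈ Icc 1 (60 * X), LONG_W α c j t n * ψ (n : ZMod r) := by
    unfold Long
    apply sum_congr rfl
    intro n hn
    rw [mem_Icc] at hn
    rw [← LONG_term Q X hQ hX j a ha t n hn.1]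
    ring
  rw [e1, LONG_abel (fun n => LONG_W α c j t n)]
  have hend : LONG_W α c j t ((60 * X : ℕ) : ℝ) = 0 := by
    apply LONG_W_zero_right
    rw [hc, ← Real.log_mul hN.ne' (by positivity)]
    refine hlog60.trans (Real.log_le_log (by norm_num) ?_)
    push_cast
    rw [mul_assoc, ← mul_div_assoc, mul_comm (X:ℝ) (a:ℝ), mul_div_assoc, div_self hX0.ne', mul_one]
    nlinarith
  rw [hend, zero_mul, zero_sub, norm_neg]
  -- split the range
  have hsplit : ∑ n ∈ range (60 * X), (LONG_W α c j t ((n + 1 : ℕ) : ℝ) - LONG_W α c j t (n : ℝ)) *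
      ∑ m ∈ Icc 1 n, ψ (m : ZMod r) =
      ∑ n ∈ Ico (Q ^ 20) (60 * X), (LONG_W α c j t ((n + 1 : ℕ) : ℝ) - LONG_W α c j t (n : ℝ)) *
      ∑ m ∈ Icc 1 n, ψ (m : ZMod r) := by
    symm
    apply sum_subset
    · intro n hn
      rw [mem_Ico] at hn
      exact mem_range.mpr hn.2
    · intro n hn hn'
      rw [mem_range] at hn
      rw [mem_Ico, not_and] at hn'
      have hlt : n < Q ^ 20 := by
        by_contra h
        exact hn' (not_lt.mp h) hn
      rcases Nat.eq_zero_or_pos n with h0 | h0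
      · subst h0; simp
      · have z1 : LONG_W α c j t (n : ℝ) = 0 := by
          apply LONG_W_zero_left
          rw [hα]
          apply Real.log_le_log (by exact_mod_cast h0)
          exact_mod_cast hlt.le
        have z2 : LONG_W α c j t ((n + 1 : ℕ) : ℝ) = 0 := by
          apply LONG_W_zero_left
          rw [hα]
          apply Real.log_le_log (by positivity)
          exact_mod_cast hlt
        rw [z1, z2]; simp
  have hsplit' : ∑ n ∈ range (60 * X), ((fun n : ℕ => LONG_W α c j t (n : ℝ)) (n + 1) -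
      (fun n : ℕ => LONG_W α c j t (n : ℝ)) n) * ∑ m ∈ Icc 1 n, ψ (m : ZMod r) =
      ∑ n ∈ Ico (Q ^ 20) (60 * X), (LONG_W α c j t ((n + 1 : ℕ) : ℝ) - LONG_W α c j t (n : ℝ)) *
      ∑ m ∈ Icc 1 n, ψ (m : ZMod r) := hsplit
  rw [hsplit']
  set D := (3 * B + 2 + |t|) * (1 + Real.log ((60 * X : ℕ) : ℝ)) with hD
  have hlN : 0 ≤ Real.log ((60 * X : ℕ) : ℝ) := Real.log_natCast_nonneg _
  have hD0 : 0 ≤ D := by
    have := abs_nonneg t
    positivity
  have hterm : ∀ n ∈ Ico (Q ^ 20) (60 * X), ‖(LONG_W α c j t ((n + 1 : ℕ) : ℝ) -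
      LONG_W α c j t (n : ℝ)) * ∑ m ∈ Icc 1 n, ψ (m : ZMod r)‖ ≤ (D * Q) * (1 / (n : ℝ) ^ 2) := by
    intro n hn
    rw [mem_Ico] at hn
    have hn1 : 1 ≤ n := le_trans (Nat.one_le_pow _ _ hQ) hn.1
    have hn1' : (1:ℝ) ≤ n := by exact_mod_cast hn1
    have h1 := LONG_W_diff hB1 hB α c j hj t (n : ℝ) ((n + 1 : ℕ) : ℝ) hn1' (by push_cast; linarith)
    have h2 := LONG_char_sum r ψ hψ n
    have h3 : (r : ℝ) ≤ Q := by exact_mod_cast hrQ
    have h4 : Real.log ((n + 1 : ℕ) : ℝ) ≤ Real.log ((60 * X : ℕ) : ℝ) := by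
      apply Real.log_le_log (by positivity)
      exact_mod_cast hn.2
    have h5 : (((n + 1 : ℕ) : ℝ) - n) = 1 := by push_cast; ring
    rw [h5] at h1
    rw [norm_mul]
    have h6 : ‖LONG_W α c j t ((n + 1 : ℕ) : ℝ) - LONG_W α c j t (n : ℝ)‖ ≤ D * (1 / (n : ℝ) ^ 2) := by
      refine h1.trans ?_
      rw [hD]
      have := abs_nonneg t
      gcongr
    calc _ ≤ (D * (1 / (n : ℝ) ^ 2)) * Q := by
          apply mul_le_mul h6 (h2.trans h3) (norm_nonneg _) (by positivity)
      _ = _ := by ring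
  refine (norm_sum_le _ _).trans ((sum_le_sum hterm).trans ?_)
  rw [← mul_sum]
  have hs := LONG_sum_inv_sq (Q ^ 20) (60 * X) (Nat.one_le_pow _ _ hQ)
  have hQ7 : (1:ℝ) ≤ (Q:ℝ) ^ 7 := one_le_pow₀ hQ1
  have hl60 : Real.log ((60 * X : ℕ) : ℝ) ≤ 6 * Real.log X := by
    push_cast
    rw [Real.log_mul (by norm_num) hX0.ne']
    have : Real.log 60 ≤ 5 := by
      rw [Real.log_le_iff_le_exp (by norm_num)]
      have : Real.exp 5 = (Real.exp 1) ^ 5 := by
        rw [← Real.exp_nat_mul]; norm_num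
      rw [this]
      have h1 := Real.exp_one_gt_d9
      calc (60:ℝ) ≤ (2.7182818283:ℝ) ^ 5 := by norm_num
        _ ≤ _ := pow_le_pow_left₀ (by norm_num) h1.le 5
    nlinarith
  have hDle : D ≤ (3 * B + 3) * (Q:ℝ) ^ 7 * (7 * Real.log X) := by
    rw [hD]
    have h1 : 3 * B + 2 + |t| ≤ (3 * B + 3) * (Q:ℝ) ^ 7 := by nlinarith
    have h2 : 1 + Real.log ((60 * X : ℕ) : ℝ) ≤ 7 * Real.log X := by linarith
    exact mul_le_mul h1 h2 (by linarith) (by positivity)
  have hKQ := hK Q X hreg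
  rw [Real.rpow_one, Real.rpow_one] at hKQ
  have hfin : (Q : ℝ) ^ (-11 : ℝ) = 1 / (Q:ℝ) ^ 11 := by
    rw [Real.rpow_neg hQ0.le, one_div]
    norm_num
  rw [hfin]
  have hs' : ∑ n ∈ Ico (Q ^ 20) (60 * X), 1 / (n : ℝ) ^ 2 ≤ 2 / (Q:ℝ) ^ 20 := by
    push_cast at hs
    exact hs
  calc D * Q * ∑ n ∈ Ico (Q ^ 20) (60 * X), 1 / (n : ℝ) ^ 2
      ≤ ((3 * B + 3) * (Q:ℝ) ^ 7 * (7 * Real.log X)) * Q * (2 / (Q:ℝ) ^ 20) := by
        gcongr
    _ = (2 * (3 * B + 3) * 7 * Real.log X) * ((Q:ℝ) ^ 8 / (Q:ℝ) ^ 20) := by ring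
    _ ≤ Q * ((Q:ℝ) ^ 8 / (Q:ℝ) ^ 20) := by
        apply mul_le_mul_of_nonneg_right hKQ (by positivity)
    _ = 1 / (Q:ℝ) ^ 11 := by
        field_simp

end Pool.Agent.Lib.H68T
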