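import Pool.Agent.Lib.H68T.Defs

/-!
# Chunk PV: correlations and Parseval
-/

open Finset

namespace Pool.Agent.Lib.H68T

theorem PV_e_add (x y : ℝ) : e (x + y) = e x * e y := by
  unfold e
  rw [← Complex.exp_add]
  congr 1
  push_cast
  ring

theorem PV_e_conj (x : ℝ) : (starRingEnd ℂ) (e x) = e (-x) := by
  unfold e
  rw [← Complex.exp_conj]
  congr 1
  simp only [map_mul, Complex.conj_ofReal, Complex.conj_I, map_ofNat]
  push_cast
  ring

theorem PV_e_pow (x : ℝ) (n : ℕ) : e (n * x) = e x ^ n := by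
  unfold e
  rw [← Complex.exp_nat_mul]
  congr 1
  push_cast
  ring

theorem PV_e_int (n : ℤ) : e n = 1 := by
  unfold e
  rw [Complex.exp_eq_one_iff]
  exact ⟨n, by push_cast; ring⟩

theorem PV_e_ne_one (N : ℕ) (hN : 0 < N) (k : ℤ) (hk : |k| < N) (hk0 : k ≠ 0) :
    e ((k : ℝ) / N) ≠ 1 := by
  unfold e
  rw [Ne, Complex.exp_eq_one_iff]
  rintro ⟨n, hn⟩
  have h1 : ((k : ℝ) / N : ℂ) = (n : ℂ) := by
    have h2 : (2 * Real.pi * Complex.I : ℂ) ≠ 0 := Complex.two_pi_I_ne_zero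
    apply mul_right_cancel₀ h2
    rw [← hn]
    push_cast
    ring
  have hN' : (N : ℂ) ≠ 0 := by exact_mod_cast hN.ne'
  rw [div_eq_iff hN'] at h1
  have h3 : k = n * N := by exact_mod_cast h1
  have h4 : n ≠ 0 := by
    rintro rfl
    exact hk0 (by rw [h3]; simp)
  have h5 : (1 : ℤ) ≤ |n| := Int.one_le_abs h4
  rw [h3, abs_mul, Nat.abs_cast] at hk
  have : (N : ℤ) > 0 := by exact_mod_cast hN
  nlinarith

theorem PV_ortho (N : ℕ) (hN : 0 < N) (a : ℕ) (k : ℤ) (hk : |k| < N) :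
    ∑ j ∈ Ico a (a + N), e ((j : ℝ) * ((k : ℝ) / N)) = if k = 0 then (N : ℂ) else 0 := by
  have hNr : (N : ℝ) ≠ 0 := by exact_mod_cast hN.ne'
  rw [Finset.sum_Ico_eq_sum_range]
  have h1 : ∀ j : ℕ, e (((a + j : ℕ) : ℝ) * ((k : ℝ) / N)) =
      e ((k : ℝ) / N) ^ a * e ((k : ℝ) / N) ^ j := by
    intro j
    rw [PV_e_pow, pow_add]
  simp only [h1, Nat.add_sub_cancel_left]
  rw [← Finset.mul_sum]
  split_ifs with h0
  · subst h0
    have : e (((0 : ℤ) : ℝ) / N) = 1 := by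
      have := PV_e_int 0
      simpa using this
    rw [this]
    simp
  · have hne := PV_e_ne_one N hN k hk h0
    have hpow : e ((k : ℝ) / N) ^ N = 1 := by
      rw [← PV_e_pow]
      have : (N : ℝ) * ((k : ℝ) / N) = ((k : ℤ) : ℝ) := by field_simp
      rw [this]
      exact PV_e_int k
    rw [geom_sum_eq hne, hpow]
    simp

theorem PV_parseval (N : ℕ) (hN : 0 < N) (a a' : ℕ) (b : ℕ → ℂ) :
    ∑ j ∈ Ico a' (a' + N), ‖∑ t ∈ Ico a (a + N), b t * e ((j : ℝ) * ((t : ℝ) / N))‖ ^ 2 =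
      N * ∑ t ∈ Ico a (a + N), ‖b t‖ ^ 2 := by
  have hC : ((∑ j ∈ Ico a' (a' + N), ‖∑ t ∈ Ico a (a + N), b t * e ((j : ℝ) * ((t : ℝ) / N))‖ ^ 2 :
      ℝ) : ℂ) = ((N * ∑ t ∈ Ico a (a + N), ‖b t‖ ^ 2 : ℝ) : ℂ) := by
    have hsq : ∀ z : ℂ, ((‖z‖ ^ 2 : ℝ) : ℂ) = z * (starRingEnd ℂ) z := by
      intro z
      rw [Complex.mul_conj, Complex.normSq_eq_norm_sq]
    push_cast
    have h1 : ∀ j : ℕ, ((‖∑ t ∈ Ico a (a + N), b t * e ((j : ℝ) * ((t : ℝ) / N))‖ : ℝ) : ℂ) ^ 2 =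
        ∑ t ∈ Ico a (a + N), ∑ t' ∈ Ico a (a + N), b t * (starRingEnd ℂ) (b t') *
          e ((j : ℝ) * ((((t : ℤ) - t' : ℤ) : ℝ) / N)) := by
      intro j
      have := hsq (∑ t ∈ Ico a (a + N), b t * e ((j : ℝ) * ((t : ℝ) / N)))
      push_cast at this
      rw [this, map_sum, Finset.sum_mul_sum]
      refine Finset.sum_congr rfl fun t _ => Finset.sum_congr rfl fun t' _ => ?_
      rw [map_mul, PV_e_conj]
      have h2 : (j : ℝ) * ((((t : ℤ) - t' : ℤ) : ℝ) / N) =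
          (j : ℝ) * ((t : ℝ) / N) + -((j : ℝ) * ((t' : ℝ) / N)) := by
        push_cast
        ring
      rw [h2, PV_e_add]
      ring
    simp only [h1]
    rw [Finset.sum_comm, Finset.mul_sum]
    refine Finset.sum_congr rfl fun t ht => ?_
    rw [Finset.sum_comm]
    have h3 : ∀ t' ∈ Ico a (a + N), ∑ j ∈ Ico a' (a' + N), b t * (starRingEnd ℂ) (b t') *
        e ((j : ℝ) * ((((t : ℤ) - t' : ℤ) : ℝ) / N)) =
        if t = t' then (N : ℂ) * (b t * (starRingEnd ℂ) (b t')) else 0 := by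
      intro t' ht'
      rw [← Finset.mul_sum]
      rw [mem_Ico] at ht ht'
      rw [PV_ortho N hN a' ((t : ℤ) - t') (by rw [abs_lt]; omega)]
      by_cases h : t = t'
      · subst h
        simp only [sub_self, if_true]
        ring
      · rw [if_neg h, if_neg (by omega), mul_zero]
    rw [Finset.sum_congr rfl h3, Finset.sum_ite_eq, if_pos ht]
    have := hsq (b t)
    push_cast at this
    rw [this]
  exact_mod_cast hC

/-- If all exponential sums of `u` over the intervals `[s, s + M)` are at most `D`, then the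
correlations with any `v` are small in mean square. For fixed `s` the numbers
`A(s') = ∑_{c < M} u(s + c) v(s' + c)` are correlation coefficients; with
`U(θ) = ∑_c u(s+c) e(cθ)`, `V(θ) = ∑_{l ∈ [M,3M)} v(l) e(lθ)` one has
`A(s') = ∫_0^1 U(θ) conj(V(θ)) e(s'θ) dθ` for `s' ∈ [M, 2M)` (or use a discrete Fourier transform
modulo `4M`), so by Bessel and Parseval
`∑_{s'} |A(s')|² ≤ ∫ |U V|² ≤ D² ∑_l |v(l)|²`. Sum over the `M` values of `s`. -/
theorem corr_sq_le (M : ℕ) (u v : ℕ → ℝ) (D : ℝ)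
    (hu : ∀ s ∈ Ico M (2 * M), ∀ θ : ℝ, ‖∑ c ∈ range M, (u (s + c) : ℂ) * e (c * θ)‖ ≤ D) :
    ∑ s ∈ Ico M (2 * M), ∑ s' ∈ Ico M (2 * M), (∑ c ∈ range M, u (s + c) * v (s' + c)) ^ 2 ≤
      M * D ^ 2 * ∑ l ∈ Ico M (3 * M), v l ^ 2 := by
  rcases Nat.eq_zero_or_pos M with rfl | hM
  · simp
  set N := 2 * M with hNdef
  have hN : 0 < N := by omega
  have hNr : (0 : ℝ) < N := by exact_mod_cast hN
  have h3 : 3 * M = M + N := by omega
  have key : ∀ s ∈ Ico M (2 * M), ∑ s' ∈ Ico M (2 * M),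
      (∑ c ∈ range M, u (s + c) * v (s' + c)) ^ 2 ≤ D ^ 2 * ∑ l ∈ Ico M (3 * M), v l ^ 2 := by
    intro s hs
    have hD : 0 ≤ D := (norm_nonneg _).trans (hu s hs 0)
    set U : ℕ → ℂ := fun j => ∑ c ∈ range M, (u (s + c) : ℂ) * e (c * ((j : ℝ) / N)) with hU
    set Vf : ℕ → ℂ := fun j => ∑ l ∈ Ico M (M + N), (v l : ℂ) * e ((j : ℝ) * ((l : ℝ) / N)) with hVf
    set B : ℕ → ℂ := fun j => Vf j * (starRingEnd ℂ) (U j) with hB
    have hUD : ∀ j, ‖U j‖ ≤ D := fun j => hu s hs _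
    -- the Fourier expansion of the correlation
    have hA : ∀ t ∈ Ico M (2 * M), ((N : ℝ) * ∑ c ∈ range M, u (s + c) * v (t + c) : ℝ) =
        (∑ j ∈ Ico 0 (0 + N), B j * e (-((j : ℝ) * ((t : ℝ) / N))) : ℂ) := by
      intro t ht
      rw [mem_Ico] at ht
      have e1 : ∀ j : ℕ, B j * e (-((j : ℝ) * ((t : ℝ) / N))) =
          ∑ l ∈ Ico M (M + N), ∑ c ∈ range M, ((v l : ℂ) * u (s + c)) *
            e ((j : ℝ) * ((((l : ℤ) - c - t : ℤ) : ℝ) / N)) := by
        intro j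
        simp only [hB, hVf, hU, map_sum, Finset.sum_mul_sum]
        rw [Finset.sum_mul]
        refine Finset.sum_congr rfl fun l _ => ?_
        rw [Finset.sum_mul]
        refine Finset.sum_congr rfl fun c _ => ?_
        rw [map_mul, PV_e_conj, Complex.conj_ofReal]
        have e2 : (j : ℝ) * ((((l : ℤ) - c - t : ℤ) : ℝ) / N) =
            (j : ℝ) * ((l : ℝ) / N) + (-((c : ℝ) * ((j : ℝ) / N)) + -((j : ℝ) * ((t : ℝ) / N))) := by
          push_cast
          ring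
        rw [e2, PV_e_add, PV_e_add]
        ring
      simp only [e1]
      rw [Finset.sum_comm]
      have e3 : ∀ l ∈ Ico M (M + N), ∑ j ∈ Ico 0 (0 + N), ∑ c ∈ range M,
          ((v l : ℂ) * u (s + c)) * e ((j : ℝ) * ((((l : ℤ) - c - t : ℤ) : ℝ) / N)) =
          ∑ c ∈ range M, if l = t + c then (N : ℂ) * ((v l : ℂ) * u (s + c)) else 0 := by
        intro l hl
        rw [Finset.sum_comm]
        refine Finset.sum_congr rfl fun c hc => ?_
        rw [mem_Ico] at hl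
        rw [mem_range] at hc
        rw [← Finset.mul_sum, PV_ortho N hN 0 ((l : ℤ) - c - t) (by rw [abs_lt]; omega)]
        by_cases h : l = t + c
        · rw [if_pos (by omega), if_pos h]
          ring
        · rw [if_neg (by omega), if_neg h, mul_zero]
      rw [Finset.sum_congr rfl e3, Finset.sum_comm]
      push_cast
      rw [Finset.mul_sum]
      refine Finset.sum_congr rfl fun c hc => ?_
      rw [mem_range] at hc
      rw [Finset.sum_ite_eq', if_pos (by rw [mem_Ico]; omega)]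
      ring
    have hle1 : ∑ t ∈ Ico M (2 * M), ((N : ℝ) * ∑ c ∈ range M, u (s + c) * v (t + c)) ^ 2 ≤
        ∑ t ∈ Ico M (M + N), ‖∑ j ∈ Ico 0 (0 + N), (starRingEnd ℂ) (B j) *
          e ((t : ℝ) * ((j : ℝ) / N))‖ ^ 2 := by
      have h1 : ∀ t ∈ Ico M (2 * M), ((N : ℝ) * ∑ c ∈ range M, u (s + c) * v (t + c)) ^ 2 =
          ‖∑ j ∈ Ico 0 (0 + N), (starRingEnd ℂ) (B j) * e ((t : ℝ) * ((j : ℝ) / N))‖ ^ 2 := by
        intro t ht
        have h2 := congrArg (fun z : ℂ => ‖z‖) (hA t ht)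
        rw [Complex.norm_real, Real.norm_eq_abs] at h2
        rw [← sq_abs, h2, ← RCLike.norm_conj (∑ j ∈ Ico 0 (0 + N), B j *
          e (-((j : ℝ) * ((t : ℝ) / N)))), map_sum]
        congr 2
        refine Finset.sum_congr rfl fun j _ => ?_
        rw [map_mul, PV_e_conj, neg_neg]
        congr 2
        ring
      rw [Finset.sum_congr rfl h1]
      refine Finset.sum_le_sum_of_subset_of_nonneg ?_ fun _ _ _ => by positivity
      intro t ht
      rw [mem_Ico] at ht ⊢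
      omega
    rw [PV_parseval N hN 0 M (fun j => (starRingEnd ℂ) (B j))] at hle1
    have hle2 : ∑ j ∈ Ico 0 (0 + N), ‖(starRingEnd ℂ) (B j)‖ ^ 2 ≤
        D ^ 2 * ((N : ℝ) * ∑ l ∈ Ico M (M + N), ‖((v l : ℝ) : ℂ)‖ ^ 2) := by
      rw [← PV_parseval N hN M 0 (fun l => ((v l : ℝ) : ℂ)), Finset.mul_sum]
      refine Finset.sum_le_sum fun j _ => ?_
      rw [RCLike.norm_conj]
      simp only [hB]
      rw [norm_mul, RCLike.norm_conj, mul_pow, mul_comm]
      exact mul_le_mul_of_nonneg_right (pow_le_pow_left₀ (norm_nonneg _) (hUD j) 2) (by positivity)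
    have hle3 : (N : ℝ) ^ 2 * ∑ t ∈ Ico M (2 * M), (∑ c ∈ range M, u (s + c) * v (t + c)) ^ 2 ≤
        (N : ℝ) ^ 2 * (D ^ 2 * ∑ l ∈ Ico M (3 * M), v l ^ 2) := by
      have h4 : ∑ l ∈ Ico M (M + N), ‖((v l : ℝ) : ℂ)‖ ^ 2 = ∑ l ∈ Ico M (3 * M), v l ^ 2 := by
        rw [h3]
        refine Finset.sum_congr rfl fun l _ => ?_
        rw [Complex.norm_real, Real.norm_eq_abs, sq_abs]
      rw [h4] at hle2
      calc (N : ℝ) ^ 2 * ∑ t ∈ Ico M (2 * M), (∑ c ∈ range M, u (s + c) * v (t + c)) ^ 2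
          = ∑ t ∈ Ico M (2 * M), ((N : ℝ) * ∑ c ∈ range M, u (s + c) * v (t + c)) ^ 2 := by
            rw [Finset.mul_sum]
            exact Finset.sum_congr rfl fun t _ => by ring
        _ ≤ _ := hle1
        _ ≤ (N : ℝ) * (D ^ 2 * ((N : ℝ) * ∑ l ∈ Ico M (3 * M), v l ^ 2)) :=
            mul_le_mul_of_nonneg_left hle2 hNr.le
        _ = _ := by ring
    exact le_of_mul_le_mul_left hle3 (by positivity)
  refine (Finset.sum_le_sum key).trans ?_
  rw [Finset.sum_const, Nat.card_Ico, nsmul_eq_mul]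
  have : ((2 * M - M : ℕ) : ℝ) = M := by
    congr 1
    omega
  rw [this, mul_assoc]

end Pool.Agent.Lib.H68T
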