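import Pool.Agent.Lib.H68T.Defs

/-!
# Chunk CQ2; part of CQ: Ramanujan sums
-/

open Finset

namespace Pool.Agent.Lib.H68T

/-- `φ(n) = ∑_{d ∣ n} d μ(n/d)` -/
theorem CQ2_totient (n : ℕ) (hn : 0 < n) :
    ∑ d ∈ n.divisors, (d : ℝ) * (ArithmeticFunction.moebius (n / d) : ℝ) = Nat.totient n := by
  have h := (ArithmeticFunction.sum_eq_iff_sum_mul_moebius_eq (R := ℝ)
    (f := fun n => (Nat.totient n : ℝ)) (g := fun n => (n : ℝ))).1 (fun n _ => by
      have := Nat.sum_totient n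
      exact_mod_cast this) n hn
  rw [← h, Nat.sum_divisorsAntidiagonal' (fun a b => (ArithmeticFunction.moebius a : ℝ) * (b : ℝ))]
  exact sum_congr rfl fun d _ => mul_comm _ _

/-- For squarefree `q`: `c_q(m) = μ(q/g) φ(g)`, `g = gcd(q, m)`. -/
theorem cq_squarefree (q : ℕ) (hq : Squarefree q) (m : ℤ) :
    cq q m = (ArithmeticFunction.moebius (q / Nat.gcd q m.natAbs) : ℝ) *
      Nat.totient (Nat.gcd q m.natAbs) := by
  set g := Nat.gcd q m.natAbs with hg
  have hq0 : q ≠ 0 := hq.ne_zero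
  have hgq : g ∣ q := Nat.gcd_dvd_left _ _
  have hg0 : 0 < g := Nat.pos_of_ne_zero (fun h => hq0 (by rw [h] at hgq; exact Nat.eq_zero_of_zero_dvd hgq))
  obtain ⟨h, hh⟩ := hgq
  have hcop : Nat.Coprime g h := by
    rw [hh] at hq
    exact Nat.coprime_of_squarefree_mul hq
  have hqg : q / g = h := by rw [hh]; exact Nat.mul_div_cancel_left _ hg0
  unfold cq
  have h1 : q.divisors.filter (fun d : ℕ => (d : ℤ) ∣ m) = g.divisors := by
    ext d
    simp only [mem_filter, Nat.mem_divisors]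
    rw [hg, Nat.dvd_gcd_iff, Int.natCast_dvd]
    constructor
    · rintro ⟨⟨a, _⟩, b⟩
      exact ⟨⟨a, b⟩, hg0.ne'⟩
    · rintro ⟨⟨a, b⟩, _⟩
      exact ⟨⟨a, hq0⟩, b⟩
  rw [h1, hqg, ← CQ2_totient g hg0, mul_sum]
  refine sum_congr rfl fun d hd => ?_
  rw [Nat.mem_divisors] at hd
  obtain ⟨k, hk⟩ := hd.1
  have hd0 : 0 < d := Nat.pos_of_dvd_of_pos hd.1 hg0
  have e1 : g / d = k := by rw [hk]; exact Nat.mul_div_cancel_left _ hd0
  have e2 : q / d = k * h := by
    rw [hh, hk, mul_assoc]; exact Nat.mul_div_cancel_left _ hd0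
  have hkh : Nat.Coprime k h := Nat.Coprime.coprime_dvd_left ⟨d, by rw [hk]; ring⟩ hcop
  rw [e1, e2, ArithmeticFunction.isMultiplicative_moebius.map_mul_of_coprime hkh]
  push_cast
  ring

/-- product of `P/(P-1)` over a finite set of integers `≥ 2` -/
theorem CQ2_prod (S : Finset ℕ) (hS : ∀ p ∈ S, 2 ≤ p) :
    ∏ p ∈ S, ((p : ℝ) / (p - 1)) ≤ S.card + 1 := by
  induction S using Finset.induction_on_max with
  | empty => simp
  | insert P s hmax ih =>
    have hP : P ∉ s := fun h => lt_irrefl _ (hmax P h)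
    rw [prod_insert hP, card_insert_of_notMem hP]
    have h1 := ih fun p hp => hS p (mem_insert_of_mem hp)
    have h2 : 2 ≤ P := hS P (mem_insert_self _ _)
    have h3 : s.card + 1 ≤ P - 1 := by
      have h4 : s ⊆ Ico 2 P := by
        intro p hp
        rw [mem_Ico]
        exact ⟨hS p (mem_insert_of_mem hp), hmax p hp⟩
      have h5 := card_le_card h4
      rw [Nat.card_Ico] at h5
      omega
    have h6 : ((s.card : ℝ) + 1) ≤ (P : ℝ) - 1 := by
      have : ((s.card + 1 : ℕ) : ℝ) ≤ ((P - 1 : ℕ) : ℝ) := by exact_mod_cast h3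
      rw [Nat.cast_sub (by omega)] at this
      push_cast at this
      exact this
    have h7 : (0 : ℝ) < s.card + 1 := by positivity
    have h8 : (P : ℝ) / (P - 1) ≤ (s.card + 1 + 1) / (s.card + 1) := by
      rw [div_le_div_iff₀ (by linarith) h7]
      nlinarith
    calc (P : ℝ) / (P - 1) * ∏ p ∈ s, ((p : ℝ) / (p - 1))
        ≤ (s.card + 1 + 1) / (s.card + 1) * (s.card + 1) := by
          apply mul_le_mul h8 h1 _ (by positivity)
          exact prod_nonneg fun p hp => by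
            have : (2 : ℝ) ≤ p := by exact_mod_cast hS p (mem_insert_of_mem hp)
            apply div_nonneg <;> linarith
      _ = ((s.card + 1 : ℕ) : ℝ) + 1 := by
          rw [div_mul_cancel₀ _ h7.ne']
          push_cast
          ring

theorem CQ2_card (q : ℕ) (hq : 0 < q) : (q.primeFactors.card : ℝ) ≤ 3 / 2 * Real.log q := by
  have h1 : 2 ^ q.primeFactors.card ≤ q := by
    have h2 : ∏ p ∈ q.primeFactors, 2 ≤ ∏ p ∈ q.primeFactors, p :=
      prod_le_prod' fun p hp => (Nat.prime_of_mem_primeFactors hp).two_le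
    rw [prod_const] at h2
    exact h2.trans (Nat.le_of_dvd hq (Nat.prod_primeFactors_dvd q))
  have h3 : (2 : ℝ) ^ q.primeFactors.card ≤ q := by exact_mod_cast h1
  have h4 := Real.log_le_log (by positivity) h3
  rw [Real.log_pow] at h4
  have h5 := Real.log_two_gt_d9
  have h6 : (0 : ℝ) ≤ q.primeFactors.card := by positivity
  nlinarith

theorem CQ2_ratio (q : ℕ) (hq : 0 < q) : (1 : ℝ) / Nat.totient q ≤ 3 / 2 * (1 + Real.log q) / q := by
  have hq' : (0 : ℝ) < q := by exact_mod_cast hq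
  have h1 : (Nat.totient q : ℝ) = q * ∏ p ∈ q.primeFactors, (1 - (p : ℝ)⁻¹) := by
    have := Nat.totient_eq_mul_prod_factors q
    have h2 : ((Nat.totient q : ℚ) : ℝ) = ((q * ∏ p ∈ q.primeFactors, (1 - (p : ℚ)⁻¹) : ℚ) : ℝ) := by
      rw [this]
    push_cast at h2
    exact h2
  have h2 : (∏ p ∈ q.primeFactors, ((p : ℝ) / (p - 1))) * ∏ p ∈ q.primeFactors, (1 - (p : ℝ)⁻¹) = 1 := by
    rw [← prod_mul_distrib]
    refine prod_eq_one fun p hp => ?_
    have h3 : (2 : ℝ) ≤ p := by exact_mod_cast (Nat.prime_of_mem_primeFactors hp).two_le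
    have h4 : (p : ℝ) ≠ 0 := by linarith
    have h5 : (p : ℝ) - 1 ≠ 0 := by intro h; linarith
    field_simp
  have h3 := CQ2_prod q.primeFactors fun p hp => (Nat.prime_of_mem_primeFactors hp).two_le
  have h4 := CQ2_card q hq
  have h5 : 0 < (Nat.totient q : ℝ) := by exact_mod_cast Nat.totient_pos.2 hq
  have h6 : 0 ≤ Real.log q := Real.log_natCast_nonneg q
  have h7 : (q : ℝ) / Nat.totient q = ∏ p ∈ q.primeFactors, ((p : ℝ) / (p - 1)) := by
    rw [div_eq_iff h5.ne', h1]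
    calc (q : ℝ) = q * ((∏ p ∈ q.primeFactors, ((p : ℝ) / (p - 1))) *
          ∏ p ∈ q.primeFactors, (1 - (p : ℝ)⁻¹)) := by rw [h2, mul_one]
      _ = _ := by ring
  rw [div_le_div_iff₀ h5 hq']
  have h8 : (q : ℝ) / Nat.totient q ≤ 3 / 2 * (1 + Real.log q) := by
    rw [h7]
    linarith
  rw [div_le_iff₀ h5] at h8
  linarith

/-- `∑_{q ≤ Q} 1/φ(q) ≤ 10 (1 + log Q)^2` (crude). For instance
`q/φ(q) = ∑_{d ∣ q} μ²(d)/φ(d)` and `φ(d) ≥ c d/(1 + log d)`, or
`q/φ(q) = ∏_{p ∣ q} (1 + 1/(p-1)) ≤ 4 (1 + log q)` etc. Any constant instead of `10` is fine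
as long as it is absolute. -/
theorem sum_inv_totient (Q : ℕ) :
    ∑ q ∈ Icc 1 Q, (1 : ℝ) / Nat.totient q ≤ 10 * (1 + Real.log Q) ^ 2 := by
  have h0 : 0 ≤ Real.log Q := Real.log_natCast_nonneg Q
  have h1 : ∑ q ∈ Icc 1 Q, (1 : ℝ) / Nat.totient q
      ≤ ∑ q ∈ Icc 1 Q, 3 / 2 * (1 + Real.log Q) * (1 / q) := by
    refine sum_le_sum fun q hq => ?_
    rw [mem_Icc] at hq
    have hq' : (0 : ℝ) < q := by exact_mod_cast hq.1
    refine (CQ2_ratio q hq.1).trans ?_
    rw [div_eq_mul_one_div]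
    apply mul_le_mul_of_nonneg_right _ (by positivity)
    have : Real.log q ≤ Real.log Q := Real.log_le_log hq' (by exact_mod_cast hq.2)
    linarith
  rw [← mul_sum] at h1
  have h2 : ∑ q ∈ Icc 1 Q, (1 : ℝ) / q ≤ 1 + Real.log Q := by
    have h3 := harmonic_le_one_add_log Q
    have h4 : ((harmonic Q : ℚ) : ℝ) = ∑ q ∈ Icc 1 Q, (1 : ℝ) / q := by
      rw [harmonic_eq_sum_Icc]
      push_cast
      exact sum_congr rfl fun q _ => by rw [one_div]
    rw [← h4]
    exact h3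
  refine h1.trans ?_
  calc 3 / 2 * (1 + Real.log Q) * ∑ q ∈ Icc 1 Q, (1 : ℝ) / q
      ≤ 3 / 2 * (1 + Real.log Q) * (1 + Real.log Q) :=
        mul_le_mul_of_nonneg_left h2 (by positivity)
    _ ≤ 10 * (1 + Real.log Q) ^ 2 := by nlinarith

/-- `|G(m)| ≤ ∑_{q ≤ Q squarefree} φ((q,m))/φ(q) ≤ ∑_{g ∣ m, g ≤ Q} ∑_{q' ≤ Q} 1/φ(q')`. -/
theorem abs_G_le (Q : ℕ) (m : ℤ) : |G Q m| ≤ 10 * (1 + Real.log Q) ^ 2 * dQ Q m := by
  have hterm : ∀ q ∈ Icc 1 Q, |(ArithmeticFunction.moebius q : ℝ) / (Nat.totient q : ℝ) * cq q m|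
      ≤ 1 / Nat.totient (q / Nat.gcd q m.natAbs) := by
    intro q hq
    rw [mem_Icc] at hq
    by_cases hsq : Squarefree q
    · rw [cq_squarefree q hsq m]
      set g := Nat.gcd q m.natAbs with hg
      have hq0 : q ≠ 0 := hsq.ne_zero
      have hgq : g ∣ q := Nat.gcd_dvd_left _ _
      have hg0 : 0 < g :=
        Nat.pos_of_ne_zero (fun h => hq0 (by rw [h] at hgq; exact Nat.eq_zero_of_zero_dvd hgq))
      obtain ⟨h, hh⟩ := hgq
      have hh0 : 0 < h := Nat.pos_of_ne_zero (fun h' => hq0 (by rw [hh, h', mul_zero]))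
      have hcop : Nat.Coprime g h := by
        rw [hh] at hsq
        exact Nat.coprime_of_squarefree_mul hsq
      have hqg : q / g = h := by rw [hh]; exact Nat.mul_div_cancel_left _ hg0
      have hph : (Nat.totient q : ℝ) = Nat.totient g * Nat.totient h := by
        have : Nat.totient q = Nat.totient g * Nat.totient h := by
          conv_lhs => rw [hh]
          exact Nat.totient_mul hcop
        exact_mod_cast this
      have p1 : (0 : ℝ) < Nat.totient g := by exact_mod_cast Nat.totient_pos.2 hg0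
      have p2 : (0 : ℝ) < Nat.totient h := by exact_mod_cast Nat.totient_pos.2 hh0
      have m1 : |(ArithmeticFunction.moebius q : ℝ)| ≤ 1 := by
        exact_mod_cast (ArithmeticFunction.abs_moebius_le_one (n := q))
      have m2 : |(ArithmeticFunction.moebius h : ℝ)| ≤ 1 := by
        exact_mod_cast (ArithmeticFunction.abs_moebius_le_one (n := h))
      rw [hqg, hph, abs_mul, abs_div, abs_of_pos (mul_pos p1 p2), abs_mul, abs_of_pos p1]
      rw [div_mul_eq_mul_div, div_le_div_iff₀ (mul_pos p1 p2) p2]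
      have m3 : |(ArithmeticFunction.moebius q : ℝ)| * |(ArithmeticFunction.moebius h : ℝ)| ≤ 1 :=
        mul_le_one₀ m1 (abs_nonneg _) m2
      have m4 : 0 < (Nat.totient g : ℝ) * Nat.totient h := mul_pos p1 p2
      nlinarith
    · rw [ArithmeticFunction.moebius_eq_zero_of_not_squarefree hsq]
      simp
  have h1 : |G Q m| ≤ ∑ q ∈ Icc 1 Q, (1 : ℝ) / Nat.totient (q / Nat.gcd q m.natAbs) :=
    (abs_sum_le_sum_abs _ _).trans (sum_le_sum hterm)
  have h2 : ∑ q ∈ Icc 1 Q, (1 : ℝ) / Nat.totient (q / Nat.gcd q m.natAbs)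
      ≤ ∑ p ∈ ((Icc 1 Q).filter (fun d : ℕ => (d : ℤ) ∣ m)) ×ˢ Icc 1 Q, (1 : ℝ) / Nat.totient p.2 := by
    have hinj : Set.InjOn (fun q : ℕ => (Nat.gcd q m.natAbs, q / Nat.gcd q m.natAbs))
        (Icc 1 Q : Set ℕ) := by
      intro a _ b _ hab
      simp only [Prod.mk.injEq] at hab
      have e1 := Nat.mul_div_cancel' (Nat.gcd_dvd_left a m.natAbs)
      have e2 := Nat.mul_div_cancel' (Nat.gcd_dvd_left b m.natAbs)
      rw [← e1, ← e2, hab.2, hab.1]
    have himg : ∑ q ∈ Icc 1 Q, (1 : ℝ) / Nat.totient (q / Nat.gcd q m.natAbs)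
        = ∑ p ∈ (Icc 1 Q).image (fun q : ℕ => (Nat.gcd q m.natAbs, q / Nat.gcd q m.natAbs)),
          (1 : ℝ) / Nat.totient p.2 := by
      rw [sum_image hinj]
    rw [himg]
    refine sum_le_sum_of_subset_of_nonneg ?_ (fun p _ _ => by positivity)
    intro p hp
    rw [mem_image] at hp
    obtain ⟨q, hq, rfl⟩ := hp
    rw [mem_Icc] at hq
    have hg0 : 0 < Nat.gcd q m.natAbs := Nat.gcd_pos_of_pos_left _ hq.1
    have hgq : Nat.gcd q m.natAbs ≤ q := Nat.gcd_le_left _ hq.1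
    rw [mem_product, mem_filter, mem_Icc, mem_Icc]
    refine ⟨⟨⟨hg0, hgq.trans hq.2⟩, ?_⟩, ?_, ?_⟩
    · rw [Int.natCast_dvd]
      exact Nat.gcd_dvd_right _ _
    · exact Nat.div_pos hgq hg0
    · exact (Nat.div_le_self _ _).trans hq.2
  refine (h1.trans h2).trans ?_
  rw [sum_product]
  simp only
  rw [sum_const, nsmul_eq_mul]
  have h3 := sum_inv_totient Q
  have h4 : (0 : ℝ) ≤ ((Icc 1 Q).filter (fun d : ℕ => (d : ℤ) ∣ m)).card := by positivity
  unfold dQ
  nlinarith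

end Pool.Agent.Lib.H68T
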