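import Pool.Agent.Lib.H68T.VB

/-!
# Chunk V2: type II sums
-/

open Finset

namespace Pool.Agent.Lib.H68T

theorem V2_interval {B : ℕ} (S : Finset ℕ) (hS : ∀ x ∈ S, ∀ z ∈ S, ∀ y, x ≤ y → y ≤ z → y ∈ S)
    (hB : S ⊆ Icc 1 B) (θ : ℝ) : ‖∑ y ∈ S, e (y * θ)‖ ≤ VB_f B θ := by
  rcases S.eq_empty_or_nonempty with rfl | hne
  · simp only [sum_empty, norm_zero]
    exact VB_f_nonneg (by positivity) _
  set m := S.min' hne with hm
  set M := S.max' hne with hM
  have hmM : m ≤ M := S.min'_le_max' hne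
  have hSeq : ∑ y ∈ S, e (y * θ) = ∑ n ∈ Ico (m : ℤ) (M + 1 : ℤ), e (n * θ) := by
    refine Finset.sum_bij (fun y _ => (y : ℤ)) ?_ ?_ ?_ ?_
    · intro y hy
      rw [mem_Ico]
      have h1 := S.min'_le y hy
      have h2 := S.le_max' y hy
      rw [← hm] at h1
      rw [← hM] at h2
      omega
    · intro y _ z _ h
      exact_mod_cast h
    · intro n hn
      rw [mem_Ico] at hn
      refine ⟨n.toNat, ?_, ?_⟩
      · exact hS m (S.min'_mem hne) M (S.max'_mem hne) _ (by omega) (by omega)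
      · omega
    · intro y _
      push_cast
      rfl
  rw [hSeq]
  obtain ⟨h1, h2⟩ := geo_le (m : ℤ) (M + 1 : ℤ) (by omega) θ
  have h3 : ((M + 1 : ℤ) : ℝ) - ((m : ℤ) : ℝ) ≤ B := by
    have e1 := hB (S.min'_mem hne)
    have e2 := hB (S.max'_mem hne)
    rw [mem_Icc] at e1 e2
    rw [← hm] at e1
    rw [← hM] at e2
    have e3 : ((m : ℕ) : ℝ) ≥ 1 := by exact_mod_cast e1.1
    have e4 : ((M : ℕ) : ℝ) ≤ B := by exact_mod_cast e2.2
    push_cast
    linarith
  unfold VB_f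
  split_ifs with h0
  · exact h1.trans h3
  · refine le_min (h1.trans h3) ?_
    have hpos : 0 < nd θ := lt_of_le_of_ne (VB_nd_nonneg θ) (Ne.symm h0)
    rw [le_div_iff₀ (by positivity)]
    exact h2

/-- **Type II**, one dyadic block `a ∈ [A, 2A)`, `b ≤ B`, `u ≤ a b < v`. Cauchy-Schwarz over `b`:
`|T|² ≤ ∑_b |β_b|² ∑_{b ≤ B} |∑_a α_a e(abθ)|²`, open the square: for each pair `a, a'` the sum
over `b` runs over an interval of length at most `B`, hence is at most
`min (B, 1/(2‖(a-a')θ‖))`; `∑_{|h| < A}` by `block`. -/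
theorem type_two : ∃ C : ℝ, 0 < C ∧ ∀ (θ : ℝ) (q : ℕ) (a : ℤ), 1 ≤ q → IsCoprime a (q : ℤ) →
    |θ - a / q| ≤ 1 / (q : ℝ) ^ 2 → ∀ (A B u v : ℕ), 1 ≤ A → 1 ≤ B → ∀ (α β : ℕ → ℂ),
    (∀ n, ‖α n‖ ≤ 1) →
    ‖∑ x ∈ Ico A (2 * A), ∑ y ∈ (Icc 1 B).filter (fun y => u ≤ x * y ∧ x * y < v),
      α x * β y * e (x * y * θ)‖ ^ 2 ≤
      C * A * ((A : ℝ) / q + 1) * (B + q * Real.log (2 * q)) * ∑ y ∈ Icc 1 B, ‖β y‖ ^ 2 := by
  obtain ⟨C, hC, hblock⟩ := block
  refine ⟨C, hC, ?_⟩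
  intro θ q a hq hco hθ A B u v hA hB α β hα
  set g : ℕ → ℂ := fun y => ∑ x ∈ (Ico A (2 * A)).filter (fun x => u ≤ x * y ∧ x * y < v),
    α x * e (x * y * θ) with hg
  have hT : ∑ x ∈ Ico A (2 * A), ∑ y ∈ (Icc 1 B).filter (fun y => u ≤ x * y ∧ x * y < v),
      α x * β y * e (x * y * θ) = ∑ y ∈ Icc 1 B, β y * g y := by
    simp_rw [Finset.sum_filter]
    rw [Finset.sum_comm]
    refine Finset.sum_congr rfl fun y _ => ?_
    rw [hg]
    simp only
    rw [Finset.sum_filter, Finset.mul_sum]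
    refine Finset.sum_congr rfl fun x _ => ?_
    split_ifs
    · ring
    · simp
  rw [hT]
  have hCS : ‖∑ y ∈ Icc 1 B, β y * g y‖ ^ 2 ≤ (∑ y ∈ Icc 1 B, ‖β y‖ ^ 2) *
      ∑ y ∈ Icc 1 B, ‖g y‖ ^ 2 := by
    have h1 : ‖∑ y ∈ Icc 1 B, β y * g y‖ ≤ ∑ y ∈ Icc 1 B, ‖β y‖ * ‖g y‖ := by
      refine (norm_sum_le _ _).trans (le_of_eq ?_)
      simp_rw [norm_mul]
    refine (pow_le_pow_left₀ (norm_nonneg _) h1 2).trans ?_
    exact Finset.sum_mul_sq_le_sq_mul_sq _ _ _
  refine hCS.trans ?_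
  have hsum : ∑ y ∈ Icc 1 B, ‖g y‖ ^ 2 ≤ A * (C * ((A : ℝ) / q + 1) * (B + q * Real.log (2 * q))) := by
    -- open the square
    have h1 : ((∑ y ∈ Icc 1 B, ‖g y‖ ^ 2 : ℝ) : ℂ) = ∑ x' ∈ Ico A (2 * A), ∑ x ∈ Ico A (2 * A),
        (α x * (starRingEnd ℂ) (α x')) * ∑ y ∈ (Icc 1 B).filter (fun y => (u ≤ x * y ∧ x * y < v) ∧
          (u ≤ x' * y ∧ x' * y < v)), e (y * (((x : ℝ) - x') * θ)) := by
      push_cast
      have h2 : ∀ y ∈ Icc 1 B, ((‖g y‖ : ℂ)) ^ 2 = ∑ x' ∈ Ico A (2 * A), ∑ x ∈ Ico A (2 * A),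
          if (u ≤ x * y ∧ x * y < v) ∧ (u ≤ x' * y ∧ x' * y < v) then
            (α x * (starRingEnd ℂ) (α x')) * e (y * (((x : ℝ) - x') * θ)) else 0 := by
        intro y _
        rw [← Complex.mul_conj']
        rw [hg]
        simp only
        rw [map_sum, Finset.sum_mul_sum, Finset.sum_comm, Finset.sum_filter]
        refine Finset.sum_congr rfl fun x' _ => ?_
        by_cases hx' : u ≤ x' * y ∧ x' * y < v
        · rw [if_pos hx', Finset.sum_filter]
          refine Finset.sum_congr rfl fun x _ => ?_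
          by_cases hx : u ≤ x * y ∧ x * y < v
          · rw [if_pos hx, if_pos ⟨hx, hx'⟩]
            rw [map_mul]
            have hconj : (starRingEnd ℂ) (e (x' * y * θ)) = e (-(x' * y * θ)) := by
              unfold e
              rw [← Complex.exp_conj]
              congr 1
              simp only [map_mul, Complex.conj_ofReal, Complex.conj_I, map_ofNat]
              push_cast
              ring
            rw [hconj]
            have hee : e (y * (((x : ℝ) - x') * θ)) = e (x * y * θ) * e (-(x' * y * θ)) := by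
              rw [← VB_e_add]
              congr 1
              ring
            rw [hee]
            ring
          · rw [if_neg hx, if_neg (fun h => hx h.1)]
        · rw [if_neg hx']
          symm
          refine Finset.sum_eq_zero fun x _ => ?_
          rw [if_neg (fun h => hx' h.2)]
      rw [Finset.sum_congr rfl h2, Finset.sum_comm]
      refine Finset.sum_congr rfl fun x' _ => ?_
      rw [Finset.sum_comm]
      refine Finset.sum_congr rfl fun x _ => ?_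
      rw [← Finset.sum_filter, Finset.mul_sum]
    have h3 : ∑ y ∈ Icc 1 B, ‖g y‖ ^ 2 = ‖((∑ y ∈ Icc 1 B, ‖g y‖ ^ 2 : ℝ) : ℂ)‖ := by
      rw [Complex.norm_real, Real.norm_eq_abs, abs_of_nonneg]
      positivity
    rw [h3, h1]
    refine (norm_sum_le _ _).trans ?_
    have h4 : ∀ x' ∈ Ico A (2 * A), ‖∑ x ∈ Ico A (2 * A),
        (α x * (starRingEnd ℂ) (α x')) * ∑ y ∈ (Icc 1 B).filter (fun y => (u ≤ x * y ∧ x * y < v) ∧
          (u ≤ x' * y ∧ x' * y < v)), e (y * (((x : ℝ) - x') * θ))‖ ≤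
          C * ((A : ℝ) / q + 1) * (B + q * Real.log (2 * q)) := by
      intro x' _
      refine (norm_sum_le _ _).trans ?_
      have h5 : ∀ x ∈ Ico A (2 * A), ‖(α x * (starRingEnd ℂ) (α x')) *
          ∑ y ∈ (Icc 1 B).filter (fun y => (u ≤ x * y ∧ x * y < v) ∧
          (u ≤ x' * y ∧ x' * y < v)), e (y * (((x : ℝ) - x') * θ))‖ ≤
          VB_f B ((((x : ℤ) - x' : ℤ) : ℝ) * θ) := by
        intro x _
        rw [norm_mul, norm_mul, RCLike.norm_conj]
        have e1 : ‖α x‖ * ‖α x'‖ ≤ 1 := by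
          have := hα x
          have := hα x'
          nlinarith [norm_nonneg (α x), norm_nonneg (α x')]
        have e2 := V2_interval (B := B) ((Icc 1 B).filter (fun y => (u ≤ x * y ∧ x * y < v) ∧
          (u ≤ x' * y ∧ x' * y < v))) (by
            intro y1 h1 y3 h3 y2 h12 h23
            rw [mem_filter, mem_Icc] at h1 h3 ⊢
            obtain ⟨⟨a1, a2⟩, ⟨a3, a4⟩, a5, a6⟩ := h1
            obtain ⟨⟨b1, b2⟩, ⟨b3, b4⟩, b5, b6⟩ := h3
            have c1 : x * y1 ≤ x * y2 := Nat.mul_le_mul_left _ h12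
            have c2 : x * y2 ≤ x * y3 := Nat.mul_le_mul_left _ h23
            have c3 : x' * y1 ≤ x' * y2 := Nat.mul_le_mul_left _ h12
            have c4 : x' * y2 ≤ x' * y3 := Nat.mul_le_mul_left _ h23
            exact ⟨⟨by omega, by omega⟩, ⟨by omega, by omega⟩, by omega, by omega⟩)
          (Finset.filter_subset _ _) (((x : ℝ) - x') * θ)
        have e3 : (((x : ℤ) - x' : ℤ) : ℝ) * θ = ((x : ℝ) - x') * θ := by push_cast; ring
        rw [e3]
        calc ‖α x‖ * ‖α x'‖ * _ ≤ 1 * VB_f B (((x : ℝ) - x') * θ) := by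
              refine mul_le_mul e1 e2 (norm_nonneg _) zero_le_one
          _ = _ := one_mul _
      refine (Finset.sum_le_sum h5).trans ?_
      have h6 : ∑ x ∈ Ico A (2 * A), VB_f B ((((x : ℤ) - x' : ℤ) : ℝ) * θ) =
          ∑ n ∈ Ico ((A : ℤ) - x') ((A : ℤ) - x' + A), VB_f B (n * θ) := by
        refine Finset.sum_bij (fun x _ => (x : ℤ) - x') ?_ ?_ ?_ ?_
        · intro x hx
          rw [mem_Ico] at hx ⊢
          omega
        · intro x _ z _ h
          have : (x : ℤ) - x' = (z : ℤ) - x' := h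
          omega
        · intro n hn
          rw [mem_Ico] at hn
          refine ⟨(n + x').toNat, ?_, ?_⟩
          · rw [mem_Ico]; omega
          · show ((n + x').toNat : ℤ) - x' = n
            omega
        · intro x _
          rfl
      rw [h6]
      exact hblock θ q a hq hco hθ _ A B (by exact_mod_cast hB)
    refine (Finset.sum_le_sum h4).trans ?_
    rw [Finset.sum_const, Nat.card_Ico, nsmul_eq_mul]
    have : ((2 * A - A : ℕ) : ℝ) = A := by
      congr 1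
      omega
    rw [this]
  have h0 : 0 ≤ ∑ y ∈ Icc 1 B, ‖β y‖ ^ 2 := by positivity
  calc (∑ y ∈ Icc 1 B, ‖β y‖ ^ 2) * ∑ y ∈ Icc 1 B, ‖g y‖ ^ 2
      ≤ (∑ y ∈ Icc 1 B, ‖β y‖ ^ 2) * (A * (C * ((A : ℝ) / q + 1) * (B + q * Real.log (2 * q)))) :=
        mul_le_mul_of_nonneg_left hsum h0
    _ = _ := by ring

end Pool.Agent.Lib.H68T
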