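import Pool.Agent.Lib.H68T.DA
import Pool.Agent.Lib.H68T.DB
import Pool.Agent.Lib.H68T.CG1
import Pool.Agent.Lib.H68T.PV

/-!
# Chunk BA1; part of BA: primes in a class modulo `W`: mean and pair correlations
-/

open Finset

namespace Pool.Agent.Lib.H68T

theorem BA1_e_add (x y : ℝ) : e (x + y) = e x * e y := by
  unfold e
  rw [← Complex.exp_add]
  congr 1
  push_cast
  ring

theorem BA1_norm_e (x : ℝ) : ‖e x‖ = 1 := by
  unfold e
  have h : (2 * (Real.pi : ℂ) * (x : ℂ) * Complex.I) = ((2 * Real.pi * x : ℝ) : ℂ) * Complex.I := by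
    push_cast; ring
  rw [h, Complex.norm_exp_ofReal_mul_I]

theorem BA1_e_pow (x : ℝ) (n : ℕ) : e x ^ n = e (n * x) := by
  unfold e
  rw [← Complex.exp_nat_mul]
  congr 1
  push_cast
  ring

theorem BA1_e_int (k : ℤ) : e (k : ℝ) = 1 := by
  unfold e
  rw [Complex.exp_eq_one_iff]
  exact ⟨k, by push_cast; ring⟩

theorem BA1_e_eq_one {x : ℝ} (h : e x = 1) : ∃ k : ℤ, x = k := by
  unfold e at h
  rw [Complex.exp_eq_one_iff] at h
  obtain ⟨n, hn⟩ := h
  refine ⟨n, ?_⟩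
  have h2 : (2 * (Real.pi : ℂ) * Complex.I) ≠ 0 := Complex.two_pi_I_ne_zero
  have h3 : (x : ℂ) * (2 * (Real.pi : ℂ) * Complex.I) = (n : ℂ) * (2 * (Real.pi : ℂ) * Complex.I) := by
    rw [← hn]; ring
  have h4 := mul_right_cancel₀ h2 h3
  exact_mod_cast h4

/-- Detection of divisibility by additive characters. -/
theorem BA1_detect (W : ℕ) (hW : 0 < W) (k : ℤ) :
    ∑ j ∈ range W, e ((j : ℝ) * ((k : ℝ) / W)) = if (W : ℤ) ∣ k then (W : ℂ) else 0 := by
  have hW' : (W : ℝ) ≠ 0 := by exact_mod_cast hW.ne'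
  split_ifs with h
  · obtain ⟨t, rfl⟩ := h
    have : ∀ j ∈ range W, e ((j : ℝ) * ((((W : ℤ) * t : ℤ) : ℝ) / W)) = 1 := by
      intro j _
      have h1 : (j : ℝ) * ((((W : ℤ) * t : ℤ) : ℝ) / W) = (((j : ℤ) * t : ℤ) : ℝ) := by
        push_cast
        field_simp
      rw [h1, BA1_e_int]
    rw [sum_congr rfl this]
    simp
  · have hne : e ((k : ℝ) / W) ≠ 1 := by
      intro h1
      obtain ⟨t, ht⟩ := BA1_e_eq_one h1
      apply h
      refine ⟨t, ?_⟩
      rw [div_eq_iff hW'] at ht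
      have : (k : ℝ) = ((W : ℤ) * t : ℤ) := by rw [ht]; push_cast; ring
      exact_mod_cast this
    have h2 : ∀ j ∈ range W, e ((j : ℝ) * ((k : ℝ) / W)) = e ((k : ℝ) / W) ^ j := by
      intro j _
      rw [BA1_e_pow]
    rw [sum_congr rfl h2, geom_sum_eq hne, BA1_e_pow]
    have h3 : (W : ℝ) * ((k : ℝ) / W) = ((k : ℤ) : ℝ) := by field_simp
    rw [h3, BA1_e_int]
    simp

/-- A sum along a progression as a combination of twisted sums over an interval. -/
theorem BA1_prog (u : ℤ → ℂ) (W M : ℕ) (hW : 0 < W) (a : ℤ) (θ : ℝ) :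
    (W : ℂ) * ∑ c ∈ range M, u (a + W * c) * e (c * θ) =
      ∑ j ∈ range W, e (-(a : ℝ) * ((j + θ) / W)) *
        ∑ m ∈ Ico a (a + W * M), u m * e (m * ((j + θ) / W)) := by
  have hW' : (W : ℝ) ≠ 0 := by exact_mod_cast hW.ne'
  have hWi : (0 : ℤ) < W := by exact_mod_cast hW
  have h1 : ∀ j ∈ range W, e (-(a : ℝ) * ((j + θ) / W)) *
        ∑ m ∈ Ico a (a + W * M), u m * e (m * ((j + θ) / W)) =
      ∑ m ∈ Ico a (a + W * M), u m * e (((m - a : ℤ) : ℝ) / W * θ) *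
        e ((j : ℝ) * (((m - a : ℤ) : ℝ) / W)) := by
    intro j _
    rw [mul_sum]
    refine sum_congr rfl fun m _ => ?_
    have : e (-(a : ℝ) * ((j + θ) / W)) * e (m * ((j + θ) / W)) =
        e (((m - a : ℤ) : ℝ) / W * θ) * e ((j : ℝ) * (((m - a : ℤ) : ℝ) / W)) := by
      rw [← BA1_e_add, ← BA1_e_add]
      congr 1
      push_cast
      field_simp
      ring
    calc e (-(a : ℝ) * ((j + θ) / W)) * (u m * e (m * ((j + θ) / W)))
        = u m * (e (-(a : ℝ) * ((j + θ) / W)) * e (m * ((j + θ) / W))) := by ring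
      _ = _ := by rw [this]; ring
  rw [sum_congr rfl h1, sum_comm]
  have h2 : ∀ m ∈ Ico a (a + W * M), ∑ j ∈ range W, u m * e (((m - a : ℤ) : ℝ) / W * θ) *
        e ((j : ℝ) * (((m - a : ℤ) : ℝ) / W)) =
      if (W : ℤ) ∣ m - a then (W : ℂ) * (u m * e (((m - a : ℤ) : ℝ) / W * θ)) else 0 := by
    intro m _
    rw [← mul_sum, BA1_detect W hW (m - a)]
    split_ifs <;> ring
  rw [sum_congr rfl h2, ← sum_filter, mul_sum]
  refine sum_bij (fun c _ => a + W * c) ?_ ?_ ?_ ?_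
  · intro c hc
    rw [mem_range] at hc
    rw [mem_filter, mem_Ico]
    refine ⟨⟨?_, ?_⟩, ?_⟩
    · have : (0 : ℤ) ≤ W * c := by positivity
      linarith
    · have : (c : ℤ) < M := by exact_mod_cast hc
      have := mul_lt_mul_of_pos_left this hWi
      linarith
    · simp
  · intro c _ c' _ h
    have h1 : (W : ℤ) * c = W * c' := by linarith
    have h2 := mul_left_cancel₀ hWi.ne' h1
    exact_mod_cast h2
  · intro m hm
    rw [mem_filter, mem_Ico] at hm
    obtain ⟨⟨hm1, hm2⟩, t, ht⟩ := hm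
    have ht0 : 0 ≤ t := by
      by_contra hneg
      push Not at hneg
      have : (W : ℤ) * t < 0 := mul_neg_of_pos_of_neg hWi hneg
      linarith
    have htM : t < M := by
      have h3 : (W : ℤ) * t < W * M := by linarith
      exact lt_of_mul_lt_mul_left h3 hWi.le
    refine ⟨t.toNat, ?_, ?_⟩
    · rw [mem_range]
      omega
    · have : ((t.toNat : ℕ) : ℤ) = t := Int.toNat_of_nonneg ht0
      rw [this]
      linarith
  · intro c _
    have : (((a + W * c - a : ℤ) : ℝ) / W * θ) = c * θ := by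
      push_cast
      field_simp
      ring
    rw [this]

/-- The exponential sums of `U'' = lp - Lk` along a class: detect `m ≡ b` mod `W` by additive
characters, `(1/W) ∑_{j < W} e(j (m - b)/W)`, and use `fourier_small` for each `j`. -/
theorem class_fourier : ∃ K : ℝ, ∀ Q M W : ℕ, Reg K Q (M * W) → 0 < W → ∀ b : ℕ, b < 2 * W →
    ∀ s ∈ Ico M (2 * M), ∀ θ : ℝ,
    ‖∑ c ∈ range M, ((lp ((b : ℤ) + W * (s + c : ℕ)) -
      Lk Q (M * W / Q ^ 2) ((b : ℤ) + W * (s + c : ℕ)) : ℝ) : ℂ) * e (c * θ)‖ ≤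
      (M * W : ℕ) * (Q : ℝ) ^ (-(1 / 4) : ℝ) := by
  obtain ⟨K, hK⟩ := fourier_small
  refine ⟨K, fun Q M W hR hW b hb s hs θ => ?_⟩
  rw [mem_Ico] at hs
  set u : ℤ → ℂ := fun m => ((lp m - Lk Q (M * W / Q ^ 2) m : ℝ) : ℂ) with hu
  set a : ℤ := (b : ℤ) + W * s with ha
  have hW0 : (0 : ℝ) < W := by exact_mod_cast hW
  have hsum : ∑ c ∈ range M, ((lp ((b : ℤ) + W * (s + c : ℕ)) -
      Lk Q (M * W / Q ^ 2) ((b : ℤ) + W * (s + c : ℕ)) : ℝ) : ℂ) * e (c * θ) =
      ∑ c ∈ range M, u (a + W * c) * e (c * θ) := by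
    refine sum_congr rfl fun c _ => ?_
    have : (b : ℤ) + W * (s + c : ℕ) = a + W * c := by
      rw [ha]; push_cast; ring
    rw [this]
  rw [hsum]
  have hkey := BA1_prog u W M hW a θ
  have hbound : ∀ j ∈ range W, ‖e (-(a : ℝ) * ((j + θ) / W)) *
        ∑ m ∈ Ico a (a + W * M), u m * e (m * ((j + θ) / W))‖ ≤
      (M * W : ℕ) * (Q : ℝ) ^ (-(1 / 4) : ℝ) := by
    intro j _
    rw [norm_mul, BA1_norm_e, one_mul]
    refine hK Q (M * W) hR ((j + θ) / W) a (a + W * M) ?_ ?_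
    · rw [ha]
      have h1 : (M : ℤ) * W ≤ W * s := by
        have : (M : ℤ) ≤ s := by exact_mod_cast hs.1
        nlinarith [this, (by exact_mod_cast hW.le : (0:ℤ) ≤ W)]
      push_cast
      have : (0 : ℤ) ≤ b := by positivity
      linarith
    · rw [ha]
      have h1 : (b : ℤ) < 2 * W := by exact_mod_cast hb
      have h2 : (s : ℤ) + 1 ≤ 2 * M := by exact_mod_cast hs.2
      have h3 : (0 : ℤ) < W := by exact_mod_cast hW
      have h4 : (1 : ℤ) ≤ M := by
        have : M ≤ s := hs.1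
        omega
      push_cast
      nlinarith
  have h1 : ‖(W : ℂ) * ∑ c ∈ range M, u (a + W * c) * e (c * θ)‖ ≤
      W * ((M * W : ℕ) * (Q : ℝ) ^ (-(1 / 4) : ℝ)) := by
    rw [hkey]
    refine (norm_sum_le _ _).trans ((sum_le_sum hbound).trans ?_)
    simp
  rw [norm_mul, Complex.norm_natCast] at h1
  exact le_of_mul_le_mul_left h1 hW0

end Pool.Agent.Lib.H68T
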