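import Pool.Agent.Lib.H68T.DA
import Pool.Agent.Lib.H68T.DB
import Pool.Agent.Lib.H68T.CG1
import Pool.Agent.Lib.H68T.PV
import Pool.Agent.Lib.H68T.BA1

/-!
# Chunk BA2; part of BA: primes in a class modulo `W`: mean and pair correlations
-/

open Finset

namespace Pool.Agent.Lib.H68T

/-- abstract form of the mean -/
theorem BA2_mean (M : ℕ) (g u v d : ℕ → ℝ) (s : ℕ) (r δ D2 E1 E2 μ : ℝ) (hr0 : 0 ≤ r)
    (hr1 : r ≤ 1) (hδ : 0 ≤ δ) (hd : ∀ c ∈ range M, 1 ≤ d (s + c))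
    (hu : ∀ c ∈ range M, |u (s + c)| ≤ δ * d (s + c))
    (hD : ∑ c ∈ range M, d (s + c) ^ 2 ≤ D2) (hE1 : 0 ≤ E1) (hE2 : 0 ≤ E2)
    (hg : μ - E1 ≤ ∑ c ∈ range M, g (s + c)) (hv : |∑ c ∈ range M, v (s + c)| ≤ E2) :
    r * μ - E1 - δ * D2 - E2 ≤ ∑ c ∈ range M, r * (g (s + c) + u (s + c) + v (s + c)) := by
  rw [← mul_sum, sum_add_distrib, sum_add_distrib]
  have h1 : |∑ c ∈ range M, u (s + c)| ≤ δ * D2 := by
    refine (abs_sum_le_sum_abs _ _).trans ?_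
    refine (sum_le_sum hu).trans ?_
    rw [← mul_sum]
    refine mul_le_mul_of_nonneg_left ?_ hδ
    refine le_trans (sum_le_sum fun c hc => ?_) hD
    have := hd c hc
    nlinarith
  have h2 := abs_le.mp h1
  have h3 := abs_le.mp hv
  have hD0 : 0 ≤ δ * D2 := (abs_nonneg _).trans h1
  have h4 : r * (μ - E1) ≤ r * ∑ c ∈ range M, g (s + c) := mul_le_mul_of_nonneg_left hg hr0
  have h5 : r * (-(δ * D2)) ≤ r * ∑ c ∈ range M, u (s + c) :=
    mul_le_mul_of_nonneg_left h2.1 hr0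
  have h6 : r * (-E2) ≤ r * ∑ c ∈ range M, v (s + c) := mul_le_mul_of_nonneg_left h3.1 hr0
  nlinarith [mul_nonneg (sub_nonneg.mpr hr1) hE1, mul_nonneg (sub_nonneg.mpr hr1) hD0,
    mul_nonneg (sub_nonneg.mpr hr1) hE2]

/-- abstract form of the pair correlation -/
theorem BA2_pair (M : ℕ) (g u v d : ℕ → ℝ) (s s' : ℕ) (r δ D2 γ P γ₂ : ℝ) (hr0 : 0 ≤ r)
    (hr1 : r ≤ 1) (hδ : 0 ≤ δ) (hγ : 0 ≤ γ) (hP0 : 0 ≤ P)
    (hd : ∀ c ∈ range M, 1 ≤ d (s + c)) (hd' : ∀ c ∈ range M, 1 ≤ d (s' + c))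
    (hg : ∀ c ∈ range M, |g (s + c)| ≤ γ * d (s + c))
    (hu : ∀ c ∈ range M, |u (s + c)| ≤ δ * d (s + c))
    (hu' : ∀ c ∈ range M, |u (s' + c)| ≤ δ * d (s' + c))
    (hp' : ∀ c ∈ range M, |g (s' + c) + u (s' + c) + v (s' + c)| ≤ P)
    (hD : ∑ c ∈ range M, d (s + c) ^ 2 ≤ D2) (hD' : ∑ c ∈ range M, d (s' + c) ^ 2 ≤ D2)
    (hgg : r ^ 2 * ∑ c ∈ range M, g (s + c) * g (s' + c) ≤ γ₂) :
    ∑ c ∈ range M, (r * (g (s + c) + u (s + c) + v (s + c))) *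
      (r * (g (s' + c) + u (s' + c) + v (s' + c))) ≤
      γ₂ + γ * δ * D2 + δ * P * D2 + (|∑ c ∈ range M, g (s + c) * v (s' + c)| +
        |∑ c ∈ range M, v (s + c) * (g (s' + c) + u (s' + c) + v (s' + c))|) := by
  have hr2 : r ^ 2 ≤ 1 := by nlinarith
  have hr20 : 0 ≤ r ^ 2 := sq_nonneg r
  have e1 : ∑ c ∈ range M, (r * (g (s + c) + u (s + c) + v (s + c))) *
      (r * (g (s' + c) + u (s' + c) + v (s' + c))) =
      r ^ 2 * ∑ c ∈ range M, g (s + c) * g (s' + c) +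
      r ^ 2 * ∑ c ∈ range M, g (s + c) * u (s' + c) +
      r ^ 2 * ∑ c ∈ range M, u (s + c) * (g (s' + c) + u (s' + c) + v (s' + c)) +
      r ^ 2 * (∑ c ∈ range M, g (s + c) * v (s' + c) +
        ∑ c ∈ range M, v (s + c) * (g (s' + c) + u (s' + c) + v (s' + c))) := by
    rw [← sum_add_distrib, mul_sum, mul_sum, mul_sum, mul_sum, ← sum_add_distrib,
      ← sum_add_distrib, ← sum_add_distrib]
    refine sum_congr rfl fun c _ => ?_
    ring
  rw [e1]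
  have h1 : ∑ c ∈ range M, g (s + c) * u (s' + c) ≤ γ * δ * D2 := by
    calc ∑ c ∈ range M, g (s + c) * u (s' + c)
        ≤ ∑ c ∈ range M, γ * δ * ((d (s + c) ^ 2 + d (s' + c) ^ 2) / 2) := by
          refine sum_le_sum fun c hc => ?_
          have a1 := hg c hc
          have a2 := hu' c hc
          have a3 := hd c hc
          have a4 := hd' c hc
          calc g (s + c) * u (s' + c) ≤ |g (s + c) * u (s' + c)| := le_abs_self _
            _ = |g (s + c)| * |u (s' + c)| := abs_mul _ _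
            _ ≤ (γ * d (s + c)) * (δ * d (s' + c)) :=
                mul_le_mul a1 a2 (abs_nonneg _) (by positivity)
            _ = γ * δ * (d (s + c) * d (s' + c)) := by ring
            _ ≤ γ * δ * ((d (s + c) ^ 2 + d (s' + c) ^ 2) / 2) := by
                apply mul_le_mul_of_nonneg_left _ (by positivity)
                nlinarith [sq_nonneg (d (s + c) - d (s' + c))]
      _ = γ * δ * ((∑ c ∈ range M, d (s + c) ^ 2 + ∑ c ∈ range M, d (s' + c) ^ 2) / 2) := by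
          rw [← mul_sum, ← sum_div, sum_add_distrib]
      _ ≤ γ * δ * D2 := by
          apply mul_le_mul_of_nonneg_left _ (by positivity)
          linarith
  have hD20 : 0 ≤ D2 := (sum_nonneg fun c _ => sq_nonneg (d (s + c))).trans hD
  have h2 : ∑ c ∈ range M, u (s + c) * (g (s' + c) + u (s' + c) + v (s' + c)) ≤ δ * P * D2 := by
    calc ∑ c ∈ range M, u (s + c) * (g (s' + c) + u (s' + c) + v (s' + c))
        ≤ ∑ c ∈ range M, δ * P * (d (s + c) ^ 2) := by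
          refine sum_le_sum fun c hc => ?_
          have a1 := hu c hc
          have a2 := hp' c hc
          have a3 := hd c hc
          calc u (s + c) * (g (s' + c) + u (s' + c) + v (s' + c))
              ≤ |u (s + c) * (g (s' + c) + u (s' + c) + v (s' + c))| := le_abs_self _
            _ = |u (s + c)| * |g (s' + c) + u (s' + c) + v (s' + c)| := abs_mul _ _
            _ ≤ (δ * d (s + c)) * P := mul_le_mul a1 a2 (abs_nonneg _) (by positivity)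
            _ = δ * P * d (s + c) := by ring
            _ ≤ δ * P * (d (s + c) ^ 2) := by
                apply mul_le_mul_of_nonneg_left _ (by positivity)
                nlinarith
      _ = δ * P * ∑ c ∈ range M, d (s + c) ^ 2 := by rw [mul_sum]
      _ ≤ δ * P * D2 := mul_le_mul_of_nonneg_left hD (by positivity)
  have h1' : r ^ 2 * ∑ c ∈ range M, g (s + c) * u (s' + c) ≤ γ * δ * D2 := by
    calc r ^ 2 * ∑ c ∈ range M, g (s + c) * u (s' + c) ≤ r ^ 2 * (γ * δ * D2) :=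
          mul_le_mul_of_nonneg_left h1 hr20
      _ ≤ 1 * (γ * δ * D2) := mul_le_mul_of_nonneg_right hr2 (by positivity)
      _ = _ := one_mul _
  have h2' : r ^ 2 * ∑ c ∈ range M, u (s + c) * (g (s' + c) + u (s' + c) + v (s' + c)) ≤
      δ * P * D2 := by
    calc _ ≤ r ^ 2 * (δ * P * D2) := mul_le_mul_of_nonneg_left h2 hr20
      _ ≤ 1 * (δ * P * D2) := mul_le_mul_of_nonneg_right hr2 (by positivity)
      _ = _ := one_mul _
  have h3 : r ^ 2 * (∑ c ∈ range M, g (s + c) * v (s' + c) +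
        ∑ c ∈ range M, v (s + c) * (g (s' + c) + u (s' + c) + v (s' + c))) ≤
      |∑ c ∈ range M, g (s + c) * v (s' + c)| +
        |∑ c ∈ range M, v (s + c) * (g (s' + c) + u (s' + c) + v (s' + c))| := by
    set a := ∑ c ∈ range M, g (s + c) * v (s' + c)
    set b := ∑ c ∈ range M, v (s + c) * (g (s' + c) + u (s' + c) + v (s' + c))
    calc r ^ 2 * (a + b) ≤ r ^ 2 * (|a| + |b|) :=
          mul_le_mul_of_nonneg_left (add_le_add (le_abs_self _) (le_abs_self _)) hr20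
      _ ≤ 1 * (|a| + |b|) := mul_le_mul_of_nonneg_right hr2 (by positivity)
      _ = _ := one_mul _
  linarith

/-- abstract form of the mean square of the error terms -/
theorem BA2_esq (M : ℕ) (hM : 0 < M) (g v p : ℕ → ℝ) (D A B : ℝ)
    (hv : ∀ s ∈ Ico M (2 * M), ∀ θ : ℝ, ‖∑ c ∈ range M, (v (s + c) : ℂ) * e (c * θ)‖ ≤ D)
    (hg : ∑ l ∈ Ico M (3 * M), g l ^ 2 ≤ A) (hp : ∑ l ∈ Ico M (3 * M), p l ^ 2 ≤ B) :
    ∑ s ∈ Ico M (2 * M), ∑ s' ∈ Ico M (2 * M), ((|∑ c ∈ range M, g (s + c) * v (s' + c)| +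
        |∑ c ∈ range M, v (s + c) * p (s' + c)|) / M) ^ 2 ≤ 2 * D ^ 2 * (A + B) / M := by
  have hM0 : (0 : ℝ) < M := by exact_mod_cast hM
  have h1 := corr_sq_le M v p D hv
  have h2 := corr_sq_le M v g D hv
  rw [sum_comm] at h2
  have h3 : ∑ s ∈ Ico M (2 * M), ∑ s' ∈ Ico M (2 * M),
      ((|∑ c ∈ range M, g (s + c) * v (s' + c)| +
        |∑ c ∈ range M, v (s + c) * p (s' + c)|) / M) ^ 2 ≤
      ∑ s ∈ Ico M (2 * M), ∑ s' ∈ Ico M (2 * M),
      (2 / (M : ℝ) ^ 2) * ((∑ c ∈ range M, v (s' + c) * g (s + c)) ^ 2 +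
        (∑ c ∈ range M, v (s + c) * p (s' + c)) ^ 2) := by
    refine sum_le_sum fun s _ => sum_le_sum fun s' _ => ?_
    have e1 : ∑ c ∈ range M, v (s' + c) * g (s + c) = ∑ c ∈ range M, g (s + c) * v (s' + c) :=
      sum_congr rfl fun c _ => mul_comm _ _
    rw [e1, div_pow, div_mul_eq_mul_div]
    apply div_le_div_of_nonneg_right _ (by positivity)
    set a := ∑ c ∈ range M, g (s + c) * v (s' + c)
    set b := ∑ c ∈ range M, v (s + c) * p (s' + c)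
    have := sq_abs a
    have := sq_abs b
    nlinarith [sq_nonneg (|a| - |b|)]
  refine h3.trans ?_
  have h4 : ∑ s ∈ Ico M (2 * M), ∑ s' ∈ Ico M (2 * M),
      (2 / (M : ℝ) ^ 2) * ((∑ c ∈ range M, v (s' + c) * g (s + c)) ^ 2 +
        (∑ c ∈ range M, v (s + c) * p (s' + c)) ^ 2) =
      (2 / (M : ℝ) ^ 2) * (∑ s ∈ Ico M (2 * M), ∑ s' ∈ Ico M (2 * M),
        (∑ c ∈ range M, v (s' + c) * g (s + c)) ^ 2 +
        ∑ s ∈ Ico M (2 * M), ∑ s' ∈ Ico M (2 * M),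
        (∑ c ∈ range M, v (s + c) * p (s' + c)) ^ 2) := by
    rw [← sum_add_distrib, mul_sum]
    refine sum_congr rfl fun s _ => ?_
    rw [← sum_add_distrib, mul_sum]
  rw [h4]
  have h5 : (2 / (M : ℝ) ^ 2) * (∑ s ∈ Ico M (2 * M), ∑ s' ∈ Ico M (2 * M),
        (∑ c ∈ range M, v (s' + c) * g (s + c)) ^ 2 +
        ∑ s ∈ Ico M (2 * M), ∑ s' ∈ Ico M (2 * M),
        (∑ c ∈ range M, v (s + c) * p (s' + c)) ^ 2) ≤
      (2 / (M : ℝ) ^ 2) * (M * D ^ 2 * A + M * D ^ 2 * B) := by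
    apply mul_le_mul_of_nonneg_left _ (by positivity)
    refine add_le_add (h2.trans ?_) (h1.trans ?_)
    · exact mul_le_mul_of_nonneg_left hg (by positivity)
    · exact mul_le_mul_of_nonneg_left hp (by positivity)
  refine h5.trans (le_of_eq ?_)
  field_simp

theorem BA2_lp_bounds (m : ℤ) (Z : ℝ) (hm : 1 ≤ m) (hZ : (m : ℝ) ≤ Z) :
    0 ≤ lp m ∧ lp m ≤ Real.log Z := by
  have h1 : (1 : ℝ) ≤ m := by exact_mod_cast hm
  have h2 : 0 ≤ Real.log m := Real.log_nonneg h1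
  have h3 : Real.log m ≤ Real.log Z := Real.log_le_log (by linarith) hZ
  unfold lp
  split_ifs
  · exact ⟨h2, h3⟩
  · exact ⟨le_refl _, h2.trans h3⟩

/-- **Correlations of primes along a class.** `X = M W`, `m(l) = b + W l ∈ [X, 4X)` for
`l ∈ [M, 3M)` (`b < 2W`, `W ≤ X`). Write `U' = Lk - G`, `U'' = lp - Lk`, so `lp = G + U' + U''`;
`|U'| ≤ L^(-A) dQ` (`structured`), `|G| ≤ 10 (1+log Q)² dQ`.
Mean: `G_mean`, `dQ ≤ dQ²` and `dQ_moment` for `U'`, `class_fourier` with `θ = 0` for `U''`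
(`W Q^(-1/4) ≤ Q^(-1/5)`). Note `(φ(W)/W) ≤ 1`, and `Q² ≤ M/(log X)²`.
Pairs: `lp lp' = G G' + G U'_{'} + G U''_{'} + U' lp' + U'' lp'`. First term: `G_pair`, times
`(φ(W)/W)²`. Second and fourth: at most `L^(-A) · 10 (1+log Q)² (dQ² + dQ'²)`, resp.
`L^(-A) log(4X) dQ`, summed by `dQ_moment`. Third and fifth: put
`e s s' = (1/M) |∑_c G(m) U''(m')| + (1/M) |∑_c U''(m) lp(m')|`, and use `corr_sq_le` twice (once
with the roles of `s, s'` exchanged), `D = M W Q^(-1/4)`,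
`∑_{l ∈ [M,3M)} G(b + W l)² ≤ 100 (1 + log Q)^4 (2 M (1+log Q)^3 + 2 Q²)`, `lp² ≤ log²(4X)`:
`∑ e² ≤ 2 · M^(-2) · M (M W)² Q^(-1/2) · (2M) (log X)^10 ≤ M² Q^(-1/4)` as `W² ≤ Q^(1/50)`. -/
theorem class_corr (c : ℝ) (hc : 0 < c) : ∃ K : ℝ, ∀ Q M W : ℕ, Reg K Q (M * W) → Good c Q →
    0 < W → W ^ 100 ≤ Q → ∀ b : ℕ, b < 2 * W → Nat.Coprime b W →
    (∀ s ∈ Ico M (2 * M), (1 - 1 / Real.log (M * W : ℕ)) * M ≤ ∑ c ∈ range M, fW W b (s + c)) ∧
    ∃ e : ℕ → ℕ → ℝ, (∀ s s', 0 ≤ e s s') ∧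
      ∑ s ∈ Ico M (2 * M), ∑ s' ∈ Ico M (2 * M), (e s s') ^ 2 ≤
        (M : ℝ) ^ 2 * (Q : ℝ) ^ (-(1 / 4) : ℝ) ∧
      ∀ s ∈ Ico M (2 * M), ∀ s' ∈ Ico M (2 * M), s ≠ s' →
        ∑ c ∈ range M, fW W b (s + c) * fW W b (s' + c) ≤
          M * (G0 Q W * gp Q W ((s : ℤ) - s') + 1 / Real.log (M * W : ℕ) + e s s') := by
  obtain ⟨K1, hK1⟩ := structured c hc 10
  obtain ⟨K2, hK2⟩ := class_fourier
  obtain ⟨K3, hK3, hK3'⟩ := reg_log_le 4 1 (1 / 8) (by norm_num)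
  obtain ⟨K4, hK4, hK4'⟩ := reg_log_le 816 7 (1 / 8) (by norm_num)
  obtain ⟨K5, hK5, hK5'⟩ := reg_pow_le 4 6 1 (by norm_num)
  refine ⟨|K1| + |K2| + K3 + K4 + K5 + 1000, fun Q M W hR hG hW hWQ b hb hbW => ?_⟩
  set K := |K1| + |K2| + K3 + K4 + K5 + 1000 with hK
  have a1 := abs_nonneg K1
  have a2 := abs_nonneg K2
  have b1 := le_abs_self K1
  have b2 := le_abs_self K2
  have hK0 : (0 : ℝ) ≤ K := by linarith
  have hK1' : (1 : ℝ) ≤ K := by linarith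
  have hKp : (0 : ℝ) < K := by linarith
  have R1 := hR.mono (K' := K1) hK0 (by linarith)
  have R2 := hR.mono (K' := K2) hK0 (by linarith)
  have R3 := hR.mono (K' := K3) hK0 (by linarith)
  have R4 := hR.mono (K' := K4) hK0 (by linarith)
  have R5 := hR.mono (K' := K5) hK0 (by linarith)
  set X := M * W with hX
  have hlX : 1000 ≤ Real.log X := by
    have h1 := hR.logX_ge hKp
    have h2 := Real.add_one_le_exp K
    linarith
  have hlX0 : 0 < Real.log X := by linarith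
  have hQge : (1000 : ℝ) ≤ Q := by
    have := hR.Q_ge hK1'
    linarith
  have hQ0 : (0 : ℝ) < Q := by linarith
  have hQ1 : 1 ≤ Q := hR.Q_pos hK1'
  have hlogQ : 1000 ≤ Real.log Q := by
    have := hR.logQ_ge hK1'
    linarith
  have hlQX : 1 + Real.log Q ≤ Real.log X := by
    have h1 := hR.logQ_le hK1'
    nlinarith
  have hX0 : 0 < X := hR.X_pos hKp
  have hXr : (0 : ℝ) < X := by exact_mod_cast hX0
  have hM0 : 0 < M := by
    rcases Nat.eq_zero_or_pos M with h | h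
    · rw [hX, h, zero_mul] at hX0; omega
    · exact h
  have hMr : (0 : ℝ) < M := by exact_mod_cast hM0
  have hWr : (0 : ℝ) < W := by exact_mod_cast hW
  have hXMW : (X : ℝ) = M * W := by rw [hX]; push_cast; ring
  have hWleQ : W ≤ Q := by
    calc W = W ^ 1 := (pow_one _).symm
      _ ≤ W ^ 100 := Nat.pow_le_pow_right hW (by norm_num)
      _ ≤ Q := hWQ
  have hWleQr : (W : ℝ) ≤ Q := by exact_mod_cast hWleQ
  set ℓ := Real.log X with hℓ
  -- basic size estimates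
  have hℓQ : 4 * ℓ ≤ (Q : ℝ) ^ (1 / 8 : ℝ) := by
    have := hK3' Q X R3
    rwa [Real.rpow_one] at this
  have hℓQ' : ℓ ≤ Q := by
    have h1 : (Q : ℝ) ^ (1 / 8 : ℝ) ≤ (Q : ℝ) ^ (1 : ℝ) :=
      Real.rpow_le_rpow_of_exponent_le (by linarith) (by norm_num)
    rw [Real.rpow_one] at h1
    linarith
  have hℓ7 : 816 * ℓ ^ 7 ≤ (Q : ℝ) ^ (1 / 8 : ℝ) := by
    have := hK4' Q X R4
    have e1 : ℓ ^ (7 : ℝ) = ℓ ^ (7 : ℕ) := by
      rw [← Real.rpow_natCast]; norm_num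
    rwa [e1] at this
  have hQX : 4 * (Q : ℝ) ^ 6 ≤ X := by
    have := hK5' Q X R5
    have e1 : (Q : ℝ) ^ (6 : ℝ) = (Q : ℝ) ^ (6 : ℕ) := by
      rw [← Real.rpow_natCast]; norm_num
    rwa [e1, Real.rpow_one] at this
  have hWQ' : (W : ℝ) ≤ (Q : ℝ) ^ (1 / 100 : ℝ) := by
    have h1 : ((W : ℝ) ^ 100) ≤ Q := by exact_mod_cast hWQ
    calc (W : ℝ) = ((W : ℝ) ^ (100 : ℕ)) ^ (1 / 100 : ℝ) := by
          rw [← Real.rpow_natCast, ← Real.rpow_mul hWr.le]; norm_num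
      _ ≤ (Q : ℝ) ^ (1 / 100 : ℝ) := Real.rpow_le_rpow (by positivity) h1 (by norm_num)
  have hQ4M : 4 * ℓ * (Q : ℝ) ^ 4 ≤ M := by
    have h1 : 4 * ℓ * (Q : ℝ) ^ 4 * W ≤ M * W := by
      calc 4 * ℓ * (Q : ℝ) ^ 4 * W ≤ 4 * Q * (Q : ℝ) ^ 4 * Q := by gcongr
        _ = 4 * (Q : ℝ) ^ 6 := by ring
        _ ≤ X := hQX
        _ = M * W := hXMW
    exact le_of_mul_le_mul_right h1 hWr
  have hQ2M : 4 * ℓ * (Q : ℝ) ^ 2 ≤ M := by
    refine le_trans ?_ hQ4M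
    have : (Q : ℝ) ^ 2 ≤ (Q : ℝ) ^ 4 := pow_le_pow_right₀ (by linarith) (by norm_num)
    gcongr
  -- the pieces
  set mm : ℕ → ℤ := fun l => (b : ℤ) + W * (l : ℕ) with hmm
  set Y := X / Q ^ 2 with hY
  set g : ℕ → ℝ := fun l => G Q (mm l) with hgdef
  set u : ℕ → ℝ := fun l => Lk Q Y (mm l) - G Q (mm l) with hudef
  set v : ℕ → ℝ := fun l => lp (mm l) - Lk Q Y (mm l) with hvdef
  set d : ℕ → ℝ := fun l => dQ Q (mm l) with hddef
  set r : ℝ := (Nat.totient W : ℝ) / (W : ℝ) with hr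
  have hφ0 : (0 : ℝ) < Nat.totient W := by exact_mod_cast Nat.totient_pos.mpr hW
  have hr0 : 0 < r := div_pos hφ0 hWr
  have hr1 : r ≤ 1 := by
    rw [hr, div_le_one hWr]
    exact_mod_cast Nat.totient_le W
  have hsum : ∀ l, fW W b l = r * (g l + u l + v l) := by
    intro l
    simp only [fW, hgdef, hudef, hvdef, hmm, hr]
    ring
  have hrange : ∀ l, M ≤ l → l < 3 * M → (X : ℤ) ≤ mm l ∧ mm l ≤ 4 * X := by
    intro l hl1 hl2
    have h1 : (X : ℤ) = (M : ℤ) * W := by rw [hX]; push_cast; ring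
    have h2 : (M : ℤ) ≤ l := by exact_mod_cast hl1
    have h3 : (l : ℤ) + 1 ≤ 3 * M := by exact_mod_cast hl2
    have h4 : (0 : ℤ) < W := by exact_mod_cast hW
    have h5 : (b : ℤ) < 2 * W := by exact_mod_cast hb
    have h6 : (1 : ℤ) ≤ M := by exact_mod_cast hM0
    simp only [hmm]
    constructor
    · rw [h1]; nlinarith
    · rw [h1]; nlinarith
  have hd1 : ∀ l, 1 ≤ d l := fun l => one_le_dQ Q hQ1 _
  have hg : ∀ l, |g l| ≤ 10 * ℓ ^ 2 * d l := by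
    intro l
    refine (abs_G_le Q (mm l)).trans ?_
    have h1 : (1 + Real.log Q) ^ 2 ≤ ℓ ^ 2 := by
      apply pow_le_pow_left₀ (by linarith) hlQX
    have : 10 * (1 + Real.log Q) ^ 2 ≤ 10 * ℓ ^ 2 := by linarith
    exact mul_le_mul_of_nonneg_right this (by linarith [hd1 l])
  set δ : ℝ := ℓ ^ (-10 : ℝ) with hδ
  have hδ0 : 0 < δ := Real.rpow_pos_of_pos hlX0 _
  have hδ10 : δ * ℓ ^ 10 = 1 := by
    have e1 : ℓ ^ (10 : ℕ) = ℓ ^ (10 : ℝ) := by rw [← Real.rpow_natCast]; norm_num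
    rw [hδ, e1, ← Real.rpow_add hlX0]; norm_num
  have hu : ∀ l, M ≤ l → l < 3 * M → |u l| ≤ δ * d l := by
    intro l h1 h2
    obtain ⟨h3, h4⟩ := hrange l h1 h2
    exact hK1 Q X R1 hG (mm l) h3 h4
  have hp : ∀ l, M ≤ l → l < 3 * M → 0 ≤ g l + u l + v l ∧ g l + u l + v l ≤ 2 * ℓ := by
    intro l h1 h2
    obtain ⟨h3, h4⟩ := hrange l h1 h2
    have e1 : g l + u l + v l = lp (mm l) := by
      simp only [hgdef, hudef, hvdef]; ring
    rw [e1]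
    have h5 : (1 : ℤ) ≤ mm l := by
      have : (1 : ℤ) ≤ X := by exact_mod_cast hX0
      linarith
    obtain ⟨h6, h7⟩ := BA2_lp_bounds (mm l) (4 * X) h5 (by exact_mod_cast h4)
    refine ⟨h6, h7.trans ?_⟩
    rw [Real.log_mul (by norm_num) hXr.ne']
    have : Real.log 4 ≤ 4 := by
      have := Real.log_le_sub_one_of_pos (show (0 : ℝ) < 4 by norm_num)
      linarith
    linarith
  have hdm : ∀ s, ∑ c ∈ range M, d (s + c) ^ 2 ≤ 2 * M * ℓ ^ 3 := by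
    intro s
    have h1 := dQ_moment Q M W b s hW hbW
    have e1 : ∑ c ∈ range M, d (s + c) ^ 2 =
        ∑ c ∈ range M, (dQ Q ((b : ℤ) + W * (s + c : ℕ))) ^ 2 := rfl
    rw [e1]
    refine h1.trans ?_
    have h2 : (1 + Real.log Q) ^ 3 ≤ ℓ ^ 3 := pow_le_pow_left₀ (by linarith) hlQX _
    have h3 : (M : ℝ) * (1 + Real.log Q) ^ 3 ≤ M * ℓ ^ 3 := mul_le_mul_of_nonneg_left h2 hMr.le
    have h4 : (Q : ℝ) ^ 2 ≤ M := by
      have : (Q : ℝ) ^ 2 * 1 ≤ (Q : ℝ) ^ 2 * (4 * ℓ) :=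
        mul_le_mul_of_nonneg_left (by linarith) (by positivity)
      linarith
    have h5 : (1 : ℝ) ≤ ℓ ^ 3 := one_le_pow₀ (by linarith)
    have h6 : (M : ℝ) * 1 ≤ M * ℓ ^ 3 := mul_le_mul_of_nonneg_left h5 hMr.le
    linarith
  have hD : ∀ s ∈ Ico M (2 * M), ∀ θ : ℝ,
      ‖∑ c ∈ range M, (v (s + c) : ℂ) * e (c * θ)‖ ≤ X * (Q : ℝ) ^ (-(1 / 4) : ℝ) := by
    intro s hs θ
    exact hK2 Q M W R2 hW b hb s hs θ
  have hδe1 : 8 * (δ * ℓ ^ 4) ≤ 1 := by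
    have h1 : (8 : ℝ) ≤ ℓ ^ 6 := by
      calc (8 : ℝ) ≤ ℓ := by linarith
        _ = ℓ ^ 1 := (pow_one _).symm
        _ ≤ ℓ ^ 6 := pow_le_pow_right₀ (by linarith) (by norm_num)
    calc 8 * (δ * ℓ ^ 4) ≤ ℓ ^ 6 * (δ * ℓ ^ 4) := mul_le_mul_of_nonneg_right h1 (by positivity)
      _ = δ * ℓ ^ 10 := by ring
      _ = 1 := hδ10
  have hδe2 : 48 * (δ * ℓ ^ 6) ≤ 1 := by
    have h1 : (48 : ℝ) ≤ ℓ ^ 4 := by
      calc (48 : ℝ) ≤ ℓ := by linarith
        _ = ℓ ^ 1 := (pow_one _).symm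
        _ ≤ ℓ ^ 4 := pow_le_pow_right₀ (by linarith) (by norm_num)
    calc 48 * (δ * ℓ ^ 6) ≤ ℓ ^ 4 * (δ * ℓ ^ 6) := mul_le_mul_of_nonneg_right h1 (by positivity)
      _ = δ * ℓ ^ 10 := by ring
      _ = 1 := hδ10
  have hWQ4 : 4 * ℓ * (W * (Q : ℝ) ^ (-(1 / 4) : ℝ)) ≤ 1 := by
    calc 4 * ℓ * (W * (Q : ℝ) ^ (-(1 / 4) : ℝ)) ≤
          (Q : ℝ) ^ (1 / 8 : ℝ) * ((Q : ℝ) ^ (1 / 100 : ℝ) * (Q : ℝ) ^ (-(1 / 4) : ℝ)) := by
          gcongr
      _ = (Q : ℝ) ^ (1 / 8 + (1 / 100 + -(1 / 4)) : ℝ) := by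
          rw [← Real.rpow_add hQ0, ← Real.rpow_add hQ0]
      _ ≤ 1 := Real.rpow_le_one_of_one_le_of_nonpos (by linarith) (by norm_num)
  refine ⟨?_, fun s s' => (|∑ c ∈ range M, g (s + c) * v (s' + c)| +
        |∑ c ∈ range M, v (s + c) * (g (s' + c) + u (s' + c) + v (s' + c))|) / M, ?_, ?_, ?_⟩
  · -- mean
    intro s hs
    have hs' := mem_Ico.mp hs
    have e1 : ∑ c ∈ range M, fW W b (s + c) =
        ∑ c ∈ range M, r * (g (s + c) + u (s + c) + v (s + c)) :=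
      sum_congr rfl fun c _ => hsum (s + c)
    rw [e1]
    have hgm := G_mean Q M W b s hW hWleQ hbW
    have hv0 : |∑ c ∈ range M, v (s + c)| ≤ X * (Q : ℝ) ^ (-(1 / 4) : ℝ) := by
      have h1 := hD s hs 0
      have h2 : ∑ c ∈ range M, (v (s + c) : ℂ) * e (c * 0) =
          ((∑ c ∈ range M, v (s + c) : ℝ) : ℂ) := by
        rw [Complex.ofReal_sum]
        refine sum_congr rfl fun c _ => ?_
        have : e ((c : ℝ) * 0) = 1 := by
          unfold e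
          simp
        rw [this, mul_one]
      rw [h2, Complex.norm_real, Real.norm_eq_abs] at h1
      exact h1
    have h1 := BA2_mean M g u v d s r δ (2 * M * ℓ ^ 3) ((Q : ℝ) ^ 2)
      (X * (Q : ℝ) ^ (-(1 / 4) : ℝ)) (M * ((W : ℝ) / Nat.totient W)) hr0.le hr1 hδ0.le
      (fun c _ => hd1 _) (fun c hc => hu _ (by omega) (by have := mem_range.mp hc; omega))
      (hdm s) (by positivity) (by positivity) hgm hv0
    refine le_trans ?_ h1
    have e2 : r * (M * ((W : ℝ) / Nat.totient W)) = M := by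
      rw [hr]; field_simp
    rw [e2]
    have e3 : (1 - 1 / ℓ) * (M : ℝ) = M - M / ℓ := by ring
    rw [e3]
    have h2 : (Q : ℝ) ^ 2 ≤ M / ℓ / 4 := by
      rw [div_div, le_div_iff₀ (by positivity)]
      linarith
    have h3 : δ * (2 * M * ℓ ^ 3) ≤ M / ℓ / 4 := by
      rw [div_div, le_div_iff₀ (by positivity)]
      have := mul_le_mul_of_nonneg_left hδe1 hMr.le
      calc δ * (2 * M * ℓ ^ 3) * (ℓ * 4) = (M : ℝ) * (8 * (δ * ℓ ^ 4)) := by ring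
        _ ≤ (M : ℝ) * 1 := this
        _ = M := mul_one _
    have h4 : X * (Q : ℝ) ^ (-(1 / 4) : ℝ) ≤ M / ℓ / 4 := by
      rw [div_div, le_div_iff₀ (by positivity), hXMW]
      have := mul_le_mul_of_nonneg_left hWQ4 hMr.le
      calc (M : ℝ) * W * (Q : ℝ) ^ (-(1 / 4) : ℝ) * (ℓ * 4) =
            M * (4 * ℓ * (W * (Q : ℝ) ^ (-(1 / 4) : ℝ))) := by ring
        _ ≤ M * 1 := this
        _ = M := mul_one _
    have h5 : 0 ≤ M / ℓ := by positivity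
    linarith
  · intro s s'
    positivity
  · -- mean square
    have hgs : ∑ l ∈ Ico M (3 * M), g l ^ 2 ≤ 400 * M * ℓ ^ 7 := by
      have h1 : ∑ l ∈ Ico M (3 * M), g l ^ 2 ≤ ∑ l ∈ Ico M (3 * M), 100 * ℓ ^ 4 * d l ^ 2 := by
        refine sum_le_sum fun l _ => ?_
        have := hg l
        have h2 : g l ^ 2 ≤ (10 * ℓ ^ 2 * d l) ^ 2 := by
          rw [← sq_abs (g l)]
          exact pow_le_pow_left₀ (abs_nonneg _) this 2
        calc g l ^ 2 ≤ (10 * ℓ ^ 2 * d l) ^ 2 := h2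
          _ = 100 * ℓ ^ 4 * d l ^ 2 := by ring
      have h2 : ∑ l ∈ Ico M (3 * M), d l ^ 2 = ∑ c ∈ range M, d (M + c) ^ 2 +
          ∑ c ∈ range M, d (2 * M + c) ^ 2 := by
        rw [← sum_Ico_consecutive _ (show M ≤ 2 * M by omega) (show 2 * M ≤ 3 * M by omega),
          sum_Ico_eq_sum_range, sum_Ico_eq_sum_range]
        have e1 : 2 * M - M = M := by omega
        have e2 : 3 * M - 2 * M = M := by omega
        rw [e1, e2]
      rw [← mul_sum, h2] at h1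
      have h3 := hdm M
      have h4 := hdm (2 * M)
      calc ∑ l ∈ Ico M (3 * M), g l ^ 2 ≤ _ := h1
        _ ≤ 100 * ℓ ^ 4 * (2 * M * ℓ ^ 3 + 2 * M * ℓ ^ 3) := by gcongr
        _ = 400 * M * ℓ ^ 7 := by ring
    have hps : ∑ l ∈ Ico M (3 * M), (g l + u l + v l) ^ 2 ≤ 8 * M * ℓ ^ 7 := by
      calc ∑ l ∈ Ico M (3 * M), (g l + u l + v l) ^ 2 ≤ ∑ l ∈ Ico M (3 * M), (2 * ℓ) ^ 2 := by
            refine sum_le_sum fun l hl => ?_
            have hl' := mem_Ico.mp hl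
            obtain ⟨h1, h2⟩ := hp l hl'.1 hl'.2
            exact pow_le_pow_left₀ h1 h2 2
        _ = 2 * M * (2 * ℓ) ^ 2 := by
            rw [sum_const, Nat.card_Ico, nsmul_eq_mul]
            have : 3 * M - M = 2 * M := by omega
            rw [this]
            push_cast
            ring
        _ = 8 * M * ℓ ^ 2 := by ring
        _ ≤ 8 * M * ℓ ^ 7 := by
            have : ℓ ^ 2 ≤ ℓ ^ 7 := pow_le_pow_right₀ (by linarith) (by norm_num)
            gcongr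
    have h1 := BA2_esq M hM0 g v (fun l => g l + u l + v l) (X * (Q : ℝ) ^ (-(1 / 4) : ℝ))
      (400 * M * ℓ ^ 7) (8 * M * ℓ ^ 7) hD hgs hps
    refine h1.trans ?_
    have e1 : ((Q : ℝ) ^ (-(1 / 4) : ℝ)) ^ 2 = (Q : ℝ) ^ (-(1 / 4) : ℝ) * (Q : ℝ) ^ (-(1 / 4) : ℝ) :=
      sq _
    have e2 : 2 * (X * (Q : ℝ) ^ (-(1 / 4) : ℝ)) ^ 2 * (400 * M * ℓ ^ 7 + 8 * M * ℓ ^ 7) / M =
        (M : ℝ) ^ 2 * (Q : ℝ) ^ (-(1 / 4) : ℝ) *
          (816 * ℓ ^ 7 * ((W : ℝ) * W * (Q : ℝ) ^ (-(1 / 4) : ℝ))) := by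
      rw [mul_pow, e1, hXMW]
      field_simp
      ring
    rw [e2]
    have h2 : 816 * ℓ ^ 7 * ((W : ℝ) * W * (Q : ℝ) ^ (-(1 / 4) : ℝ)) ≤ 1 := by
      calc 816 * ℓ ^ 7 * ((W : ℝ) * W * (Q : ℝ) ^ (-(1 / 4) : ℝ)) ≤
            (Q : ℝ) ^ (1 / 8 : ℝ) * ((Q : ℝ) ^ (1 / 100 : ℝ) * (Q : ℝ) ^ (1 / 100 : ℝ) *
              (Q : ℝ) ^ (-(1 / 4) : ℝ)) := by gcongr
        _ = (Q : ℝ) ^ (1 / 8 + (1 / 100 + 1 / 100 + -(1 / 4)) : ℝ) := by
            rw [← Real.rpow_add hQ0, ← Real.rpow_add hQ0, ← Real.rpow_add hQ0]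
        _ ≤ 1 := Real.rpow_le_one_of_one_le_of_nonpos (by linarith) (by norm_num)
    calc (M : ℝ) ^ 2 * (Q : ℝ) ^ (-(1 / 4) : ℝ) *
          (816 * ℓ ^ 7 * ((W : ℝ) * W * (Q : ℝ) ^ (-(1 / 4) : ℝ))) ≤
          (M : ℝ) ^ 2 * (Q : ℝ) ^ (-(1 / 4) : ℝ) * 1 :=
          mul_le_mul_of_nonneg_left h2 (by positivity)
      _ = _ := mul_one _
  · -- pairs
    intro s hs s' hs' hss
    have hs1 := mem_Ico.mp hs
    have hs2 := mem_Ico.mp hs'
    have e1 : ∑ c ∈ range M, fW W b (s + c) * fW W b (s' + c) =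
        ∑ c ∈ range M, (r * (g (s + c) + u (s + c) + v (s + c))) *
          (r * (g (s' + c) + u (s' + c) + v (s' + c))) :=
      sum_congr rfl fun c _ => by rw [hsum, hsum]
    rw [e1]
    have hgp := G_pair Q M W b s s' hW hbW hss
    have hgg : r ^ 2 * ∑ c ∈ range M, g (s + c) * g (s' + c) ≤
        M * (G0 Q W * gp Q W ((s : ℤ) - s')) + (Q : ℝ) ^ 4 := by
      have h1 : r ^ 2 * ∑ c ∈ range M, g (s + c) * g (s' + c) ≤
          r ^ 2 * (M * (((W : ℝ) / Nat.totient W) ^ 2 * (G0 Q W * gp Q W ((s : ℤ) - s'))) +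
            (Q : ℝ) ^ 4) := mul_le_mul_of_nonneg_left hgp (sq_nonneg r)
      refine h1.trans ?_
      have e2 : r ^ 2 * ((W : ℝ) / Nat.totient W) ^ 2 = 1 := by
        rw [← mul_pow, hr]
        have : (Nat.totient W : ℝ) / W * ((W : ℝ) / Nat.totient W) = 1 := by field_simp
        rw [this, one_pow]
      have e3 : r ^ 2 * (M * (((W : ℝ) / Nat.totient W) ^ 2 *
          (G0 Q W * gp Q W ((s : ℤ) - s'))) + (Q : ℝ) ^ 4) =
          (r ^ 2 * ((W : ℝ) / Nat.totient W) ^ 2) * (M * (G0 Q W * gp Q W ((s : ℤ) - s'))) +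
            r ^ 2 * (Q : ℝ) ^ 4 := by ring
      rw [e3, e2, one_mul]
      have h2 : r ^ 2 ≤ 1 := by nlinarith
      have h3 : r ^ 2 * (Q : ℝ) ^ 4 ≤ 1 * (Q : ℝ) ^ 4 :=
        mul_le_mul_of_nonneg_right h2 (by positivity)
      linarith
    have h1 := BA2_pair M g u v d s s' r δ (2 * M * ℓ ^ 3) (10 * ℓ ^ 2) (2 * ℓ)
      (M * (G0 Q W * gp Q W ((s : ℤ) - s')) + (Q : ℝ) ^ 4)
      hr0.le hr1 hδ0.le (by positivity) (by positivity) (fun c _ => hd1 _) (fun c _ => hd1 _)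
      (fun c _ => hg _) (fun c hc => hu _ (by omega) (by have := mem_range.mp hc; omega))
      (fun c hc => hu _ (by omega) (by have := mem_range.mp hc; omega))
      (fun c hc => by
        obtain ⟨h2, h3⟩ := hp (s' + c) (by omega) (by have := mem_range.mp hc; omega)
        rw [abs_of_nonneg h2]; exact h3) (hdm s) (hdm s') hgg
    refine h1.trans ?_
    set E := (|∑ c ∈ range M, g (s + c) * v (s' + c)| +
        |∑ c ∈ range M, v (s + c) * (g (s' + c) + u (s' + c) + v (s' + c))|) with hE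
    have e4 : (M : ℝ) * (E / M) = E := by field_simp
    have e5 : (M : ℝ) * (G0 Q W * gp Q W ((s : ℤ) - s') + 1 / ℓ + E / M) =
        M * (G0 Q W * gp Q W ((s : ℤ) - s')) + M / ℓ + E := by
      rw [mul_add, mul_add, e4]; ring
    rw [e5]
    have h2 : (Q : ℝ) ^ 4 ≤ M / ℓ / 4 := by
      rw [div_div, le_div_iff₀ (by positivity)]
      linarith
    have h3 : 10 * ℓ ^ 2 * δ * (2 * M * ℓ ^ 3) + δ * (2 * ℓ) * (2 * M * ℓ ^ 3) ≤ M / ℓ / 2 := by
      rw [div_div, le_div_iff₀ (by positivity)]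
      have h4 : δ * ℓ ^ 5 ≤ δ * ℓ ^ 6 :=
        mul_le_mul_of_nonneg_left (pow_le_pow_right₀ (by linarith) (by norm_num)) hδ0.le
      have h5 := mul_le_mul_of_nonneg_left hδe2 hMr.le
      calc (10 * ℓ ^ 2 * δ * (2 * M * ℓ ^ 3) + δ * (2 * ℓ) * (2 * M * ℓ ^ 3)) * (ℓ * 2) =
            (M : ℝ) * (40 * (δ * ℓ ^ 6) + 8 * (δ * ℓ ^ 5)) := by ring
        _ ≤ M * (40 * (δ * ℓ ^ 6) + 8 * (δ * ℓ ^ 6)) := by gcongr
        _ = M * (48 * (δ * ℓ ^ 6)) := by ring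
        _ ≤ M * 1 := h5
        _ = M := mul_one _
    have h6 : 0 ≤ M / ℓ := by positivity
    linarith

end Pool.Agent.Lib.H68T
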