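import Pool.Agent.Lib.H68T.RegL

/-!
# Chunk FIN, part 1: choice of the parameters
-/

open Finset Filter Real

namespace Pool.Agent.Lib.H68T

theorem ev_rpow (C p q : ℝ) (h : p < q) : ∀ᶠ L : ℝ in atTop, C * L ^ p ≤ L ^ q := by
  have h1 : Tendsto (fun L : ℝ => L ^ (q - p)) atTop atTop := tendsto_rpow_atTop (by linarith)
  filter_upwards [h1.eventually (eventually_ge_atTop C), eventually_gt_atTop (0:ℝ)] with L hL hL0
  calc C * L ^ p ≤ L ^ (q - p) * L ^ p := mul_le_mul_of_nonneg_right hL (rpow_nonneg hL0.le _)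
    _ = L ^ q := by rw [← rpow_add hL0]; ring_nf

theorem ev_log (C r : ℝ) (h : 0 < r) : ∀ᶠ L : ℝ in atTop, C * Real.log L ≤ L ^ r := by
  have h1 := (isLittleO_log_rpow_atTop h).bound (c := (|C| + 1)⁻¹) (by positivity)
  filter_upwards [h1, eventually_ge_atTop (1:ℝ)] with L hL hL1
  have hL0 : 0 < L := by linarith
  rw [Real.norm_of_nonneg (Real.log_nonneg hL1), Real.norm_of_nonneg (rpow_nonneg hL0.le _)] at hL
  have hlog := Real.log_nonneg hL1
  have hC : C ≤ |C| + 1 := by linarith [le_abs_self C]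
  calc C * Real.log L ≤ (|C| + 1) * Real.log L := mul_le_mul_of_nonneg_right hC hlog
    _ ≤ (|C| + 1) * ((|C| + 1)⁻¹ * L ^ r) := mul_le_mul_of_nonneg_left hL (by positivity)
    _ = L ^ r := by
        rw [← mul_assoc, mul_inv_cancel₀ (by positivity), one_mul]

/-- The asymptotic inequalities used in the choice of the parameters. -/
structure Big (δ K L : ℝ) : Prop where
  L2 : 100 ≤ L
  e1 : |K| ≤ Real.log ((1 - δ) * L / 2)
  e2 : |K| * Real.log L ≤ L ^ (1 - δ / 2)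
  e3 : |K| * (L ^ (1 - δ / 2) * Real.log L) ≤ (1 - δ) * L / 2
  e4 : 139 * L ^ (1 - 3 * δ / 4) ≤ L ^ (1 - δ / 2)
  e5 : 16 * L ^ (1 - δ) + 1 ≤ L ^ (1 - 3 * δ / 4)
  e5' : 1 / 2 * L ^ (1 - 3 * δ / 4) + 1 ≤ L ^ (1 - 3 * δ / 4)
  e6 : 16 * L ^ (1 - δ) ≤ (1 - δ) * L / 2
  e7 : 2 * L ^ (1 - 3 * δ / 4) ≤ (1 - δ) * L / 8
  e8 : Real.log 4 + 2 * Real.log L + (1 - δ) * L / 8 ≤ (1 - δ) * L / 4
  e10 : Real.exp ((1 - δ) * L / 8) + 2 * (Real.exp ((1 - δ) * L) + 1) ≤ Real.exp L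
  e11 : 2 * L ^ (1 - δ) * Real.log (2 * L) ≤ L ^ (1 - δ / 2) / 16
  e12 : L ^ (1 - δ / 2) ≤ (1 - δ) * L / 2
  e13 : Real.log 16 + 4 * Real.log L ≤ 3 * L ^ (1 - δ / 2) / 16
  e14 : Real.log 8 + 2 * Real.log L ≤ (1 - δ) * L / 8
  e15 : 488 ≤ L ^ (δ / 20)
  e16 : 2 / (1 - δ) * L ^ (-δ) ≤ L ^ (-(δ / 4))

theorem ev_big (δ K : ℝ) (hδ : 0 < δ) (hδ1 : δ < 1) : ∀ᶠ L : ℝ in atTop, Big δ K L := by
  have ha : 0 < 1 - δ := by linarith
  have e1 : ∀ᶠ L : ℝ in atTop, |K| ≤ Real.log ((1 - δ) * L / 2) := by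
    have : Tendsto (fun L : ℝ => Real.log ((1 - δ) * L / 2)) atTop atTop := by
      apply Real.tendsto_log_atTop.comp
      have : (fun L : ℝ => (1 - δ) * L / 2) = fun L => ((1 - δ) / 2) * L := by
        funext L; ring
      rw [this]
      exact tendsto_id.const_mul_atTop (by positivity)
    exact this.eventually (eventually_ge_atTop _)
  have e2 := ev_log |K| (1 - δ / 2) (by linarith)
  have e3 : ∀ᶠ L : ℝ in atTop, |K| * (L ^ (1 - δ / 2) * Real.log L) ≤ (1 - δ) * L / 2 := by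
    filter_upwards [ev_log 1 (δ / 4) (by linarith), ev_rpow (2 * |K| / (1 - δ)) (1 - δ / 4) 1
      (by linarith), eventually_gt_atTop (0:ℝ)] with L h1 h2 h3
    rw [one_mul] at h1
    rw [rpow_one] at h2
    have h4 : L ^ (1 - δ / 2) * Real.log L ≤ L ^ (1 - δ / 4) := by
      calc L ^ (1 - δ / 2) * Real.log L ≤ L ^ (1 - δ / 2) * L ^ (δ / 4) :=
            mul_le_mul_of_nonneg_left h1 (rpow_nonneg h3.le _)
        _ = L ^ (1 - δ / 4) := by rw [← rpow_add h3]; ring_nf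
    have h5 : 2 * |K| / (1 - δ) * L ^ (1 - δ / 4) = (2 / (1 - δ)) * (|K| * L ^ (1 - δ / 4)) := by
      ring
    rw [h5] at h2
    have h6 : |K| * L ^ (1 - δ / 4) ≤ (1 - δ) * L / 2 := by
      have := mul_le_mul_of_nonneg_left h2 (show 0 ≤ (1 - δ) / 2 by positivity)
      have e : (1 - δ) / 2 * (2 / (1 - δ) * (|K| * L ^ (1 - δ / 4))) = |K| * L ^ (1 - δ / 4) := by
        field_simp
      rw [e] at this
      linarith
    exact (mul_le_mul_of_nonneg_left h4 (abs_nonneg K)).trans h6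
  have e4 := ev_rpow 139 (1 - 3 * δ / 4) (1 - δ / 2) (by linarith)
  have e5 : ∀ᶠ L : ℝ in atTop, 16 * L ^ (1 - δ) + 1 ≤ L ^ (1 - 3 * δ / 4) := by
    filter_upwards [ev_rpow 32 (1 - δ) (1 - 3 * δ / 4) (by linarith),
      ev_rpow 2 0 (1 - 3 * δ / 4) (by linarith)] with L h1 h2
    rw [rpow_zero] at h2
    linarith
  have e5' : ∀ᶠ L : ℝ in atTop, 1 / 2 * L ^ (1 - 3 * δ / 4) + 1 ≤ L ^ (1 - 3 * δ / 4) := by
    filter_upwards [ev_rpow 2 0 (1 - 3 * δ / 4) (by linarith)] with L h2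
    rw [rpow_zero] at h2
    linarith
  have e6 : ∀ᶠ L : ℝ in atTop, 16 * L ^ (1 - δ) ≤ (1 - δ) * L / 2 := by
    filter_upwards [ev_rpow (32 / (1 - δ)) (1 - δ) 1 (by linarith)] with L h1
    rw [rpow_one] at h1
    have := mul_le_mul_of_nonneg_left h1 (show 0 ≤ (1 - δ) / 2 by positivity)
    have e : (1 - δ) / 2 * (32 / (1 - δ) * L ^ (1 - δ)) = 16 * L ^ (1 - δ) := by
      field_simp; ring
    rw [e] at this
    linarith
  have e7 : ∀ᶠ L : ℝ in atTop, 2 * L ^ (1 - 3 * δ / 4) ≤ (1 - δ) * L / 8 := by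
    filter_upwards [ev_rpow (16 / (1 - δ)) (1 - 3 * δ / 4) 1 (by linarith)] with L h1
    rw [rpow_one] at h1
    have := mul_le_mul_of_nonneg_left h1 (show 0 ≤ (1 - δ) / 8 by positivity)
    have e : (1 - δ) / 8 * (16 / (1 - δ) * L ^ (1 - 3 * δ / 4)) = 2 * L ^ (1 - 3 * δ / 4) := by
      field_simp; ring
    rw [e] at this
    linarith
  have lin : ∀ C c : ℝ, 0 < c → ∀ᶠ L : ℝ in atTop, C + 4 * Real.log L ≤ c * L := by
    intro C c hc
    filter_upwards [ev_log (8 / c) 1 one_pos, eventually_ge_atTop (2 * C / c)] with L h1 h2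
    rw [rpow_one] at h1
    have h3 : 4 * Real.log L ≤ c * L / 2 := by
      have := mul_le_mul_of_nonneg_left h1 (show 0 ≤ c / 2 by positivity)
      have e : c / 2 * (8 / c * Real.log L) = 4 * Real.log L := by field_simp; ring
      rw [e] at this
      linarith
    have h4 : C ≤ c * L / 2 := by
      rw [div_le_iff₀ hc] at h2
      linarith
    linarith
  have e8 : ∀ᶠ L : ℝ in atTop, Real.log 4 + 2 * Real.log L + (1 - δ) * L / 8 ≤
      (1 - δ) * L / 4 := by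
    filter_upwards [lin (Real.log 4) ((1 - δ) / 8) (by positivity), eventually_ge_atTop (1:ℝ)]
      with L h1 h2
    have := Real.log_nonneg h2
    linarith
  have e10 : ∀ᶠ L : ℝ in atTop, Real.exp ((1 - δ) * L / 8) + 2 * (Real.exp ((1 - δ) * L) + 1) ≤
      Real.exp L := by
    have h1 : Tendsto (fun L : ℝ => Real.exp (δ * L)) atTop atTop :=
      Real.tendsto_exp_atTop.comp (tendsto_id.const_mul_atTop hδ)
    filter_upwards [h1.eventually (eventually_ge_atTop (5:ℝ)), eventually_gt_atTop (0:ℝ)]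
      with L h2 h3
    have h4 : Real.exp ((1 - δ) * L / 8) ≤ Real.exp ((1 - δ) * L) := by
      apply Real.exp_le_exp.mpr
      have : 0 < (1 - δ) * L := by positivity
      linarith
    have h5 : 1 ≤ Real.exp ((1 - δ) * L) := Real.one_le_exp (by positivity)
    have h6 : Real.exp L = Real.exp (δ * L) * Real.exp ((1 - δ) * L) := by
      rw [← Real.exp_add]; ring_nf
    rw [h6]
    nlinarith [Real.exp_pos ((1 - δ) * L)]
  have e11 : ∀ᶠ L : ℝ in atTop, 2 * L ^ (1 - δ) * Real.log (2 * L) ≤ L ^ (1 - δ / 2) / 16 := by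
    filter_upwards [ev_log 1 (δ / 4) (by linarith), ev_rpow 64 (1 - 3 * δ / 4) (1 - δ / 2)
      (by linarith), eventually_ge_atTop (2:ℝ)] with L h1 h2 h3
    have h0 : 0 < L := by linarith
    rw [one_mul] at h1
    have h4 : Real.log (2 * L) ≤ 2 * Real.log L := by
      rw [Real.log_mul (by norm_num) h0.ne']
      have := Real.log_le_log (by norm_num) h3
      linarith
    have h5 : 2 * L ^ (1 - δ) * Real.log (2 * L) ≤ 4 * L ^ (1 - 3 * δ / 4) := by
      calc 2 * L ^ (1 - δ) * Real.log (2 * L) ≤ 2 * L ^ (1 - δ) * (2 * L ^ (δ / 4)) := by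
            apply mul_le_mul_of_nonneg_left _ (by positivity)
            linarith
        _ = 4 * (L ^ (1 - δ) * L ^ (δ / 4)) := by ring
        _ = 4 * L ^ (1 - 3 * δ / 4) := by rw [← rpow_add h0]; ring_nf
    linarith
  have e12 : ∀ᶠ L : ℝ in atTop, L ^ (1 - δ / 2) ≤ (1 - δ) * L / 2 := by
    filter_upwards [ev_rpow (2 / (1 - δ)) (1 - δ / 2) 1 (by linarith)] with L h1
    rw [rpow_one] at h1
    have := mul_le_mul_of_nonneg_left h1 (show 0 ≤ (1 - δ) / 2 by positivity)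
    have e : (1 - δ) / 2 * (2 / (1 - δ) * L ^ (1 - δ / 2)) = L ^ (1 - δ / 2) := by
      field_simp
    rw [e] at this
    linarith
  have e13 : ∀ᶠ L : ℝ in atTop, Real.log 16 + 4 * Real.log L ≤ 3 * L ^ (1 - δ / 2) / 16 := by
    filter_upwards [ev_log 64 (1 - δ / 2) (by linarith), ev_rpow (16 * Real.log 16) 0 (1 - δ / 2)
      (by linarith), eventually_gt_atTop (0:ℝ)] with L h1 h2 h3
    rw [rpow_zero] at h2
    have := rpow_nonneg h3.le (1 - δ / 2)
    linarith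
  have e14 : ∀ᶠ L : ℝ in atTop, Real.log 8 + 2 * Real.log L ≤ (1 - δ) * L / 8 := by
    filter_upwards [lin (Real.log 8) ((1 - δ) / 8) (by positivity), eventually_ge_atTop (1:ℝ)]
      with L h1 h2
    have := Real.log_nonneg h2
    linarith
  have e15 : ∀ᶠ L : ℝ in atTop, 488 ≤ L ^ (δ / 20) := by
    filter_upwards [ev_rpow 488 0 (δ / 20) (by linarith)] with L h1
    rwa [rpow_zero, mul_one] at h1
  have e16 := ev_rpow (2 / (1 - δ)) (-δ) (-(δ / 4)) (by linarith)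
  filter_upwards [e1, e2, e3, e4, e5, e5', e6, e7, e8, e10, e11, e12, e13, e14, e15, e16,
    eventually_ge_atTop (100:ℝ)] with L a1 a2 a3 a4 a5 a5' a6 a7 a8 a10 a11 a12 a13 a14 a15 a16 a17
  exact ⟨a17, a1, a2, a3, a4, a5, a5', a6, a7, a8, a10, a11, a12, a13, a14, a15, a16⟩

end Pool.Agent.Lib.H68T
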