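import Pool.Agent.Lib.H68T.Defs

/-!
# Chunk SETS: from residue patterns to admissible sets
-/

open Finset

namespace Pool.Agent.Lib.H68T

/-- the tuples with values in `[0, H]` -/
def SETS_Om (k H : ℕ) : Finset (Fin k → ℕ) := Fintype.piFinset (fun _ => range (H + 1))

theorem SETS_card_Om (k H : ℕ) : (SETS_Om k H).card = (H + 1) ^ k := by
  unfold SETS_Om
  rw [Fintype.card_piFinset]
  simp

open scoped Classical in
theorem SETS_fiber (k H : ℕ) (A : Finset ℕ) (hA : A ⊆ range (H + 1)) (hk : A.card = k) :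
    ((SETS_Om k H).filter (fun a => Function.Injective a ∧ univ.image a = A)).card = k.factorial := by
  have h1 : Fintype.card (Fin k ↪ A) = k.factorial := by
    rw [Fintype.card_embedding_eq, Fintype.card_coe, hk, Fintype.card_fin, Nat.descFactorial_self]
  rw [← h1, ← card_univ]
  symm
  refine card_bij (fun f _ i => (f i : ℕ)) ?_ ?_ ?_
  · intro f _
    rw [mem_filter]
    refine ⟨?_, ?_, ?_⟩
    · unfold SETS_Om
      rw [Fintype.mem_piFinset]
      intro i
      exact hA (f i).2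
    · intro i j h
      exact f.injective (Subtype.ext h)
    · apply eq_of_subset_of_card_le
      · intro y hy
        rw [mem_image] at hy
        obtain ⟨i, -, rfl⟩ := hy
        exact (f i).2
      · rw [card_image_of_injective _ (fun i j h => f.injective (Subtype.ext h)), hk]
        simp
  · intro f _ g _ h
    ext i
    exact congrFun h i
  · intro a ha
    rw [mem_filter] at ha
    obtain ⟨-, hinj, himg⟩ := ha
    refine ⟨⟨fun i => ⟨a i, by rw [← himg]; exact mem_image_of_mem _ (mem_univ _)⟩, ?_⟩, mem_univ _, rfl⟩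
    intro i j h
    exact hinj (congrArg Subtype.val h)

open scoped Classical in
/-- Every `k`-set is the image of `k!` injective tuples. -/
theorem SETS_tuples (k H : ℕ) (P : Finset ℕ → Prop) :
    ((SETS_Om k H).filter (fun a => Function.Injective a ∧ P (univ.image a))).card =
      k.factorial * (((range (H + 1)).powersetCard k).filter P).card := by
  have hmaps : ∀ a ∈ (SETS_Om k H).filter (fun a => Function.Injective a ∧ P (univ.image a)),
      univ.image a ∈ ((range (H + 1)).powersetCard k).filter P := by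
    intro a ha
    rw [mem_filter] at ha
    obtain ⟨h1, h2, h3⟩ := ha
    rw [mem_filter, mem_powersetCard]
    refine ⟨⟨?_, ?_⟩, h3⟩
    · intro y hy
      rw [mem_image] at hy
      obtain ⟨i, -, rfl⟩ := hy
      unfold SETS_Om at h1
      exact (Fintype.mem_piFinset.mp h1) i
    · rw [card_image_of_injective _ h2]; simp
  rw [card_eq_sum_card_fiberwise hmaps]
  rw [sum_congr rfl (g := fun _ => k.factorial)]
  · rw [sum_const, smul_eq_mul, mul_comm]
  · intro A hA
    rw [mem_filter, mem_powersetCard] at hA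
    rw [← SETS_fiber k H A hA.1.1 hA.1.2, filter_filter]
    congr 1
    ext a
    rw [mem_filter, mem_filter]
    constructor
    · rintro ⟨h1, ⟨h2, -⟩, h4⟩
      exact ⟨h1, h2, h4⟩
    · rintro ⟨h1, h2, h4⟩
      exact ⟨h1, ⟨h2, by rw [h4]; exact hA.2⟩, h4⟩

/-- Tuples with a coordinate in `[m, H]`. -/
theorem SETS_large (k H m : ℕ) (i : Fin k) :
    ((SETS_Om k H).filter (fun a => m ≤ a i)).card ≤ (H + 1 - m) * (H + 1) ^ (k - 1) := by
  classical
  have hsub : (SETS_Om k H).filter (fun a => m ≤ a i) ⊆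
      Fintype.piFinset (fun j => if j = i then Ico m (H + 1) else range (H + 1)) := by
    intro a ha
    rw [mem_filter] at ha
    obtain ⟨h1, h2⟩ := ha
    unfold SETS_Om at h1
    rw [Fintype.mem_piFinset] at h1 ⊢
    intro j
    by_cases h : j = i
    · rw [if_pos h, mem_Ico]
      subst h
      exact ⟨h2, mem_range.mp (h1 j)⟩
    · rw [if_neg h]; exact h1 j
  refine (card_le_card hsub).trans ?_
  rw [Fintype.card_piFinset]
  rw [← mul_prod_erase univ _ (mem_univ i)]
  rw [if_pos rfl, Nat.card_Ico]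
  apply Nat.mul_le_mul_left
  rw [prod_congr rfl (g := fun _ => H + 1)]
  · rw [prod_const, card_erase_of_mem (mem_univ i)]
    simp
  · intro j hj
    rw [mem_erase] at hj
    rw [if_neg hj.1, card_range]

/-- CRT: an admissible tuple has a shift `b` coprime to `W`. -/
theorem SETS_shift (k W : ℕ) (hW : 0 < W) (a : Fin k → ℕ)
    (hadm : Admissible (univ.image a)) : ∃ b < W, ∀ i, Nat.Coprime (b + a i % W) W := by
  classical
  have h1 : ∀ p : ℕ, ∃ n : ℕ, p.Prime → ∀ i, ¬ p ∣ n + a i := by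
    intro p
    by_cases hp : p.Prime
    · obtain ⟨r, hr⟩ := hadm p hp
      have : NeZero p := ⟨hp.ne_zero⟩
      refine ⟨(-r).val, fun _ i hdvd => ?_⟩
      have h2 := (ZMod.natCast_eq_zero_iff _ _).mpr hdvd
      rw [Nat.cast_add, ZMod.natCast_val, ZMod.cast_id] at h2
      apply hr (a i) (mem_image_of_mem _ (mem_univ _))
      have : (a i : ZMod p) = r + (-r + (a i : ZMod p)) := by ring
      rw [this, h2, add_zero]
    · exact ⟨0, fun h => absurd h hp⟩
  choose n hn using h1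
  obtain ⟨b, hb⟩ := Nat.chineseRemainderOfFinset n id W.primeFactors
    (fun p hp => (Nat.prime_of_mem_primeFactors hp).ne_zero)
    (fun p hp q hq hpq => (Nat.coprime_primes (Nat.prime_of_mem_primeFactors hp)
      (Nat.prime_of_mem_primeFactors hq)).mpr hpq)
  refine ⟨b % W, Nat.mod_lt _ hW, fun i => ?_⟩
  rw [Nat.coprime_iff_gcd_eq_one]
  by_contra hne
  obtain ⟨p, hp, hpd⟩ := Nat.exists_prime_and_dvd hne
  have hpW : p ∣ W := hpd.trans (Nat.gcd_dvd_right _ _)
  have hpb : p ∣ b % W + a i % W := hpd.trans (Nat.gcd_dvd_left _ _)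
  have hmem : p ∈ W.primeFactors := Nat.mem_primeFactors.mpr ⟨hp, hpW, hW.ne'⟩
  have h2 := hb p hmem
  simp only [id] at h2
  apply hn p hp i
  have h3 : n p + a i ≡ b % W + a i % W [MOD p] := by
    apply Nat.ModEq.add
    · exact h2.symm.trans ((Nat.mod_modEq b W).of_dvd hpW).symm
    · exact ((Nat.mod_modEq (a i) W).of_dvd hpW).symm
  exact (Nat.modEq_zero_iff_dvd).mp (h3.trans ((Nat.modEq_zero_iff_dvd).mpr hpb))

/-- Lifts of good patterns are admissible. -/
theorem SETS_lift_adm (k W : ℕ) (hp : ∀ p : ℕ, p.Prime → p ≤ k → p ∣ W) (r c : Fin k → ℕ) (b : ℕ)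
    (hb : ∀ i, Nat.Coprime (b + r i) W) :
    Admissible (univ.image (fun i => r i + W * c i)) := by
  classical
  intro p hpp
  by_cases hpW : p ∣ W
  · refine ⟨-(b : ZMod p), fun y hy => ?_⟩
    rw [mem_image] at hy
    obtain ⟨i, -, rfl⟩ := hy
    intro h
    have hW0 : ((W : ℕ) : ZMod p) = 0 := (ZMod.natCast_eq_zero_iff _ _).mpr hpW
    push_cast at h
    rw [hW0, zero_mul, add_zero] at h
    have : ((b + r i : ℕ) : ZMod p) = 0 := by push_cast; rw [h]; ring
    have h2 := (ZMod.natCast_eq_zero_iff _ _).mp this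
    have h3 := Nat.dvd_gcd h2 hpW
    rw [(hb i)] at h3
    exact hpp.one_lt.ne' (Nat.dvd_one.mp h3)
  · have hkp : k < p := by
      by_contra h
      exact hpW (hp p hpp (not_lt.mp h))
    have : NeZero p := ⟨hpp.ne_zero⟩
    have hcard : ((univ.image (fun i => r i + W * c i)).image (fun y : ℕ => (y : ZMod p))).card <
        Fintype.card (ZMod p) := by
      rw [ZMod.card]
      refine lt_of_le_of_lt card_image_le (lt_of_le_of_lt card_image_le ?_)
      simpa using hkp
    obtain ⟨z, hz⟩ := exists_mem_notMem_of_card_lt_card (s := (univ.image (fun i => r i + W * c i)).image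
      (fun y : ℕ => (y : ZMod p))) (t := univ) (by rw [card_univ]; exact hcard)
    refine ⟨z, fun y hy h => hz.2 ?_⟩
    rw [← h]
    exact mem_image_of_mem _ hy

theorem SETS_desc (M k : ℕ) (hM4 : 4 * k ^ 2 ≤ M) (hk : 1 ≤ k) :
    (3 / 4 : ℝ) * (M : ℝ) ^ k ≤ (M.descFactorial k : ℝ) := by
  have h1 := Nat.pow_sub_le_descFactorial M k
  have hkM : k ≤ M := by nlinarith
  have hM0 : 0 < M := by omega
  have hMr : (0:ℝ) < M := by exact_mod_cast hM0
  have h2 : (((M + 1 - k : ℕ) : ℝ)) ^ k ≤ (M.descFactorial k : ℝ) := by exact_mod_cast h1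
  refine le_trans ?_ h2
  have h3 : ((M + 1 - k : ℕ) : ℝ) = M * (1 + (-((k - 1 : ℝ) / M))) := by
    rw [Nat.cast_sub (by omega)]
    push_cast
    field_simp
    ring
  rw [h3, mul_pow, mul_comm]
  apply mul_le_mul_of_nonneg_left _ (by positivity)
  have hk1 : (1:ℝ) ≤ k := by exact_mod_cast hk
  have hM4' : 4 * (k:ℝ) ^ 2 ≤ M := by exact_mod_cast hM4
  have hle : (k - 1 : ℝ) / M ≤ 1 := by
    rw [div_le_one hMr]
    nlinarith
  have hb := one_add_mul_le_pow (a := -((k - 1 : ℝ) / M)) (by linarith) k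
  refine le_trans ?_ hb
  have : (k:ℝ) * ((k - 1 : ℝ) / M) ≤ 1 / 4 := by
    rw [← mul_div_assoc, div_le_iff₀ hMr]
    nlinarith
  linarith

theorem SETS_MW (H W M k : ℕ) (hW : 0 < W) (hk : 1 ≤ k) (hM : M = (H + 1) / W)
    (hMk : 4 * k * W ≤ H + 1) : (3 / 4 : ℝ) * ((H:ℝ) + 1) ^ k ≤ ((M:ℝ) * W) ^ k := by
  have hH : (0:ℝ) < (H:ℝ) + 1 := by positivity
  have hk0 : (0:ℝ) < k := by exact_mod_cast hk
  have h1 : H + 1 < W * M + W := by
    rw [hM]
    have := Nat.lt_mul_div_succ (H + 1) hW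
    linarith [Nat.mul_succ W ((H + 1) / W)]
  have h1' : (H:ℝ) + 1 < W * M + W := by exact_mod_cast h1
  have h2' : 4 * (k:ℝ) * W ≤ H + 1 := by exact_mod_cast hMk
  have h3 : ((H:ℝ) + 1) * (1 + (-(1 / (4 * (k:ℝ))))) ≤ (M:ℝ) * W := by
    have : (W:ℝ) ≤ ((H:ℝ) + 1) * (1 / (4 * (k:ℝ))) := by
      rw [mul_one_div, le_div_iff₀ (by positivity)]
      linarith
    nlinarith
  have hle : 1 / (4 * (k:ℝ)) ≤ 1 := by
    rw [div_le_one (by positivity)]
    have : (1:ℝ) ≤ k := by exact_mod_cast hk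
    linarith
  have h4 : (((H:ℝ) + 1) * (1 + (-(1 / (4 * (k:ℝ)))))) ^ k ≤ ((M:ℝ) * W) ^ k := by
    apply pow_le_pow_left₀ _ h3
    apply mul_nonneg hH.le
    linarith
  refine le_trans ?_ h4
  rw [mul_pow, mul_comm]
  apply mul_le_mul_of_nonneg_left _ (by positivity)
  have hb := one_add_mul_le_pow (a := -(1 / (4 * (k:ℝ)))) (by linarith) k
  refine le_trans ?_ hb
  have : (k:ℝ) * (1 / (4 * (k:ℝ))) = 1 / 4 := by field_simp
  linarith

open scoped Classical in
/-- good patterns -/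
noncomputable def SETS_R (k W : ℕ) : Finset (Fin k → ℕ) :=
  (Fintype.piFinset (fun _ : Fin k => range W)).filter
    (fun r => ∃ b < W, ∀ i, Nat.Coprime (b + r i) W)

theorem SETS_R_card (k W : ℕ) (hW : 0 < W) : (Nat.totient W) ^ k ≤ (SETS_R k W).card := by
  classical
  have hsub : Fintype.piFinset (fun _ : Fin k => (range W).filter (fun a => W.Coprime a)) ⊆
      SETS_R k W := by
    intro r hr
    rw [Fintype.mem_piFinset] at hr
    unfold SETS_R
    rw [mem_filter, Fintype.mem_piFinset]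
    refine ⟨fun i => (mem_filter.mp (hr i)).1, 0, hW, fun i => ?_⟩
    rw [zero_add]
    exact (mem_filter.mp (hr i)).2.symm
  have := card_le_card hsub
  rw [Fintype.card_piFinset] at this
  simpa [Nat.totient] using this

open scoped Classical in
theorem SETS_adm_lower (H W M k : ℕ) (hW : 0 < W) (hM : M = (H + 1) / W)
    (hp : ∀ p : ℕ, p.Prime → p ≤ k → p ∣ W) :
    (SETS_R k W).card * M.descFactorial k ≤
      ((SETS_Om k H).filter (fun a => Function.Injective a ∧ Admissible (univ.image a))).card := by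
  have h1 : Fintype.card (Fin k ↪ Fin M) = M.descFactorial k := by
    rw [Fintype.card_embedding_eq, Fintype.card_fin, Fintype.card_fin]
  rw [← h1, ← card_univ, ← card_product]
  refine card_le_card_of_injOn (fun x => fun i => x.1 i + W * (x.2 i : ℕ)) ?_ ?_
  · rintro ⟨r, c⟩ hx
    rw [mem_coe, mem_product] at hx
    have hr := hx.1
    unfold SETS_R at hr
    rw [mem_filter, Fintype.mem_piFinset] at hr
    obtain ⟨hr1, b, hb, hb2⟩ := hr
    rw [mem_coe, mem_filter]
    refine ⟨?_, ?_, ?_⟩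
    · unfold SETS_Om
      rw [Fintype.mem_piFinset]
      intro i
      have h2 := mem_range.mp (hr1 i)
      have h3 : (c i : ℕ) + 1 ≤ M := (c i).2
      rw [mem_range]
      have h4 : W * ((c i : ℕ) + 1) ≤ W * M := Nat.mul_le_mul_left _ h3
      have h5 : W * M ≤ H + 1 := by rw [hM]; exact Nat.mul_div_le _ _
      have h6 : W * ((c i : ℕ) + 1) = W * (c i : ℕ) + W := by ring
      dsimp only at h2 ⊢
      omega
    · intro i j hij
      dsimp only at hij
      have hri := mem_range.mp (hr1 i)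
      have hrj := mem_range.mp (hr1 j)
      have e1 : (r i + W * (c i : ℕ)) / W = (c i : ℕ) := by
        rw [Nat.add_mul_div_left _ _ hW, Nat.div_eq_of_lt hri, zero_add]
      have e2 : (r j + W * (c j : ℕ)) / W = (c j : ℕ) := by
        rw [Nat.add_mul_div_left _ _ hW, Nat.div_eq_of_lt hrj, zero_add]
      have : (c i : ℕ) = (c j : ℕ) := by rw [← e1, ← e2, hij]
      exact c.injective (Fin.ext this)
    · exact SETS_lift_adm k W hp r (fun i => (c i : ℕ)) b hb2
  · rintro ⟨r, c⟩ hx ⟨r', c'⟩ hx' h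
    rw [mem_coe, mem_product] at hx hx'
    have hr := hx.1
    have hr' := hx'.1
    unfold SETS_R at hr hr'
    rw [mem_filter, Fintype.mem_piFinset] at hr hr'
    have key : ∀ i, r i = r' i ∧ (c i : ℕ) = (c' i : ℕ) := by
      intro i
      have hi := congrFun h i
      dsimp only at hi
      have hri := mem_range.mp (hr.1 i)
      have hri' := mem_range.mp (hr'.1 i)
      dsimp only at hri hri'
      have e1 : (r i + W * (c i : ℕ)) / W = (c i : ℕ) := by
        rw [Nat.add_mul_div_left _ _ hW, Nat.div_eq_of_lt hri, zero_add]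
      have e2 : (r' i + W * (c' i : ℕ)) / W = (c' i : ℕ) := by
        rw [Nat.add_mul_div_left _ _ hW, Nat.div_eq_of_lt hri', zero_add]
      have e3 : (c i : ℕ) = (c' i : ℕ) := by rw [← e1, ← e2, hi]
      refine ⟨?_, e3⟩
      rw [e3] at hi
      omega
    have e1 : r = r' := funext fun i => (key i).1
    have e2 : c = c' := by
      ext i
      exact (key i).2
    rw [e1, e2]

open scoped Classical in
theorem SETS_bad_upper (x : ℝ) (H W M k : ℕ) (ξ : ℝ) (_hξ : 0 ≤ ξ)
    (hW : 0 < W) (_hk : 1 ≤ k) (hM : M = (H + 1) / W) (_hM1 : 1 ≤ M)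
    (hx : ((W + 2 * (H + 1) : ℕ) : ℝ) ≤ x)
    (hpat : ∀ r : Fin k → ℕ, (∀ i, r i < W) → ∀ b < W, (∀ i, Nat.Coprime (b + r i) W) →
      (((univ : Finset (Fin k → Fin M)).filter (fun c : Fin k → Fin M => ∀ s ∈ Ico M (2 * M),
        ∃ i, ¬ (b + r i + W * (s + (c i : ℕ))).Prime)).card : ℝ) ≤ ξ * (M : ℝ) ^ k) :
    (((SETS_Om k H).filter (fun a => Function.Injective a ∧ (Admissible (univ.image a) ∧
      ¬ HasPrimeTranslate x (univ.image a)))).card : ℝ) ≤
      (SETS_R k W).card * (ξ * (M:ℝ) ^ k) + k * (W * ((H:ℝ) + 1) ^ (k - 1)) := by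
  have hR : ∀ r ∈ SETS_R k W, ∃ b < W, ∀ i, Nat.Coprime (b + r i) W := by
    intro r hr
    unfold SETS_R at hr
    exact (mem_filter.mp hr).2
  have hR' : ∀ r : Fin k → ℕ, ∃ b : ℕ, r ∈ SETS_R k W → b < W ∧ ∀ i, Nat.Coprime (b + r i) W := by
    intro r
    by_cases h : r ∈ SETS_R k W
    · obtain ⟨b, hb⟩ := hR r h
      exact ⟨b, fun _ => hb⟩
    · exact ⟨0, fun h' => absurd h' h⟩
  choose b hb using hR'
  set C : (Fin k → ℕ) → Finset (Fin k → Fin M) := fun r =>
    (univ : Finset (Fin k → Fin M)).filter (fun c : Fin k → Fin M => ∀ s ∈ Ico M (2 * M),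
        ∃ i, ¬ (b r + r i + W * (s + (c i : ℕ))).Prime) with hC
  have hsub : (SETS_Om k H).filter (fun a => Function.Injective a ∧ (Admissible (univ.image a) ∧
      ¬ HasPrimeTranslate x (univ.image a))) ⊆
      ((SETS_R k W).biUnion (fun r => (C r).image (fun c => fun i => r i + W * (c i : ℕ)))) ∪
      (univ : Finset (Fin k)).biUnion (fun i => (SETS_Om k H).filter (fun a => W * M ≤ a i)) := by
    intro a ha
    rw [mem_filter] at ha
    obtain ⟨hOm, hinj, hadm, hno⟩ := ha
    rw [mem_union]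
    by_cases hlarge : ∃ i, W * M ≤ a i
    · right
      obtain ⟨i, hi⟩ := hlarge
      rw [mem_biUnion]
      exact ⟨i, mem_univ _, mem_filter.mpr ⟨hOm, hi⟩⟩
    · left
      push Not at hlarge
      rw [mem_biUnion]
      obtain ⟨b0, hb0, hb1⟩ := SETS_shift k W hW a hadm
      have hrR : (fun i => a i % W) ∈ SETS_R k W := by
        unfold SETS_R
        rw [mem_filter, Fintype.mem_piFinset]
        exact ⟨fun i => mem_range.mpr (Nat.mod_lt _ hW), b0, hb0, hb1⟩
      refine ⟨fun i => a i % W, hrR, ?_⟩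
      rw [mem_image]
      have hdiv : ∀ i, a i / W < M := fun i => (Nat.div_lt_iff_lt_mul hW).mpr (by
        rw [mul_comm]; exact hlarge i)
      refine ⟨fun i => ⟨a i / W, hdiv i⟩, ?_, ?_⟩
      · rw [hC, mem_filter]
        refine ⟨mem_univ _, fun s hs => ?_⟩
        rw [mem_Ico] at hs
        obtain ⟨hbW, -⟩ := hb _ hrR
        by_contra hcon
        push Not at hcon
        apply hno
        refine ⟨b (fun i => a i % W) + W * s, ?_, ?_, ?_⟩
        · have : 1 ≤ W * s := Nat.mul_pos hW (by omega)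
          omega
        · refine le_trans ?_ hx
          have h5 : W * M ≤ H + 1 := by rw [hM]; exact Nat.mul_div_le _ _
          have h6 : W * s ≤ W * (2 * M) := Nat.mul_le_mul_left _ (by omega)
          have h7 : W * (2 * M) = 2 * (W * M) := by ring
          exact_mod_cast (by omega : b (fun i => a i % W) + W * s ≤ W + 2 * (H + 1))
        · intro y hy
          rw [mem_image] at hy
          obtain ⟨i, -, rfl⟩ := hy
          have h1 := hcon i
          dsimp only at h1
          have h2 : b (fun i => a i % W) + a i % W + W * (s + a i / W) =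
              b (fun i => a i % W) + W * s + a i := by
            have := Nat.mod_add_div (a i) W
            rw [Nat.mul_add]
            omega
          rw [h2] at h1
          exact h1
      · funext i
        exact Nat.mod_add_div (a i) W
  have h1 := card_le_card hsub
  have h2 := h1.trans (card_union_le _ _)
  have h3 : (((SETS_R k W).biUnion (fun r => (C r).image
      (fun c => fun i => r i + W * (c i : ℕ)))).card : ℝ) ≤ (SETS_R k W).card * (ξ * (M:ℝ) ^ k) := by
    have h4 : (((SETS_R k W).biUnion (fun r => (C r).image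
      (fun c => fun i => r i + W * (c i : ℕ)))).card : ℝ) ≤ ∑ r ∈ SETS_R k W, ((C r).card : ℝ) := by
      have := (card_biUnion_le (s := SETS_R k W) (t := fun r => (C r).image
        (fun c => fun i => r i + W * (c i : ℕ)))).trans (sum_le_sum fun r _ => card_image_le)
      exact_mod_cast this
    refine h4.trans ?_
    have h5 : ∀ r ∈ SETS_R k W, ((C r).card : ℝ) ≤ ξ * (M:ℝ) ^ k := by
      intro r hr
      obtain ⟨hbW, hbc⟩ := hb r hr
      have hr' := hr
      unfold SETS_R at hr'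
      rw [mem_filter, Fintype.mem_piFinset] at hr'
      have := hpat r (fun i => mem_range.mp (hr'.1 i)) (b r) hbW hbc
      exact this
    refine (sum_le_sum h5).trans ?_
    rw [sum_const, nsmul_eq_mul]
  have h4 : (((univ : Finset (Fin k)).biUnion (fun i => (SETS_Om k H).filter
      (fun a => W * M ≤ a i))).card : ℝ) ≤ k * (W * ((H:ℝ) + 1) ^ (k - 1)) := by
    have h5 : ((univ : Finset (Fin k)).biUnion (fun i => (SETS_Om k H).filter
      (fun a => W * M ≤ a i))).card ≤ k * (W * (H + 1) ^ (k - 1)) := by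
      refine card_biUnion_le.trans ((sum_le_sum fun i _ => SETS_large k H (W * M) i).trans ?_)
      rw [sum_const, card_univ, Fintype.card_fin, smul_eq_mul]
      apply Nat.mul_le_mul_left
      apply Nat.mul_le_mul_right
      rw [hM]
      have := Nat.lt_mul_div_succ (H + 1) hW
      have h7 : W * ((H + 1) / W + 1) = W * ((H + 1) / W) + W := by ring
      omega
    exact_mod_cast h5
  calc _ ≤ ((((SETS_R k W).biUnion (fun r => (C r).image
      (fun c => fun i => r i + W * (c i : ℕ)))).card +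
      ((univ : Finset (Fin k)).biUnion (fun i => (SETS_Om k H).filter
      (fun a => W * M ≤ a i))).card : ℕ) : ℝ) := by exact_mod_cast h2
    _ ≤ _ := by push_cast; exact add_le_add h3 h4

end Pool.Agent.Lib.H68T

open scoped Classical in
/-- **Patterns to sets.** If for every residue pattern `r : Fin k → [0, W)` admitting a `b < W`
with all `b + r i` coprime to `W`, at most `ξ M^k` of the lifts `r i + W c i`, `c i < M`, fail to
have an `s ∈ [M, 2M)` with all `b + r i + W (s + c i)` prime, then the proportion of the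
admissible `k`-subsets of `[0, H]` without prime translate is at most `4ξ + 8 k W Y^k/(H+1)`.

Proof. Count injective tuples `a : Fin k → [0, H]` (each `k`-set has `k!` of them).
* A failing tuple with all `a i < M W` has `r i = a i % W`, `c i = a i / W < M`. Its image is
  admissible, so for every prime `p ∣ W` some class `n` mod `p` has `n + a i ≢ 0` for all `i`
  (take `n = - r`); by the Chinese remainder theorem there is `b < W` with all `b + r i` coprime
  to `W`. For `s ∈ [M, 2M)`, `n = b + W s` satisfies `1 ≤ n ≤ W + 2 W M ≤ W + 2 (H+1) ≤ x`, so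
  `c` is counted in `hpat`.
* Failing tuples with some `a i ∈ [M W, H]` (fewer than `W` values): at most `k W (H+1)^(k-1)`.
* Conversely every injective lift of a pattern with such a `b` is admissible: for `p ∣ W`
  because `b + a i ≡ b + r i` is coprime to `p`; for `p ∤ W` because `p > k` and `k` elements do
  not cover `ZMod p`. There are at least `M^k - k^2 M^(k-1) ≥ (3/4) M^k` injective lifts of each
  pattern, and at least `φ(W)^k` patterns (those with all `r i` coprime to `W`, `b = 0`).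
* `M W ≥ H + 1 - W ≥ (H+1)(1 - 1/(4k))`, so `(M W)^k ≥ (3/4) (H+1)^k` (Bernoulli), and the number
  of admissible injective tuples is at least `(3/4) φ(W)^k M^k ≥ (9/16) (H+1)^k / Y^k`. -/
theorem Pool.Agent.Lib.H68T.sets_of_patterns (x : ℝ) (H W M k Y : ℕ) (ξ : ℝ) (hξ : 0 ≤ ξ)
    (hW : 0 < W) (hk : 1 ≤ k) (hM : M = (H + 1) / W) (hp : ∀ p : ℕ, p.Prime → p ≤ k → p ∣ W)
    (hφ : W ≤ Y * Nat.totient W) (hM4 : 4 * k ^ 2 ≤ M) (hMk : 4 * k * W ≤ H + 1)
    (hx : ((W + 2 * (H + 1) : ℕ) : ℝ) ≤ x)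
    (hpat : ∀ r : Fin k → ℕ, (∀ i, r i < W) → ∀ b < W, (∀ i, Nat.Coprime (b + r i) W) →
      (((univ : Finset (Fin k → Fin M)).filter (fun c : Fin k → Fin M => ∀ s ∈ Ico M (2 * M),
        ∃ i, ¬ (b + r i + W * (s + (c i : ℕ))).Prime)).card : ℝ) ≤ ξ * (M : ℝ) ^ k) :
    ((((range (H + 1)).powersetCard k).filter (fun A => Pool.Agent.Lib.H68T.Admissible A ∧
      ¬ Pool.Agent.Lib.H68T.HasPrimeTranslate x A)).card : ℝ) ≤
      (4 * ξ + 8 * k * W * (Y : ℝ) ^ k / (H + 1)) *
        ((((range (H + 1)).powersetCard k).filter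
          (fun A => Pool.Agent.Lib.H68T.Admissible A)).card : ℝ) := by
  have hM1 : 1 ≤ M := by nlinarith
  have hMr : (0:ℝ) < M := by exact_mod_cast hM1
  have hWr : (0:ℝ) < W := by exact_mod_cast hW
  have hkr : (1:ℝ) ≤ k := by exact_mod_cast hk
  have hHr : (0:ℝ) < (H:ℝ) + 1 := by positivity
  have hbad := Pool.Agent.Lib.H68T.SETS_bad_upper x H W M k ξ hξ hW hk hM hM1 hx hpat
  have hadm := Pool.Agent.Lib.H68T.SETS_adm_lower H W M k hW hM hp
  have hdesc := Pool.Agent.Lib.H68T.SETS_desc M k hM4 hk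
  have hMW := Pool.Agent.Lib.H68T.SETS_MW H W M k hW hk hM hMk
  have hRc := Pool.Agent.Lib.H68T.SETS_R_card k W hW
  have hT1 := Pool.Agent.Lib.H68T.SETS_tuples k H (fun A => Pool.Agent.Lib.H68T.Admissible A ∧
      ¬ Pool.Agent.Lib.H68T.HasPrimeTranslate x A)
  have hT2 := Pool.Agent.Lib.H68T.SETS_tuples k H (fun A => Pool.Agent.Lib.H68T.Admissible A)
  set Bd := (((range (H + 1)).powersetCard k).filter (fun A => Pool.Agent.Lib.H68T.Admissible A ∧
      ¬ Pool.Agent.Lib.H68T.HasPrimeTranslate x A)).card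
  set Ad := (((range (H + 1)).powersetCard k).filter
          (fun A => Pool.Agent.Lib.H68T.Admissible A)).card
  set R := (Pool.Agent.Lib.H68T.SETS_R k W).card
  have hfac : (0:ℝ) < (k.factorial : ℝ) := by exact_mod_cast k.factorial_pos
  have hadm0 : R * M.descFactorial k ≤ k.factorial * Ad := by
    refine hadm.trans (le_of_eq ?_)
    rw [← hT2]
  have hadm' : (R:ℝ) * (M.descFactorial k : ℝ) ≤ (k.factorial : ℝ) * Ad := by
    exact_mod_cast hadm0
  have hbad' : (((k.factorial * Bd : ℕ)) : ℝ) ≤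
      (R:ℝ) * (ξ * (M:ℝ) ^ k) + k * (W * ((H:ℝ) + 1) ^ (k - 1)) := by
    refine le_trans (le_of_eq ?_) hbad
    have hT1' : ((Pool.Agent.Lib.H68T.SETS_Om k H).filter (fun a => Function.Injective a ∧
      (Pool.Agent.Lib.H68T.Admissible (univ.image a) ∧
      ¬ Pool.Agent.Lib.H68T.HasPrimeTranslate x (univ.image a)))).card = k.factorial * Bd := by
      convert hT1
    rw [← hT1']
  rw [Nat.cast_mul] at hbad'
  have hR0 : (0:ℝ) ≤ R := by positivity
  have h1 : (3 / 4 : ℝ) * ((R:ℝ) * (M:ℝ) ^ k) ≤ (k.factorial : ℝ) * Ad := by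
    have := mul_le_mul_of_nonneg_left hdesc hR0
    linarith
  -- W^k ≤ Y^k R
  have h2 : ((W:ℝ)) ^ k ≤ (Y:ℝ) ^ k * R := by
    have e1 : W ^ k ≤ Y ^ k * R := by
      calc W ^ k ≤ (Y * Nat.totient W) ^ k := Nat.pow_le_pow_left hφ k
        _ = Y ^ k * (Nat.totient W) ^ k := by rw [mul_pow]
        _ ≤ Y ^ k * R := Nat.mul_le_mul_left _ hRc
    exact_mod_cast e1
  have h3 : (3 / 4 : ℝ) * ((H:ℝ) + 1) ^ k ≤ (Y:ℝ) ^ k * ((R:ℝ) * (M:ℝ) ^ k) := by
    refine hMW.trans ?_
    rw [mul_pow]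
    calc (M:ℝ) ^ k * (W:ℝ) ^ k ≤ (M:ℝ) ^ k * ((Y:ℝ) ^ k * R) := by gcongr
      _ = _ := by ring
  have h4 : ((H:ℝ) + 1) ^ k = ((H:ℝ) + 1) * ((H:ℝ) + 1) ^ (k - 1) := by
    rw [← pow_succ', Nat.sub_add_cancel hk]
  have hYk : (0:ℝ) ≤ (Y:ℝ) ^ k := by positivity
  have h5 : (k:ℝ) * (W * ((H:ℝ) + 1) ^ (k - 1)) ≤
      (8 * k * W * (Y : ℝ) ^ k / (H + 1)) * ((k.factorial : ℝ) * Ad) := by
    have e1 : ((H:ℝ) + 1) ^ (k - 1) = ((H:ℝ) + 1) ^ k / ((H:ℝ) + 1) := by
      rw [h4]; field_simp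
    have e2 : ((H:ℝ) + 1) ^ k ≤ 8 * (Y:ℝ) ^ k * ((k.factorial : ℝ) * Ad) := by
      have q1 : (Y:ℝ) ^ k * ((3 / 4 : ℝ) * ((R:ℝ) * (M:ℝ) ^ k)) ≤
          (Y:ℝ) ^ k * ((k.factorial : ℝ) * Ad) := mul_le_mul_of_nonneg_left h1 hYk
      have q2 : 0 ≤ (Y:ℝ) ^ k * ((k.factorial : ℝ) * Ad) :=
        mul_nonneg hYk (mul_nonneg hfac.le (Nat.cast_nonneg _))
      have q3 : (Y:ℝ) ^ k * ((3 / 4 : ℝ) * ((R:ℝ) * (M:ℝ) ^ k)) =
        (3 / 4 : ℝ) * ((Y:ℝ) ^ k * ((R:ℝ) * (M:ℝ) ^ k)) := by ring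
      linarith
    rw [e1]
    calc (k:ℝ) * (W * (((H:ℝ) + 1) ^ k / ((H:ℝ) + 1)))
        ≤ (k:ℝ) * (W * ((8 * (Y:ℝ) ^ k * ((k.factorial : ℝ) * Ad)) / ((H:ℝ) + 1))) := by gcongr
      _ = _ := by ring
  have h6 : (R:ℝ) * (ξ * (M:ℝ) ^ k) ≤ 4 * ξ * ((k.factorial : ℝ) * Ad) := by
    have q1 : ξ * ((3 / 4 : ℝ) * ((R:ℝ) * (M:ℝ) ^ k)) ≤ ξ * ((k.factorial : ℝ) * Ad) :=
      mul_le_mul_of_nonneg_left h1 hξ
    have q2 : 0 ≤ ξ * ((k.factorial : ℝ) * Ad) :=
      mul_nonneg hξ (mul_nonneg hfac.le (Nat.cast_nonneg _))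
    have q3 : ξ * ((3 / 4 : ℝ) * ((R:ℝ) * (M:ℝ) ^ k)) = (3 / 4 : ℝ) * ((R:ℝ) * (ξ * (M:ℝ) ^ k)) := by
      ring
    linarith
  have h7 : (k.factorial : ℝ) * Bd ≤ (k.factorial : ℝ) *
      ((4 * ξ + 8 * k * W * (Y : ℝ) ^ k / (H + 1)) * Ad) := by
    calc (k.factorial : ℝ) * Bd ≤ (R:ℝ) * (ξ * (M:ℝ) ^ k) + k * (W * ((H:ℝ) + 1) ^ (k - 1)) := by
          exact hbad'
      _ ≤ _ := by
        refine (add_le_add h6 h5).trans (le_of_eq ?_)
        ring
  exact le_of_mul_le_mul_left h7 hfac
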