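import Pool.Agent.Lib.H68T.SM2
import Pool.Agent.Lib.H68T.SetsP
import Pool.Agent.Lib.H68T.BA
import Pool.Agent.Lib.H68T.PAGE
import Pool.Agent.Lib.H68T.FINP

/-!
# Chunk FIN: the final theorem (helper68)
-/

open Finset

namespace Pool.Agent.Lib.H68T

theorem FIN_totient (n : ℕ) (hn : 1 ≤ n) : primorial n ≤ n * Nat.totient (primorial n) := by
  induction n, hn using Nat.le_induction with
  | base => simp
  | succ n hn ih =>
    by_cases hp : (n + 1).Prime
    · have h1 : primorial (n + 1) = (n + 1) * primorial n := by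
        unfold primorial
        rw [Finset.range_add_one, Finset.filter_insert, if_pos hp, Finset.prod_insert]
        simp
      have hcop : Nat.Coprime (n + 1) (primorial n) := by
        rw [Nat.Prime.coprime_iff_not_dvd hp, hp.dvd_primorial_iff]
        omega
      rw [h1, Nat.totient_mul hcop, Nat.totient_prime hp]
      simp only [Nat.add_sub_cancel]
      calc (n + 1) * primorial n ≤ (n + 1) * (n * Nat.totient (primorial n)) :=
            Nat.mul_le_mul_left _ ih
        _ = (n + 1) * (n * Nat.totient (primorial n)) := rfl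
    · have h1 : primorial (n + 1) = primorial n := by
        unfold primorial
        rw [Finset.range_add_one, Finset.filter_insert, if_neg hp]
      rw [h1]
      exact ih.trans (Nat.mul_le_mul_right _ (by omega))

theorem FIN_lp_nonneg (m : ℤ) : 0 ≤ lp m := by
  unfold lp
  split_ifs with h
  · have h1 : 1 ≤ m := by
      have := h.one_lt
      omega
    exact Real.log_nonneg (by exact_mod_cast h1)
  · exact le_refl _

theorem FIN_lp_le (m : ℤ) (hm : 1 ≤ m) : lp m ≤ Real.log m := by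
  unfold lp
  split_ifs with h
  · exact le_refl _
  · exact Real.log_nonneg (by exact_mod_cast hm)

/-- The data of the lifting argument. -/
structure Data (δ L : ℝ) (Q y W H M : ℕ) : Prop where
  hy : 1 ≤ y
  hyk : ∀ k : ℕ, (k : ℝ) ≤ L ^ (1 - δ) → 16 * k ≤ y
  hyL : (y : ℝ) ≤ L
  hyl : (1 / 2) * L ^ (1 - 3 * δ / 4) ≤ y
  hW0 : 0 < W
  hWy : ∀ p : ℕ, p.Prime → p ≤ y → p ∣ W
  hφ : W ≤ y * Nat.totient W
  hWexp : (W : ℝ) ≤ Real.exp ((1 - δ) * L / 8)
  hWQ : W ^ 100 ≤ Q
  hM : M = (H + 1) / W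
  hM1 : 1 ≤ M
  hMexp : Real.exp ((1 - δ) * L / 2) ≤ M
  hH : Real.exp ((1 - δ) * L) ≤ (H : ℝ) + 1
  hHx : ((W + 2 * (H + 1) : ℕ) : ℝ) ≤ Real.exp L
  hlX : (1 - δ) * L / 2 ≤ Real.log (M * W : ℕ)
  hlX' : Real.log (M * W : ℕ) ≤ L

theorem data_of_big (δ K L : ℝ) (hδ : 0 < δ) (hδ1 : δ < 1) (hB : Big δ K L) (Q : ℕ)
    (hQ : Real.log Q = L ^ (1 - δ / 2)) : ∃ y W M : ℕ,
    Data δ L Q y W ⌊(Real.exp L) ^ (1 - δ)⌋₊ M ∧ Reg K Q (M * W) := by
  have hL := hB.L2
  have hL0 : 0 < L := by linarith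
  have ha : 0 < 1 - δ := by linarith
  set a := (1 - δ) * L with hadef
  have ha0 : 0 < a := by positivity
  have hQpos : (0:ℝ) < Q := by
    rcases Nat.eq_zero_or_pos Q with h0 | h0
    · rw [h0] at hQ
      have : 0 < L ^ (1 - δ / 2) := Real.rpow_pos_of_pos hL0 _
      simp at hQ
      linarith
    · exact_mod_cast h0
  set z := L ^ (1 - 3 * δ / 4) with hz
  have hz0 : 0 < z := Real.rpow_pos_of_pos hL0 _
  set y := ⌊z⌋₊ with hy
  have hyz : (y : ℝ) ≤ z := Nat.floor_le hz0.le
  have hyz' : z < y + 1 := Nat.lt_floor_add_one z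
  have e5 := hB.e5
  have hk0 : 0 < L ^ (1 - δ) := Real.rpow_pos_of_pos hL0 _
  have hy1 : 1 ≤ y := by
    have h1 : (0:ℝ) < y := by linarith
    exact_mod_cast h1
  set W := primorial y with hW
  have hW0 : 0 < W := primorial_pos y
  have hlog4 : Real.log 4 ≤ 1.39 := by
    have : (4:ℝ) = 2 ^ 2 := by norm_num
    rw [this, Real.log_pow]
    have := Real.log_two_lt_d9
    push_cast
    linarith
  have hlog40 : 0 < Real.log 4 := Real.log_pos (by norm_num)
  have hW4 : (W : ℝ) ≤ Real.exp (y * Real.log 4) := by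
    have h1 : (W : ℝ) ≤ 4 ^ y := by
      have := primorial_le_four_pow y
      exact_mod_cast this
    have h2 : Real.exp (y * Real.log 4) = 4 ^ y := by
      rw [mul_comm, Real.exp_mul, Real.exp_log (by norm_num), Real.rpow_natCast]
    rw [h2]; exact h1
  have hWexp : (W : ℝ) ≤ Real.exp (a / 8) := by
    refine hW4.trans (Real.exp_le_exp.mpr ?_)
    have := hB.e7
    nlinarith
  have hWQ : W ^ 100 ≤ Q := by
    have h1 : ((W : ℝ)) ^ 100 ≤ Q := by
      calc ((W : ℝ)) ^ 100 ≤ (Real.exp (y * Real.log 4)) ^ 100 :=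
            pow_le_pow_left₀ (Nat.cast_nonneg _) hW4 _
        _ = Real.exp (100 * (y * Real.log 4)) := by rw [← Real.exp_nat_mul]; norm_num
        _ ≤ Real.exp (L ^ (1 - δ / 2)) := by
            apply Real.exp_le_exp.mpr
            have := hB.e4
            nlinarith
        _ = Q := by rw [← hQ, Real.exp_log hQpos]
    exact_mod_cast h1
  have hxa : (Real.exp L) ^ (1 - δ) = Real.exp a := by
    rw [hadef, ← Real.exp_mul]; ring_nf
  set H := ⌊(Real.exp L) ^ (1 - δ)⌋₊ with hH
  have hH1 : Real.exp a < (H : ℝ) + 1 := by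
    rw [← hxa]; exact Nat.lt_floor_add_one _
  have hH2 : (H : ℝ) ≤ Real.exp a := by
    rw [← hxa]; exact Nat.floor_le (by positivity)
  set M := (H + 1) / W with hM
  have hMW : M * W ≤ H + 1 := Nat.div_mul_le_self _ _
  have hMW' : H + 1 < (M + 1) * W := by
    have h1 := Nat.div_add_mod (H + 1) W
    have h2 := Nat.mod_lt (H + 1) hW0
    rw [← hM] at h1
    nlinarith
  set t := Real.exp (a / 8) with ht
  have ht2 : 2 ≤ t := by
    have h14 := hB.e14
    have h8 : Real.log 2 ≤ a / 8 := by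
      have h1 : Real.log 2 ≤ Real.log 8 := Real.log_le_log (by norm_num) (by norm_num)
      have h2 : 0 ≤ Real.log L := Real.log_nonneg (by linarith)
      linarith
    rw [ht, ← Real.log_le_iff_le_exp (by norm_num)]
    exact h8
  have et8 : Real.exp a = t ^ 8 := by
    rw [ht, ← Real.exp_nat_mul]; push_cast; ring_nf
  have et4 : Real.exp (a / 2) = t ^ 4 := by
    rw [ht, ← Real.exp_nat_mul]; push_cast; ring_nf
  have hMWr : ((M * W : ℕ) : ℝ) ≤ H + 1 := by exact_mod_cast hMW
  have hMWr' : (H : ℝ) + 1 < (M + 1) * W := by exact_mod_cast hMW'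
  have hWr : (1:ℝ) ≤ W := by exact_mod_cast hW0
  have hM4 : t ^ 4 ≤ M := by
    -- (M+1) W > t^8, W ≤ t
    have h1 : t ^ 8 < (M + 1) * t := by
      calc t ^ 8 = Real.exp a := et8.symm
        _ < H + 1 := hH1
        _ < (M + 1) * W := hMWr'
        _ ≤ (M + 1) * t := mul_le_mul_of_nonneg_left hWexp (by positivity)
    have h2 : t ^ 7 < M + 1 := by
      have h3 : t ^ 7 * t < (M + 1) * t := by
        calc t ^ 7 * t = t ^ 8 := by ring
          _ < _ := h1
      exact lt_of_mul_lt_mul_right h3 (by linarith)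
    have h4 : t ^ 4 + 1 ≤ t ^ 7 := by
      have h5 : 16 ≤ t ^ 4 := by
        calc (16:ℝ) = 2 ^ 4 := by norm_num
          _ ≤ t ^ 4 := pow_le_pow_left₀ (by norm_num) ht2 4
      have h6 : 8 ≤ t ^ 3 := by
        calc (8:ℝ) = 2 ^ 3 := by norm_num
          _ ≤ t ^ 3 := pow_le_pow_left₀ (by norm_num) ht2 3
      have h7 : t ^ 7 = t ^ 4 * t ^ 3 := by ring
      rw [h7]; nlinarith
    linarith
  have hX4 : Real.exp (a / 2) ≤ ((M * W : ℕ) : ℝ) := by
    rw [et4]
    push_cast
    have : 0 ≤ t ^ 4 := by positivity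
    nlinarith
  have hXpos : (0:ℝ) < ((M * W : ℕ) : ℝ) := lt_of_lt_of_le (Real.exp_pos _) hX4
  have hlX : a / 2 ≤ Real.log (M * W : ℕ) := (Real.le_log_iff_exp_le hXpos).mpr hX4
  have hlX' : Real.log (M * W : ℕ) ≤ L := by
    rw [Real.log_le_iff_le_exp hXpos]
    have := hB.e10
    have h1 := Real.exp_pos (a / 8)
    have h2 := Real.exp_pos a
    rw [← hadef] at this
    linarith
  have hM1 : 1 ≤ M := by
    have h1 : (0:ℝ) < M := lt_of_lt_of_le (by positivity) hM4
    exact_mod_cast h1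
  have hlXpos : 0 < Real.log (M * W : ℕ) := by linarith [show 0 < a / 2 by positivity]
  refine ⟨y, W, M, ⟨hy1, ?_, ?_, ?_, hW0, ?_, FIN_totient y hy1, hWexp, hWQ, rfl, hM1, ?_, hH1.le, ?_, hlX,
    hlX'⟩, ?_, ?_, ?_⟩
  · intro k hk
    have h1 : (16 * k : ℝ) ≤ y := by linarith
    exact_mod_cast h1
  · have h1 := hB.e7
    have h2 : (1 - δ) * L ≤ L := by nlinarith
    rw [← hz] at h1
    nlinarith
  · have h1 := hB.e5'
    rw [← hz] at h1
    linarith
  · intro p hp hpy
    exact hp.dvd_primorial_iff.mpr hpy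
  · rw [et4]; exact hM4
  · have := hB.e10
    rw [← hadef] at this
    push_cast
    linarith
  · refine (le_abs_self K).trans (hB.e1.trans ?_)
    exact Real.log_le_log (by positivity) hlX
  · have h1 : Real.log (Real.log (M * W : ℕ)) ≤ Real.log L := Real.log_le_log hlXpos hlX'
    have h0 : 0 ≤ Real.log (Real.log (M * W : ℕ)) := by
      refine (abs_nonneg K).trans (hB.e1.trans ?_)
      exact Real.log_le_log (by positivity) hlX
    rw [hQ]
    calc K * Real.log (Real.log (M * W : ℕ)) ≤ |K| * Real.log (Real.log (M * W : ℕ)) :=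
          mul_le_mul_of_nonneg_right (le_abs_self K) h0
      _ ≤ |K| * Real.log L := mul_le_mul_of_nonneg_left h1 (abs_nonneg K)
      _ ≤ _ := hB.e2
  · have h1 : Real.log (Real.log (M * W : ℕ)) ≤ Real.log L := Real.log_le_log hlXpos hlX'
    have h0 : 0 ≤ Real.log (Real.log (M * W : ℕ)) := by
      refine (abs_nonneg K).trans (hB.e1.trans ?_)
      exact Real.log_le_log (by positivity) hlX
    have h2 : 0 ≤ L ^ (1 - δ / 2) := by positivity
    rw [hQ]
    calc K * (L ^ (1 - δ / 2) * Real.log (Real.log (M * W : ℕ)))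
        ≤ |K| * (L ^ (1 - δ / 2) * Real.log (Real.log (M * W : ℕ))) :=
          mul_le_mul_of_nonneg_right (le_abs_self K) (mul_nonneg h2 h0)
      _ ≤ |K| * (L ^ (1 - δ / 2) * Real.log L) :=
          mul_le_mul_of_nonneg_left (mul_le_mul_of_nonneg_left h1 h2) (abs_nonneg K)
      _ ≤ a / 2 := hB.e3
      _ ≤ _ := hlX

theorem numeric (δ K L : ℝ) (hδ : 0 < δ) (hδ1 : δ < 1) (hB : Big δ K L) (Q y W H M k : ℕ)
    (hQ : Real.log Q = L ^ (1 - δ / 2)) (D : Data δ L Q y W H M) (hk1 : 1 ≤ k)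
    (hk : (k : ℝ) ≤ L ^ (1 - δ)) :
    4 * (40 * (k / y + k * (1 / Real.log (M * W : ℕ))) + 8 * (2 * L) ^ (2 * k) *
      (k * (Q : ℝ) ^ (-(1 / 4) : ℝ) / (1 / Real.log (M * W : ℕ)) ^ 2 + 1 / M)) +
      8 * k * W * (y : ℝ) ^ k / (H + 1) ≤ L ^ (-(δ / 5)) := by
  have hL := hB.L2
  have hL0 : 0 < L := by linarith
  have hL1 : 1 ≤ L := by linarith
  have ha : 0 < 1 - δ := by linarith
  set a := (1 - δ) * L with hadef
  have ha0 : 0 < a := by positivity
  set g := L ^ (1 - δ / 2) with hg
  have hg0 : 0 < g := Real.rpow_pos_of_pos hL0 _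
  have hQpos : (0:ℝ) < Q := by
    rcases Nat.eq_zero_or_pos Q with h0 | h0
    · rw [h0] at hQ
      simp at hQ
      linarith
    · exact_mod_cast h0
  have hlX := D.hlX
  have hlX' := D.hlX'
  set ℓ := Real.log (M * W : ℕ) with hℓ
  have hℓ0 : 0 < ℓ := by
    have : 0 < (1 - δ) * L / 2 := by positivity
    linarith
  have hkr : (1:ℝ) ≤ k := by exact_mod_cast hk1
  have hkL : (k : ℝ) ≤ L := by
    refine hk.trans ?_
    calc L ^ (1 - δ) ≤ L ^ (1:ℝ) := Real.rpow_le_rpow_of_exponent_le hL1 (by linarith)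
      _ = L := Real.rpow_one L
  have hyr : (1:ℝ) ≤ y := by exact_mod_cast D.hy
  set u := L ^ (-(δ / 4)) with hu
  have hu0 : 0 < u := Real.rpow_pos_of_pos hL0 _
  have hLu : 1 ≤ L * u := by
    rw [hu]
    have : L * L ^ (-(δ / 4)) = L ^ (1 - δ / 4) := by
      nth_rewrite 1 [← Real.rpow_one L]
      rw [← Real.rpow_add hL0]; ring_nf
    rw [this]
    exact Real.one_le_rpow hL1 (by linarith)
  -- n1
  have n1 : (k : ℝ) / y ≤ 2 * u := by
    have h1 : 0 < (1 / 2) * L ^ (1 - 3 * δ / 4) := by positivity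
    rw [div_le_iff₀ (by linarith)]
    have h2 : L ^ (1 - δ) = u * L ^ (1 - 3 * δ / 4) := by
      rw [hu, ← Real.rpow_add hL0]; ring_nf
    have h3 := D.hyl
    calc (k : ℝ) ≤ u * L ^ (1 - 3 * δ / 4) := by rw [← h2]; exact hk
      _ = 2 * u * ((1 / 2) * L ^ (1 - 3 * δ / 4)) := by ring
      _ ≤ 2 * u * y := mul_le_mul_of_nonneg_left h3 (by positivity)
  -- n2
  have n2 : (k : ℝ) * (1 / ℓ) ≤ u := by
    have h1 : (1 : ℝ) / ℓ ≤ 2 / a := by
      rw [div_le_div_iff₀ hℓ0 ha0]
      linarith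
    have h2 : L ^ (1 - δ) * (2 / a) = 2 / (1 - δ) * L ^ (-δ) := by
      rw [hadef]
      have : L ^ (1 - δ) = L * L ^ (-δ) := by
        nth_rewrite 2 [← Real.rpow_one L]
        rw [← Real.rpow_add hL0]; ring_nf
      rw [this]
      field_simp
    calc (k : ℝ) * (1 / ℓ) ≤ L ^ (1 - δ) * (2 / a) :=
          mul_le_mul hk h1 (by positivity) (by positivity)
      _ = 2 / (1 - δ) * L ^ (-δ) := h2
      _ ≤ u := hB.e16
  -- n3
  have hlog2L : 0 < Real.log (2 * L) := Real.log_pos (by linarith)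
  have n3 : (2 * L) ^ (2 * k) ≤ Real.exp (g / 16) := by
    have h1 : (2 * L) ^ (2 * k) = Real.exp (2 * k * Real.log (2 * L)) := by
      rw [← Real.rpow_natCast, Real.rpow_def_of_pos (by positivity)]
      push_cast; ring_nf
    rw [h1]
    apply Real.exp_le_exp.mpr
    calc 2 * k * Real.log (2 * L) ≤ 2 * L ^ (1 - δ) * Real.log (2 * L) := by
          apply mul_le_mul_of_nonneg_right _ hlog2L.le
          linarith
      _ ≤ g / 16 := hB.e11
  -- n4
  have hη : (Q : ℝ) ^ (-(1 / 4) : ℝ) = Real.exp (-(g / 4)) := by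
    rw [Real.rpow_def_of_pos hQpos, hQ]; ring_nf
  have n4 : k * (Q : ℝ) ^ (-(1 / 4) : ℝ) / (1 / ℓ) ^ 2 ≤ L ^ 3 * Real.exp (-(g / 4)) := by
    rw [hη]
    have h1 : k * Real.exp (-(g / 4)) / (1 / ℓ) ^ 2 = k * ℓ ^ 2 * Real.exp (-(g / 4)) := by
      field_simp
    rw [h1]
    apply mul_le_mul_of_nonneg_right _ (Real.exp_pos _).le
    calc (k : ℝ) * ℓ ^ 2 ≤ L * L ^ 2 :=
          mul_le_mul hkL (pow_le_pow_left₀ hℓ0.le hlX' 2) (by positivity) (by positivity)
      _ = L ^ 3 := by ring
  -- n5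
  have n5 : (1 : ℝ) / M ≤ Real.exp (-(g / 4)) := by
    have h1 := D.hMexp
    have h2 : 0 < (M : ℝ) := lt_of_lt_of_le (Real.exp_pos _) h1
    have h3 : (1 : ℝ) / M ≤ 1 / Real.exp ((1 - δ) * L / 2) :=
      one_div_le_one_div_of_le (Real.exp_pos _) h1
    refine h3.trans ?_
    rw [one_div, ← Real.exp_neg]
    apply Real.exp_le_exp.mpr
    have := hB.e12
    linarith
  -- n6
  have n6 : 8 * (2 * L) ^ (2 * k) *
      (k * (Q : ℝ) ^ (-(1 / 4) : ℝ) / (1 / ℓ) ^ 2 + 1 / M) ≤ u := by
    have h1 : k * (Q : ℝ) ^ (-(1 / 4) : ℝ) / (1 / ℓ) ^ 2 + 1 / M ≤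
        2 * L ^ 3 * Real.exp (-(g / 4)) := by
      have : 1 * Real.exp (-(g / 4)) ≤ L ^ 3 * Real.exp (-(g / 4)) :=
        mul_le_mul_of_nonneg_right (one_le_pow₀ hL1) (Real.exp_pos _).le
      linarith
    have h0 : 0 ≤ k * (Q : ℝ) ^ (-(1 / 4) : ℝ) / (1 / ℓ) ^ 2 + 1 / M := by positivity
    calc 8 * (2 * L) ^ (2 * k) * (k * (Q : ℝ) ^ (-(1 / 4) : ℝ) / (1 / ℓ) ^ 2 + 1 / M)
        ≤ 8 * Real.exp (g / 16) * (2 * L ^ 3 * Real.exp (-(g / 4))) := by
          apply mul_le_mul _ h1 h0 (by positivity)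
          exact mul_le_mul_of_nonneg_left n3 (by norm_num)
      _ = 16 * L ^ 3 * Real.exp (-(3 * g / 16)) := by
          have : Real.exp (g / 16) * Real.exp (-(g / 4)) = Real.exp (-(3 * g / 16)) := by
            rw [← Real.exp_add]; ring_nf
          rw [← this]; ring
      _ ≤ 16 * L ^ 3 * (L * u) * Real.exp (-(3 * g / 16)) := by
          have h5 : 0 ≤ 16 * L ^ 3 * Real.exp (-(3 * g / 16)) := by positivity
          nlinarith
      _ = (16 * L ^ 4 * Real.exp (-(3 * g / 16))) * u := by ring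
      _ ≤ 1 * u := by
          apply mul_le_mul_of_nonneg_right _ hu0.le
          have h6 : 16 * L ^ 4 = Real.exp (Real.log 16 + 4 * Real.log L) := by
            rw [Real.exp_add, Real.exp_log (by norm_num)]
            congr 1
            have : (4:ℝ) * Real.log L = ((4:ℕ):ℝ) * Real.log L := by norm_num
            rw [this, Real.exp_nat_mul, Real.exp_log hL0]
          rw [h6, ← Real.exp_add]
          rw [← Real.exp_zero]
          apply Real.exp_le_exp.mpr
          have := hB.e13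
          linarith
      _ = u := one_mul u
  -- n7
  have n7 : 8 * k * W * (y : ℝ) ^ k / (H + 1) ≤ u := by
    have hH := D.hH
    have hHpos : 0 < (H : ℝ) + 1 := by positivity
    have hyk : (y : ℝ) ^ k ≤ Real.exp (a / 64) := by
      have h1 : (y : ℝ) ^ k = Real.exp (k * Real.log y) := by
        rw [← Real.rpow_natCast, Real.rpow_def_of_pos (by linarith)]
        ring_nf
      rw [h1]
      apply Real.exp_le_exp.mpr
      have h2 : Real.log y ≤ Real.log (2 * L) :=
        Real.log_le_log (by linarith) (by linarith [D.hyL])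
      have h3 : (k : ℝ) * Real.log y ≤ L ^ (1 - δ) * Real.log (2 * L) :=
        mul_le_mul hk h2 (Real.log_nonneg hyr) (by positivity)
      have h4 := hB.e11
      have h5 := hB.e12
      linarith
    have h8 : 8 * L ^ 2 ≤ Real.exp (a / 8) := by
      have h6 : 8 * L ^ 2 = Real.exp (Real.log 8 + 2 * Real.log L) := by
        rw [Real.exp_add, Real.exp_log (by norm_num)]
        congr 1
        have : (2:ℝ) * Real.log L = ((2:ℕ):ℝ) * Real.log L := by norm_num
        rw [this, Real.exp_nat_mul, Real.exp_log hL0]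
      rw [h6]
      exact Real.exp_le_exp.mpr hB.e14
    rw [div_le_iff₀ hHpos]
    have h9 : 8 * (k : ℝ) * W * (y : ℝ) ^ k ≤ 8 * L * Real.exp (a / 8) * Real.exp (a / 64) := by
      apply mul_le_mul _ hyk (by positivity) (by positivity)
      apply mul_le_mul _ D.hWexp (by positivity) (by positivity)
      linarith
    refine h9.trans ?_
    have h10 : u * Real.exp a ≤ u * (H + 1) := mul_le_mul_of_nonneg_left hH hu0.le
    refine le_trans ?_ h10
    calc 8 * L * Real.exp (a / 8) * Real.exp (a / 64)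
        ≤ 8 * L * (L * u) * Real.exp (a / 8) * Real.exp (a / 64) := by
          have h5 : 0 ≤ 8 * L * Real.exp (a / 8) * Real.exp (a / 64) := by positivity
          nlinarith
      _ = (8 * L ^ 2) * (Real.exp (a / 8) * Real.exp (a / 64)) * u := by ring
      _ ≤ Real.exp (a / 8) * (Real.exp (a / 8) * Real.exp (a / 64)) * u := by
          apply mul_le_mul_of_nonneg_right _ hu0.le
          exact mul_le_mul_of_nonneg_right h8 (by positivity)
      _ = u * Real.exp (a / 8 + (a / 8 + a / 64)) := by rw [Real.exp_add, Real.exp_add]; ring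
      _ ≤ u * Real.exp a := by
          apply mul_le_mul_of_nonneg_left _ hu0.le
          apply Real.exp_le_exp.mpr
          linarith
  have h485 : 485 * u ≤ L ^ (-(δ / 5)) := by
    have h1 : L ^ (-(δ / 5)) = L ^ (δ / 20) * u := by
      rw [hu, ← Real.rpow_add hL0]; ring_nf
    rw [h1]
    apply mul_le_mul_of_nonneg_right _ hu0.le
    linarith [hB.e15]
  linarith

open scoped Classical in
theorem final (δ : ℝ) (hδ : 0 < δ) (hδ1 : δ < 1) (x₀ : ℝ) : ∃ x : ℝ, x₀ ≤ x ∧
    ∀ k : ℕ, 1 ≤ k → (k : ℝ) ≤ (Real.log x) ^ (1 - δ) →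
    ((((range (⌊x ^ (1 - δ)⌋₊ + 1)).powersetCard k).filter (fun A => Admissible A ∧
      ¬ HasPrimeTranslate x A)).card : ℝ) ≤ (Real.log x) ^ (-(δ / 5)) *
        ((((range (⌊x ^ (1 - δ)⌋₊ + 1)).powersetCard k).filter
          (fun A => Admissible A)).card : ℝ) := by
  obtain ⟨c, hc, hgood⟩ := good_levels
  obtain ⟨K, hK⟩ := class_corr c hc
  obtain ⟨L₀, hL₀⟩ := Filter.eventually_atTop.mp (ev_big δ K hδ hδ1)
  set L₁ := max (max L₀ x₀) 1 with hL₁
  have hL₁0 : 0 < L₁ := lt_of_lt_of_le one_pos (le_max_right _ _)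
  obtain ⟨Q, hQK, hQg⟩ := hgood ⌈Real.exp (L₁ ^ (1 - δ / 2))⌉₊
  have hQ1 : Real.exp (L₁ ^ (1 - δ / 2)) ≤ Q :=
    (Nat.le_ceil _).trans (by exact_mod_cast hQK)
  have hQpos : (0:ℝ) < Q := lt_of_lt_of_le (Real.exp_pos _) hQ1
  have hγ : 0 < 1 - δ / 2 := by linarith
  have hlQ : L₁ ^ (1 - δ / 2) ≤ Real.log Q := (Real.le_log_iff_exp_le hQpos).mpr hQ1
  have hlQ0 : 0 < Real.log Q := lt_of_lt_of_le (Real.rpow_pos_of_pos hL₁0 _) hlQ
  set L := (Real.log Q) ^ (1 / (1 - δ / 2)) with hL
  have hLL : L₁ ≤ L := by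
    have h1 := Real.rpow_le_rpow (by positivity) hlQ
      (show 0 ≤ 1 / (1 - δ / 2) by positivity)
    rw [← Real.rpow_mul hL₁0.le, mul_one_div_cancel hγ.ne', Real.rpow_one] at h1
    exact h1
  have hQL : Real.log Q = L ^ (1 - δ / 2) := by
    rw [hL, ← Real.rpow_mul hlQ0.le, one_div_mul_cancel hγ.ne', Real.rpow_one]
  have hBig : Big δ K L := hL₀ L ((le_max_left _ _).trans ((le_max_left _ _).trans hLL))
  have hL100 := hBig.L2
  have hLpos : 0 < L := by linarith
  obtain ⟨y, W, M, D, hReg⟩ := data_of_big δ K L hδ hδ1 hBig Q hQL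
  refine ⟨Real.exp L, ?_, ?_⟩
  · have h1 : x₀ ≤ L := (le_max_right _ _).trans ((le_max_left _ _).trans hLL)
    linarith [Real.add_one_le_exp L]
  intro k hk1 hk
  rw [Real.log_exp] at hk ⊢
  set H := ⌊(Real.exp L) ^ (1 - δ)⌋₊ with hH
  have hcorr := hK Q M W hReg hQg D.hW0 D.hWQ
  set ℓ := Real.log (M * W : ℕ) with hℓ
  have hℓ0 : 0 < ℓ := by
    have : 0 < (1 - δ) * L / 2 := by
      have : 0 < 1 - δ := by linarith
      positivity
    linarith [D.hlX]
  have hMr : (1:ℝ) ≤ M := by exact_mod_cast D.hM1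
  have hWr : (1:ℝ) ≤ W := by exact_mod_cast D.hW0
  have hkr : (1:ℝ) ≤ k := by exact_mod_cast hk1
  have hnum := numeric δ K L hδ hδ1 hBig Q y W H M k hQL D hk1 hk
  set ξ := 40 * ((k:ℝ) / y + k * (1 / ℓ)) + 8 * (2 * L) ^ (2 * k) *
      (k * (Q : ℝ) ^ (-(1 / 4) : ℝ) / (1 / ℓ) ^ 2 + 1 / M) with hξ
  have hξ0 : 0 ≤ ξ := by positivity
  have hpat : ∀ r : Fin k → ℕ, (∀ i, r i < W) → ∀ b < W, (∀ i, Nat.Coprime (b + r i) W) →
      (((univ : Finset (Fin k → Fin M)).filter (fun c : Fin k → Fin M => ∀ s ∈ Ico M (2 * M),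
        ∃ i, ¬ (b + r i + W * (s + (c i : ℕ))).Prime)).card : ℝ) ≤ ξ * (M : ℝ) ^ k := by
    intro r hr b hb hcop
    set f : Fin k → ℕ → ℝ := fun i l => if l < 3 * M then fW W (b + r i) l else 0 with hf
    have hfW0 : ∀ b' l, 0 ≤ fW W b' l := by
      intro b' l
      unfold fW
      exact mul_nonneg (by positivity) (FIN_lp_nonneg _)
    have hfW : ∀ i l, l < 3 * M → fW W (b + r i) l ≤ 2 * L := by
      intro i l hl
      unfold fW
      have h1 : (Nat.totient W : ℝ) / W ≤ 1 := by
        rw [div_le_one (by linarith)]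
        exact_mod_cast Nat.totient_le W
      rcases Nat.eq_zero_or_pos (b + r i + W * l) with h0 | h0
      · have h2 : lp (((b + r i : ℕ) : ℤ) + W * l) = 0 := by
          have : (((b + r i : ℕ) : ℤ) + W * l) = ((b + r i + W * l : ℕ) : ℤ) := by push_cast; ring
          rw [this, h0]
          unfold lp
          norm_num
        rw [h2, mul_zero]; linarith
      · have h2 : lp (((b + r i : ℕ) : ℤ) + W * l) ≤ 2 * L := by
          have he : (((b + r i : ℕ) : ℤ) + W * l) = ((b + r i + W * l : ℕ) : ℤ) := by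
            push_cast; ring
          rw [he]
          refine (FIN_lp_le _ (by exact_mod_cast h0)).trans ?_
          have h3 : b + r i + W * l ≤ 5 * (M * W) := by
            have h4 := hr i
            have h5 : W * l ≤ W * (3 * M) := Nat.mul_le_mul_left _ hl.le
            have h6 : W ≤ M * W := Nat.le_mul_of_pos_left _ D.hM1
            have h7 : W * (3 * M) = 3 * (M * W) := by ring
            omega
          have h8 : Real.log (((b + r i + W * l : ℕ) : ℤ) : ℝ) ≤
              Real.log (5 * (M * W : ℕ)) := by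
            apply Real.log_le_log
            · exact_mod_cast h0
            · exact_mod_cast h3
          refine h8.trans ?_
          have hXpos : (0:ℝ) < ((M * W : ℕ) : ℝ) := by
            have := Nat.mul_pos D.hM1 D.hW0
            exact_mod_cast this
          rw [Real.log_mul (by norm_num) hXpos.ne']
          have h9 : Real.log 5 ≤ L := by
            have : Real.log 5 ≤ 5 - 1 := Real.log_le_sub_one_of_pos (by norm_num)
            linarith
          linarith [D.hlX']
        calc (Nat.totient W : ℝ) / W * lp (((b + r i : ℕ) : ℤ) + W * l)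
            ≤ 1 * (2 * L) := mul_le_mul h1 h2 (FIN_lp_nonneg _) (by norm_num)
          _ = 2 * L := one_mul _
    have hsm := second_moment k M W y Q f (2 * L) (1 / ℓ) ((Q : ℝ) ^ (-(1 / 4) : ℝ)) hk1 D.hM1
      (D.hyk k hk) D.hWy (by positivity)
      (by
        have h1 := hBig.e6
        have h2 : 16 * (k:ℝ) ≤ ℓ := by linarith [D.hlX]
        rw [mul_one_div, div_le_one hℓ0]
        exact h2)
      (by positivity) (by linarith)
      (by
        intro i l
        rw [hf]
        simp only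
        split_ifs
        · exact hfW0 _ _
        · exact le_refl _)
      (by
        intro i l
        rw [hf]
        simp only
        split_ifs with hl
        · exact hfW i l hl
        · linarith)
      (by
        intro i s hs
        have h1 := (hcorr (b + r i) (by have := hr i; omega) (hcop i)).1 s hs
        rw [mem_Ico] at hs
        have h2 : ∑ c ∈ range M, f i (s + c) = ∑ c ∈ range M, fW W (b + r i) (s + c) := by
          apply sum_congr rfl
          intro c hc'
          rw [mem_range] at hc'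
          rw [hf]
          simp only
          rw [if_pos (by omega)]
        rw [h2]
        exact h1)
      (by
        intro i
        obtain ⟨e', he1, he2, he3⟩ := (hcorr (b + r i) (by have := hr i; omega) (hcop i)).2
        refine ⟨e', he1, he2, ?_⟩
        intro s hs s' hs' hne
        have h1 := he3 s hs s' hs' hne
        rw [mem_Ico] at hs hs'
        have h2 : ∑ c ∈ range M, f i (s + c) * f i (s' + c) =
            ∑ c ∈ range M, fW W (b + r i) (s + c) * fW W (b + r i) (s' + c) := by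
          apply sum_congr rfl
          intro c hc'
          rw [mem_range] at hc'
          rw [hf]
          simp only
          rw [if_pos (by omega), if_pos (by omega)]
        rw [h2]
        exact h1)
    refine le_trans ?_ hsm
    norm_cast
    apply card_le_card
    intro c hc'
    rw [mem_filter] at hc' ⊢
    refine ⟨mem_univ _, fun s hs => ?_⟩
    obtain ⟨i, hi⟩ := hc'.2 s hs
    apply prod_eq_zero (mem_univ i)
    rw [hf]
    simp only
    split_ifs
    · unfold fW lp
      have h1 : (((b + r i : ℕ) : ℤ) + (W : ℤ) * ((s + (c i : ℕ) : ℕ) : ℤ)).toNat =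
          b + r i + W * (s + (c i : ℕ)) := by
        have : (((b + r i : ℕ) : ℤ) + (W : ℤ) * ((s + (c i : ℕ) : ℕ) : ℤ)) =
            ((b + r i + W * (s + (c i : ℕ)) : ℕ) : ℤ) := by push_cast; ring
        rw [this, Int.toNat_natCast]
      rw [h1, if_neg hi, mul_zero]
    · rfl
  have hkL : (k : ℝ) ≤ L := by
    refine hk.trans ?_
    calc L ^ (1 - δ) ≤ L ^ (1:ℝ) := Real.rpow_le_rpow_of_exponent_le (by linarith) (by linarith)
      _ = L := Real.rpow_one L
  have h4L : Real.log 4 + 2 * Real.log L ≤ (1 - δ) * L / 8 := by linarith [hBig.e8]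
  have h4exp : 4 * L ^ 2 ≤ Real.exp ((1 - δ) * L / 8) := by
    have h6 : 4 * L ^ 2 = Real.exp (Real.log 4 + 2 * Real.log L) := by
      rw [Real.exp_add, Real.exp_log (by norm_num)]
      congr 1
      have : (2:ℝ) * Real.log L = ((2:ℕ):ℝ) * Real.log L := by norm_num
      rw [this, Real.exp_nat_mul, Real.exp_log hLpos]
    rw [h6]
    exact Real.exp_le_exp.mpr h4L
  have ha : 0 < (1 - δ) * L := by
    have : 0 < 1 - δ := by linarith
    positivity
  have hfin := sets_of_patterns (Real.exp L) H W M k y ξ hξ0 D.hW0 hk1 D.hM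
    (fun p hp hpk => D.hWy p hp (by have := D.hyk k hk; omega)) D.hφ
    (by
      have h1 : (4 * (k:ℝ) ^ 2) ≤ M := by
        calc 4 * (k:ℝ) ^ 2 ≤ 4 * L ^ 2 := by
              have := pow_le_pow_left₀ (by positivity) hkL 2
              linarith
          _ ≤ Real.exp ((1 - δ) * L / 8) := h4exp
          _ ≤ Real.exp ((1 - δ) * L / 2) := Real.exp_le_exp.mpr (by linarith)
          _ ≤ M := D.hMexp
      exact_mod_cast h1)
    (by
      have h1 : (4 * (k:ℝ) * W) ≤ H + 1 := by
        calc 4 * (k:ℝ) * W ≤ 4 * L ^ 2 * Real.exp ((1 - δ) * L / 8) := by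
              apply mul_le_mul _ D.hWexp (by positivity) (by positivity)
              nlinarith
          _ ≤ Real.exp ((1 - δ) * L / 8) * Real.exp ((1 - δ) * L / 8) :=
              mul_le_mul_of_nonneg_right h4exp (Real.exp_pos _).le
          _ ≤ Real.exp ((1 - δ) * L) := by
              rw [← Real.exp_add]
              exact Real.exp_le_exp.mpr (by linarith)
          _ ≤ H + 1 := D.hH
      exact_mod_cast h1)
    D.hHx hpat
  refine hfin.trans ?_
  apply mul_le_mul_of_nonneg_right _ (Nat.cast_nonneg _)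
  exact hnum

end Pool.Agent.Lib.H68T
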