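import Pool.Agent.Lib.H68T.Defs

/-!
# Chunk GL1; part of GL: growth of L-functions and zeta
-/

open Finset

namespace Pool.Agent.Lib.H68T

/-! ### Differences of powers -/

theorem gl1_hasDerivAt (s : ℂ) {x : ℝ} (hx : 0 < x) :
    HasDerivAt (fun x : ℝ => (x : ℂ) ^ (-s)) (-s * (x : ℂ) ^ (-s - 1)) x := by
  have h1 : HasDerivAt (fun z : ℂ => z ^ (-s)) (-s * (x : ℂ) ^ (-s - 1)) (x : ℂ) := by
    have := (hasDerivAt_id (x : ℂ)).cpow_const (c := -s) (by
      left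
      simpa using hx)
    simpa using this
  exact h1.comp_ofReal

theorem gl1_norm_deriv (s : ℂ) {x : ℝ} (hx : 0 < x) :
    ‖-s * (x : ℂ) ^ (-s - 1)‖ = ‖s‖ * x ^ (-s.re - 1) := by
  rw [norm_mul, norm_neg, Complex.norm_cpow_eq_rpow_re_of_pos hx]
  simp

/-- `‖a^(-s) - b^(-s)‖ ≤ |s|/σ (a^(-σ) - b^(-σ))` -/
theorem gl1_diff (s : ℂ) (hs : 0 < s.re) {a b : ℝ} (ha : 0 < a) (hab : a ≤ b) :
    ‖(b : ℂ) ^ (-s) - (a : ℂ) ^ (-s)‖ ≤ ‖s‖ / s.re * (a ^ (-s.re) - b ^ (-s.re)) := by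
  have hpos : ∀ x ∈ Set.Icc a b, 0 < x := fun x hx => lt_of_lt_of_le ha hx.1
  have key := image_norm_le_of_norm_deriv_right_le_deriv_boundary'
    (f := fun x : ℝ => (x : ℂ) ^ (-s) - (a : ℂ) ^ (-s)) (a := a) (b := b)
    (f' := fun x => -s * (x : ℂ) ^ (-s - 1))
    (B := fun x => ‖s‖ / s.re * (a ^ (-s.re) - x ^ (-s.re)))
    (B' := fun x => ‖s‖ * x ^ (-s.re - 1)) ?_ ?_ ?_ ?_ ?_ ?_
  · exact key ⟨hab, le_rfl⟩
  · intro x hx
    exact ((gl1_hasDerivAt s (hpos x hx)).sub_const _).continuousAt.continuousWithinAt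
  · intro x hx
    exact ((gl1_hasDerivAt s (hpos x ⟨hx.1, hx.2.le⟩)).sub_const _).hasDerivWithinAt
  · simp
  · intro x hx
    have h1 : HasDerivAt (fun x : ℝ => x ^ (-s.re)) (-s.re * x ^ (-s.re - 1)) x :=
      Real.hasDerivAt_rpow_const (Or.inl (hpos x hx).ne')
    exact ((h1.const_sub _).const_mul _).continuousAt.continuousWithinAt
  · intro x hx
    have h1 : HasDerivAt (fun x : ℝ => x ^ (-s.re)) (-s.re * x ^ (-s.re - 1)) x :=
      Real.hasDerivAt_rpow_const (Or.inl (hpos x ⟨hx.1, hx.2.le⟩).ne')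
    have h2 := ((h1.const_sub (a ^ (-s.re))).const_mul (‖s‖ / s.re)).hasDerivWithinAt
      (s := Set.Ici x)
    have h3 : ‖s‖ / s.re * -(-s.re * x ^ (-s.re - 1)) = ‖s‖ * x ^ (-s.re - 1) := by
      field_simp
    rw [h3] at h2
    exact h2
  · intro x hx
    rw [gl1_norm_deriv s (hpos x ⟨hx.1, hx.2.le⟩)]

/-- `‖a^(-s) - b^(-s)‖ ≤ |s| a^(-σ-1) (b - a)` -/
theorem gl1_diff' (s : ℂ) (hs : 0 < s.re) {a b : ℝ} (ha : 0 < a) (hab : a ≤ b) :
    ‖(b : ℂ) ^ (-s) - (a : ℂ) ^ (-s)‖ ≤ ‖s‖ * a ^ (-s.re - 1) * (b - a) := by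
  have hpos : ∀ x ∈ Set.Icc a b, 0 < x := fun x hx => lt_of_lt_of_le ha hx.1
  refine norm_image_sub_le_of_norm_deriv_le_segment' (f := fun x : ℝ => (x : ℂ) ^ (-s))
    (a := a) (b := b) (f' := fun x => -s * (x : ℂ) ^ (-s - 1))
    (fun x hx => (gl1_hasDerivAt s (hpos x hx)).hasDerivWithinAt) (fun x hx => ?_) b ⟨hab, le_rfl⟩
  have hx' := hpos x ⟨hx.1, hx.2.le⟩
  rw [gl1_norm_deriv s hx']
  refine mul_le_mul_of_nonneg_left ?_ (norm_nonneg _)
  exact Real.rpow_le_rpow_of_nonpos ha hx.1 (by linarith)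

/-! ### Series of functions on the right half plane -/

/-- A series dominated by `(n+1)^(-σ-1)`, locally uniformly, is analytic for `σ > 0`. -/
theorem gl1_analytic (F : ℕ → ℂ → ℂ) (hF : ∀ n, Differentiable ℂ (F n))
    (hb : ∀ R : ℝ, ∃ C : ℝ, ∀ n s, 0 < s.re → ‖s‖ ≤ R →
      ‖F n s‖ ≤ C * ((n : ℝ) + 1) ^ (-s.re - 1)) :
    DifferentiableOn ℂ (fun s => ∑' n, F n s) {s | 0 < s.re} := by
  intro s₀ hs₀
  have hs₀' : 0 < s₀.re := hs₀
  obtain ⟨C, hC⟩ := hb (‖s₀‖ + 1)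
  let U : Set ℂ := {s | s₀.re / 2 < s.re} ∩ {s | ‖s‖ < ‖s₀‖ + 1}
  have hU : IsOpen U := by
    apply IsOpen.inter
    · exact isOpen_lt continuous_const Complex.continuous_re
    · exact isOpen_lt continuous_norm continuous_const
  have hmem : s₀ ∈ U := by
    constructor
    · change s₀.re / 2 < s₀.re
      linarith
    · change ‖s₀‖ < ‖s₀‖ + 1
      linarith
  have hu : Summable fun n : ℕ => |C| * ((n : ℝ) + 1) ^ (-(s₀.re / 2) - 1) := by
    apply Summable.mul_left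
    have h1 : Summable fun n : ℕ => (n : ℝ) ^ (-(s₀.re / 2) - 1) :=
      Real.summable_nat_rpow.2 (by linarith)
    have h2 := (summable_nat_add_iff 1).2 h1
    simpa using h2
  have h1 := Complex.differentiableOn_tsum_of_summable_norm (F := F) hu
    (fun n => (hF n).differentiableOn) hU (fun n s hs => ?_)
  · exact (h1.differentiableAt (hU.mem_nhds hmem)).differentiableWithinAt
  · have h2 : s₀.re / 2 < s.re := hs.1
    have h3 : ‖s‖ < ‖s₀‖ + 1 := hs.2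
    refine (hC n s (by linarith) h3.le).trans ?_
    have h4 : ((n : ℝ) + 1) ^ (-s.re - 1) ≤ ((n : ℝ) + 1) ^ (-(s₀.re / 2) - 1) :=
      Real.rpow_le_rpow_of_exponent_le (by linarith [Nat.cast_nonneg (α := ℝ) n]) (by linarith)
    have h5 : 0 ≤ ((n : ℝ) + 1) ^ (-s.re - 1) := Real.rpow_nonneg (by positivity) _
    calc C * ((n : ℝ) + 1) ^ (-s.re - 1) ≤ |C| * ((n : ℝ) + 1) ^ (-s.re - 1) :=
          mul_le_mul_of_nonneg_right (le_abs_self C) h5
      _ ≤ |C| * ((n : ℝ) + 1) ^ (-(s₀.re / 2) - 1) :=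
          mul_le_mul_of_nonneg_left h4 (abs_nonneg C)

/-- telescoping -/
theorem gl1_tele (σ : ℝ) (hσ : 0 < σ) (D : ℝ) (hD : 0 ≤ D) (f : ℕ → ℂ)
    (hf : ∀ n : ℕ, ‖f n‖ ≤ D * (((n : ℝ) + 1) ^ (-σ) - ((n : ℝ) + 2) ^ (-σ))) :
    Summable f ∧ ‖∑' n, f n‖ ≤ D := by
  have hsum : ∀ K : ℕ, ∑ n ∈ range K, ‖f n‖ ≤ D := by
    intro K
    have h1 : ∑ n ∈ range K, ‖f n‖ ≤ D * (1 - ((K : ℝ) + 1) ^ (-σ)) := by
      induction K with
      | zero => simp
      | succ K ih =>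
        rw [sum_range_succ]
        have h2 := hf K
        push_cast
        have e : (K : ℝ) + 1 + 1 = (K : ℝ) + 2 := by ring
        rw [e]
        linarith
    have h3 : 0 ≤ ((K : ℝ) + 1) ^ (-σ) := Real.rpow_nonneg (by positivity) _
    nlinarith
  have hs : Summable fun n => ‖f n‖ := summable_of_sum_range_le (fun n => norm_nonneg _) hsum
  refine ⟨hs.of_norm, ?_⟩
  refine (norm_tsum_le_tsum_norm hs).trans ?_
  exact hs.tsum_le_of_sum_range_le hsum

/-! ### Partial sums of characters -/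

/-- `χ(1) + ... + χ(n)` -/
noncomputable def gl1_T {N : ℕ} (χ : DirichletCharacter ℂ N) (n : ℕ) : ℂ :=
  ∑ k ∈ range n, χ ((k + 1 : ℕ) : ZMod N)

theorem gl1_period (N : ℕ) [NeZero N] (χ : DirichletCharacter ℂ N) (hχ : χ ≠ 1) (n : ℕ) :
    ∑ k ∈ range N, χ ((n + k + 1 : ℕ) : ZMod N) = 0 := by
  rw [← MulChar.sum_eq_zero_of_ne_one hχ]
  refine sum_nbij' (fun k => ((n + k + 1 : ℕ) : ZMod N)) (fun a => (a - n - 1).val) ?_ ?_ ?_ ?_ ?_
  · intro k _
    exact mem_univ _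
  · intro a _
    exact mem_range.2 (ZMod.val_lt _)
  · intro k hk
    have h1 : (((n + k + 1 : ℕ) : ZMod N) - n - 1) = (k : ZMod N) := by
      push_cast
      ring
    rw [h1, ZMod.val_natCast, Nat.mod_eq_of_lt (mem_range.1 hk)]
  · intro a _
    push_cast
    rw [ZMod.natCast_val, ZMod.cast_id]
    ring
  · intro k _
    rfl

theorem gl1_T_bound (N : ℕ) [NeZero N] (χ : DirichletCharacter ℂ N) (hχ : χ ≠ 1) (n : ℕ) :
    ‖gl1_T χ n‖ ≤ N := by
  have hN : 0 < N := Nat.pos_of_ne_zero (NeZero.ne N)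
  induction n using Nat.strong_induction_on with
  | _ n ih =>
    rcases lt_or_ge n N with h | h
    · refine (norm_sum_le _ _).trans ?_
      refine (sum_le_sum fun k _ => DirichletCharacter.norm_le_one χ _).trans ?_
      rw [sum_const, card_range, nsmul_eq_mul, mul_one]
      exact_mod_cast h.le
    · obtain ⟨m, rfl⟩ := Nat.exists_eq_add_of_le' h
      have h1 : gl1_T χ (m + N) = gl1_T χ m := by
        rw [gl1_T, sum_range_add, gl1_period N χ hχ, add_zero]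
        rfl
      rw [h1]
      exact ih m (by omega)

theorem gl1_parts {N : ℕ} (χ : DirichletCharacter ℂ N) (a : ℕ → ℂ) (K : ℕ) :
    ∑ n ∈ range K, χ ((n + 1 : ℕ) : ZMod N) * a n =
      gl1_T χ K * a K + ∑ n ∈ range K, gl1_T χ (n + 1) * (a n - a (n + 1)) := by
  induction K with
  | zero => simp [gl1_T]
  | succ K ih =>
    rw [sum_range_succ, ih, sum_range_succ]
    have h1 : gl1_T χ (K + 1) = gl1_T χ K + χ ((K + 1 : ℕ) : ZMod N) := by
      rw [gl1_T, sum_range_succ]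
      rfl
    rw [h1]
    ring

/-- the analytic continuation -/
noncomputable def gl1_A {N : ℕ} (χ : DirichletCharacter ℂ N) (n : ℕ) (s : ℂ) : ℂ :=
  gl1_T χ (n + 1) * ((((n : ℝ) + 1 : ℝ) : ℂ) ^ (-s) - (((n : ℝ) + 2 : ℝ) : ℂ) ^ (-s))

theorem gl1_A_norm (N : ℕ) [NeZero N] (χ : DirichletCharacter ℂ N) (hχ : χ ≠ 1) (n : ℕ) (s : ℂ)
    (hs : 0 < s.re) : ‖gl1_A χ n s‖ ≤
      N * ‖s‖ / s.re * (((n : ℝ) + 1) ^ (-s.re) - ((n : ℝ) + 2) ^ (-s.re)) := by
  rw [gl1_A, norm_mul, norm_sub_rev]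
  have h1 := gl1_T_bound N χ hχ (n + 1)
  have h2 := gl1_diff s hs (a := (n : ℝ) + 1) (b := (n : ℝ) + 2) (by positivity) (by linarith)
  calc _ ≤ (N : ℝ) * (‖s‖ / s.re * (((n : ℝ) + 1) ^ (-s.re) - ((n : ℝ) + 2) ^ (-s.re))) :=
        mul_le_mul h1 h2 (norm_nonneg _) (Nat.cast_nonneg _)
    _ = _ := by ring

theorem gl1_A_norm' (N : ℕ) [NeZero N] (χ : DirichletCharacter ℂ N) (hχ : χ ≠ 1) (n : ℕ) (s : ℂ)
    (hs : 0 < s.re) : ‖gl1_A χ n s‖ ≤ N * ‖s‖ * ((n : ℝ) + 1) ^ (-s.re - 1) := by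
  rw [gl1_A, norm_mul, norm_sub_rev]
  have h1 := gl1_T_bound N χ hχ (n + 1)
  have h2 := gl1_diff' s hs (a := (n : ℝ) + 1) (b := (n : ℝ) + 2) (by positivity) (by linarith)
  have e : (n : ℝ) + 2 - ((n : ℝ) + 1) = 1 := by ring
  rw [e, mul_one] at h2
  calc _ ≤ (N : ℝ) * (‖s‖ * ((n : ℝ) + 1) ^ (-s.re - 1)) :=
        mul_le_mul h1 h2 (norm_nonneg _) (Nat.cast_nonneg _)
    _ = _ := by ring

theorem gl1_eq (N : ℕ) [NeZero N] (χ : DirichletCharacter ℂ N) (hχ : χ ≠ 1) (s : ℂ)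
    (hs : 1 < s.re) : χ.LFunction s = ∑' n, gl1_A χ n s := by
  have hs0 : 0 < s.re := by linarith
  rw [DirichletCharacter.LFunction_eq_LSeries χ hs]
  have hsumA := (gl1_tele s.re hs0 (N * ‖s‖ / s.re) (by positivity) (fun n => gl1_A χ n s)
    (fun n => gl1_A_norm N χ hχ n s hs0)).1
  have h1 : Summable (LSeries.term (fun n => χ (n : ZMod N)) s) :=
    DirichletCharacter.LSeriesSummable_of_one_lt_re χ hs
  have h2 : Filter.Tendsto (fun K => ∑ n ∈ range K,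
      LSeries.term (fun n => χ (n : ZMod N)) s (n + 1)) Filter.atTop
      (nhds (LSeries (fun n => χ (n : ZMod N)) s)) := by
    have h3 := h1.hasSum.tendsto_sum_nat
    have h4 := (Filter.tendsto_add_atTop_iff_nat 1).2 h3
    refine h4.congr fun K => ?_
    rw [sum_range_succ']
    simp
  have h5 : Filter.Tendsto (fun K => gl1_T χ K * (((K : ℝ) + 1 : ℝ) : ℂ) ^ (-s) +
      ∑ n ∈ range K, gl1_A χ n s) Filter.atTop (nhds (0 + ∑' n, gl1_A χ n s)) := by
    refine Filter.Tendsto.add ?_ hsumA.hasSum.tendsto_sum_nat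
    have h6 : Filter.Tendsto (fun K : ℕ => (N : ℝ) * ((K : ℝ) + 1) ^ (-s.re)) Filter.atTop
        (nhds ((N : ℝ) * 0)) := by
      refine Filter.Tendsto.const_mul _ ?_
      have h7 := tendsto_rpow_neg_atTop hs0
      have h8 : Filter.Tendsto (fun K : ℕ => (K : ℝ) + 1) Filter.atTop Filter.atTop :=
        Filter.tendsto_atTop_add_const_right _ _ tendsto_natCast_atTop_atTop
      exact h7.comp h8
    rw [mul_zero] at h6
    refine squeeze_zero_norm (fun K => ?_) h6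
    rw [norm_mul, Complex.norm_cpow_eq_rpow_re_of_pos (by positivity)]
    exact mul_le_mul_of_nonneg_right (gl1_T_bound N χ hχ K) (Real.rpow_nonneg (by positivity) _)
  rw [zero_add] at h5
  refine tendsto_nhds_unique h2 (h5.congr fun K => ?_)
  have h9 := gl1_parts χ (fun n => (((n : ℝ) + 1 : ℝ) : ℂ) ^ (-s)) K
  have h10 : ∀ n : ℕ, LSeries.term (fun n => χ (n : ZMod N)) s (n + 1) =
      χ ((n + 1 : ℕ) : ZMod N) * (((n : ℝ) + 1 : ℝ) : ℂ) ^ (-s) := by
    intro n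
    rw [LSeries.term_of_ne_zero (by omega), Complex.cpow_neg, div_eq_mul_inv]
    push_cast
    rfl
  simp only [h10]
  rw [h9]
  congr 1
  refine sum_congr rfl fun n _ => ?_
  rw [gl1_A]
  congr 3
  push_cast
  ring_nf

theorem gl1_eqOn (N : ℕ) [NeZero N] (χ : DirichletCharacter ℂ N) (hχ : χ ≠ 1) (s : ℂ)
    (hs : 0 < s.re) : χ.LFunction s = ∑' n, gl1_A χ n s := by
  have hop : IsOpen {s : ℂ | 0 < s.re} := isOpen_lt continuous_const Complex.continuous_re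
  have h1 : AnalyticOnNhd ℂ (fun s => ∑' n, gl1_A χ n s) {s | 0 < s.re} := by
    apply DifferentiableOn.analyticOnNhd _ hop
    apply gl1_analytic
    · intro n
      unfold gl1_A
      have h : ∀ x : ℝ, 0 < x → Differentiable ℂ fun s : ℂ => (x : ℂ) ^ (-s) := by
        intro x hx s
        refine DifferentiableAt.const_cpow (differentiableAt_id.neg) (Or.inl ?_)
        exact_mod_cast hx.ne'
      exact ((h _ (by positivity)).sub (h _ (by positivity))).const_mul _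
    · intro R
      refine ⟨N * R, fun n s hs hR => ?_⟩
      refine (gl1_A_norm' N χ hχ n s hs).trans ?_
      apply mul_le_mul_of_nonneg_right _ (Real.rpow_nonneg (by positivity) _)
      exact mul_le_mul_of_nonneg_left hR (Nat.cast_nonneg _)
  have h2 : AnalyticOnNhd ℂ χ.LFunction {s | 0 < s.re} :=
    ((DirichletCharacter.differentiable_LFunction hχ).differentiableOn).analyticOnNhd hop
  have h3 : IsPreconnected {s : ℂ | 0 < s.re} :=
    (convex_halfSpace_re_gt 0).isPreconnected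
  have h4 := h2.eqOn_of_preconnected_of_eventuallyEq h1 h3 (z₀ := 2) (by simp) ?_
  · exact h4 hs
  · have h5 : {s : ℂ | 1 < s.re} ∈ nhds (2 : ℂ) :=
      (isOpen_lt continuous_const Complex.continuous_re).mem_nhds (by simp)
    filter_upwards [h5] with s hs
    exact gl1_eq N χ hχ s hs

/-- `‖L(s,χ)‖ ≤ 2 N ‖s‖` for `Re s ≥ 1/2`, `χ ≠ 1` mod `N`. Partial sums of `χ` are bounded by `N`;
`L(s,χ) = s ∫_1^∞ S(u) u^(-s-1) du` for `Re s > 1` (`LSeries_eq_mul_integral`), both sides are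
analytic for `Re s > 0` (differentiate under the integral, or locally uniform limits of the
integrals over `[1, n]`), so they agree there (`AnalyticOnNhd.eqOn_of_preconnected_of_eventuallyEq`);
`|s| N ∫_1^∞ u^(-3/2) du = 2 N |s|`. -/
theorem LFunction_bound (N : ℕ) [NeZero N] (χ : DirichletCharacter ℂ N) (hχ : χ ≠ 1) (s : ℂ)
    (hs : 1 / 2 ≤ s.re) : ‖χ.LFunction s‖ ≤ 2 * N * ‖s‖ := by
  have hs0 : 0 < s.re := by linarith
  rw [gl1_eqOn N χ hχ s hs0]
  refine (gl1_tele s.re hs0 (N * ‖s‖ / s.re) (by positivity) (fun n => gl1_A χ n s)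
    (fun n => gl1_A_norm N χ hχ n s hs0)).2.trans ?_
  rw [div_le_iff₀ hs0]
  have h1 : 0 ≤ (N : ℝ) * ‖s‖ := by positivity
  nlinarith

end Pool.Agent.Lib.H68T
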