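import Pool.Agent.Lib.H68T.Defs
import Pool.Agent.Lib.H68T.GL1

/-!
# Chunk GL2; part of GL: growth of L-functions and zeta
-/

open Finset

namespace Pool.Agent.Lib.H68T

/-- the terms of the continuation of `(s-1) ζ(s) - 1` -/
noncomputable def gl2_B (n : ℕ) (s : ℂ) : ℂ :=
  (s - 1) * (((n : ℝ) + 1 : ℝ) : ℂ) ^ (-s) +
    ((((n : ℝ) + 2 : ℝ) : ℂ) ^ (-(s - 1)) - (((n : ℝ) + 1 : ℝ) : ℂ) ^ (-(s - 1)))

theorem gl2_aux (s : ℂ) (a : ℝ) (ha : 0 < a) (D : ℝ)
    (hD : ∀ x ∈ Set.Icc a (a + 1), ‖(x : ℂ) ^ (-s) - (a : ℂ) ^ (-s)‖ ≤ D) :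
    ‖(s - 1) * (a : ℂ) ^ (-s) + (((a + 1 : ℝ) : ℂ) ^ (-(s - 1)) - (a : ℂ) ^ (-(s - 1)))‖ ≤
      ‖s - 1‖ * D := by
  have hpos : ∀ x ∈ Set.Icc a (a + 1), 0 < x := fun x hx => lt_of_lt_of_le ha hx.1
  have key := norm_image_sub_le_of_norm_deriv_le_segment'
    (f := fun x : ℝ => (s - 1) * (a : ℂ) ^ (-s) * (x : ℂ) + (x : ℂ) ^ (-(s - 1)))
    (a := a) (b := a + 1) (f' := fun x => (s - 1) * (a : ℂ) ^ (-s) * 1 +
      -(s - 1) * (x : ℂ) ^ (-(s - 1) - 1)) (C := ‖s - 1‖ * D) ?_ ?_ (a + 1) ⟨by linarith, le_rfl⟩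
  · have e1 : a + 1 - a = 1 := by ring
    rw [e1, mul_one] at key
    refine le_trans (le_of_eq ?_) key
    congr 1
    push_cast
    ring
  · intro x hx
    apply HasDerivAt.hasDerivWithinAt
    apply HasDerivAt.add
    · exact (Complex.ofRealCLM.hasDerivAt (x := x)).const_mul _
    · exact gl1_hasDerivAt (s - 1) (hpos x hx)
  · intro x hx
    have h1 : (s - 1) * (a : ℂ) ^ (-s) * 1 + -(s - 1) * (x : ℂ) ^ (-(s - 1) - 1) =
        (s - 1) * ((a : ℂ) ^ (-s) - (x : ℂ) ^ (-s)) := by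
      have e : -(s - 1) - 1 = -s := by ring
      rw [e]
      ring
    rw [h1, norm_mul, norm_sub_rev ((a : ℂ) ^ (-s))]
    exact mul_le_mul_of_nonneg_left (hD x ⟨hx.1, hx.2.le⟩) (norm_nonneg _)

theorem gl2_B_norm (n : ℕ) (s : ℂ) (hs : 0 < s.re) : ‖gl2_B n s‖ ≤
    ‖s - 1‖ * ‖s‖ / s.re * (((n : ℝ) + 1) ^ (-s.re) - ((n : ℝ) + 2) ^ (-s.re)) := by
  have h1 := gl2_aux s ((n : ℝ) + 1) (by positivity)
    (‖s‖ / s.re * (((n : ℝ) + 1) ^ (-s.re) - ((n : ℝ) + 2) ^ (-s.re))) (by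
      intro x hx
      refine (gl1_diff s hs (by positivity) hx.1).trans ?_
      refine mul_le_mul_of_nonneg_left ?_ (by positivity)
      have h2 : ((n : ℝ) + 2) ^ (-s.re) ≤ x ^ (-s.re) := by
        apply Real.rpow_le_rpow_of_nonpos
        · have : 0 < (n : ℝ) + 1 := by positivity
          linarith [hx.1]
        · linarith [hx.2]
        · linarith
      linarith)
  have e : (n : ℝ) + 1 + 1 = (n : ℝ) + 2 := by ring
  rw [e] at h1
  rw [gl2_B]
  refine h1.trans (le_of_eq ?_)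
  ring

theorem gl2_B_norm' (n : ℕ) (s : ℂ) (hs : 0 < s.re) : ‖gl2_B n s‖ ≤
    ‖s - 1‖ * ‖s‖ * ((n : ℝ) + 1) ^ (-s.re - 1) := by
  have h1 := gl2_aux s ((n : ℝ) + 1) (by positivity)
    (‖s‖ * ((n : ℝ) + 1) ^ (-s.re - 1)) (by
      intro x hx
      refine (gl1_diff' s hs (by positivity) hx.1).trans ?_
      have h2 : 0 ≤ ‖s‖ * ((n : ℝ) + 1) ^ (-s.re - 1) := by positivity
      have h3 : x - ((n : ℝ) + 1) ≤ 1 := by linarith [hx.2]
      nlinarith)
  have e : (n : ℝ) + 1 + 1 = (n : ℝ) + 2 := by ring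
  rw [e] at h1
  rw [gl2_B]
  refine h1.trans (le_of_eq ?_)
  ring

theorem gl2_eq (s : ℂ) (hs : 1 < s.re) : (s - 1) * riemannZeta s = 1 + ∑' n, gl2_B n s := by
  have hs0 : 0 < s.re := by linarith
  have hsumB := (gl1_tele s.re hs0 (‖s - 1‖ * ‖s‖ / s.re) (by positivity) (fun n => gl2_B n s)
    (fun n => gl2_B_norm n s hs0)).1
  have h1 : Summable fun n : ℕ => 1 / ((n : ℂ) + 1) ^ s := by
    have h2 := Complex.summable_one_div_nat_cpow.2 hs
    have h3 := (summable_nat_add_iff 1).2 h2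
    simpa using h3
  have h2 : Filter.Tendsto (fun K => ∑ n ∈ range K, 1 / ((n : ℂ) + 1) ^ s) Filter.atTop
      (nhds (riemannZeta s)) := by
    rw [zeta_eq_tsum_one_div_nat_add_one_cpow hs]
    exact h1.hasSum.tendsto_sum_nat
  have h3 : Filter.Tendsto (fun K : ℕ => (((K : ℝ) + 1 : ℝ) : ℂ) ^ (-(s - 1))) Filter.atTop
      (nhds 0) := by
    have h6 : Filter.Tendsto (fun K : ℕ => ((K : ℝ) + 1) ^ (-(s.re - 1))) Filter.atTop
        (nhds 0) := by
      have h7 := tendsto_rpow_neg_atTop (y := s.re - 1) (by linarith)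
      have h8 : Filter.Tendsto (fun K : ℕ => (K : ℝ) + 1) Filter.atTop Filter.atTop :=
        Filter.tendsto_atTop_add_const_right _ _ tendsto_natCast_atTop_atTop
      exact h7.comp h8
    refine squeeze_zero_norm (fun K => ?_) h6
    rw [Complex.norm_cpow_eq_rpow_re_of_pos (by positivity)]
    simp
  have h4 : ∀ K : ℕ, ∑ n ∈ range K, gl2_B n s = (s - 1) * ∑ n ∈ range K, 1 / ((n : ℂ) + 1) ^ s +
      ((((K : ℝ) + 1 : ℝ) : ℂ) ^ (-(s - 1)) - 1) := by
    intro K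
    induction K with
    | zero => simp
    | succ K ih =>
      rw [sum_range_succ, sum_range_succ, ih, gl2_B]
      have e1 : (((K : ℝ) + 1 : ℝ) : ℂ) ^ (-s) = 1 / ((K : ℂ) + 1) ^ s := by
        rw [Complex.cpow_neg, one_div]
        push_cast
        rfl
      have e2 : (((K + 1 : ℕ) : ℝ) + 1 : ℝ) = (K : ℝ) + 2 := by
        push_cast
        ring
      rw [e1, e2]
      ring
  have h5 : Filter.Tendsto (fun K => ∑ n ∈ range K, gl2_B n s) Filter.atTop
      (nhds ((s - 1) * riemannZeta s + (0 - 1))) := by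
    refine ((h2.const_mul (s - 1)).add (h3.sub_const 1)).congr fun K => ?_
    rw [h4]
  have h6 := tendsto_nhds_unique hsumB.hasSum.tendsto_sum_nat h5
  rw [h6]
  ring

/-- `(s-1) ζ(s)`, the entire function -/
noncomputable def gl2_Z : ℂ → ℂ := DirichletCharacter.LFunctionTrivChar₁ 1

theorem gl2_Z_differentiable : Differentiable ℂ gl2_Z :=
  DirichletCharacter.differentiable_LFunctionTrivChar₁ 1

theorem gl2_Z_eq (s : ℂ) (hs : s ≠ 1) : gl2_Z s = (s - 1) * riemannZeta s := by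
  unfold gl2_Z
  rw [DirichletCharacter.LFunctionTrivChar₁, Function.update_of_ne hs,
    DirichletCharacter.LFunctionTrivChar, DirichletCharacter.LFunction_modOne_eq]

theorem gl2_Z_one : gl2_Z 1 = 1 := by
  unfold gl2_Z
  rw [DirichletCharacter.LFunctionTrivChar₁, Function.update_self]
  simp

theorem gl2_eqOn (s : ℂ) (hs : 0 < s.re) : gl2_Z s = 1 + ∑' n, gl2_B n s := by
  have hop : IsOpen {s : ℂ | 0 < s.re} := isOpen_lt continuous_const Complex.continuous_re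
  have h1 : AnalyticOnNhd ℂ (fun s => 1 + ∑' n, gl2_B n s) {s | 0 < s.re} := by
    apply DifferentiableOn.analyticOnNhd _ hop
    refine DifferentiableOn.const_add 1 ?_
    apply gl1_analytic
    · intro n
      unfold gl2_B
      have h : ∀ (x : ℝ) (a : ℂ), 0 < x → Differentiable ℂ fun s : ℂ => (x : ℂ) ^ (-(s - a)) := by
        intro x a hx s
        refine DifferentiableAt.const_cpow ((differentiableAt_id.sub_const a).neg) (Or.inl ?_)
        exact_mod_cast hx.ne'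
      have h0 : ∀ (x : ℝ), 0 < x → Differentiable ℂ fun s : ℂ => (x : ℂ) ^ (-s) := by
        intro x hx
        simpa using h x 0 hx
      exact ((differentiable_id.sub_const 1).mul (h0 _ (by positivity))).add
        ((h _ 1 (by positivity)).sub (h _ 1 (by positivity)))
    · intro R
      refine ⟨(|R| + 1) * |R|, fun n s hs hR => ?_⟩
      refine (gl2_B_norm' n s hs).trans ?_
      apply mul_le_mul_of_nonneg_right _ (Real.rpow_nonneg (by positivity) _)
      have hR' : ‖s‖ ≤ |R| := hR.trans (le_abs_self R)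
      have h2 : ‖s - 1‖ ≤ |R| + 1 := by
        refine (norm_sub_le _ _).trans ?_
        rw [norm_one]
        linarith
      exact mul_le_mul h2 hR' (norm_nonneg _) (by positivity)
  have h2 : AnalyticOnNhd ℂ gl2_Z {s | 0 < s.re} :=
    (gl2_Z_differentiable.differentiableOn).analyticOnNhd hop
  have h3 : IsPreconnected {s : ℂ | 0 < s.re} :=
    (convex_halfSpace_re_gt 0).isPreconnected
  have h4 := h2.eqOn_of_preconnected_of_eventuallyEq h1 h3 (z₀ := 2) (by simp) ?_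
  · exact h4 hs
  · have h5 : {s : ℂ | 1 < s.re} ∈ nhds (2 : ℂ) :=
      (isOpen_lt continuous_const Complex.continuous_re).mem_nhds (by simp)
    filter_upwards [h5] with s hs
    have hs' : 1 < s.re := hs
    rw [gl2_Z_eq s (by rintro rfl; simp at hs'), gl2_eq s hs]

theorem gl2_Z_bound (s : ℂ) (h1 : 1 / 2 ≤ s.re) (h3 : s.re ≤ 3) :
    ‖gl2_Z s‖ ≤ 4 * (|s.im| + 3) ^ 2 := by
  have hs0 : 0 < s.re := by linarith
  rw [gl2_eqOn s hs0]
  have h4 := (gl1_tele s.re hs0 (‖s - 1‖ * ‖s‖ / s.re) (by positivity) (fun n => gl2_B n s)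
    (fun n => gl2_B_norm n s hs0)).2
  have h5 : ‖s‖ ≤ |s.im| + 3 := by
    refine (Complex.norm_le_abs_re_add_abs_im s).trans ?_
    rw [abs_of_pos hs0]
    linarith
  have h6 : ‖s - 1‖ ≤ |s.im| + 4 := by
    refine (norm_sub_le _ _).trans ?_
    rw [norm_one]
    linarith
  have h7 : ‖s - 1‖ * ‖s‖ / s.re ≤ 2 * ((|s.im| + 4) * (|s.im| + 3)) := by
    rw [div_le_iff₀ hs0]
    have h8 : ‖s - 1‖ * ‖s‖ ≤ (|s.im| + 4) * (|s.im| + 3) :=
      mul_le_mul h6 h5 (norm_nonneg _) (by positivity)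
    have h9 : 0 ≤ (|s.im| + 4) * (|s.im| + 3) := by positivity
    nlinarith
  have h8 : ‖1 + ∑' n, gl2_B n s‖ ≤ 1 + 2 * ((|s.im| + 4) * (|s.im| + 3)) := by
    refine (norm_add_le _ _).trans ?_
    rw [norm_one]
    linarith
  have h9 : 0 ≤ |s.im| := abs_nonneg _
  nlinarith

/-- `‖(s-1) ζ(s)‖ ≤ C (|Im s| + 3)²` for `1/2 ≤ Re s ≤ 3`:
`ζ(s) = s/(s-1) - s ∫_1^∞ {u} u^(-s-1) du`, same analytic continuation argument (or any bound in
Mathlib). -/
theorem zeta_bound : ∃ C : ℝ, 0 < C ∧ ∀ s : ℂ, 1 / 2 ≤ s.re → s.re ≤ 3 →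
    ‖(s - 1) * riemannZeta s‖ ≤ C * (|s.im| + 3) ^ 2 := by
  refine ⟨4, by norm_num, fun s h1 h3 => ?_⟩
  by_cases hs : s = 1
  · subst hs
    simp
  · rw [← gl2_Z_eq s hs]
    exact gl2_Z_bound s h1 h3

end Pool.Agent.Lib.H68T
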