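import Mathlib

/-!
# Chunk LAN: Landau's local lemma
-/

open Finset Metric

namespace Pool.Agent.Lib.H68T

theorem LAN_remove {U : Set ℂ} {f : ℂ → ℂ} (hf : AnalyticOnNhd ℂ f U) {ρ : ℂ} (hρ : ρ ∈ U)
    (hne : ¬ ∀ᶠ z in nhds ρ, f z = 0) :
    ∃ (n : ℕ) (h : ℂ → ℂ), AnalyticOnNhd ℂ h U ∧ h ρ ≠ 0 ∧ ∀ s, f s = (s - ρ) ^ n * h s := by
  obtain ⟨n, g, hg, hg0, hev⟩ :=
    (AnalyticAt.exists_eventuallyEq_pow_smul_nonzero_iff (hf ρ hρ)).mpr hne
  classical
  refine ⟨n, fun s => if s = ρ then g ρ else f s / (s - ρ) ^ n, ?_, ?_, ?_⟩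
  · intro s hs
    by_cases hsρ : s = ρ
    · subst hsρ
      refine hg.congr ?_
      filter_upwards [hev] with z hz
      by_cases hz1 : z = s
      · simp [hz1]
      · have h1 : (z - s) ^ n ≠ 0 := pow_ne_zero _ (sub_ne_zero.mpr hz1)
        simp only [hz1, if_false]
        rw [hz, smul_eq_mul]
        field_simp
    · have h1 : AnalyticAt ℂ (fun z => f z / (z - ρ) ^ n) s := by
        refine (hf s hs).div ?_ ?_
        · fun_prop
        · exact pow_ne_zero _ (sub_ne_zero.mpr hsρ)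
      refine h1.congr ?_
      filter_upwards [isOpen_ne.mem_nhds hsρ] with z hz
      have hz' : z ≠ ρ := hz
      simp [hz']
  · simpa using hg0
  · intro s
    by_cases hs : s = ρ
    · subst hs
      simp only [if_true]
      have := hev.self_of_nhds
      simpa [smul_eq_mul] using this
    · have h1 : (s - ρ) ^ n ≠ 0 := pow_ne_zero _ (sub_ne_zero.mpr hs)
      simp only [hs, if_false]
      field_simp

theorem LAN_factor {U : Set ℂ} (f : ℂ → ℂ) (hf : AnalyticOnNhd ℂ f U)
    (hne : ∀ ρ ∈ U, ¬ ∀ᶠ z in nhds ρ, f z = 0) (T : Finset ℂ) (hT : ∀ t ∈ T, t ∈ U) :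
    ∃ (Z : Multiset ℂ) (h : ℂ → ℂ), AnalyticOnNhd ℂ h U ∧ (∀ t ∈ T, h t ≠ 0) ∧
      (∀ ρ ∈ Z, ρ ∈ T ∧ f ρ = 0) ∧ (∀ ρ ∈ T, f ρ = 0 → ρ ∈ Z) ∧
      ∀ s, f s = (Z.map (fun ρ => s - ρ)).prod * h s := by
  classical
  induction T using Finset.induction_on with
  | empty => exact ⟨0, f, hf, by simp, by simp, by simp, by simp⟩
  | insert ρ T' hρT' ih =>
    obtain ⟨Z, h, hh, hh0, hZ, hZ', hfac⟩ := ih (fun t ht => hT t (mem_insert_of_mem ht))
    have hρU : ρ ∈ U := hT ρ (mem_insert_self _ _)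
    have hne' : ¬ ∀ᶠ z in nhds ρ, h z = 0 := by
      intro hev
      apply hne ρ hρU
      filter_upwards [hev] with z hz
      rw [hfac, hz, mul_zero]
    obtain ⟨n, g, hg, hg0, hfac2⟩ := LAN_remove hh hρU hne'
    refine ⟨Multiset.replicate n ρ + Z, g, hg, ?_, ?_, ?_, ?_⟩
    · intro t ht
      rcases mem_insert.mp ht with rfl | ht
      · exact hg0
      · intro h0
        apply hh0 t ht
        rw [hfac2, h0, mul_zero]
    · intro t ht
      rcases Multiset.mem_add.mp ht with ht | ht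
      · obtain ⟨hn, rfl⟩ := Multiset.mem_replicate.mp ht
        refine ⟨mem_insert_self _ _, ?_⟩
        rw [hfac, hfac2, sub_self, zero_pow hn, zero_mul, mul_zero]
      · exact ⟨mem_insert_of_mem (hZ t ht).1, (hZ t ht).2⟩
    · intro t ht h0
      rcases mem_insert.mp ht with rfl | ht
      · rw [Multiset.mem_add, Multiset.mem_replicate]
        left
        refine ⟨?_, rfl⟩
        rintro rfl
        have h1 : h t ≠ 0 := by
          rw [hfac2]; simpa using hg0
        rw [hfac] at h0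
        rcases mul_eq_zero.mp h0 with h2 | h2
        · rw [Multiset.prod_eq_zero_iff, Multiset.mem_map] at h2
          obtain ⟨a, ha, hat⟩ := h2
          have : t = a := sub_eq_zero.mp hat
          exact hρT' (this ▸ (hZ a ha).1)
        · exact h1 h2
      · exact Multiset.mem_add.mpr (Or.inr (hZ' t ht h0))
    · intro s
      rw [hfac, hfac2, Multiset.map_add, Multiset.prod_add, Multiset.map_replicate,
        Multiset.prod_replicate]
      ring

theorem LAN_logDeriv_prod (Z : Multiset ℂ) (s : ℂ) (hs : ∀ ρ ∈ Z, s ≠ ρ) :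
    logDeriv (fun z => (Z.map (fun ρ => z - ρ)).prod) s = (Z.map (fun ρ => 1 / (s - ρ))).sum ∧
      (Z.map (fun ρ => s - ρ)).prod ≠ 0 ∧
      DifferentiableAt ℂ (fun z => (Z.map (fun ρ => z - ρ)).prod) s := by
  induction Z using Multiset.induction_on with
  | empty => simp [logDeriv]
  | cons a Z ih =>
    obtain ⟨h1, h2, h3⟩ := ih (fun ρ hρ => hs ρ (Multiset.mem_cons_of_mem hρ))
    have ha : s - a ≠ 0 := sub_ne_zero.mpr (hs a (Multiset.mem_cons_self a Z))
    simp only [Multiset.map_cons, Multiset.prod_cons, Multiset.sum_cons]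
    have hd : DifferentiableAt ℂ (fun z : ℂ => z - a) s := by fun_prop
    refine ⟨?_, mul_ne_zero ha h2, hd.mul h3⟩
    have := logDeriv_mul (f := fun z : ℂ => z - a) (g := fun z => (Z.map (fun ρ => z - ρ)).prod) s
      ha h2 hd h3
    rw [this, h1]
    congr 1
    simp [logDeriv]

/-- Borel–Carathéodory part. -/
theorem LAN_zero_free (g : ℂ → ℂ) (s₀ : ℂ) (R M : ℝ) (hR : 0 < R) (hM : 0 ≤ M)
    (hg : AnalyticOnNhd ℂ g (closedBall s₀ R)) (hg0 : ∀ s ∈ closedBall s₀ (R / 2), g s ≠ 0)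
    (hb : ∀ s ∈ closedBall s₀ R, ‖g s‖ ≤ Real.exp M * ‖g s₀‖) :
    ∀ s ∈ closedBall s₀ (R / 4), ‖deriv g s / g s‖ ≤ 48 * (M + 1) / R := by
  have hsub : ball s₀ (R / 2) ⊆ closedBall s₀ R :=
    (ball_subset_closedBall).trans (closedBall_subset_closedBall (by linarith))
  have hs0 : s₀ ∈ ball s₀ (R / 2) := mem_ball_self (by positivity)
  have hq : DifferentiableOn ℂ (fun s => deriv g s / g s) (ball s₀ (R / 2)) := by
    intro s hs
    refine DifferentiableAt.differentiableWithinAt ?_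
    refine DifferentiableAt.div ((hg s (hsub hs)).deriv.differentiableAt)
      (hg s (hsub hs)).differentiableAt (hg0 s (ball_subset_closedBall hs))
  obtain ⟨φ, hφ0, hφ⟩ := Complex.IsExactOn.with_val_at hq.isExactOn_ball s₀ 0
  -- g = g s₀ * exp φ
  have hgs0 : g s₀ ≠ 0 := hg0 s₀ (ball_subset_closedBall hs0)
  have hexp : ∀ s ∈ ball s₀ (R / 2), g s = g s₀ * Complex.exp (φ s) := by
    intro s hs
    have hconst : ∀ x ∈ ball s₀ (R / 2), g x * Complex.exp (-φ x) = g s₀ * Complex.exp (-φ s₀) := by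
      intro x hx
      refine (convex_ball s₀ (R / 2)).is_const_of_fderivWithin_eq_zero (𝕜 := ℂ)
        (f := fun x => g x * Complex.exp (-φ x)) ?_ ?_ hx hs0
      · intro y hy
        exact ((hg y (hsub hy)).differentiableAt.mul
          ((hφ y hy).differentiableAt.neg.cexp)).differentiableWithinAt
      · intro y hy
        have hd : HasDerivAt (fun x => g x * Complex.exp (-φ x)) 0 y := by
          have h1 := (hg y (hsub hy)).differentiableAt.hasDerivAt
          have h2 := (hφ y hy).neg.cexp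
          have h3 := h1.mul h2
          have h4 : deriv g y * Complex.exp (-φ y) +
              g y * (Complex.exp (-φ y) * -(deriv g y / g y)) = 0 := by
            have := hg0 y (ball_subset_closedBall hy)
            field_simp
            ring
          rw [← h4]
          exact h3
        have h5 := (hd.hasFDerivAt.hasFDerivWithinAt (s := ball s₀ (R / 2))).fderivWithin
          (isOpen_ball.uniqueDiffWithinAt hy)
        rw [h5]
        ext
        simp
    have h1 := hconst s hs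
    rw [hφ0, neg_zero, Complex.exp_zero, mul_one] at h1
    rw [← h1, mul_assoc, ← Complex.exp_add, neg_add_cancel, Complex.exp_zero, mul_one]
  have hre : ∀ s ∈ ball s₀ (R / 2), (φ s).re ≤ M + 1 := by
    intro s hs
    have h1 := hb s (hsub hs)
    rw [hexp s hs, norm_mul, Complex.norm_exp, mul_comm] at h1
    have h2 : Real.exp (φ s).re ≤ Real.exp M := le_of_mul_le_mul_right h1 (norm_pos_iff.mpr hgs0)
    have := Real.exp_le_exp.mp h2
    linarith
  have hφb : ∀ s ∈ closedBall s₀ (3 * R / 8), ‖φ s‖ ≤ 6 * (M + 1) := by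
    intro s hs
    have hn : ‖s - s₀‖ ≤ 3 * R / 8 := by rwa [mem_closedBall_iff_norm] at hs
    have h := Complex.borelCaratheodory_zero (M := M + 1) (R := R / 2) (z := s - s₀)
      (f := fun z => φ (s₀ + z)) (by linarith) ?_ ?_ (by linarith) ?_ ?_
    · simp only [add_sub_cancel] at h
      refine h.trans ?_
      have hpos : 0 < R / 2 - ‖s - s₀‖ := by linarith
      rw [div_le_iff₀ hpos]
      nlinarith
    · intro z hz
      have hz' : s₀ + z ∈ ball s₀ (R / 2) := by
        rw [mem_ball_iff_norm] at hz ⊢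
        simpa using hz
      have h1 : DifferentiableAt ℂ φ (s₀ + z) := (hφ _ hz').differentiableAt
      have h2 : DifferentiableAt ℂ (fun z => s₀ + z) z := by fun_prop
      exact (h1.comp z h2).differentiableWithinAt
    · intro z hz
      have hz' : s₀ + z ∈ ball s₀ (R / 2) := by
        rw [mem_ball_iff_norm] at hz ⊢
        simpa using hz
      exact hre _ hz'
    · rw [mem_ball_iff_norm, sub_zero]; linarith
    · simpa using hφ0
  intro s hs
  have hs4 : ‖s - s₀‖ ≤ R / 4 := by rwa [mem_closedBall_iff_norm] at hs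
  have hsb : s ∈ ball s₀ (R / 2) := by rw [mem_ball_iff_norm]; linarith
  have hcau := Complex.norm_deriv_le_of_forall_mem_sphere_norm_le (c := s) (R := R / 8)
    (C := 6 * (M + 1)) (f := φ) (by linarith) ?_ ?_
  · rw [(hφ s hsb).deriv] at hcau
    refine hcau.trans (le_of_eq ?_)
    field_simp
    ring
  · refine DifferentiableOn.diffContOnCl ?_
    rw [closure_ball _ (by positivity)]
    intro z hz
    have hz' : z ∈ ball s₀ (R / 2) := by
      rw [mem_closedBall_iff_norm] at hz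
      rw [mem_ball_iff_norm]
      calc ‖z - s₀‖ = ‖(z - s) + (s - s₀)‖ := by ring_nf
        _ ≤ ‖z - s‖ + ‖s - s₀‖ := norm_add_le _ _
        _ < R / 2 := by linarith
    exact (hφ z hz').differentiableAt.differentiableWithinAt
  · intro z hz
    apply hφb
    rw [mem_sphere_iff_norm] at hz
    rw [mem_closedBall_iff_norm]
    calc ‖z - s₀‖ = ‖(z - s) + (s - s₀)‖ := by ring_nf
      _ ≤ ‖z - s‖ + ‖s - s₀‖ := norm_add_le _ _
      _ ≤ 3 * R / 8 := by linarith

/-- **Landau's lemma** (Titchmarsh, 3.9, Lemma α). `f` analytic on the closed disc of radius `R`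
about `s₀`, `‖f(s)/f(s₀)‖ ≤ e^M` there, `M ≥ 0`... then in the disc of radius `R/4` the logarithmic
derivative differs from `∑ 1/(s-ρ)`, over the zeros in the disc of radius `R/2` (with
multiplicity), by at most `A M/R`.

Proof. `g(s) = f(s) ∏ (s-ρ)^(-1)` over the zeros `|ρ - s₀| ≤ R/2` (finitely many, with
multiplicity; e.g. `MeromorphicOn.extract_zeros_poles` or induction on the order, removing one zero
at a time with `dslope`), analytic on the big disc, non-zero for `|s - s₀| ≤ R/2`. On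
`|s - s₀| = R`: `|s - ρ| ≥ R/2 ≥ |s₀ - ρ|`, so `|g(s)/g(s₀)| ≤ e^M`, hence everywhere in the disc
(maximum modulus). On the disc of radius `R/2`, `h = log (g/g(s₀))` exists, `h(s₀) = 0`, `Re h ≤ M`;
Borel-Carathéodory (`Complex.borelCaratheodory_zero`): `|h| ≤ 6 M'` for `|s-s₀| ≤ 3R/8` (any
`M' > M`, e.g. `M' = M + 1`; that is why `M + 1` appears), Cauchy: `|h'| ≤ 48 M'/R` for
`|s-s₀| ≤ R/4`, and `h' = f'/f - ∑ 1/(s-ρ)`. -/
theorem landau : ∃ A : ℝ, 0 < A ∧ ∀ (f : ℂ → ℂ) (s₀ : ℂ) (R M : ℝ), 0 < R → 0 ≤ M →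
    AnalyticOnNhd ℂ f (closedBall s₀ R) → f s₀ ≠ 0 →
    (∀ s ∈ closedBall s₀ R, ‖f s‖ ≤ Real.exp M * ‖f s₀‖) →
    ∃ Z : Multiset ℂ, (∀ ρ ∈ Z, ‖ρ - s₀‖ ≤ R / 2 ∧ f ρ = 0) ∧
      (∀ ρ, ‖ρ - s₀‖ ≤ R / 2 → f ρ = 0 → ρ ∈ Z) ∧
      ∀ s ∈ closedBall s₀ (R / 4), f s ≠ 0 →
        ‖deriv f s / f s - (Z.map (fun ρ => 1 / (s - ρ))).sum‖ ≤ A * (M + 1) / R := by
  refine ⟨48, by norm_num, ?_⟩
  intro f s₀ R M hR hM hf hf0 hb
  have hs0 : s₀ ∈ closedBall s₀ R := mem_closedBall_self hR.le
  have hpre : IsPreconnected (closedBall s₀ R) := (convex_closedBall s₀ R).isPreconnected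
  have hne : ∀ ρ ∈ closedBall s₀ R, ¬ ∀ᶠ z in nhds ρ, f z = 0 := by
    intro ρ hρ hev
    exact hf0 (hf.eqOn_zero_of_preconnected_of_eventuallyEq_zero hpre hρ hev hs0)
  -- finiteness of the zeros
  have hfin : {ρ : ℂ | ρ ∈ closedBall s₀ (R / 2) ∧ f ρ = 0}.Finite := by
    by_contra hinf
    obtain ⟨x, hx, hacc⟩ := Set.Infinite.exists_accPt_of_subset_isCompact hinf
      (isCompact_closedBall s₀ (R / 2)) (fun ρ hρ => hρ.1)
    rw [accPt_iff_frequently_nhdsNE] at hacc
    have hx' : x ∈ closedBall s₀ R := closedBall_subset_closedBall (by linarith) hx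
    exact hf0 (hf.eqOn_zero_of_preconnected_of_frequently_eq_zero hpre hx'
      (hacc.mono fun y hy => hy.2) hs0)
  obtain ⟨Z, g, hg, hgT, hZ, hZ', hfac⟩ := LAN_factor f hf hne hfin.toFinset (fun t ht =>
    closedBall_subset_closedBall (by linarith) ((Set.Finite.mem_toFinset hfin).mp ht).1)
  refine ⟨Z, ?_, ?_, ?_⟩
  · intro ρ hρ
    refine ⟨?_, (hZ ρ hρ).2⟩
    have := ((Set.Finite.mem_toFinset hfin).mp (hZ ρ hρ).1).1
    rwa [mem_closedBall_iff_norm] at this
  · intro ρ h1 h2
    exact hZ' ρ ((Set.Finite.mem_toFinset hfin).mpr ⟨by rwa [mem_closedBall_iff_norm], h2⟩) h2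
  · have hZn : ∀ ρ ∈ Z, ‖ρ - s₀‖ ≤ R / 2 := by
      intro ρ hρ
      have := ((Set.Finite.mem_toFinset hfin).mp (hZ ρ hρ).1).1
      rwa [mem_closedBall_iff_norm] at this
    have hg0 : ∀ s ∈ closedBall s₀ (R / 2), g s ≠ 0 := by
      intro s hs h0
      have hfs : f s = 0 := by rw [hfac, h0, mul_zero]
      exact hgT s ((Set.Finite.mem_toFinset hfin).mpr ⟨hs, hfs⟩) h0
    -- bound on the sphere
    have hsph : ∀ s ∈ sphere s₀ R, ‖g s‖ ≤ Real.exp M * ‖g s₀‖ := by
      intro s hs
      have hns : ‖s - s₀‖ = R := by rwa [mem_sphere_iff_norm] at hs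
      have h1 := hb s (sphere_subset_closedBall hs)
      rw [hfac s, hfac s₀, norm_mul, norm_mul] at h1
      have hle : ‖(Z.map (fun ρ => s₀ - ρ)).prod‖ ≤ ‖(Z.map (fun ρ => s - ρ)).prod‖ ∧
          0 < ‖(Z.map (fun ρ => s - ρ)).prod‖ := by
        clear hZ hZ' hfac h1
        induction Z using Multiset.induction_on with
        | empty => simp
        | cons a Z ih =>
          obtain ⟨h2, h3⟩ := ih (fun ρ hρ => hZn ρ (Multiset.mem_cons_of_mem hρ))
          have ha := hZn a (Multiset.mem_cons_self a Z)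
          have h4 : R / 2 ≤ ‖s - a‖ := by
            have h5 : ‖s - s₀‖ ≤ ‖s - a‖ + ‖a - s₀‖ := by
              calc ‖s - s₀‖ = ‖(s - a) + (a - s₀)‖ := by ring_nf
                _ ≤ _ := norm_add_le _ _
            linarith
          simp only [Multiset.map_cons, Multiset.prod_cons, norm_mul]
          refine ⟨?_, mul_pos (by linarith) h3⟩
          refine mul_le_mul ?_ h2 (norm_nonneg _) (norm_nonneg _)
          rw [norm_sub_rev]
          linarith
      obtain ⟨h2, h3⟩ := hle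
      have h4 : ‖(Z.map (fun ρ => s - ρ)).prod‖ * ‖g s‖ ≤
          ‖(Z.map (fun ρ => s - ρ)).prod‖ * (Real.exp M * ‖g s₀‖) := by
        refine h1.trans ?_
        calc Real.exp M * (‖(Z.map (fun ρ => s₀ - ρ)).prod‖ * ‖g s₀‖)
            = ‖(Z.map (fun ρ => s₀ - ρ)).prod‖ * (Real.exp M * ‖g s₀‖) := by ring
          _ ≤ _ := mul_le_mul_of_nonneg_right h2 (by positivity)
      exact le_of_mul_le_mul_left h4 h3
    have hball : ∀ s ∈ closedBall s₀ R, ‖g s‖ ≤ Real.exp M * ‖g s₀‖ := by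
      intro s hs
      refine Complex.norm_le_of_forall_mem_frontier_norm_le (U := ball s₀ R) isBounded_ball ?_ ?_ ?_
      · refine DifferentiableOn.diffContOnCl ?_
        rw [closure_ball _ hR.ne']
        exact fun z hz => (hg z hz).differentiableAt.differentiableWithinAt
      · intro z hz
        rw [frontier_ball _ hR.ne'] at hz
        exact hsph z hz
      · rwa [closure_ball _ hR.ne']
    have hfinal := LAN_zero_free g s₀ R M hR hM hg hg0 hball
    intro s hs hfs
    have hsR : s ∈ closedBall s₀ R := closedBall_subset_closedBall (by linarith) hs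
    have hZs : ∀ ρ ∈ Z, s ≠ ρ := by
      rintro ρ hρ rfl
      exact hfs (hZ s hρ).2
    obtain ⟨h1, h2, h3⟩ := LAN_logDeriv_prod Z s hZs
    have hgs : g s ≠ 0 := by
      intro h0
      exact hfs (by rw [hfac, h0, mul_zero])
    have hff : f = fun z => (Z.map (fun ρ => z - ρ)).prod * g z := funext hfac
    have h4 := logDeriv_mul (f := fun z => (Z.map (fun ρ => z - ρ)).prod) (g := g) s h2 hgs h3
      (hg s hsR).differentiableAt
    have h5 : deriv f s / f s = (Z.map (fun ρ => 1 / (s - ρ))).sum + deriv g s / g s := by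
      rw [← h1]
      have : logDeriv f s = deriv f s / f s := by rw [logDeriv_apply]
      rw [← this]
      have h6 : logDeriv g s = deriv g s / g s := by rw [logDeriv_apply]
      rw [← h6, ← h4, hff]
    rw [h5, add_sub_cancel_left]
    exact hfinal s hs

end Pool.Agent.Lib.H68T
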