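import Pool.Agent.Lib.H68T.GL
import Pool.Agent.Lib.H68T.LAN

/-!
# Chunk LAB1; part of LAB: real parts of logarithmic derivatives
-/

open Finset ArithmeticFunction

namespace Pool.Agent.Lib.H68T

/-! ### The series of the von Mangoldt function and the logarithmic derivatives -/

theorem lab1_zeta (s : ℂ) (hs : 1 < s.re) :
    LSeries (fun n => (vonMangoldt n : ℂ)) s = - logDeriv riemannZeta s := by
  rw [logDeriv_apply, ← neg_div]
  exact ArithmeticFunction.LSeries_vonMangoldt_eq_deriv_riemannZeta_div hs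

theorem lab1_Z (s : ℂ) (hs : 1 < s.re) :
    LSeries (fun n => (vonMangoldt n : ℂ)) s = 1 / (s - 1) - logDeriv gl2_Z s := by
  have hs1 : s ≠ 1 := by
    rintro rfl
    simp at hs
  have hz : riemannZeta s ≠ 0 := riemannZeta_ne_zero_of_one_le_re hs.le
  have h1 : gl2_Z =ᶠ[nhds s] fun z => (z - 1) * riemannZeta z := by
    filter_upwards [isOpen_compl_singleton.mem_nhds (show s ∈ ({1}ᶜ : Set ℂ) from hs1)] with z hz
    exact gl2_Z_eq z hz
  have h2 := (logDeriv_congr_nhds h1).eq_of_nhds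
  rw [h2, logDeriv_mul (f := fun z : ℂ => z - 1) (g := riemannZeta) s (sub_ne_zero.2 hs1) hz
    (by fun_prop) (differentiableAt_riemannZeta hs1), lab1_zeta s hs]
  have h3 : logDeriv (fun z : ℂ => z - 1) s = 1 / (s - 1) := by
    rw [logDeriv_apply]
    simp
  rw [h3]
  ring

theorem lab1_char (N : ℕ) [NeZero N] (χ : DirichletCharacter ℂ N) (s : ℂ) (hs : 1 < s.re) :
    LSeries (fun n => (vonMangoldt n : ℂ) * χ (n : ZMod N)) s = - logDeriv χ.LFunction s := by
  have h1 := DirichletCharacter.LSeries_twist_vonMangoldt_eq χ hs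
  have h2 : (fun n : ℕ => (vonMangoldt n : ℂ) * χ (n : ZMod N)) =
      (fun n : ℕ => χ (n : ZMod N)) * fun n : ℕ => (vonMangoldt n : ℂ) := by
    funext n
    simp [mul_comm]
  rw [h2, h1, logDeriv_apply, DirichletCharacter.deriv_LFunction_eq_deriv_LSeries χ hs,
    DirichletCharacter.LFunction_eq_LSeries χ hs, neg_div]

theorem lab1_term_norm (N : ℕ) (χ : DirichletCharacter ℂ N) (s : ℂ) (n : ℕ) :
    ‖LSeries.term (fun n => (vonMangoldt n : ℂ) * χ (n : ZMod N)) s n‖ ≤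
      ‖LSeries.term (fun n => (vonMangoldt n : ℂ)) s n‖ := by
  apply LSeries.norm_term_le
  rw [norm_mul]
  calc ‖(vonMangoldt n : ℂ)‖ * ‖χ (n : ZMod N)‖ ≤ ‖(vonMangoldt n : ℂ)‖ * 1 :=
        mul_le_mul_of_nonneg_left (DirichletCharacter.norm_le_one χ _) (norm_nonneg _)
    _ = _ := mul_one _

theorem lab1_term_re (s : ℂ) (n : ℕ) :
    ‖LSeries.term (fun n => (vonMangoldt n : ℂ)) s n‖ =
      (LSeries.term (fun n => (vonMangoldt n : ℂ)) s.re n).re := by
  rcases Nat.eq_zero_or_pos n with rfl | hn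
  · simp
  · rw [LSeries.term_of_ne_zero hn.ne', LSeries.term_of_ne_zero hn.ne', norm_div,
      Complex.norm_natCast_cpow_of_pos hn, Complex.norm_real, Real.norm_of_nonneg
      vonMangoldt_nonneg]
    have h1 : ((n : ℂ) ^ ((s.re : ℝ) : ℂ)) = (((n : ℝ) ^ s.re : ℝ) : ℂ) := by
      rw [Complex.ofReal_cpow (Nat.cast_nonneg n)]
      simp
    rw [h1, ← Complex.ofReal_div, Complex.ofReal_re]

/-- `|L_Λχ(s)| ≤ L_Λ(σ)` -/
theorem norm_LSeries_vM_le (N : ℕ) (χ : DirichletCharacter ℂ N) (s : ℂ) (hs : 1 < s.re) :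
    ‖LSeries (fun n => (vonMangoldt n : ℂ) * χ (n : ZMod N)) s‖ ≤
      (LSeries (fun n => (vonMangoldt n : ℂ)) s.re).re := by
  have h1 : Summable (LSeries.term (fun n => (vonMangoldt n : ℂ)) s) :=
    ArithmeticFunction.LSeriesSummable_vonMangoldt hs
  have h2 : Summable (LSeries.term (fun n => (vonMangoldt n : ℂ)) (s.re : ℂ)) :=
    ArithmeticFunction.LSeriesSummable_vonMangoldt (by simpa using hs)
  have h3 : Summable fun n => ‖LSeries.term (fun n => (vonMangoldt n : ℂ) * χ (n : ZMod N)) s n‖ :=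
    Summable.of_nonneg_of_le (fun n => norm_nonneg _) (lab1_term_norm N χ s) h1.norm
  have h4 : (LSeries (fun n => (vonMangoldt n : ℂ)) s.re).re =
      ∑' n, (LSeries.term (fun n => (vonMangoldt n : ℂ)) s.re n).re := Complex.re_tsum h2
  rw [h4]
  refine (norm_tsum_le_tsum_norm h3).trans ?_
  have h5 : (fun n => (LSeries.term (fun n => (vonMangoldt n : ℂ)) s.re n).re) =
      fun n => ‖LSeries.term (fun n => (vonMangoldt n : ℂ)) s n‖ := by
    funext n
    rw [lab1_term_re]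
  rw [h5]
  exact Summable.tsum_le_tsum (lab1_term_norm N χ s) h3 h1.norm

/-- `∑ Λ(n) n^(-σ) ≤ 1/(σ-1) + C` for `1 < σ ≤ 2` (`ζ(σ)(σ-1)` is continuous and positive on
`[1, 2]`, Mathlib has `riemannZeta` near `1`; or special case `t = 0`, `S = ∅` of a cruder lemma). -/
theorem vonMangoldt_le : ∃ C : ℝ, 0 < C ∧ ∀ σ : ℝ, 1 < σ → σ ≤ 2 →
    (LSeries (fun n => (vonMangoldt n : ℂ)) σ).re ≤ 1 / (σ - 1) + C := by
  have hcont : ContinuousOn (fun σ : ℝ => logDeriv gl2_Z (σ : ℂ)) (Set.Icc 1 2) := by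
    have h1 := DirichletCharacter.continuousOn_neg_logDeriv_LFunctionTrivChar₁ 1
    have h2 : ContinuousOn (fun σ : ℝ => (σ : ℂ)) (Set.Icc 1 2) :=
      Complex.continuous_ofReal.continuousOn
    have h3 := (h1.comp h2 (fun σ hσ => ?_)).neg
    · refine h3.congr fun σ _ => ?_
      simp only [logDeriv_apply, Pi.neg_apply, Function.comp_apply, neg_div, neg_neg]
      rfl
    · by_cases h4 : σ = 1
      · left
        rw [h4]
        simp
      · right
        rw [DirichletCharacter.LFunctionTrivChar, DirichletCharacter.LFunction_modOne_eq]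
        exact riemannZeta_ne_zero_of_one_le_re (by simpa using hσ.1)
  obtain ⟨C, hC⟩ := (isCompact_Icc.exists_bound_of_continuousOn hcont)
  refine ⟨|C| + 1, by positivity, fun σ h1 h2 => ?_⟩
  rw [lab1_Z (σ : ℂ) (by simpa using h1), Complex.sub_re]
  have h3 : (1 / ((σ : ℂ) - 1)).re = 1 / (σ - 1) := by
    have : (1 / ((σ : ℂ) - 1)) = ((1 / (σ - 1) : ℝ) : ℂ) := by push_cast; rfl
    rw [this, Complex.ofReal_re]
  rw [h3]
  have h4 := hC σ ⟨h1.le, h2⟩
  have h5 : -(logDeriv gl2_Z (σ : ℂ)).re ≤ ‖logDeriv gl2_Z (σ : ℂ)‖ := by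
    have := Complex.abs_re_le_norm (logDeriv gl2_Z (σ : ℂ))
    linarith [neg_abs_le (logDeriv gl2_Z (σ : ℂ)).re]
  linarith [le_abs_self C]

/-! ### Principal characters -/

theorem lab1_factor (p : ℕ) (hp : 2 ≤ p) (s : ℂ) (hs : 1 < s.re) :
    ‖(p : ℂ) ^ (-s)‖ ≤ 1 / 2 := by
  rw [Complex.norm_natCast_cpow_of_pos (by omega)]
  have h1 : (p : ℝ) ^ (-s).re ≤ (p : ℝ) ^ (-1 : ℝ) := by
    apply Real.rpow_le_rpow_of_exponent_le
    · exact_mod_cast (by omega : 1 ≤ p)
    · simp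
      linarith
  refine h1.trans ?_
  rw [Real.rpow_neg_one]
  have h2 : (2 : ℝ) ≤ p := by exact_mod_cast hp
  rw [inv_eq_one_div]
  exact one_div_le_one_div_of_le (by norm_num) h2

theorem lab1_factor_ne (p : ℕ) (hp : 2 ≤ p) (s : ℂ) (hs : 1 < s.re) :
    1 - (p : ℂ) ^ (-s) ≠ 0 := by
  intro h
  have h1 := lab1_factor p hp s hs
  rw [← sub_eq_zero.1 h, norm_one] at h1
  norm_num at h1

theorem lab1_factor_deriv (p : ℕ) (hp : 2 ≤ p) (s : ℂ) :
    HasDerivAt (fun s : ℂ => 1 - (p : ℂ) ^ (-s)) ((p : ℂ) ^ (-s) * Complex.log p) s := by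
  have hp0 : (p : ℂ) ≠ 0 := by
    have : p ≠ 0 := by omega
    exact_mod_cast this
  have h1 := ((hasDerivAt_id s).neg.const_cpow (c := (p : ℂ)) (Or.inl hp0)).const_sub 1
  have e : -((p : ℂ) ^ (-s) * Complex.log p * -1) = (p : ℂ) ^ (-s) * Complex.log p := by ring
  simp only [Pi.neg_apply, id_eq] at h1
  rw [← e]
  exact h1

theorem lab1_factor_log (p : ℕ) (hp : 2 ≤ p) (s : ℂ) (hs : 1 < s.re) :
    ‖logDeriv (fun s : ℂ => 1 - (p : ℂ) ^ (-s)) s‖ ≤ Real.log p := by
  rw [logDeriv_apply, (lab1_factor_deriv p hp s).deriv, norm_div, norm_mul]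
  have h1 := lab1_factor p hp s hs
  have h2 : 1 / 2 ≤ ‖1 - (p : ℂ) ^ (-s)‖ := by
    have := norm_sub_norm_le (1 : ℂ) ((p : ℂ) ^ (-s))
    rw [norm_one] at this
    linarith
  have h3 : ‖Complex.log p‖ = Real.log p := by
    rw [← Complex.natCast_log, Complex.norm_real, Real.norm_of_nonneg]
    exact Real.log_natCast_nonneg p
  have h4 : 0 ≤ Real.log p := Real.log_natCast_nonneg p
  rw [h3, div_le_iff₀ (by linarith)]
  nlinarith

/-- Principal characters: the Euler factors at `p ∣ r` change `L_Λ` by at most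
`∑_{p ∣ r} log p/(p-1) ≤ log r`. -/
theorem principal_sub (r : ℕ) [NeZero r] (s : ℂ) (hs : 1 < s.re) :
    ‖LSeries (fun n => (vonMangoldt n : ℂ) * (1 : DirichletCharacter ℂ r) (n : ZMod r)) s -
      LSeries (fun n => (vonMangoldt n : ℂ)) s‖ ≤ Real.log r := by
  have hs1 : s ≠ 1 := by
    rintro rfl
    simp at hs
  have hz : riemannZeta s ≠ 0 := riemannZeta_ne_zero_of_one_le_re hs.le
  have hp2 : ∀ p ∈ r.primeFactors, 2 ≤ p := fun p hp => (Nat.prime_of_mem_primeFactors hp).two_le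
  rw [lab1_char r 1 s hs, lab1_zeta s hs]
  have h1 : (1 : DirichletCharacter ℂ r).LFunction =ᶠ[nhds s]
      fun z => (∏ p ∈ r.primeFactors, (1 - (p : ℂ) ^ (-z))) * riemannZeta z := by
    filter_upwards [isOpen_compl_singleton.mem_nhds (show s ∈ ({1}ᶜ : Set ℂ) from hs1)] with z hz
    exact DirichletCharacter.LFunctionTrivChar_eq_mul_riemannZeta hz
  have h2 := (logDeriv_congr_nhds h1).eq_of_nhds
  have hprod : (∏ p ∈ r.primeFactors, (1 - (p : ℂ) ^ (-s))) ≠ 0 :=
    prod_ne_zero_iff.2 fun p hp => lab1_factor_ne p (hp2 p hp) s hs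
  have hdiff : ∀ p ∈ r.primeFactors, DifferentiableAt ℂ (fun z : ℂ => 1 - (p : ℂ) ^ (-z)) s :=
    fun p hp => (lab1_factor_deriv p (hp2 p hp) s).differentiableAt
  have hdiffp : DifferentiableAt ℂ (fun z : ℂ => ∏ p ∈ r.primeFactors, (1 - (p : ℂ) ^ (-z))) s := by
    have := DifferentiableAt.fun_finsetProd hdiff
    exact this
  rw [h2, logDeriv_mul s hprod hz hdiffp (differentiableAt_riemannZeta hs1),
    logDeriv_prod (fun p hp => lab1_factor_ne p (hp2 p hp) s hs) hdiff]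
  have h3 : -((∑ p ∈ r.primeFactors, logDeriv (fun z : ℂ => 1 - (p : ℂ) ^ (-z)) s) +
      logDeriv riemannZeta s) - -logDeriv riemannZeta s =
      -∑ p ∈ r.primeFactors, logDeriv (fun z : ℂ => 1 - (p : ℂ) ^ (-z)) s := by ring
  rw [h3, norm_neg]
  refine (norm_sum_le _ _).trans ?_
  refine (sum_le_sum fun p hp => lab1_factor_log p (hp2 p hp) s hs).trans ?_
  rw [← Real.log_prod (fun p hp => by
    have := hp2 p hp
    have : p ≠ 0 := by omega
    exact_mod_cast this)]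
  apply Real.log_le_log
  · refine prod_pos fun p hp => ?_
    have := hp2 p hp
    exact_mod_cast (by omega : 0 < p)
  · have h4 := Nat.le_of_dvd (Nat.pos_of_ne_zero (NeZero.ne r)) (Nat.prod_primeFactors_dvd r)
    have h5 : ((∏ p ∈ r.primeFactors, p : ℕ) : ℝ) ≤ (r : ℝ) := Nat.cast_le.2 h4
    rw [Nat.cast_prod] at h5
    exact h5

end Pool.Agent.Lib.H68T
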