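import Pool.Agent.Lib.H68T.GL
import Pool.Agent.Lib.H68T.LAN
import Pool.Agent.Lib.H68T.LAB1

/-!
# Chunk LAB2; part of LAB: real parts of logarithmic derivatives
-/

open Finset ArithmeticFunction

namespace Pool.Agent.Lib.H68T

/-- `ζ(σ) ≤ σ/(σ-1)` -/
theorem lab2_zeta_le (σ : ℝ) (hσ : 1 < σ) : ‖riemannZeta (σ : ℂ)‖ ≤ σ / (σ - 1) := by
  have hs : 1 < ((σ : ℂ)).re := by simpa using hσ
  have h1 := gl2_eq (σ : ℂ) hs
  have h2 := (gl1_tele σ (by linarith) (‖(σ : ℂ) - 1‖ * ‖(σ : ℂ)‖ / σ) (by positivity)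
    (fun n => gl2_B n (σ : ℂ)) (fun n => by simpa using gl2_B_norm n (σ : ℂ) (by simp; linarith))).2
  have e1 : ‖(σ : ℂ) - 1‖ = σ - 1 := by
    rw [← Complex.ofReal_one, ← Complex.ofReal_sub, Complex.norm_real, Real.norm_of_nonneg]
    linarith
  have e2 : ‖(σ : ℂ)‖ = σ := by
    rw [Complex.norm_real, Real.norm_of_nonneg]
    linarith
  rw [e1, e2, mul_div_assoc, div_self (by linarith), mul_one] at h2
  have h3 : ‖((σ : ℂ) - 1) * riemannZeta (σ : ℂ)‖ ≤ σ := by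
    rw [h1]
    refine (norm_add_le _ _).trans ?_
    rw [norm_one]
    linarith
  rw [norm_mul, e1] at h3
  rw [le_div_iff₀ (by linarith)]
  linarith

/-- lower bound for `L(s,χ)`, `Re s > 1` -/
theorem lab2_lower (N : ℕ) (χ : DirichletCharacter ℂ N) (s : ℂ) (hs : 1 < s.re) :
    (s.re - 1) / s.re ≤ ‖LSeries (fun n => χ (n : ZMod N)) s‖ := by
  have h1 := DirichletCharacter.LSeries.mul_mu_eq_one χ hs
  have h2 : ‖LSeries ((fun n : ℕ => χ (n : ZMod N)) * fun n : ℕ => ((moebius n : ℤ) : ℂ)) s‖ ≤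
      s.re / (s.re - 1) := by
    refine le_trans ?_ (lab2_zeta_le s.re hs)
    have hs' : 1 < ((s.re : ℂ)).re := by simpa using hs
    have h3 : Summable fun n : ℕ => 1 / ((n : ℝ) + 1) ^ s.re := by
      have h4 := (Real.summable_one_div_nat_rpow (p := s.re)).2 hs
      have h5 := (summable_nat_add_iff 1).2 h4
      simpa using h5
    have hle : ∀ n, ‖LSeries.term ((fun n : ℕ => χ (n : ZMod N)) *
        fun n : ℕ => ((moebius n : ℤ) : ℂ)) s (n + 1)‖ ≤ 1 / ((n : ℝ) + 1) ^ s.re := by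
      intro n
      rw [LSeries.term_of_ne_zero (by omega), norm_div,
        Complex.norm_natCast_cpow_of_pos (by omega)]
      push_cast
      refine div_le_div_of_nonneg_right ?_ (Real.rpow_nonneg (by positivity) _)
      rw [Pi.mul_apply, norm_mul]
      have h6 := DirichletCharacter.norm_le_one χ ((n + 1 : ℕ) : ZMod N)
      have h7 : ‖((moebius (n + 1) : ℤ) : ℂ)‖ ≤ 1 := by
        rw [Complex.norm_intCast]
        exact_mod_cast abs_moebius_le_one
      calc _ ≤ (1 : ℝ) * 1 := mul_le_mul h6 h7 (norm_nonneg _) zero_le_one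
        _ = 1 := one_mul _
    have hsum : Summable fun n => ‖LSeries.term ((fun n : ℕ => χ (n : ZMod N)) *
        fun n : ℕ => ((moebius n : ℤ) : ℂ)) s (n + 1)‖ :=
      Summable.of_nonneg_of_le (fun n => norm_nonneg _) hle h3
    have hL : LSeries ((fun n : ℕ => χ (n : ZMod N)) * fun n : ℕ => ((moebius n : ℤ) : ℂ)) s =
        ∑' n, LSeries.term ((fun n : ℕ => χ (n : ZMod N)) *
          fun n : ℕ => ((moebius n : ℤ) : ℂ)) s (n + 1) := by
      rw [LSeries, ((summable_nat_add_iff 1).1 hsum.of_norm).tsum_eq_zero_add]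
      simp
    have hzeta : ‖riemannZeta (s.re : ℂ)‖ = ∑' n : ℕ, 1 / ((n : ℝ) + 1) ^ s.re := by
      rw [zeta_eq_tsum_one_div_nat_add_one_cpow hs']
      have e : (fun n : ℕ => 1 / ((n : ℂ) + 1) ^ ((s.re : ℝ) : ℂ)) =
          fun n : ℕ => ((1 / ((n : ℝ) + 1) ^ s.re : ℝ) : ℂ) := by
        funext n
        push_cast
        rw [Complex.ofReal_cpow (by positivity)]
        push_cast
        rfl
      rw [e, ← Complex.ofReal_tsum, Complex.norm_real, Real.norm_of_nonneg]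
      exact tsum_nonneg fun n => by positivity
    rw [hL, hzeta]
    exact (norm_tsum_le_tsum_norm hsum).trans (Summable.tsum_le_tsum hle hsum h3)
  have h3 := congrArg norm h1
  rw [norm_mul, norm_one] at h3
  have h4 : 0 < s.re - 1 := by linarith
  have h5 : 0 < s.re := by linarith
  have h6 : 1 ≤ ‖LSeries (fun n => χ (n : ZMod N)) s‖ * (s.re / (s.re - 1)) := by
    exact h3.symm.le.trans (mul_le_mul_of_nonneg_left h2 (norm_nonneg _))
  rw [div_le_iff₀ h5]
  rw [← mul_div_assoc, le_div_iff₀ h4] at h6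
  linarith

/-- the consequence of Landau's lemma used for all L-functions -/
theorem lab2_core : ∃ A : ℝ, 0 < A ∧ ∀ (f : ℂ → ℂ) (s₀ : ℂ) (M : ℝ), 0 ≤ M →
    AnalyticOnNhd ℂ f (Metric.closedBall s₀ (1 / 2)) → f s₀ ≠ 0 →
    (∀ s ∈ Metric.closedBall s₀ (1 / 2), ‖f s‖ ≤ Real.exp M * ‖f s₀‖) →
    (∀ ρ, f ρ = 0 → ρ.re < s₀.re) → ∀ S : Finset ℂ, (∀ ρ ∈ S, f ρ = 0 ∧ ‖ρ - s₀‖ ≤ 1 / 4) →
      -(logDeriv f s₀).re ≤ A * (M + 1) - ∑ ρ ∈ S, (1 / (s₀ - ρ)).re := by
  obtain ⟨A, hA, hlan⟩ := landau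
  refine ⟨2 * A, by positivity, fun f s₀ M hM hf h0 hb hre S hS => ?_⟩
  obtain ⟨Z, hZ1, hZ2, hZ3⟩ := hlan f s₀ (1 / 2) M (by norm_num) hM hf h0 hb
  have h1 := hZ3 s₀ (Metric.mem_closedBall_self (by norm_num)) h0
  have hSZ : S.val ≤ Z := by
    rw [Finset.val_le_iff_val_subset]
    intro ρ hρ
    have h2 := hS ρ hρ
    exact hZ2 ρ (by linarith [h2.2]) h2.1
  obtain ⟨Z', hZ'⟩ := Multiset.le_iff_exists_add.1 hSZ
  have hpos : ∀ ρ ∈ Z, 0 ≤ (1 / (s₀ - ρ)).re := by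
    intro ρ hρ
    have h2 := hre ρ (hZ1 ρ hρ).2
    rw [one_div, Complex.inv_re, Complex.sub_re]
    apply div_nonneg (by linarith) (Complex.normSq_nonneg _)
  have hsum : ((Z.map (fun ρ => 1 / (s₀ - ρ))).sum).re =
      ∑ ρ ∈ S, (1 / (s₀ - ρ)).re + (Z'.map (fun ρ => (1 / (s₀ - ρ)).re)).sum := by
    rw [hZ', Multiset.map_add, Multiset.sum_add, Complex.add_re]
    congr 1
    · change (∑ ρ ∈ S, 1 / (s₀ - ρ)).re = _
      rw [Complex.re_sum]
    · have := (Multiset.sum_hom (Z'.map fun ρ => 1 / (s₀ - ρ)) Complex.reAddGroupHom)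
      rw [Multiset.map_map] at this
      exact this.symm
  have hZ'pos : 0 ≤ (Z'.map (fun ρ => (1 / (s₀ - ρ)).re)).sum := by
    apply Multiset.sum_nonneg
    intro x hx
    obtain ⟨ρ, hρ, rfl⟩ := Multiset.mem_map.1 hx
    exact hpos ρ (by rw [hZ']; exact Multiset.mem_add.2 (Or.inr hρ))
  have h3 : -(deriv f s₀ / f s₀ - (Z.map (fun ρ => 1 / (s₀ - ρ))).sum).re ≤
      A * (M + 1) / (1 / 2) := by
    refine le_trans ?_ h1
    have := Complex.abs_re_le_norm (deriv f s₀ / f s₀ - (Z.map (fun ρ => 1 / (s₀ - ρ))).sum)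
    linarith [neg_abs_le (deriv f s₀ / f s₀ - (Z.map (fun ρ => 1 / (s₀ - ρ))).sum).re]
  rw [Complex.sub_re, hsum] at h3
  rw [logDeriv_apply]
  have e : A * (M + 1) / (1 / 2) = 2 * A * (M + 1) := by ring
  rw [e] at h3
  linarith

/-- **Upper bound for `-Re L'/L`**, `χ ≠ 1` mod `N`, `S` any finite set of zeros near
`s₀ = σ + it`. `landau` with `f = L(·,χ)`, `R = 1/2`: on the disc `‖f‖ ≤ 2N(|t|+3)`
(`LFunction_bound`), `‖f(s₀)‖ ≥ 1/ζ(σ) ≥ (σ-1)/σ`; `LSeries (Λχ) = -f'/f`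
(`DirichletCharacter.LSeries_twist_vonMangoldt_eq`); every zero has real part `< 1`
(`DirichletCharacter.LFunction_ne_zero_of_one_le_re`), so all terms `Re 1/(s₀-ρ)` are positive and
the others can be dropped. -/
theorem re_char : ∃ C : ℝ, 0 < C ∧ ∀ (N : ℕ) [NeZero N] (χ : DirichletCharacter ℂ N), χ ≠ 1 →
    ∀ σ t : ℝ, 1 < σ → σ ≤ 5 / 4 → ∀ S : Finset ℂ,
    (∀ ρ ∈ S, χ.LFunction ρ = 0 ∧ ‖ρ - (σ + t * Complex.I)‖ ≤ 1 / 4) →
    (LSeries (fun n => (vonMangoldt n : ℂ) * χ (n : ZMod N)) (σ + t * Complex.I)).re ≤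
      C * (Real.log N + Real.log (|t| + 3) + Real.log (1 / (σ - 1)) + 1) -
        ∑ ρ ∈ S, (1 / (σ + t * Complex.I - ρ)).re := by
  obtain ⟨A, hA, hcore⟩ := lab2_core
  refine ⟨3 * A, by positivity, fun N _ χ hχ σ t h1 h2 S hS => ?_⟩
  have hN : (1 : ℝ) ≤ N := by exact_mod_cast NeZero.one_le
  set s₀ : ℂ := σ + t * Complex.I with hs₀
  have hre : s₀.re = σ := by simp [hs₀]
  have him : s₀.im = t := by simp [hs₀]
  have hs1 : 1 < s₀.re := by rw [hre]; exact h1
  have hlow := lab2_lower N χ s₀ hs1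
  rw [← DirichletCharacter.LFunction_eq_LSeries χ hs1, hre] at hlow
  have hσ0 : 0 < σ := by linarith
  have hσ1 : 0 < σ - 1 := by linarith
  have hf0 : 0 < ‖χ.LFunction s₀‖ := lt_of_lt_of_le (by positivity) hlow
  have ht : 0 ≤ |t| := abs_nonneg t
  set T : ℝ := 2 * N * (|t| + 3) * (σ / (σ - 1)) with hT
  have hq1 : 1 ≤ σ / (σ - 1) := by
    rw [le_div_iff₀ hσ1]
    linarith
  have hT1 : 1 ≤ T := by
    have e1 : 1 ≤ 2 * (N : ℝ) * (|t| + 3) := by nlinarith
    calc (1 : ℝ) = 1 * 1 := (one_mul 1).symm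
      _ ≤ T := mul_le_mul e1 hq1 zero_le_one (by positivity)
  have hb : ∀ s ∈ Metric.closedBall s₀ (1 / 2), ‖χ.LFunction s‖ ≤
      Real.exp (Real.log T) * ‖χ.LFunction s₀‖ := by
    intro s hs
    rw [Real.exp_log (by linarith)]
    rw [Metric.mem_closedBall, dist_eq_norm] at hs
    have e1 : |s.re - s₀.re| ≤ 1 / 2 := by
      have := Complex.abs_re_le_norm (s - s₀)
      rw [Complex.sub_re] at this
      linarith
    have e2 : 1 / 2 ≤ s.re := by
      rw [hre] at e1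
      linarith [(abs_le.1 e1).1]
    refine (LFunction_bound N χ hχ s e2).trans ?_
    have e3 : ‖s‖ ≤ |t| + 3 := by
      have h5 : ‖s‖ ≤ ‖s₀‖ + ‖s - s₀‖ := by
        have := norm_add_le s₀ (s - s₀)
        simpa using this
      have h6 : ‖s₀‖ ≤ σ + |t| := by
        refine (Complex.norm_le_abs_re_add_abs_im s₀).trans ?_
        rw [hre, him, abs_of_pos hσ0]
      linarith
    have e4 : 2 * (N : ℝ) * ‖s‖ ≤ 2 * N * (|t| + 3) :=
      mul_le_mul_of_nonneg_left e3 (by positivity)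
    refine e4.trans ?_
    have e5 : 1 ≤ σ / (σ - 1) * ‖χ.LFunction s₀‖ := by
      have e6 : σ / (σ - 1) * ((σ - 1) / σ) = 1 := by field_simp
      exact e6.symm.le.trans (mul_le_mul_of_nonneg_left hlow (by positivity))
    calc 2 * (N : ℝ) * (|t| + 3) = 2 * N * (|t| + 3) * 1 := (mul_one _).symm
      _ ≤ 2 * N * (|t| + 3) * (σ / (σ - 1) * ‖χ.LFunction s₀‖) :=
          mul_le_mul_of_nonneg_left e5 (by positivity)
      _ = T * ‖χ.LFunction s₀‖ := by rw [hT]; ring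
  have han : AnalyticOnNhd ℂ χ.LFunction (Metric.closedBall s₀ (1 / 2)) := fun z _ =>
    ((DirichletCharacter.differentiable_LFunction hχ).analyticAt z)
  have hzero : ∀ ρ, χ.LFunction ρ = 0 → ρ.re < s₀.re := by
    intro ρ hρ
    by_contra hcon
    push Not at hcon
    exact DirichletCharacter.LFunction_ne_zero_of_one_le_re χ (Or.inl hχ) (by linarith) hρ
  have h3 := hcore χ.LFunction s₀ (Real.log T) (Real.log_nonneg hT1) han (norm_pos_iff.1 hf0) hb
    hzero S hS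
  rw [lab1_char N χ s₀ hs1, Complex.neg_re]
  refine h3.trans ?_
  have hlogT : Real.log T = Real.log 2 + Real.log N + Real.log (|t| + 3) +
      (Real.log σ + Real.log (1 / (σ - 1))) := by
    have e1 : T = 2 * N * (|t| + 3) * (σ * (1 / (σ - 1))) := by rw [hT]; ring
    rw [e1, Real.log_mul (by positivity) (by positivity), Real.log_mul (by positivity)
      (by positivity), Real.log_mul (by positivity) (by positivity),
      Real.log_mul (by positivity) (by positivity)]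
  have l1 : Real.log 2 ≤ 1 := by linarith [Real.log_two_lt_d9]
  have l2 : Real.log σ ≤ 1 := by
    have := Real.log_le_sub_one_of_pos hσ0
    linarith
  have l3 : 0 ≤ Real.log N := Real.log_nonneg hN
  have l4 : 0 ≤ Real.log (|t| + 3) := Real.log_nonneg (by linarith)
  have l5 : 0 ≤ Real.log (1 / (σ - 1)) := by
    apply Real.log_nonneg
    rw [le_div_iff₀ hσ1]
    linarith
  have l6 : A * (Real.log T + 1) ≤ 3 * A * (Real.log N + Real.log (|t| + 3) +
      Real.log (1 / (σ - 1)) + 1) := by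
    have : Real.log T + 1 ≤ 3 * (Real.log N + Real.log (|t| + 3) +
      Real.log (1 / (σ - 1)) + 1) := by
      rw [hlogT]
      linarith
    nlinarith
  linarith

end Pool.Agent.Lib.H68T
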