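import Pool.Agent.Lib.H68T.GL
import Pool.Agent.Lib.H68T.LAN
import Pool.Agent.Lib.H68T.LAB1
import Pool.Agent.Lib.H68T.LAB2

/-!
# Chunk LAB3; part of LAB: real parts of logarithmic derivatives
-/

open Finset ArithmeticFunction

namespace Pool.Agent.Lib.H68T

theorem lab3_Z_zero (ρ : ℂ) (h : gl2_Z ρ = 0) : riemannZeta ρ = 0 := by
  have h1 : ρ ≠ 1 := by
    rintro rfl
    rw [gl2_Z_one] at h
    exact one_ne_zero h
  rw [gl2_Z_eq ρ h1] at h
  exact (mul_eq_zero.1 h).resolve_left (sub_ne_zero.2 h1)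

theorem lab3_zeta_zero (ρ : ℂ) (h : riemannZeta ρ = 0) : gl2_Z ρ = 0 := by
  have h1 : ρ ≠ 1 := by
    rintro rfl
    exact riemannZeta_ne_zero_of_one_le_re (by simp) h
  rw [gl2_Z_eq ρ h1, h, mul_zero]

/-- The same for `ζ`, with `f(s) = (s-1) ζ(s)` (value `1` at `s = 1`), `zeta_bound`,
`‖f(s₀)‖ ≥ (σ-1)²/σ`. -/
theorem re_zeta : ∃ C : ℝ, 0 < C ∧ ∀ σ t : ℝ, 1 < σ → σ ≤ 5 / 4 → ∀ S : Finset ℂ,
    (∀ ρ ∈ S, riemannZeta ρ = 0 ∧ ‖ρ - (σ + t * Complex.I)‖ ≤ 1 / 4) →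
    (LSeries (fun n => (vonMangoldt n : ℂ)) (σ + t * Complex.I)).re ≤
      (1 / (σ + t * Complex.I - 1)).re +
      C * (Real.log (|t| + 3) + Real.log (1 / (σ - 1)) + 1) -
        ∑ ρ ∈ S, (1 / (σ + t * Complex.I - ρ)).re := by
  obtain ⟨A, hA, hcore⟩ := lab2_core
  refine ⟨5 * A, by positivity, fun σ t h1 h2 S hS => ?_⟩
  set s₀ : ℂ := σ + t * Complex.I with hs₀
  have hre : s₀.re = σ := by simp [hs₀]
  have him : s₀.im = t := by simp [hs₀]
  have hs1 : 1 < s₀.re := by rw [hre]; exact h1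
  have hne1 : s₀ ≠ 1 := by
    intro h
    rw [h] at hs1
    simp at hs1
  have hσ0 : 0 < σ := by linarith
  have hσ1 : 0 < σ - 1 := by linarith
  have hlow : (σ - 1) * ((σ - 1) / σ) ≤ ‖gl2_Z s₀‖ := by
    have e1 := lab2_lower 1 1 s₀ hs1
    have e2 : LSeries (fun n => (1 : DirichletCharacter ℂ 1) (n : ZMod 1)) s₀ =
        riemannZeta s₀ := by
      rw [← DirichletCharacter.LFunction_eq_LSeries (1 : DirichletCharacter ℂ 1) hs1,
        DirichletCharacter.LFunction_modOne_eq]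
    rw [e2, hre] at e1
    rw [gl2_Z_eq s₀ hne1, norm_mul]
    refine mul_le_mul ?_ e1 (by positivity) (norm_nonneg _)
    have e3 := Complex.abs_re_le_norm (s₀ - 1)
    rw [Complex.sub_re, hre, Complex.one_re, abs_of_pos hσ1] at e3
    exact e3
  have hf0 : 0 < ‖gl2_Z s₀‖ := lt_of_lt_of_le (by positivity) hlow
  have ht : 0 ≤ |t| := abs_nonneg t
  set T : ℝ := 16 * ((|t| + 3) * (|t| + 3)) * (σ * (1 / (σ - 1)) * (1 / (σ - 1))) with hT
  have hq0 : 1 ≤ 1 / (σ - 1) := by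
    rw [le_div_iff₀ hσ1]
    linarith
  have hq1 : 1 ≤ σ * (1 / (σ - 1)) * (1 / (σ - 1)) := by
    have e1 : 1 ≤ σ * (1 / (σ - 1)) := by nlinarith
    nlinarith
  have hT1 : 1 ≤ T := by
    have e1 : 1 ≤ 16 * ((|t| + 3) * (|t| + 3)) := by nlinarith
    calc (1 : ℝ) = 1 * 1 := (one_mul 1).symm
      _ ≤ T := mul_le_mul e1 hq1 zero_le_one (by positivity)
  have hb : ∀ s ∈ Metric.closedBall s₀ (1 / 2), ‖gl2_Z s‖ ≤
      Real.exp (Real.log T) * ‖gl2_Z s₀‖ := by
    intro s hs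
    rw [Real.exp_log (by linarith)]
    rw [Metric.mem_closedBall, dist_eq_norm] at hs
    have e1 : |s.re - σ| ≤ 1 / 2 := by
      have := Complex.abs_re_le_norm (s - s₀)
      rw [Complex.sub_re, hre] at this
      linarith
    have e1' := abs_le.1 e1
    have e2 : |s.im - t| ≤ 1 / 2 := by
      have := Complex.abs_im_le_norm (s - s₀)
      rw [Complex.sub_im, him] at this
      linarith
    refine (gl2_Z_bound s (by linarith [e1'.1]) (by linarith [e1'.2])).trans ?_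
    have e3 : |s.im| ≤ |t| + 1 / 2 := by
      have := abs_sub_abs_le_abs_sub s.im t
      linarith
    have e4 : 4 * (|s.im| + 3) ^ 2 ≤ 16 * ((|t| + 3) * (|t| + 3)) := by
      have e5 : |s.im| + 3 ≤ 2 * (|t| + 3) := by linarith
      have e6 : 0 ≤ |s.im| + 3 := by positivity
      nlinarith
    refine e4.trans ?_
    have e5 : 1 ≤ (σ * (1 / (σ - 1)) * (1 / (σ - 1))) * ‖gl2_Z s₀‖ := by
      have e6 : (σ * (1 / (σ - 1)) * (1 / (σ - 1))) * ((σ - 1) * ((σ - 1) / σ)) = 1 := by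
        field_simp
      exact e6.symm.le.trans (mul_le_mul_of_nonneg_left hlow (by positivity))
    calc 16 * ((|t| + 3) * (|t| + 3)) = 16 * ((|t| + 3) * (|t| + 3)) * 1 := (mul_one _).symm
      _ ≤ 16 * ((|t| + 3) * (|t| + 3)) * ((σ * (1 / (σ - 1)) * (1 / (σ - 1))) * ‖gl2_Z s₀‖) :=
          mul_le_mul_of_nonneg_left e5 (by positivity)
      _ = T * ‖gl2_Z s₀‖ := by rw [hT]; ring
  have han : AnalyticOnNhd ℂ gl2_Z (Metric.closedBall s₀ (1 / 2)) := fun z _ =>
    gl2_Z_differentiable.analyticAt z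
  have hzero : ∀ ρ, gl2_Z ρ = 0 → ρ.re < s₀.re := by
    intro ρ hρ
    by_contra hcon
    push Not at hcon
    exact riemannZeta_ne_zero_of_one_le_re (by linarith) (lab3_Z_zero ρ hρ)
  have h3 := hcore gl2_Z s₀ (Real.log T) (Real.log_nonneg hT1) han (norm_pos_iff.1 hf0) hb
    hzero S (fun ρ hρ => ⟨lab3_zeta_zero ρ (hS ρ hρ).1, (hS ρ hρ).2⟩)
  rw [lab1_Z s₀ hs1, Complex.sub_re]
  have hlogT : Real.log T = Real.log 16 + (Real.log (|t| + 3) + Real.log (|t| + 3)) +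
      (Real.log σ + Real.log (1 / (σ - 1)) + Real.log (1 / (σ - 1))) := by
    rw [hT, Real.log_mul (by positivity) (by positivity), Real.log_mul (by positivity)
      (by positivity), Real.log_mul (by positivity) (by positivity),
      Real.log_mul (by positivity) (by positivity), Real.log_mul (by positivity) (by positivity)]
  have l1 : Real.log 16 ≤ 3 := by
    have e1 : (16 : ℝ) = 2 ^ 4 := by norm_num
    rw [e1, Real.log_pow]
    have := Real.log_two_lt_d9
    push_cast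
    linarith
  have l2 : Real.log σ ≤ 1 := by
    have := Real.log_le_sub_one_of_pos hσ0
    linarith
  have l4 : 0 ≤ Real.log (|t| + 3) := Real.log_nonneg (by linarith)
  have l5 : 0 ≤ Real.log (1 / (σ - 1)) := Real.log_nonneg hq0
  have l6 : A * (Real.log T + 1) ≤ 5 * A * (Real.log (|t| + 3) +
      Real.log (1 / (σ - 1)) + 1) := by
    have : Real.log T + 1 ≤ 5 * (Real.log (|t| + 3) +
      Real.log (1 / (σ - 1)) + 1) := by
      rw [hlogT]
      linarith
    nlinarith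
  linarith

end Pool.Agent.Lib.H68T
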