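import Pool.Agent.Lib.H68T.Defs

/-!
# Chunk CQ1; part of CQ: Ramanujan sums
-/

open Finset

namespace Pool.Agent.Lib.H68T

theorem CQ1_moebius (n : ℕ) :
    ∑ d ∈ n.divisors, (ArithmeticFunction.moebius d : ℂ) = if n = 1 then 1 else 0 := by
  have h := ArithmeticFunction.coe_mul_zeta_apply (R := ℂ)
    (f := ((ArithmeticFunction.moebius : ArithmeticFunction ℤ) : ArithmeticFunction ℂ)) (x := n)
  rw [ArithmeticFunction.coe_moebius_mul_coe_zeta] at h
  rw [ArithmeticFunction.one_apply] at h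
  simp only [ArithmeticFunction.intCoe_apply] at h
  exact h.symm

theorem CQ1_e_add (x y : ℝ) : e (x + y) = e x * e y := by
  unfold e
  rw [← Complex.exp_add]
  congr 1
  push_cast
  ring

theorem CQ1_e_int (m : ℤ) : e m = 1 := by
  unfold e
  rw [Complex.exp_eq_one_iff]
  exact ⟨m, by push_cast; ring⟩

theorem CQ1_e_eq_one (x : ℝ) (h : e x = 1) : ∃ m : ℤ, x = m := by
  unfold e at h
  rw [Complex.exp_eq_one_iff] at h
  obtain ⟨m, hm⟩ := h
  refine ⟨m, ?_⟩
  have h1 : (2 * Real.pi * Complex.I : ℂ) ≠ 0 := Complex.two_pi_I_ne_zero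
  have h2 : (x : ℂ) = m := by
    apply mul_right_cancel₀ h1
    rw [← hm]
    ring
  exact_mod_cast h2

theorem CQ1_e_nat_mul (x : ℝ) (n : ℕ) : e (n * x) = e x ^ n := by
  unfold e
  rw [← Complex.exp_nat_mul]
  congr 1
  push_cast
  ring

theorem CQ1_geom (n : ℕ) (hn : 0 < n) (m : ℤ) :
    ∑ b ∈ range n, e (b * (m / n)) = if (n : ℤ) ∣ m then (n : ℂ) else 0 := by
  have hn0 : (n : ℝ) ≠ 0 := by exact_mod_cast hn.ne'
  have h1 : ∀ b ∈ range n, e (b * (m / n)) = (e (m / n)) ^ b := fun b _ => CQ1_e_nat_mul _ _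
  rw [sum_congr rfl h1]
  have h2 : (e ((m : ℝ) / n)) ^ n = 1 := by
    rw [← CQ1_e_nat_mul, mul_div_cancel₀ _ hn0]
    exact CQ1_e_int m
  split_ifs with h
  · obtain ⟨k, hk⟩ := h
    have h3 : e ((m : ℝ) / n) = 1 := by
      rw [hk]
      have : (((n : ℤ) * k : ℤ) : ℝ) / n = ((k : ℤ) : ℝ) := by
        push_cast
        field_simp
      rw [this]
      exact CQ1_e_int k
    rw [h3]
    simp
  · have h3 : e ((m : ℝ) / n) ≠ 1 := by
      intro h4
      obtain ⟨k, hk⟩ := CQ1_e_eq_one _ h4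
      apply h
      refine ⟨k, ?_⟩
      rw [div_eq_iff hn0] at hk
      have : (m : ℝ) = ((n * k : ℤ) : ℝ) := by rw [hk]; push_cast; ring
      exact_mod_cast this
    rw [geom_sum_eq h3, h2, sub_self, zero_div]

/-- `c_q(m) = ∑_{a mod q, (a,q) = 1} e(a m / q)`: Möbius inversion from
`∑_{a mod q} e(a m/q) = q [q ∣ m]`. -/
theorem cq_eq_sum (q : ℕ) (hq : 0 < q) (m : ℤ) :
    (cq q m : ℂ) = ∑ a ∈ (range q).filter (fun a => Nat.Coprime a q), e (a * m / q) := by
  have hind : ∀ a : ℕ, ∑ d ∈ q.divisors.filter (fun d => d ∣ a),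
      (ArithmeticFunction.moebius d : ℂ) = if Nat.Coprime a q then 1 else 0 := by
    intro a
    have hg : 0 < Nat.gcd a q := Nat.gcd_pos_of_pos_right _ hq
    have h1 : q.divisors.filter (fun d => d ∣ a) = (Nat.gcd a q).divisors := by
      ext d
      simp only [mem_filter, Nat.mem_divisors, Nat.dvd_gcd_iff]
      constructor
      · rintro ⟨⟨h1, _⟩, h3⟩
        exact ⟨⟨h3, h1⟩, hg.ne'⟩
      · rintro ⟨⟨h1, h2⟩, _⟩
        exact ⟨⟨h2, hq.ne'⟩, h1⟩
    rw [h1, CQ1_moebius _]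
  have h1 : ∑ a ∈ (range q).filter (fun a => Nat.Coprime a q), e (a * m / q)
      = ∑ a ∈ range q, ∑ d ∈ q.divisors, if d ∣ a then
        (ArithmeticFunction.moebius d : ℂ) * e (a * m / q) else 0 := by
    rw [sum_filter]
    refine sum_congr rfl fun a _ => ?_
    have h2 := hind a
    rw [← sum_filter, ← sum_mul, h2]
    split_ifs <;> simp
  rw [h1, sum_comm]
  have h3 : ∀ d ∈ q.divisors, (∑ a ∈ range q, if d ∣ a then
      (ArithmeticFunction.moebius d : ℂ) * e (a * m / q) else 0)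
      = (ArithmeticFunction.moebius d : ℂ) * (if ((q / d : ℕ) : ℤ) ∣ m then ((q / d : ℕ) : ℂ) else 0) := by
    intro d hd
    rw [Nat.mem_divisors] at hd
    obtain ⟨k, hk⟩ := hd.1
    have hd0 : 0 < d := Nat.pos_of_dvd_of_pos hd.1 hq
    have hk0 : 0 < k := by
      rcases Nat.eq_zero_or_pos k with h | h
      · rw [h, mul_zero] at hk
        exact absurd hk hq.ne'
      · exact h
    have hqd : q / d = k := by rw [hk]; exact Nat.mul_div_cancel_left _ hd0
    rw [hqd, ← CQ1_geom k hk0 m, mul_sum, ← sum_filter]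
    symm
    refine sum_bij (fun b _ => d * b) ?_ ?_ ?_ ?_
    · intro b hb
      rw [mem_range] at hb
      rw [mem_filter, mem_range]
      refine ⟨?_, dvd_mul_right _ _⟩
      rw [hk]
      exact Nat.mul_lt_mul_of_pos_left hb hd0
    · intro a _ b _ h
      exact Nat.eq_of_mul_eq_mul_left hd0 h
    · intro a ha
      rw [mem_filter, mem_range] at ha
      obtain ⟨b, hb⟩ := ha.2
      refine ⟨b, ?_, hb.symm⟩
      rw [mem_range]
      rw [hb, hk] at ha
      exact Nat.lt_of_mul_lt_mul_left ha.1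
    · intro b _
      congr 2
      rw [hk]
      have : (d : ℝ) ≠ 0 := by exact_mod_cast hd0.ne'
      have : (k : ℝ) ≠ 0 := by exact_mod_cast hk0.ne'
      push_cast
      field_simp
  rw [sum_congr rfl h3]
  rw [← Nat.sum_div_divisors q (fun d => (ArithmeticFunction.moebius d : ℂ)
    * (if ((q / d : ℕ) : ℤ) ∣ m then ((q / d : ℕ) : ℂ) else 0))]
  unfold cq
  rw [sum_filter, Complex.ofReal_sum]
  refine sum_congr rfl fun d hd => ?_
  rw [Nat.mem_divisors] at hd
  have h4 : q / (q / d) = d := Nat.div_div_self hd.1 hd.2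
  simp only [h4]
  split_ifs with h
  · push_cast
    ring
  · simp

/-- `c_q` is even. -/
theorem cq_neg (q : ℕ) (m : ℤ) : cq q (-m) = cq q m := by
  unfold cq
  simp only [dvd_neg]

end Pool.Agent.Lib.H68T
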