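import Pool.Agent.Lib.H68T.Defs

/-!
# Chunk VB: sums over geometric progressions (the block lemma)
-/

open Finset

namespace Pool.Agent.Lib.H68T

/-- Distance to the nearest integer. -/
noncomputable def nd (x : ℝ) : ℝ := |x - round x|

theorem VB_e_add (x y : ℝ) : e (x + y) = e x * e y := by
  unfold e
  rw [← Complex.exp_add]
  congr 1
  push_cast
  ring

theorem VB_norm_e (x : ℝ) : ‖e x‖ = 1 := by
  unfold e
  have : (2 * Real.pi * x * Complex.I : ℂ) = ((2 * Real.pi * x : ℝ) : ℂ) * Complex.I := by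
    push_cast
    ring
  rw [this, Complex.norm_exp_ofReal_mul_I]

theorem VB_e_int (n : ℤ) : e n = 1 := by
  unfold e
  rw [Complex.exp_eq_one_iff]
  refine ⟨n, ?_⟩
  push_cast
  ring

theorem VB_tele (a : ℤ) (ξ : ℝ) (n : ℕ) :
    (e ξ - 1) * ∑ x ∈ Finset.Ico a (a + n), e (x * ξ) = e (((a + n : ℤ) : ℝ) * ξ) - e (a * ξ) := by
  induction n with
  | zero => simp
  | succ n ih =>
    have h1 : Finset.Ico a (a + ((n + 1 : ℕ) : ℤ)) = insert (a + n) (Finset.Ico a (a + n)) := by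
      ext x
      simp only [Finset.mem_insert, Finset.mem_Ico]
      push_cast
      omega
    have h2 : (a + n : ℤ) ∉ Finset.Ico a (a + n) := by simp
    rw [h1, Finset.sum_insert h2, mul_add, ih]
    have h3 : e (((a + ((n + 1 : ℕ) : ℤ) : ℤ) : ℝ) * ξ) = e ξ * e (((a + n : ℤ) : ℝ) * ξ) := by
      rw [← VB_e_add]
      congr 1
      push_cast
      ring
    rw [h3]
    ring

theorem VB_four_nd_le (ξ : ℝ) : 4 * nd ξ ≤ ‖e ξ - 1‖ := by
  have h1 : e ξ = e (ξ - round ξ) := by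
    have h : ξ = (ξ - round ξ) + (round ξ : ℤ) := by ring
    conv_lhs => rw [h, VB_e_add, VB_e_int, mul_one]
  rw [h1]
  set t : ℝ := ξ - round ξ with ht
  have htn : nd ξ = |t| := rfl
  have ht2 : |t| ≤ 1 / 2 := abs_sub_round ξ
  have h2 : e t = Complex.exp (Complex.I * ((2 * Real.pi * t : ℝ) : ℂ)) := by
    unfold e
    congr 1
    push_cast
    ring
  rw [h2, Complex.norm_exp_I_mul_ofReal_sub_one, htn]
  have h3 : |2 * Real.pi * t / 2| ≤ Real.pi / 2 := by
    have : 2 * Real.pi * t / 2 = Real.pi * t := by ring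
    rw [this, abs_mul, abs_of_pos Real.pi_pos]
    nlinarith [Real.pi_pos]
  have h4 := Real.mul_abs_le_abs_sin h3
  have h5 : 2 / Real.pi * |2 * Real.pi * t / 2| = 2 * |t| := by
    have : 2 * Real.pi * t / 2 = Real.pi * t := by ring
    rw [this, abs_mul, abs_of_pos Real.pi_pos]
    field_simp
  rw [h5] at h4
  rw [norm_mul, Real.norm_eq_abs, Real.norm_eq_abs, abs_of_pos (by norm_num : (0 : ℝ) < 2)]
  linarith

/-- `|∑_{n ∈ [u,v)} e(nα)| ≤ min (v - u, 1/(2‖α‖))`. (See also `H18GB.Vl.geo`.) -/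
theorem geo_le (u v : ℤ) (huv : u ≤ v) (α : ℝ) :
    ‖∑ n ∈ Ico u v, e (n * α)‖ ≤ v - u ∧ ‖∑ n ∈ Ico u v, e (n * α)‖ * (2 * nd α) ≤ 1 := by
  constructor
  · refine (norm_sum_le _ _).trans ?_
    simp_rw [VB_norm_e]
    rw [sum_const, Int.card_Ico, nsmul_eq_mul, mul_one]
    have : (((v - u).toNat : ℤ) : ℝ) = ((v - u : ℤ) : ℝ) := by
      rw [Int.toNat_of_nonneg (by omega)]
    push_cast at this
    rw [this]
  · obtain ⟨n, rfl⟩ : ∃ n : ℕ, v = u + n := ⟨(v - u).toNat, by omega⟩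
    have h1 := congrArg norm (VB_tele u α n)
    rw [norm_mul] at h1
    have h2 : ‖e (((u + n : ℤ) : ℝ) * α) - e (u * α)‖ ≤ 2 := by
      refine (norm_sub_le _ _).trans ?_
      rw [VB_norm_e, VB_norm_e]
      norm_num
    have h3 := VB_four_nd_le α
    have h4 : 4 * nd α * ‖∑ x ∈ Finset.Ico u (u + n), e (x * α)‖ ≤ 2 := by
      calc 4 * nd α * ‖∑ x ∈ Finset.Ico u (u + n), e (x * α)‖
          ≤ ‖e α - 1‖ * ‖∑ x ∈ Finset.Ico u (u + n), e (x * α)‖ := by gcongr
        _ ≤ 2 := by rw [h1]; exact h2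
    linarith

/-- the cell of `x` modulo `1` in the partition into `q` intervals -/
noncomputable def VB_cell (q : ℕ) (x : ℝ) : ℤ := ⌊(q : ℝ) * Int.fract x⌋

theorem VB_cell_mem {q : ℕ} (hq : 1 ≤ q) (x : ℝ) : 0 ≤ VB_cell q x ∧ VB_cell q x < q := by
  have hq' : (0 : ℝ) < q := by exact_mod_cast hq
  constructor
  · exact Int.floor_nonneg.mpr (mul_nonneg hq'.le (Int.fract_nonneg x))
  · unfold VB_cell
    rw [Int.floor_lt]
    push_cast
    nlinarith [Int.fract_lt_one x]

/-- At most three of `q` consecutive multiples of `θ` fall in one cell. -/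
theorem VB_fiber {θ : ℝ} {q : ℕ} {a : ℤ} (hq : 1 ≤ q) (hco : IsCoprime a (q : ℤ))
    (hθ : |θ - a / q| ≤ 1 / (q : ℝ) ^ 2) (n0 : ℤ) (k : ℤ) :
    ((Ico n0 (n0 + q)).filter (fun n : ℤ => VB_cell q (n * θ) = k)).card ≤ 3 := by
  have hq' : (0 : ℝ) < q := by exact_mod_cast hq
  rcases ((Ico n0 (n0 + q)).filter (fun n : ℤ => VB_cell q (n * θ) = k)).eq_empty_or_nonempty with
    h0 | ⟨r', hr'⟩
  · rw [h0]; simp
  rw [mem_filter, mem_Ico] at hr'
  obtain ⟨⟨hr1, hr2⟩, hr3⟩ := hr'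
  set t : ℤ → ℤ := fun r => (r - r') * a - q * (⌊(r : ℝ) * θ⌋ - ⌊(r' : ℝ) * θ⌋) with ht
  have hmem : ∀ r ∈ (Ico n0 (n0 + q)).filter (fun n : ℤ => VB_cell q (n * θ) = k),
      t r ∈ Icc (-1 : ℤ) 1 := by
    intro r hr
    rw [mem_filter, mem_Ico] at hr
    obtain ⟨⟨h1, h2⟩, h3⟩ := hr
    have hcell : VB_cell q (r * θ) = VB_cell q (r' * θ) := by rw [h3, hr3]
    have hab : |(q : ℝ) * Int.fract ((r : ℝ) * θ) - (q : ℝ) * Int.fract ((r' : ℝ) * θ)| < 1 :=
      Int.abs_sub_lt_one_of_floor_eq_floor hcell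
    have hrr : |((r : ℝ) - r')| ≤ q - 1 := by
      rw [abs_le]
      have e1 : (r : ℝ) ≤ n0 + q - 1 := by
        have : r ≤ n0 + q - 1 := by omega
        exact_mod_cast this
      have e2 : (n0 : ℝ) ≤ r := by exact_mod_cast h1
      have e3 : (r' : ℝ) ≤ n0 + q - 1 := by
        have : r' ≤ n0 + q - 1 := by omega
        exact_mod_cast this
      have e4 : (n0 : ℝ) ≤ r' := by exact_mod_cast hr1
      constructor <;> linarith
    have hkey : |(t r : ℝ)| < 2 := by
      have e1 : (t r : ℝ) = ((q : ℝ) * Int.fract ((r : ℝ) * θ) - (q : ℝ) * Int.fract ((r' : ℝ) * θ)) -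
          ((r : ℝ) - r') * (q * (θ - a / q)) := by
        rw [ht]
        have f1 : Int.fract ((r : ℝ) * θ) = r * θ - ⌊(r : ℝ) * θ⌋ := rfl
        have f2 : Int.fract ((r' : ℝ) * θ) = r' * θ - ⌊(r' : ℝ) * θ⌋ := rfl
        rw [f1, f2]
        push_cast
        field_simp
        ring
      have e2 : |((r : ℝ) - r') * (q * (θ - a / q))| ≤ (q - 1) * (1 / q) := by
        rw [abs_mul, abs_mul, abs_of_pos hq']
        have : (q : ℝ) * |θ - a / q| ≤ 1 / q := by
          calc (q : ℝ) * |θ - a / q| ≤ q * (1 / (q : ℝ) ^ 2) :=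
                mul_le_mul_of_nonneg_left hθ hq'.le
            _ = 1 / q := by field_simp
        exact mul_le_mul hrr this (by positivity) (le_trans (abs_nonneg _) hrr)
      have e3 : ((q : ℝ) - 1) * (1 / q) < 1 := by
        rw [mul_one_div, div_lt_one hq']
        linarith
      rw [e1]
      calc _ ≤ |(q : ℝ) * Int.fract ((r : ℝ) * θ) - (q : ℝ) * Int.fract ((r' : ℝ) * θ)| +
            |((r : ℝ) - r') * (q * (θ - a / q))| := abs_sub _ _
        _ < 2 := by linarith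
    rw [abs_lt] at hkey
    have h4 : (-2 : ℤ) < t r := by exact_mod_cast hkey.1
    have h5 : t r < (2 : ℤ) := by exact_mod_cast hkey.2
    rw [mem_Icc]
    omega
  have hinj : Set.InjOn t ((Ico n0 (n0 + q)).filter (fun n : ℤ => VB_cell q (n * θ) = k) : Set ℤ) := by
    intro r1 h1 r2 h2 h12
    rw [coe_filter, Set.mem_setOf_eq, mem_Ico] at h1 h2
    have h3 : (q : ℤ) ∣ (r1 - r2) * a := by
      refine ⟨(⌊(r1 : ℝ) * θ⌋ - ⌊(r' : ℝ) * θ⌋) - (⌊(r2 : ℝ) * θ⌋ - ⌊(r' : ℝ) * θ⌋), ?_⟩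
      have h12' : (r1 - r') * a - q * (⌊(r1 : ℝ) * θ⌋ - ⌊(r' : ℝ) * θ⌋) =
        (r2 - r') * a - q * (⌊(r2 : ℝ) * θ⌋ - ⌊(r' : ℝ) * θ⌋) := h12
      linear_combination h12'
    have h4 : (q : ℤ) ∣ (r1 - r2) := (hco.symm).dvd_of_dvd_mul_right h3
    have h5 : |r1 - r2| < q := by
      rw [abs_lt]
      omega
    have h6 := Int.eq_zero_of_abs_lt_dvd h4 h5
    omega
  have := card_le_card_of_injOn t hmem hinj
  simpa using this

/-- The weight of the block lemma. -/
noncomputable def VB_f (B x : ℝ) : ℝ := if nd x = 0 then B else min B (1 / (2 * nd x))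

theorem VB_nd_nonneg (x : ℝ) : 0 ≤ nd x := abs_nonneg _

theorem VB_f_nonneg {B : ℝ} (hB : 0 ≤ B) (x : ℝ) : 0 ≤ VB_f B x := by
  unfold VB_f
  split_ifs
  · exact hB
  · exact le_min hB (by have := VB_nd_nonneg x; positivity)

theorem VB_f_le {B : ℝ} (x : ℝ) : VB_f B x ≤ B := by
  unfold VB_f
  split_ifs
  · exact le_rfl
  · exact min_le_left _ _

/-- distance to the nearest integer in terms of the fractional part -/
theorem VB_nd_eq (x : ℝ) : nd x = min (Int.fract x) (1 - Int.fract x) := by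
  unfold nd
  exact abs_sub_round_eq_min x

theorem VB_nd_ge {q : ℕ} (hq : 1 ≤ q) (x : ℝ) (j : ℝ) (h1 : j ≤ VB_cell q x)
    (h2 : j ≤ q - 1 - VB_cell q x) : j / q ≤ nd x := by
  have hq' : (0 : ℝ) < q := by exact_mod_cast hq
  rw [VB_nd_eq, div_le_iff₀ hq']
  have h3 : (VB_cell q x : ℝ) ≤ (q : ℝ) * Int.fract x := Int.floor_le _
  have h4 : (q : ℝ) * Int.fract x < VB_cell q x + 1 := Int.lt_floor_add_one _
  rcases le_total (Int.fract x) (1 - Int.fract x) with h | h
  · rw [min_eq_left h]; linarith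
  · rw [min_eq_right h]; nlinarith

/-- the bound of the weight in a cell -/
noncomputable def VB_g (q : ℕ) (B : ℝ) (k : ℤ) : ℝ :=
  (if k = 0 then B else (q : ℝ) / (2 * k)) + (if k = q - 1 then B else (q : ℝ) / (2 * (q - 1 - k)))

theorem VB_f_le_g {q : ℕ} (hq : 1 ≤ q) {B : ℝ} (hB : 0 ≤ B) (x : ℝ) :
    VB_f B x ≤ VB_g q B (VB_cell q x) := by
  have hq' : (0 : ℝ) < q := by exact_mod_cast hq
  obtain ⟨h1, h2⟩ := VB_cell_mem hq x
  set k := VB_cell q x with hk
  have hk0 : (0 : ℝ) ≤ k := by exact_mod_cast h1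
  have hk1 : (k : ℝ) ≤ q - 1 := by
    have : k ≤ (q : ℤ) - 1 := by omega
    exact_mod_cast this
  have n1 : 0 ≤ (if k = 0 then B else (q : ℝ) / (2 * k)) := by
    split_ifs
    · exact hB
    · positivity
  have n2 : 0 ≤ (if k = q - 1 then B else (q : ℝ) / (2 * (q - 1 - k))) := by
    split_ifs
    · exact hB
    · exact div_nonneg hq'.le (by linarith)
  unfold VB_g
  by_cases hk00 : k = 0
  · rw [if_pos hk00]
    rw [hk00] at n2 ⊢
    linarith [VB_f_le (B := B) x]
  by_cases hk11 : k = q - 1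
  · rw [if_pos hk11]
    linarith [VB_f_le (B := B) x]
  rw [if_neg hk00, if_neg hk11]
  rw [if_neg hk00] at n1
  rw [if_neg hk11] at n2
  have hk0' : (1 : ℝ) ≤ k := by
    have : (1 : ℤ) ≤ k := by omega
    exact_mod_cast this
  have hk1' : (1 : ℝ) ≤ q - 1 - k := by
    have : (1 : ℤ) ≤ (q : ℤ) - 1 - k := by omega
    exact_mod_cast this
  rcases le_total (k : ℝ) (q - 1 - k) with h | h
  · have h3 := VB_nd_ge hq x k le_rfl h
    have hpos : 0 < nd x := lt_of_lt_of_le (by positivity) h3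
    have h4 : VB_f B x ≤ 1 / (2 * nd x) := by
      unfold VB_f
      rw [if_neg hpos.ne']
      exact min_le_right _ _
    have h5 : 1 / (2 * nd x) ≤ q / (2 * k) := by
      rw [div_le_div_iff₀ (by positivity) (by positivity)]
      rw [div_le_iff₀ hq'] at h3
      linarith
    linarith
  · have h3 := VB_nd_ge hq x (q - 1 - k) h le_rfl
    have hpos : 0 < nd x := lt_of_lt_of_le (by positivity) h3
    have h4 : VB_f B x ≤ 1 / (2 * nd x) := by
      unfold VB_f
      rw [if_neg hpos.ne']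
      exact min_le_right _ _
    have h5 : 1 / (2 * nd x) ≤ q / (2 * (q - 1 - k)) := by
      rw [div_le_div_iff₀ (by positivity) (by positivity)]
      rw [div_le_iff₀ hq'] at h3
      linarith
    linarith

theorem VB_harm (q : ℕ) (hq : 1 ≤ q) : ∑ k ∈ range q, (1 / (k : ℝ)) ≤ 1 + Real.log q := by
  obtain ⟨m, rfl⟩ : ∃ m, q = m + 1 := ⟨q - 1, by omega⟩
  rw [Finset.sum_range_succ']
  simp only [Nat.cast_add, Nat.cast_one, Nat.cast_zero, div_zero, add_zero]
  have h := harmonic_le_one_add_log m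
  have h1 : ((harmonic m : ℚ) : ℝ) = ∑ k ∈ range m, (1 / ((k : ℝ) + 1)) := by
    unfold harmonic
    push_cast
    exact Finset.sum_congr rfl fun i _ => by rw [one_div]
  rw [h1] at h
  refine h.trans ?_
  have : Real.log m ≤ Real.log ((m : ℝ) + 1) := by
    rcases Nat.eq_zero_or_pos m with h0 | h0
    · rw [h0]; simp
    · exact Real.log_le_log (by exact_mod_cast h0) (by linarith)
  linarith

theorem VB_g_sum {q : ℕ} (hq : 1 ≤ q) {B : ℝ} (hB : 0 ≤ B) :
    ∑ k ∈ range q, VB_g q B k ≤ 2 * B + q * (1 + Real.log q) := by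
  have hq' : (0 : ℝ) < q := by exact_mod_cast hq
  have hH := VB_harm q hq
  unfold VB_g
  rw [Finset.sum_add_distrib]
  have h1 : ∑ k ∈ range q, (if ((k : ℕ) : ℤ) = 0 then B else (q : ℝ) / (2 * ((k : ℤ) : ℝ))) ≤
      B + q / 2 * ∑ k ∈ range q, (1 / (k : ℝ)) := by
    rw [Finset.mul_sum]
    have : B = ∑ k ∈ range q, (if k = 0 then B else 0) := by
      rw [Finset.sum_ite_eq' (range q) 0 (fun _ => B), if_pos (mem_range.mpr (by omega))]
    conv_rhs => rw [this]
    rw [← Finset.sum_add_distrib]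
    refine Finset.sum_le_sum fun k _ => ?_
    by_cases hk : k = 0
    · subst hk; simp
    · rw [if_neg (by exact_mod_cast hk), if_neg hk]
      have : (k : ℝ) ≠ 0 := by exact_mod_cast hk
      refine le_of_eq ?_
      push_cast
      field_simp
      ring
  have h2 : ∑ k ∈ range q, (if ((k : ℕ) : ℤ) = q - 1 then B else
      (q : ℝ) / (2 * ((q : ℝ) - 1 - ((k : ℤ) : ℝ)))) ≤ B + q / 2 * ∑ k ∈ range q, (1 / (k : ℝ)) := by
    refine le_trans (le_of_eq ?_) h1
    rw [← Finset.sum_range_reflect]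
    refine Finset.sum_congr rfl fun k hk => ?_
    rw [mem_range] at hk
    have e1 : (((q - 1 - k : ℕ) : ℤ)) = (q : ℤ) - 1 - k := by omega
    rw [e1]
    by_cases hk0 : k = 0
    · subst hk0
      rw [if_pos (by push_cast; ring), if_pos (by simp)]
    · rw [if_neg (by omega), if_neg (by exact_mod_cast hk0)]
      congr 1
      push_cast
      ring
  have := add_le_add h1 h2
  nlinarith

/-- One block of the block lemma. -/
theorem VB_one {θ : ℝ} {q : ℕ} {a : ℤ} (hq : 1 ≤ q) (hco : IsCoprime a (q : ℤ))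
    (hθ : |θ - a / q| ≤ 1 / (q : ℝ) ^ 2) (n0 : ℤ) {B : ℝ} (hB : 0 ≤ B) :
    ∑ n ∈ Ico n0 (n0 + q), VB_f B (n * θ) ≤ 6 * B + 3 * q * (1 + Real.log q) := by
  have hq' : (0 : ℝ) < q := by exact_mod_cast hq
  have h1 : ∑ n ∈ Ico n0 (n0 + q), VB_f B (n * θ) ≤
      ∑ n ∈ Ico n0 (n0 + q), VB_g q B (VB_cell q (n * θ)) :=
    Finset.sum_le_sum fun n _ => VB_f_le_g hq hB _
  refine h1.trans ?_
  have hmaps : ∀ n ∈ Ico n0 (n0 + q), (VB_cell q (n * θ)).toNat ∈ range q := by
    intro n _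
    obtain ⟨h2, h3⟩ := VB_cell_mem hq ((n : ℝ) * θ)
    rw [mem_range]
    omega
  rw [← Finset.sum_fiberwise_of_maps_to hmaps]
  have hg0 : ∀ k ∈ range q, 0 ≤ VB_g q B k := by
    intro k hk
    rw [mem_range] at hk
    unfold VB_g
    have hk1 : (k : ℝ) ≤ q - 1 := by
      have : (k : ℤ) ≤ (q : ℤ) - 1 := by omega
      exact_mod_cast this
    refine add_nonneg ?_ ?_
    · split_ifs
      · exact hB
      · positivity
    · split_ifs
      · exact hB
      · refine div_nonneg hq'.le ?_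
        push_cast
        linarith
  have h4 : ∀ k ∈ range q, ∑ n ∈ (Ico n0 (n0 + q)).filter
      (fun n : ℤ => (VB_cell q ((n : ℝ) * θ)).toNat = k), VB_g q B (VB_cell q (n * θ)) ≤
      3 * VB_g q B k := by
    intro k hk
    have hsub : (Ico n0 (n0 + q)).filter (fun n : ℤ => (VB_cell q ((n : ℝ) * θ)).toNat = k) =
        (Ico n0 (n0 + q)).filter (fun n : ℤ => VB_cell q (n * θ) = k) := by
      refine Finset.filter_congr fun n _ => ?_
      obtain ⟨h2, h3⟩ := VB_cell_mem hq ((n : ℝ) * θ)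
      omega
    rw [hsub]
    have h5 : ∑ n ∈ (Ico n0 (n0 + q)).filter (fun n : ℤ => VB_cell q (n * θ) = k),
        VB_g q B (VB_cell q (n * θ)) =
        ∑ n ∈ (Ico n0 (n0 + q)).filter (fun n : ℤ => VB_cell q (n * θ) = k), VB_g q B k := by
      refine Finset.sum_congr rfl fun n hn => ?_
      rw [(mem_filter.mp hn).2]
    rw [h5, Finset.sum_const, nsmul_eq_mul]
    refine mul_le_mul_of_nonneg_right ?_ (hg0 k hk)
    exact_mod_cast VB_fiber hq hco hθ n0 k
  refine (Finset.sum_le_sum h4).trans ?_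
  rw [← Finset.mul_sum]
  have := VB_g_sum hq hB
  nlinarith

theorem VB_one_add_log_le {q : ℕ} (hq : 1 ≤ q) : 1 + Real.log q ≤ 2 * Real.log (2 * q) := by
  have hq' : (1 : ℝ) ≤ q := by exact_mod_cast hq
  have h1 : 0 ≤ Real.log q := Real.log_nonneg hq'
  rw [Real.log_mul (by norm_num) (by positivity)]
  have h2 := Real.log_two_gt_d9
  linarith

/-- **Block lemma.** `∑_{n ∈ [u, u + A)} min (B, 1/(2‖nθ‖)) ≤ C (A/q + 1) (B + q log(2q))`.
Split into blocks of `q` consecutive `n`; in a block `nθ = n₀θ + j a/q + O(1/q)`, so at most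
a bounded number of `n` have `‖nθ‖` in each interval `[i/q, (i+1)/q]`. (`1/0 = 0` in the ratio
is why we write `min B (1/(2 nd))` only for `nd ≠ 0`.) -/
theorem block : ∃ C : ℝ, 0 < C ∧ ∀ (θ : ℝ) (q : ℕ) (a : ℤ), 1 ≤ q → IsCoprime a (q : ℤ) →
    |θ - a / q| ≤ 1 / (q : ℝ) ^ 2 → ∀ (u : ℤ) (A : ℕ) (B : ℝ), 1 ≤ B →
    ∑ n ∈ Ico u (u + A), (if nd (n * θ) = 0 then B else min B (1 / (2 * nd (n * θ)))) ≤
      C * ((A : ℝ) / q + 1) * (B + q * Real.log (2 * q)) := by
  refine ⟨6, by norm_num, ?_⟩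
  intro θ q a hq hco hθ u A B hB
  have hq' : (0 : ℝ) < q := by exact_mod_cast hq
  have hB0 : 0 ≤ B := by linarith
  change ∑ n ∈ Ico u (u + A), VB_f B (n * θ) ≤ _
  have hlog : 0 ≤ Real.log (2 * q) := Real.log_nonneg (by
    have : (1 : ℝ) ≤ q := by exact_mod_cast hq
    linarith)
  -- sum over `m` blocks
  have hblocks : ∀ m : ℕ, ∑ n ∈ Ico u (u + (m * q : ℕ)), VB_f B (n * θ) ≤
      m * (6 * B + 3 * q * (1 + Real.log q)) := by
    intro m
    induction m with
    | zero => simp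
    | succ m ih =>
      have hsplit : Ico u (u + ((m + 1) * q : ℕ)) =
          Ico u (u + (m * q : ℕ)) ∪ Ico (u + (m * q : ℕ)) (u + (m * q : ℕ) + q) := by
        ext x
        simp only [mem_union, mem_Ico]
        push_cast
        constructor
        · intro h
          by_cases hx : x < u + m * q
          · left; exact ⟨h.1, hx⟩
          · right
            refine ⟨by omega, ?_⟩
            have := h.2
            nlinarith
        · rintro (h | h)
          · refine ⟨h.1, ?_⟩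
            have := h.2
            nlinarith
          · refine ⟨?_, ?_⟩
            · have := h.1
              have : (0 : ℤ) ≤ m * q := by positivity
              omega
            · have := h.2
              nlinarith
      rw [hsplit]
      have h2 := VB_one hq hco hθ (u + (m * q : ℕ)) hB0
      have h3 : ∑ n ∈ Ico u (u + (m * q : ℕ)) ∪ Ico (u + (m * q : ℕ)) (u + (m * q : ℕ) + q),
          VB_f B (n * θ) ≤ ∑ n ∈ Ico u (u + (m * q : ℕ)), VB_f B (n * θ) +
          ∑ n ∈ Ico (u + (m * q : ℕ)) (u + (m * q : ℕ) + q), VB_f B (n * θ) := by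
        rw [Finset.sum_union]
        rw [Finset.disjoint_left]
        intro x hx hx'
        rw [mem_Ico] at hx hx'
        omega
      push_cast
      push_cast at h3 h2 ih
      linarith
  have hsub : Ico u (u + A) ⊆ Ico u (u + ((A / q + 1) * q : ℕ)) := by
    refine Finset.Ico_subset_Ico_right ?_
    have h1 : A < (A / q + 1) * q := by
      have := Nat.div_add_mod A q
      have h2 := Nat.mod_lt A hq
      nlinarith
    have h2 : (A : ℤ) ≤ (((A / q + 1) * q : ℕ) : ℤ) := by exact_mod_cast h1.le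
    linarith
  have h1 := Finset.sum_le_sum_of_subset_of_nonneg hsub
    (fun n _ _ => VB_f_nonneg hB0 ((n : ℝ) * θ))
  refine h1.trans ((hblocks (A / q + 1)).trans ?_)
  have h2 : (((A / q + 1 : ℕ)) : ℝ) ≤ (A : ℝ) / q + 1 := by
    push_cast
    have : ((A / q : ℕ) : ℝ) ≤ (A : ℝ) / q := Nat.cast_div_le
    linarith
  have h3 : 6 * B + 3 * q * (1 + Real.log q) ≤ 6 * (B + q * Real.log (2 * q)) := by
    have := VB_one_add_log_le hq
    nlinarith
  have h4 : 0 ≤ 6 * (B + q * Real.log (2 * q)) := by positivity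
  calc (((A / q + 1 : ℕ)) : ℝ) * (6 * B + 3 * q * (1 + Real.log q))
      ≤ (((A / q + 1 : ℕ)) : ℝ) * (6 * (B + q * Real.log (2 * q))) :=
        mul_le_mul_of_nonneg_left h3 (by positivity)
    _ ≤ ((A : ℝ) / q + 1) * (6 * (B + q * Real.log (2 * q))) :=
        mul_le_mul_of_nonneg_right h2 h4
    _ = _ := by ring

end Pool.Agent.Lib.H68T
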