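import Pool.Agent.Lib.H68T.Defs

/-!
# Chunk KER: the kernel in terms of primitive characters
-/

open Finset

namespace Pool.Agent.Lib.H68T

theorem KER_sigma_eq {d r r' : ℕ} [NeZero d] (hr : r ∣ d) (hr' : r' ∣ d)
    (ψ : DirichletCharacter ℂ r) (ψ' : DirichletCharacter ℂ r') (h : r = r')
    (he : DirichletCharacter.changeLevel hr ψ = DirichletCharacter.changeLevel hr' ψ') :
    (⟨r, ψ⟩ : Σ r : ℕ, DirichletCharacter ℂ r) = ⟨r', ψ'⟩ := by
  subst h
  rw [DirichletCharacter.changeLevel_injective hr he]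

theorem KER_sum (Q d : ℕ) [NeZero d] [Fintype (DirichletCharacter ℂ d)] (hd : d ≤ Q)
    (F : (Σ r : ℕ, DirichletCharacter ℂ r) → ℂ) :
    ∑ χ : DirichletCharacter ℂ d, F ⟨χ.conductor, χ.primitiveCharacter⟩ =
      ∑ p ∈ (PC Q).filter (fun p => p.1 ∣ d), F p := by
  refine Finset.sum_bij (fun χ _ => ⟨χ.conductor, χ.primitiveCharacter⟩) ?_ ?_ ?_ ?_
  · intro χ _
    rw [mem_filter, mem_PC]
    have h1 := χ.conductor_dvd_level
    have h2 := χ.conductor_ne_zero
    have h3 := Nat.le_of_dvd (Nat.pos_of_ne_zero (NeZero.ne d)) h1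
    exact ⟨⟨Nat.one_le_iff_ne_zero.mpr h2, h3.trans hd, χ.primitiveCharacter_isPrimitive⟩, h1⟩
  · intro χ₁ _ χ₂ _ h
    rw [← χ₁.changeLevel_primitiveCharacter, ← χ₂.changeLevel_primitiveCharacter]
    have : ∀ (p p' : Σ r : ℕ, DirichletCharacter ℂ r) (hp : p.1 ∣ d) (hp' : p'.1 ∣ d), p = p' →
        DirichletCharacter.changeLevel hp p.2 = DirichletCharacter.changeLevel hp' p'.2 := by
      rintro p p' hp hp' rfl
      rfl
    exact this _ _ χ₁.conductor_dvd_level χ₂.conductor_dvd_level h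
  · rintro ⟨r, ψ⟩ hp
    rw [mem_filter, mem_PC] at hp
    obtain ⟨⟨h1, h2, h3⟩, h4⟩ := hp
    have hr : NeZero r := ⟨by simp only at h1; omega⟩
    refine ⟨DirichletCharacter.changeLevel h4 ψ, mem_univ _, ?_⟩
    have hc := DirichletCharacter.conductor_changeLevel ψ h4
    rw [h3] at hc
    refine KER_sigma_eq (DirichletCharacter.conductor_dvd_level _) h4 _ _ hc ?_
    rw [DirichletCharacter.changeLevel_primitiveCharacter]
  · intro χ _
    rfl

theorem KER_orth (Q d n : ℕ) (m : ℤ) (hd0 : d ≠ 0) (hd : d ≤ Q) (hn : n.Coprime d)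
    (hm : IsCoprime (d : ℤ) m) :
    ∑ p ∈ (PC Q).filter (fun p => p.1 ∣ d), p.2 (n : ZMod p.1) *
        (starRingEnd ℂ) (p.2 (m : ZMod p.1)) =
      if (d : ℤ) ∣ (n : ℤ) - m then (d.totient : ℂ) else 0 := by
  have hne : NeZero d := ⟨hd0⟩
  rw [← KER_sum Q d hd (fun p => p.2 (n : ZMod p.1) * (starRingEnd ℂ) (p.2 (m : ZMod p.1)))]
  have hnz : IsCoprime (n : ℤ) (d : ℤ) := Nat.isCoprime_iff_coprime.mpr hn
  have hu : IsUnit ((m : ℤ) : ZMod d) := by
    rw [← ZMod.coe_unitOfIsCoprime m hm.symm]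
    exact Units.isUnit _
  have h1 : ∀ χ : DirichletCharacter ℂ d,
      χ.primitiveCharacter (n : ZMod χ.conductor) *
        (starRingEnd ℂ) (χ.primitiveCharacter (m : ZMod χ.conductor)) =
      χ ((m : ZMod d)⁻¹) * χ (n : ZMod d) := by
    intro χ
    have h2 := χ.primitiveCharacter_apply_of_isCoprime (a := (n : ℤ)) hnz
    have h3 := χ.primitiveCharacter_apply_of_isCoprime (a := m) hm.symm
    rw [Int.cast_natCast, Int.cast_natCast] at h2
    rw [h2, h3, mul_comm]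
    congr 1
    have h5 : (starRingEnd ℂ) (χ (m : ZMod d)) = χ⁻¹ (m : ZMod d) := MulChar.star_apply' χ _
    have hone : χ ((m : ZMod d)⁻¹) * χ (m : ZMod d) = 1 := by
      rw [← map_mul, ZMod.inv_mul_of_unit _ hu, map_one]
    rw [h5, MulChar.inv_apply_eq_inv']
    exact (eq_inv_of_mul_eq_one_left hone).symm
  simp_rw [h1]
  rw [DirichletCharacter.sum_char_inv_mul_char_eq ℂ hu (n : ZMod d)]
  have h4 : ((m : ZMod d) = (n : ZMod d)) ↔ (d : ℤ) ∣ (n : ℤ) - m := by
    rw [← ZMod.intCast_eq_intCast_iff_dvd_sub, Int.cast_natCast]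
  simp only [h4]

/-- For a prime `n > Q` and any integer `m`,
`∑_{q ≤ Q} c_q(n - m) = ∑_{ψ primitive, conductor r ≤ Q} Γ_r(m) ψ(n) conj ψ(m)`.

Proof. `c_q(n-m) = ∑_{d ∣ q, d ∣ n - m} d μ(q/d)`. Here `d ≤ Q < n` so `(n, d) = 1`, and
`d ∣ n - m` forces `(m, d) = 1`; for `(m,d) = (n,d) = 1`,
`[d ∣ n - m] = (1/φ(d)) ∑_{χ mod d} χ(n) conj χ(m)`
(`DirichletCharacter.sum_char_inv_mul_char_eq`). Every `χ` mod `d` is `changeLevel` of the
primitive character `χ.primitiveCharacter` of conductor `r ∣ d`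
(`changeLevel_primitiveCharacter`, `conductor_changeLevel`), with the same values at integers
coprime to `d`; this is a bijection between the characters mod `d` and the pairs `(r, ψ)`,
`r ∣ d`, `ψ` primitive mod `r`. Exchange the sums. -/
theorem kernel_char (Q : ℕ) (n : ℕ) (hn : n.Prime) (hQn : Q < n) (m : ℤ) :
    ((∑ q ∈ Icc 1 Q, cq q ((n : ℤ) - m) : ℝ) : ℂ) =
      ∑ p ∈ PC Q, (Gam Q p.1 m : ℂ) * (p.2 (n : ZMod p.1) *
        (starRingEnd ℂ) (p.2 (m : ZMod p.1))) := by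
  set E : (Σ r : ℕ, DirichletCharacter ℂ r) → ℂ := fun p => p.2 (n : ZMod p.1) *
        (starRingEnd ℂ) (p.2 (m : ZMod p.1)) with hE
  -- the left side
  have hL : ∀ q ∈ Icc 1 Q, ((cq q ((n : ℤ) - m) : ℝ) : ℂ) =
      ∑ d ∈ q.divisors.filter (fun d : ℕ => IsCoprime (d : ℤ) m),
        ((ArithmeticFunction.moebius (q / d) : ℝ) : ℂ) * ((d : ℂ) / (Nat.totient d : ℂ)) *
          ∑ p ∈ (PC Q).filter (fun p => p.1 ∣ d), E p := by
    intro q hq
    rw [mem_Icc] at hq
    unfold cq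
    rw [Complex.ofReal_sum, Finset.sum_filter, Finset.sum_filter]
    refine Finset.sum_congr rfl fun d hd => ?_
    rw [Nat.mem_divisors] at hd
    have hd0 : d ≠ 0 := by
      rintro rfl
      exact hd.2 (Nat.eq_zero_of_zero_dvd hd.1)
    have hdq : d ≤ q := Nat.le_of_dvd (by omega) hd.1
    have hdn : n.Coprime d := by
      rw [Nat.Prime.coprime_iff_not_dvd hn]
      intro h
      have := Nat.le_of_dvd (Nat.pos_of_ne_zero hd0) h
      omega
    have hphi : (d.totient : ℂ) ≠ 0 := by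
      have := Nat.totient_pos.mpr (Nat.pos_of_ne_zero hd0)
      exact_mod_cast this.ne'
    by_cases hm : IsCoprime (d : ℤ) m
    · rw [if_pos hm, KER_orth Q d n m hd0 (hdq.trans hq.2) hdn hm]
      by_cases hdv : (d : ℤ) ∣ (n : ℤ) - m
      · rw [if_pos hdv, if_pos hdv]
        push_cast
        field_simp
      · rw [if_neg hdv, if_neg hdv]
        simp
    · rw [if_neg hm, if_neg]
      intro hdv
      apply hm
      have h1 : IsCoprime (d : ℤ) (n : ℤ) := (Nat.isCoprime_iff_coprime.mpr hdn).symm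
      obtain ⟨c, hc⟩ := hdv
      have h2 : m = (n : ℤ) + (d : ℤ) * (-c) := by linear_combination -hc
      rw [h2]
      exact IsCoprime.add_mul_left_right h1 (-c)
  rw [Complex.ofReal_sum, Finset.sum_congr rfl hL]
  -- exchange
  simp_rw [Finset.mul_sum, Finset.sum_filter]
  have hswap : ∀ q ∈ Icc 1 Q,
      (∑ d ∈ q.divisors, if IsCoprime (d : ℤ) m then ∑ p ∈ PC Q, if p.1 ∣ d then
        ((ArithmeticFunction.moebius (q / d) : ℝ) : ℂ) * ((d : ℂ) / (Nat.totient d : ℂ)) * E p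
          else 0 else 0) =
      ∑ p ∈ PC Q, ((∑ d ∈ q.divisors.filter (fun d : ℕ => p.1 ∣ d ∧ IsCoprime (d : ℤ) m),
        (ArithmeticFunction.moebius (q / d) : ℝ) * ((d : ℝ) / (Nat.totient d : ℝ)) : ℝ) : ℂ)
          * E p := by
    intro q _
    have h1 : ∀ d ∈ q.divisors, (if IsCoprime (d : ℤ) m then ∑ p ∈ PC Q, if p.1 ∣ d then
        ((ArithmeticFunction.moebius (q / d) : ℝ) : ℂ) * ((d : ℂ) / (Nat.totient d : ℂ)) * E p
          else 0 else 0) = ∑ p ∈ PC Q, if p.1 ∣ d ∧ IsCoprime (d : ℤ) m then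
        ((ArithmeticFunction.moebius (q / d) : ℝ) : ℂ) * ((d : ℂ) / (Nat.totient d : ℂ)) * E p
          else 0 := by
      intro d _
      by_cases hm : IsCoprime (d : ℤ) m
      · simp [hm]
      · simp [hm]
    rw [Finset.sum_congr rfl h1, Finset.sum_comm]
    refine Finset.sum_congr rfl fun p _ => ?_
    rw [Complex.ofReal_sum, Finset.sum_mul, Finset.sum_filter]
    refine Finset.sum_congr rfl fun d _ => ?_
    split_ifs <;> push_cast <;> ring
  rw [Finset.sum_congr rfl hswap, Finset.sum_comm]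
  refine Finset.sum_congr rfl fun p hp => ?_
  rw [← Finset.sum_mul]
  congr 1
  unfold Gam
  rw [Complex.ofReal_sum, Finset.sum_filter]
  refine Finset.sum_congr rfl fun q hq => ?_
  split_ifs with hpq
  · rfl
  · rw [Finset.filter_false_of_mem]
    · simp
    · intro d hd h
      rw [Nat.mem_divisors] at hd
      exact hpq (h.1.trans hd.1)

end Pool.Agent.Lib.H68T
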