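import Pool.Agent.Lib.H68T.VB

/-!
# Chunk V1: type I sums
-/

open Finset

namespace Pool.Agent.Lib.H68T

theorem V1_f_mono {B B' x : ℝ} (h : B ≤ B') : VB_f B x ≤ VB_f B' x := by
  unfold VB_f
  split_ifs
  · exact h
  · exact min_le_min_right _ h

/-- For `2 d ≤ q` the multiple `d θ` is at distance at least `1/(2q)` from the integers. -/
theorem V1_nd_ge {θ : ℝ} {q : ℕ} {a : ℤ} (hco : IsCoprime a (q : ℤ))
    (hθ : |θ - a / q| ≤ 1 / (q : ℝ) ^ 2) {d : ℕ} (hd : 1 ≤ d) (hdq : 2 * d ≤ q) :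
    1 / (2 * q : ℝ) ≤ nd (d * θ) := by
  have hq' : (0 : ℝ) < q := by
    have : 0 < q := by omega
    exact_mod_cast this
  set m : ℤ := round ((d : ℝ) * θ) with hm
  have h1 : (1 : ℝ) ≤ |(d : ℝ) * a - m * q| := by
    have h2 : (d : ℤ) * a - m * q ≠ 0 := by
      intro h
      have h3 : (q : ℤ) ∣ (d : ℤ) * a := ⟨m, by linarith [mul_comm m (q : ℤ)]⟩
      have h4 : (q : ℤ) ∣ (d : ℤ) := (hco.symm).dvd_of_dvd_mul_right h3
      have h5 := Int.le_of_dvd (by omega) h4
      omega
    have h3 : (1 : ℤ) ≤ |(d : ℤ) * a - m * q| := Int.one_le_abs h2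
    have h4 : ((1 : ℤ) : ℝ) ≤ ((|(d : ℤ) * a - m * q| : ℤ) : ℝ) := by exact_mod_cast h3
    push_cast at h4
    exact h4
  have h2 : |(d : ℝ) * a - m * q| ≤ q * nd (d * θ) + d / q := by
    have e1 : (d : ℝ) * a - m * q = q * ((d : ℝ) * θ - m) - d * (q * (θ - a / q)) := by
      field_simp
      ring
    rw [e1]
    refine (abs_sub _ _).trans ?_
    rw [abs_mul, abs_of_pos hq', abs_mul, abs_mul, abs_of_pos hq', abs_of_nonneg (by positivity :
      (0 : ℝ) ≤ d)]
    have e2 : (q : ℝ) * |θ - a / q| ≤ 1 / q := by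
      calc (q : ℝ) * |θ - a / q| ≤ q * (1 / (q : ℝ) ^ 2) :=
            mul_le_mul_of_nonneg_left hθ hq'.le
        _ = 1 / q := by field_simp
    have e3 : (d : ℝ) * (q * |θ - a / q|) ≤ d / q := by
      calc (d : ℝ) * (q * |θ - a / q|) ≤ d * (1 / q) := by gcongr
        _ = d / q := by ring
    unfold nd
    rw [← hm]
    linarith
  have h3 : (d : ℝ) / q ≤ 1 / 2 := by
    rw [div_le_div_iff₀ hq' (by norm_num)]
    have : ((2 * d : ℕ) : ℝ) ≤ q := by exact_mod_cast hdq
    push_cast at this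
    linarith
  rw [div_le_iff₀ (by positivity)]
  linarith

/-- **Type I.** For `A ≤ N` and any intervals `[u_a, v_a)` of length at most `N/a`:
`∑_{a ≤ A} |∑_{n ∈ [u_a, v_a)} e(a n θ)| ≤ C (N/q + A + q) (log N)²`. Split `a` dyadically,
`a ∈ [2^j, 2^(j+1))`: each inner sum is at most `min (N/2^j, 1/(2‖aθ‖))`, and `block` gives
`C (2^j/q + 1)(N/2^j + q log 2q)`; sum over `j ≤ log A/log 2`. This loses the term `N` from small
`j` when `2^j < q`: for `a ≤ q/2` one has `‖aθ‖ ≥ 1/(2q)`, and the values `aθ` are `1/(2q)`-spaced,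
so `∑_{a ≤ q/2} 1/‖aθ‖ ≤ C q log q`; use `block` only for `2^j ≥ q/4`, where `1 ≤ 4·2^j/q`. -/
theorem type_one : ∃ C : ℝ, 0 < C ∧ ∀ (θ : ℝ) (q : ℕ) (a : ℤ), 1 ≤ q → IsCoprime a (q : ℤ) →
    |θ - a / q| ≤ 1 / (q : ℝ) ^ 2 → ∀ (N A : ℕ), 2 ≤ N → q ≤ N → A ≤ N → ∀ (u v : ℕ → ℤ),
    (∀ d, u d ≤ v d) → (∀ d, (v d - u d : ℝ) ≤ N / d + 1) →
    ∑ d ∈ Icc 1 A, ‖∑ n ∈ Ico (u d) (v d), e (d * n * θ)‖ ≤
      C * ((N : ℝ) / q + A + q) * (Real.log N) ^ 2 := by
  obtain ⟨C, hC, hblock⟩ := block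
  refine ⟨2 * (24 + 50 * C), by positivity, ?_⟩
  intro θ q a hq hco hθ N A hN hqN hAN u v huv hlen
  have hq' : (0 : ℝ) < q := by exact_mod_cast hq
  have hN' : (2 : ℝ) ≤ N := by exact_mod_cast hN
  have hN0 : (0 : ℝ) < N := by linarith
  have hlogN : Real.log 2 ≤ Real.log N := Real.log_le_log (by norm_num) hN'
  have hlog2 := Real.log_two_gt_d9
  have hlog2' := Real.log_two_lt_d9
  have hL : 1 ≤ 2 * Real.log N := by linarith
  have hlog2q : Real.log (2 * q) ≤ 2 * Real.log N := by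
    rw [Real.log_mul (by norm_num) hq'.ne']
    have : Real.log q ≤ Real.log N := Real.log_le_log hq' (by exact_mod_cast hqN)
    linarith
  have hlog2q0 : 0 ≤ Real.log (2 * q) := Real.log_nonneg (by
    have : (1 : ℝ) ≤ q := by exact_mod_cast hq
    linarith)
  set F : ℕ → ℝ := fun d => ‖∑ n ∈ Ico (u d) (v d), e (d * n * θ)‖ with hF
  have hF0 : ∀ d, 0 ≤ F d := fun d => norm_nonneg _
  have hgeo : ∀ d : ℕ, F d ≤ N / d + 1 ∧ F d * (2 * nd (d * θ)) ≤ 1 := by
    intro d
    have h1 : ∑ n ∈ Ico (u d) (v d), e (d * n * θ) = ∑ n ∈ Ico (u d) (v d), e (n * (d * θ)) := by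
      refine Finset.sum_congr rfl fun n _ => ?_
      congr 1
      ring
    obtain ⟨h2, h3⟩ := geo_le (u d) (v d) (huv d) ((d : ℝ) * θ)
    rw [← h1] at h2 h3
    exact ⟨h2.trans (hlen d), h3⟩
  have hFf : ∀ (d : ℕ) (B : ℝ), F d ≤ B → F d ≤ VB_f B (d * θ) := by
    intro d B hdB
    unfold VB_f
    split_ifs with h0
    · exact hdB
    · refine le_min hdB ?_
      have hpos : 0 < nd (d * θ) := lt_of_le_of_ne (VB_nd_nonneg _) (Ne.symm h0)
      rw [le_div_iff₀ (by positivity)]
      exact (hgeo d).2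
  -- split
  have hsplit : ∑ d ∈ Icc 1 A, F d = ∑ d ∈ (Icc 1 A).filter (fun d => 2 * d ≤ q), F d +
      ∑ d ∈ (Icc 1 A).filter (fun d => ¬ 2 * d ≤ q), F d :=
    (Finset.sum_filter_add_sum_filter_not _ _ _).symm
  -- part 1
  have hpart1 : ∑ d ∈ (Icc 1 A).filter (fun d => 2 * d ≤ q), F d ≤ 24 * (q * Real.log N) := by
    have h1 : ∀ d ∈ (Icc 1 A).filter (fun d => 2 * d ≤ q), F d ≤ VB_f q (((d : ℤ) : ℝ) * θ) := by
      intro d hd
      rw [mem_filter, mem_Icc] at hd
      have h2 := V1_nd_ge hco hθ hd.1.1 hd.2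
      have hpos : 0 < nd (d * θ) := lt_of_lt_of_le (by positivity) h2
      have h3 : F d ≤ q := by
        have h4 := (hgeo d).2
        have h5 : F d ≤ 1 / (2 * nd (d * θ)) := by
          rw [le_div_iff₀ (by positivity)]
          exact h4
        refine h5.trans ?_
        rw [div_le_iff₀ (by positivity)]
        rw [div_le_iff₀ (by positivity)] at h2
        linarith
      have := hFf d q h3
      push_cast
      exact this
    refine (Finset.sum_le_sum h1).trans ?_
    have h2 : ∑ d ∈ (Icc 1 A).filter (fun d => 2 * d ≤ q), VB_f q (((d : ℤ) : ℝ) * θ) ≤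
        ∑ n ∈ Ico (1 : ℤ) (1 + q), VB_f q (n * θ) := by
      rw [← Finset.sum_image (f := fun n : ℤ => VB_f q ((n : ℝ) * θ))
        (g := fun d : ℕ => (d : ℤ)) (s := (Icc 1 A).filter (fun d => 2 * d ≤ q))
        (fun x _ y _ h => Nat.cast_injective h)]
      refine Finset.sum_le_sum_of_subset_of_nonneg ?_ (fun n _ _ => VB_f_nonneg (by positivity) _)
      intro n hn
      rw [mem_image] at hn
      obtain ⟨d, hd, rfl⟩ := hn
      rw [mem_filter, mem_Icc] at hd
      rw [mem_Ico]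
      omega
    refine h2.trans ?_
    have h3 := VB_one hq hco hθ 1 (B := (q : ℝ)) (by positivity)
    refine h3.trans ?_
    have h4 := VB_one_add_log_le hq
    nlinarith
  -- part 2
  have hpart2 : ∑ d ∈ (Icc 1 A).filter (fun d => ¬ 2 * d ≤ q), F d ≤
      C * (30 * (N / q) + 20 * A) * Real.log N := by
    rcases Nat.eq_zero_or_pos A with hA0 | hA0
    · subst hA0
      simp only [Nat.cast_zero]
      have : (Icc 1 0).filter (fun d => ¬ 2 * d ≤ q) = ∅ := by simp
      rw [this, Finset.sum_empty]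
      have : 0 ≤ Real.log N := by linarith
      positivity
    set J := Nat.log 2 A with hJ
    have hmaps : ∀ d ∈ (Icc 1 A).filter (fun d => ¬ 2 * d ≤ q), Nat.log 2 d ∈ range (J + 1) := by
      intro d hd
      rw [mem_filter, mem_Icc] at hd
      rw [mem_range]
      have := Nat.log_mono_right (b := 2) hd.1.2
      omega
    rw [← Finset.sum_fiberwise_of_maps_to hmaps]
    have hj : ∀ j ∈ range (J + 1), ∑ d ∈ ((Icc 1 A).filter (fun d => ¬ 2 * d ≤ q)).filter
        (fun d => Nat.log 2 d = j), F d ≤ C * (10 * (N / q) + 10 * 2 ^ j * Real.log N) := by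
      intro j hj
      rw [mem_range] at hj
      have h2j : 2 ^ j ≤ A := by
        calc 2 ^ j ≤ 2 ^ J := Nat.pow_le_pow_right (by norm_num) (by omega)
          _ ≤ A := Nat.pow_log_le_self 2 (by omega)
      have h2jN : ((2 : ℝ) ^ j) ≤ N := by
        have : 2 ^ j ≤ N := h2j.trans hAN
        exact_mod_cast this
      have h2j0 : (0 : ℝ) < 2 ^ j := by positivity
      have hBge : (1 : ℝ) ≤ N / 2 ^ j + 1 := by
        have : (0 : ℝ) ≤ N / 2 ^ j := by positivity
        linarith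
      rcases (((Icc 1 A).filter (fun d => ¬ 2 * d ≤ q)).filter
        (fun d => Nat.log 2 d = j)).eq_empty_or_nonempty with h0 | ⟨d0, hd0⟩
      · rw [h0, Finset.sum_empty]
        have : 0 ≤ Real.log N := by linarith
        positivity
      rw [mem_filter, mem_filter, mem_Icc] at hd0
      obtain ⟨⟨⟨hd1, hd2⟩, hd3⟩, hd4⟩ := hd0
      have hq4 : (q : ℝ) ≤ 4 * 2 ^ j := by
        have h1 : d0 < 2 ^ (j + 1) := by
          rw [← hd4]
          exact Nat.lt_pow_succ_log_self (by norm_num) d0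
        have h2 : q ≤ 4 * 2 ^ j := by
          rw [pow_succ] at h1
          omega
        exact_mod_cast h2
      have h1 : ∑ d ∈ ((Icc 1 A).filter (fun d => ¬ 2 * d ≤ q)).filter
        (fun d => Nat.log 2 d = j), F d ≤
          ∑ n ∈ Ico ((2 ^ j : ℕ) : ℤ) (((2 ^ j : ℕ) : ℤ) + (2 ^ j : ℕ)),
            VB_f (N / 2 ^ j + 1) (n * θ) := by
        have h2 : ∀ d ∈ ((Icc 1 A).filter (fun d => ¬ 2 * d ≤ q)).filter
            (fun d => Nat.log 2 d = j), F d ≤ VB_f (N / 2 ^ j + 1) (((d : ℤ) : ℝ) * θ) := by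
          intro d hd
          rw [mem_filter, mem_filter, mem_Icc] at hd
          obtain ⟨⟨⟨he1, he2⟩, he3⟩, he4⟩ := hd
          have h3 : 2 ^ j ≤ d := by
            rw [← he4]
            exact Nat.pow_log_le_self 2 (by omega)
          have h3' : (2 : ℝ) ^ j ≤ d := by exact_mod_cast h3
          have h4 : F d ≤ N / 2 ^ j + 1 := by
            refine (hgeo d).1.trans ?_
            gcongr
          have := hFf d _ h4
          push_cast
          exact this
        refine (Finset.sum_le_sum h2).trans ?_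
        rw [← Finset.sum_image (f := fun n : ℤ => VB_f (N / 2 ^ j + 1) ((n : ℝ) * θ))
          (g := fun d : ℕ => (d : ℤ)) (s := ((Icc 1 A).filter (fun d => ¬ 2 * d ≤ q)).filter
            (fun d => Nat.log 2 d = j)) (fun x _ y _ h => Nat.cast_injective h)]
        refine Finset.sum_le_sum_of_subset_of_nonneg ?_
          (fun n _ _ => VB_f_nonneg (by linarith) _)
        intro n hn
        rw [mem_image] at hn
        obtain ⟨d, hd, rfl⟩ := hn
        rw [mem_filter, mem_filter, mem_Icc] at hd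
        obtain ⟨⟨⟨he1, he2⟩, he3⟩, he4⟩ := hd
        have h3 : 2 ^ j ≤ d := by
          rw [← he4]
          exact Nat.pow_log_le_self 2 (by omega)
        have h4 : d < 2 ^ (j + 1) := by
          rw [← he4]
          exact Nat.lt_pow_succ_log_self (by norm_num) d
        rw [pow_succ] at h4
        rw [mem_Ico]
        omega
      refine h1.trans ((hblock θ q a hq hco hθ _ _ _ hBge).trans ?_)
      have h5 : ((2 ^ j : ℕ) : ℝ) / q + 1 ≤ 5 * 2 ^ j / q := by
        push_cast
        rw [le_div_iff₀ hq', add_mul, div_mul_cancel₀ _ hq'.ne']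
        linarith
      have h6 : (N : ℝ) / 2 ^ j + 1 + q * Real.log (2 * q) ≤ 2 * (N / 2 ^ j) + q * (2 * Real.log N) := by
        have e1 : (1 : ℝ) ≤ N / 2 ^ j := by
          rw [le_div_iff₀ h2j0]
          linarith
        have e2 : (q : ℝ) * Real.log (2 * q) ≤ q * (2 * Real.log N) := by gcongr
        linarith
      have h7 : 0 ≤ (N : ℝ) / 2 ^ j + 1 + q * Real.log (2 * q) := by positivity
      calc C * (((2 ^ j : ℕ) : ℝ) / q + 1) * (N / 2 ^ j + 1 + q * Real.log (2 * q))
          ≤ C * (5 * 2 ^ j / q) * (2 * (N / 2 ^ j) + q * (2 * Real.log N)) := by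
            refine mul_le_mul (mul_le_mul_of_nonneg_left h5 hC.le) h6 h7 (by positivity)
        _ = C * (10 * (N / q) + 10 * 2 ^ j * Real.log N) := by
            field_simp
            ring
    refine (Finset.sum_le_sum hj).trans ?_
    rw [← Finset.mul_sum, Finset.sum_add_distrib, Finset.sum_const, card_range, nsmul_eq_mul]
    have hgeom : ∑ j ∈ range (J + 1), (10 * (2 : ℝ) ^ j * Real.log N) ≤ 20 * A * Real.log N := by
      have h1 : ∑ j ∈ range (J + 1), (2 : ℝ) ^ j ≤ 2 * A := by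
        have h2 : ∑ j ∈ range (J + 1), (2 : ℝ) ^ j = 2 ^ (J + 1) - 1 := by
          rw [geom_sum_eq (by norm_num)]
          norm_num
        rw [h2]
        have h3 : 2 ^ J ≤ A := Nat.pow_log_le_self 2 (by omega)
        have h4 : ((2 : ℝ) ^ J) ≤ A := by exact_mod_cast h3
        rw [pow_succ]
        linarith
      have h3 : ∑ j ∈ range (J + 1), (10 * (2 : ℝ) ^ j * Real.log N) =
          10 * Real.log N * ∑ j ∈ range (J + 1), (2 : ℝ) ^ j := by
        rw [Finset.mul_sum]
        exact Finset.sum_congr rfl fun j _ => by ring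
      rw [h3]
      have h4 : 0 ≤ Real.log N := by linarith
      nlinarith
    have hJ1 : ((J + 1 : ℕ) : ℝ) ≤ 3 * Real.log N := by
      have h1 : 2 ^ J ≤ N := (Nat.pow_log_le_self 2 (by omega)).trans hAN
      have h2 : ((2 : ℝ) ^ J) ≤ N := by exact_mod_cast h1
      have h3 : (J : ℝ) * Real.log 2 ≤ Real.log N := by
        rw [← Real.log_pow]
        exact Real.log_le_log (by positivity) h2
      push_cast
      nlinarith
    have hNq : 0 ≤ (N : ℝ) / q := by positivity
    have hlogN0 : 0 ≤ Real.log N := by linarith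
    have h8 : ((J + 1 : ℕ) : ℝ) * (10 * (N / q)) ≤ 3 * Real.log N * (10 * (N / q)) :=
      mul_le_mul_of_nonneg_right hJ1 (by positivity)
    calc C * (((J + 1 : ℕ) : ℝ) * (10 * (N / q)) + ∑ j ∈ range (J + 1), (10 * (2 : ℝ) ^ j * Real.log N))
        ≤ C * (3 * Real.log N * (10 * (N / q)) + 20 * A * Real.log N) := by
          refine mul_le_mul_of_nonneg_left (add_le_add h8 hgeom) hC.le
      _ = C * (30 * (N / q) + 20 * A) * Real.log N := by ring
  change ∑ d ∈ Icc 1 A, F d ≤ _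
  rw [hsplit]
  have hlogN0 : 0 ≤ Real.log N := by linarith
  have hNq : 0 ≤ (N : ℝ) / q := by positivity
  have hA0 : (0 : ℝ) ≤ A := by positivity
  have htot : 24 * (q * Real.log N) + C * (30 * (N / q) + 20 * A) * Real.log N ≤
      (24 + 50 * C) * (N / q + A + q) * Real.log N := by
    have h1 : 24 * (q : ℝ) + C * (30 * (N / q) + 20 * A) ≤ (24 + 50 * C) * (N / q + A + q) := by
      have e1 : 0 ≤ C * (N / q) := by positivity
      have e2 : 0 ≤ C * A := by positivity
      have e3 : 0 ≤ C * (q : ℝ) := by positivity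
      nlinarith
    calc 24 * (q * Real.log N) + C * (30 * (N / q) + 20 * A) * Real.log N
        = (24 * (q : ℝ) + C * (30 * (N / q) + 20 * A)) * Real.log N := by ring
      _ ≤ _ := mul_le_mul_of_nonneg_right h1 hlogN0
  refine (add_le_add hpart1 hpart2).trans (htot.trans ?_)
  have h2 : Real.log N ≤ 2 * (Real.log N) ^ 2 := by nlinarith
  calc (24 + 50 * C) * (N / q + A + q) * Real.log N
      ≤ (24 + 50 * C) * (N / q + A + q) * (2 * (Real.log N) ^ 2) := by
        refine mul_le_mul_of_nonneg_left h2 (by positivity)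
    _ = _ := by ring

end Pool.Agent.Lib.H68T
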