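import Pool.Agent.Lib.H68T.RegL
import Pool.Agent.Lib.H68T.TENT

/-!
# Chunk UNS; part of PER: Perron's formula with Cesàro weights, contour shift
-/

open Finset MeasureTheory

namespace Pool.Agent.Lib.H68T

/-- **Removing the weight.** `S(u) = ∑_{n ≤ u} a_n (u - n)`, `|S(u)| ≤ κ u²` on `[u₀, 2u₁]`;
with `h = √κ u ≤ u`: `h ∑_{n ≤ u} a_n = S(u+h) - S(u) - ∑_{u < n ≤ u+h} a_n (u + h - n)`, hence
`|∑_{n ≤ u} a_n| ≤ 5 √κ u + (h + 1)(2 + log u) ≤ 20 √κ u (1 + log u)`. -/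
theorem unsmooth (a : ℕ → ℂ) (κ u₀ u₁ : ℝ) (hκ0 : 0 < κ) (hκ1 : κ ≤ 1) (hu₀ : 1 ≤ u₀)
    (hκu : 1 ≤ κ * u₀) (ha : ∀ n, 1 ≤ n → ‖a n‖ ≤ 1 + Real.log n)
    (h : ∀ u : ℝ, u₀ ≤ u → u ≤ 2 * u₁ → ‖∑ n ∈ Icc 1 ⌊u⌋₊, a n * (1 - n / u)‖ ≤ κ * u) :
    ∀ u : ℝ, u₀ ≤ u → u ≤ u₁ → ‖∑ n ∈ Icc 1 ⌊u⌋₊, a n‖ ≤
      20 * Real.sqrt κ * u * (1 + Real.log u) := by
  intro u hu0 hu1
  have hu1' : 1 ≤ u := hu₀.trans hu0
  have hupos : 0 < u := by linarith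
  have hs0 : 0 < Real.sqrt κ := Real.sqrt_pos.mpr hκ0
  have hs1 : Real.sqrt κ ≤ 1 := by
    rw [Real.sqrt_le_left (by norm_num)]; simpa using hκ1
  have hss : Real.sqrt κ * Real.sqrt κ = κ := Real.mul_self_sqrt hκ0.le
  set d : ℝ := Real.sqrt κ * u with hd
  have hdpos : 0 < d := by positivity
  have hdu : d ≤ u := by
    calc d ≤ 1 * u := mul_le_mul_of_nonneg_right hs1 hupos.le
      _ = u := one_mul u
  have hd1 : 1 ≤ d := by
    have h1 : 1 ≤ κ * u := hκu.trans (by gcongr)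
    have h2 : κ * u ≤ d := by
      have h3 : κ ≤ Real.sqrt κ := by nlinarith
      exact mul_le_mul_of_nonneg_right h3 hupos.le
    linarith
  -- the weighted sums
  have hS : ∀ z : ℝ, u₀ ≤ z → z ≤ 2 * u₁ →
      ‖∑ n ∈ Icc 1 ⌊z⌋₊, a n * ((z : ℂ) - n)‖ ≤ κ * z ^ 2 := by
    intro z hz0 hz1
    have hz : 0 < z := by linarith
    have e1 : ∑ n ∈ Icc 1 ⌊z⌋₊, a n * ((z : ℂ) - n) =
        (z : ℂ) * ∑ n ∈ Icc 1 ⌊z⌋₊, a n * (1 - n / z) := by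
      rw [mul_sum]
      refine sum_congr rfl fun n _ => ?_
      have : (z : ℂ) ≠ 0 := by exact_mod_cast hz.ne'
      field_simp
    rw [e1, norm_mul]
    have := h z hz0 hz1
    have e2 : ‖(z : ℂ)‖ = z := by
      rw [Complex.norm_real, Real.norm_of_nonneg hz.le]
    rw [e2]
    nlinarith
  have hA := hS u hu0 (by linarith)
  have hB := hS (u + d) (by linarith) (by linarith)
  -- splitting
  have hfl : ⌊u⌋₊ ≤ ⌊u + d⌋₊ := Nat.floor_mono (by linarith)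
  have hsplit : ∑ n ∈ Icc 1 ⌊u + d⌋₊, a n * (((u + d : ℝ) : ℂ) - n) =
      ∑ n ∈ Icc 1 ⌊u⌋₊, a n * (((u + d : ℝ) : ℂ) - n) +
      ∑ n ∈ Ioc ⌊u⌋₊ ⌊u + d⌋₊, a n * (((u + d : ℝ) : ℂ) - n) := by
    rw [← sum_union]
    · congr 1
      ext n
      simp only [mem_union, mem_Icc, mem_Ioc]
      omega
    · rw [disjoint_left]
      intro n hn hn'
      simp only [mem_Icc, mem_Ioc] at hn hn'
      omega
  have hid : (d : ℂ) * ∑ n ∈ Icc 1 ⌊u⌋₊, a n =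
      ∑ n ∈ Icc 1 ⌊u + d⌋₊, a n * (((u + d : ℝ) : ℂ) - n) -
      ∑ n ∈ Icc 1 ⌊u⌋₊, a n * ((u : ℂ) - n) -
      ∑ n ∈ Ioc ⌊u⌋₊ ⌊u + d⌋₊, a n * (((u + d : ℝ) : ℂ) - n) := by
    rw [hsplit, mul_sum]
    have : ∑ n ∈ Icc 1 ⌊u⌋₊, a n * (((u + d : ℝ) : ℂ) - n) =
        ∑ n ∈ Icc 1 ⌊u⌋₊, (d : ℂ) * a n + ∑ n ∈ Icc 1 ⌊u⌋₊, a n * ((u : ℂ) - n) := by
      rw [← sum_add_distrib]
      refine sum_congr rfl fun n _ => ?_
      push_cast
      ring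
    rw [this]
    ring
  have hlast : ‖∑ n ∈ Ioc ⌊u⌋₊ ⌊u + d⌋₊, a n * (((u + d : ℝ) : ℂ) - n)‖ ≤
      (d + 1) * ((2 + Real.log u) * d) := by
    have h1 : ∀ n ∈ Ioc ⌊u⌋₊ ⌊u + d⌋₊, ‖a n * (((u + d : ℝ) : ℂ) - n)‖ ≤
        (2 + Real.log u) * d := by
      intro n hn
      rw [mem_Ioc] at hn
      have hn1 : u < n := (Nat.floor_lt hupos.le).mp hn.1
      have hn2 : (n : ℝ) ≤ u + d := (Nat.le_floor_iff (by positivity)).mp hn.2
      rw [norm_mul]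
      have h2 : ‖a n‖ ≤ 2 + Real.log u := by
        refine (ha n (by omega)).trans ?_
        have h3 : Real.log n ≤ Real.log (2 * u) :=
          Real.log_le_log (by linarith) (by linarith)
        rw [Real.log_mul (by norm_num) hupos.ne'] at h3
        have := Real.log_two_lt_d9
        linarith
      have h3 : ‖((u + d : ℝ) : ℂ) - n‖ ≤ d := by
        have : ((u + d : ℝ) : ℂ) - n = ((u + d - n : ℝ) : ℂ) := by push_cast; ring
        rw [this, Complex.norm_real, Real.norm_eq_abs, abs_le]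
        constructor <;> linarith
      have h4 : 0 ≤ Real.log u := Real.log_nonneg hu1'
      exact mul_le_mul h2 h3 (norm_nonneg _) (by linarith)
    refine (norm_sum_le _ _).trans ((sum_le_sum h1).trans ?_)
    rw [sum_const, Nat.card_Ioc, nsmul_eq_mul]
    have h4 : 0 ≤ Real.log u := Real.log_nonneg hu1'
    refine mul_le_mul_of_nonneg_right ?_ (by positivity)
    rw [Nat.cast_sub hfl]
    have := Nat.floor_le (show 0 ≤ u + d by positivity)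
    have := Nat.lt_floor_add_one u
    linarith
  have hlog : 0 ≤ Real.log u := Real.log_nonneg hu1'
  have hmain : d * ‖∑ n ∈ Icc 1 ⌊u⌋₊, a n‖ ≤ κ * (u + d) ^ 2 + κ * u ^ 2 +
      (d + 1) * ((2 + Real.log u) * d) := by
    have e1 : d * ‖∑ n ∈ Icc 1 ⌊u⌋₊, a n‖ = ‖(d : ℂ) * ∑ n ∈ Icc 1 ⌊u⌋₊, a n‖ := by
      rw [norm_mul, Complex.norm_real, Real.norm_of_nonneg hdpos.le]
    rw [e1, hid]
    refine (norm_sub_le _ _).trans (add_le_add ((norm_sub_le _ _).trans (add_le_add hB hA)) hlast)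
  have hκd : κ * u = Real.sqrt κ * d := by rw [hd, ← mul_assoc, hss]
  have h5 : κ * (u + d) ^ 2 + κ * u ^ 2 ≤ 5 * (d * d) := by
    have h6 : κ * u ^ 2 = d * d := by rw [hd]; nlinarith [hss]
    have h7 : (u + d) ^ 2 ≤ 4 * u ^ 2 := by nlinarith
    nlinarith
  have h8 : (d + 1) * ((2 + Real.log u) * d) ≤ (2 * d) * ((2 + Real.log u) * d) := by
    gcongr; linarith
  have h9 : d * ‖∑ n ∈ Icc 1 ⌊u⌋₊, a n‖ ≤ d * (20 * d * (1 + Real.log u)) := by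
    refine hmain.trans ?_
    have : 0 ≤ d * d * Real.log u := by positivity
    nlinarith [mul_pos hdpos hdpos]
  have h10 := le_of_mul_le_mul_left h9 hdpos
  calc _ ≤ 20 * d * (1 + Real.log u) := h10
    _ = _ := by rw [hd]; ring

end Pool.Agent.Lib.H68T
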