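import Pool.Agent.Lib.H68T.Defs

/-!
# Chunk SM1: moments of the singular series factors

Here `W` contains all primes `≤ y`.
-/

open Finset

namespace Pool.Agent.Lib.H68T

lemma SM1_sum_sq (y N : ℕ) (hy : 1 ≤ y) :
    ∑ n ∈ Ico (y + 1) (y + 1 + N), 1 / ((n : ℝ) - 1) ^ 2 ≤
      1 / ((y : ℝ) - 1 / 2) - 1 / ((y : ℝ) + N - 1 / 2) := by
  have hy' : (1 : ℝ) ≤ y := by exact_mod_cast hy
  induction N with
  | zero => simp
  | succ N ih =>
    rw [← add_assoc, Finset.sum_Ico_succ_top (by omega)]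
    have h1 : 1 / (((y + 1 + N : ℕ) : ℝ) - 1) ^ 2 ≤
        1 / ((y : ℝ) + N - 1 / 2) - 1 / ((y : ℝ) + (N + 1 : ℕ) - 1 / 2) := by
      push_cast
      have hN : (0 : ℝ) ≤ N := Nat.cast_nonneg N
      have e1 : (y : ℝ) + 1 + N - 1 = y + N := by ring
      rw [e1, div_sub_div _ _ (by linarith) (by linarith),
        div_le_div_iff₀ (by positivity) (by nlinarith)]
      nlinarith
    linarith

lemma SM1_sum_sq' (y P : ℕ) (hy : 1 ≤ y) :
    ∑ n ∈ Ico (y + 1) (P + 1), 1 / ((n : ℝ) - 1) ^ 2 ≤ 2 / (y : ℝ) := by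
  have hy' : (1 : ℝ) ≤ y := by exact_mod_cast hy
  rcases le_total (P + 1) (y + 1) with h | h
  · rw [Finset.Ico_eq_empty (by omega), Finset.sum_empty]
    positivity
  · obtain ⟨N, rfl⟩ : ∃ N, P = y + N := ⟨P - y, by omega⟩
    have := SM1_sum_sq y N hy
    rw [show y + 1 + N = y + N + 1 by ring] at this
    refine this.trans ?_
    have hN : (0 : ℝ) ≤ N := Nat.cast_nonneg N
    have h1 : 0 ≤ 1 / ((y : ℝ) + N - 1 / 2) := by
      apply div_nonneg <;> linarith
    have h2 : 1 / ((y : ℝ) - 1 / 2) ≤ 2 / y := by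
      rw [div_le_div_iff₀ (by linarith) (by linarith)]
      linarith
    linarith

lemma SM1_sum_tel (y P : ℕ) (hy : 1 ≤ y) :
    ∑ n ∈ Ico (y + 1) (P + 1), 1 / ((n : ℝ) * ((n : ℝ) - 1)) ≤ 1 / (y : ℝ) := by
  have hy' : (1 : ℝ) ≤ y := by exact_mod_cast hy
  rcases le_total (P + 1) (y + 1) with h | h
  · rw [Finset.Ico_eq_empty (by omega), Finset.sum_empty]
    positivity
  · obtain ⟨N, rfl⟩ : ∃ N, P = y + N := ⟨P - y, by omega⟩
    have key : ∀ N : ℕ, ∑ n ∈ Ico (y + 1) (y + N + 1), 1 / ((n : ℝ) * ((n : ℝ) - 1)) ≤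
        1 / y - 1 / ((y : ℝ) + N) := by
      intro N
      induction N with
      | zero => simp
      | succ N ih =>
        rw [show y + (N + 1) + 1 = (y + N + 1) + 1 by ring,
          Finset.sum_Ico_succ_top (by omega)]
        have hN : (0 : ℝ) ≤ N := Nat.cast_nonneg N
        have h1 : 1 / (((y + N + 1 : ℕ) : ℝ) * (((y + N + 1 : ℕ) : ℝ) - 1)) =
            1 / ((y : ℝ) + N) - 1 / ((y : ℝ) + (N + 1 : ℕ)) := by
          push_cast
          have : (y : ℝ) + N ≠ 0 := by linarith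
          have : (y : ℝ) + N + 1 ≠ 0 := by linarith
          have e1 : (y : ℝ) + N + 1 - 1 = y + N := by ring
          have e2 : (y : ℝ) + (N + 1) = y + N + 1 := by ring
          rw [e1, e2]
          field_simp
          ring
        linarith
    have h1 : 0 ≤ 1 / ((y : ℝ) + N) := by positivity
    linarith [key N]

lemma SM1_sub (P W y : ℕ) (hy : ∀ p : ℕ, p.Prime → p ≤ y → p ∣ W) :
    (Icc 1 P).filter (fun p => p.Prime ∧ ¬ p ∣ W) ⊆ Ico (y + 1) (P + 1) := by
  intro p hp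
  rw [mem_filter, mem_Icc] at hp
  rw [mem_Ico]
  refine ⟨?_, by omega⟩
  by_contra hc
  exact hp.2.2 (hy p hp.2.1 (by omega))

/-- Product over primes `p ∤ W` (hence `p > y`) of `1 + 1/(p-1)^2`; use `1 + x ≤ exp x` and
`∑_{n > y} 1/(n-1)^2 ≤ 1/y^2 + 1/y ≤ 2/y` (telescoping). -/
theorem G0_le (P W y : ℕ) (hy1 : 1 ≤ y) (hy : ∀ p : ℕ, p.Prime → p ≤ y → p ∣ W) :
    G0 P W ≤ Real.exp (2 / y) := by
  unfold G0
  have h1 : ∏ p ∈ (Icc 1 P).filter (fun p => p.Prime ∧ ¬ p ∣ W), (1 + 1 / ((p : ℝ) - 1) ^ 2) ≤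
      ∏ p ∈ (Icc 1 P).filter (fun p => p.Prime ∧ ¬ p ∣ W), Real.exp (1 / ((p : ℝ) - 1) ^ 2) := by
    apply Finset.prod_le_prod
    · intro p _
      positivity
    · intro p _
      have := Real.add_one_le_exp (1 / ((p : ℝ) - 1) ^ 2)
      linarith
  refine h1.trans ?_
  rw [← Real.exp_sum]
  apply Real.exp_le_exp.mpr
  refine (Finset.sum_le_sum_of_subset_of_nonneg (SM1_sub P W y hy) ?_).trans
    (SM1_sum_sq' y P hy1)
  intro p _ _
  positivity

lemma SM1_count (M D s : ℕ) (hD : 1 ≤ D) (hs : s ∈ Ico M (2 * M)) :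
    ((((Ico M (2 * M)).filter (fun s' => s' ≠ s)).filter
      (fun s' : ℕ => (D : ℤ) ∣ (s : ℤ) - (s' : ℤ))).card : ℝ) ≤ (M : ℝ) / D := by
  classical
  have hD' : (0 : ℝ) < D := by exact_mod_cast hD
  have h1 : ((Ico M (2 * M)).filter (fun s' => s' ≠ s)).filter
      (fun s' : ℕ => (D : ℤ) ∣ (s : ℤ) - (s' : ℤ)) =
      ((Ico M (2 * M)).filter (fun s' => s' ≡ s [MOD D])).erase s := by
    ext t
    simp only [mem_filter, mem_erase, ne_eq]
    rw [Nat.modEq_iff_dvd]
    tauto
  have hmem : s ∈ (Ico M (2 * M)).filter (fun s' => s' ≡ s [MOD D]) := by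
    rw [mem_filter]
    exact ⟨hs, Nat.ModEq.refl s⟩
  rw [h1, card_erase_of_mem hmem]
  have h2 := Nat.Ico_filter_modEq_card M (2 * M) (r := D) (by omega) s
  have h3 : ((((Ico M (2 * M)).filter (fun s' => s' ≡ s [MOD D])).card : ℤ) : ℝ) <
      (M : ℝ) / D + 1 := by
    rw [h2]
    rw [Int.cast_max]
    apply max_lt
    · push_cast
      have a1 := Int.ceil_lt_add_one (((2 * M : ℕ) - (s : ℚ)) / (D : ℚ))
      have a2 := Int.le_ceil (((M : ℕ) - (s : ℚ)) / (D : ℚ))
      have a3 : ((⌈((2 * M : ℕ) - (s : ℚ)) / (D : ℚ)⌉ : ℚ) : ℝ) <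
          (((((2 * M : ℕ) - (s : ℚ)) / (D : ℚ) + 1 : ℚ)) : ℝ) := by exact_mod_cast a1
      have a4 : (((((M : ℕ) - (s : ℚ)) / (D : ℚ) : ℚ)) : ℝ) ≤
          ((⌈((M : ℕ) - (s : ℚ)) / (D : ℚ)⌉ : ℚ) : ℝ) := by exact_mod_cast a2
      push_cast at a3 a4
      have e1 : (M : ℝ) / D = (2 * M - s) / D - (M - s) / D := by
        rw [← sub_div]; congr 1; ring
      rw [e1]
      linarith
    · rw [Int.cast_zero]
      positivity
  rw [Nat.cast_sub (card_pos.mpr ⟨s, hmem⟩)]
  push_cast at h3 ⊢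
  linarith

/-- For `k ≤ y` the `k`-th moment of `gp` over differences is close to `1`.

Proof. For a prime `p > y ≥ k`: `(1 + 1/(p-1))^k ≤ exp (k/(p-1)) ≤ 1 + 2k/(p-1)` since
`k/(p-1) ≤ 1`. Hence `gp(d)^k ≤ ∏_{p ∣ d} (1 + h p)` with `h p = 2k/(p-1)`, the product over the
primes `p ≤ P`, `p ∤ W`, `p ∣ d`; expand it as `∑_{S} (∏_{p ∈ S} h p) [∏_{p ∈ S} p ∣ d]`
(`Finset.prod_one_add` / `prod_add`; `d ≠ 0`; the sum over the sets `S` of primes `≤ P`, `∤ W`).
The number of pairs `s ≠ s'` in an interval of length `M` with `D ∣ s - s'` is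
`2 ∑_{j ≥ 1, j D < M} (M - j D) ≤ M^2 / D`. So the sum is at most
`M^2 ∏_{p} (1 + h p / p) ≤ M^2 exp (∑_{p > y} 2k/(p(p-1))) ≤ M^2 exp (2k/y)`. -/
theorem gp_moment (P W y k M : ℕ) (hy1 : 1 ≤ y) (hk : k ≤ y)
    (hy : ∀ p : ℕ, p.Prime → p ≤ y → p ∣ W) :
    ∑ s ∈ Ico M (2 * M), ∑ s' ∈ (Ico M (2 * M)).filter (fun s' => s' ≠ s),
      gp P W ((s : ℤ) - s') ^ k ≤ (M : ℝ) ^ 2 * Real.exp (2 * k / y) := by
  classical
  set F := (Icc 1 P).filter (fun p => p.Prime ∧ ¬ p ∣ W) with hF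
  have hFp : ∀ p ∈ F, p.Prime := fun p hp => (mem_filter.mp hp).2.1
  have hFy : ∀ p ∈ F, y + 1 ≤ p := fun p hp => (mem_Ico.mp (SM1_sub P W y hy hp)).1
  have hFr : ∀ p ∈ F, (y : ℝ) ≤ (p : ℝ) - 1 := by
    intro p hp
    have : ((y + 1 : ℕ) : ℝ) ≤ p := by exact_mod_cast hFy p hp
    push_cast at this
    linarith
  have hy' : (1 : ℝ) ≤ y := by exact_mod_cast hy1
  have hk' : (k : ℝ) ≤ y := by exact_mod_cast hk
  -- pointwise bound
  have hpt : ∀ d : ℤ, gp P W d ^ k ≤
      ∑ S ∈ F.powerset, (∏ p ∈ S, (2 * k / ((p : ℝ) - 1))) *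
        (if ((∏ p ∈ S, p : ℕ) : ℤ) ∣ d then 1 else 0) := by
    intro d
    have e1 : gp P W d = ∏ p ∈ F, (if (p : ℤ) ∣ d then (1 + 1 / ((p : ℝ) - 1)) else 1) := by
      unfold gp
      rw [← Finset.prod_filter, hF, Finset.filter_filter]
      congr 1
      ext p
      simp only [mem_filter]
      tauto
    rw [e1, ← Finset.prod_pow]
    have e2 : ∏ p ∈ F, (if (p : ℤ) ∣ d then (1 + 1 / ((p : ℝ) - 1)) else 1) ^ k ≤
        ∏ p ∈ F, (1 + (2 * k / ((p : ℝ) - 1)) * (if (p : ℤ) ∣ d then 1 else 0)) := by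
      apply Finset.prod_le_prod
      · intro p hp
        have := hFr p hp
        have h0 : 0 ≤ 1 / ((p : ℝ) - 1) := by
          apply div_nonneg <;> linarith
        split_ifs <;> positivity
      · intro p hp
        have h1 := hFr p hp
        have hp0 : (0 : ℝ) < (p : ℝ) - 1 := by linarith
        split_ifs with hd
        · have h2 : (1 + 1 / ((p : ℝ) - 1)) ^ k ≤ Real.exp (k / ((p : ℝ) - 1)) := by
            have h3 := Real.add_one_le_exp (1 / ((p : ℝ) - 1))
            have h4 : (1 + 1 / ((p : ℝ) - 1)) ^ k ≤ Real.exp (1 / ((p : ℝ) - 1)) ^ k := by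
              apply pow_le_pow_left₀
              · positivity
              · linarith
            refine h4.trans (le_of_eq ?_)
            rw [← Real.exp_nat_mul]
            congr 1
            ring
          have h5 : |(k : ℝ) / ((p : ℝ) - 1)| ≤ 1 := by
            rw [abs_of_nonneg (by positivity), div_le_one hp0]
            linarith
          have h6 := Real.abs_exp_sub_one_le h5
          rw [abs_of_nonneg (show (0 : ℝ) ≤ (k : ℝ) / ((p : ℝ) - 1) by positivity)] at h6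
          have h7 := (abs_le.mp h6).2
          have h8 : 2 * (k : ℝ) / ((p : ℝ) - 1) = 2 * (k / ((p : ℝ) - 1)) := by ring
          rw [h8]
          linarith
        · simp
    refine e2.trans (le_of_eq ?_)
    rw [Finset.prod_one_add]
    apply Finset.sum_congr rfl
    intro S hS
    rw [mem_powerset] at hS
    rw [Finset.prod_mul_distrib]
    congr 1
    by_cases hall : ∀ p ∈ S, (p : ℤ) ∣ d
    · rw [if_pos, Finset.prod_congr rfl (fun p hp => if_pos (hall p hp)), Finset.prod_const_one]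
      rw [Nat.cast_prod]
      apply Finset.prod_dvd_of_coprime
      · intro p hp q hq hpq
        have := (Nat.coprime_primes (hFp p (hS hp)) (hFp q (hS hq))).mpr hpq
        exact Nat.isCoprime_iff_coprime.mpr this
      · exact hall
    · rw [if_neg]
      · push Not at hall
        obtain ⟨p, hp, hpd⟩ := hall
        exact Finset.prod_eq_zero hp (if_neg hpd)
      · intro hd
        apply hall
        intro p hp
        exact dvd_trans (by exact_mod_cast Finset.dvd_prod_of_mem (fun p => p) hp) hd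
  have hM0 : (0 : ℝ) ≤ M := Nat.cast_nonneg M
  calc ∑ s ∈ Ico M (2 * M), ∑ s' ∈ (Ico M (2 * M)).filter (fun s' => s' ≠ s),
      gp P W ((s : ℤ) - s') ^ k
      ≤ ∑ s ∈ Ico M (2 * M), ∑ s' ∈ (Ico M (2 * M)).filter (fun s' => s' ≠ s),
        ∑ S ∈ F.powerset, (∏ p ∈ S, (2 * k / ((p : ℝ) - 1))) *
        (if ((∏ p ∈ S, p : ℕ) : ℤ) ∣ ((s : ℤ) - s') then 1 else 0) := by
        apply Finset.sum_le_sum
        intro s _
        apply Finset.sum_le_sum
        intro s' _
        exact hpt _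
    _ = ∑ s ∈ Ico M (2 * M), ∑ S ∈ F.powerset, (∏ p ∈ S, (2 * k / ((p : ℝ) - 1))) *
        ((((Ico M (2 * M)).filter (fun s' => s' ≠ s)).filter
          (fun s' : ℕ => ((∏ p ∈ S, p : ℕ) : ℤ) ∣ (s : ℤ) - (s' : ℤ))).card : ℝ) := by
        apply Finset.sum_congr rfl
        intro s _
        rw [Finset.sum_comm]
        apply Finset.sum_congr rfl
        intro S _
        rw [← Finset.mul_sum, Finset.sum_boole]
    _ ≤ ∑ s ∈ Ico M (2 * M), ∑ S ∈ F.powerset, (∏ p ∈ S, (2 * k / ((p : ℝ) - 1))) *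
        ((M : ℝ) / (∏ p ∈ S, p : ℕ)) := by
        apply Finset.sum_le_sum
        intro s hs
        apply Finset.sum_le_sum
        intro S hS
        rw [mem_powerset] at hS
        apply mul_le_mul_of_nonneg_left
        · apply SM1_count _ _ _ _ hs
          apply Nat.one_le_iff_ne_zero.mpr
          rw [Finset.prod_ne_zero_iff]
          intro p hp
          exact (hFp p (hS hp)).ne_zero
        · apply Finset.prod_nonneg
          intro p hp
          have := hFr p (hS hp)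
          apply div_nonneg
          · positivity
          · linarith
    _ = (M : ℝ) ^ 2 * ∑ S ∈ F.powerset, ∏ p ∈ S, (2 * k / ((p : ℝ) * ((p : ℝ) - 1))) := by
        rw [Finset.sum_const, Nat.card_Ico, nsmul_eq_mul, show 2 * M - M = M by omega, pow_two,
          mul_assoc]
        congr 1
        rw [Finset.mul_sum]
        apply Finset.sum_congr rfl
        intro S hS
        rw [Nat.cast_prod, mul_div_left_comm, ← Finset.prod_div_distrib]
        congr 1
        apply Finset.prod_congr rfl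
        intro p _
        rw [div_div, mul_comm ((p : ℝ) - 1)]
    _ = (M : ℝ) ^ 2 * ∏ p ∈ F, (1 + 2 * k / ((p : ℝ) * ((p : ℝ) - 1))) := by
        rw [Finset.prod_one_add]
    _ ≤ (M : ℝ) ^ 2 * Real.exp (2 * k / y) := by
        apply mul_le_mul_of_nonneg_left _ (by positivity)
        have h1 : ∏ p ∈ F, (1 + 2 * k / ((p : ℝ) * ((p : ℝ) - 1))) ≤
            ∏ p ∈ F, Real.exp (2 * k / ((p : ℝ) * ((p : ℝ) - 1))) := by
          apply Finset.prod_le_prod
          · intro p hp
            have := hFr p hp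
            have h2 : (0 : ℝ) ≤ 2 * k / ((p : ℝ) * ((p : ℝ) - 1)) := by
              apply div_nonneg (by positivity)
              apply mul_nonneg (by positivity) (by linarith)
            linarith
          · intro p hp
            have := Real.add_one_le_exp (2 * k / ((p : ℝ) * ((p : ℝ) - 1)))
            linarith
        refine h1.trans ?_
        rw [← Real.exp_sum]
        apply Real.exp_le_exp.mpr
        have h3 : ∑ p ∈ F, 1 / ((p : ℝ) * ((p : ℝ) - 1)) ≤ 1 / y := by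
          refine (Finset.sum_le_sum_of_subset_of_nonneg (SM1_sub P W y hy) ?_).trans
            (SM1_sum_tel y P hy1)
          intro p hp _
          have h4 : (y + 1 : ℕ) ≤ p := (mem_Ico.mp hp).1
          have h5 : ((y + 1 : ℕ) : ℝ) ≤ p := by exact_mod_cast h4
          push_cast at h5
          apply div_nonneg zero_le_one
          apply mul_nonneg (by positivity) (by linarith)
        calc ∑ p ∈ F, 2 * (k : ℝ) / ((p : ℝ) * ((p : ℝ) - 1))
            = 2 * k * ∑ p ∈ F, 1 / ((p : ℝ) * ((p : ℝ) - 1)) := by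
              rw [Finset.mul_sum]
              apply Finset.sum_congr rfl
              intro p _
              ring
          _ ≤ 2 * k * (1 / y) := by
              apply mul_le_mul_of_nonneg_left h3 (by positivity)
          _ = 2 * k / y := by ring

theorem one_le_G0 (P W : ℕ) : 1 ≤ G0 P W := by
  unfold G0
  apply Finset.prod_induction _ (fun x : ℝ => 1 ≤ x)
  · intro a b ha hb
    exact one_le_mul_of_one_le_of_one_le ha hb
  · exact le_rfl
  · intro p _
    have : 0 ≤ 1 / ((p : ℝ) - 1) ^ 2 := by positivity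
    linarith

theorem one_le_gp (P W : ℕ) (d : ℤ) : 1 ≤ gp P W d := by
  unfold gp
  apply Finset.prod_induction _ (fun x : ℝ => 1 ≤ x)
  · intro a b ha hb
    exact one_le_mul_of_one_le_of_one_le ha hb
  · exact le_rfl
  · intro p hp
    have h1 : 1 ≤ p := (mem_Icc.mp (mem_filter.mp hp).1).1
    have h2 : (1 : ℝ) ≤ p := by exact_mod_cast h1
    have : 0 ≤ 1 / ((p : ℝ) - 1) := by
      apply div_nonneg <;> linarith
    linarith

end Pool.Agent.Lib.H68T
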