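import Pool.Agent.Lib.H68T.SM1

/-!
# Chunk SM2: the second moment method over lifts
-/

open Finset

namespace Pool.Agent.Lib.H68T

lemma SM2_prod (k M : ℕ) (g : Fin k → ℕ → ℝ) :
    ∏ i, ∑ c ∈ range M, g i c = ∑ c : Fin k → Fin M, ∏ i, g i (c i : ℕ) := by
  simp only [Finset.sum_range]
  rw [Finset.prod_univ_sum, Fintype.piFinset_univ]

open scoped Classical in
/-- **Second moment.** Non-negative functions `f 0, ..., f (k-1)`, with mean at least `1 - ε` on
the intervals `[s, s + M)`, `s ∈ [M, 2M)`, and with pair correlations at most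
`G0 * gp (s - s') + ε + e_i s s'`, `e_i` tiny in mean square. Then for all but few `c`, the sum
`X c = ∑_s ∏_i f i (s + c i)` is positive.

Proof. `∑_c X c = ∑_s ∏_i (∑_{c < M} f i (s + c)) ≥ M ((1-ε) M)^k`
(`Finset.prod_univ_sum` / `Fintype.piFinset`). Likewise
`∑_c (X c)^2 = ∑_{s, s'} ∏_i ∑_{c < M} f i (s + c) f i (s' + c)`. For the pairs `s ≠ s'` with all
`e_i s s' ≤ ε` the product is at most `(M (G0 gp + 2ε))^k ≤ M^k G0^k gp^k (1 + 2ε)^k`
(`G0, gp ≥ 1`), total at most `M^k M^2 exp (4k/y + 2kε)` by `G0_le`, `gp_moment`.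
For the other pairs (at most `M + ∑_i M^2 η/ε^2` of them) it is at most `(B^2 M)^k`.
Cauchy-Schwarz: `(∑ X)^2 ≤ #{X ≠ 0} ∑ X^2`. With `a = (1-ε)^(2k) ≥ 1 - 2kε` and
`E = exp (4k/y + 2kε) + B^(2k) (kη/ε^2 + 1/M) ≥ 1` this gives
`#{X = 0} ≤ M^k (1 - a/E) ≤ M^k (E - a)`, and `exp u - 1 ≤ 2u` for `u ≤ 1`. -/
theorem second_moment (k M W y P : ℕ) (f : Fin k → ℕ → ℝ) (B ε η : ℝ) (hk : 1 ≤ k) (hM : 1 ≤ M)
    (hky : 16 * k ≤ y) (hy : ∀ p : ℕ, p.Prime → p ≤ y → p ∣ W) (hε0 : 0 < ε)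
    (hε : 16 * k * ε ≤ 1) (hη : 0 ≤ η) (hB1 : 1 ≤ B) (hf0 : ∀ i l, 0 ≤ f i l)
    (hfB : ∀ i l, f i l ≤ B)
    (hmean : ∀ i, ∀ s ∈ Ico M (2 * M), (1 - ε) * M ≤ ∑ c ∈ range M, f i (s + c))
    (hpair : ∀ i, ∃ e : ℕ → ℕ → ℝ, (∀ s s', 0 ≤ e s s') ∧
      ∑ s ∈ Ico M (2 * M), ∑ s' ∈ Ico M (2 * M), (e s s') ^ 2 ≤ (M : ℝ) ^ 2 * η ∧
      ∀ s ∈ Ico M (2 * M), ∀ s' ∈ Ico M (2 * M), s ≠ s' →
        ∑ c ∈ range M, f i (s + c) * f i (s' + c) ≤
          M * (G0 P W * gp P W ((s : ℤ) - s') + ε + e s s')) :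
    (((univ : Finset (Fin k → Fin M)).filter
      (fun c : Fin k → Fin M => ∀ s ∈ Ico M (2 * M), ∏ i, f i (s + (c i : ℕ)) = 0)).card : ℝ) ≤
      (40 * (k / y + k * ε) + 8 * B ^ (2 * k) * (k * η / ε ^ 2 + 1 / M)) * (M : ℝ) ^ k := by
  have hM' : (1 : ℝ) ≤ M := by exact_mod_cast hM
  have hM0 : (0 : ℝ) < M := by linarith
  have hk' : (1 : ℝ) ≤ k := by exact_mod_cast hk
  have hy1 : 1 ≤ y := by omega
  have hy' : (16 : ℝ) * k ≤ y := by exact_mod_cast hky
  have hy0 : (0 : ℝ) < y := by linarith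
  have hε1 : ε ≤ 1 / 16 := by nlinarith
  set I := Ico M (2 * M) with hI
  have hIcard : (I.card : ℝ) = M := by
    rw [hI, Nat.card_Ico]
    congr 1
    omega
  set X : (Fin k → Fin M) → ℝ := fun c => ∑ s ∈ I, ∏ i, f i (s + (c i : ℕ)) with hX
  have hterm0 : ∀ (c : Fin k → Fin M) (s : ℕ), 0 ≤ ∏ i, f i (s + (c i : ℕ)) := fun c s =>
    Finset.prod_nonneg (fun i _ => hf0 i _)
  have hX0 : ∀ c, 0 ≤ X c := fun c => Finset.sum_nonneg (fun s _ => hterm0 c s)
  -- the zero set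
  have hZ : ∀ c : Fin k → Fin M, (∀ s ∈ I, ∏ i, f i (s + (c i : ℕ)) = 0) ↔ X c = 0 := by
    intro c
    rw [hX]
    simp only
    rw [Finset.sum_eq_zero_iff_of_nonneg (fun s _ => hterm0 c s)]
  suffices hmain : (((univ : Finset (Fin k → Fin M)).filter (fun c => X c = 0)).card : ℝ) ≤
      (40 * (k / y + k * ε) + 8 * B ^ (2 * k) * (k * η / ε ^ 2 + 1 / M)) * (M : ℝ) ^ k by
    refine le_trans (le_of_eq ?_) hmain
    congr 2
    ext c
    simp only [mem_filter, mem_univ, true_and]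
    exact hZ c
  -- first moment
  have hfirst : (M : ℝ) * ((1 - ε) * M) ^ k ≤ ∑ c, X c := by
    have h1 : ∑ c, X c = ∑ s ∈ I, ∏ i, ∑ c ∈ range M, f i (s + c) := by
      rw [hX]
      rw [Finset.sum_comm]
      apply Finset.sum_congr rfl
      intro s _
      rw [SM2_prod k M (fun i c => f i (s + c))]
    rw [h1]
    have h2 : ∀ s ∈ I, ((1 - ε) * M) ^ k ≤ ∏ i, ∑ c ∈ range M, f i (s + c) := by
      intro s hs
      have h3 : ((1 - ε) * M) ^ k = ∏ _i : Fin k, ((1 - ε) * (M : ℝ)) := by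
        rw [Finset.prod_const, Finset.card_univ, Fintype.card_fin]
      rw [h3]
      apply Finset.prod_le_prod
      · intro i _
        apply mul_nonneg <;> linarith
      · intro i _
        exact hmean i s hs
    have h4 := Finset.sum_le_sum h2
    rw [Finset.sum_const, nsmul_eq_mul, hIcard] at h4
    exact h4
  -- second moment
  choose e he0 he2 heP using hpair
  set E : ℝ := Real.exp (4 * k / y + 2 * k * ε) + B ^ (2 * k) * (k * η / ε ^ 2 + 1 / M) with hE
  have hsecond : ∑ c, X c ^ 2 ≤ (M : ℝ) ^ k * (M : ℝ) ^ 2 * E := by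
    set Cr : ℕ → ℕ → ℝ := fun s s' => ∏ i, ∑ c ∈ range M, f i (s + c) * f i (s' + c) with hCr
    have h1 : ∑ c, X c ^ 2 = ∑ s ∈ I, ∑ s' ∈ I, Cr s s' := by
      have h2 : ∀ c, X c ^ 2 = ∑ s ∈ I, ∑ s' ∈ I, ∏ i, (f i (s + (c i : ℕ)) * f i (s' + (c i : ℕ))) := by
        intro c
        rw [hX]
        simp only
        rw [pow_two, Finset.sum_mul_sum]
        apply Finset.sum_congr rfl
        intro s _
        apply Finset.sum_congr rfl
        intro s' _
        rw [Finset.prod_mul_distrib]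
      rw [Finset.sum_congr rfl (fun c _ => h2 c), Finset.sum_comm]
      apply Finset.sum_congr rfl
      intro s _
      rw [Finset.sum_comm]
      apply Finset.sum_congr rfl
      intro s' _
      rw [hCr]
      simp only
      rw [SM2_prod k M (fun i c => f i (s + c) * f i (s' + c))]
    rw [h1]
    have hCr0 : ∀ s s' i, 0 ≤ ∑ c ∈ range M, f i (s + c) * f i (s' + c) := fun s s' i =>
      Finset.sum_nonneg (fun c _ => mul_nonneg (hf0 i _) (hf0 i _))
    -- trivial bound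
    have htriv : ∀ s s', Cr s s' ≤ B ^ (2 * k) * (M : ℝ) ^ k := by
      intro s s'
      have h3 : B ^ (2 * k) * (M : ℝ) ^ k = ∏ _i : Fin k, (B ^ 2 * (M : ℝ)) := by
        rw [Finset.prod_const, Finset.card_univ, Fintype.card_fin, mul_pow, pow_mul]
      rw [h3]
      apply Finset.prod_le_prod
      · intro i _
        exact hCr0 s s' i
      · intro i _
        have h4 : ∀ c ∈ range M, f i (s + c) * f i (s' + c) ≤ B ^ 2 := by
          intro c _
          rw [pow_two]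
          exact mul_le_mul (hfB i _) (hfB i _) (hf0 i _) (by linarith)
        have h5 := Finset.sum_le_sum h4
        rw [Finset.sum_const, card_range, nsmul_eq_mul] at h5
        linarith
    -- good bound
    have hgood : ∀ s ∈ I, ∀ s' ∈ I, s ≠ s' → (∀ i, e i s s' ≤ ε) →
        Cr s s' ≤ (M : ℝ) ^ k * Real.exp (2 * k / y) * Real.exp (2 * k * ε) *
          gp P W ((s : ℤ) - s') ^ k := by
      intro s hs s' hs' hne hall
      have hg1 := one_le_G0 P W
      have hg2 := one_le_gp P W ((s : ℤ) - s')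
      have hg3 : 1 ≤ G0 P W * gp P W ((s : ℤ) - s') := one_le_mul_of_one_le_of_one_le hg1 hg2
      have h3 : Cr s s' ≤ ∏ _i : Fin k,
          ((M : ℝ) * (G0 P W * gp P W ((s : ℤ) - s') * (1 + 2 * ε))) := by
        apply Finset.prod_le_prod
        · intro i _
          exact hCr0 s s' i
        · intro i _
          refine (heP i s hs s' hs' hne).trans ?_
          apply mul_le_mul_of_nonneg_left _ hM0.le
          have := hall i
          nlinarith
      refine h3.trans ?_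
      rw [Finset.prod_const, Finset.card_univ, Fintype.card_fin, mul_pow, mul_pow, mul_pow]
      have h4 : G0 P W ^ k ≤ Real.exp (2 * k / y) := by
        have h5 := G0_le P W y hy1 hy
        have h6 : G0 P W ^ k ≤ Real.exp (2 / y) ^ k := pow_le_pow_left₀ (by linarith) h5 k
        rw [← Real.exp_nat_mul] at h6
        rw [show 2 * (k : ℝ) / y = k * (2 / y) by ring]
        exact h6
      have h7 : (1 + 2 * ε) ^ k ≤ Real.exp (2 * k * ε) := by
        have h8 := Real.add_one_le_exp (2 * ε)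
        have h9 : (1 + 2 * ε) ^ k ≤ Real.exp (2 * ε) ^ k :=
          pow_le_pow_left₀ (by linarith) (by linarith) k
        rw [← Real.exp_nat_mul] at h9
        rw [show 2 * (k : ℝ) * ε = k * (2 * ε) by ring]
        exact h9
      have h10 : 0 ≤ gp P W ((s : ℤ) - s') ^ k := pow_nonneg (by linarith) k
      have h11 : 0 ≤ G0 P W ^ k := pow_nonneg (by linarith) k
      have h12 : 0 ≤ (1 + 2 * ε) ^ k := pow_nonneg (by linarith) k
      calc (M : ℝ) ^ k * (G0 P W ^ k * gp P W ((s : ℤ) - s') ^ k * (1 + 2 * ε) ^ k)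
          = (M : ℝ) ^ k * gp P W ((s : ℤ) - s') ^ k * (G0 P W ^ k * (1 + 2 * ε) ^ k) := by ring
        _ ≤ (M : ℝ) ^ k * gp P W ((s : ℤ) - s') ^ k *
            (Real.exp (2 * k / y) * Real.exp (2 * k * ε)) := by
            apply mul_le_mul_of_nonneg_left
            · exact mul_le_mul h4 h7 h12 (Real.exp_pos _).le
            · positivity
        _ = _ := by ring
    -- the pointwise majorant
    have hmaj : ∀ s ∈ I, ∀ s' ∈ I, Cr s s' ≤
        (if s' ≠ s then (M : ℝ) ^ k * Real.exp (2 * k / y) * Real.exp (2 * k * ε) *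
          gp P W ((s : ℤ) - s') ^ k else 0) +
        B ^ (2 * k) * (M : ℝ) ^ k * ((if s' = s then 1 else 0) +
          ∑ i, (e i s s') ^ 2 / ε ^ 2) := by
      intro s hs s' hs'
      have hB0 : 0 ≤ B ^ (2 * k) * (M : ℝ) ^ k := by positivity
      have hsum0 : 0 ≤ ∑ i, (e i s s') ^ 2 / ε ^ 2 :=
        Finset.sum_nonneg (fun i _ => by positivity)
      have hgpk : 0 ≤ gp P W ((s : ℤ) - s') ^ k :=
        pow_nonneg (by linarith [one_le_gp P W ((s : ℤ) - s')]) k
      by_cases hss : s' = s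
      · rw [if_neg (by simpa using hss), if_pos hss]
        have := htriv s s'
        nlinarith
      · rw [if_pos hss, if_neg hss]
        by_cases hall : ∀ i, e i s s' ≤ ε
        · have := hgood s hs s' hs' (fun h => hss h.symm) hall
          nlinarith
        · push Not at hall
          obtain ⟨i, hi⟩ := hall
          have h3 : 1 ≤ ∑ i, (e i s s') ^ 2 / ε ^ 2 := by
            have h4 : 1 ≤ (e i s s') ^ 2 / ε ^ 2 := by
              rw [one_le_div (by positivity)]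
              exact pow_le_pow_left₀ hε0.le hi.le 2
            exact h4.trans (Finset.single_le_sum (f := fun i => (e i s s') ^ 2 / ε ^ 2)
              (fun i _ => by positivity) (mem_univ i))
          have h5 := htriv s s'
          have h6 : 0 ≤ (M : ℝ) ^ k * Real.exp (2 * k / y) * Real.exp (2 * k * ε) *
            gp P W ((s : ℤ) - s') ^ k := by positivity
          nlinarith
    have hsum : ∑ s ∈ I, ∑ s' ∈ I, Cr s s' ≤ ∑ s ∈ I, ∑ s' ∈ I,
        ((if s' ≠ s then (M : ℝ) ^ k * Real.exp (2 * k / y) * Real.exp (2 * k * ε) *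
          gp P W ((s : ℤ) - s') ^ k else 0) +
        B ^ (2 * k) * (M : ℝ) ^ k * ((if s' = s then 1 else 0) +
          ∑ i, (e i s s') ^ 2 / ε ^ 2)) :=
      Finset.sum_le_sum (fun s hs => Finset.sum_le_sum (fun s' hs' => hmaj s hs s' hs'))
    refine hsum.trans ?_
    simp only [Finset.sum_add_distrib]
    have hp1 : ∑ s ∈ I, ∑ s' ∈ I, (if s' ≠ s then (M : ℝ) ^ k * Real.exp (2 * k / y) *
        Real.exp (2 * k * ε) * gp P W ((s : ℤ) - s') ^ k else 0) ≤
        (M : ℝ) ^ k * (M : ℝ) ^ 2 * Real.exp (4 * k / y + 2 * k * ε) := by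
      have h3 : ∑ s ∈ I, ∑ s' ∈ I, (if s' ≠ s then (M : ℝ) ^ k * Real.exp (2 * k / y) *
          Real.exp (2 * k * ε) * gp P W ((s : ℤ) - s') ^ k else 0) =
          (M : ℝ) ^ k * Real.exp (2 * k / y) * Real.exp (2 * k * ε) *
          ∑ s ∈ I, ∑ s' ∈ I.filter (fun s' => s' ≠ s), gp P W ((s : ℤ) - s') ^ k := by
        rw [Finset.mul_sum]
        apply Finset.sum_congr rfl
        intro s _
        rw [Finset.mul_sum, Finset.sum_filter]
      rw [h3]
      have h4 := gp_moment P W y k M hy1 (by omega) hy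
      rw [← hI] at h4
      have h5 : 0 ≤ (M : ℝ) ^ k * Real.exp (2 * k / y) * Real.exp (2 * k * ε) := by positivity
      refine (mul_le_mul_of_nonneg_left h4 h5).trans (le_of_eq ?_)
      rw [Real.exp_add, show 4 * (k : ℝ) / y = 2 * k / y + 2 * k / y by ring, Real.exp_add]
      ring
    have hp2 : ∑ s ∈ I, ∑ s' ∈ I, (B ^ (2 * k) * (M : ℝ) ^ k * ((if s' = s then (1 : ℝ) else 0) +
          ∑ i, (e i s s') ^ 2 / ε ^ 2)) ≤
        (M : ℝ) ^ k * (M : ℝ) ^ 2 * (B ^ (2 * k) * (k * η / ε ^ 2 + 1 / M)) := by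
      have h3 : ∑ s ∈ I, ∑ s' ∈ I, (B ^ (2 * k) * (M : ℝ) ^ k * ((if s' = s then (1 : ℝ) else 0) +
          ∑ i, (e i s s') ^ 2 / ε ^ 2)) = B ^ (2 * k) * (M : ℝ) ^ k *
          ((∑ s ∈ I, ∑ s' ∈ I, (if s' = s then (1 : ℝ) else 0)) +
            ∑ i, (∑ s ∈ I, ∑ s' ∈ I, (e i s s') ^ 2) / ε ^ 2) := by
        simp only [← Finset.mul_sum]
        congr 1
        simp only [Finset.sum_add_distrib]
        congr 1
        simp only [Finset.sum_div]
        rw [Finset.sum_comm]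
        rw [Finset.sum_comm (s := (univ : Finset (Fin k))) (t := I)]
        rw [Finset.sum_comm]
        apply Finset.sum_congr rfl
        intro s _
        rw [Finset.sum_comm]
      rw [h3]
      have h4 : ∑ s ∈ I, ∑ s' ∈ I, (if s' = s then (1 : ℝ) else 0) = M := by
        have : ∀ s ∈ I, ∑ s' ∈ I, (if s' = s then (1 : ℝ) else 0) = 1 := by
          intro s hs
          rw [Finset.sum_ite_eq' I s (fun _ => (1 : ℝ)), if_pos hs]
        rw [Finset.sum_congr rfl this, Finset.sum_const, nsmul_eq_mul, mul_one, hIcard]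
      have h5 : ∑ i : Fin k, (∑ s ∈ I, ∑ s' ∈ I, (e i s s') ^ 2) / ε ^ 2 ≤
          k * ((M : ℝ) ^ 2 * η / ε ^ 2) := by
        have h6 : ∀ i ∈ (univ : Finset (Fin k)), (∑ s ∈ I, ∑ s' ∈ I, (e i s s') ^ 2) / ε ^ 2 ≤
            (M : ℝ) ^ 2 * η / ε ^ 2 := by
          intro i _
          exact div_le_div_of_nonneg_right (he2 i) (by positivity)
        have h7 := Finset.sum_le_sum h6
        rw [Finset.sum_const, Finset.card_univ, Fintype.card_fin, nsmul_eq_mul] at h7
        exact h7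
      rw [h4]
      have h8 : 0 ≤ B ^ (2 * k) * (M : ℝ) ^ k := by positivity
      calc B ^ (2 * k) * (M : ℝ) ^ k * (M + ∑ i : Fin k, (∑ s ∈ I, ∑ s' ∈ I, (e i s s') ^ 2) / ε ^ 2)
          ≤ B ^ (2 * k) * (M : ℝ) ^ k * (M + k * ((M : ℝ) ^ 2 * η / ε ^ 2)) :=
            mul_le_mul_of_nonneg_left (by linarith) h8
        _ = (M : ℝ) ^ k * (M : ℝ) ^ 2 * (B ^ (2 * k) * (k * η / ε ^ 2 + 1 / M)) := by
            field_simp
            ring
    rw [hE, mul_add]
    have hp3 := add_le_add hp1 hp2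
    simp only [← Finset.sum_add_distrib] at hp3 ⊢
    simpa only [mul_add, Finset.sum_add_distrib] using hp3
  -- Cauchy-Schwarz
  set NZ := (univ : Finset (Fin k → Fin M)).filter (fun c => X c ≠ 0) with hNZ
  have hCS : (∑ c, X c) ^ 2 ≤ (NZ.card : ℝ) * ∑ c, X c ^ 2 := by
    have h1 : ∑ c, X c = ∑ c ∈ NZ, X c := by
      rw [hNZ, Finset.sum_filter_ne_zero]
    have h2 : ∑ c ∈ NZ, X c ^ 2 ≤ ∑ c, X c ^ 2 :=
      Finset.sum_le_sum_of_subset_of_nonneg (Finset.subset_univ _) (fun c _ _ => sq_nonneg _)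
    rw [h1]
    exact sq_sum_le_card_mul_sum_sq.trans (mul_le_mul_of_nonneg_left h2 (Nat.cast_nonneg _))
  have hcard : (((univ : Finset (Fin k → Fin M)).filter (fun c => X c = 0)).card : ℝ) +
      (NZ.card : ℝ) = (M : ℝ) ^ k := by
    have h1 := Finset.card_filter_add_card_filter_not
      (s := (univ : Finset (Fin k → Fin M))) (p := fun c => X c = 0)
    rw [Finset.card_univ, Fintype.card_fun, Fintype.card_fin, Fintype.card_fin] at h1
    exact_mod_cast h1
  have hMk : (0 : ℝ) < (M : ℝ) ^ k := by positivity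
  set a : ℝ := ((1 - ε) ^ k) ^ 2 with ha
  have hE1 : 1 ≤ E := by
    have h1 : 1 ≤ Real.exp (4 * k / y + 2 * k * ε) := Real.one_le_exp (by positivity)
    have h2 : 0 ≤ B ^ (2 * k) * (k * η / ε ^ 2 + 1 / M) := by positivity
    linarith
  have ha1 : 1 - 2 * k * ε ≤ a := by
    have h1 := one_add_mul_le_pow (a := -ε) (by linarith) (2 * k)
    rw [ha, ← pow_mul, mul_comm k 2]
    have h2 : (1 + -ε) = 1 - ε := by ring
    rw [h2] at h1
    push_cast at h1
    linarith
  have ha0 : 0 ≤ a := by positivity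
  have ha2 : a ≤ 1 := by
    rw [ha, ← pow_mul]
    exact pow_le_one₀ (by linarith) (by linarith)
  -- lower bound for the number of non-zeros
  have hNZ1 : (M : ℝ) ^ k * a ≤ NZ.card * E := by
    have h1 : ((M : ℝ) * ((1 - ε) * M) ^ k) ^ 2 ≤ (∑ c, X c) ^ 2 := by
      apply pow_le_pow_left₀ _ hfirst
      apply mul_nonneg hM0.le
      apply pow_nonneg
      apply mul_nonneg <;> linarith
    have h2 : (∑ c, X c) ^ 2 ≤ (NZ.card : ℝ) * ((M : ℝ) ^ k * (M : ℝ) ^ 2 * E) :=
      hCS.trans (mul_le_mul_of_nonneg_left hsecond (Nat.cast_nonneg _))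
    have h3 := h1.trans h2
    have h4 : ((M : ℝ) * ((1 - ε) * M) ^ k) ^ 2 = ((M : ℝ) ^ k * (M : ℝ) ^ 2) * ((M : ℝ) ^ k * a) := by
      rw [ha, mul_pow (1 - ε)]
      ring
    rw [h4, show (NZ.card : ℝ) * ((M : ℝ) ^ k * (M : ℝ) ^ 2 * E) =
      ((M : ℝ) ^ k * (M : ℝ) ^ 2) * (NZ.card * E) by ring] at h3
    exact le_of_mul_le_mul_left h3 (by positivity)
  have hfin : (((univ : Finset (Fin k → Fin M)).filter (fun c => X c = 0)).card : ℝ) ≤
      (E - a) * (M : ℝ) ^ k := by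
    have h1 : (NZ.card : ℝ) ≤ (M : ℝ) ^ k := by
      have : (0 : ℝ) ≤ (((univ : Finset (Fin k → Fin M)).filter (fun c => X c = 0)).card : ℝ) :=
        Nat.cast_nonneg _
      linarith
    have h2 : (NZ.card : ℝ) * (E - 1) ≤ (M : ℝ) ^ k * (E - 1) :=
      mul_le_mul_of_nonneg_right h1 (by linarith)
    nlinarith
  refine hfin.trans (mul_le_mul_of_nonneg_right ?_ hMk.le)
  have hu : |4 * (k : ℝ) / y + 2 * k * ε| ≤ 1 := by
    rw [abs_of_nonneg (by positivity)]
    have h1 : 4 * (k : ℝ) / y ≤ 1 / 4 := by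
      rw [div_le_iff₀ hy0]
      linarith
    nlinarith
  have h6 := Real.abs_exp_sub_one_le hu
  rw [abs_of_nonneg (show (0 : ℝ) ≤ 4 * (k : ℝ) / y + 2 * k * ε by positivity)] at h6
  have h7 := (abs_le.mp h6).2
  have h8 : 0 ≤ B ^ (2 * k) * (k * η / ε ^ 2 + 1 / M) := by positivity
  have h9 : 0 ≤ (k : ℝ) / y := by positivity
  have h10 : 0 ≤ (k : ℝ) * ε := by positivity
  have h11 : 4 * (k : ℝ) / y = 4 * (k / y) := by ring
  rw [hE]
  rw [h11] at h7 ⊢
  nlinarith

end Pool.Agent.Lib.H68T
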